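import Pool.Agent.VCU.CLT

/-!
# `T_CLO`: the other classes
-/

set_option autoImplicit false

namespace Pool.Agent.VCU

open Pool.Agent.VCC Pool.Agent.VCT HilbPts

universe u

section Classes

variable {m s : ℕ}

/-- the class of a product of three variables -/
theorem CLO_.three (a b c : Option (Fin m)) :
    (∃ l, CLT_.es a + CLT_.es b + CLT_.es c = (ei l : Cl m)) ∨
    CLT_.es a + CLT_.es b + CLT_.es c = (eZ : Cl m) ∨
    (∃ i j l, i ≠ j ∧ i ≠ l ∧ j ≠ l ∧
      CLT_.es a + CLT_.es b + CLT_.es c = (ei i : Cl m) + ei j + ei l) ∨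
    ∃ i j, i ≠ j ∧ CLT_.es a + CLT_.es b + CLT_.es c = (ei i : Cl m) + ei j + eZ := by
  have one : ∀ x : Option (Fin m), (∃ l, CLT_.es x = (ei l : Cl m)) ∨
      CLT_.es x = (eZ : Cl m) := by
    intro x
    cases x with
    | none => exact Or.inr rfl
    | some l => exact Or.inl ⟨l, rfl⟩
  by_cases hab : a = b
  · have h : CLT_.es a + CLT_.es b + CLT_.es c = CLT_.es c := by
      rw [hab, CLL_.add_self, zero_add]
    rw [h]
    rcases one c with h1 | h1
    · exact Or.inl h1
    · exact Or.inr (Or.inl h1)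
  by_cases hac : a = c
  · have h : CLT_.es a + CLT_.es b + CLT_.es c = CLT_.es b := by
      rw [hac, add_assoc, add_comm (CLT_.es b), ← add_assoc, CLL_.add_self, zero_add]
    rw [h]
    rcases one b with h1 | h1
    · exact Or.inl h1
    · exact Or.inr (Or.inl h1)
  by_cases hbc : b = c
  · have h : CLT_.es a + CLT_.es b + CLT_.es c = CLT_.es a := by
      rw [hbc, add_assoc, CLL_.add_self, add_zero]
    rw [h]
    rcases one a with h1 | h1
    · exact Or.inl h1
    · exact Or.inr (Or.inl h1)
  right; right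
  rcases a with _ | i
  · rcases b with _ | j
    · exact absurd rfl hab
    rcases c with _ | l
    · exact absurd rfl hac
    right
    refine ⟨j, l, fun h => hbc (by rw [h]), ?_⟩
    change (eZ : Cl m) + ei j + ei l = _
    abel
  · rcases b with _ | j
    · rcases c with _ | l
      · exact absurd rfl hbc
      right
      refine ⟨i, l, fun h => hac (by rw [h]), ?_⟩
      change (ei i : Cl m) + eZ + ei l = _
      abel
    · rcases c with _ | l
      · right
        exact ⟨i, j, fun h => hab (by rw [h]), rfl⟩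
      · left
        exact ⟨i, j, l, fun h => hab (by rw [h]), fun h => hac (by rw [h]),
          fun h => hbc (by rw [h]), rfl⟩

/-- the other classes are not classes of products of three variables -/
theorem CLO_.ne {χ : Cl m} (h1 : ∀ l, χ ≠ ei l) (h2 : χ ≠ eZ)
    (h3 : ∀ i j l, i ≠ j → i ≠ l → j ≠ l → χ ≠ ei i + ei j + ei l)
    (h4 : ∀ i j, i ≠ j → χ ≠ ei i + ei j + eZ) (x y z : IZ m s) :
    clz x + clz y + clz z ≠ χ := by
  intro h
  rw [CLT_.clz_eq x, CLT_.clz_eq y, CLT_.clz_eq z] at h
  rcases CLO_.three (CLT_.ix x) (CLT_.ix y) (CLT_.ix z) with ⟨l, h5⟩ | h5 | ⟨i, j, l, a, b, c, h5⟩ |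
    ⟨i, j, a, h5⟩
  · exact h1 l (h.symm.trans h5)
  · exact h2 (h.symm.trans h5)
  · exact h3 i j l a b c (h.symm.trans h5)
  · exact h4 i j a (h.symm.trans h5)

end Classes

theorem p_CLO : T_CLO.{u} := by
  intro m s t t' K _ w v hz qz qz' χ h1 h2 h3 h4
  have key : ∀ x y z : IZ m s, clz x + clz y + clz z ≠ χ := CLO_.ne h1 h2 h3 h4
  constructor
  · intro T _ hT _ x y z
    by_contra h
    exact key x y z (hT x y z h)
  · intro lam _ hL _
    have hlam : ∀ t y z, lam t y z = 0 := by
      intro t y z
      by_contra h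
      apply key y z t
      rw [hL t y z h, add_comm (clz t), add_assoc, CLL_.add_self, add_zero]
    refine ⟨0, fun t ht => absurd rfl ht, fun t => ?_⟩
    have hzero : (fun y z => lam t y z - transl 0 t y z) = 0 := by
      funext y z
      simp [transl, hlam]
    rw [hzero]
    exact Submodule.zero_mem _

end Pool.Agent.VCU
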