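import Pool.Agent.VCU.CLL

/-!
# `T_CLT`: the linear condition for the classes of three blocks
-/

set_option autoImplicit false

namespace Pool.Agent.VCU

open Pool.Agent.VCC Pool.Agent.VCT HilbPts

universe u

section Classes

variable {m s : ℕ}

/-- class of a block -/
def CLT_.es (a : Option (Fin m)) : Cl m := Pi.single a 1

/-- block of a variable -/
def CLT_.ix : IZ m s → Option (Fin m)
  | Sum.inl x => some x.1
  | Sum.inr _ => none

theorem CLT_.clz_eq (t : IZ m s) : clz t = CLT_.es (CLT_.ix t) := by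
  rcases t with x | b <;> rfl

theorem CLT_.es_apply (a b : Option (Fin m)) : CLT_.es a b = if b = a then 1 else 0 := by
  simp only [CLT_.es, Pi.single_apply]

theorem CLT_.zero_ne {d e f : Option (Fin m)} (hde : d ≠ e) (hdf : d ≠ f) (hef : e ≠ f)
    (c : Option (Fin m)) : (0 : Cl m) ≠ CLT_.es c + (CLT_.es d + CLT_.es e + CLT_.es f) := by
  intro h
  have h1 := congrFun h d
  have h2 := congrFun h e
  simp only [Pi.zero_apply, Pi.add_apply, CLT_.es_apply, if_neg hde, if_neg hdf, if_neg hef,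
    if_neg hde.symm, if_true] at h1 h2
  have h3 : d = c := by
    by_contra h3
    rw [if_neg h3] at h1
    exact absurd h1 (by decide)
  have h4 : e = c := by
    by_contra h4
    rw [if_neg h4] at h2
    exact absurd h2 (by decide)
  exact hde (h3.trans h4.symm)

theorem CLT_.two {a b c d e f : Option (Fin m)} (hde : d ≠ e) (hdf : d ≠ f)
    (hef : e ≠ f) (h : CLT_.es a + CLT_.es b = CLT_.es c + (CLT_.es d + CLT_.es e + CLT_.es f)) :
    (c = d ∧ ((a = e ∧ b = f) ∨ (a = f ∧ b = e))) ∨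
    (c = e ∧ ((a = d ∧ b = f) ∨ (a = f ∧ b = d))) ∨
    (c = f ∧ ((a = d ∧ b = e) ∨ (a = e ∧ b = d))) := by
  have h1 := congrFun h d
  have h2 := congrFun h e
  have h3 := congrFun h f
  simp only [Pi.add_apply, CLT_.es_apply, if_neg hde, if_neg hdf, if_neg hef,
    if_neg hde.symm, if_neg hdf.symm, if_neg hef.symm, if_true] at h1 h2 h3
  have key : ∀ x : Option (Fin m), x ≠ c → ((if x = a then 1 else 0) + (if x = b then 1 else 0) =
      (if x = c then 1 else 0) + (1 : ZMod 2)) → x = a ∨ x = b := by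
    intro x hx h4
    rw [if_neg hx] at h4
    by_contra h5
    push Not at h5
    rw [if_neg h5.1, if_neg h5.2] at h4
    exact absurd h4 (by decide)
  by_cases hcd : d = c
  · have h5 := key e (fun h => hde (hcd.trans h.symm)) (by rw [h2]; ring)
    have h6 := key f (fun h => hdf (hcd.trans h.symm)) (by rw [h3]; ring)
    left
    refine ⟨hcd.symm, ?_⟩
    rcases h5 with h5 | h5 <;> rcases h6 with h6 | h6
    · exact absurd (h5.trans h6.symm) hef
    · exact Or.inl ⟨h5.symm, h6.symm⟩
    · exact Or.inr ⟨h6.symm, h5.symm⟩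
    · exact absurd (h5.trans h6.symm) hef
  have h4 := key d hcd (by rw [h1]; ring)
  by_cases hce : e = c
  · have h6 := key f (fun h => hef (hce.trans h.symm)) (by rw [h3]; ring)
    right; left
    refine ⟨hce.symm, ?_⟩
    rcases h4 with h5 | h5 <;> rcases h6 with h6 | h6
    · exact absurd (h5.trans h6.symm) hdf
    · exact Or.inl ⟨h5.symm, h6.symm⟩
    · exact Or.inr ⟨h6.symm, h5.symm⟩
    · exact absurd (h5.trans h6.symm) hdf
  have h5 := key e hce (by rw [h2]; ring)
  by_cases hcf : f = c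
  · right; right
    refine ⟨hcf.symm, ?_⟩
    rcases h4 with h4 | h4 <;> rcases h5 with h5 | h5
    · exact absurd (h4.trans h5.symm) hde
    · exact Or.inl ⟨h4.symm, h5.symm⟩
    · exact Or.inr ⟨h5.symm, h4.symm⟩
    · exact absurd (h4.trans h5.symm) hde
  have h6 := key f hcf (by rw [h3]; ring)
  exfalso
  rcases h4 with h4 | h4 <;> rcases h5 with h5 | h5 <;> rcases h6 with h6 | h6 <;>
    first
    | exact absurd (h4.trans h5.symm) hde
    | exact absurd (h4.trans h6.symm) hdf
    | exact absurd (h5.trans h6.symm) hef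

theorem CLT_.ix_some {t : IZ m s} {l : Fin m} (h : CLT_.ix t = some l) : ∃ b, t = xv l b := by
  rcases t with ⟨k, b⟩ | b
  · exact ⟨b, by rw [← Option.some.inj h]⟩
  · exact absurd h (by simp [CLT_.ix])

theorem CLT_.ix_none {t : IZ m s} (h : CLT_.ix t = none) : ∃ b, t = zv b := by
  rcases t with ⟨k, b⟩ | b
  · exact absurd h (by simp [CLT_.ix])
  · exact ⟨b, rfl⟩

end Classes

section Lam

variable {K : Type u} [Field K] {m s : ℕ}

/-- a homogeneous map whose unknowns vanish has its values in `𝓕_max` -/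
theorem CLT_.mem {w : Arr m K} {v : VArr m s K} {hz : Fin s → Fin s → ℤ} {t : ℕ}
    {qz : Fin t → Fin s → Fin s → ℤ} {lam : IZ m s → IZ m s → IZ m s → K}
    (hlam : ∀ t y z, lam t y z = lam t z y) {χ : Cl m} (hL : HomL clz χ lam)
    (h0 : ∀ t : IZ m s, (0 : Cl m) ≠ clz t + χ)
    (hP : ∀ i j, i ≠ j → ∀ c t, Ff w lam i j c t = 0) (hU : ∀ i d t, Fzf v lam i d t = 0)
    (t : IZ m s) : InFZ w v hz qz (lam t) := by
  have hZ : ∀ y z, clz y + clz z = (0 : Cl m) → lam t y z = 0 := by
    intro y z h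
    by_contra h1
    exact h0 t (by rw [← h]; exact hL t y z h1)
  have h1 : ∀ (i : Fin m) (a b : Fin 3), lam t (xv i a) (xv i b) = 0 := by
    intro i a b
    apply hZ
    exact CLL_.add_self _
  have h2 : ∀ a b : Fin s, lam t (zv a) (zv b) = 0 := by
    intro a b
    apply hZ
    exact CLL_.add_self _
  refine ⟨fun x y => hlam t x y, fun x => hZ x x (CLL_.add_self _), fun i j hij c => hP i j hij c t,
    fun i d => hU i d t, fun τ => ?_, ?_⟩
  · simp only [h2, mul_zero, Finset.sum_const_zero]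
  · simp only [h1, h2, mul_zero, add_zero, Finset.sum_const_zero]

theorem CLT_.insp_neg {w : Frm K} {M : Mat K} (h : InSp w M) : InSp w fun a b => - M a b := by
  obtain ⟨y, hy⟩ := h
  refine ⟨fun c => - y c, fun a b => ?_⟩
  simp only [hy a b, neg_mul, Finset.sum_neg_distrib]

theorem CLT_.inspz_neg {v : VFm s K} {M : Fin 3 → Fin s → K} (h : InSpZ v M) :
    InSpZ v fun a b => - M a b := by
  obtain ⟨y, hy⟩ := h
  refine ⟨fun c => - y c, fun a b => ?_⟩
  simp only [hy a b, neg_mul, Finset.sum_neg_distrib]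

variable {w : Arr m K} {v : VArr m s K} {hz : Fin s → Fin s → ℤ} {t t' : ℕ}
  {qz : Fin t → Fin s → Fin s → ℤ} {qz' : Fin t' → Fin s → Fin s → ℤ} {D : ZD m s t K}

/-- the equations of the syzygies for the functionals of one class -/
theorem CLT_.syz (h1 : T_SYZ.{u}) (hw : WSym w) (hhz : Shp hz) (hqz : ∀ τ, Shp (qz τ))
    (hD : ZDOK w v hz qz D) {χ : Cl m} {lam : IZ m s → IZ m s → IZ m s → K}
    (hsym : ∀ t y z, lam t y z = lam t z y)
    (hF : ∀ c, Psi (c + χ) → ∀ F ∈ FZ w v hz qz', HomF clz c F →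
      ∃ G : IZ m s → IZ m s → IZ m s → K, (∀ x, G x ∈ FZ w v hz qz) ∧ HomT clz (c + χ) G ∧
      TSym (fun x y z => (∑ t, F x t * lam t y z) + G x y z)) (c : Cl m) (hc : Psi (c + χ))
    (F : IZ m s → IZ m s → K) (hFF : F ∈ FZ w v hz qz') (hFc : HomF clz c F) :
    (∀ i u, ∑ x, ∑ t, F x t * QE w v D (Sf lam) (Ff w lam) (Fzf v lam) (Gf hz lam)
        (Gqf qz lam) i u x t = 0) ∧
      (∀ b, ∑ x, ∑ t, F x t * QEZ v hz qz D (Sf lam) (Fzf v lam) (Gf hz lam)
        (Gqf qz lam) b x t = 0) ∧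
      ∀ i, ∑ x, ∑ t, F x t * QP v D (Sf lam) (Fzf v lam) (Gqf qz lam) i x t = 0 := by
  obtain ⟨G, hG, -, hT⟩ := hF c hc F hFF hFc
  exact h1 m s t K w v hz qz D hw hhz hqz hD lam hsym F G hG hT

end Lam

theorem CLT_.one (h1 : T_SYZ.{u}) (h2 : T_DAN.{u}) (m s t t' : ℕ) (K : Type u) [Field K]
    (w : Arr m K) (v : VArr m s K) (hz : Fin s → Fin s → ℤ) (qz : Fin t → Fin s → Fin s → ℤ)
    (qz' : Fin t' → Fin s → Fin s → ℤ) (D : ZD m s t K) (hm : 0 < m) (hw : WSym w) (hhz : Shp hz)
    (hqz : ∀ τ, Shp (qz τ)) (hqz' : ∀ τ, Shp (qz' τ)) (hD : ZDOK w v hz qz D) (i j l : Fin m)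
    (hij : i ≠ j) (hil : i ≠ l) (hjl : j ≠ l) (hG : GoodABC w D.z i j l) :
    T1C clz Psi (ei i + ei j + ei l) (FZ w v hz qz') (FZ w v hz qz) := by
  intro lam hlam hL hF
  have hS := CLT_.syz h1 hw hhz hqz hD hlam hF
  have sij : (some i : Option (Fin m)) ≠ some j := fun h => hij (Option.some.inj h)
  have sil : (some i : Option (Fin m)) ≠ some l := fun h => hil (Option.some.inj h)
  have sjl : (some j : Option (Fin m)) ≠ some l := fun h => hjl (Option.some.inj h)
  have c1 : Psi ((ei j : Cl m) + ei l + (ei i + ei j + ei l)) := by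
    have : (ei j : Cl m) + ei l + (ei i + ei j + ei l) = ei i := by
      have e1 := CLL_.add_self (ei j : Cl m)
      have e2 := CLL_.add_self (ei l : Cl m)
      linear_combination e1 + e2
    rw [this]
    exact Or.inl ⟨i, rfl⟩
  have c2 : Psi ((ei i : Cl m) + ei l + (ei i + ei j + ei l)) := by
    have : (ei i : Cl m) + ei l + (ei i + ei j + ei l) = ei j := by
      have e1 := CLL_.add_self (ei i : Cl m)
      have e2 := CLL_.add_self (ei l : Cl m)
      linear_combination e1 + e2
    rw [this]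
    exact Or.inl ⟨j, rfl⟩
  have c3 : Psi ((ei i : Cl m) + ei j + (ei i + ei j + ei l)) := by
    have : (ei i : Cl m) + ei j + (ei i + ei j + ei l) = ei l := by
      have e1 := CLL_.add_self (ei i : Cl m)
      have e2 := CLL_.add_self (ei j : Cl m)
      linear_combination e1 + e2
    rw [this]
    exact Or.inl ⟨l, rfl⟩
  have hPT : PT w D.z i j l (fun x e => Ff w lam i j x (xv l e))
      (fun x e => Ff w lam i l x (xv j e)) (fun x e => Ff w lam j l x (xv i e)) := by
    constructor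
    · intro u
      have := (h2 m s t' K w v hz qz' hm hw hhz hqz' (QE w v D (Sf lam) (Ff w lam)
        (Fzf v lam) (Gf hz lam) (Gqf qz lam) i u)).1 j l hjl
        (fun F hFF hFc => (hS _ c1 F hFF hFc).1 i u)
      simp only [CLL_.QE_ne i l hil.symm, CLL_.QE_ne i j hij.symm] at this
      have h3 := CLT_.insp_neg this
      simpa only [neg_add, neg_neg, Finset.sum_add_distrib] using h3
    · intro u
      have := (h2 m s t' K w v hz qz' hm hw hhz hqz' (QE w v D (Sf lam) (Ff w lam)
        (Fzf v lam) (Gf hz lam) (Gqf qz lam) j u)).1 i l hil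
        (fun F hFF hFc => (hS _ c2 F hFF hFc).1 j u)
      simp only [CLL_.QE_ne j l hjl.symm, CLL_.QE_ne j i hij, CLL_.Ff_symm hw hlam i j] at this
      have h3 := CLT_.insp_neg this
      simpa only [neg_add, neg_neg, Finset.sum_add_distrib] using h3
    · intro u
      have := (h2 m s t' K w v hz qz' hm hw hhz hqz' (QE w v D (Sf lam) (Ff w lam)
        (Fzf v lam) (Gf hz lam) (Gqf qz lam) l u)).1 i j hij
        (fun F hFF hFc => (hS _ c3 F hFF hFc).1 l u)
      simp only [CLL_.QE_ne l j hjl, CLL_.QE_ne l i hil, CLL_.Ff_symm hw hlam i l,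
        CLL_.Ff_symm hw hlam j l] at this
      have h3 := CLT_.insp_neg this
      simpa only [neg_add, neg_neg, Finset.sum_add_distrib] using h3
  obtain ⟨g1, g2, g3⟩ := hG _ _ _ hPT
  have f1 : ∀ c e, Ff w lam i j c (xv l e) = 0 := fun c e => congrFun (congrFun g1 c) e
  have f2 : ∀ c e, Ff w lam i l c (xv j e) = 0 := fun c e => congrFun (congrFun g2 c) e
  have f3 : ∀ c e, Ff w lam j l c (xv i e) = 0 := fun c e => congrFun (congrFun g3 c) e
  have h0 : ∀ t : IZ m s, (0 : Cl m) ≠ clz t + (ei i + ei j + ei l) := by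
    intro t
    rw [CLT_.clz_eq]
    exact CLT_.zero_ne sij sil sjl _
  refine ⟨0, fun t ht => absurd rfl ht, fun t => ?_⟩
  have hzero : (fun y z => lam t y z - transl 0 t y z) = lam t := by
    funext y z
    simp [transl]
  rw [hzero]
  refine CLT_.mem hlam hL h0 ?_ ?_ t
  · intro a b _ c x
    by_cases hc : (ei a : Cl m) + ei b = clz x + (ei i + ei j + ei l)
    · have hx : clz x = CLT_.es (CLT_.ix x) := CLT_.clz_eq x
      rw [hx] at hc
      rcases CLT_.two sij sil sjl hc with ⟨h3, h4⟩ | ⟨h3, h4⟩ | ⟨h3, h4⟩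
      · obtain ⟨e, rfl⟩ := CLT_.ix_some h3
        rcases h4 with ⟨h4, h5⟩ | ⟨h4, h5⟩
        · rw [Option.some.inj h4, Option.some.inj h5]
          exact f3 c e
        · rw [Option.some.inj h4, Option.some.inj h5, CLL_.Ff_symm hw hlam]
          exact f3 c e
      · obtain ⟨e, rfl⟩ := CLT_.ix_some h3
        rcases h4 with ⟨h4, h5⟩ | ⟨h4, h5⟩
        · rw [Option.some.inj h4, Option.some.inj h5]
          exact f2 c e
        · rw [Option.some.inj h4, Option.some.inj h5, CLL_.Ff_symm hw hlam]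
          exact f2 c e
      · obtain ⟨e, rfl⟩ := CLT_.ix_some h3
        rcases h4 with ⟨h4, h5⟩ | ⟨h4, h5⟩
        · rw [Option.some.inj h4, Option.some.inj h5]
          exact f1 c e
        · rw [Option.some.inj h4, Option.some.inj h5, CLL_.Ff_symm hw hlam]
          exact f1 c e
    · refine Finset.sum_eq_zero fun p _ => Finset.sum_eq_zero fun q _ => ?_
      have h3 : lam x (xv a p) (xv b q) = 0 := by
        by_contra h3
        exact hc (hL x _ _ h3)
      rw [h3, mul_zero]
  · intro a d x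
    refine Finset.sum_eq_zero fun p _ => Finset.sum_eq_zero fun q _ => ?_
    have h3 : lam x (xv a p) (zv q) = 0 := by
      by_contra h3
      have h4 := hL x _ _ h3
      have hx : clz x = CLT_.es (CLT_.ix x) := CLT_.clz_eq x
      rw [hx] at h4
      rcases CLT_.two sij sil sjl h4 with ⟨-, h4⟩ | ⟨-, h4⟩ | ⟨-, h4⟩ <;> simp at h4
    rw [h3, mul_zero]

theorem CLT_.twoz (h1 : T_SYZ.{u}) (h2 : T_DAN.{u}) (m s t t' : ℕ) (K : Type u) [Field K]
    (w : Arr m K) (v : VArr m s K) (hz : Fin s → Fin s → ℤ) (qz : Fin t → Fin s → Fin s → ℤ)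
    (qz' : Fin t' → Fin s → Fin s → ℤ) (D : ZD m s t K) (hm : 0 < m) (hw : WSym w) (hhz : Shp hz)
    (hqz : ∀ τ, Shp (qz τ)) (hqz' : ∀ τ, Shp (qz' τ)) (hD : ZDOK w v hz qz D) (i j : Fin m)
    (hij : i ≠ j) (hG : GoodQ w v D i j) :
    T1C clz Psi (ei i + ei j + eZ) (FZ w v hz qz') (FZ w v hz qz) := by
  intro lam hlam hL hF
  have hS := CLT_.syz h1 hw hhz hqz hD hlam hF
  have sij : (some i : Option (Fin m)) ≠ some j := fun h => hij (Option.some.inj h)
  have siz : (some i : Option (Fin m)) ≠ none := by simp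
  have sjz : (some j : Option (Fin m)) ≠ none := by simp
  have c1 : Psi ((ei j : Cl m) + eZ + (ei i + ei j + eZ)) := by
    have : (ei j : Cl m) + eZ + (ei i + ei j + eZ) = ei i := by
      have e1 := CLL_.add_self (ei j : Cl m)
      have e2 := CLL_.add_self (eZ : Cl m)
      linear_combination e1 + e2
    rw [this]
    exact Or.inl ⟨i, rfl⟩
  have c2 : Psi ((ei i : Cl m) + eZ + (ei i + ei j + eZ)) := by
    have : (ei i : Cl m) + eZ + (ei i + ei j + eZ) = ei j := by
      have e1 := CLL_.add_self (ei i : Cl m)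
      have e2 := CLL_.add_self (eZ : Cl m)
      linear_combination e1 + e2
    rw [this]
    exact Or.inl ⟨j, rfl⟩
  have c3 : Psi ((ei i : Cl m) + ei j + (ei i + ei j + eZ)) := by
    have : (ei i : Cl m) + ei j + (ei i + ei j + eZ) = eZ := by
      have e1 := CLL_.add_self (ei i : Cl m)
      have e2 := CLL_.add_self (ei j : Cl m)
      linear_combination e1 + e2
    rw [this]
    exact Or.inr rfl
  have hPQ : PQ w v D i j (fun c b => Ff w lam i j c (zv b))
      (fun d e => Fzf v lam i d (xv j e)) (fun d e => Fzf v lam j d (xv i e)) := by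
    constructor
    · intro u
      have := (h2 m s t' K w v hz qz' hm hw hhz hqz' (QE w v D (Sf lam) (Ff w lam)
        (Fzf v lam) (Gf hz lam) (Gqf qz lam) i u)).2.1 j
        (fun F hFF hFc => (hS _ c1 F hFF hFc).1 i u)
      simp only [CLL_.QE_ne i j hij.symm] at this
      have h3 := CLT_.inspz_neg this
      simpa only [QE, neg_add, neg_neg] using h3
    · intro u
      have := (h2 m s t' K w v hz qz' hm hw hhz hqz' (QE w v D (Sf lam) (Ff w lam)
        (Fzf v lam) (Gf hz lam) (Gqf qz lam) j u)).2.1 i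
        (fun F hFF hFc => (hS _ c2 F hFF hFc).1 j u)
      simp only [CLL_.QE_ne j i hij, CLL_.Ff_symm hw hlam i j] at this
      have h3 := CLT_.inspz_neg this
      simpa only [QE, neg_add, neg_neg] using h3
    · intro b
      have := (h2 m s t' K w v hz qz' hm hw hhz hqz' (QEZ v hz qz D (Sf lam)
        (Fzf v lam) (Gf hz lam) (Gqf qz lam) b)).1 i j hij
        (fun F hFF hFc => (hS _ c3 F hFF hFc).2.1 b)
      have h3 := CLT_.insp_neg this
      simpa only [QEZ, neg_add, neg_neg] using h3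
    · have := (h2 m s t' K w v hz qz' hm hw hhz hqz' (QP v D (Sf lam)
        (Fzf v lam) (Gqf qz lam) i)).2.1 j
        (fun F hFF hFc => (hS _ c1 F hFF hFc).2.2 i)
      simpa only [QP, if_neg hij.symm, zero_add] using this
    · have := (h2 m s t' K w v hz qz' hm hw hhz hqz' (QP v D (Sf lam)
        (Fzf v lam) (Gqf qz lam) j)).2.1 i
        (fun F hFF hFc => (hS _ c2 F hFF hFc).2.2 j)
      simpa only [QP, if_neg hij, zero_add] using this
  obtain ⟨g1, g2, g3⟩ := hG _ _ _ hPQ
  have f1 : ∀ c e, Ff w lam i j c (zv e) = 0 := fun c e => congrFun (congrFun g1 c) e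
  have f2 : ∀ c e, Fzf v lam i c (xv j e) = 0 := fun c e => congrFun (congrFun g2 c) e
  have f3 : ∀ c e, Fzf v lam j c (xv i e) = 0 := fun c e => congrFun (congrFun g3 c) e
  have h0 : ∀ t : IZ m s, (0 : Cl m) ≠ clz t + (ei i + ei j + eZ) := by
    intro t
    rw [CLT_.clz_eq]
    exact CLT_.zero_ne sij siz sjz _
  refine ⟨0, fun t ht => absurd rfl ht, fun t => ?_⟩
  have hzero : (fun y z => lam t y z - transl 0 t y z) = lam t := by
    funext y z
    simp [transl]
  rw [hzero]
  refine CLT_.mem hlam hL h0 ?_ ?_ t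
  · intro a b _ c x
    by_cases hc : (ei a : Cl m) + ei b = clz x + (ei i + ei j + eZ)
    · have hx : clz x = CLT_.es (CLT_.ix x) := CLT_.clz_eq x
      rw [hx] at hc
      rcases CLT_.two sij siz sjz hc with ⟨h3, h4⟩ | ⟨h3, h4⟩ | ⟨h3, h4⟩
      · simp at h4
      · simp at h4
      · obtain ⟨e, rfl⟩ := CLT_.ix_none h3
        rcases h4 with ⟨h4, h5⟩ | ⟨h4, h5⟩
        · rw [Option.some.inj h4, Option.some.inj h5]
          exact f1 c e
        · rw [Option.some.inj h4, Option.some.inj h5, CLL_.Ff_symm hw hlam]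
          exact f1 c e
    · refine Finset.sum_eq_zero fun p _ => Finset.sum_eq_zero fun q _ => ?_
      have h3 : lam x (xv a p) (xv b q) = 0 := by
        by_contra h3
        exact hc (hL x _ _ h3)
      rw [h3, mul_zero]
  · intro a d x
    by_cases hc : (ei a : Cl m) + eZ = clz x + (ei i + ei j + eZ)
    · have hx : clz x = CLT_.es (CLT_.ix x) := CLT_.clz_eq x
      rw [hx] at hc
      rcases CLT_.two sij siz sjz hc with ⟨h3, h4⟩ | ⟨h3, h4⟩ | ⟨h3, h4⟩
      · obtain ⟨e, rfl⟩ := CLT_.ix_some h3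
        rcases h4 with ⟨h4, -⟩ | ⟨h4, -⟩
        · rw [Option.some.inj h4]
          exact f3 d e
        · simp at h4
      · obtain ⟨e, rfl⟩ := CLT_.ix_some h3
        rcases h4 with ⟨h4, -⟩ | ⟨h4, -⟩
        · rw [Option.some.inj h4]
          exact f2 d e
        · simp at h4
      · simp at h4
    · refine Finset.sum_eq_zero fun p _ => Finset.sum_eq_zero fun q _ => ?_
      have h3 : lam x (xv a p) (zv q) = 0 := by
        by_contra h3
        exact hc (hL x _ _ h3)
      rw [h3, mul_zero]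

theorem p_CLT (h1 : T_SYZ.{u}) (h2 : T_DAN.{u}) : T_CLT.{u} := by
  intro m s t t' K _ _ w v hz qz qz' D hm hw hhz hqz hqz' hD _
  exact ⟨fun i j l hij hil hjl hG => CLT_.one h1 h2 m s t t' K w v hz qz qz' D hm hw hhz hqz hqz'
    hD i j l hij hil hjl hG, fun i j hij hG => CLT_.twoz h1 h2 m s t t' K w v hz qz qz' D hm hw hhz
    hqz hqz' hD i j hij hG⟩

end Pool.Agent.VCU
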