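import Pool.Agent.VCU.Targets

/-!
# `T_CLZ`: the class `e_Z`
-/

set_option autoImplicit false

namespace Pool.Agent.VCU

open Pool.Agent.VCC Pool.Agent.VCT HilbPts

universe u

namespace CLZ_

variable {m s : ℕ}

theorem add_self (c : Cl m) : c + c = 0 := by
  funext x
  exact CharTwo.add_self_eq_zero (c x)

theorem ei_none (i : Fin m) : (ei i : Cl m) none = 0 := by
  simp [ei]

theorem eZ_none : (eZ : Cl m) none = 1 := by
  simp [eZ]

theorem ei_some (i j : Fin m) : (ei i : Cl m) (some j) = if j = i then 1 else 0 := by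
  simp [ei, Pi.single_apply]

theorem eZ_some (j : Fin m) : (eZ : Cl m) (some j) = 0 := by
  simp [eZ]

theorem cl_x (i : Fin m) (a : Fin 3) : clz (xv i a : IZ m s) = ei i := rfl

theorem cl_z (b : Fin s) : clz (zv b : IZ m s) = eZ := rfl

section

variable {K : Type*} [Field K] {lam : IZ m s → IZ m s → IZ m s → K}

/-- vanishing by the class, seen at `none` -/
theorem van_none (h : HomL clz eZ lam) (t y z : IZ m s)
    (hne : clz y none + clz z none ≠ clz t none + 1) : lam t y z = 0 := by
  by_contra h0
  apply hne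
  have := congrFun (h t y z h0) none
  simpa [eZ_none] using this

/-- vanishing by the class, seen at a block -/
theorem van_some (h : HomL clz eZ lam) (t y z : IZ m s) (j : Fin m)
    (hne : clz y (some j) + clz z (some j) ≠ clz t (some j)) : lam t y z = 0 := by
  by_contra h0
  apply hne
  have := congrFun (h t y z h0) (some j)
  simpa [eZ_some] using this

theorem sq_x (h : HomL clz eZ lam) (i : Fin m) (e : Fin 3) (x : IZ m s) :
    lam (xv i e) x x = 0 := by
  refine van_none h _ _ _ ?_
  rw [CharTwo.add_self_eq_zero, cl_x, ei_none]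
  decide

theorem f_zero (h : HomL clz eZ lam) (i j : Fin m) (hij : i ≠ j) (a b : Fin 3) (t : IZ m s) :
    lam t (xv i a) (xv j b) = 0 := by
  rcases t with ⟨k, e⟩ | c
  · refine van_none h _ _ _ ?_
    rw [cl_x, cl_x, ei_none, ei_none]
    change _ ≠ clz (xv k e : IZ m s) none + 1
    rw [cl_x, ei_none]
    decide
  · refine van_some h _ _ _ i ?_
    rw [cl_x, cl_x, ei_some, ei_some, if_pos rfl, if_neg hij]
    change _ ≠ clz (zv c : IZ m s) (some i)
    rw [cl_z, eZ_some]
    decide

theorem fz_z (h : HomL clz eZ lam) (i : Fin m) (a : Fin 3) (b c : Fin s) :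
    lam (zv c) (xv i a) (zv b) = 0 := by
  refine van_none h _ _ _ ?_
  rw [cl_x, cl_z, cl_z, ei_none, eZ_none]
  decide

theorem fz_x (h : HomL clz eZ lam) (i k : Fin m) (hik : k ≠ i) (a e : Fin 3) (b : Fin s) :
    lam (xv k e) (xv i a) (zv b) = 0 := by
  refine van_some h _ _ _ i ?_
  rw [cl_x, cl_z, cl_x, ei_some, ei_some, eZ_some, if_pos rfl, if_neg hik.symm]
  decide

theorem zz_x (h : HomL clz eZ lam) (k : Fin m) (e : Fin 3) (b c : Fin s) :
    lam (xv k e) (zv b) (zv c) = 0 := by
  refine van_none h _ _ _ ?_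
  rw [cl_x, cl_z, cl_z, ei_none, eZ_none]
  decide

theorem xx_x (h : HomL clz eZ lam) (k i j : Fin m) (e a b : Fin 3) :
    lam (xv k e) (xv i a) (xv j b) = 0 := by
  refine van_none h _ _ _ ?_
  rw [cl_x, cl_x, cl_x, ei_none, ei_none, ei_none]
  decide

end

end CLZ_

open CLZ_

theorem p_CLZ (h1 : T_SYZ.{u}) (h2 : T_DAN.{u}) : T_CLZ.{u} := by
  intro m s t t' K _ _ w v hz qz qz' D hm hw hhz hqz hqz' hD hle hgood lam hlam hhom hF
  set v0 : IZ m s → K := fun x => lam x x x / 2 with hv0
  have hv0c : ∀ x, v0 x ≠ 0 → clz x = eZ := by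
    intro x hx
    have h0 : lam x x x ≠ 0 := by
      intro h
      apply hx
      simp [hv0, h]
    exact add_left_cancel (hhom x x x h0)
  set lam' : IZ m s → IZ m s → IZ m s → K :=
    fun t y z => lam t y z - transl v0 t y z with hlam'
  have hsym : ∀ t y z, lam' t y z = lam' t z y := by
    intro t y z
    simp only [hlam']
    rw [hlam t y z, RED_.transl_symm v0 t y z]
  have hhom' : HomL clz eZ lam' := by
    intro x y z hne
    by_cases h0 : lam x y z = 0
    · have h3 : transl v0 x y z ≠ 0 := by
        intro h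
        apply hne
        simp only [hlam', h0, h, sub_zero]
      by_cases hzx : z = x ∧ v0 y ≠ 0
      · rw [hzx.1, hv0c y hzx.2, add_comm]
      · by_cases hyx : y = x ∧ v0 z ≠ 0
        · rw [hyx.1, hv0c z hyx.2]
        · exfalso
          apply h3
          unfold transl
          have e1 : v0 y * (if z = x then 1 else 0) = 0 := by
            by_cases hh : z = x
            · have : v0 y = 0 := by
                by_contra h4
                exact hzx ⟨hh, h4⟩
              rw [this, zero_mul]
            · rw [if_neg hh, mul_zero]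
          have e2 : v0 z * (if y = x then 1 else 0) = 0 := by
            by_cases hh : y = x
            · have : v0 z = 0 := by
                by_contra h4
                exact hyx ⟨hh, h4⟩
              rw [this, zero_mul]
            · rw [if_neg hh, mul_zero]
          rw [e1, e2, add_zero]
    · exact hhom x y z h0
  have hcond : ∀ c, Psi (c + eZ) → ∀ F ∈ FZ w v hz qz', HomF clz c F →
      ∃ G : IZ m s → IZ m s → IZ m s → K, (∀ x, G x ∈ FZ w v hz qz) ∧
        TSym (fun x y z => (∑ t, F x t * lam' t y z) + G x y z) := by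
    intro c hc F hFF hFc
    obtain ⟨G, hG, -, hT1, hT2⟩ := hF c hc F hFF hFc
    have hFs : ∀ x y, F x y = F y x := InFZ.symm hFF
    refine ⟨fun x y z => G x y z - v0 x * F y z, fun x => ?_, ?_, ?_⟩
    · exact (FZ w v hz qz).sub_mem (hG x) ((FZ w v hz qz).smul_mem (v0 x) (hle hFF))
    · intro x y z
      have e1 := hT1 x y z
      simp only [hlam', mul_sub, Finset.sum_sub_distrib, RED_.sum_transl] at e1 ⊢
      rw [hFs y x]
      linear_combination e1
    · intro x y z
      have e1 := hT2 x y z
      simp only [hlam', mul_sub, Finset.sum_sub_distrib, RED_.sum_transl] at e1 ⊢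
      rw [hFs z y]
      linear_combination e1
  set X : XZ m s t K :=
    { S := fun j a b => Sf lam' (xv j a) (zv b)
      SZ := fun d c => Sf lam' (zv d) (zv c)
      U := fun i d e => Fzf v lam' i d (xv i e)
      g := fun c => Gf hz lam' (zv c)
      gq := fun τ c => Gqf qz lam' τ (zv c) } with hX
  have hP1 : ∀ i : Fin m, Psi ((ei i + eZ : Cl m) + eZ) := by
    intro i
    refine Or.inl ⟨i, ?_⟩
    rw [add_assoc, add_self, add_zero]
  have hP2 : Psi ((0 : Cl m) + eZ) := Or.inr (zero_add _)
  have hEZ : EZ w v hz qz qz' D X := by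
    refine ⟨fun i u => ?_, fun i => ?_, fun b => ?_⟩
    · obtain ⟨y, hy⟩ := (h2 m s t' K w v hz qz' hm hw hhz hqz'
        (QE w v D (Sf lam') (Ff w lam') (Fzf v lam') (Gf hz lam') (Gqf qz lam') i u)).2.1 i (by
          intro F hFF hFh
          obtain ⟨G, hG, hT⟩ := hcond _ (hP1 i) F hFF hFh
          exact (h1 m s t K w v hz qz D hw hhz hqz hD lam' hsym F G hG hT).1 i u)
      refine ⟨y, fun e c => ?_⟩
      rw [← hy e c]
      simp only [QE, if_true, hX]
      ring
    · obtain ⟨y, hy⟩ := (h2 m s t' K w v hz qz' hm hw hhz hqz'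
        (QP v D (Sf lam') (Fzf v lam') (Gqf qz lam') i)).2.1 i (by
          intro F hFF hFh
          obtain ⟨G, hG, hT⟩ := hcond _ (hP1 i) F hFF hFh
          exact (h1 m s t K w v hz qz D hw hhz hqz hD lam' hsym F G hG hT).2.2 i)
      refine ⟨y, fun e c => ?_⟩
      rw [← hy e c]
      simp only [QP, if_true, hX]
    · obtain ⟨μ, ν, hμ, hν⟩ := (h2 m s t' K w v hz qz' hm hw hhz hqz'
        (QEZ v hz qz D (Sf lam') (Fzf v lam') (Gf hz lam') (Gqf qz lam') b)).2.2 (by
          intro F hFF hFh
          obtain ⟨G, hG, hT⟩ := hcond _ hP2 F hFF hFh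
          exact (h1 m s t K w v hz qz D hw hhz hqz hD lam' hsym F G hG hT).2.1 b)
      refine ⟨μ, ν, fun j e e' hne => ?_, fun c c' hne => ?_⟩
      · rw [← hμ j e e' hne]
        simp only [QEZ, hX, Finset.sum_add_distrib]
        ring
      · rw [← hν c c' hne]
        simp only [QEZ, ZB, hX]
  have hnorm : ∀ b, X.SZ b b = 0 := by
    intro b
    simp only [hX, Sf, hlam', RED_.transl_diag, hv0]
    rw [mul_div_cancel₀ _ (two_ne_zero' K), sub_self]
  obtain ⟨g1, g2, g3, g4, g5⟩ := hgood X hEZ hnorm
  refine ⟨v0, hv0c, fun x => ?_⟩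
  change lam' x ∈ FZ w v hz qz
  refine InFZ.mk (fun y z => hsym x y z) ?_ ?_ ?_ ?_ ?_
  · intro y
    rcases x with ⟨k, e⟩ | c
    · exact sq_x hhom' k e y
    · rcases y with ⟨j, a⟩ | d
      · exact congrFun (congrFun (congrFun g1 j) a) c
      · exact congrFun (congrFun g2 d) c
  · intro i j hij c
    refine Finset.sum_eq_zero fun a _ => Finset.sum_eq_zero fun b _ => ?_
    rw [f_zero hhom' i j hij, mul_zero]
  · intro i d
    rcases x with ⟨k, e⟩ | c
    · by_cases hki : k = i
      · subst hki
        exact congrFun (congrFun (congrFun g3 k) d) e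
      · refine Finset.sum_eq_zero fun a _ => Finset.sum_eq_zero fun b _ => ?_
        have := fz_x hhom' i k hki a e b
        change v i d a b * lam' (xv k e) (xv i a) (zv b) = 0
        rw [this, mul_zero]
    · refine Finset.sum_eq_zero fun a _ => Finset.sum_eq_zero fun b _ => ?_
      change v i d a b * lam' (zv c) (xv i a) (zv b) = 0
      rw [fz_z hhom', mul_zero]
  · intro τ
    rcases x with ⟨k, e⟩ | c
    · refine Finset.sum_eq_zero fun a _ => Finset.sum_eq_zero fun b _ => ?_
      change (qz τ a b : K) * lam' (xv k e) (zv a) (zv b) = 0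
      rw [zz_x hhom', mul_zero]
    · exact congrFun (congrFun g5 τ) c
  · rcases x with ⟨k, e⟩ | c
    · change ∑ i, (lam' (xv k e) (xv i 0) (xv i 1) + lam' (xv k e) (xv i 0) (xv i 2) +
        lam' (xv k e) (xv i 1) (xv i 2)) +
        ∑ b, ∑ c, (hz b c : K) * lam' (xv k e) (zv b) (zv c) = 0
      simp only [xx_x hhom', zz_x hhom', mul_zero, add_zero, Finset.sum_const_zero]
    · exact congrFun g4 c

end Pool.Agent.VCU
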