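import Pool.Agent.VCU.Targets

/-!
# Double annihilators, by classes
-/

set_option autoImplicit false

namespace Pool.Agent.VCU

open Pool.Agent.VCC Pool.Agent.VCT HilbPts

universe u

/-- the index set of the conditions -/
abbrev DAN_.Idx (m s t : ℕ) :=
  (IZ m s × IZ m s) ⊕ (IZ m s ⊕ ((IZ m s × IZ m s) ⊕ ((Fin m × Fin m × Fin 3) ⊕
    ((Fin m × Fin s) ⊕ (Fin t ⊕ Unit)))))

/-- the functional `h` -/
def DAN_.hh {m s : ℕ} {K : Type*} [Field K] (hz : Fin s → Fin s → ℤ)
    (F : IZ m s → IZ m s → K) : K :=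
  ∑ i, (F (xv i 0) (xv i 1) + F (xv i 0) (xv i 2) + F (xv i 1) (xv i 2)) +
    ∑ b, ∑ c, (hz b c : K) * F (zv b) (zv c)

/-- the conditions -/
def DAN_.L {m s t : ℕ} {K : Type*} [Field K] (w : Arr m K) (v : VArr m s K)
    (hz : Fin s → Fin s → ℤ) (qz : Fin t → Fin s → Fin s → ℤ) (c : Cl m) :
    DAN_.Idx m s t → ((IZ m s → IZ m s → K) →ₗ[K] K)
  | Sum.inl (x, y) =>
    { toFun := fun F => F x y - F y x
      map_add' := fun F G => by simp only [Pi.add_apply]; ring
      map_smul' := fun c F => by simp only [Pi.smul_apply, smul_eq_mul, RingHom.id_apply]; ring }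
  | Sum.inr (Sum.inl x) =>
    { toFun := fun F => F x x
      map_add' := fun F G => by simp only [Pi.add_apply]
      map_smul' := fun c F => by simp only [Pi.smul_apply, smul_eq_mul, RingHom.id_apply] }
  | Sum.inr (Sum.inr (Sum.inl (x, y))) =>
    { toFun := fun F => (if clz x + clz y = c then 0 else 1) * F x y
      map_add' := fun F G => by simp only [Pi.add_apply, mul_add]
      map_smul' := fun d F => by
        simp only [Pi.smul_apply, smul_eq_mul, RingHom.id_apply, mul_left_comm _ d] }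
  | Sum.inr (Sum.inr (Sum.inr (Sum.inl (i, j, e)))) =>
    { toFun := fun F => ∑ a, ∑ b, w i j e a b * F (xv i a) (xv j b)
      map_add' := fun F G => by simp only [Pi.add_apply, mul_add, Finset.sum_add_distrib]
      map_smul' := fun c F => by
        simp only [Pi.smul_apply, smul_eq_mul, RingHom.id_apply, Finset.mul_sum,
          mul_left_comm _ c] }
  | Sum.inr (Sum.inr (Sum.inr (Sum.inr (Sum.inl (i, d))))) =>
    { toFun := fun F => ∑ a, ∑ b, v i d a b * F (xv i a) (zv b)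
      map_add' := fun F G => by simp only [Pi.add_apply, mul_add, Finset.sum_add_distrib]
      map_smul' := fun c F => by
        simp only [Pi.smul_apply, smul_eq_mul, RingHom.id_apply, Finset.mul_sum,
          mul_left_comm _ c] }
  | Sum.inr (Sum.inr (Sum.inr (Sum.inr (Sum.inr (Sum.inl τ))))) =>
    { toFun := fun F => ∑ b, ∑ c, (qz τ b c : K) * F (zv b) (zv c)
      map_add' := fun F G => by simp only [Pi.add_apply, mul_add, Finset.sum_add_distrib]
      map_smul' := fun c F => by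
        simp only [Pi.smul_apply, smul_eq_mul, RingHom.id_apply, Finset.mul_sum,
          mul_left_comm _ c] }
  | Sum.inr (Sum.inr (Sum.inr (Sum.inr (Sum.inr (Sum.inr _))))) =>
    { toFun := fun F => DAN_.hh hz F
      map_add' := fun F G => by
        simp only [DAN_.hh, Pi.add_apply, mul_add, Finset.sum_add_distrib]
        ring
      map_smul' := fun c F => by
        simp only [DAN_.hh, Pi.smul_apply, smul_eq_mul, RingHom.id_apply, mul_add,
          Finset.mul_sum, mul_left_comm _ c] }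

theorem DAN_.mem {m s t : ℕ} {K : Type*} [Field K] (w : Arr m K) (v : VArr m s K)
    (hz : Fin s → Fin s → ℤ) (qz : Fin t → Fin s → Fin s → ℤ) (c : Cl m)
    (F : IZ m s → IZ m s → K) (h : ∀ j, DAN_.L w v hz qz c j F = 0) :
    F ∈ FZ w v hz qz ∧ HomF clz c F := by
  refine ⟨⟨fun x y => sub_eq_zero.1 (h (Sum.inl (x, y))), fun x => h (Sum.inr (Sum.inl x)),
    fun i j _ e => h (Sum.inr (Sum.inr (Sum.inr (Sum.inl (i, j, e))))),
    fun i d => h (Sum.inr (Sum.inr (Sum.inr (Sum.inr (Sum.inl (i, d)))))),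
    fun τ => h (Sum.inr (Sum.inr (Sum.inr (Sum.inr (Sum.inr (Sum.inl τ)))))),
    h (Sum.inr (Sum.inr (Sum.inr (Sum.inr (Sum.inr (Sum.inr ()))))))⟩, ?_⟩
  intro x y hxy
  by_contra hne
  apply hxy
  have h1 := h (Sum.inr (Sum.inr (Sum.inl (x, y))))
  change (if clz x + clz y = c then (0 : K) else 1) * F x y = 0 at h1
  rwa [if_neg hne, one_mul] at h1

/-- the value of the form conditions on elementary matrices -/
theorem DAN_.form_E {m s : ℕ} {K : Type*} [Field K] (M : Fin 3 → Fin 3 → K) (i j : Fin m)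
    (x y : IZ m s) :
    (∑ a, ∑ b, M a b * DANN_.E (K := K) x y (xv i a) (xv j b)) =
      ∑ a, ∑ b, if (xv i a : IZ m s) = x ∧ (xv j b : IZ m s) = y then M a b else 0 := by
  refine Finset.sum_congr rfl fun a _ => Finset.sum_congr rfl fun b _ => ?_
  unfold DANN_.E
  by_cases h1 : (xv i a : IZ m s) = x <;> by_cases h2 : (xv j b : IZ m s) = y <;>
    simp [h1, h2]

theorem DAN_.split {K α β γ δ ε ζ η : Type*} [AddCommMonoid K] [Fintype α] [Fintype β]
    [Fintype γ] [Fintype δ] [Fintype ε] [Fintype ζ] [Fintype η]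
    (f : α ⊕ (β ⊕ (γ ⊕ (δ ⊕ (ε ⊕ (ζ ⊕ η))))) → K) :
    ∑ i, f i = (∑ a, f (Sum.inl a)) + ((∑ a, f (Sum.inr (Sum.inl a))) +
      ((∑ a, f (Sum.inr (Sum.inr (Sum.inl a)))) +
      ((∑ a, f (Sum.inr (Sum.inr (Sum.inr (Sum.inl a))))) +
      ((∑ a, f (Sum.inr (Sum.inr (Sum.inr (Sum.inr (Sum.inl a)))))) +
      ((∑ a, f (Sum.inr (Sum.inr (Sum.inr (Sum.inr (Sum.inr (Sum.inl a))))))) +
      ∑ a, f (Sum.inr (Sum.inr (Sum.inr (Sum.inr (Sum.inr (Sum.inr a)))))))))))  := by
  simp only [Fintype.sum_sum_type]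

theorem DAN_.key {m s t : ℕ} {K : Type*} [Field K] (w : Arr m K) (v : VArr m s K)
    (hz : Fin s → Fin s → ℤ) (qz : Fin t → Fin s → Fin s → ℤ) (c : Cl m)
    (QQ : IZ m s → IZ m s → K)
    (H : ∀ F ∈ FZ w v hz qz, HomF clz c F → ∑ x, ∑ t, F x t * QQ x t = 0) :
    ∃ (c1 c3 : IZ m s → IZ m s → K) (c2 : IZ m s → K) (c4 : Fin m → Fin m → Fin 3 → K)
      (c5 : Fin m → Fin s → K) (c6 : Fin t → K) (c7 : K), ∀ x y, QQ x y =
      c1 x y - c1 y x + (if x = y then c2 x else 0) +
      (if clz x + clz y = c then 0 else c3 x y) +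
      (∑ i, ∑ j, ∑ e, c4 i j e * ∑ a, ∑ b, w i j e a b * DANN_.E (K := K) x y (xv i a) (xv j b)) +
      (∑ i, ∑ d, c5 i d * ∑ a, ∑ b, v i d a b * DANN_.E (K := K) x y (xv i a) (zv b)) +
      (∑ τ, c6 τ * ∑ b, ∑ c, (qz τ b c : K) * DANN_.E (K := K) x y (zv b) (zv c)) +
      c7 * DAN_.hh hz (DANN_.E (K := K) x y) := by
  have key : DANN_.pair QQ ∈ Submodule.span K (Set.range (DAN_.L w v hz qz c)) := by
    refine mem_span_of_iInf_ker_le_ker fun F hF => ?_
    rw [LinearMap.mem_ker]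
    obtain ⟨h1, h2⟩ := DAN_.mem w v hz qz c F fun j => (Submodule.mem_iInf _).1 hF j
    exact H F h1 h2
  obtain ⟨d, hd⟩ := (Submodule.mem_span_range_iff_exists_fun K).1 key
  refine ⟨fun x y => d (Sum.inl (x, y)), fun x y => d (Sum.inr (Sum.inr (Sum.inl (x, y)))),
    fun x => d (Sum.inr (Sum.inl x)),
    fun i j e => d (Sum.inr (Sum.inr (Sum.inr (Sum.inl (i, j, e))))),
    fun i e => d (Sum.inr (Sum.inr (Sum.inr (Sum.inr (Sum.inl (i, e)))))),
    fun τ => d (Sum.inr (Sum.inr (Sum.inr (Sum.inr (Sum.inr (Sum.inl τ)))))),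
    d (Sum.inr (Sum.inr (Sum.inr (Sum.inr (Sum.inr (Sum.inr ())))))), fun x y => ?_⟩
  rw [← DANN_.pair_E QQ x y, ← hd]
  simp only [LinearMap.sum_apply, LinearMap.smul_apply, smul_eq_mul]
  rw [DAN_.split]
  simp only [← add_assoc]
  refine congrArg₂ (· + ·) (congrArg₂ (· + ·) (congrArg₂ (· + ·) (congrArg₂ (· + ·)
    (congrArg₂ (· + ·) (congrArg₂ (· + ·) ?_ ?_) ?_) ?_) ?_) ?_) ?_
  · have : ∀ a : IZ m s × IZ m s,
        d (Sum.inl a) * DAN_.L w v hz qz c (Sum.inl a) (DANN_.E x y) =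
        (if a.1 = x then (if a.2 = y then d (Sum.inl a) else 0) else 0) -
        (if a.2 = x then (if a.1 = y then d (Sum.inl a) else 0) else 0) := by
      intro a
      show d (Sum.inl a) * (DANN_.E x y a.1 a.2 - DANN_.E x y a.2 a.1) = _
      simp only [DANN_.E, mul_sub, mul_ite, mul_one, mul_zero]
    simp only [this, Finset.sum_sub_distrib]
    congr 1
    · rw [Fintype.sum_prod_type]
      simp
    · rw [Fintype.sum_prod_type_right]
      simp
  · show (∑ z, d (Sum.inr (Sum.inl z)) * DANN_.E x y z z) = _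
    simp only [DANN_.E, mul_ite, mul_one, mul_zero, Finset.sum_ite_eq', Finset.mem_univ, if_true]
  · show (∑ z : IZ m s × IZ m s, d (Sum.inr (Sum.inr (Sum.inl z))) *
      ((if clz z.1 + clz z.2 = c then 0 else 1) * DANN_.E (K := K) x y z.1 z.2)) = _
    rw [Finset.sum_eq_single (x, y)]
    · by_cases h : clz x + clz y = c
      · simp [h]
      · simp [h, DANN_.E]
    · rintro ⟨a, b⟩ - hab
      unfold DANN_.E
      by_cases h1 : a = x
      · by_cases h2 : b = y
        · exact absurd (by rw [h1, h2]) hab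
        · simp [h2]
      · simp [h1]
    · intro h
      exact absurd (Finset.mem_univ _) h
  · show (∑ z : Fin m × Fin m × Fin 3, _ * (∑ a, ∑ b, w z.1 z.2.1 z.2.2 a b *
      DANN_.E (K := K) x y (xv z.1 a) (xv z.2.1 b))) = _
    simp only [Fintype.sum_prod_type]
  · show (∑ z : Fin m × Fin s, _ * (∑ a, ∑ b, v z.1 z.2 a b *
      DANN_.E (K := K) x y (xv z.1 a) (zv b))) = _
    simp only [Fintype.sum_prod_type]
  · rfl
  · simp [DAN_.L]

theorem DAN_.add_self {m : ℕ} (c : Cl m) : c + c = 0 := by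
  funext o
  exact CharTwo.add_self_eq_zero _

section Values

variable {m s : ℕ} {K : Type*} [Field K]

theorem DAN_.E_xx (k : Fin m) (e : Fin 3) (l : Fin m) (b : Fin 3) (i : Fin m) (a : Fin 3)
    (j : Fin m) (a' : Fin 3) :
    DANN_.E (K := K) (xv k e : IZ m s) (xv l b) (xv i a) (xv j a') =
      if i = k then (if a = e then (if j = l then (if a' = b then 1 else 0) else 0) else 0)
      else 0 := by
  simp only [DANN_.E, xv, Sum.inl.injEq, Prod.mk.injEq, ite_and]

theorem DAN_.E_xz (k : Fin m) (e : Fin 3) (b : Fin s) (i : Fin m) (a : Fin 3) (c : Fin s) :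
    DANN_.E (K := K) (xv k e : IZ m s) (zv b) (xv i a) (zv c) =
      if i = k then (if a = e then (if c = b then 1 else 0) else 0) else 0 := by
  simp only [DANN_.E, xv, zv, Sum.inl.injEq, Sum.inr.injEq, Prod.mk.injEq, ite_and]

theorem DAN_.E_zz (b c b' c' : Fin s) :
    DANN_.E (K := K) (zv b : IZ m s) (zv c) (zv b') (zv c') =
      if b' = b then (if c' = c then 1 else 0) else 0 := by
  simp only [DANN_.E, zv, Sum.inr.injEq]

theorem DAN_.E_z1 (b c : Fin s) (x y : Fin m × Fin 3) (y' : IZ m s) :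
    DANN_.E (K := K) (Sum.inr b : IZ m s) y' (Sum.inl x) (Sum.inl y) = 0 ∧
    DANN_.E (K := K) (Sum.inr b : IZ m s) y' (Sum.inl x) (Sum.inr c) = 0 := by
  simp [DANN_.E]

theorem DAN_.E_x1 (b c : Fin s) (x : Fin m × Fin 3) (y' : IZ m s) :
    DANN_.E (K := K) (Sum.inl x : IZ m s) y' (Sum.inr b) (Sum.inr c) = 0 := by
  simp [DANN_.E]

theorem DAN_.E_x2 (c : Fin s) (x y z : Fin m × Fin 3) :
    DANN_.E (K := K) (Sum.inl x : IZ m s) (Sum.inl y) (Sum.inl z) (Sum.inr c) = 0 := by
  simp [DANN_.E]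

theorem DAN_.E_x3 (c : Fin s) (x y z : Fin m × Fin 3) :
    DANN_.E (K := K) (Sum.inl x : IZ m s) (Sum.inr c) (Sum.inl y) (Sum.inl z) = 0 := by
  simp [DANN_.E]

theorem DAN_.E_z2 (b c d : Fin s) (x : Fin m × Fin 3) :
    DANN_.E (K := K) (Sum.inr b : IZ m s) (Sum.inl x) (Sum.inr c) (Sum.inr d) = 0 := by
  simp [DANN_.E]

theorem DAN_.fw_xx (w : Arr m K) (c4 : Fin m → Fin m → Fin 3 → K) (k : Fin m) (e : Fin 3)
    (l : Fin m) (b : Fin 3) :
    (∑ i, ∑ j, ∑ f, c4 i j f * ∑ a, ∑ a', w i j f a a' *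
      DANN_.E (K := K) (xv k e : IZ m s) (xv l b) (xv i a) (xv j a')) =
      ∑ f, c4 k l f * w k l f e b := by
  simp only [DAN_.E_xx]
  have h1 : ∀ i j f, (∑ a, ∑ a', w i j f a a' *
      if i = k then (if a = e then (if j = l then (if a' = b then (1 : K) else 0) else 0) else 0)
      else 0) = if i = k then (if j = l then w i j f e b else 0) else 0 := by
    intro i j f
    by_cases h : i = k
    · by_cases h' : j = l
      · simp [h, h']
      · simp [h, h']
    · simp [h]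
  simp only [h1]
  rw [Finset.sum_eq_single k, Finset.sum_eq_single l]
  · simp
  · intro j _ hj
    simp [hj]
  · simp
  · intro i _ hi
    simp [hi]
  · simp

theorem DAN_.fv_xz (v : VArr m s K) (c5 : Fin m → Fin s → K) (k : Fin m) (e : Fin 3)
    (b : Fin s) :
    (∑ i, ∑ d, c5 i d * ∑ a, ∑ c, v i d a c *
      DANN_.E (K := K) (xv k e : IZ m s) (zv b) (xv i a) (zv c)) =
      ∑ d, c5 k d * v k d e b := by
  simp only [DAN_.E_xz]
  rw [Finset.sum_eq_single k]
  · simp
  · intro i _ hi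
    simp [hi]
  · simp

theorem DAN_.fq_zz {t : ℕ} (qz : Fin t → Fin s → Fin s → ℤ) (c6 : Fin t → K) (b c : Fin s) :
    (∑ τ, c6 τ * ∑ b', ∑ c', (qz τ b' c' : K) *
      DANN_.E (K := K) (zv b : IZ m s) (zv c) (zv b') (zv c')) =
      ∑ τ, c6 τ * (qz τ b c : K) := by
  simp [DAN_.E_zz]

theorem DAN_.hh_zz (hz : Fin s → Fin s → ℤ) (b c : Fin s) :
    DAN_.hh hz (DANN_.E (K := K) (zv b : IZ m s) (zv c)) = (hz b c : K) := by
  unfold DAN_.hh
  simp only [DAN_.E_zz]
  simp [DANN_.E]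

theorem DAN_.hh_xx (hz : Fin s → Fin s → ℤ) (k l : Fin m) (e b : Fin 3) :
    DAN_.hh hz (DANN_.E (K := K) (xv k e : IZ m s) (xv l b)) =
      if k = l ∧ e < b then 1 else 0 := by
  unfold DAN_.hh
  simp only [DAN_.E_xx, DAN_.E_x1, mul_zero, Finset.sum_const_zero, add_zero]
  by_cases hkl : k = l
  · subst hkl
    rw [Finset.sum_eq_single k]
    · fin_cases e <;> fin_cases b <;> simp
    · intro i _ hi
      simp [hi]
    · simp
  · have h0 : ¬ (k = l ∧ e < b) := fun h => hkl h.1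
    rw [if_neg h0]
    refine Finset.sum_eq_zero fun i _ => ?_
    by_cases hi : i = k
    · have : i ≠ l := fun h => hkl (hi.symm.trans h)
      simp [this]
    · simp [hi]

end Values

theorem p_DAN : T_DAN.{u} := by
  intro m s t K _ w v hz qz _ hw _ _ QQ
  refine ⟨fun i l hil H => ?_, fun i H => ?_, fun H => ?_⟩
  · obtain ⟨c1, c3, c2, c4, c5, c6, c7, hQ⟩ := DAN_.key w v hz qz _ QQ H
    refine ⟨fun f => c4 i l f + c4 l i f, fun e b => ?_⟩
    beta_reduce
    have hne : ∀ e b, (xv i e : IZ m s) ≠ xv l b := by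
      intro e b h
      exact hil (by simpa using congrArg (Sum.elim (fun x : Fin m × Fin 3 => x.1)
        (fun _ => i)) h)
    have e1 := hQ (xv i e) (xv l b)
    have e2 := hQ (xv l b) (xv i e)
    rw [DAN_.fw_xx, DAN_.hh_xx, if_neg (hne e b),
      if_pos (show clz (xv i e : IZ m s) + clz (xv l b) = ei i + ei l from rfl),
      if_neg (fun h : i = l ∧ e < b => hil h.1)] at e1
    rw [DAN_.fw_xx, DAN_.hh_xx, if_neg (hne e b).symm,
      if_pos (show clz (xv l b : IZ m s) + clz (xv i e) = ei i + ei l from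
        add_comm (ei l) (ei i)),
      if_neg (fun h : l = i ∧ b < e => hil h.1.symm)] at e2
    simp only [DAN_.E_x1, DAN_.E_x2, mul_zero, Finset.sum_const_zero, add_zero] at e1 e2
    have hs : ∀ f, w l i f b e = w i l f e b := fun f => by rw [hw.2 i l]; rfl
    simp only [hs] at e2
    simp only [add_mul, Finset.sum_add_distrib]
    rw [e1, e2]
    ring
  · obtain ⟨c1, c3, c2, c4, c5, c6, c7, hQ⟩ := DAN_.key w v hz qz _ QQ H
    refine ⟨fun d => c5 i d, fun e b => ?_⟩
    beta_reduce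
    have e1 := hQ (xv i e) (zv b)
    have e2 := hQ (zv b) (xv i e)
    rw [DAN_.fv_xz, if_neg (by simp),
      if_pos (show clz (xv i e : IZ m s) + clz (zv b) = ei i + eZ from rfl)] at e1
    rw [if_neg (by simp), if_pos (show clz (zv b : IZ m s) + clz (xv i e) = ei i + eZ from
        add_comm eZ (ei i))] at e2
    simp only [DAN_.hh, DAN_.E_x1, DAN_.E_x3, DAN_.E_z2, mul_zero, add_zero,
      Finset.sum_const_zero] at e1 e2
    have e3 : ∀ (x : Fin m × Fin 3) (y : Fin m × Fin 3),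
        DANN_.E (K := K) (Sum.inr b : IZ m s) (Sum.inl (i, e)) (Sum.inl x) (Sum.inl y) = 0 :=
      fun x y => (DAN_.E_z1 b b x y _).1
    have e4 : ∀ (x : Fin m × Fin 3) (c : Fin s),
        DANN_.E (K := K) (Sum.inr b : IZ m s) (Sum.inl (i, e)) (Sum.inl x) (Sum.inr c) = 0 :=
      fun x c => (DAN_.E_z1 b c x x _).2
    simp only [e3, e4, mul_zero, add_zero, Finset.sum_const_zero] at e2
    rw [e1, e2]
    ring
  · obtain ⟨c1, c3, c2, c4, c5, c6, c7, hQ⟩ := DAN_.key w v hz qz _ QQ H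
    refine ⟨c7, c6, fun k e b heb => ?_, fun b c hbc => ?_⟩
    · have hne : (xv k e : IZ m s) ≠ xv k b := by
        intro h
        exact heb (by simpa using h)
      have e1 := hQ (xv k e) (xv k b)
      have e2 := hQ (xv k b) (xv k e)
      rw [DAN_.fw_xx, DAN_.hh_xx, if_neg hne,
        if_pos (show clz (xv k e : IZ m s) + clz (xv k b) = 0 from DAN_.add_self _)] at e1
      rw [DAN_.fw_xx, DAN_.hh_xx, if_neg hne.symm,
        if_pos (show clz (xv k b : IZ m s) + clz (xv k e) = 0 from DAN_.add_self _)] at e2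
      simp only [DAN_.E_x1, DAN_.E_x2, mul_zero, Finset.sum_const_zero, add_zero, true_and,
        hw.1 k, Pi.zero_apply] at e1 e2
      rw [e1, e2]
      rcases lt_or_gt_of_ne heb with h | h
      · rw [if_pos h, if_neg (not_lt.2 h.le)]; ring
      · rw [if_neg (not_lt.2 h.le), if_pos h]; ring
    · have hne : (zv b : IZ m s) ≠ zv c := by
        intro h
        exact hbc (by simpa using h)
      have e1 := hQ (zv b) (zv c)
      have e2 := hQ (zv c) (zv b)
      rw [DAN_.fq_zz, DAN_.hh_zz, if_neg hne,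
        if_pos (show clz (zv b : IZ m s) + clz (zv c) = 0 from DAN_.add_self _)] at e1
      rw [DAN_.fq_zz, DAN_.hh_zz, if_neg hne.symm,
        if_pos (show clz (zv c : IZ m s) + clz (zv b) = 0 from DAN_.add_self _)] at e2
      have e3 : ∀ (b b' : Fin s) (x : Fin m × Fin 3) (y : Fin m × Fin 3),
          DANN_.E (K := K) (Sum.inr b : IZ m s) (Sum.inr b') (Sum.inl x) (Sum.inl y) = 0 :=
        fun b b' x y => (DAN_.E_z1 b b x y _).1
      have e4 : ∀ (b b' : Fin s) (x : Fin m × Fin 3) (c : Fin s),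
          DANN_.E (K := K) (Sum.inr b : IZ m s) (Sum.inr b') (Sum.inl x) (Sum.inr c) = 0 :=
        fun b b' x c => (DAN_.E_z1 b c x x _).2
      simp only [e3, e4, mul_zero, add_zero, Finset.sum_const_zero] at e1 e2
      rw [e1, e2]
      simp only [qs, Int.cast_add, mul_add, Finset.sum_add_distrib]
      ring

end Pool.Agent.VCU
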