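import Pool.Agent.VCU.Targets

/-!
# Target DIMZ: the dimension of the space of functionals
-/

set_option autoImplicit false

namespace Pool.Agent.VCU

open Pool.Agent.VCC Pool.Agent.VCT

universe u

namespace DIMZ_

open Pool.Agent.VCT.DIM_

/-- independent functionals take all the values -/
theorem surj {K : Type*} [Field K] {C X : Type*} [Fintype C] [Fintype X] (A : C → X → K)
    (h : ∀ y : C → K, (∀ x, ∑ c, y c * A c x = 0) → y = 0) (r : C → K) :
    ∃ g : X → K, ∀ c, ∑ x, A c x * g x = r c := by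
  classical
  let L : (X → K) →ₗ[K] (C → K) :=
    { toFun := fun g c => ∑ x, A c x * g x
      map_add' := fun g g' => by
        funext c
        simp only [Pi.add_apply, mul_add, Finset.sum_add_distrib]
      map_smul' := fun a g => by
        funext c
        simp only [Pi.smul_apply, smul_eq_mul, Finset.mul_sum, mul_left_comm _ a,
          RingHom.id_apply] }
  have hL : LinearMap.range L = ⊤ := by
    by_contra hne
    obtain ⟨f, hf0, hf⟩ := Submodule.exists_le_ker_of_lt_top _ (lt_top_iff_ne_top.2 hne)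
    have hf' : ∀ g, f (L g) = 0 := fun g => by
      have h1 : L g ∈ LinearMap.ker f := hf ⟨g, rfl⟩
      exact h1
    have hfs : ∀ v : C → K, f v = ∑ c, v c * f (Pi.single c 1) := by
      intro v
      have h1 : v = ∑ c, v c • (Pi.single c 1 : C → K) := by
        funext y
        simp [Finset.sum_apply, Pi.single_apply]
      conv_lhs => rw [h1]
      rw [map_sum]
      simp only [map_smul, smul_eq_mul]
    have h2 : (fun c => f (Pi.single c 1)) = (0 : C → K) := by
      apply h
      intro x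
      have h3 := hf' (Pi.single x 1)
      have h4 : L (Pi.single x 1) = fun c => A c x := by
        funext c
        show ∑ x', A c x' * (Pi.single x 1 : X → K) x' = A c x
        rw [Finset.sum_eq_single x]
        · simp
        · intro x' _ hx'
          simp [hx']
        · simp
      rw [h4, hfs] at h3
      rw [← h3]
      exact Finset.sum_congr rfl fun c _ => mul_comm _ _
    apply hf0
    refine LinearMap.ext fun v => ?_
    rw [hfs]
    have h5 : ∀ c, f (Pi.single c 1) = 0 := fun c => congrFun h2 c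
    simp [h5]
  obtain ⟨g, hg⟩ := LinearMap.range_eq_top.1 hL r
  exact ⟨g, fun c => congrFun hg c⟩

/-- index type of the entries -/
abbrev PZ (m s : ℕ) := PP m ⊕ ((Fin m × Fin 3 × Fin s) ⊕ QQ' s)

variable {K : Type*} [Field K] {m s t : ℕ}

/-- the symmetric array of `Z` with given entries -/
def EZZ (s : ℕ) (K : Type*) [Field K] : (QQ' s → K) →ₗ[K] (Fin s → Fin s → K) where
  toFun g b c :=
    if h : b < c then g ⟨(b, c), h⟩ else if h : c < b then g ⟨(c, b), h⟩ else 0
  map_add' g g' := by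
    funext b c
    simp only [Pi.add_apply]
    split_ifs <;> simp
  map_smul' a g := by
    funext b c
    simp only [Pi.smul_apply, smul_eq_mul, RingHom.id_apply]
    split_ifs <;> simp

theorem EZZ_lt (g : QQ' s → K) (b c : Fin s) (h : b < c) : EZZ s K g b c = g ⟨(b, c), h⟩ := by
  show (if h : b < c then _ else _) = _
  rw [dif_pos h]

theorem EZZ_gt (g : QQ' s → K) (b c : Fin s) (h : c < b) : EZZ s K g b c = g ⟨(c, b), h⟩ := by
  show (if h : b < c then _ else if h : c < b then _ else _) = _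
  rw [dif_neg (not_lt.2 h.le), dif_pos h]

theorem EZZ_eq (g : QQ' s → K) (b : Fin s) : EZZ s K g b b = 0 := by
  show (if h : b < b then _ else if h : b < b then _ else _) = _
  rw [dif_neg (lt_irrefl b), dif_neg (lt_irrefl b)]

theorem EZZ_symm (g : QQ' s → K) (b c : Fin s) : EZZ s K g b c = EZZ s K g c b := by
  rcases lt_trichotomy b c with h | h | h
  · rw [EZZ_lt g b c h, EZZ_gt g c b h]
  · subst h
    rfl
  · rw [EZZ_lt g c b h, EZZ_gt g b c h]

/-- sums over the pairs of `Z` -/
theorem EZZ_sum (a : Fin s → Fin s → K) (g : QQ' s → K) :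
    ∑ b, ∑ c, a b c * EZZ s K g b c = ∑ x : QQ' s, (a x.1.1 x.1.2 + a x.1.2 x.1.1) * g x := by
  have h0 : ∑ b, ∑ c, a b c * EZZ s K g b c =
      ∑ y : Fin s × Fin s, a y.1 y.2 * EZZ s K g y.1 y.2 := by
    rw [Fintype.sum_prod_type]
  rw [h0, ← (eqv s).symm.sum_comp]
  rw [Fintype.sum_sum_type, Fintype.sum_sum_type, ← Finset.sum_add_distrib]
  have h1 : ∀ i : Fin s, a ((eqv s).symm (Sum.inr i)).1 ((eqv s).symm (Sum.inr i)).2 *
      EZZ s K g ((eqv s).symm (Sum.inr i)).1 ((eqv s).symm (Sum.inr i)).2 = 0 := by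
    intro i
    show a i i * EZZ s K g i i = 0
    rw [EZZ_eq, mul_zero]
  rw [Finset.sum_eq_zero (fun i _ => h1 i), add_zero]
  refine Finset.sum_congr rfl fun x _ => ?_
  obtain ⟨⟨b, c⟩, h⟩ := x
  show a b c * EZZ s K g b c + a c b * EZZ s K g c b = (a b c + a c b) * g ⟨(b, c), h⟩
  rw [EZZ_lt g b c h, EZZ_gt g c b h]
  ring

/-- the symmetric array with given entries -/
def EE (m s : ℕ) (K : Type*) [Field K] : (PZ m s → K) →ₗ[K] (IZ m s → IZ m s → K) where
  toFun g x y := match x, y with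
    | Sum.inl x, Sum.inl y => E m K (fun p => g (Sum.inl p)) x y
    | Sum.inl x, Sum.inr b => g (Sum.inr (Sum.inl (x.1, x.2, b)))
    | Sum.inr b, Sum.inl x => g (Sum.inr (Sum.inl (x.1, x.2, b)))
    | Sum.inr b, Sum.inr c => EZZ s K (fun p => g (Sum.inr (Sum.inr p))) b c
  map_add' g g' := by
    funext x y
    rcases x with x | b <;> rcases y with y | c
    · have h1 := congrFun (congrFun ((E m K).map_add (fun p => g (Sum.inl p))
        (fun p => g' (Sum.inl p))) x) y
      exact h1
    · rfl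
    · rfl
    · have h1 := congrFun (congrFun ((EZZ s K).map_add (fun p => g (Sum.inr (Sum.inr p)))
        (fun p => g' (Sum.inr (Sum.inr p)))) b) c
      exact h1
  map_smul' a g := by
    funext x y
    rcases x with x | b <;> rcases y with y | c
    · have h1 := congrFun (congrFun ((E m K).map_smul a (fun p => g (Sum.inl p))) x) y
      exact h1
    · rfl
    · rfl
    · have h1 := congrFun (congrFun ((EZZ s K).map_smul a (fun p => g (Sum.inr (Sum.inr p)))) b) c
      exact h1

theorem EE_symm (g : PZ m s → K) (x y : IZ m s) : EE m s K g x y = EE m s K g y x := by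
  rcases x with x | b <;> rcases y with y | c
  · exact E_symm (fun p => g (Sum.inl p)) _ _
  · rfl
  · rfl
  · exact EZZ_symm (fun p => g (Sum.inr (Sum.inr p))) _ _

theorem EE_diag (g : PZ m s → K) (x : IZ m s) : EE m s K g x x = 0 := by
  rcases x with x | b
  · exact E_diag (fun p => g (Sum.inl p)) _
  · exact EZZ_eq (fun p => g (Sum.inr (Sum.inr p))) _

/-- restriction -/
def rz (F : IZ m s → IZ m s → K) : PZ m s → K
  | Sum.inl p => rs (fun x y => F (Sum.inl x) (Sum.inl y)) p
  | Sum.inr (Sum.inl (i, a, b)) => F (xv i a) (zv b)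
  | Sum.inr (Sum.inr x) => F (zv x.1.1) (zv x.1.2)

theorem rz_EE (g : PZ m s → K) : rz (EE m s K g) = g := by
  funext x
  rcases x with p | ⟨i, a, b⟩ | ⟨⟨b, c⟩, h⟩
  · exact congrFun (rs_E (fun p => g (Sum.inl p))) p
  · rfl
  · exact EZZ_lt (fun p => g (Sum.inr (Sum.inr p))) _ _ h

theorem EE_inj : Function.Injective (EE m s K) := by
  intro g g' h
  rw [← rz_EE g, h, rz_EE]

theorem EE_rz (F : IZ m s → IZ m s → K) (hs : ∀ x y, F x y = F y x)
    (hd : ∀ x, F x x = 0) : EE m s K (rz F) = F := by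
  funext x y
  rcases x with x | b <;> rcases y with y | c
  · exact congrFun (congrFun (E_rs (fun x y => F (Sum.inl x) (Sum.inl y))
      (fun x y => hs _ _) (fun x => hd _)) x) y
  · rfl
  · exact hs _ _
  · show EZZ s K (fun p => rz F (Sum.inr (Sum.inr p))) b c = F (Sum.inr b) (Sum.inr c)
    rcases lt_trichotomy b c with h | h | h
    · rw [EZZ_lt _ _ _ h]
      rfl
    · subst h
      rw [EZZ_eq, hd]
    · rw [EZZ_gt _ _ _ h]
      exact hs _ _

/-- the value of `h` -/
def hL (m s : ℕ) (K : Type*) [Field K] (hz : Fin s → Fin s → ℤ) :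
    (IZ m s → IZ m s → K) →ₗ[K] K where
  toFun F := ∑ i, (F (xv i 0) (xv i 1) + F (xv i 0) (xv i 2) + F (xv i 1) (xv i 2)) +
    ∑ b, ∑ c, (hz b c : K) * F (zv b) (zv c)
  map_add' F G := by
    simp only [Pi.add_apply, mul_add, Finset.sum_add_distrib]
    ring
  map_smul' c F := by
    simp only [Pi.smul_apply, smul_eq_mul, mul_add, Finset.mul_sum, mul_left_comm _ c,
      RingHom.id_apply]

/-- the targets of the conditions -/
abbrev TZ (m s t : ℕ) (K : Type*) :=
  (QQ' m × Fin 3 → K) × (Fin m × Fin s → K) × (Fin t → K) × K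

/-- the conditions -/
def Ps (w : Arr m K) (v : VArr m s K) (hz : Fin s → Fin s → ℤ)
    (qz : Fin t → Fin s → Fin s → ℤ) : (PZ m s → K) →ₗ[K] TZ m s t K :=
  LinearMap.prod
    { toFun := fun g x => ∑ a, ∑ b, w x.1.1.1 x.1.1.2 x.2 a b * g (Sum.inl (Sum.inl (x.1, a, b)))
      map_add' := fun g g' => by
        funext x
        simp only [Pi.add_apply, mul_add, Finset.sum_add_distrib]
      map_smul' := fun c g => by
        funext x
        simp only [Pi.smul_apply, smul_eq_mul, Finset.mul_sum, mul_left_comm _ c,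
          RingHom.id_apply] }
    (LinearMap.prod
      { toFun := fun g x => ∑ a, ∑ b, v x.1 x.2 a b * g (Sum.inr (Sum.inl (x.1, a, b)))
        map_add' := fun g g' => by
          funext x
          simp only [Pi.add_apply, mul_add, Finset.sum_add_distrib]
        map_smul' := fun c g => by
          funext x
          simp only [Pi.smul_apply, smul_eq_mul, Finset.mul_sum, mul_left_comm _ c,
            RingHom.id_apply] }
      (LinearMap.prod
        { toFun := fun g τ => ∑ b, ∑ c, (qz τ b c : K) * EE m s K g (zv b) (zv c)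
          map_add' := fun g g' => by
            funext τ
            simp only [map_add, Pi.add_apply, mul_add, Finset.sum_add_distrib]
          map_smul' := fun c g => by
            funext τ
            simp only [map_smul, Pi.smul_apply, smul_eq_mul, Finset.mul_sum, mul_left_comm _ c,
              RingHom.id_apply] }
        (hL m s K hz ∘ₗ EE m s K)))

theorem FZ_eq (w : Arr m K) (v : VArr m s K) (hz : Fin s → Fin s → ℤ)
    (qz : Fin t → Fin s → Fin s → ℤ) (hw : WSym w) :
    FZ w v hz qz = (LinearMap.ker (Ps w v hz qz)).map (EE m s K) := by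
  ext F
  rw [Submodule.mem_map]
  constructor
  · rintro ⟨h1, h2, h3, h4, h5, h6⟩
    refine ⟨rz F, ?_, EE_rz F h1 h2⟩
    rw [LinearMap.mem_ker]
    refine Prod.ext ?_ (Prod.ext ?_ (Prod.ext ?_ ?_))
    · funext x
      obtain ⟨⟨⟨i, j⟩, h⟩, c⟩ := x
      exact h3 i j h.ne c
    · funext x
      obtain ⟨i, d⟩ := x
      exact h4 i d
    · funext τ
      show ∑ b, ∑ c, (qz τ b c : K) * EE m s K (rz F) (zv b) (zv c) = 0
      rw [EE_rz F h1 h2]
      exact h5 τ
    · show hL m s K hz (EE m s K (rz F)) = 0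
      rw [EE_rz F h1 h2]
      exact h6
  · rintro ⟨g, hg, rfl⟩
    rw [LinearMap.mem_ker] at hg
    have hg1 : ∀ (i j : Fin m) (h : i < j) (c : Fin 3),
        ∑ a, ∑ b, w i j c a b * g (Sum.inl (Sum.inl (⟨(i, j), h⟩, a, b))) = 0 := by
      intro i j h c
      exact congrFun (congrArg Prod.fst hg) (⟨(i, j), h⟩, c)
    have hg2 : ∀ i d, ∑ a, ∑ b, v i d a b * g (Sum.inr (Sum.inl (i, a, b))) = 0 := by
      intro i d
      exact congrFun (congrArg (fun x => x.2.1) hg) (i, d)
    have hg3 : ∀ τ, ∑ b, ∑ c, (qz τ b c : K) * EE m s K g (zv b) (zv c) = 0 := by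
      intro τ
      exact congrFun (congrArg (fun x => x.2.2.1) hg) τ
    have hg4 : hL m s K hz (EE m s K g) = 0 := congrArg (fun x => x.2.2.2) hg
    refine ⟨EE_symm g, EE_diag g, ?_, hg2, hg3, hg4⟩
    intro i j hij c
    rcases lt_or_gt_of_ne hij with h | h
    · rw [← hg1 i j h c]
      refine Finset.sum_congr rfl fun a _ => Finset.sum_congr rfl fun b _ => ?_
      show w i j c a b * E m K (fun p => g (Sum.inl p)) (i, a) (j, b) = _
      rw [E_lt _ i j h]
    · rw [← hg1 j i h c, Finset.sum_comm]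
      refine Finset.sum_congr rfl fun a _ => Finset.sum_congr rfl fun b _ => ?_
      show w i j c b a * E m K (fun p => g (Sum.inl p)) (i, b) (j, a) = _
      rw [E_gt _ i j h, hw.2 j i]
      rfl

theorem Ps_surj (w : Arr m K) (v : VArr m s K) (hz : Fin s → Fin s → ℤ)
    (qz : Fin t → Fin s → Fin s → ℤ) (hm : 0 < m) (hq : LIq K qz)
    (h3 : ∀ i j, i ≠ j → LI3 (w i j)) (hv : ∀ i, LIv (v i)) :
    LinearMap.range (Ps w v hz qz) = ⊤ := by
  rw [LinearMap.range_eq_top]
  rintro ⟨r1, r2, r3, r4⟩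
  -- the pairs of 3-blocks
  have k1 : ∀ x : QQ' m, ∃ M : Fin 3 × Fin 3 → K,
      ∀ c, ∑ y : Fin 3 × Fin 3, w x.1.1 x.1.2 c y.1 y.2 * M y = r1 (x, c) := by
    intro x
    exact surj (fun c (y : Fin 3 × Fin 3) => w x.1.1 x.1.2 c y.1 y.2)
      (fun y hy => h3 _ _ x.2.ne y fun a b => hy (a, b)) fun c => r1 (x, c)
  choose M hM using k1
  -- the 3-blocks and `Z`
  have k2 : ∀ i : Fin m, ∃ N : Fin 3 × Fin s → K,
      ∀ d, ∑ y : Fin 3 × Fin s, v i d y.1 y.2 * N y = r2 (i, d) := by
    intro i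
    exact surj (fun d (y : Fin 3 × Fin s) => v i d y.1 y.2)
      (fun y hy => hv i y fun a b => hy (a, b)) fun d => r2 (i, d)
  choose N hN using k2
  -- `Z`
  have k3 : ∃ u : QQ' s → K, ∀ τ, ∑ x : QQ' s,
      ((qz τ x.1.1 x.1.2 : K) + (qz τ x.1.2 x.1.1 : K)) * u x = r3 τ := by
    refine surj (fun τ (x : QQ' s) => (qz τ x.1.1 x.1.2 : K) + (qz τ x.1.2 x.1.1 : K))
      (fun y hy => hq y fun b c hbc => ?_) r3
    rcases lt_or_gt_of_ne hbc with h | h
    · rw [← hy ⟨(b, c), h⟩]
      refine Finset.sum_congr rfl fun τ _ => ?_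
      simp only [qs, Int.cast_add]
    · rw [← hy ⟨(c, b), h⟩]
      refine Finset.sum_congr rfl fun τ _ => ?_
      simp only [qs, Int.cast_add]
      rw [add_comm]
  obtain ⟨u, hu⟩ := k3
  let g : PZ m s → K
    | Sum.inl (Sum.inl (x, a, b)) => M x (a, b)
    | Sum.inl (Sum.inr (i, e)) => if i = ⟨0, hm⟩ ∧ e = 0 then
        r4 - ∑ b, ∑ c, (hz b c : K) * EZZ s K u b c else 0
    | Sum.inr (Sum.inl (i, a, b)) => N i (a, b)
    | Sum.inr (Sum.inr x) => u x
  have hgz : (fun p => g (Sum.inr (Sum.inr p))) = u := rfl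
  refine ⟨g, ?_⟩
  refine Prod.ext ?_ (Prod.ext ?_ (Prod.ext ?_ ?_))
  · funext x
    obtain ⟨x, c⟩ := x
    show ∑ a, ∑ b, w x.1.1 x.1.2 c a b * M x (a, b) = r1 (x, c)
    rw [← hM x c, Fintype.sum_prod_type]
  · funext x
    obtain ⟨i, d⟩ := x
    show ∑ a, ∑ b, v i d a b * N i (a, b) = r2 (i, d)
    rw [← hN i d, Fintype.sum_prod_type]
  · funext τ
    show ∑ b, ∑ c, (qz τ b c : K) * EZZ s K u b c = r3 τ
    rw [EZZ_sum, hu]
  · show ∑ i, (E m K (fun p => g (Sum.inl p)) (i, 0) (i, 1) +
        E m K (fun p => g (Sum.inl p)) (i, 0) (i, 2) +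
        E m K (fun p => g (Sum.inl p)) (i, 1) (i, 2)) +
      ∑ b, ∑ c, (hz b c : K) * EZZ s K u b c = r4
    have b1 : -((0 : Fin 3) + 1) = 2 := rfl
    have b2 : -((0 : Fin 3) + 2) = 1 := rfl
    have b3 : -((1 : Fin 3) + 2) = 0 := rfl
    have hval : ∀ (i : Fin m) (e : Fin 3), g (Sum.inl (Sum.inr (i, e))) =
      if i = ⟨0, hm⟩ ∧ e = 0 then r4 - ∑ b, ∑ c, (hz b c : K) * EZZ s K u b c else 0 :=
        fun _ _ => rfl
    rw [Finset.sum_eq_single (⟨0, hm⟩ : Fin m)]
    · simp only [E_eq, b1, b2, b3, hval]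
      simp
    · intro i _ hi
      simp only [E_eq, b1, b2, b3, hval]
      simp [hi]
    · simp

theorem two_choose (n : ℕ) : 2 * n.choose 2 + n = n ^ 2 := by
  induction n with
  | zero => rfl
  | succ n ih =>
    rw [Nat.choose_succ_succ' n 1, Nat.choose_one_right]
    nlinarith [ih]

theorem card_Q' (n : ℕ) : Fintype.card (QQ' n) = n.choose 2 := by
  have h1 := card_Q n
  have h2 := two_choose n
  omega

end DIMZ_

open DIMZ_ Pool.Agent.VCT.DIM_ in
theorem p_DIMZ : T_DIMZ.{u} := by
  intro m s t K _ w v hz qz hm hw _ _ hq h3 hv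
  rw [FZ_eq w v hz qz hw]
  have h1 := (Submodule.equivMapOfInjective (EE m s K) EE_inj
    (LinearMap.ker (DIMZ_.Ps w v hz qz))).finrank_eq
  rw [← h1]
  have h2 := LinearMap.finrank_range_add_finrank_ker (DIMZ_.Ps w v hz qz)
  rw [DIMZ_.Ps_surj w v hz qz hm hq h3 hv, finrank_top, Module.finrank_prod,
    Module.finrank_prod, Module.finrank_prod,
    Module.finrank_fintype_fun_eq_card, Module.finrank_fintype_fun_eq_card,
    Module.finrank_fintype_fun_eq_card, Module.finrank_fintype_fun_eq_card,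
    Module.finrank_self] at h2
  simp only [Fintype.card_sum, Fintype.card_prod, Fintype.card_fin, card_Q'] at h2
  have h4 : m * s + (m * (3 * s)) = 4 * (s * m) := by ring
  have h5 : m * (3 * s) = 3 * (s * m) := by ring
  have h6 : m * s = s * m := by ring
  have h7 : 2 * s * m = 2 * (s * m) := by ring
  rw [h7]
  rw [h5, h6] at h2
  omega

end Pool.Agent.VCU
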