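import Pool.Agent.VCU.FOK

/-!
# Target `T_FEL`: the class `e_l`, special family
-/

set_option autoImplicit false

namespace Pool.Agent.VCU

open Pool.Agent.VCC Pool.Agent.VCT HilbPts Pool.Agent.VCT.SP_

universe u

open GU_ FOK_ in
theorem p_FEL : T_FEL.{u} := by
  intro m s t t' κ _ _ hz qz qz' A B L dA dB dL k hC hL l a hla X hX h0
  -- positions
  have ol : ow l a l = 0 := ow_l l a
  have oa : ow l a a = 1 := ow_a hla
  have oo : ∀ i, i ≠ l → i ≠ a → ow l a i = 2 + i := fun i h1 h2 => by simp [ow, h1, h2]
  have q0 : ∀ i j u x y, ow l a i < ow l a j → Q2 (wF κ l a i j) (zF κ l a i j u) x y = 0 := by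
    intro i j u x y h
    rw [(wF_lt h).1, (zF_lt h).1, q2_lo]
  have la : ow l a l < ow l a a := by rw [ol, oa]; omega
  have wal : wF κ l a a l = tr (wlo κ) := (wF_lt la).2
  have zal : zF κ l a a l = Zol κ := (zF_lt la).2
  have zla : zF κ l a l a = Zlo κ := (zF_lt la).1
  -- the data
  have vl : vF l a A B L l = A := pick_l l a A B L
  have va : vF l a A B L a = B := pick_a hla A B L
  have dl : pick l a dA dB dL l = dA := pick_l l a dA dB dL
  have da : pick l a dA dB dL a = dB := pick_a hla dA dB dL
  have hz' : (dF l a dA dB dL k).z = zF κ l a := rfl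
  -- the main parts
  have tl : ∀ u e b, TA (wF κ l a) (zF κ l a) X.S X.g l u e b =
      uu u e * X.g b - ∑ x, (if x = e then 0 else uu u x * X.S l x b) := by
    intro u e b
    have hs : ∑ j, (if j = l then 0 else
        ∑ c, Q2 (wF κ l a l j) (zF κ l a l j u) e c * X.S j c b) = 0 := by
      apply Finset.sum_eq_zero
      intro j _
      by_cases hj : j = l
      · rw [if_pos hj]
      rw [if_neg hj]
      refine Finset.sum_eq_zero fun c _ => ?_
      have h1 := ow_ne l a (Ne.symm hj)
      rw [q0 l j u e c (by rw [ol] at h1 ⊢; omega), zero_mul]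
    rw [TA, hs, add_zero]
  have ta : ∀ u e b, TA (wF κ l a) (zF κ l a) X.S X.g a u e b =
      uu u e * X.g b - ∑ x, (if x = e then 0 else uu u x * X.S a x b) +
        ∑ c, Q2 (tr (wlo κ)) (Zol κ u) e c * X.S l c b := by
    intro u e b
    have hs : ∑ j, (if j = a then 0 else
        ∑ c, Q2 (wF κ l a a j) (zF κ l a a j u) e c * X.S j c b) =
        ∑ c, Q2 (tr (wlo κ)) (Zol κ u) e c * X.S l c b := by
      rw [Finset.sum_eq_single l]
      · rw [if_neg hla, wal, zal]
      · intro j _ hj
        by_cases hja : j = a
        · rw [if_pos hja]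
        rw [if_neg hja]
        refine Finset.sum_eq_zero fun c _ => ?_
        rw [q0 a j u e c (by rw [oa, oo j hj hja]; omega), zero_mul]
      · intro h
        exact absurd (Finset.mem_univ _) h
    rw [TA, hs]
  have tbl : ∀ u e b, TB (wF κ l a) (vF l a A B L) (dF l a dA dB dL k) X l u e b =
      TBc A dA (X.S l) X.SZ X.g X.gq u e b := by
    intro u e b
    simp only [TB, TBc, tl, vl, dF, dl]
  have tba : ∀ u e b, TB (wF κ l a) (vF l a A B L) (dF l a dA dB dL k) X a u e b =
      TBc B dB (X.S a) X.SZ X.g X.gq u e b + ∑ c, Q2 (tr (wlo κ)) (Zol κ u) e c * X.S l c b := by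
    intro u e b
    simp only [TB, TBc, ta, va, dF, da]
    ring
  have pbl : ∀ e b, PB (vF l a A B L) (dF l a dA dB dL k) X l e b = PBc A dA X.SZ X.gq e b := by
    intro e b
    simp only [PB, PBc, vl, dF, dl]
  have pba : ∀ e b, PB (vF l a A B L) (dF l a dA dB dL k) X a e b = PBc B dB X.SZ X.gq e b := by
    intro e b
    simp only [PB, PBc, va, dF, da]
  -- the core
  obtain ⟨s1, s2, s3, s4, s5, s6, s7⟩ := hC (X.S l) (X.S a) X.SZ (X.P a) X.U X.g X.gq
    (fun u => by
      have := hX.a a hla.symm u
      simp only [tba, wal, hz', zal] at this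
      exact this)
    (by
      have := hX.p a hla.symm
      simp only [pba, wal] at this
      exact this)
    (fun b => by
      have h1 := hX.az b
      have hs : ∀ (x : Fin 3) (c : Fin s), ∑ j, ∑ a', QR (vF l a A B L j)
          ((pick l a dA dB dL j).r b) a' c * X.S j a' x =
          ∑ a', QR A (dA.r b) a' c * X.S l a' x + ∑ a', QR B (dB.r b) a' c * X.S a a' x := by
        intro x c
        rw [Finset.sum_eq_add (s := Finset.univ) l a hla]
        · simp only [vl, va, dl, da]
        · rintro j - ⟨hj1, hj2⟩
          refine Finset.sum_eq_zero fun a' _ => ?_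
          have h2 : vF l a A B L j = L := by simp [vF, pick, hj1, hj2]
          have h3 : pick l a dA dB dL j = dL := by simp [pick, hj1, hj2]
          simp only [h2, h3]
          rw [hL b a' c, zero_mul]
        · intro hh; exact absurd (Finset.mem_univ _) hh
        · intro hh; exact absurd (Finset.mem_univ _) hh
      simp only [dF, hs, vl, dl] at h1
      exact h1)
    (fun u => by
      obtain ⟨μ, ν, h1, h2, h3⟩ := hX.b u
      refine ⟨μ, ν, fun e b heb => ?_, fun e b heb => ?_, fun b c hbc => ?_⟩
      · have := h1 a hla.symm e b heb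
        simp only [hz', zla] at this
        exact this
      · rw [← tbl, ← tbl]
        exact h2 e b heb
      · have := h3 b c hbc
        simp only [dF, dl] at this
        exact this)
    (by
      obtain ⟨μ, ν, h1, h2, h3⟩ := hX.q
      have hμ := h1 a hla.symm
      refine ⟨ν, fun e b heb => ?_, fun b c hbc => ?_⟩
      · rw [← pbl, ← pbl, h2 e b heb, hμ]
      · have := h3 b c hbc
        simp only [dF, dl, hμ, zero_mul, zero_add] at this
        exact this)
    h0
  -- the other blocks
  have hout : ∀ n : ℕ, ∀ i : Fin m, (i : ℕ) = n → i ≠ l → i ≠ a → X.S i = 0 ∧ X.P i = 0 := by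
    intro n
    induction n using Nat.strong_induction_on with
    | _ n ih =>
      intro i hi h1 h2
      have oi := oo i h1 h2
      have hli : ow l a l < ow l a i := by rw [ol, oi]; omega
      have hT : ∀ u e b, TA (wF κ l a) (zF κ l a) X.S X.g i u e b =
          - ∑ x, (if x = e then 0 else uu u x * X.S i x b) := by
        intro u e b
        have hs : ∑ j, (if j = i then 0 else
            ∑ c, Q2 (wF κ l a i j) (zF κ l a i j u) e c * X.S j c b) = 0 := by
          apply Finset.sum_eq_zero
          intro j _
          by_cases hji : j = i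
          · rw [if_pos hji]
          rw [if_neg hji]
          apply Finset.sum_eq_zero
          intro c _
          by_cases j1 : j = l
          · rw [j1, s1]; simp
          by_cases j2 : j = a
          · rw [j2, s2]; simp
          have oj := oo j j1 j2
          rcases lt_or_gt_of_ne (fun hh : (j : ℕ) = i => hji (Fin.ext hh)) with hlt | hgt
          · rw [(ih j (by omega) j rfl j1 j2).1]; simp
          · rw [q0 i j u e c (by rw [oi, oj]; omega), zero_mul]
        rw [TA, hs, s6]
        simp
      have hTB : ∀ u e b, TB (wF κ l a) (vF l a A B L) (dF l a dA dB dL k) X i u e b =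
          - ∑ x, (if x = e then 0 else uu u x * X.S i x b) := by
        intro u e b
        simp only [TB, hz', hT, s3, s7]
        simp
      apply po_core (X.S i) (X.P i)
      · intro u
        have := hX.a i h1 u
        simp only [hTB, (wF_lt hli).2, hz', (zF_lt hli).2] at this
        exact this
      · intro u e b heb
        obtain ⟨μ, ν, h3, -, -⟩ := hX.b u
        have h4 := h3 a hla.symm 0 1 (by decide)
        simp only [s4, Pi.zero_apply, mul_zero, add_zero, Finset.sum_const_zero] at h4
        have h5 := h3 i h1 e b heb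
        rw [← h4] at h5
        simp only [hz', (zF_lt hli).1] at h5
        exact h5
  refine ⟨?_, s3, fun i i1 => ?_, s5, s6, s7⟩
  · funext i
    by_cases i1 : i = l
    · rw [i1, s1]; rfl
    by_cases i2 : i = a
    · rw [i2, s2]; rfl
    exact (hout i i rfl i1 i2).1
  · by_cases i2 : i = a
    · rw [i2, s4]
    exact (hout i i rfl i1 i2).2

end Pool.Agent.VCU
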