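import Pool.Agent.VCU.Targets2

/-!
# The special families: the class `e_Z`
-/

set_option autoImplicit false

namespace Pool.Agent.VCU

open Pool.Agent.VCC Pool.Agent.VCT Pool.Agent.VCT.SP_

namespace FEZ_

section

variable {R : Type*} [CommRing R] {m s t t' : ℕ} {l a : Fin m}

theorem ow_l : ow l a l = 0 := by simp [ow]

theorem ow_a (h : l ≠ a) : ow l a a = 1 := by simp [ow, h.symm]

theorem ow_o {i : Fin m} (h1 : i ≠ l) (h2 : i ≠ a) : ow l a i = 2 + i := by simp [ow, h1, h2]

theorem w_lt (R : Type*) [CommRing R] {i j : Fin m} (h : ow l a i < ow l a j) :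
    wF R l a i j = wlo R ∧ wF R l a j i = tr (wlo R) := by
  constructor
  · simp [wF, h]
  · simp [wF, h, not_lt_of_gt h]

theorem z_lt (R : Type*) [CommRing R] {i j : Fin m} (h : ow l a i < ow l a j) :
    zF R l a i j = Zlo R ∧ zF R l a j i = Zol R := by
  constructor
  · simp [zF, h]
  · simp [zF, h, not_lt_of_gt h]

theorem q2_lt {i j : Fin m} (h : ow l a i < ow l a j) (u : Fin 2) (e b : Fin 3) :
    Q2 (wF R l a i j) (zF R l a i j u) e b = 0 := by
  rw [(w_lt R h).1, (z_lt R h).1, q2_lo]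

theorem pick_l {α : Type*} (A B L : α) : pick l a A B L l = A := by simp [pick]

theorem pick_a {α : Type*} (h : l ≠ a) (A B L : α) : pick l a A B L a = B := by
  simp [pick, h.symm]

theorem pick_o {α : Type*} {i : Fin m} (h1 : i ≠ l) (h2 : i ≠ a) (A B L : α) :
    pick l a A B L i = L := by simp [pick, h1, h2]

variable {hz : Fin s → Fin s → ℤ} {qz : Fin t → Fin s → Fin s → ℤ}
  {qz' : Fin t' → Fin s → Fin s → ℤ} {A B L : VFm s R} {dA dB dL : BD s t R}
  {k : Fin s → Fin s → Fin t → R} {X : XZ m s t R}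

/-- the equations of `E_i(u)` -/
theorem blk_a (h : EZ (wF R l a) (vF l a A B L) hz qz qz' (dF l a dA dB dL k) X) (i : Fin m)
    {C : VFm s R} {dC : BD s t R} (hv : pick l a A B L i = C) (hD : pick l a dA dB dL i = dC)
    (q : Fin 2 → Fin 3 → Fin s → R)
    (hq : ∀ u e c, ∑ j, (if j = i then 0 else
      ∑ a', Q2 (wF R l a i j) (zF R l a i j u) e a' * X.S j a' c) = q u e c) (u : Fin 2) :
    InSpZ C fun e c => TZc C dC (X.S i) X.SZ (X.U i) X.g X.gq u e c + q u e c := by
  obtain ⟨y, hy⟩ := h.a i u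
  subst hv hD
  refine ⟨y, fun e c => ?_⟩
  have h1 := hy e c
  simp only [dF, vF] at h1
  simp only [TZc]
  rw [← hq u e c]
  linear_combination h1

/-- the equations of `P_i` -/
theorem blk_p (h : EZ (wF R l a) (vF l a A B L) hz qz qz' (dF l a dA dB dL k) X) (i : Fin m)
    {C : VFm s R} {dC : BD s t R} (hv : pick l a A B L i = C) (hD : pick l a dA dB dL i = dC) :
    InSpZ C fun e c => PZc C dC X.SZ (X.U i) X.gq e c := by
  obtain ⟨y, hy⟩ := h.p i
  subst hv hD
  refine ⟨y, fun e c => ?_⟩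
  have h1 := hy e c
  simp only [dF, vF] at h1
  simp only [PZc]
  linear_combination h1

/-- the part in `Z ⊗ Z` -/
theorem zb_eq (hla : l ≠ a) (hL : LocZ L dL) (b c c' : Fin s) :
    ZB (vF l a A B L) hz qz (dF l a dA dB dL k) X b c c' =
      ZBc A B hz qz dA dB k (X.S l) (X.S a) X.SZ X.g X.gq b c c' := by
  have hs : ∑ j, ∑ a', QR (pick l a A B L j) ((pick l a dA dB dL j).r b) a' c * X.S j a' c' =
      ∑ a', QR A (dA.r b) a' c * X.S l a' c' + ∑ a', QR B (dB.r b) a' c * X.S a a' c' := by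
    rw [Finset.sum_eq_add (s := Finset.univ) l a hla]
    · rw [pick_l, pick_l, pick_a hla, pick_a hla]
    · rintro j - ⟨h1, h2⟩
      rw [pick_o h1 h2, pick_o h1 h2]
      exact Finset.sum_eq_zero fun a' _ => by rw [hL, zero_mul]
    · intro hh; exact absurd (Finset.mem_univ _) hh
    · intro hh; exact absurd (Finset.mem_univ _) hh
  simp only [ZB, ZBc, dF, vF]
  rw [hs]

end

end FEZ_

open FEZ_

universe u

theorem p_FEZ : T_FEZ.{u} := by
  intro m s t t' κ _ _ hz qz qz' A B L dA dB dL k hC hO hL l a hla X h hd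
  have o1 : ow l a l = 0 := ow_l
  have o2 : ow l a a = 1 := ow_a hla
  have o3 : ∀ i, i ≠ l → i ≠ a → ow l a i = 2 + i := fun i h1 h2 => ow_o h1 h2
  have ol : ∀ j, j ≠ l → ow l a l < ow l a j := by
    intro j hj
    by_cases hja : j = a
    · rw [hja, o1, o2]; omega
    · rw [o1, o3 j hj hja]; omega
  have hql : ∀ (u : Fin 2) (e : Fin 3) (c : Fin s), ∑ j, (if j = l then 0 else
      ∑ a', Q2 (wF κ l a l j) (zF κ l a l j u) e a' * X.S j a' c) = 0 := by
    intro u e c
    refine Finset.sum_eq_zero fun j _ => ?_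
    by_cases hj : j = l
    · rw [if_pos hj]
    · rw [if_neg hj]
      exact Finset.sum_eq_zero fun a' _ => by rw [q2_lt (ol j hj), zero_mul]
  have hqa : ∀ (u : Fin 2) (e : Fin 3) (c : Fin s), ∑ j, (if j = a then 0 else
      ∑ a', Q2 (wF κ l a a j) (zF κ l a a j u) e a' * X.S j a' c) =
      ∑ a', Q2 (tr (wlo κ)) (Zol κ u) e a' * X.S l a' c := by
    intro u e c
    rw [Finset.sum_eq_single l]
    · rw [if_neg hla, (w_lt κ (ol a hla.symm)).2, (z_lt κ (ol a hla.symm)).2]
    · intro j _ hj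
      by_cases hja : j = a
      · rw [if_pos hja]
      · rw [if_neg hja]
        refine Finset.sum_eq_zero fun a' _ => ?_
        rw [q2_lt (by rw [o2, o3 j hj hja]; omega), zero_mul]
    · intro hh; exact absurd (Finset.mem_univ _) hh
  -- the core
  have hal := blk_a h l (pick_l A B L) (pick_l dA dB dL) (fun _ _ _ => 0) hql
  have haa := blk_a h a (pick_a hla A B L) (pick_a hla dA dB dL)
    (fun u e c => ∑ a', Q2 (tr (wlo κ)) (Zol κ u) e a' * X.S l a' c) hqa
  have hpl := blk_p h l (pick_l A B L) (pick_l dA dB dL)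
  have hpa := blk_p h a (pick_a hla A B L) (pick_a hla dA dB dL)
  simp only [add_zero] at hal
  have hz1 : ∀ b, ∃ (μ : κ) (ν : Fin t' → κ),
      (∀ j e e', e ≠ e' → - RZc (pick l a dA dB dL j) (X.U j) b e e' = μ) ∧
      ∀ c c', c ≠ c' → ZBc A B hz qz dA dB k (X.S l) (X.S a) X.SZ X.g X.gq b c c' +
        ZBc A B hz qz dA dB k (X.S l) (X.S a) X.SZ X.g X.gq b c' c =
          μ * qs κ hz c c' + ∑ τ, ν τ * qs κ (qz' τ) c c' := by
    intro b
    obtain ⟨μ, ν, h1, h2⟩ := h.z b
    refine ⟨μ, ν, fun j e e' hee => ?_, fun c c' hcc => ?_⟩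
    · exact h1 j e e' hee
    · have := h2 c c' hcc
      rw [zb_eq hla hL, zb_eq hla hL] at this
      exact this
  obtain ⟨sl, sa, sz, ul, ua, g0, gq0⟩ := hC (X.S l) (X.S a) X.SZ (X.U l) (X.U a) X.g X.gq
    hal haa hpl hpa (by
      intro b
      obtain ⟨μ, ν, h1, h2⟩ := hz1 b
      refine ⟨μ, ν, fun e e' hee => ?_, fun e e' hee => ?_, h2⟩
      · have := h1 l e e' hee
        rwa [pick_l] at this
      · have := h1 a e e' hee
        rwa [pick_a hla] at this) hd
  have hr : ∀ i, i ≠ l → i ≠ a → ∀ b e e', e ≠ e' → RZc dL (X.U i) b e e' = 0 := by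
    intro i h1 h2 b e e' hee
    obtain ⟨μ, ν, h3, -⟩ := hz1 b
    have h4 := h3 l 0 1 (by decide)
    have h5 := h3 i e e' hee
    rw [pick_l, ul] at h4
    rw [pick_o h1 h2] at h5
    have h6 : RZc dA (0 : Fin s → Fin 3 → κ) b 0 1 = 0 := by simp [RZc]
    rw [h6] at h4
    linear_combination -h5 + h4
  -- the other blocks
  have hout : ∀ n : ℕ, ∀ i : Fin m, (i : ℕ) = n → i ≠ l → i ≠ a → X.S i = 0 ∧ X.U i = 0 := by
    intro n
    induction n using Nat.strong_induction_on with
    | _ n ih =>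
      intro i hi h1 h2
      have hs : ∀ (u : Fin 2) (e : Fin 3) (c : Fin s), ∑ j, (if j = i then 0 else
          ∑ a', Q2 (wF κ l a i j) (zF κ l a i j u) e a' * X.S j a' c) = 0 := by
        intro u e c
        refine Finset.sum_eq_zero fun j _ => ?_
        by_cases hji : j = i
        · rw [if_pos hji]
        rw [if_neg hji]
        refine Finset.sum_eq_zero fun a' _ => ?_
        by_cases j1 : j = l
        · rw [j1, sl]; simp
        by_cases j2 : j = a
        · rw [j2, sa]; simp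
        rcases lt_or_gt_of_ne (fun hh : (j : ℕ) = i => hji (Fin.ext hh)) with hlt | hgt
        · rw [(ih j (by omega) j rfl j1 j2).1]; simp
        · rw [q2_lt (by rw [o3 i h1 h2, o3 j j1 j2]; omega), zero_mul]
      have hai := blk_a h i (pick_o h1 h2 A B L) (pick_o h1 h2 dA dB dL) (fun _ _ _ => 0) hs
      have hpi := blk_p h i (pick_o h1 h2 A B L) (pick_o h1 h2 dA dB dL)
      apply hO (X.S i) (X.U i)
      · intro u
        obtain ⟨y, hy⟩ := hai u
        refine ⟨y, fun e c => ?_⟩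
        rw [← hy e c, sz, g0, gq0]
        simp [TZc]
      · obtain ⟨y, hy⟩ := hpi
        refine ⟨y, fun e c => ?_⟩
        rw [← hy e c, sz, gq0]
        simp [PZc]
      · exact hr i h1 h2
  refine ⟨?_, sz, ?_, g0, gq0⟩
  · funext i
    by_cases i1 : i = l
    · rw [i1, sl]; rfl
    by_cases i2 : i = a
    · rw [i2, sa]; rfl
    exact (hout i i rfl i1 i2).1
  · funext i
    by_cases i1 : i = l
    · rw [i1, ul]; rfl
    by_cases i2 : i = a
    · rw [i2, ua]; rfl
    exact (hout i i rfl i1 i2).2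

end Pool.Agent.VCU
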