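import Pool.Agent.VCU.F2D

/-!
# The other finite facts, s = 2
-/

set_option autoImplicit false

namespace Pool.Agent.VCU

open Pool.Agent.VCC Pool.Agent.VCT Pool.Agent.VCT.SP_

namespace F2

section

variable {κ : Type*} [Field κ] [CharZero κ]

theorem okA : BDOK (gA κ) hz2 qz2 (dA κ) where
  y := by
    intro u a b c hbc
    rw [dA_y, dA_y5]
    fin_cases u <;> fin_cases a <;> fin_cases b <;> fin_cases c
    all_goals first
      | exact absurd rfl hbc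
      | (clear hbc; simp [LY, uu, qs, gA, yA, hz2, Fin.sum_univ_two] <;> norm_num; done)
      | (clear hbc; simp [LY, uu, qs, gA, yA, hz2, Fin.sum_univ_two]; done)
      | (clear hbc; norm_num [LY, uu, qs, gA, yA, hz2, Fin.sum_univ_two]; done)
  r := by
    intro b e c
    rw [dA_r]
    fin_cases b <;> fin_cases e <;> fin_cases c
    all_goals first
      | (simp [LR, gA, rA, Fin.sum_univ_two] <;> norm_num; done)
      | (simp [LR, gA, rA, Fin.sum_univ_two]; done)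
  p := by
    intro a b c hbc
    rw [dA_p, dA_p5]
    fin_cases a <;> fin_cases b <;> fin_cases c
    all_goals first
      | exact absurd rfl hbc
      | (clear hbc; simp [LY, qs, gA, pA, hz2, Fin.sum_univ_two] <;> norm_num; done)
      | (clear hbc; simp [LY, qs, gA, pA, hz2, Fin.sum_univ_two]; done)

theorem okB : BDOK (gB κ) hz2 qz2 (dB κ) where
  y := by
    intro u a b c hbc
    rw [dB_y, dB_y5]
    fin_cases u <;> fin_cases a <;> fin_cases b <;> fin_cases c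
    all_goals first
      | exact absurd rfl hbc
      | (clear hbc; simp [LY, uu, qs, gB, yB, hz2, Fin.sum_univ_two] <;> norm_num; done)
      | (clear hbc; simp [LY, uu, qs, gB, yB, hz2, Fin.sum_univ_two]; done)
      | (clear hbc; norm_num [LY, uu, qs, gB, yB, hz2, Fin.sum_univ_two]; done)
  r := by
    intro b e c
    rw [dB_r]
    fin_cases b <;> fin_cases e <;> fin_cases c
    all_goals first
      | (simp [LR, gB, rB, Fin.sum_univ_two] <;> norm_num; done)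
      | (simp [LR, gB, rB, Fin.sum_univ_two]; done)
  p := by
    intro a b c hbc
    rw [dB_p, dB_p5]
    fin_cases a <;> fin_cases b <;> fin_cases c
    all_goals first
      | exact absurd rfl hbc
      | (clear hbc; simp [LY, qs, gB, pB, hz2, Fin.sum_univ_two] <;> norm_num; done)
      | (clear hbc; simp [LY, qs, gB, pB, hz2, Fin.sum_univ_two]; done)

theorem okL : BDOK (gL κ) hz2 qz2 (dL κ) where
  y := by
    intro u a b c hbc
    rw [dL_y, dL_y5]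
    fin_cases u <;> fin_cases a <;> fin_cases b <;> fin_cases c
    all_goals first
      | exact absurd rfl hbc
      | (clear hbc; simp [LY, uu, qs, gL, yL, hz2, Fin.sum_univ_two] <;> norm_num; done)
      | (clear hbc; simp [LY, uu, qs, gL, yL, hz2, Fin.sum_univ_two]; done)
      | (clear hbc; norm_num [LY, uu, qs, gL, yL, hz2, Fin.sum_univ_two]; done)
  r := by
    intro b e c
    rw [dL_r]
    fin_cases b <;> fin_cases e <;> fin_cases c
    all_goals first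
      | (simp [LR, gL, rL, Fin.sum_univ_two] <;> norm_num; done)
      | (simp [LR, gL, rL, Fin.sum_univ_two]; done)
  p := by
    intro a b c hbc
    rw [dL_p, dL_p5]
    fin_cases a <;> fin_cases b <;> fin_cases c
    all_goals first
      | exact absurd rfl hbc
      | (clear hbc; simp [LY, qs, gL, pL, hz2, Fin.sum_univ_two] <;> norm_num; done)
      | (clear hbc; simp [LY, qs, gL, pL, hz2, Fin.sum_univ_two]; done)

theorem loc : LocZ (gL κ) (dL κ) := by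
  intro b a c
  rw [dL_r, qrL]
  fin_cases b <;> fin_cases a <;> fin_cases c <;> simp [QRL]

theorem kok : KOK hz2 qz2 (kk κ) := by
  intro b c1 c2 c3 h1 h2 h3
  exfalso
  fin_cases c1 <;> fin_cases c2 <;> fin_cases c3 <;> simp_all

/-- table -/
def TIA (y : Fin 2 → κ) : Fin 3 → Fin 2 → κ :=
  ![![y 1, 0],
    ![0, y 0],
    ![y 0, y 1]]

theorem tTIA (y : Fin 2 → κ) (a : Fin 3) (b : Fin 2) :
    ∑ d, y d * gA κ d a b =
      TIA y a b := by
  fin_cases a <;> fin_cases b <;>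
    simp [TIA, gA, Fin.sum_univ_two] <;> ring

theorem liA : LIv (gA κ) := by
  intro y h
  simp only [tTIA] at h
  have e4 : y 0 = 0 := h 2 0
  have e5 : y 1 = 0 := h 2 1
  have f_y_0 : y 0 = 0 := by
    linear_combination e4
  have f_y_1 : y 1 = 0 := by
    linear_combination e5
  funext i0
  fin_cases i0
  all_goals first
    | exact f_y_0
    | exact f_y_1

/-- table -/
def TIB (y : Fin 2 → κ) : Fin 3 → Fin 2 → κ :=
  ![![y 1, y 0],
    ![0, -y 1],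
    ![y 0, 0]]

theorem tTIB (y : Fin 2 → κ) (a : Fin 3) (b : Fin 2) :
    ∑ d, y d * gB κ d a b =
      TIB y a b := by
  fin_cases a <;> fin_cases b <;>
    simp [TIB, gB, Fin.sum_univ_two] <;> ring

theorem liB : LIv (gB κ) := by
  intro y h
  simp only [tTIB] at h
  have e3 : -y 1 = 0 := h 1 1
  have e4 : y 0 = 0 := h 2 0
  have f_y_1 : y 1 = 0 := by
    linear_combination -e3
  have f_y_0 : y 0 = 0 := by
    linear_combination e4
  funext i0
  fin_cases i0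
  all_goals first
    | exact f_y_0
    | exact f_y_1

/-- table -/
def TIL (y : Fin 2 → κ) : Fin 3 → Fin 2 → κ :=
  ![![0, y 1],
    ![y 0 - y 1, -y 0 + y 1],
    ![y 0, 0]]

theorem tTIL (y : Fin 2 → κ) (a : Fin 3) (b : Fin 2) :
    ∑ d, y d * gL κ d a b =
      TIL y a b := by
  fin_cases a <;> fin_cases b <;>
    simp [TIL, gL, Fin.sum_univ_two] <;> ring

theorem liL : LIv (gL κ) := by
  intro y h
  simp only [tTIL] at h
  have e1 : y 1 = 0 := h 0 1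
  have e4 : y 0 = 0 := h 2 0
  have f_y_1 : y 1 = 0 := by
    linear_combination e1
  have f_y_0 : y 0 = 0 := by
    linear_combination e4
  funext i0
  fin_cases i0
  all_goals first
    | exact f_y_0
    | exact f_y_1

/-- table -/
def TNA (U : Fin 3 → Fin 2 → Fin 2 → κ) : Fin 2 → Fin 2 → κ :=
  ![![U 1 1 0 + U 2 0 0, U 1 1 1 + U 2 0 1],
    ![U 0 0 0 + U 2 1 0, U 0 0 1 + U 2 1 1]]

theorem tTNA (U : Fin 3 → Fin 2 → Fin 2 → κ) (d : Fin 2) (c : Fin 2) :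
    ∑ a, ∑ b, gA κ d a b * U a b c =
      TNA U d c := by
  fin_cases d <;> fin_cases c <;>
    simp [TNA, gA, Fin.sum_univ_three, Fin.sum_univ_two] <;> ring

theorem n1A : N1 (gA κ) qz2 := by
  intro U hs h0 h1 hq
  simp only [tTNA] at h1
  have e0 : U 1 1 0 + U 2 0 0 = 0 := h1 0 0
  have e1 : U 1 1 1 + U 2 0 1 = 0 := h1 0 1
  have e2 : U 0 0 0 + U 2 1 0 = 0 := h1 1 0
  have e3 : U 0 0 1 + U 2 1 1 = 0 := h1 1 1
  have e4 : U 0 0 0 = 0 := h0 0 0
  have e5 : U 0 0 1 = U 0 1 0 := hs 0 0 1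
  have e6 : U 0 1 1 = 0 := h0 0 1
  have e7 : U 1 0 0 = 0 := h0 1 0
  have e8 : U 1 0 1 = U 1 1 0 := hs 1 0 1
  have e9 : U 1 1 1 = 0 := h0 1 1
  have e10 : U 2 0 0 = 0 := h0 2 0
  have e12 : U 2 1 1 = 0 := h0 2 1
  have f_U_1_1_0 : U 1 1 0 = 0 := by
    linear_combination e0 - e10
  have f_U_0_0_1 : U 0 0 1 = 0 := by
    linear_combination e3 - e12
  have f_U_2_0_1 : U 2 0 1 = 0 := by
    linear_combination e1 - e9
  have f_U_2_1_0 : U 2 1 0 = 0 := by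
    linear_combination e2 - e4
  have f_U_0_1_0 : U 0 1 0 = 0 := by
    linear_combination -e5 + f_U_0_0_1
  have f_U_1_0_0 : U 1 0 0 = 0 := by
    linear_combination e7
  have f_U_2_1_1 : U 2 1 1 = 0 := by
    linear_combination e12
  have f_U_0_0_0 : U 0 0 0 = 0 := by
    linear_combination e4
  have f_U_2_0_0 : U 2 0 0 = 0 := by
    linear_combination e10
  have f_U_0_1_1 : U 0 1 1 = 0 := by
    linear_combination e6
  have f_U_1_0_1 : U 1 0 1 = 0 := by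
    linear_combination e8 + f_U_1_1_0
  have f_U_1_1_1 : U 1 1 1 = 0 := by
    linear_combination e9
  funext i0 i1 i2
  fin_cases i0 <;> fin_cases i1 <;> fin_cases i2
  all_goals first
    | exact f_U_0_0_0
    | exact f_U_0_0_1
    | exact f_U_0_1_0
    | exact f_U_0_1_1
    | exact f_U_1_0_0
    | exact f_U_1_0_1
    | exact f_U_1_1_0
    | exact f_U_1_1_1
    | exact f_U_2_0_0
    | exact f_U_2_0_1
    | exact f_U_2_1_0
    | exact f_U_2_1_1

/-- table -/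
def TNB (U : Fin 3 → Fin 2 → Fin 2 → κ) : Fin 2 → Fin 2 → κ :=
  ![![U 0 1 0 + U 2 0 0, U 0 1 1 + U 2 0 1],
    ![U 0 0 0 - U 1 1 0, U 0 0 1 - U 1 1 1]]

theorem tTNB (U : Fin 3 → Fin 2 → Fin 2 → κ) (d : Fin 2) (c : Fin 2) :
    ∑ a, ∑ b, gB κ d a b * U a b c =
      TNB U d c := by
  fin_cases d <;> fin_cases c <;>
    simp [TNB, gB, Fin.sum_univ_three, Fin.sum_univ_two] <;> ring

theorem n1B : N1 (gB κ) qz2 := by
  intro U hs h0 h1 hq
  simp only [tTNB] at h1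
  have e0 : U 0 1 0 + U 2 0 0 = 0 := h1 0 0
  have e1 : U 0 1 1 + U 2 0 1 = 0 := h1 0 1
  have e2 : U 0 0 0 - U 1 1 0 = 0 := h1 1 0
  have e3 : U 0 0 1 - U 1 1 1 = 0 := h1 1 1
  have e4 : U 0 0 0 = 0 := h0 0 0
  have e6 : U 0 1 1 = 0 := h0 0 1
  have e7 : U 1 0 0 = 0 := h0 1 0
  have e8 : U 1 0 1 = U 1 1 0 := hs 1 0 1
  have e9 : U 1 1 1 = 0 := h0 1 1
  have e10 : U 2 0 0 = 0 := h0 2 0
  have e11 : U 2 0 1 = U 2 1 0 := hs 2 0 1
  have e12 : U 2 1 1 = 0 := h0 2 1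
  have f_U_0_1_0 : U 0 1 0 = 0 := by
    linear_combination e0 - e10
  have f_U_0_0_1 : U 0 0 1 = 0 := by
    linear_combination e3 + e9
  have f_U_1_1_0 : U 1 1 0 = 0 := by
    linear_combination -e2 + e4
  have f_U_2_0_1 : U 2 0 1 = 0 := by
    linear_combination e1 - e6
  have f_U_1_0_0 : U 1 0 0 = 0 := by
    linear_combination e7
  have f_U_0_1_1 : U 0 1 1 = 0 := by
    linear_combination e6
  have f_U_2_0_0 : U 2 0 0 = 0 := by
    linear_combination e10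
  have f_U_0_0_0 : U 0 0 0 = 0 := by
    linear_combination e4
  have f_U_2_1_1 : U 2 1 1 = 0 := by
    linear_combination e12
  have f_U_2_1_0 : U 2 1 0 = 0 := by
    linear_combination -e11 + f_U_2_0_1
  have f_U_1_0_1 : U 1 0 1 = 0 := by
    linear_combination e8 + f_U_1_1_0
  have f_U_1_1_1 : U 1 1 1 = 0 := by
    linear_combination e9
  funext i0 i1 i2
  fin_cases i0 <;> fin_cases i1 <;> fin_cases i2
  all_goals first
    | exact f_U_0_0_0
    | exact f_U_0_0_1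
    | exact f_U_0_1_0
    | exact f_U_0_1_1
    | exact f_U_1_0_0
    | exact f_U_1_0_1
    | exact f_U_1_1_0
    | exact f_U_1_1_1
    | exact f_U_2_0_0
    | exact f_U_2_0_1
    | exact f_U_2_1_0
    | exact f_U_2_1_1

/-- table -/
def TNL (U : Fin 3 → Fin 2 → Fin 2 → κ) : Fin 2 → Fin 2 → κ :=
  ![![U 1 0 0 - U 1 1 0 + U 2 0 0, U 1 0 1 - U 1 1 1 + U 2 0 1],
    ![U 0 1 0 - U 1 0 0 + U 1 1 0, U 0 1 1 - U 1 0 1 + U 1 1 1]]

theorem tTNL (U : Fin 3 → Fin 2 → Fin 2 → κ) (d : Fin 2) (c : Fin 2) :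
    ∑ a, ∑ b, gL κ d a b * U a b c =
      TNL U d c := by
  fin_cases d <;> fin_cases c <;>
    simp [TNL, gL, Fin.sum_univ_three, Fin.sum_univ_two] <;> ring

theorem n1L : N1 (gL κ) qz2 := by
  intro U hs h0 h1 hq
  simp only [tTNL] at h1
  have e0 : U 1 0 0 - U 1 1 0 + U 2 0 0 = 0 := h1 0 0
  have e1 : U 1 0 1 - U 1 1 1 + U 2 0 1 = 0 := h1 0 1
  have e2 : U 0 1 0 - U 1 0 0 + U 1 1 0 = 0 := h1 1 0
  have e3 : U 0 1 1 - U 1 0 1 + U 1 1 1 = 0 := h1 1 1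
  have e4 : U 0 0 0 = 0 := h0 0 0
  have e5 : U 0 0 1 = U 0 1 0 := hs 0 0 1
  have e6 : U 0 1 1 = 0 := h0 0 1
  have e7 : U 1 0 0 = 0 := h0 1 0
  have e9 : U 1 1 1 = 0 := h0 1 1
  have e10 : U 2 0 0 = 0 := h0 2 0
  have e11 : U 2 0 1 = U 2 1 0 := hs 2 0 1
  have e12 : U 2 1 1 = 0 := h0 2 1
  have f_U_1_1_0 : U 1 1 0 = 0 := by
    linear_combination -e0 + e7 + e10
  have f_U_1_0_1 : U 1 0 1 = 0 := by
    linear_combination -e3 + e6 + e9
  have f_U_1_1_1 : U 1 1 1 = 0 := by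
    linear_combination e9
  have f_U_1_0_0 : U 1 0 0 = 0 := by
    linear_combination e7
  have f_U_0_1_0 : U 0 1 0 = 0 := by
    linear_combination e2 + f_U_1_0_0 - f_U_1_1_0
  have f_U_2_0_0 : U 2 0 0 = 0 := by
    linear_combination e10
  have f_U_2_0_1 : U 2 0 1 = 0 := by
    linear_combination e1 - f_U_1_0_1 + f_U_1_1_1
  have f_U_0_0_1 : U 0 0 1 = 0 := by
    linear_combination e5 + f_U_0_1_0
  have f_U_2_1_1 : U 2 1 1 = 0 := by
    linear_combination e12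
  have f_U_2_1_0 : U 2 1 0 = 0 := by
    linear_combination -e11 + f_U_2_0_1
  have f_U_0_0_0 : U 0 0 0 = 0 := by
    linear_combination e4
  have f_U_0_1_1 : U 0 1 1 = 0 := by
    linear_combination e6
  funext i0 i1 i2
  fin_cases i0 <;> fin_cases i1 <;> fin_cases i2
  all_goals first
    | exact f_U_0_0_0
    | exact f_U_0_0_1
    | exact f_U_0_1_0
    | exact f_U_0_1_1
    | exact f_U_1_0_0
    | exact f_U_1_0_1
    | exact f_U_1_1_0
    | exact f_U_1_1_1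
    | exact f_U_2_0_0
    | exact f_U_2_0_1
    | exact f_U_2_1_0
    | exact f_U_2_1_1

/-- table -/
def TMA (U : Fin 2 → Fin 3 → Fin 3 → κ) : Fin 2 → Fin 3 → κ :=
  ![![U 0 2 0 + U 1 1 0, U 0 2 1 + U 1 1 1, U 0 2 2 + U 1 1 2],
    ![U 0 0 0 + U 1 2 0, U 0 0 1 + U 1 2 1, U 0 0 2 + U 1 2 2]]

theorem tTMA (U : Fin 2 → Fin 3 → Fin 3 → κ) (d : Fin 2) (c : Fin 3) :
    ∑ a, ∑ b, gA κ d a b * U b a c =
      TMA U d c := by
  fin_cases d <;> fin_cases c <;>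
    simp [TMA, gA, Fin.sum_univ_three, Fin.sum_univ_two] <;> ring

theorem n2A : N2 (gA κ) := by
  intro U hs h0 h1
  simp only [tTMA] at h1
  have e0 : U 0 2 0 + U 1 1 0 = 0 := h1 0 0
  have e1 : U 0 2 1 + U 1 1 1 = 0 := h1 0 1
  have e2 : U 0 2 2 + U 1 1 2 = 0 := h1 0 2
  have e3 : U 0 0 0 + U 1 2 0 = 0 := h1 1 0
  have e4 : U 0 0 1 + U 1 2 1 = 0 := h1 1 1
  have e5 : U 0 0 2 + U 1 2 2 = 0 := h1 1 2
  have e6 : U 0 0 0 = 0 := h0 0 0
  have e7 : U 0 0 1 = U 0 1 0 := hs 0 0 1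
  have e8 : U 0 0 2 = U 0 2 0 := hs 0 0 2
  have e9 : U 0 1 1 = 0 := h0 0 1
  have e10 : U 0 1 2 = U 0 2 1 := hs 0 1 2
  have e11 : U 0 2 2 = 0 := h0 0 2
  have e12 : U 1 0 0 = 0 := h0 1 0
  have e13 : U 1 0 1 = U 1 1 0 := hs 1 0 1
  have e14 : U 1 0 2 = U 1 2 0 := hs 1 0 2
  have e15 : U 1 1 1 = 0 := h0 1 1
  have e16 : U 1 1 2 = U 1 2 1 := hs 1 1 2
  have e17 : U 1 2 2 = 0 := h0 1 2
  have f_U_1_1_2 : U 1 1 2 = 0 := by
    linear_combination e2 - e11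
  have f_U_1_2_0 : U 1 2 0 = 0 := by
    linear_combination e3 - e6
  have f_U_0_0_2 : U 0 0 2 = 0 := by
    linear_combination e5 - e17
  have f_U_1_2_1 : U 1 2 1 = 0 := by
    linear_combination -e16 + f_U_1_1_2
  have f_U_0_0_1 : U 0 0 1 = 0 := by
    linear_combination e4 - f_U_1_2_1
  have f_U_0_2_0 : U 0 2 0 = 0 := by
    linear_combination -e8 + f_U_0_0_2
  have f_U_1_0_0 : U 1 0 0 = 0 := by
    linear_combination e12
  have f_U_0_2_2 : U 0 2 2 = 0 := by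
    linear_combination e11
  have f_U_1_2_2 : U 1 2 2 = 0 := by
    linear_combination e17
  have f_U_1_1_1 : U 1 1 1 = 0 := by
    linear_combination e15
  have f_U_0_2_1 : U 0 2 1 = 0 := by
    linear_combination e1 - f_U_1_1_1
  have f_U_1_1_0 : U 1 1 0 = 0 := by
    linear_combination e0 - f_U_0_2_0
  have f_U_0_1_2 : U 0 1 2 = 0 := by
    linear_combination e10 + f_U_0_2_1
  have f_U_1_0_1 : U 1 0 1 = 0 := by
    linear_combination e13 + f_U_1_1_0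
  have f_U_0_1_1 : U 0 1 1 = 0 := by
    linear_combination e9
  have f_U_0_1_0 : U 0 1 0 = 0 := by
    linear_combination -e7 + f_U_0_0_1
  have f_U_1_0_2 : U 1 0 2 = 0 := by
    linear_combination e14 + f_U_1_2_0
  have f_U_0_0_0 : U 0 0 0 = 0 := by
    linear_combination e6
  funext i0 i1 i2
  fin_cases i0 <;> fin_cases i1 <;> fin_cases i2
  all_goals first
    | exact f_U_0_0_0
    | exact f_U_0_0_1
    | exact f_U_0_0_2
    | exact f_U_0_1_0
    | exact f_U_0_1_1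
    | exact f_U_0_1_2
    | exact f_U_0_2_0
    | exact f_U_0_2_1
    | exact f_U_0_2_2
    | exact f_U_1_0_0
    | exact f_U_1_0_1
    | exact f_U_1_0_2
    | exact f_U_1_1_0
    | exact f_U_1_1_1
    | exact f_U_1_1_2
    | exact f_U_1_2_0
    | exact f_U_1_2_1
    | exact f_U_1_2_2

/-- table -/
def TMB (U : Fin 2 → Fin 3 → Fin 3 → κ) : Fin 2 → Fin 3 → κ :=
  ![![U 0 2 0 + U 1 0 0, U 0 2 1 + U 1 0 1, U 0 2 2 + U 1 0 2],
    ![U 0 0 0 - U 1 1 0, U 0 0 1 - U 1 1 1, U 0 0 2 - U 1 1 2]]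

theorem tTMB (U : Fin 2 → Fin 3 → Fin 3 → κ) (d : Fin 2) (c : Fin 3) :
    ∑ a, ∑ b, gB κ d a b * U b a c =
      TMB U d c := by
  fin_cases d <;> fin_cases c <;>
    simp [TMB, gB, Fin.sum_univ_three, Fin.sum_univ_two] <;> ring

theorem n2B : N2 (gB κ) := by
  intro U hs h0 h1
  simp only [tTMB] at h1
  have e0 : U 0 2 0 + U 1 0 0 = 0 := h1 0 0
  have e1 : U 0 2 1 + U 1 0 1 = 0 := h1 0 1
  have e2 : U 0 2 2 + U 1 0 2 = 0 := h1 0 2
  have e3 : U 0 0 0 - U 1 1 0 = 0 := h1 1 0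
  have e4 : U 0 0 1 - U 1 1 1 = 0 := h1 1 1
  have e5 : U 0 0 2 - U 1 1 2 = 0 := h1 1 2
  have e6 : U 0 0 0 = 0 := h0 0 0
  have e7 : U 0 0 1 = U 0 1 0 := hs 0 0 1
  have e8 : U 0 0 2 = U 0 2 0 := hs 0 0 2
  have e9 : U 0 1 1 = 0 := h0 0 1
  have e10 : U 0 1 2 = U 0 2 1 := hs 0 1 2
  have e11 : U 0 2 2 = 0 := h0 0 2
  have e12 : U 1 0 0 = 0 := h0 1 0
  have e13 : U 1 0 1 = U 1 1 0 := hs 1 0 1
  have e14 : U 1 0 2 = U 1 2 0 := hs 1 0 2
  have e15 : U 1 1 1 = 0 := h0 1 1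
  have e16 : U 1 1 2 = U 1 2 1 := hs 1 1 2
  have e17 : U 1 2 2 = 0 := h0 1 2
  have f_U_0_0_1 : U 0 0 1 = 0 := by
    linear_combination e4 + e15
  have f_U_0_2_0 : U 0 2 0 = 0 := by
    linear_combination e0 - e12
  have f_U_1_1_0 : U 1 1 0 = 0 := by
    linear_combination -e3 + e6
  have f_U_1_0_2 : U 1 0 2 = 0 := by
    linear_combination e2 - e11
  have f_U_1_0_1 : U 1 0 1 = 0 := by
    linear_combination e13 + f_U_1_1_0
  have f_U_0_1_0 : U 0 1 0 = 0 := by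
    linear_combination -e7 + f_U_0_0_1
  have f_U_1_1_1 : U 1 1 1 = 0 := by
    linear_combination e15
  have f_U_0_0_2 : U 0 0 2 = 0 := by
    linear_combination e8 + f_U_0_2_0
  have f_U_0_2_1 : U 0 2 1 = 0 := by
    linear_combination e1 - f_U_1_0_1
  have f_U_1_1_2 : U 1 1 2 = 0 := by
    linear_combination -e5 + f_U_0_0_2
  have f_U_0_0_0 : U 0 0 0 = 0 := by
    linear_combination e6
  have f_U_0_2_2 : U 0 2 2 = 0 := by
    linear_combination e11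
  have f_U_1_2_2 : U 1 2 2 = 0 := by
    linear_combination e17
  have f_U_0_1_2 : U 0 1 2 = 0 := by
    linear_combination e10 + f_U_0_2_1
  have f_U_1_0_0 : U 1 0 0 = 0 := by
    linear_combination e12
  have f_U_0_1_1 : U 0 1 1 = 0 := by
    linear_combination e9
  have f_U_1_2_1 : U 1 2 1 = 0 := by
    linear_combination -e16 + f_U_1_1_2
  have f_U_1_2_0 : U 1 2 0 = 0 := by
    linear_combination -e14 + f_U_1_0_2
  funext i0 i1 i2
  fin_cases i0 <;> fin_cases i1 <;> fin_cases i2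
  all_goals first
    | exact f_U_0_0_0
    | exact f_U_0_0_1
    | exact f_U_0_0_2
    | exact f_U_0_1_0
    | exact f_U_0_1_1
    | exact f_U_0_1_2
    | exact f_U_0_2_0
    | exact f_U_0_2_1
    | exact f_U_0_2_2
    | exact f_U_1_0_0
    | exact f_U_1_0_1
    | exact f_U_1_0_2
    | exact f_U_1_1_0
    | exact f_U_1_1_1
    | exact f_U_1_1_2
    | exact f_U_1_2_0
    | exact f_U_1_2_1
    | exact f_U_1_2_2

/-- table -/
def TML (U : Fin 2 → Fin 3 → Fin 3 → κ) : Fin 2 → Fin 3 → κ :=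
  ![![U 0 1 0 + U 0 2 0 - U 1 1 0, U 0 1 1 + U 0 2 1 - U 1 1 1, U 0 1 2 + U 0 2 2 - U 1 1 2],
    ![-U 0 1 0 + U 1 0 0 + U 1 1 0, -U 0 1 1 + U 1 0 1 + U 1 1 1, -U 0 1 2 + U 1 0 2 + U 1 1 2]]

theorem tTML (U : Fin 2 → Fin 3 → Fin 3 → κ) (d : Fin 2) (c : Fin 3) :
    ∑ a, ∑ b, gL κ d a b * U b a c =
      TML U d c := by
  fin_cases d <;> fin_cases c <;>
    simp [TML, gL, Fin.sum_univ_three, Fin.sum_univ_two] <;> ring

theorem n2L : N2 (gL κ) := by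
  intro U hs h0 h1
  simp only [tTML] at h1
  have e0 : U 0 1 0 + U 0 2 0 - U 1 1 0 = 0 := h1 0 0
  have e1 : U 0 1 1 + U 0 2 1 - U 1 1 1 = 0 := h1 0 1
  have e2 : U 0 1 2 + U 0 2 2 - U 1 1 2 = 0 := h1 0 2
  have e3 : -U 0 1 0 + U 1 0 0 + U 1 1 0 = 0 := h1 1 0
  have e4 : -U 0 1 1 + U 1 0 1 + U 1 1 1 = 0 := h1 1 1
  have e5 : -U 0 1 2 + U 1 0 2 + U 1 1 2 = 0 := h1 1 2
  have e6 : U 0 0 0 = 0 := h0 0 0
  have e7 : U 0 0 1 = U 0 1 0 := hs 0 0 1
  have e8 : U 0 0 2 = U 0 2 0 := hs 0 0 2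
  have e9 : U 0 1 1 = 0 := h0 0 1
  have e10 : U 0 1 2 = U 0 2 1 := hs 0 1 2
  have e11 : U 0 2 2 = 0 := h0 0 2
  have e12 : U 1 0 0 = 0 := h0 1 0
  have e13 : U 1 0 1 = U 1 1 0 := hs 1 0 1
  have e14 : U 1 0 2 = U 1 2 0 := hs 1 0 2
  have e15 : U 1 1 1 = 0 := h0 1 1
  have e16 : U 1 1 2 = U 1 2 1 := hs 1 1 2
  have e17 : U 1 2 2 = 0 := h0 1 2
  have f_U_0_2_1 : U 0 2 1 = 0 := by
    linear_combination e1 - e9 + e15
  have f_U_1_0_1 : U 1 0 1 = 0 := by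
    linear_combination e4 + e9 - e15
  have f_U_0_1_2 : U 0 1 2 = 0 := by
    linear_combination e10 + f_U_0_2_1
  have f_U_1_1_2 : U 1 1 2 = 0 := by
    linear_combination -e2 + e11 + f_U_0_1_2
  have f_U_1_1_0 : U 1 1 0 = 0 := by
    linear_combination -e13 + f_U_1_0_1
  have f_U_0_1_0 : U 0 1 0 = 0 := by
    linear_combination -e3 + e12 + f_U_1_1_0
  have f_U_1_0_2 : U 1 0 2 = 0 := by
    linear_combination e5 + f_U_0_1_2 - f_U_1_1_2
  have f_U_0_0_1 : U 0 0 1 = 0 := by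
    linear_combination e7 + f_U_0_1_0
  have f_U_1_2_0 : U 1 2 0 = 0 := by
    linear_combination -e14 + f_U_1_0_2
  have f_U_0_2_0 : U 0 2 0 = 0 := by
    linear_combination e0 - f_U_0_1_0 + f_U_1_1_0
  have f_U_0_1_1 : U 0 1 1 = 0 := by
    linear_combination e9
  have f_U_1_1_1 : U 1 1 1 = 0 := by
    linear_combination e15
  have f_U_1_0_0 : U 1 0 0 = 0 := by
    linear_combination e12
  have f_U_0_0_0 : U 0 0 0 = 0 := by
    linear_combination e6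
  have f_U_0_0_2 : U 0 0 2 = 0 := by
    linear_combination e8 + f_U_0_2_0
  have f_U_0_2_2 : U 0 2 2 = 0 := by
    linear_combination e11
  have f_U_1_2_1 : U 1 2 1 = 0 := by
    linear_combination -e16 + f_U_1_1_2
  have f_U_1_2_2 : U 1 2 2 = 0 := by
    linear_combination e17
  funext i0 i1 i2
  fin_cases i0 <;> fin_cases i1 <;> fin_cases i2
  all_goals first
    | exact f_U_0_0_0
    | exact f_U_0_0_1
    | exact f_U_0_0_2
    | exact f_U_0_1_0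
    | exact f_U_0_1_1
    | exact f_U_0_1_2
    | exact f_U_0_2_0
    | exact f_U_0_2_1
    | exact f_U_0_2_2
    | exact f_U_1_0_0
    | exact f_U_1_0_1
    | exact f_U_1_0_2
    | exact f_U_1_1_0
    | exact f_U_1_1_1
    | exact f_U_1_1_2
    | exact f_U_1_2_0
    | exact f_U_1_2_1
    | exact f_U_1_2_2

theorem n3 : N3 κ qz2 := by
  intro U h1 h2 h0 hq
  have e0 : U 0 0 0 = 0 := h0 0 0
  have e1 : U 0 0 1 = U 0 1 0 := h2 0 0 1
  have e2 : U 0 1 1 = 0 := h0 0 1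
  have e3 : U 0 1 0 = U 1 0 0 := h1 0 1 0
  have e4 : U 0 1 1 = U 1 0 1 := h1 0 1 1
  have e5 : U 1 0 0 = 0 := h0 1 0
  have e6 : U 1 0 1 = U 1 1 0 := h2 1 0 1
  have e7 : U 1 1 1 = 0 := h0 1 1
  have f_U_0_1_0 : U 0 1 0 = 0 := by
    linear_combination e3 + e5
  have f_U_1_0_1 : U 1 0 1 = 0 := by
    linear_combination e2 - e4
  have f_U_0_0_1 : U 0 0 1 = 0 := by
    linear_combination e1 + f_U_0_1_0
  have f_U_1_1_0 : U 1 1 0 = 0 := by
    linear_combination -e6 + f_U_1_0_1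
  have f_U_1_0_0 : U 1 0 0 = 0 := by
    linear_combination e5
  have f_U_1_1_1 : U 1 1 1 = 0 := by
    linear_combination e7
  have f_U_0_0_0 : U 0 0 0 = 0 := by
    linear_combination e0
  have f_U_0_1_1 : U 0 1 1 = 0 := by
    linear_combination e2
  funext i0 i1 i2
  fin_cases i0 <;> fin_cases i1 <;> fin_cases i2
  all_goals first
    | exact f_U_0_0_0
    | exact f_U_0_0_1
    | exact f_U_0_1_0
    | exact f_U_0_1_1
    | exact f_U_1_0_0
    | exact f_U_1_0_1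
    | exact f_U_1_1_0
    | exact f_U_1_1_1

/-- table -/
def T4a (U : Fin 3 → Fin 3 → Fin 2 → κ) : Fin 3 → Fin 2 → κ :=
  ![![U 0 1 0 + U 0 2 0 - 2 * U 1 1 0 - U 1 2 0 + U 2 1 0, U 0 1 1 + U 0 2 1 - 2 * U 1 1 1 - U
      1 2 1 + U 2 1 1],
    ![-U 0 1 0 + U 1 0 0 + 2 * U 1 1 0 - U 2 0 0 - U 2 1 0, -U 0 1 1 + U 1 0 1 + 2 * U 1 1 1 - U
      2 0 1 - U 2 1 1],
    ![U 0 2 0 + U 1 0 0 + U 2 1 0, U 0 2 1 + U 1 0 1 + U 2 1 1]]

theorem tT4a (U : Fin 3 → Fin 3 → Fin 2 → κ) (c : Fin 3) (b : Fin 2) :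
    ∑ a, ∑ a', wlo κ c a a' * U a a' b =
      T4a U c b := by
  fin_cases c <;> fin_cases b <;>
    simp [T4a, wlo, Fin.sum_univ_three] <;> ring

/-- table -/
def T4b (U : Fin 3 → Fin 3 → Fin 2 → κ) : Fin 2 → Fin 3 → κ :=
  ![![U 1 0 1 + U 2 0 0, U 1 1 1 + U 2 1 0, U 1 2 1 + U 2 2 0],
    ![U 0 0 0 + U 2 0 1, U 0 1 0 + U 2 1 1, U 0 2 0 + U 2 2 1]]

theorem tT4b (U : Fin 3 → Fin 3 → Fin 2 → κ) (d : Fin 2) (c : Fin 3) :
    ∑ a, ∑ b, gA κ d a b * U a c b =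
      T4b U d c := by
  fin_cases d <;> fin_cases c <;>
    simp [T4b, gA, Fin.sum_univ_three, Fin.sum_univ_two] <;> ring

/-- table -/
def T4c (U : Fin 3 → Fin 3 → Fin 2 → κ) : Fin 2 → Fin 3 → κ :=
  ![![U 0 0 1 + U 0 2 0, U 1 0 1 + U 1 2 0, U 2 0 1 + U 2 2 0],
    ![U 0 0 0 - U 0 1 1, U 1 0 0 - U 1 1 1, U 2 0 0 - U 2 1 1]]

theorem tT4c (U : Fin 3 → Fin 3 → Fin 2 → κ) (d : Fin 2) (a : Fin 3) :
    ∑ a', ∑ b, gB κ d a' b * U a a' b =
      T4c U d a := by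
  fin_cases d <;> fin_cases a <;>
    simp [T4c, gB, Fin.sum_univ_three, Fin.sum_univ_two] <;> ring

theorem n4 : N4 (wlo κ) (gA κ) (gB κ) := by
  intro U h1 h2 h3
  simp only [tT4a] at h1
  simp only [tT4b] at h2
  simp only [tT4c] at h3
  have e0 : U 0 1 0 + U 0 2 0 - 2 * U 1 1 0 - U 1 2 0 + U 2 1 0 = 0 := h1 0 0
  have e1 : U 0 1 1 + U 0 2 1 - 2 * U 1 1 1 - U 1 2 1 + U 2 1 1 = 0 := h1 0 1
  have e2 : -U 0 1 0 + U 1 0 0 + 2 * U 1 1 0 - U 2 0 0 - U 2 1 0 = 0 := h1 1 0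
  have e3 : -U 0 1 1 + U 1 0 1 + 2 * U 1 1 1 - U 2 0 1 - U 2 1 1 = 0 := h1 1 1
  have e4 : U 0 2 0 + U 1 0 0 + U 2 1 0 = 0 := h1 2 0
  have e5 : U 0 2 1 + U 1 0 1 + U 2 1 1 = 0 := h1 2 1
  have e6 : U 1 0 1 + U 2 0 0 = 0 := h2 0 0
  have e7 : U 0 0 1 + U 0 2 0 = 0 := h3 0 0
  have e8 : U 1 1 1 + U 2 1 0 = 0 := h2 0 1
  have e9 : U 1 0 1 + U 1 2 0 = 0 := h3 0 1
  have e10 : U 1 2 1 + U 2 2 0 = 0 := h2 0 2
  have e11 : U 2 0 1 + U 2 2 0 = 0 := h3 0 2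
  have e12 : U 0 0 0 + U 2 0 1 = 0 := h2 1 0
  have e13 : U 0 0 0 - U 0 1 1 = 0 := h3 1 0
  have e14 : U 0 1 0 + U 2 1 1 = 0 := h2 1 1
  have e15 : U 1 0 0 - U 1 1 1 = 0 := h3 1 1
  have e16 : U 0 2 0 + U 2 2 1 = 0 := h2 1 2
  have e17 : U 2 0 0 - U 2 1 1 = 0 := h3 1 2
  have f_U_1_1_1 : U 1 1 1 = 0 := by
    linear_combination -e0 - e2 + e3 + e4 - e8 - e9 + e12 - e13 - e17
  have f_U_2_1_1 : U 2 1 1 = 0 := by
    linear_combination -(1 / 2) * e3 + (1 / 2) * e6 - (1 / 2) * e12 + (1 / 2) * e13 - (1 / 2) *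
        e17 + f_U_1_1_1
  have f_U_1_1_0 : U 1 1 0 = 0 := by
    linear_combination (1 / 2) * e2 + (1 / 2) * e8 + (1 / 2) * e14 - (1 / 2) * e15 + (1 / 2) *
        e17 - f_U_1_1_1
  have f_U_2_1_0 : U 2 1 0 = 0 := by
    linear_combination e8 - f_U_1_1_1
  have f_U_0_2_0 : U 0 2 0 = 0 := by
    linear_combination e4 - e15 - f_U_2_1_0 - f_U_1_1_1
  have f_U_1_0_1 : U 1 0 1 = 0 := by
    linear_combination e6 - e17 - f_U_2_1_1
  have f_U_2_0_1 : U 2 0 1 = 0 := by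
    linear_combination -(1 / 2) * e1 + (1 / 2) * e5 - (1 / 2) * e10 + (1 / 2) * e11 + (1 / 2) *
        e12 - (1 / 2) * e13
      - f_U_1_1_1 - (1 / 2) * f_U_1_0_1
  have f_U_0_1_1 : U 0 1 1 = 0 := by
    linear_combination e12 - e13 - f_U_2_0_1
  have f_U_0_1_0 : U 0 1 0 = 0 := by
    linear_combination e14 - f_U_2_1_1
  have f_U_1_0_0 : U 1 0 0 = 0 := by
    linear_combination e15 + f_U_1_1_1
  have f_U_0_2_1 : U 0 2 1 = 0 := by
    linear_combination e5 - f_U_1_0_1 - f_U_2_1_1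
  have f_U_2_0_0 : U 2 0 0 = 0 := by
    linear_combination e17 + f_U_2_1_1
  have f_U_1_2_0 : U 1 2 0 = 0 := by
    linear_combination e9 - f_U_1_0_1
  have f_U_2_2_0 : U 2 2 0 = 0 := by
    linear_combination e11 - f_U_2_0_1
  have f_U_0_0_0 : U 0 0 0 = 0 := by
    linear_combination e13 + f_U_0_1_1
  have f_U_1_2_1 : U 1 2 1 = 0 := by
    linear_combination e10 - f_U_2_2_0
  have f_U_0_0_1 : U 0 0 1 = 0 := by
    linear_combination e7 - f_U_0_2_0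
  have f_U_2_2_1 : U 2 2 1 = 0 := by
    linear_combination e16 - f_U_0_2_0
  funext i0 i1 i2
  fin_cases i0 <;> fin_cases i1 <;> fin_cases i2
  all_goals first
    | exact f_U_0_0_0
    | exact f_U_0_0_1
    | exact f_U_0_1_0
    | exact f_U_0_1_1
    | exact f_U_0_2_0
    | exact f_U_0_2_1
    | exact f_U_1_0_0
    | exact f_U_1_0_1
    | exact f_U_1_1_0
    | exact f_U_1_1_1
    | exact f_U_1_2_0
    | exact f_U_1_2_1
    | exact f_U_2_0_0
    | exact f_U_2_0_1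
    | exact f_U_2_1_0
    | exact f_U_2_1_1
    | exact f_U_2_2_0
    | exact f_U_2_2_1

/-- table -/
def TS (y : Fin 2 → κ) : Fin 3 → Fin 3 → Fin 2 → κ :=
  ![![![y 0, y 1],
      ![0, 0],
      ![0, 0]],
    ![![0, 0],
      ![y 0, y 1],
      ![0, 0]],
    ![![0, 0],
      ![0, 0],
      ![y 0, y 1]]]

theorem tTS (y : Fin 2 → κ) (a : Fin 3) (c : Fin 3) (b : Fin 2) :
    (if c = a then y b else 0) =
      TS y a c b := by
  fin_cases a <;> fin_cases c <;> fin_cases b <;>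
    simp [TS] <;> ring

theorem rsz : RSZ (gA κ) := by
  intro y h
  simp only [tTS] at h
  obtain ⟨q0_0, q0_1, q0_2, q0_3⟩ := inspA (h 0)
  obtain ⟨q1_0, q1_1, q1_2, q1_3⟩ := inspA (h 1)
  obtain ⟨q2_0, q2_1, q2_2, q2_3⟩ := inspA (h 2)
  have e5 : (y 0) = 0 := q1_1
  have e6 : -(y 1) + (0) = 0 := q1_2
  have f_y_0 : y 0 = 0 := by
    linear_combination e5
  have f_y_1 : y 1 = 0 := by
    linear_combination -e6
  funext i0
  fin_cases i0
  all_goals first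
    | exact f_y_0
    | exact f_y_1

end

end F2

end Pool.Agent.VCU
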