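import Pool.Agent.VCU.F2C
import Pool.Agent.VCU.F2E

/-!
# The finite facts, s = 2
-/

set_option autoImplicit false

namespace Pool.Agent.VCU

open Pool.Agent.VCC Pool.Agent.VCT

universe u

open F2 in
theorem p_FIN2 : T_FIN2.{u} := by
  refine ⟨fA, fB, fL, fun κ _ _ => ⟨dA κ, dB κ, dL κ, kk κ, ?_⟩⟩
  have eA := castA (κ := κ)
  have eB := castB (κ := κ)
  have eL := castL (κ := κ)
  constructor
  · intro b; fin_cases b <;> rfl
  · exact fun τ => τ.elim0
  · exact fun τ => τ.elim0
  · exact fun ν _ => funext fun i => i.elim0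
  · exact fun ν _ => funext fun i => i.elim0
  · exact fun τ => τ.elim0
  · rw [eA]; exact okA
  · rw [eB]; exact okB
  · rw [eL]; exact okL
  · exact kok
  · rw [eL]; exact loc
  · rw [eA]; exact liA
  · rw [eB]; exact liB
  · rw [eL]; exact liL
  · rw [eA]; exact n1A
  · rw [eB]; exact n1B
  · rw [eL]; exact n1L
  · rw [eA]; exact n2A
  · rw [eB]; exact n2B
  · rw [eL]; exact n2L
  · exact n3
  · rw [eA, eB]; exact n4
  · rw [eA, eB]; exact coreL
  · rw [eA, eB]; exact coreZ
  · rw [eL]; exact outZ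
  · rw [eA, eB]; exact coreQ
  · rw [eA]; exact rsz

end Pool.Agent.VCU
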