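import Pool.Agent.VCU.F4D

/-!
# The other finite facts, s = 4
-/

set_option autoImplicit false

namespace Pool.Agent.VCU

open Pool.Agent.VCC Pool.Agent.VCT Pool.Agent.VCT.SP_

namespace F4

section

variable {κ : Type*} [Field κ] [CharZero κ]

theorem okA : BDOK (gA κ) hz4 qz4 (dA κ) where
  y := by
    intro u a b c hbc
    rw [dA_y, dA_y5]
    fin_cases u <;> fin_cases a <;> fin_cases b <;> fin_cases c
    all_goals first
      | exact absurd rfl hbc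
      | (clear hbc; simp [LY, uu, qs, gA, yA, hz4, Fin.sum_univ_four, y5A, qz4,
          Finset.univ_unique] <;> norm_num; done)
      | (clear hbc; simp [LY, uu, qs, gA, yA, hz4, Fin.sum_univ_four, y5A, qz4,
          Finset.univ_unique]; done)
      | (clear hbc; norm_num [LY, uu, qs, gA, yA, hz4, Fin.sum_univ_four, y5A, qz4,
          Finset.univ_unique]; done)
  r := by
    intro b e c
    rw [dA_r]
    fin_cases b <;> fin_cases e <;> fin_cases c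
    all_goals first
      | (simp [LR, gA, rA, Fin.sum_univ_four] <;> norm_num; done)
      | (simp [LR, gA, rA, Fin.sum_univ_four]; done)
  p := by
    intro a b c hbc
    rw [dA_p, dA_p5]
    fin_cases a <;> fin_cases b <;> fin_cases c
    all_goals first
      | exact absurd rfl hbc
      | (clear hbc; simp [LY, qs, gA, pA, hz4, Fin.sum_univ_four, p5A, qz4, Finset.univ_unique]
          <;> norm_num; done)
      | (clear hbc; simp [LY, qs, gA, pA, hz4, Fin.sum_univ_four, p5A, qz4, Finset.univ_unique];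
          done)

theorem okB : BDOK (gB κ) hz4 qz4 (dB κ) where
  y := by
    intro u a b c hbc
    rw [dB_y, dB_y5]
    fin_cases u <;> fin_cases a <;> fin_cases b <;> fin_cases c
    all_goals first
      | exact absurd rfl hbc
      | (clear hbc; simp [LY, uu, qs, gB, yB, hz4, Fin.sum_univ_four, y5B, qz4,
          Finset.univ_unique] <;> norm_num; done)
      | (clear hbc; simp [LY, uu, qs, gB, yB, hz4, Fin.sum_univ_four, y5B, qz4,
          Finset.univ_unique]; done)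
      | (clear hbc; norm_num [LY, uu, qs, gB, yB, hz4, Fin.sum_univ_four, y5B, qz4,
          Finset.univ_unique]; done)
  r := by
    intro b e c
    rw [dB_r]
    fin_cases b <;> fin_cases e <;> fin_cases c
    all_goals first
      | (simp [LR, gB, rB, Fin.sum_univ_four] <;> norm_num; done)
      | (simp [LR, gB, rB, Fin.sum_univ_four]; done)
  p := by
    intro a b c hbc
    rw [dB_p, dB_p5]
    fin_cases a <;> fin_cases b <;> fin_cases c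
    all_goals first
      | exact absurd rfl hbc
      | (clear hbc; simp [LY, qs, gB, pB, hz4, Fin.sum_univ_four, p5B, qz4, Finset.univ_unique]
          <;> norm_num; done)
      | (clear hbc; simp [LY, qs, gB, pB, hz4, Fin.sum_univ_four, p5B, qz4, Finset.univ_unique];
          done)

theorem okL : BDOK (gL κ) hz4 qz4 (dL κ) where
  y := by
    intro u a b c hbc
    rw [dL_y, dL_y5]
    fin_cases u <;> fin_cases a <;> fin_cases b <;> fin_cases c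
    all_goals first
      | exact absurd rfl hbc
      | (clear hbc; simp [LY, uu, qs, gL, yL, hz4, Fin.sum_univ_four, y5L, qz4,
          Finset.univ_unique] <;> norm_num; done)
      | (clear hbc; simp [LY, uu, qs, gL, yL, hz4, Fin.sum_univ_four, y5L, qz4,
          Finset.univ_unique]; done)
      | (clear hbc; norm_num [LY, uu, qs, gL, yL, hz4, Fin.sum_univ_four, y5L, qz4,
          Finset.univ_unique]; done)
  r := by
    intro b e c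
    rw [dL_r]
    fin_cases b <;> fin_cases e <;> fin_cases c
    all_goals first
      | (simp [LR, gL, rL, Fin.sum_univ_four] <;> norm_num; done)
      | (simp [LR, gL, rL, Fin.sum_univ_four]; done)
  p := by
    intro a b c hbc
    rw [dL_p, dL_p5]
    fin_cases a <;> fin_cases b <;> fin_cases c
    all_goals first
      | exact absurd rfl hbc
      | (clear hbc; simp [LY, qs, gL, pL, hz4, Fin.sum_univ_four, p5L, qz4, Finset.univ_unique]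
          <;> norm_num; done)
      | (clear hbc; simp [LY, qs, gL, pL, hz4, Fin.sum_univ_four, p5L, qz4, Finset.univ_unique];
          done)

theorem loc : LocZ (gL κ) (dL κ) := by
  intro b a c
  rw [dL_r, qrL]
  fin_cases b <;> fin_cases a <;> fin_cases c <;> simp [QRL]

theorem kok : KOK hz4 qz4 (kk κ) := by
  intro b c1 c2 c3 h1 h2 h3
  fin_cases b <;> fin_cases c1 <;> fin_cases c2 <;> fin_cases c3
  all_goals first
    | exact absurd rfl h1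
    | exact absurd rfl h2
    | exact absurd rfl h3
    | (clear h1 h2 h3; simp [kk, qs, hz4, qz4]; done)

/-- table -/
def TIA (y : Fin 4 → κ) : Fin 3 → Fin 4 → κ :=
  ![![-y 0 - y 1, y 3, 0, -y 3],
    ![-y 2, y 1 + y 3, y 2, 0],
    ![y 2, 0, y 1, y 0]]

theorem tTIA (y : Fin 4 → κ) (a : Fin 3) (b : Fin 4) :
    ∑ d, y d * gA κ d a b =
      TIA y a b := by
  fin_cases a <;> fin_cases b <;>
    simp [TIA, gA, Fin.sum_univ_four] <;> ring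

theorem liA : LIv (gA κ) := by
  intro y h
  simp only [tTIA] at h
  have e3 : -y 3 = 0 := h 0 3
  have e6 : y 2 = 0 := h 1 2
  have e10 : y 1 = 0 := h 2 2
  have e11 : y 0 = 0 := h 2 3
  have f_y_1 : y 1 = 0 := by
    linear_combination e10
  have f_y_0 : y 0 = 0 := by
    linear_combination e11
  have f_y_2 : y 2 = 0 := by
    linear_combination e6
  have f_y_3 : y 3 = 0 := by
    linear_combination -e3
  funext i0
  fin_cases i0
  all_goals first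
    | exact f_y_0
    | exact f_y_1
    | exact f_y_2
    | exact f_y_3

/-- table -/
def TIB (y : Fin 4 → κ) : Fin 3 → Fin 4 → κ :=
  ![![y 0, 0, -y 0, -y 3],
    ![y 2, y 1, 0, 0],
    ![y 0 - y 2, -y 3, y 1, -y 2]]

theorem tTIB (y : Fin 4 → κ) (a : Fin 3) (b : Fin 4) :
    ∑ d, y d * gB κ d a b =
      TIB y a b := by
  fin_cases a <;> fin_cases b <;>
    simp [TIB, gB, Fin.sum_univ_four] <;> ring

theorem liB : LIv (gB κ) := by
  intro y h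
  simp only [tTIB] at h
  have e2 : -y 0 = 0 := h 0 2
  have e4 : y 2 = 0 := h 1 0
  have e9 : -y 3 = 0 := h 2 1
  have e10 : y 1 = 0 := h 2 2
  have f_y_0 : y 0 = 0 := by
    linear_combination -e2
  have f_y_1 : y 1 = 0 := by
    linear_combination e10
  have f_y_3 : y 3 = 0 := by
    linear_combination -e9
  have f_y_2 : y 2 = 0 := by
    linear_combination e4
  funext i0
  fin_cases i0
  all_goals first
    | exact f_y_0
    | exact f_y_1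
    | exact f_y_2
    | exact f_y_3

/-- table -/
def TIL (y : Fin 4 → κ) : Fin 3 → Fin 4 → κ :=
  ![![-y 1 + y 3, -y 1, -y 1 + y 3, 0],
    ![y 0 - y 1 - y 2 + y 3, y 0 - y 1, -y 2 + y 3, y 2 - y 3],
    ![0, 0, -y 0, y 2]]

theorem tTIL (y : Fin 4 → κ) (a : Fin 3) (b : Fin 4) :
    ∑ d, y d * gL κ d a b =
      TIL y a b := by
  fin_cases a <;> fin_cases b <;>
    simp [TIL, gL, Fin.sum_univ_four] <;> ring

theorem liL : LIv (gL κ) := by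
  intro y h
  simp only [tTIL] at h
  have e1 : -y 1 = 0 := h 0 1
  have e6 : -y 2 + y 3 = 0 := h 1 2
  have e10 : -y 0 = 0 := h 2 2
  have e11 : y 2 = 0 := h 2 3
  have f_y_3 : y 3 = 0 := by
    linear_combination e6 + e11
  have f_y_1 : y 1 = 0 := by
    linear_combination -e1
  have f_y_2 : y 2 = 0 := by
    linear_combination e11
  have f_y_0 : y 0 = 0 := by
    linear_combination -e10
  funext i0
  fin_cases i0
  all_goals first
    | exact f_y_0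
    | exact f_y_1
    | exact f_y_2
    | exact f_y_3

/-- table -/
def TNA (U : Fin 3 → Fin 4 → Fin 4 → κ) : Fin 4 → Fin 4 → κ :=
  ![![-U 0 0 0 + U 2 3 0, -U 0 0 1 + U 2 3 1, -U 0 0 2 + U 2 3 2, -U 0 0 3 + U 2 3 3],
    ![-U 0 0 0 + U 1 1 0 + U 2 2 0, -U 0 0 1 + U 1 1 1 + U 2 2 1, -U 0 0 2 + U 1 1 2 + U 2 2 2,
      -U 0 0 3 + U 1 1 3 + U 2 2 3],
    ![-U 1 0 0 + U 1 2 0 + U 2 0 0, -U 1 0 1 + U 1 2 1 + U 2 0 1, -U 1 0 2 + U 1 2 2 + U 2 0 2,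
      -U 1 0 3 + U 1 2 3 + U 2 0 3],
    ![U 0 1 0 - U 0 3 0 + U 1 1 0, U 0 1 1 - U 0 3 1 + U 1 1 1, U 0 1 2 - U 0 3 2 + U 1 1 2, U 0
      1 3 - U 0 3 3 + U 1 1 3]]

theorem tTNA (U : Fin 3 → Fin 4 → Fin 4 → κ) (d : Fin 4) (c : Fin 4) :
    ∑ a, ∑ b, gA κ d a b * U a b c =
      TNA U d c := by
  fin_cases d <;> fin_cases c <;>
    simp [TNA, gA, Fin.sum_univ_three, Fin.sum_univ_four] <;> ring

/-- table -/
def TNq (U : Fin 3 → Fin 4 → Fin 4 → κ) : Fin 1 → Fin 3 → κ :=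
  ![![U 0 0 1 + U 0 2 3, U 1 0 1 + U 1 2 3, U 2 0 1 + U 2 2 3]]

theorem tTNq (U : Fin 3 → Fin 4 → Fin 4 → κ) (x : Fin 1) (a : Fin 3) :
    ∑ b, ∑ c, (qz4 x b c : κ) * U a b c =
      TNq U x a := by
  fin_cases x <;> fin_cases a <;>
    simp [TNq, qz4, Fin.sum_univ_three, Fin.sum_univ_four] <;> ring

theorem n1A : N1 (gA κ) qz4 := by
  intro U hs h0 h1 hq
  simp only [tTNA] at h1
  simp only [tTNq] at hq
  have e0 : -U 0 0 0 + U 2 3 0 = 0 := h1 0 0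
  have e1 : -U 0 0 1 + U 2 3 1 = 0 := h1 0 1
  have e2 : -U 0 0 2 + U 2 3 2 = 0 := h1 0 2
  have e3 : -U 0 0 3 + U 2 3 3 = 0 := h1 0 3
  have e4 : -U 0 0 0 + U 1 1 0 + U 2 2 0 = 0 := h1 1 0
  have e5 : -U 0 0 1 + U 1 1 1 + U 2 2 1 = 0 := h1 1 1
  have e6 : -U 0 0 2 + U 1 1 2 + U 2 2 2 = 0 := h1 1 2
  have e7 : -U 0 0 3 + U 1 1 3 + U 2 2 3 = 0 := h1 1 3
  have e8 : -U 1 0 0 + U 1 2 0 + U 2 0 0 = 0 := h1 2 0
  have e10 : -U 1 0 2 + U 1 2 2 + U 2 0 2 = 0 := h1 2 2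
  have e11 : -U 1 0 3 + U 1 2 3 + U 2 0 3 = 0 := h1 2 3
  have e12 : U 0 1 0 - U 0 3 0 + U 1 1 0 = 0 := h1 3 0
  have e13 : U 0 1 1 - U 0 3 1 + U 1 1 1 = 0 := h1 3 1
  have e14 : U 0 1 2 - U 0 3 2 + U 1 1 2 = 0 := h1 3 2
  have e15 : U 0 1 3 - U 0 3 3 + U 1 1 3 = 0 := h1 3 3
  have e16 : U 0 0 0 = 0 := h0 0 0
  have e17 : U 0 0 1 = U 0 1 0 := hs 0 0 1
  have e18 : U 0 0 2 = U 0 2 0 := hs 0 0 2
  have e19 : U 0 0 3 = U 0 3 0 := hs 0 0 3
  have e20 : U 0 1 1 = 0 := h0 0 1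
  have e21 : U 0 1 2 = U 0 2 1 := hs 0 1 2
  have e22 : U 0 1 3 = U 0 3 1 := hs 0 1 3
  have e23 : U 0 2 2 = 0 := h0 0 2
  have e24 : U 0 2 3 = U 0 3 2 := hs 0 2 3
  have e25 : U 0 3 3 = 0 := h0 0 3
  have e26 : U 1 0 0 = 0 := h0 1 0
  have e27 : U 1 0 1 = U 1 1 0 := hs 1 0 1
  have e28 : U 1 0 2 = U 1 2 0 := hs 1 0 2
  have e29 : U 1 0 3 = U 1 3 0 := hs 1 0 3
  have e30 : U 1 1 1 = 0 := h0 1 1
  have e31 : U 1 1 2 = U 1 2 1 := hs 1 1 2
  have e32 : U 1 1 3 = U 1 3 1 := hs 1 1 3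
  have e33 : U 1 2 2 = 0 := h0 1 2
  have e34 : U 1 2 3 = U 1 3 2 := hs 1 2 3
  have e35 : U 1 3 3 = 0 := h0 1 3
  have e36 : U 2 0 0 = 0 := h0 2 0
  have e37 : U 2 0 1 = U 2 1 0 := hs 2 0 1
  have e38 : U 2 0 2 = U 2 2 0 := hs 2 0 2
  have e39 : U 2 0 3 = U 2 3 0 := hs 2 0 3
  have e40 : U 2 1 1 = 0 := h0 2 1
  have e41 : U 2 1 2 = U 2 2 1 := hs 2 1 2
  have e42 : U 2 1 3 = U 2 3 1 := hs 2 1 3
  have e43 : U 2 2 2 = 0 := h0 2 2
  have e44 : U 2 2 3 = U 2 3 2 := hs 2 2 3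
  have e45 : U 2 3 3 = 0 := h0 2 3
  have e46 : U 0 0 1 + U 0 2 3 = 0 := hq 0 0
  have e47 : U 1 0 1 + U 1 2 3 = 0 := hq 0 1
  have e48 : U 2 0 1 + U 2 2 3 = 0 := hq 0 2
  have f_U_2_2_3 : U 2 2 3 = 0 := by
    linear_combination -e3 + e7 - e13 - e15 + e20 + e22 - e25 + e30 + e45
  have f_U_1_2_1 : U 1 2 1 = 0 := by
    linear_combination -e2 + e6 - e31 - e43 - e44 + f_U_2_2_3
  have f_U_2_2_0 : U 2 2 0 = 0 := by
    linear_combination e8 + e10 + e26 + e28 - e33 - e36 - e38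
  have f_U_1_1_3 : U 1 1 3 = 0 := by
    linear_combination e13 + e15 - e20 - e22 + e25 - e30
  have f_U_0_0_2 : U 0 0 2 = 0 := by
    linear_combination -e2 - e44 + f_U_2_2_3
  have f_U_1_1_0 : U 1 1 0 = 0 := by
    linear_combination e4 + e16 - f_U_2_2_0
  have f_U_2_0_2 : U 2 0 2 = 0 := by
    linear_combination e38 + f_U_2_2_0
  have f_U_2_0_1 : U 2 0 1 = 0 := by
    linear_combination e48 - f_U_2_2_3
  have f_U_1_0_1 : U 1 0 1 = 0 := by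
    linear_combination e27 + f_U_1_1_0
  have f_U_1_1_2 : U 1 1 2 = 0 := by
    linear_combination e31 + f_U_1_2_1
  have f_U_2_3_2 : U 2 3 2 = 0 := by
    linear_combination e2 + f_U_0_0_2
  have f_U_0_1_3 : U 0 1 3 = 0 := by
    linear_combination -e13 + e20 + e22 + e30
  have f_U_1_0_2 : U 1 0 2 = 0 := by
    linear_combination e8 + e26 + e28 - e36
  have f_U_0_3_1 : U 0 3 1 = 0 := by
    linear_combination -e13 + e20 + e30
  have f_U_1_2_0 : U 1 2 0 = 0 := by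
    linear_combination e8 + e26 - e36
  have f_U_2_3_0 : U 2 3 0 = 0 := by
    linear_combination e0 + e16
  have f_U_0_0_3 : U 0 0 3 = 0 := by
    linear_combination -e3 + e45
  have f_U_0_3_0 : U 0 3 0 = 0 := by
    linear_combination -e19 + f_U_0_0_3
  have f_U_0_1_0 : U 0 1 0 = 0 := by
    linear_combination e12 + f_U_0_3_0 - f_U_1_1_0
  have f_U_0_0_1 : U 0 0 1 = 0 := by
    linear_combination e17 + f_U_0_1_0
  have f_U_0_2_3 : U 0 2 3 = 0 := by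
    linear_combination e46 - f_U_0_0_1
  have f_U_0_3_2 : U 0 3 2 = 0 := by
    linear_combination -e24 + f_U_0_2_3
  have f_U_2_3_1 : U 2 3 1 = 0 := by
    linear_combination e1 + f_U_0_0_1
  have f_U_2_1_3 : U 2 1 3 = 0 := by
    linear_combination e42 + f_U_2_3_1
  have f_U_2_0_3 : U 2 0 3 = 0 := by
    linear_combination e39 + f_U_2_3_0
  have f_U_1_0_0 : U 1 0 0 = 0 := by
    linear_combination e26
  have f_U_1_2_3 : U 1 2 3 = 0 := by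
    linear_combination e47 - f_U_1_0_1
  have f_U_1_1_1 : U 1 1 1 = 0 := by
    linear_combination e30
  have f_U_1_0_3 : U 1 0 3 = 0 := by
    linear_combination -e11 + f_U_1_2_3 + f_U_2_0_3
  have f_U_2_1_1 : U 2 1 1 = 0 := by
    linear_combination e40
  have f_U_2_1_0 : U 2 1 0 = 0 := by
    linear_combination -e37 + f_U_2_0_1
  have f_U_2_0_0 : U 2 0 0 = 0 := by
    linear_combination e36
  have f_U_2_2_1 : U 2 2 1 = 0 := by
    linear_combination e5 + f_U_0_0_1 - f_U_1_1_1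
  have f_U_2_1_2 : U 2 1 2 = 0 := by
    linear_combination e41 + f_U_2_2_1
  have f_U_1_3_0 : U 1 3 0 = 0 := by
    linear_combination -e29 + f_U_1_0_3
  have f_U_0_2_2 : U 0 2 2 = 0 := by
    linear_combination e23
  have f_U_2_3_3 : U 2 3 3 = 0 := by
    linear_combination e45
  have f_U_0_0_0 : U 0 0 0 = 0 := by
    linear_combination e16
  have f_U_0_3_3 : U 0 3 3 = 0 := by
    linear_combination e25
  have f_U_1_2_2 : U 1 2 2 = 0 := by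
    linear_combination e33
  have f_U_0_1_1 : U 0 1 1 = 0 := by
    linear_combination e20
  have f_U_2_2_2 : U 2 2 2 = 0 := by
    linear_combination e43
  have f_U_0_1_2 : U 0 1 2 = 0 := by
    linear_combination e14 + f_U_0_3_2 - f_U_1_1_2
  have f_U_0_2_0 : U 0 2 0 = 0 := by
    linear_combination -e18 + f_U_0_0_2
  have f_U_1_3_2 : U 1 3 2 = 0 := by
    linear_combination -e34 + f_U_1_2_3
  have f_U_0_2_1 : U 0 2 1 = 0 := by
    linear_combination -e21 + f_U_0_1_2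
  have f_U_1_3_1 : U 1 3 1 = 0 := by
    linear_combination -e32 + f_U_1_1_3
  have f_U_1_3_3 : U 1 3 3 = 0 := by
    linear_combination e35
  funext i0 i1 i2
  fin_cases i0 <;> fin_cases i1 <;> fin_cases i2
  all_goals first
    | exact f_U_0_0_0
    | exact f_U_0_0_1
    | exact f_U_0_0_2
    | exact f_U_0_0_3
    | exact f_U_0_1_0
    | exact f_U_0_1_1
    | exact f_U_0_1_2
    | exact f_U_0_1_3
    | exact f_U_0_2_0
    | exact f_U_0_2_1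
    | exact f_U_0_2_2
    | exact f_U_0_2_3
    | exact f_U_0_3_0
    | exact f_U_0_3_1
    | exact f_U_0_3_2
    | exact f_U_0_3_3
    | exact f_U_1_0_0
    | exact f_U_1_0_1
    | exact f_U_1_0_2
    | exact f_U_1_0_3
    | exact f_U_1_1_0
    | exact f_U_1_1_1
    | exact f_U_1_1_2
    | exact f_U_1_1_3
    | exact f_U_1_2_0
    | exact f_U_1_2_1
    | exact f_U_1_2_2
    | exact f_U_1_2_3
    | exact f_U_1_3_0
    | exact f_U_1_3_1
    | exact f_U_1_3_2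
    | exact f_U_1_3_3
    | exact f_U_2_0_0
    | exact f_U_2_0_1
    | exact f_U_2_0_2
    | exact f_U_2_0_3
    | exact f_U_2_1_0
    | exact f_U_2_1_1
    | exact f_U_2_1_2
    | exact f_U_2_1_3
    | exact f_U_2_2_0
    | exact f_U_2_2_1
    | exact f_U_2_2_2
    | exact f_U_2_2_3
    | exact f_U_2_3_0
    | exact f_U_2_3_1
    | exact f_U_2_3_2
    | exact f_U_2_3_3

/-- table -/
def TNB (U : Fin 3 → Fin 4 → Fin 4 → κ) : Fin 4 → Fin 4 → κ :=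
  ![![U 0 0 0 - U 0 2 0 + U 2 0 0, U 0 0 1 - U 0 2 1 + U 2 0 1, U 0 0 2 - U 0 2 2 + U 2 0 2, U
      0 0 3 - U 0 2 3 + U 2 0 3],
    ![U 1 1 0 + U 2 2 0, U 1 1 1 + U 2 2 1, U 1 1 2 + U 2 2 2, U 1 1 3 + U 2 2 3],
    ![U 1 0 0 - U 2 0 0 - U 2 3 0, U 1 0 1 - U 2 0 1 - U 2 3 1, U 1 0 2 - U 2 0 2 - U 2 3 2, U 1
      0 3 - U 2 0 3 - U 2 3 3],
    ![-U 0 3 0 - U 2 1 0, -U 0 3 1 - U 2 1 1, -U 0 3 2 - U 2 1 2, -U 0 3 3 - U 2 1 3]]

theorem tTNB (U : Fin 3 → Fin 4 → Fin 4 → κ) (d : Fin 4) (c : Fin 4) :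
    ∑ a, ∑ b, gB κ d a b * U a b c =
      TNB U d c := by
  fin_cases d <;> fin_cases c <;>
    simp [TNB, gB, Fin.sum_univ_three, Fin.sum_univ_four] <;> ring

theorem n1B : N1 (gB κ) qz4 := by
  intro U hs h0 h1 hq
  simp only [tTNB] at h1
  simp only [tTNq] at hq
  have e0 : U 0 0 0 - U 0 2 0 + U 2 0 0 = 0 := h1 0 0
  have e1 : U 0 0 1 - U 0 2 1 + U 2 0 1 = 0 := h1 0 1
  have e2 : U 0 0 2 - U 0 2 2 + U 2 0 2 = 0 := h1 0 2
  have e4 : U 1 1 0 + U 2 2 0 = 0 := h1 1 0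
  have e5 : U 1 1 1 + U 2 2 1 = 0 := h1 1 1
  have e6 : U 1 1 2 + U 2 2 2 = 0 := h1 1 2
  have e7 : U 1 1 3 + U 2 2 3 = 0 := h1 1 3
  have e8 : U 1 0 0 - U 2 0 0 - U 2 3 0 = 0 := h1 2 0
  have e9 : U 1 0 1 - U 2 0 1 - U 2 3 1 = 0 := h1 2 1
  have e10 : U 1 0 2 - U 2 0 2 - U 2 3 2 = 0 := h1 2 2
  have e11 : U 1 0 3 - U 2 0 3 - U 2 3 3 = 0 := h1 2 3
  have e12 : -U 0 3 0 - U 2 1 0 = 0 := h1 3 0
  have e13 : -U 0 3 1 - U 2 1 1 = 0 := h1 3 1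
  have e14 : -U 0 3 2 - U 2 1 2 = 0 := h1 3 2
  have e15 : -U 0 3 3 - U 2 1 3 = 0 := h1 3 3
  have e16 : U 0 0 0 = 0 := h0 0 0
  have e17 : U 0 0 1 = U 0 1 0 := hs 0 0 1
  have e18 : U 0 0 2 = U 0 2 0 := hs 0 0 2
  have e19 : U 0 0 3 = U 0 3 0 := hs 0 0 3
  have e20 : U 0 1 1 = 0 := h0 0 1
  have e21 : U 0 1 2 = U 0 2 1 := hs 0 1 2
  have e22 : U 0 1 3 = U 0 3 1 := hs 0 1 3
  have e23 : U 0 2 2 = 0 := h0 0 2
  have e24 : U 0 2 3 = U 0 3 2 := hs 0 2 3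
  have e25 : U 0 3 3 = 0 := h0 0 3
  have e26 : U 1 0 0 = 0 := h0 1 0
  have e27 : U 1 0 1 = U 1 1 0 := hs 1 0 1
  have e28 : U 1 0 2 = U 1 2 0 := hs 1 0 2
  have e29 : U 1 0 3 = U 1 3 0 := hs 1 0 3
  have e30 : U 1 1 1 = 0 := h0 1 1
  have e31 : U 1 1 2 = U 1 2 1 := hs 1 1 2
  have e32 : U 1 1 3 = U 1 3 1 := hs 1 1 3
  have e33 : U 1 2 2 = 0 := h0 1 2
  have e34 : U 1 2 3 = U 1 3 2 := hs 1 2 3
  have e35 : U 1 3 3 = 0 := h0 1 3
  have e36 : U 2 0 0 = 0 := h0 2 0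
  have e37 : U 2 0 1 = U 2 1 0 := hs 2 0 1
  have e38 : U 2 0 2 = U 2 2 0 := hs 2 0 2
  have e39 : U 2 0 3 = U 2 3 0 := hs 2 0 3
  have e40 : U 2 1 1 = 0 := h0 2 1
  have e41 : U 2 1 2 = U 2 2 1 := hs 2 1 2
  have e42 : U 2 1 3 = U 2 3 1 := hs 2 1 3
  have e43 : U 2 2 2 = 0 := h0 2 2
  have e44 : U 2 2 3 = U 2 3 2 := hs 2 2 3
  have e45 : U 2 3 3 = 0 := h0 2 3
  have e46 : U 0 0 1 + U 0 2 3 = 0 := hq 0 0
  have e47 : U 1 0 1 + U 1 2 3 = 0 := hq 0 1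
  have e48 : U 2 0 1 + U 2 2 3 = 0 := hq 0 2
  have f_U_1_0_1 : U 1 0 1 = 0 := by
    linear_combination -e0 - e2 + e4 + e16 + e18 - e23 + e27 + e36 + e38
  have f_U_2_0_1 : U 2 0 1 = 0 := by
    linear_combination -e9 + e15 + e25 + e42 + f_U_1_0_1
  have f_U_2_2_0 : U 2 2 0 = 0 := by
    linear_combination e4 + e27 - f_U_1_0_1
  have f_U_0_3_0 : U 0 3 0 = 0 := by
    linear_combination -e12 + e37 - f_U_2_0_1
  have f_U_0_2_3 : U 0 2 3 = 0 := by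
    linear_combination -e5 - e14 + e24 + e30 - e41
  have f_U_0_0_3 : U 0 0 3 = 0 := by
    linear_combination e19 + f_U_0_3_0
  have f_U_2_0_2 : U 2 0 2 = 0 := by
    linear_combination e38 + f_U_2_2_0
  have f_U_1_1_0 : U 1 1 0 = 0 := by
    linear_combination e4 - f_U_2_2_0
  have f_U_2_1_0 : U 2 1 0 = 0 := by
    linear_combination -e37 + f_U_2_0_1
  have f_U_2_0_3 : U 2 0 3 = 0 := by
    linear_combination -e8 + e26 - e36 + e39
  have f_U_0_0_2 : U 0 0 2 = 0 := by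
    linear_combination -e0 + e16 + e18 + e36
  have f_U_0_3_2 : U 0 3 2 = 0 := by
    linear_combination -e5 - e14 + e30 - e41
  have f_U_2_3_1 : U 2 3 1 = 0 := by
    linear_combination -e15 - e25 - e42
  have f_U_0_2_0 : U 0 2 0 = 0 := by
    linear_combination -e0 + e16 + e36
  have f_U_2_3_0 : U 2 3 0 = 0 := by
    linear_combination -e8 + e26 - e36
  have f_U_2_1_2 : U 2 1 2 = 0 := by
    linear_combination e5 - e30 + e41
  have f_U_0_3_1 : U 0 3 1 = 0 := by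
    linear_combination -e13 - e40
  have f_U_2_1_3 : U 2 1 3 = 0 := by
    linear_combination -e15 - e25
  have f_U_1_1_2 : U 1 1 2 = 0 := by
    linear_combination e6 - e43
  have f_U_2_2_1 : U 2 2 1 = 0 := by
    linear_combination e5 - e30
  have f_U_1_0_3 : U 1 0 3 = 0 := by
    linear_combination e11 + e45 + f_U_2_0_3
  have f_U_2_2_3 : U 2 2 3 = 0 := by
    linear_combination e48 - f_U_2_0_1
  have f_U_0_0_1 : U 0 0 1 = 0 := by
    linear_combination e46 - f_U_0_2_3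
  have f_U_1_1_3 : U 1 1 3 = 0 := by
    linear_combination e7 - f_U_2_2_3
  have f_U_1_0_0 : U 1 0 0 = 0 := by
    linear_combination e26
  have f_U_1_3_3 : U 1 3 3 = 0 := by
    linear_combination e35
  have f_U_0_2_1 : U 0 2 1 = 0 := by
    linear_combination -e1 + f_U_0_0_1 + f_U_2_0_1
  have f_U_1_2_3 : U 1 2 3 = 0 := by
    linear_combination e47 - f_U_1_0_1
  have f_U_1_3_1 : U 1 3 1 = 0 := by
    linear_combination -e32 + f_U_1_1_3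
  have f_U_0_1_3 : U 0 1 3 = 0 := by
    linear_combination e22 + f_U_0_3_1
  have f_U_2_3_2 : U 2 3 2 = 0 := by
    linear_combination -e44 + f_U_2_2_3
  have f_U_0_2_2 : U 0 2 2 = 0 := by
    linear_combination e23
  have f_U_0_1_2 : U 0 1 2 = 0 := by
    linear_combination e21 + f_U_0_2_1
  have f_U_0_0_0 : U 0 0 0 = 0 := by
    linear_combination e16
  have f_U_1_2_1 : U 1 2 1 = 0 := by
    linear_combination -e31 + f_U_1_1_2
  have f_U_1_0_2 : U 1 0 2 = 0 := by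
    linear_combination e10 + f_U_2_0_2 + f_U_2_3_2
  have f_U_1_2_0 : U 1 2 0 = 0 := by
    linear_combination -e28 + f_U_1_0_2
  have f_U_1_3_0 : U 1 3 0 = 0 := by
    linear_combination -e29 + f_U_1_0_3
  have f_U_0_1_0 : U 0 1 0 = 0 := by
    linear_combination -e17 + f_U_0_0_1
  have f_U_1_2_2 : U 1 2 2 = 0 := by
    linear_combination e33
  have f_U_0_1_1 : U 0 1 1 = 0 := by
    linear_combination e20
  have f_U_2_0_0 : U 2 0 0 = 0 := by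
    linear_combination e36
  have f_U_1_3_2 : U 1 3 2 = 0 := by
    linear_combination -e34 + f_U_1_2_3
  have f_U_1_1_1 : U 1 1 1 = 0 := by
    linear_combination e30
  have f_U_2_2_2 : U 2 2 2 = 0 := by
    linear_combination e43
  have f_U_2_1_1 : U 2 1 1 = 0 := by
    linear_combination e40
  have f_U_0_3_3 : U 0 3 3 = 0 := by
    linear_combination e25
  have f_U_2_3_3 : U 2 3 3 = 0 := by
    linear_combination e45
  funext i0 i1 i2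
  fin_cases i0 <;> fin_cases i1 <;> fin_cases i2
  all_goals first
    | exact f_U_0_0_0
    | exact f_U_0_0_1
    | exact f_U_0_0_2
    | exact f_U_0_0_3
    | exact f_U_0_1_0
    | exact f_U_0_1_1
    | exact f_U_0_1_2
    | exact f_U_0_1_3
    | exact f_U_0_2_0
    | exact f_U_0_2_1
    | exact f_U_0_2_2
    | exact f_U_0_2_3
    | exact f_U_0_3_0
    | exact f_U_0_3_1
    | exact f_U_0_3_2
    | exact f_U_0_3_3
    | exact f_U_1_0_0
    | exact f_U_1_0_1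
    | exact f_U_1_0_2
    | exact f_U_1_0_3
    | exact f_U_1_1_0
    | exact f_U_1_1_1
    | exact f_U_1_1_2
    | exact f_U_1_1_3
    | exact f_U_1_2_0
    | exact f_U_1_2_1
    | exact f_U_1_2_2
    | exact f_U_1_2_3
    | exact f_U_1_3_0
    | exact f_U_1_3_1
    | exact f_U_1_3_2
    | exact f_U_1_3_3
    | exact f_U_2_0_0
    | exact f_U_2_0_1
    | exact f_U_2_0_2
    | exact f_U_2_0_3
    | exact f_U_2_1_0
    | exact f_U_2_1_1
    | exact f_U_2_1_2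
    | exact f_U_2_1_3
    | exact f_U_2_2_0
    | exact f_U_2_2_1
    | exact f_U_2_2_2
    | exact f_U_2_2_3
    | exact f_U_2_3_0
    | exact f_U_2_3_1
    | exact f_U_2_3_2
    | exact f_U_2_3_3

/-- table -/
def TNL (U : Fin 3 → Fin 4 → Fin 4 → κ) : Fin 4 → Fin 4 → κ :=
  ![![U 1 0 0 + U 1 1 0 - U 2 2 0, U 1 0 1 + U 1 1 1 - U 2 2 1, U 1 0 2 + U 1 1 2 - U 2 2 2, U
      1 0 3 + U 1 1 3 - U 2 2 3],
    ![-U 0 0 0 - U 0 1 0 - U 0 2 0 - U 1 0 0 - U 1 1 0, -U 0 0 1 - U 0 1 1 - U 0 2 1 - U 1 0 1 -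
      U 1 1 1, -U 0 0 2 - U 0 1 2 - U 0 2 2 - U 1 0 2 - U 1 1 2, -U 0 0 3 - U 0 1 3 - U 0 2 3 - U
      1 0 3 - U 1 1 3],
    ![-U 1 0 0 - U 1 2 0 + U 1 3 0 + U 2 3 0, -U 1 0 1 - U 1 2 1 + U 1 3 1 + U 2 3 1, -U 1 0 2 -
      U 1 2 2 + U 1 3 2 + U 2 3 2, -U 1 0 3 - U 1 2 3 + U 1 3 3 + U 2 3 3],
    ![U 0 0 0 + U 0 2 0 + U 1 0 0 + U 1 2 0 - U 1 3 0, U 0 0 1 + U 0 2 1 + U 1 0 1 + U 1 2 1 - U
      1 3 1, U 0 0 2 + U 0 2 2 + U 1 0 2 + U 1 2 2 - U 1 3 2, U 0 0 3 + U 0 2 3 + U 1 0 3 + U 1 2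
      3 - U 1 3 3]]

theorem tTNL (U : Fin 3 → Fin 4 → Fin 4 → κ) (d : Fin 4) (c : Fin 4) :
    ∑ a, ∑ b, gL κ d a b * U a b c =
      TNL U d c := by
  fin_cases d <;> fin_cases c <;>
    simp [TNL, gL, Fin.sum_univ_three, Fin.sum_univ_four] <;> ring

theorem n1L : N1 (gL κ) qz4 := by
  intro U hs h0 h1 hq
  simp only [tTNL] at h1
  simp only [tTNq] at hq
  have e0 : U 1 0 0 + U 1 1 0 - U 2 2 0 = 0 := h1 0 0
  have e1 : U 1 0 1 + U 1 1 1 - U 2 2 1 = 0 := h1 0 1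
  have e2 : U 1 0 2 + U 1 1 2 - U 2 2 2 = 0 := h1 0 2
  have e3 : U 1 0 3 + U 1 1 3 - U 2 2 3 = 0 := h1 0 3
  have e4 : -U 0 0 0 - U 0 1 0 - U 0 2 0 - U 1 0 0 - U 1 1 0 = 0 := h1 1 0
  have e5 : -U 0 0 1 - U 0 1 1 - U 0 2 1 - U 1 0 1 - U 1 1 1 = 0 := h1 1 1
  have e6 : -U 0 0 2 - U 0 1 2 - U 0 2 2 - U 1 0 2 - U 1 1 2 = 0 := h1 1 2
  have e7 : -U 0 0 3 - U 0 1 3 - U 0 2 3 - U 1 0 3 - U 1 1 3 = 0 := h1 1 3
  have e8 : -U 1 0 0 - U 1 2 0 + U 1 3 0 + U 2 3 0 = 0 := h1 2 0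
  have e9 : -U 1 0 1 - U 1 2 1 + U 1 3 1 + U 2 3 1 = 0 := h1 2 1
  have e10 : -U 1 0 2 - U 1 2 2 + U 1 3 2 + U 2 3 2 = 0 := h1 2 2
  have e11 : -U 1 0 3 - U 1 2 3 + U 1 3 3 + U 2 3 3 = 0 := h1 2 3
  have e13 : U 0 0 1 + U 0 2 1 + U 1 0 1 + U 1 2 1 - U 1 3 1 = 0 := h1 3 1
  have e14 : U 0 0 2 + U 0 2 2 + U 1 0 2 + U 1 2 2 - U 1 3 2 = 0 := h1 3 2
  have e15 : U 0 0 3 + U 0 2 3 + U 1 0 3 + U 1 2 3 - U 1 3 3 = 0 := h1 3 3
  have e16 : U 0 0 0 = 0 := h0 0 0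
  have e17 : U 0 0 1 = U 0 1 0 := hs 0 0 1
  have e18 : U 0 0 2 = U 0 2 0 := hs 0 0 2
  have e19 : U 0 0 3 = U 0 3 0 := hs 0 0 3
  have e20 : U 0 1 1 = 0 := h0 0 1
  have e21 : U 0 1 2 = U 0 2 1 := hs 0 1 2
  have e22 : U 0 1 3 = U 0 3 1 := hs 0 1 3
  have e23 : U 0 2 2 = 0 := h0 0 2
  have e24 : U 0 2 3 = U 0 3 2 := hs 0 2 3
  have e25 : U 0 3 3 = 0 := h0 0 3
  have e26 : U 1 0 0 = 0 := h0 1 0
  have e27 : U 1 0 1 = U 1 1 0 := hs 1 0 1
  have e28 : U 1 0 2 = U 1 2 0 := hs 1 0 2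
  have e29 : U 1 0 3 = U 1 3 0 := hs 1 0 3
  have e30 : U 1 1 1 = 0 := h0 1 1
  have e31 : U 1 1 2 = U 1 2 1 := hs 1 1 2
  have e32 : U 1 1 3 = U 1 3 1 := hs 1 1 3
  have e33 : U 1 2 2 = 0 := h0 1 2
  have e34 : U 1 2 3 = U 1 3 2 := hs 1 2 3
  have e35 : U 1 3 3 = 0 := h0 1 3
  have e36 : U 2 0 0 = 0 := h0 2 0
  have e37 : U 2 0 1 = U 2 1 0 := hs 2 0 1
  have e38 : U 2 0 2 = U 2 2 0 := hs 2 0 2
  have e39 : U 2 0 3 = U 2 3 0 := hs 2 0 3
  have e40 : U 2 1 1 = 0 := h0 2 1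
  have e41 : U 2 1 2 = U 2 2 1 := hs 2 1 2
  have e42 : U 2 1 3 = U 2 3 1 := hs 2 1 3
  have e43 : U 2 2 2 = 0 := h0 2 2
  have e44 : U 2 2 3 = U 2 3 2 := hs 2 2 3
  have e45 : U 2 3 3 = 0 := h0 2 3
  have e46 : U 0 0 1 + U 0 2 3 = 0 := hq 0 0
  have e47 : U 1 0 1 + U 1 2 3 = 0 := hq 0 1
  have e48 : U 2 0 1 + U 2 2 3 = 0 := hq 0 2
  have f_U_1_0_2 : U 1 0 2 = 0 := by
    linear_combination (1 / 2) * e2 - (1 / 2) * e3 - (1 / 2) * e5 - (1 / 2) * e10 - (1 / 2) * e11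
        - (1 / 2) * e13 -
      (1 / 2) * e20 - (1 / 2) * e30 - (1 / 2) * e31 + (1 / 2) * e32 - (1 / 2) * e33 - (1 / 2) *
      e34 + (1 / 2) * e35 + (1 / 2) * e43 - (1 / 2) * e44 + (1 / 2) * e45
  have f_U_0_2_0 : U 0 2 0 = 0 := by
    linear_combination -(1 / 2) * e2 - (1 / 2) * e4 + (1 / 2) * e5 - (1 / 2) * e6 - (1 / 2) * e16
        + (1 / 2) * e17 -
      (1 / 2) * e18 + (1 / 2) * e20 - (1 / 2) * e21 - (1 / 2) * e23 - (1 / 2) * e26 + (1 / 2) *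
      e27 + (1 / 2) * e30 - (1 / 2) * e43
  have f_U_1_0_1 : U 1 0 1 = 0 := by
    linear_combination e14 - e18 - e23 - e33 - e34 + e47 - f_U_1_0_2 - f_U_0_2_0
  have f_U_0_0_1 : U 0 0 1 = 0 := by
    linear_combination -e4 - e16 + e17 - e26 + e27 - f_U_0_2_0 - f_U_1_0_1
  have f_U_0_2_1 : U 0 2 1 = 0 := by
    linear_combination -e2 - e6 - e18 - e21 - e23 - e43 - f_U_0_2_0
  have f_U_1_3_1 : U 1 3 1 = 0 := by
    linear_combination e3 + e10 + e11 - e32 + e33 + e34 - e35 + e44 - e45 + f_U_1_0_2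
  have f_U_1_2_3 : U 1 2 3 = 0 := by
    linear_combination e47 - f_U_1_0_1
  have f_U_1_0_3 : U 1 0 3 = 0 := by
    linear_combination -e11 + e35 + e45 - f_U_1_2_3
  have f_U_2_3_2 : U 2 3 2 = 0 := by
    linear_combination -e3 + e32 - e44 + f_U_1_0_3 + f_U_1_3_1
  have f_U_1_1_2 : U 1 1 2 = 0 := by
    linear_combination e2 + e43 - f_U_1_0_2
  have f_U_0_0_2 : U 0 0 2 = 0 := by
    linear_combination e18 + f_U_0_2_0
  have f_U_1_3_2 : U 1 3 2 = 0 := by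
    linear_combination -e34 + f_U_1_2_3
  have f_U_0_1_2 : U 0 1 2 = 0 := by
    linear_combination e21 + f_U_0_2_1
  have f_U_2_2_3 : U 2 2 3 = 0 := by
    linear_combination e44 + f_U_2_3_2
  have f_U_1_1_3 : U 1 1 3 = 0 := by
    linear_combination e32 + f_U_1_3_1
  have f_U_1_2_1 : U 1 2 1 = 0 := by
    linear_combination -e31 + f_U_1_1_2
  have f_U_1_1_0 : U 1 1 0 = 0 := by
    linear_combination -e27 + f_U_1_0_1
  have f_U_1_3_0 : U 1 3 0 = 0 := by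
    linear_combination -e29 + f_U_1_0_3
  have f_U_0_1_0 : U 0 1 0 = 0 := by
    linear_combination -e17 + f_U_0_0_1
  have f_U_1_2_0 : U 1 2 0 = 0 := by
    linear_combination -e28 + f_U_1_0_2
  have f_U_0_2_3 : U 0 2 3 = 0 := by
    linear_combination e46 - f_U_0_0_1
  have f_U_0_0_3 : U 0 0 3 = 0 := by
    linear_combination e15 + e35 - f_U_0_2_3 - f_U_1_0_3 - f_U_1_2_3
  have f_U_2_3_0 : U 2 3 0 = 0 := by
    linear_combination e8 + e26 + f_U_1_2_0 - f_U_1_3_0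
  have f_U_2_2_1 : U 2 2 1 = 0 := by
    linear_combination -e1 + e30 + f_U_1_0_1
  have f_U_2_2_0 : U 2 2 0 = 0 := by
    linear_combination -e0 + e26 + f_U_1_1_0
  have f_U_0_1_3 : U 0 1 3 = 0 := by
    linear_combination -e7 - f_U_0_0_3 - f_U_0_2_3 - f_U_1_0_3 - f_U_1_1_3
  have f_U_2_0_2 : U 2 0 2 = 0 := by
    linear_combination e38 + f_U_2_2_0
  have f_U_0_0_0 : U 0 0 0 = 0 := by
    linear_combination e16
  have f_U_1_2_2 : U 1 2 2 = 0 := by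
    linear_combination e33
  have f_U_2_3_3 : U 2 3 3 = 0 := by
    linear_combination e45
  have f_U_2_0_1 : U 2 0 1 = 0 := by
    linear_combination e48 - f_U_2_2_3
  have f_U_0_3_1 : U 0 3 1 = 0 := by
    linear_combination -e22 + f_U_0_1_3
  have f_U_0_1_1 : U 0 1 1 = 0 := by
    linear_combination e20
  have f_U_2_3_1 : U 2 3 1 = 0 := by
    linear_combination e9 + f_U_1_0_1 + f_U_1_2_1 - f_U_1_3_1
  have f_U_2_0_3 : U 2 0 3 = 0 := by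
    linear_combination e39 + f_U_2_3_0
  have f_U_1_0_0 : U 1 0 0 = 0 := by
    linear_combination e26
  have f_U_0_2_2 : U 0 2 2 = 0 := by
    linear_combination e23
  have f_U_1_3_3 : U 1 3 3 = 0 := by
    linear_combination e35
  have f_U_2_2_2 : U 2 2 2 = 0 := by
    linear_combination e43
  have f_U_2_1_2 : U 2 1 2 = 0 := by
    linear_combination e41 + f_U_2_2_1
  have f_U_2_1_3 : U 2 1 3 = 0 := by
    linear_combination e42 + f_U_2_3_1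
  have f_U_0_3_0 : U 0 3 0 = 0 := by
    linear_combination -e19 + f_U_0_0_3
  have f_U_2_1_0 : U 2 1 0 = 0 := by
    linear_combination -e37 + f_U_2_0_1
  have f_U_2_0_0 : U 2 0 0 = 0 := by
    linear_combination e36
  have f_U_2_1_1 : U 2 1 1 = 0 := by
    linear_combination e40
  have f_U_0_3_2 : U 0 3 2 = 0 := by
    linear_combination -e24 + f_U_0_2_3
  have f_U_0_3_3 : U 0 3 3 = 0 := by
    linear_combination e25
  have f_U_1_1_1 : U 1 1 1 = 0 := by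
    linear_combination e30
  funext i0 i1 i2
  fin_cases i0 <;> fin_cases i1 <;> fin_cases i2
  all_goals first
    | exact f_U_0_0_0
    | exact f_U_0_0_1
    | exact f_U_0_0_2
    | exact f_U_0_0_3
    | exact f_U_0_1_0
    | exact f_U_0_1_1
    | exact f_U_0_1_2
    | exact f_U_0_1_3
    | exact f_U_0_2_0
    | exact f_U_0_2_1
    | exact f_U_0_2_2
    | exact f_U_0_2_3
    | exact f_U_0_3_0
    | exact f_U_0_3_1
    | exact f_U_0_3_2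
    | exact f_U_0_3_3
    | exact f_U_1_0_0
    | exact f_U_1_0_1
    | exact f_U_1_0_2
    | exact f_U_1_0_3
    | exact f_U_1_1_0
    | exact f_U_1_1_1
    | exact f_U_1_1_2
    | exact f_U_1_1_3
    | exact f_U_1_2_0
    | exact f_U_1_2_1
    | exact f_U_1_2_2
    | exact f_U_1_2_3
    | exact f_U_1_3_0
    | exact f_U_1_3_1
    | exact f_U_1_3_2
    | exact f_U_1_3_3
    | exact f_U_2_0_0
    | exact f_U_2_0_1
    | exact f_U_2_0_2
    | exact f_U_2_0_3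
    | exact f_U_2_1_0
    | exact f_U_2_1_1
    | exact f_U_2_1_2
    | exact f_U_2_1_3
    | exact f_U_2_2_0
    | exact f_U_2_2_1
    | exact f_U_2_2_2
    | exact f_U_2_2_3
    | exact f_U_2_3_0
    | exact f_U_2_3_1
    | exact f_U_2_3_2
    | exact f_U_2_3_3

/-- table -/
def TMA (U : Fin 4 → Fin 3 → Fin 3 → κ) : Fin 4 → Fin 3 → κ :=
  ![![-U 0 0 0 + U 3 2 0, -U 0 0 1 + U 3 2 1, -U 0 0 2 + U 3 2 2],
    ![-U 0 0 0 + U 1 1 0 + U 2 2 0, -U 0 0 1 + U 1 1 1 + U 2 2 1, -U 0 0 2 + U 1 1 2 + U 2 2 2],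
    ![-U 0 1 0 + U 0 2 0 + U 2 1 0, -U 0 1 1 + U 0 2 1 + U 2 1 1, -U 0 1 2 + U 0 2 2 + U 2 1 2],
    ![U 1 0 0 + U 1 1 0 - U 3 0 0, U 1 0 1 + U 1 1 1 - U 3 0 1, U 1 0 2 + U 1 1 2 - U 3 0 2]]

theorem tTMA (U : Fin 4 → Fin 3 → Fin 3 → κ) (d : Fin 4) (c : Fin 3) :
    ∑ a, ∑ b, gA κ d a b * U b a c =
      TMA U d c := by
  fin_cases d <;> fin_cases c <;>
    simp [TMA, gA, Fin.sum_univ_three, Fin.sum_univ_four] <;> ring

theorem n2A : N2 (gA κ) := by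
  intro U hs h0 h1
  simp only [tTMA] at h1
  have e0 : -U 0 0 0 + U 3 2 0 = 0 := h1 0 0
  have e1 : -U 0 0 1 + U 3 2 1 = 0 := h1 0 1
  have e2 : -U 0 0 2 + U 3 2 2 = 0 := h1 0 2
  have e3 : -U 0 0 0 + U 1 1 0 + U 2 2 0 = 0 := h1 1 0
  have e4 : -U 0 0 1 + U 1 1 1 + U 2 2 1 = 0 := h1 1 1
  have e5 : -U 0 0 2 + U 1 1 2 + U 2 2 2 = 0 := h1 1 2
  have e6 : -U 0 1 0 + U 0 2 0 + U 2 1 0 = 0 := h1 2 0
  have e7 : -U 0 1 1 + U 0 2 1 + U 2 1 1 = 0 := h1 2 1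
  have e8 : -U 0 1 2 + U 0 2 2 + U 2 1 2 = 0 := h1 2 2
  have e9 : U 1 0 0 + U 1 1 0 - U 3 0 0 = 0 := h1 3 0
  have e10 : U 1 0 1 + U 1 1 1 - U 3 0 1 = 0 := h1 3 1
  have e11 : U 1 0 2 + U 1 1 2 - U 3 0 2 = 0 := h1 3 2
  have e12 : U 0 0 0 = 0 := h0 0 0
  have e13 : U 0 0 1 = U 0 1 0 := hs 0 0 1
  have e14 : U 0 0 2 = U 0 2 0 := hs 0 0 2
  have e15 : U 0 1 1 = 0 := h0 0 1
  have e16 : U 0 1 2 = U 0 2 1 := hs 0 1 2
  have e17 : U 0 2 2 = 0 := h0 0 2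
  have e18 : U 1 0 0 = 0 := h0 1 0
  have e19 : U 1 0 1 = U 1 1 0 := hs 1 0 1
  have e20 : U 1 0 2 = U 1 2 0 := hs 1 0 2
  have e21 : U 1 1 1 = 0 := h0 1 1
  have e22 : U 1 1 2 = U 1 2 1 := hs 1 1 2
  have e23 : U 1 2 2 = 0 := h0 1 2
  have e24 : U 2 0 0 = 0 := h0 2 0
  have e25 : U 2 0 1 = U 2 1 0 := hs 2 0 1
  have e26 : U 2 0 2 = U 2 2 0 := hs 2 0 2
  have e27 : U 2 1 1 = 0 := h0 2 1
  have e28 : U 2 1 2 = U 2 2 1 := hs 2 1 2
  have e29 : U 2 2 2 = 0 := h0 2 2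
  have e30 : U 3 0 0 = 0 := h0 3 0
  have e31 : U 3 0 1 = U 3 1 0 := hs 3 0 1
  have e32 : U 3 0 2 = U 3 2 0 := hs 3 0 2
  have e33 : U 3 1 1 = 0 := h0 3 1
  have e34 : U 3 1 2 = U 3 2 1 := hs 3 1 2
  have e35 : U 3 2 2 = 0 := h0 3 2
  have f_U_0_2_1 : U 0 2 1 = 0 := by
    linear_combination e7 + e15 - e27
  have f_U_1_1_0 : U 1 1 0 = 0 := by
    linear_combination e9 - e18 + e30
  have f_U_3_2_0 : U 3 2 0 = 0 := by
    linear_combination e0 + e12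
  have f_U_0_1_2 : U 0 1 2 = 0 := by
    linear_combination e16 + f_U_0_2_1
  have f_U_2_1_2 : U 2 1 2 = 0 := by
    linear_combination e8 - e17 + f_U_0_1_2
  have f_U_2_2_1 : U 2 2 1 = 0 := by
    linear_combination -e28 + f_U_2_1_2
  have f_U_0_0_1 : U 0 0 1 = 0 := by
    linear_combination -e4 + e21 + f_U_2_2_1
  have f_U_0_0_2 : U 0 0 2 = 0 := by
    linear_combination -e2 + e35
  have f_U_1_0_1 : U 1 0 1 = 0 := by
    linear_combination e19 + f_U_1_1_0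
  have f_U_3_0_1 : U 3 0 1 = 0 := by
    linear_combination -e10 + e21 + f_U_1_0_1
  have f_U_2_2_0 : U 2 2 0 = 0 := by
    linear_combination e3 + e12 - f_U_1_1_0
  have f_U_1_1_2 : U 1 1 2 = 0 := by
    linear_combination e5 - e29 + f_U_0_0_2
  have f_U_0_2_0 : U 0 2 0 = 0 := by
    linear_combination -e14 + f_U_0_0_2
  have f_U_3_2_1 : U 3 2 1 = 0 := by
    linear_combination e1 + f_U_0_0_1
  have f_U_0_1_0 : U 0 1 0 = 0 := by
    linear_combination -e13 + f_U_0_0_1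
  have f_U_3_0_0 : U 3 0 0 = 0 := by
    linear_combination e30
  have f_U_2_1_0 : U 2 1 0 = 0 := by
    linear_combination e6 + f_U_0_1_0 - f_U_0_2_0
  have f_U_2_0_1 : U 2 0 1 = 0 := by
    linear_combination e25 + f_U_2_1_0
  have f_U_1_0_0 : U 1 0 0 = 0 := by
    linear_combination e18
  have f_U_2_0_2 : U 2 0 2 = 0 := by
    linear_combination e26 + f_U_2_2_0
  have f_U_3_0_2 : U 3 0 2 = 0 := by
    linear_combination e32 + f_U_3_2_0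
  have f_U_1_2_1 : U 1 2 1 = 0 := by
    linear_combination -e22 + f_U_1_1_2
  have f_U_0_2_2 : U 0 2 2 = 0 := by
    linear_combination e17
  have f_U_0_1_1 : U 0 1 1 = 0 := by
    linear_combination e15
  have f_U_3_1_0 : U 3 1 0 = 0 := by
    linear_combination -e31 + f_U_3_0_1
  have f_U_1_2_2 : U 1 2 2 = 0 := by
    linear_combination e23
  have f_U_1_0_2 : U 1 0 2 = 0 := by
    linear_combination e11 + f_U_3_0_2 - f_U_1_1_2
  have f_U_0_0_0 : U 0 0 0 = 0 := by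
    linear_combination e12
  have f_U_1_1_1 : U 1 1 1 = 0 := by
    linear_combination e21
  have f_U_2_0_0 : U 2 0 0 = 0 := by
    linear_combination e24
  have f_U_3_2_2 : U 3 2 2 = 0 := by
    linear_combination e35
  have f_U_3_1_2 : U 3 1 2 = 0 := by
    linear_combination e34 + f_U_3_2_1
  have f_U_2_2_2 : U 2 2 2 = 0 := by
    linear_combination e29
  have f_U_1_2_0 : U 1 2 0 = 0 := by
    linear_combination -e20 + f_U_1_0_2
  have f_U_3_1_1 : U 3 1 1 = 0 := by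
    linear_combination e33
  have f_U_2_1_1 : U 2 1 1 = 0 := by
    linear_combination e27
  funext i0 i1 i2
  fin_cases i0 <;> fin_cases i1 <;> fin_cases i2
  all_goals first
    | exact f_U_0_0_0
    | exact f_U_0_0_1
    | exact f_U_0_0_2
    | exact f_U_0_1_0
    | exact f_U_0_1_1
    | exact f_U_0_1_2
    | exact f_U_0_2_0
    | exact f_U_0_2_1
    | exact f_U_0_2_2
    | exact f_U_1_0_0
    | exact f_U_1_0_1
    | exact f_U_1_0_2
    | exact f_U_1_1_0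
    | exact f_U_1_1_1
    | exact f_U_1_1_2
    | exact f_U_1_2_0
    | exact f_U_1_2_1
    | exact f_U_1_2_2
    | exact f_U_2_0_0
    | exact f_U_2_0_1
    | exact f_U_2_0_2
    | exact f_U_2_1_0
    | exact f_U_2_1_1
    | exact f_U_2_1_2
    | exact f_U_2_2_0
    | exact f_U_2_2_1
    | exact f_U_2_2_2
    | exact f_U_3_0_0
    | exact f_U_3_0_1
    | exact f_U_3_0_2
    | exact f_U_3_1_0
    | exact f_U_3_1_1
    | exact f_U_3_1_2
    | exact f_U_3_2_0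
    | exact f_U_3_2_1
    | exact f_U_3_2_2

/-- table -/
def TMB (U : Fin 4 → Fin 3 → Fin 3 → κ) : Fin 4 → Fin 3 → κ :=
  ![![U 0 0 0 + U 0 2 0 - U 2 0 0, U 0 0 1 + U 0 2 1 - U 2 0 1, U 0 0 2 + U 0 2 2 - U 2 0 2],
    ![U 1 1 0 + U 2 2 0, U 1 1 1 + U 2 2 1, U 1 1 2 + U 2 2 2],
    ![U 0 1 0 - U 0 2 0 - U 3 2 0, U 0 1 1 - U 0 2 1 - U 3 2 1, U 0 1 2 - U 0 2 2 - U 3 2 2],
    ![-U 1 2 0 - U 3 0 0, -U 1 2 1 - U 3 0 1, -U 1 2 2 - U 3 0 2]]

theorem tTMB (U : Fin 4 → Fin 3 → Fin 3 → κ) (d : Fin 4) (c : Fin 3) :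
    ∑ a, ∑ b, gB κ d a b * U b a c =
      TMB U d c := by
  fin_cases d <;> fin_cases c <;>
    simp [TMB, gB, Fin.sum_univ_three, Fin.sum_univ_four] <;> ring

theorem n2B : N2 (gB κ) := by
  intro U hs h0 h1
  simp only [tTMB] at h1
  have e0 : U 0 0 0 + U 0 2 0 - U 2 0 0 = 0 := h1 0 0
  have e1 : U 0 0 1 + U 0 2 1 - U 2 0 1 = 0 := h1 0 1
  have e2 : U 0 0 2 + U 0 2 2 - U 2 0 2 = 0 := h1 0 2
  have e3 : U 1 1 0 + U 2 2 0 = 0 := h1 1 0
  have e4 : U 1 1 1 + U 2 2 1 = 0 := h1 1 1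
  have e5 : U 1 1 2 + U 2 2 2 = 0 := h1 1 2
  have e6 : U 0 1 0 - U 0 2 0 - U 3 2 0 = 0 := h1 2 0
  have e7 : U 0 1 1 - U 0 2 1 - U 3 2 1 = 0 := h1 2 1
  have e8 : U 0 1 2 - U 0 2 2 - U 3 2 2 = 0 := h1 2 2
  have e9 : -U 1 2 0 - U 3 0 0 = 0 := h1 3 0
  have e10 : -U 1 2 1 - U 3 0 1 = 0 := h1 3 1
  have e11 : -U 1 2 2 - U 3 0 2 = 0 := h1 3 2
  have e12 : U 0 0 0 = 0 := h0 0 0
  have e13 : U 0 0 1 = U 0 1 0 := hs 0 0 1
  have e14 : U 0 0 2 = U 0 2 0 := hs 0 0 2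
  have e15 : U 0 1 1 = 0 := h0 0 1
  have e16 : U 0 1 2 = U 0 2 1 := hs 0 1 2
  have e17 : U 0 2 2 = 0 := h0 0 2
  have e18 : U 1 0 0 = 0 := h0 1 0
  have e19 : U 1 0 1 = U 1 1 0 := hs 1 0 1
  have e20 : U 1 0 2 = U 1 2 0 := hs 1 0 2
  have e21 : U 1 1 1 = 0 := h0 1 1
  have e22 : U 1 1 2 = U 1 2 1 := hs 1 1 2
  have e23 : U 1 2 2 = 0 := h0 1 2
  have e24 : U 2 0 0 = 0 := h0 2 0
  have e25 : U 2 0 1 = U 2 1 0 := hs 2 0 1
  have e26 : U 2 0 2 = U 2 2 0 := hs 2 0 2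
  have e27 : U 2 1 1 = 0 := h0 2 1
  have e28 : U 2 1 2 = U 2 2 1 := hs 2 1 2
  have e29 : U 2 2 2 = 0 := h0 2 2
  have e30 : U 3 0 0 = 0 := h0 3 0
  have e31 : U 3 0 1 = U 3 1 0 := hs 3 0 1
  have e32 : U 3 0 2 = U 3 2 0 := hs 3 0 2
  have e33 : U 3 1 1 = 0 := h0 3 1
  have e34 : U 3 1 2 = U 3 2 1 := hs 3 1 2
  have e35 : U 3 2 2 = 0 := h0 3 2
  have f_U_0_1_2 : U 0 1 2 = 0 := by
    linear_combination e8 + e17 + e35
  have f_U_0_2_0 : U 0 2 0 = 0 := by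
    linear_combination e0 - e12 + e24
  have f_U_0_0_2 : U 0 0 2 = 0 := by
    linear_combination e14 + f_U_0_2_0
  have f_U_2_0_2 : U 2 0 2 = 0 := by
    linear_combination -e2 + e17 + f_U_0_0_2
  have f_U_1_1_2 : U 1 1 2 = 0 := by
    linear_combination e5 - e29
  have f_U_0_2_1 : U 0 2 1 = 0 := by
    linear_combination -e16 + f_U_0_1_2
  have f_U_3_2_1 : U 3 2 1 = 0 := by
    linear_combination -e7 + e15 - f_U_0_2_1
  have f_U_1_2_0 : U 1 2 0 = 0 := by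
    linear_combination -e9 - e30
  have f_U_3_0_2 : U 3 0 2 = 0 := by
    linear_combination -e11 - e23
  have f_U_2_2_1 : U 2 2 1 = 0 := by
    linear_combination e4 - e21
  have f_U_3_2_0 : U 3 2 0 = 0 := by
    linear_combination -e32 + f_U_3_0_2
  have f_U_0_1_0 : U 0 1 0 = 0 := by
    linear_combination e6 + f_U_0_2_0 + f_U_3_2_0
  have f_U_3_0_0 : U 3 0 0 = 0 := by
    linear_combination e30
  have f_U_0_0_1 : U 0 0 1 = 0 := by
    linear_combination e13 + f_U_0_1_0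
  have f_U_1_0_2 : U 1 0 2 = 0 := by
    linear_combination e20 + f_U_1_2_0
  have f_U_2_2_2 : U 2 2 2 = 0 := by
    linear_combination e29
  have f_U_1_2_1 : U 1 2 1 = 0 := by
    linear_combination -e22 + f_U_1_1_2
  have f_U_3_2_2 : U 3 2 2 = 0 := by
    linear_combination e35
  have f_U_2_1_2 : U 2 1 2 = 0 := by
    linear_combination e28 + f_U_2_2_1
  have f_U_2_0_0 : U 2 0 0 = 0 := by
    linear_combination e24
  have f_U_2_2_0 : U 2 2 0 = 0 := by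
    linear_combination -e26 + f_U_2_0_2
  have f_U_1_1_0 : U 1 1 0 = 0 := by
    linear_combination e3 - f_U_2_2_0
  have f_U_2_0_1 : U 2 0 1 = 0 := by
    linear_combination -e1 + f_U_0_0_1 + f_U_0_2_1
  have f_U_0_0_0 : U 0 0 0 = 0 := by
    linear_combination e12
  have f_U_2_1_0 : U 2 1 0 = 0 := by
    linear_combination -e25 + f_U_2_0_1
  have f_U_1_1_1 : U 1 1 1 = 0 := by
    linear_combination e21
  have f_U_3_0_1 : U 3 0 1 = 0 := by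
    linear_combination -e10 - f_U_1_2_1
  have f_U_1_0_0 : U 1 0 0 = 0 := by
    linear_combination e18
  have f_U_1_2_2 : U 1 2 2 = 0 := by
    linear_combination e23
  have f_U_0_2_2 : U 0 2 2 = 0 := by
    linear_combination e17
  have f_U_3_1_1 : U 3 1 1 = 0 := by
    linear_combination e33
  have f_U_3_1_2 : U 3 1 2 = 0 := by
    linear_combination e34 + f_U_3_2_1
  have f_U_0_1_1 : U 0 1 1 = 0 := by
    linear_combination e15
  have f_U_3_1_0 : U 3 1 0 = 0 := by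
    linear_combination -e31 + f_U_3_0_1
  have f_U_2_1_1 : U 2 1 1 = 0 := by
    linear_combination e27
  have f_U_1_0_1 : U 1 0 1 = 0 := by
    linear_combination e19 + f_U_1_1_0
  funext i0 i1 i2
  fin_cases i0 <;> fin_cases i1 <;> fin_cases i2
  all_goals first
    | exact f_U_0_0_0
    | exact f_U_0_0_1
    | exact f_U_0_0_2
    | exact f_U_0_1_0
    | exact f_U_0_1_1
    | exact f_U_0_1_2
    | exact f_U_0_2_0
    | exact f_U_0_2_1
    | exact f_U_0_2_2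
    | exact f_U_1_0_0
    | exact f_U_1_0_1
    | exact f_U_1_0_2
    | exact f_U_1_1_0
    | exact f_U_1_1_1
    | exact f_U_1_1_2
    | exact f_U_1_2_0
    | exact f_U_1_2_1
    | exact f_U_1_2_2
    | exact f_U_2_0_0
    | exact f_U_2_0_1
    | exact f_U_2_0_2
    | exact f_U_2_1_0
    | exact f_U_2_1_1
    | exact f_U_2_1_2
    | exact f_U_2_2_0
    | exact f_U_2_2_1
    | exact f_U_2_2_2
    | exact f_U_3_0_0
    | exact f_U_3_0_1
    | exact f_U_3_0_2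
    | exact f_U_3_1_0
    | exact f_U_3_1_1
    | exact f_U_3_1_2
    | exact f_U_3_2_0
    | exact f_U_3_2_1
    | exact f_U_3_2_2

/-- table -/
def TML (U : Fin 4 → Fin 3 → Fin 3 → κ) : Fin 4 → Fin 3 → κ :=
  ![![U 0 1 0 + U 1 1 0 - U 2 2 0, U 0 1 1 + U 1 1 1 - U 2 2 1, U 0 1 2 + U 1 1 2 - U 2 2 2],
    ![-U 0 0 0 - U 0 1 0 - U 1 0 0 - U 1 1 0 - U 2 0 0, -U 0 0 1 - U 0 1 1 - U 1 0 1 - U 1 1 1 -
      U 2 0 1, -U 0 0 2 - U 0 1 2 - U 1 0 2 - U 1 1 2 - U 2 0 2],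
    ![-U 0 1 0 - U 2 1 0 + U 3 1 0 + U 3 2 0, -U 0 1 1 - U 2 1 1 + U 3 1 1 + U 3 2 1, -U 0 1 2 -
      U 2 1 2 + U 3 1 2 + U 3 2 2],
    ![U 0 0 0 + U 0 1 0 + U 2 0 0 + U 2 1 0 - U 3 1 0, U 0 0 1 + U 0 1 1 + U 2 0 1 + U 2 1 1 - U
      3 1 1, U 0 0 2 + U 0 1 2 + U 2 0 2 + U 2 1 2 - U 3 1 2]]

theorem tTML (U : Fin 4 → Fin 3 → Fin 3 → κ) (d : Fin 4) (c : Fin 3) :
    ∑ a, ∑ b, gL κ d a b * U b a c =
      TML U d c := by
  fin_cases d <;> fin_cases c <;>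
    simp [TML, gL, Fin.sum_univ_three, Fin.sum_univ_four] <;> ring

theorem n2L : N2 (gL κ) := by
  intro U hs h0 h1
  simp only [tTML] at h1
  have e0 : U 0 1 0 + U 1 1 0 - U 2 2 0 = 0 := h1 0 0
  have e1 : U 0 1 1 + U 1 1 1 - U 2 2 1 = 0 := h1 0 1
  have e2 : U 0 1 2 + U 1 1 2 - U 2 2 2 = 0 := h1 0 2
  have e3 : -U 0 0 0 - U 0 1 0 - U 1 0 0 - U 1 1 0 - U 2 0 0 = 0 := h1 1 0
  have e4 : -U 0 0 1 - U 0 1 1 - U 1 0 1 - U 1 1 1 - U 2 0 1 = 0 := h1 1 1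
  have e5 : -U 0 0 2 - U 0 1 2 - U 1 0 2 - U 1 1 2 - U 2 0 2 = 0 := h1 1 2
  have e6 : -U 0 1 0 - U 2 1 0 + U 3 1 0 + U 3 2 0 = 0 := h1 2 0
  have e7 : -U 0 1 1 - U 2 1 1 + U 3 1 1 + U 3 2 1 = 0 := h1 2 1
  have e8 : -U 0 1 2 - U 2 1 2 + U 3 1 2 + U 3 2 2 = 0 := h1 2 2
  have e9 : U 0 0 0 + U 0 1 0 + U 2 0 0 + U 2 1 0 - U 3 1 0 = 0 := h1 3 0
  have e10 : U 0 0 1 + U 0 1 1 + U 2 0 1 + U 2 1 1 - U 3 1 1 = 0 := h1 3 1
  have e11 : U 0 0 2 + U 0 1 2 + U 2 0 2 + U 2 1 2 - U 3 1 2 = 0 := h1 3 2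
  have e12 : U 0 0 0 = 0 := h0 0 0
  have e13 : U 0 0 1 = U 0 1 0 := hs 0 0 1
  have e14 : U 0 0 2 = U 0 2 0 := hs 0 0 2
  have e15 : U 0 1 1 = 0 := h0 0 1
  have e16 : U 0 1 2 = U 0 2 1 := hs 0 1 2
  have e17 : U 0 2 2 = 0 := h0 0 2
  have e18 : U 1 0 0 = 0 := h0 1 0
  have e19 : U 1 0 1 = U 1 1 0 := hs 1 0 1
  have e20 : U 1 0 2 = U 1 2 0 := hs 1 0 2
  have e21 : U 1 1 1 = 0 := h0 1 1
  have e22 : U 1 1 2 = U 1 2 1 := hs 1 1 2
  have e23 : U 1 2 2 = 0 := h0 1 2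
  have e24 : U 2 0 0 = 0 := h0 2 0
  have e25 : U 2 0 1 = U 2 1 0 := hs 2 0 1
  have e26 : U 2 0 2 = U 2 2 0 := hs 2 0 2
  have e27 : U 2 1 1 = 0 := h0 2 1
  have e28 : U 2 1 2 = U 2 2 1 := hs 2 1 2
  have e29 : U 2 2 2 = 0 := h0 2 2
  have e30 : U 3 0 0 = 0 := h0 3 0
  have e31 : U 3 0 1 = U 3 1 0 := hs 3 0 1
  have e32 : U 3 0 2 = U 3 2 0 := hs 3 0 2
  have e33 : U 3 1 1 = 0 := h0 3 1
  have e34 : U 3 1 2 = U 3 2 1 := hs 3 1 2
  have e35 : U 3 2 2 = 0 := h0 3 2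
  have f_U_1_1_0 : U 1 1 0 = 0 := by
    linear_combination -e4 - e10 - e19 - e21 + e27 - e33
  have f_U_0_0_1 : U 0 0 1 = 0 := by
    linear_combination -e3 - e12 + e13 - e18 - e24 - f_U_1_1_0
  have f_U_2_0_1 : U 2 0 1 = 0 := by
    linear_combination e10 - e15 - e27 + e33 - f_U_0_0_1
  have f_U_1_0_1 : U 1 0 1 = 0 := by
    linear_combination e19 + f_U_1_1_0
  have f_U_0_1_0 : U 0 1 0 = 0 := by
    linear_combination -e13 + f_U_0_0_1
  have f_U_3_2_1 : U 3 2 1 = 0 := by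
    linear_combination e7 + e15 + e27 - e33
  have f_U_2_1_0 : U 2 1 0 = 0 := by
    linear_combination -e25 + f_U_2_0_1
  have f_U_3_1_0 : U 3 1 0 = 0 := by
    linear_combination -e9 + e12 + e24 + f_U_0_1_0 + f_U_2_1_0
  have f_U_2_2_1 : U 2 2 1 = 0 := by
    linear_combination -e1 + e15 + e21
  have f_U_3_1_2 : U 3 1 2 = 0 := by
    linear_combination e34 + f_U_3_2_1
  have f_U_2_1_2 : U 2 1 2 = 0 := by
    linear_combination e28 + f_U_2_2_1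
  have f_U_0_1_2 : U 0 1 2 = 0 := by
    linear_combination -e8 + e35 - f_U_2_1_2 + f_U_3_1_2
  have f_U_1_1_2 : U 1 1 2 = 0 := by
    linear_combination e2 + e29 - f_U_0_1_2
  have f_U_2_2_0 : U 2 2 0 = 0 := by
    linear_combination -e0 + f_U_0_1_0 + f_U_1_1_0
  have f_U_2_0_2 : U 2 0 2 = 0 := by
    linear_combination e26 + f_U_2_2_0
  have f_U_3_2_0 : U 3 2 0 = 0 := by
    linear_combination e6 + f_U_0_1_0 + f_U_2_1_0 - f_U_3_1_0
  have f_U_0_0_2 : U 0 0 2 = 0 := by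
    linear_combination e11 - f_U_2_0_2 - f_U_0_1_2 - f_U_2_1_2 + f_U_3_1_2
  have f_U_1_0_2 : U 1 0 2 = 0 := by
    linear_combination -e5 - f_U_0_0_2 - f_U_2_0_2 - f_U_0_1_2 - f_U_1_1_2
  have f_U_0_2_0 : U 0 2 0 = 0 := by
    linear_combination -e14 + f_U_0_0_2
  have f_U_3_0_0 : U 3 0 0 = 0 := by
    linear_combination e30
  have f_U_1_1_1 : U 1 1 1 = 0 := by
    linear_combination e21
  have f_U_2_0_0 : U 2 0 0 = 0 := by
    linear_combination e24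
  have f_U_3_0_2 : U 3 0 2 = 0 := by
    linear_combination e32 + f_U_3_2_0
  have f_U_2_1_1 : U 2 1 1 = 0 := by
    linear_combination e27
  have f_U_0_2_1 : U 0 2 1 = 0 := by
    linear_combination -e16 + f_U_0_1_2
  have f_U_1_2_2 : U 1 2 2 = 0 := by
    linear_combination e23
  have f_U_1_2_0 : U 1 2 0 = 0 := by
    linear_combination -e20 + f_U_1_0_2
  have f_U_0_0_0 : U 0 0 0 = 0 := by
    linear_combination e12
  have f_U_1_0_0 : U 1 0 0 = 0 := by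
    linear_combination e18
  have f_U_2_2_2 : U 2 2 2 = 0 := by
    linear_combination e29
  have f_U_3_0_1 : U 3 0 1 = 0 := by
    linear_combination e31 + f_U_3_1_0
  have f_U_3_1_1 : U 3 1 1 = 0 := by
    linear_combination e33
  have f_U_1_2_1 : U 1 2 1 = 0 := by
    linear_combination -e22 + f_U_1_1_2
  have f_U_3_2_2 : U 3 2 2 = 0 := by
    linear_combination e35
  have f_U_0_2_2 : U 0 2 2 = 0 := by
    linear_combination e17
  have f_U_0_1_1 : U 0 1 1 = 0 := by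
    linear_combination e15
  funext i0 i1 i2
  fin_cases i0 <;> fin_cases i1 <;> fin_cases i2
  all_goals first
    | exact f_U_0_0_0
    | exact f_U_0_0_1
    | exact f_U_0_0_2
    | exact f_U_0_1_0
    | exact f_U_0_1_1
    | exact f_U_0_1_2
    | exact f_U_0_2_0
    | exact f_U_0_2_1
    | exact f_U_0_2_2
    | exact f_U_1_0_0
    | exact f_U_1_0_1
    | exact f_U_1_0_2
    | exact f_U_1_1_0
    | exact f_U_1_1_1
    | exact f_U_1_1_2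
    | exact f_U_1_2_0
    | exact f_U_1_2_1
    | exact f_U_1_2_2
    | exact f_U_2_0_0
    | exact f_U_2_0_1
    | exact f_U_2_0_2
    | exact f_U_2_1_0
    | exact f_U_2_1_1
    | exact f_U_2_1_2
    | exact f_U_2_2_0
    | exact f_U_2_2_1
    | exact f_U_2_2_2
    | exact f_U_3_0_0
    | exact f_U_3_0_1
    | exact f_U_3_0_2
    | exact f_U_3_1_0
    | exact f_U_3_1_1
    | exact f_U_3_1_2
    | exact f_U_3_2_0
    | exact f_U_3_2_1
    | exact f_U_3_2_2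

/-- table -/
def TNr (U : Fin 4 → Fin 4 → Fin 4 → κ) : Fin 1 → Fin 4 → κ :=
  ![![U 0 0 1 + U 0 2 3, U 1 0 1 + U 1 2 3, U 2 0 1 + U 2 2 3, U 3 0 1 + U 3 2 3]]

theorem tTNr (U : Fin 4 → Fin 4 → Fin 4 → κ) (x : Fin 1) (a : Fin 4) :
    ∑ b, ∑ c, (qz4 x b c : κ) * U a b c =
      TNr U x a := by
  fin_cases x <;> fin_cases a <;>
    simp [TNr, qz4, Fin.sum_univ_four] <;> ring

theorem n3 : N3 κ qz4 := by
  intro U h1 h2 h0 hq
  simp only [tTNr] at hq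
  have e0 : U 0 0 0 = 0 := h0 0 0
  have e1 : U 0 0 1 = U 0 1 0 := h2 0 0 1
  have e2 : U 0 0 2 = U 0 2 0 := h2 0 0 2
  have e3 : U 0 0 3 = U 0 3 0 := h2 0 0 3
  have e4 : U 0 1 1 = 0 := h0 0 1
  have e5 : U 0 1 0 = U 1 0 0 := h1 0 1 0
  have e6 : U 0 1 1 = U 1 0 1 := h1 0 1 1
  have e8 : U 0 1 2 = U 0 2 1 := h2 0 1 2
  have e9 : U 0 1 3 = U 1 0 3 := h1 0 1 3
  have e10 : U 0 1 3 = U 0 3 1 := h2 0 1 3
  have e11 : U 0 2 2 = 0 := h0 0 2
  have e12 : U 0 2 0 = U 2 0 0 := h1 0 2 0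
  have e13 : U 0 2 1 = U 2 0 1 := h1 0 2 1
  have e14 : U 0 2 2 = U 2 0 2 := h1 0 2 2
  have e16 : U 0 2 3 = U 0 3 2 := h2 0 2 3
  have e17 : U 0 3 3 = 0 := h0 0 3
  have e18 : U 0 3 0 = U 3 0 0 := h1 0 3 0
  have e19 : U 0 3 1 = U 3 0 1 := h1 0 3 1
  have e20 : U 0 3 2 = U 3 0 2 := h1 0 3 2
  have e21 : U 0 3 3 = U 3 0 3 := h1 0 3 3
  have e22 : U 1 0 0 = 0 := h0 1 0
  have e23 : U 1 0 1 = U 1 1 0 := h2 1 0 1
  have e24 : U 1 0 2 = U 1 2 0 := h2 1 0 2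
  have e25 : U 1 0 3 = U 1 3 0 := h2 1 0 3
  have e26 : U 1 1 1 = 0 := h0 1 1
  have e27 : U 1 1 2 = U 1 2 1 := h2 1 1 2
  have e28 : U 1 1 3 = U 1 3 1 := h2 1 1 3
  have e29 : U 1 2 2 = 0 := h0 1 2
  have e30 : U 1 2 0 = U 2 1 0 := h1 1 2 0
  have e31 : U 1 2 1 = U 2 1 1 := h1 1 2 1
  have e32 : U 1 2 2 = U 2 1 2 := h1 1 2 2
  have e33 : U 1 2 3 = U 2 1 3 := h1 1 2 3
  have e34 : U 1 2 3 = U 1 3 2 := h2 1 2 3
  have e35 : U 1 3 3 = 0 := h0 1 3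
  have e37 : U 1 3 1 = U 3 1 1 := h1 1 3 1
  have e38 : U 1 3 2 = U 3 1 2 := h1 1 3 2
  have e39 : U 1 3 3 = U 3 1 3 := h1 1 3 3
  have e40 : U 2 0 0 = 0 := h0 2 0
  have e41 : U 2 0 1 = U 2 1 0 := h2 2 0 1
  have e42 : U 2 0 2 = U 2 2 0 := h2 2 0 2
  have e43 : U 2 0 3 = U 2 3 0 := h2 2 0 3
  have e44 : U 2 1 1 = 0 := h0 2 1
  have e45 : U 2 1 2 = U 2 2 1 := h2 2 1 2
  have e46 : U 2 1 3 = U 2 3 1 := h2 2 1 3
  have e47 : U 2 2 2 = 0 := h0 2 2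
  have e48 : U 2 2 3 = U 2 3 2 := h2 2 2 3
  have e49 : U 2 3 3 = 0 := h0 2 3
  have e50 : U 2 3 0 = U 3 2 0 := h1 2 3 0
  have e51 : U 2 3 1 = U 3 2 1 := h1 2 3 1
  have e52 : U 2 3 2 = U 3 2 2 := h1 2 3 2
  have e53 : U 2 3 3 = U 3 2 3 := h1 2 3 3
  have e54 : U 3 0 0 = 0 := h0 3 0
  have e55 : U 3 0 1 = U 3 1 0 := h2 3 0 1
  have e56 : U 3 0 2 = U 3 2 0 := h2 3 0 2
  have e57 : U 3 0 3 = U 3 3 0 := h2 3 0 3
  have e58 : U 3 1 1 = 0 := h0 3 1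
  have e60 : U 3 1 3 = U 3 3 1 := h2 3 1 3
  have e61 : U 3 2 2 = 0 := h0 3 2
  have e62 : U 3 2 3 = U 3 3 2 := h2 3 2 3
  have e63 : U 3 3 3 = 0 := h0 3 3
  have e64 : U 0 0 1 + U 0 2 3 = 0 := hq 0 0
  have e65 : U 1 0 1 + U 1 2 3 = 0 := hq 0 1
  have e66 : U 2 0 1 + U 2 2 3 = 0 := hq 0 2
  have e67 : U 3 0 1 + U 3 2 3 = 0 := hq 0 3
  have f_U_0_1_2 : U 0 1 2 = 0 := by
    linear_combination e8 + e13 - e48 - e52 - e61 + e66
  have f_U_3_0_2 : U 3 0 2 = 0 := by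
    linear_combination -e1 - e5 - e16 - e20 - e22 + e64
  have f_U_2_3_0 : U 2 3 0 = 0 := by
    linear_combination e50 - e56 + f_U_3_0_2
  have f_U_3_1_2 : U 3 1 2 = 0 := by
    linear_combination -e4 + e6 - e34 - e38 + e65
  have f_U_2_3_1 : U 2 3 1 = 0 := by
    linear_combination -e4 + e6 - e33 - e46 + e65
  have f_U_0_1_3 : U 0 1 3 = 0 := by
    linear_combination e10 + e19 - e49 + e53 + e67
  have f_U_2_1_0 : U 2 1 0 = 0 := by
    linear_combination -e41 - e48 - e52 - e61 + e66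
  have f_U_1_0_3 : U 1 0 3 = 0 := by
    linear_combination -e9 + f_U_0_1_3
  have f_U_3_2_0 : U 3 2 0 = 0 := by
    linear_combination -e50 + f_U_2_3_0
  have f_U_1_3_0 : U 1 3 0 = 0 := by
    linear_combination -e25 + f_U_1_0_3
  have f_U_3_2_1 : U 3 2 1 = 0 := by
    linear_combination -e51 + f_U_2_3_1
  have f_U_2_0_3 : U 2 0 3 = 0 := by
    linear_combination e43 + f_U_2_3_0
  have f_U_0_2_1 : U 0 2 1 = 0 := by
    linear_combination -e8 + f_U_0_1_2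
  have f_U_0_3_2 : U 0 3 2 = 0 := by
    linear_combination e20 + f_U_3_0_2
  have f_U_1_2_0 : U 1 2 0 = 0 := by
    linear_combination e30 + f_U_2_1_0
  have f_U_1_0_2 : U 1 0 2 = 0 := by
    linear_combination e24 + f_U_1_2_0
  have f_U_1_3_2 : U 1 3 2 = 0 := by
    linear_combination -e4 + e6 - e34 + e65
  have f_U_2_0_1 : U 2 0 1 = 0 := by
    linear_combination -e48 - e52 - e61 + e66
  have f_U_0_2_3 : U 0 2 3 = 0 := by
    linear_combination -e1 - e5 - e22 + e64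
  have f_U_2_1_3 : U 2 1 3 = 0 := by
    linear_combination -e4 + e6 - e33 + e65
  have f_U_3_1_0 : U 3 1 0 = 0 := by
    linear_combination -e49 + e53 - e55 + e67
  have f_U_0_3_1 : U 0 3 1 = 0 := by
    linear_combination e19 - e49 + e53 + e67
  have f_U_2_2_3 : U 2 2 3 = 0 := by
    linear_combination e48 + e52 + e61
  have f_U_0_0_1 : U 0 0 1 = 0 := by
    linear_combination e1 + e5 + e22
  have f_U_1_2_3 : U 1 2 3 = 0 := by
    linear_combination -e4 + e6 + e65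
  have f_U_3_0_1 : U 3 0 1 = 0 := by
    linear_combination -e49 + e53 + e67
  have f_U_2_3_2 : U 2 3 2 = 0 := by
    linear_combination e52 + e61
  have f_U_3_0_3 : U 3 0 3 = 0 := by
    linear_combination e17 - e21
  have f_U_1_0_1 : U 1 0 1 = 0 := by
    linear_combination e4 - e6
  have f_U_3_2_3 : U 3 2 3 = 0 := by
    linear_combination e49 - e53
  have f_U_1_3_1 : U 1 3 1 = 0 := by
    linear_combination e37 + e58
  have f_U_2_0_2 : U 2 0 2 = 0 := by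
    linear_combination e11 - e14
  have f_U_0_3_0 : U 0 3 0 = 0 := by
    linear_combination e18 + e54
  have f_U_1_2_1 : U 1 2 1 = 0 := by
    linear_combination e31 + e44
  have f_U_0_1_0 : U 0 1 0 = 0 := by
    linear_combination e5 + e22
  have f_U_1_2_2 : U 1 2 2 = 0 := by
    linear_combination e29
  have f_U_2_1_2 : U 2 1 2 = 0 := by
    linear_combination -e32 + f_U_1_2_2
  have f_U_0_0_3 : U 0 0 3 = 0 := by
    linear_combination e3 + f_U_0_3_0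
  have f_U_0_0_0 : U 0 0 0 = 0 := by
    linear_combination e0
  have f_U_3_2_2 : U 3 2 2 = 0 := by
    linear_combination e61
  have f_U_3_3_2 : U 3 3 2 = 0 := by
    linear_combination -e62 + f_U_3_2_3
  have f_U_2_3_3 : U 2 3 3 = 0 := by
    linear_combination e49
  have f_U_3_3_0 : U 3 3 0 = 0 := by
    linear_combination -e57 + f_U_3_0_3
  have f_U_2_0_0 : U 2 0 0 = 0 := by
    linear_combination e40
  have f_U_3_1_1 : U 3 1 1 = 0 := by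
    linear_combination e58
  have f_U_0_1_1 : U 0 1 1 = 0 := by
    linear_combination e4
  have f_U_2_2_1 : U 2 2 1 = 0 := by
    linear_combination -e45 + f_U_2_1_2
  have f_U_0_2_0 : U 0 2 0 = 0 := by
    linear_combination e12 + f_U_2_0_0
  have f_U_3_3_3 : U 3 3 3 = 0 := by
    linear_combination e63
  have f_U_2_1_1 : U 2 1 1 = 0 := by
    linear_combination e44
  have f_U_0_2_2 : U 0 2 2 = 0 := by
    linear_combination e11
  have f_U_1_1_1 : U 1 1 1 = 0 := by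
    linear_combination e26
  have f_U_1_1_0 : U 1 1 0 = 0 := by
    linear_combination -e23 + f_U_1_0_1
  have f_U_0_3_3 : U 0 3 3 = 0 := by
    linear_combination e17
  have f_U_2_2_0 : U 2 2 0 = 0 := by
    linear_combination -e42 + f_U_2_0_2
  have f_U_1_3_3 : U 1 3 3 = 0 := by
    linear_combination e35
  have f_U_3_0_0 : U 3 0 0 = 0 := by
    linear_combination e54
  have f_U_2_2_2 : U 2 2 2 = 0 := by
    linear_combination e47
  have f_U_0_0_2 : U 0 0 2 = 0 := by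
    linear_combination e2 + f_U_0_2_0
  have f_U_1_1_2 : U 1 1 2 = 0 := by
    linear_combination e27 + f_U_1_2_1
  have f_U_1_1_3 : U 1 1 3 = 0 := by
    linear_combination e28 + f_U_1_3_1
  have f_U_3_1_3 : U 3 1 3 = 0 := by
    linear_combination -e39 + f_U_1_3_3
  have f_U_3_3_1 : U 3 3 1 = 0 := by
    linear_combination -e60 + f_U_3_1_3
  have f_U_1_0_0 : U 1 0 0 = 0 := by
    linear_combination e22
  funext i0 i1 i2
  fin_cases i0 <;> fin_cases i1 <;> fin_cases i2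
  all_goals first
    | exact f_U_0_0_0
    | exact f_U_0_0_1
    | exact f_U_0_0_2
    | exact f_U_0_0_3
    | exact f_U_0_1_0
    | exact f_U_0_1_1
    | exact f_U_0_1_2
    | exact f_U_0_1_3
    | exact f_U_0_2_0
    | exact f_U_0_2_1
    | exact f_U_0_2_2
    | exact f_U_0_2_3
    | exact f_U_0_3_0
    | exact f_U_0_3_1
    | exact f_U_0_3_2
    | exact f_U_0_3_3
    | exact f_U_1_0_0
    | exact f_U_1_0_1
    | exact f_U_1_0_2
    | exact f_U_1_0_3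
    | exact f_U_1_1_0
    | exact f_U_1_1_1
    | exact f_U_1_1_2
    | exact f_U_1_1_3
    | exact f_U_1_2_0
    | exact f_U_1_2_1
    | exact f_U_1_2_2
    | exact f_U_1_2_3
    | exact f_U_1_3_0
    | exact f_U_1_3_1
    | exact f_U_1_3_2
    | exact f_U_1_3_3
    | exact f_U_2_0_0
    | exact f_U_2_0_1
    | exact f_U_2_0_2
    | exact f_U_2_0_3
    | exact f_U_2_1_0
    | exact f_U_2_1_1
    | exact f_U_2_1_2
    | exact f_U_2_1_3
    | exact f_U_2_2_0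
    | exact f_U_2_2_1
    | exact f_U_2_2_2
    | exact f_U_2_2_3
    | exact f_U_2_3_0
    | exact f_U_2_3_1
    | exact f_U_2_3_2
    | exact f_U_2_3_3
    | exact f_U_3_0_0
    | exact f_U_3_0_1
    | exact f_U_3_0_2
    | exact f_U_3_0_3
    | exact f_U_3_1_0
    | exact f_U_3_1_1
    | exact f_U_3_1_2
    | exact f_U_3_1_3
    | exact f_U_3_2_0
    | exact f_U_3_2_1
    | exact f_U_3_2_2
    | exact f_U_3_2_3
    | exact f_U_3_3_0
    | exact f_U_3_3_1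
    | exact f_U_3_3_2
    | exact f_U_3_3_3

/-- table -/
def T4a (U : Fin 3 → Fin 3 → Fin 4 → κ) : Fin 3 → Fin 4 → κ :=
  ![![U 0 1 0 + U 0 2 0 - 2 * U 1 1 0 - U 1 2 0 + U 2 1 0, U 0 1 1 + U 0 2 1 - 2 * U 1 1 1 - U
      1 2 1 + U 2 1 1, U 0 1 2 + U 0 2 2 - 2 * U 1 1 2 - U 1 2 2 + U 2 1 2, U 0 1 3 + U 0 2 3 - 2
      * U 1 1 3 - U 1 2 3 + U 2 1 3],
    ![-U 0 1 0 + U 1 0 0 + 2 * U 1 1 0 - U 2 0 0 - U 2 1 0, -U 0 1 1 + U 1 0 1 + 2 * U 1 1 1 - U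
      2 0 1 - U 2 1 1, -U 0 1 2 + U 1 0 2 + 2 * U 1 1 2 - U 2 0 2 - U 2 1 2, -U 0 1 3 + U 1 0 3 +
      2 * U 1 1 3 - U 2 0 3 - U 2 1 3],
    ![U 0 2 0 + U 1 0 0 + U 2 1 0, U 0 2 1 + U 1 0 1 + U 2 1 1, U 0 2 2 + U 1 0 2 + U 2 1 2, U 0
      2 3 + U 1 0 3 + U 2 1 3]]

theorem tT4a (U : Fin 3 → Fin 3 → Fin 4 → κ) (c : Fin 3) (b : Fin 4) :
    ∑ a, ∑ a', wlo κ c a a' * U a a' b =
      T4a U c b := by
  fin_cases c <;> fin_cases b <;>
    simp [T4a, wlo, Fin.sum_univ_three] <;> ring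

/-- table -/
def T4b (U : Fin 3 → Fin 3 → Fin 4 → κ) : Fin 4 → Fin 3 → κ :=
  ![![-U 0 0 0 + U 2 0 3, -U 0 1 0 + U 2 1 3, -U 0 2 0 + U 2 2 3],
    ![-U 0 0 0 + U 1 0 1 + U 2 0 2, -U 0 1 0 + U 1 1 1 + U 2 1 2, -U 0 2 0 + U 1 2 1 + U 2 2 2],
    ![-U 1 0 0 + U 1 0 2 + U 2 0 0, -U 1 1 0 + U 1 1 2 + U 2 1 0, -U 1 2 0 + U 1 2 2 + U 2 2 0],
    ![U 0 0 1 - U 0 0 3 + U 1 0 1, U 0 1 1 - U 0 1 3 + U 1 1 1, U 0 2 1 - U 0 2 3 + U 1 2 1]]

theorem tT4b (U : Fin 3 → Fin 3 → Fin 4 → κ) (d : Fin 4) (c : Fin 3) :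
    ∑ a, ∑ b, gA κ d a b * U a c b =
      T4b U d c := by
  fin_cases d <;> fin_cases c <;>
    simp [T4b, gA, Fin.sum_univ_three, Fin.sum_univ_four] <;> ring

/-- table -/
def T4c (U : Fin 3 → Fin 3 → Fin 4 → κ) : Fin 4 → Fin 3 → κ :=
  ![![U 0 0 0 - U 0 0 2 + U 0 2 0, U 1 0 0 - U 1 0 2 + U 1 2 0, U 2 0 0 - U 2 0 2 + U 2 2 0],
    ![U 0 1 1 + U 0 2 2, U 1 1 1 + U 1 2 2, U 2 1 1 + U 2 2 2],
    ![U 0 1 0 - U 0 2 0 - U 0 2 3, U 1 1 0 - U 1 2 0 - U 1 2 3, U 2 1 0 - U 2 2 0 - U 2 2 3],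
    ![-U 0 0 3 - U 0 2 1, -U 1 0 3 - U 1 2 1, -U 2 0 3 - U 2 2 1]]

theorem tT4c (U : Fin 3 → Fin 3 → Fin 4 → κ) (d : Fin 4) (a : Fin 3) :
    ∑ a', ∑ b, gB κ d a' b * U a a' b =
      T4c U d a := by
  fin_cases d <;> fin_cases a <;>
    simp [T4c, gB, Fin.sum_univ_three, Fin.sum_univ_four] <;> ring

theorem n4 : N4 (wlo κ) (gA κ) (gB κ) := by
  intro U h1 h2 h3
  simp only [tT4a] at h1
  simp only [tT4b] at h2
  simp only [tT4c] at h3
  have e0 : U 0 1 0 + U 0 2 0 - 2 * U 1 1 0 - U 1 2 0 + U 2 1 0 = 0 := h1 0 0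
  have e1 : U 0 1 1 + U 0 2 1 - 2 * U 1 1 1 - U 1 2 1 + U 2 1 1 = 0 := h1 0 1
  have e2 : U 0 1 2 + U 0 2 2 - 2 * U 1 1 2 - U 1 2 2 + U 2 1 2 = 0 := h1 0 2
  have e3 : U 0 1 3 + U 0 2 3 - 2 * U 1 1 3 - U 1 2 3 + U 2 1 3 = 0 := h1 0 3
  have e4 : -U 0 1 0 + U 1 0 0 + 2 * U 1 1 0 - U 2 0 0 - U 2 1 0 = 0 := h1 1 0
  have e5 : -U 0 1 1 + U 1 0 1 + 2 * U 1 1 1 - U 2 0 1 - U 2 1 1 = 0 := h1 1 1
  have e6 : -U 0 1 2 + U 1 0 2 + 2 * U 1 1 2 - U 2 0 2 - U 2 1 2 = 0 := h1 1 2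
  have e7 : -U 0 1 3 + U 1 0 3 + 2 * U 1 1 3 - U 2 0 3 - U 2 1 3 = 0 := h1 1 3
  have e8 : U 0 2 0 + U 1 0 0 + U 2 1 0 = 0 := h1 2 0
  have e9 : U 0 2 1 + U 1 0 1 + U 2 1 1 = 0 := h1 2 1
  have e10 : U 0 2 2 + U 1 0 2 + U 2 1 2 = 0 := h1 2 2
  have e11 : U 0 2 3 + U 1 0 3 + U 2 1 3 = 0 := h1 2 3
  have e12 : -U 0 0 0 + U 2 0 3 = 0 := h2 0 0
  have e13 : U 0 0 0 - U 0 0 2 + U 0 2 0 = 0 := h3 0 0
  have e14 : -U 0 1 0 + U 2 1 3 = 0 := h2 0 1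
  have e15 : U 1 0 0 - U 1 0 2 + U 1 2 0 = 0 := h3 0 1
  have e16 : -U 0 2 0 + U 2 2 3 = 0 := h2 0 2
  have e17 : U 2 0 0 - U 2 0 2 + U 2 2 0 = 0 := h3 0 2
  have e18 : -U 0 0 0 + U 1 0 1 + U 2 0 2 = 0 := h2 1 0
  have e19 : U 0 1 1 + U 0 2 2 = 0 := h3 1 0
  have e20 : -U 0 1 0 + U 1 1 1 + U 2 1 2 = 0 := h2 1 1
  have e21 : U 1 1 1 + U 1 2 2 = 0 := h3 1 1
  have e22 : -U 0 2 0 + U 1 2 1 + U 2 2 2 = 0 := h2 1 2
  have e23 : U 2 1 1 + U 2 2 2 = 0 := h3 1 2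
  have e24 : -U 1 0 0 + U 1 0 2 + U 2 0 0 = 0 := h2 2 0
  have e25 : U 0 1 0 - U 0 2 0 - U 0 2 3 = 0 := h3 2 0
  have e26 : -U 1 1 0 + U 1 1 2 + U 2 1 0 = 0 := h2 2 1
  have e27 : U 1 1 0 - U 1 2 0 - U 1 2 3 = 0 := h3 2 1
  have e28 : -U 1 2 0 + U 1 2 2 + U 2 2 0 = 0 := h2 2 2
  have e29 : U 2 1 0 - U 2 2 0 - U 2 2 3 = 0 := h3 2 2
  have e30 : U 0 0 1 - U 0 0 3 + U 1 0 1 = 0 := h2 3 0
  have e31 : -U 0 0 3 - U 0 2 1 = 0 := h3 3 0
  have e32 : U 0 1 1 - U 0 1 3 + U 1 1 1 = 0 := h2 3 1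
  have e33 : -U 1 0 3 - U 1 2 1 = 0 := h3 3 1
  have e34 : U 0 2 1 - U 0 2 3 + U 1 2 1 = 0 := h2 3 2
  have e35 : -U 2 0 3 - U 2 2 1 = 0 := h3 3 2
  have f_U_1_0_2 : U 1 0 2 = 0 := by
    linear_combination (5 / 14) * e0 - (2 / 7) * e1 - (5 / 14) * e2 + (5 / 7) * e3 + (5 / 7) * e4
        - (5 / 14) * e6 +
      (5 / 7) * e7 + (4 / 7) * e8 + (5 / 7) * e9 + (1 / 14) * e10 - (3 / 7) * e11 + (5 / 7) * e12
      + (3 / 7) * e14 - (3 / 14) * e15 - (3 / 14) * e16 - (5 / 14) * e17 - (5 / 7) * e18 + (2 / 7)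
      * e19 - (1 / 14) * e20 - (1 / 2) * e21 + (3 / 7) * e22 - (3 / 7) * e23 + (15 / 14) * e24 +
      (5 / 7) * e25 - (5 / 7) * e27 + (1 / 7) * e28 - (3 / 14) * e29 + (2 / 7) * e33 - (3 / 7) *
      e34
  have f_U_0_2_0 : U 0 2 0 = 0 := by
    linear_combination (1 / 5) * e1 + (3 / 5) * e8 + (1 / 5) * e10 - (1 / 5) * e11 + (1 / 5) *
        e14 - (3 / 5) * e15
      - (3 / 5) * e16 - (1 / 5) * e19 - (1 / 5) * e20 + (3 / 5) * e21 + (1 / 5) * e22 - (1 / 5) *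
      e23 - (3 / 5) * e28 - (3 / 5) * e29 - (1 / 5) * e33 - (1 / 5) * e34 - (4 / 5) * f_U_1_0_2
  have f_U_0_1_0 : U 0 1 0 = 0 := by
    linear_combination -e2 - e6 + e8 + e10 - 2 * e15 - e16 + e17 - e20 + e21 - e24 - 2 * e28 -
        e29 - f_U_1_0_2 - 2
      * f_U_0_2_0
  have f_U_1_1_1 : U 1 1 1 = 0 := by
    linear_combination e8 - e15 - e16 + e21 - e28 - e29 - 2 * f_U_0_2_0 - f_U_1_0_2
  have f_U_0_1_1 : U 0 1 1 = 0 := by
    linear_combination -e10 + e19 + e20 + f_U_1_0_2 + f_U_0_1_0 - f_U_1_1_1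
  have f_U_1_1_3 : U 1 1 3 = 0 := by
    linear_combination -(1 / 4) * e0 - (1 / 2) * e3 - (1 / 2) * e4 - (1 / 4) * e8 + (1 / 2) * e14
        + (1 / 4) * e15 -
      (1 / 2) * e24 - (1 / 2) * e25 + (1 / 2) * e27 - (1 / 2) * e32 + (3 / 4) * f_U_0_1_0 + (1 /
      2) * f_U_0_1_1 + (1 / 2) * f_U_1_1_1 + (3 / 4) * f_U_1_0_2
  have f_U_1_2_0 : U 1 2 0 = 0 := by
    linear_combination -e0 - e4 - e24 + f_U_0_2_0 + f_U_1_0_2
  have f_U_2_1_0 : U 2 1 0 = 0 := by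
    linear_combination e8 - e15 - f_U_1_0_2 + f_U_1_2_0 - f_U_0_2_0
  have f_U_1_1_0 : U 1 1 0 = 0 := by
    linear_combination (1 / 2) * e4 + (1 / 2) * e24 + (1 / 2) * f_U_0_1_0 + (1 / 2) * f_U_2_1_0 -
        (1 / 2) *
      f_U_1_0_2
  have f_U_2_0_2 : U 2 0 2 = 0 := by
    linear_combination e8 - e16 - e17 + e24 - e29 - f_U_1_0_2 - 2 * f_U_0_2_0
  have f_U_0_2_3 : U 0 2 3 = 0 := by
    linear_combination -e25 + f_U_0_1_0 - f_U_0_2_0
  have f_U_1_2_1 : U 1 2 1 = 0 := by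
    linear_combination -e11 + e14 - e33 + f_U_0_2_3 + f_U_0_1_0
  have f_U_2_1_1 : U 2 1 1 = 0 := by
    linear_combination -e22 + e23 - f_U_0_2_0 + f_U_1_2_1
  have f_U_2_2_0 : U 2 2 0 = 0 := by
    linear_combination -e16 - e29 + f_U_2_1_0 - f_U_0_2_0
  have f_U_1_0_0 : U 1 0 0 = 0 := by
    linear_combination e8 - f_U_0_2_0 - f_U_2_1_0
  have f_U_0_1_3 : U 0 1 3 = 0 := by
    linear_combination -e32 + f_U_0_1_1 + f_U_1_1_1
  have f_U_0_2_1 : U 0 2 1 = 0 := by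
    linear_combination e34 + f_U_0_2_3 - f_U_1_2_1
  have f_U_2_0_0 : U 2 0 0 = 0 := by
    linear_combination e24 + f_U_1_0_0 - f_U_1_0_2
  have f_U_2_1_2 : U 2 1 2 = 0 := by
    linear_combination e20 + f_U_0_1_0 - f_U_1_1_1
  have f_U_1_1_2 : U 1 1 2 = 0 := by
    linear_combination e26 + f_U_1_1_0 - f_U_2_1_0
  have f_U_0_1_2 : U 0 1 2 = 0 := by
    linear_combination -e6 + f_U_1_0_2 + 2 * f_U_1_1_2 - f_U_2_0_2 - f_U_2_1_2
  have f_U_0_0_0 : U 0 0 0 = 0 := by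
    linear_combination e9 - e18 + f_U_2_0_2 - f_U_0_2_1 - f_U_2_1_1
  have f_U_2_1_3 : U 2 1 3 = 0 := by
    linear_combination e14 + f_U_0_1_0
  have f_U_1_2_2 : U 1 2 2 = 0 := by
    linear_combination e21 - f_U_1_1_1
  have f_U_1_0_3 : U 1 0 3 = 0 := by
    linear_combination -e33 - f_U_1_2_1
  have f_U_1_0_1 : U 1 0 1 = 0 := by
    linear_combination e9 - f_U_0_2_1 - f_U_2_1_1
  have f_U_0_2_2 : U 0 2 2 = 0 := by
    linear_combination e19 - f_U_0_1_1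
  have f_U_1_2_3 : U 1 2 3 = 0 := by
    linear_combination -e27 + f_U_1_1_0 - f_U_1_2_0
  have f_U_2_0_3 : U 2 0 3 = 0 := by
    linear_combination e12 + f_U_0_0_0
  have f_U_2_2_2 : U 2 2 2 = 0 := by
    linear_combination e23 - f_U_2_1_1
  have f_U_2_2_3 : U 2 2 3 = 0 := by
    linear_combination e16 + f_U_0_2_0
  have f_U_0_0_2 : U 0 0 2 = 0 := by
    linear_combination -e13 + f_U_0_0_0 + f_U_0_2_0
  have f_U_0_0_3 : U 0 0 3 = 0 := by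
    linear_combination -e31 - f_U_0_2_1
  have f_U_2_0_1 : U 2 0 1 = 0 := by
    linear_combination -e5 - f_U_0_1_1 + f_U_1_0_1 + 2 * f_U_1_1_1 - f_U_2_1_1
  have f_U_2_2_1 : U 2 2 1 = 0 := by
    linear_combination -e35 - f_U_2_0_3
  have f_U_0_0_1 : U 0 0 1 = 0 := by
    linear_combination e30 + f_U_0_0_3 - f_U_1_0_1
  funext i0 i1 i2
  fin_cases i0 <;> fin_cases i1 <;> fin_cases i2
  all_goals first
    | exact f_U_0_0_0
    | exact f_U_0_0_1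
    | exact f_U_0_0_2
    | exact f_U_0_0_3
    | exact f_U_0_1_0
    | exact f_U_0_1_1
    | exact f_U_0_1_2
    | exact f_U_0_1_3
    | exact f_U_0_2_0
    | exact f_U_0_2_1
    | exact f_U_0_2_2
    | exact f_U_0_2_3
    | exact f_U_1_0_0
    | exact f_U_1_0_1
    | exact f_U_1_0_2
    | exact f_U_1_0_3
    | exact f_U_1_1_0
    | exact f_U_1_1_1
    | exact f_U_1_1_2
    | exact f_U_1_1_3
    | exact f_U_1_2_0
    | exact f_U_1_2_1
    | exact f_U_1_2_2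
    | exact f_U_1_2_3
    | exact f_U_2_0_0
    | exact f_U_2_0_1
    | exact f_U_2_0_2
    | exact f_U_2_0_3
    | exact f_U_2_1_0
    | exact f_U_2_1_1
    | exact f_U_2_1_2
    | exact f_U_2_1_3
    | exact f_U_2_2_0
    | exact f_U_2_2_1
    | exact f_U_2_2_2
    | exact f_U_2_2_3

/-- table -/
def TS (y : Fin 4 → κ) : Fin 3 → Fin 3 → Fin 4 → κ :=
  ![![![y 0, y 1, y 2, y 3],
      ![0, 0, 0, 0],
      ![0, 0, 0, 0]],
    ![![0, 0, 0, 0],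
      ![y 0, y 1, y 2, y 3],
      ![0, 0, 0, 0]],
    ![![0, 0, 0, 0],
      ![0, 0, 0, 0],
      ![y 0, y 1, y 2, y 3]]]

theorem tTS (y : Fin 4 → κ) (a : Fin 3) (c : Fin 3) (b : Fin 4) :
    (if c = a then y b else 0) =
      TS y a c b := by
  fin_cases a <;> fin_cases c <;> fin_cases b <;>
    simp [TS] <;> ring

theorem rsz : RSZ (gA κ) := by
  intro y h
  simp only [tTS] at h
  obtain ⟨q0_0, q0_1, q0_2, q0_3, q0_4, q0_5, q0_6, q0_7⟩ := inspA (h 0)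
  obtain ⟨q1_0, q1_1, q1_2, q1_3, q1_4, q1_5, q1_6, q1_7⟩ := inspA (h 1)
  obtain ⟨q2_0, q2_1, q2_2, q2_3, q2_4, q2_5, q2_6, q2_7⟩ := inspA (h 2)
  have e15 : (0) - (0) + (y 1) + (0) = 0 := q1_7
  have e20 : (0) + (y 0) = 0 := q2_4
  have e22 : (0) - (0) + (y 2) = 0 := q2_6
  have e23 : (0) - (0) + (0) + (y 3) = 0 := q2_7
  have f_y_0 : y 0 = 0 := by
    linear_combination e20
  have f_y_2 : y 2 = 0 := by
    linear_combination e22
  have f_y_1 : y 1 = 0 := by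
    linear_combination e15
  have f_y_3 : y 3 = 0 := by
    linear_combination e23
  funext i0
  fin_cases i0
  all_goals first
    | exact f_y_0
    | exact f_y_1
    | exact f_y_2
    | exact f_y_3

end

end F4

end Pool.Agent.VCU
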