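import Pool.Agent.VCU.F4C
import Pool.Agent.VCU.F4E

/-!
# The finite facts, s = 4
-/

set_option autoImplicit false

namespace Pool.Agent.VCU

open Pool.Agent.VCC Pool.Agent.VCT

universe u

open F4 in
theorem p_FIN4 : T_FIN4.{u} := by
  refine ⟨fA, fB, fL, fun κ _ _ => ⟨dA κ, dB κ, dL κ, kk κ, ?_⟩⟩
  have eA := castA (κ := κ)
  have eB := castB (κ := κ)
  have eL := castL (κ := κ)
  constructor
  · intro b; fin_cases b <;> rfl
  · intro τ b; fin_cases τ; fin_cases b <;> rfl
  · intro τ b; fin_cases τ <;> fin_cases b <;> rfl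
  · intro ν h
    have h1 := h 0 1 (by decide)
    simp [qs, qz4] at h1
    funext i
    fin_cases i
    exact h1
  · intro ν h
    have h1 := h 0 1 (by decide)
    have h2 := h 2 3 (by decide)
    simp [qs, qz4', Fin.sum_univ_two] at h1 h2
    rw [h2, zero_add] at h1
    funext i
    fin_cases i
    · exact h2
    · exact h1
  · intro τ; fin_cases τ; exact ⟨0, rfl⟩
  · rw [eA]; exact okA
  · rw [eB]; exact okB
  · rw [eL]; exact okL
  · exact kok
  · rw [eL]; exact loc
  · rw [eA]; exact liA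
  · rw [eB]; exact liB
  · rw [eL]; exact liL
  · rw [eA]; exact n1A
  · rw [eB]; exact n1B
  · rw [eL]; exact n1L
  · rw [eA]; exact n2A
  · rw [eB]; exact n2B
  · rw [eL]; exact n2L
  · exact n3
  · rw [eA, eB]; exact n4
  · rw [eA, eB]; exact coreL
  · rw [eA, eB]; exact coreZ
  · rw [eL]; exact outZ
  · rw [eA, eB]; exact coreQ
  · rw [eA]; exact rsz

end Pool.Agent.VCU
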