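import Pool.Agent.VCU.GU

/-!
# Target `T_FOK`: the data of the special family
-/

set_option autoImplicit false

namespace Pool.Agent.VCU

open Pool.Agent.VCC Pool.Agent.VCT HilbPts Pool.Agent.VCT.SP_

universe u

namespace FOK_

section

variable {R : Type*} [CommRing R] {m : ℕ} {l a : Fin m}

theorem wF_lt {i j : Fin m} (h : ow l a i < ow l a j) :
    wF R l a i j = wlo R ∧ wF R l a j i = tr (wlo R) := by
  constructor
  · simp [wF, h]
  · simp [wF, h, not_lt_of_gt h]

theorem zF_lt {i j : Fin m} (h : ow l a i < ow l a j) :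
    zF R l a i j = Zlo R ∧ zF R l a j i = Zol R := by
  constructor
  · simp [zF, h]
  · simp [zF, h, not_lt_of_gt h]

theorem zok (l a : Fin m) : ZOK (wF R l a) (zF R l a) := by
  intro i j hij u x e
  rcases lt_or_gt_of_ne (GU_.ow_ne l a hij) with h | h
  · rw [(wF_lt h).1, (zF_lt h).1]
    exact ez_lo u x e
  · rw [(wF_lt h).2, (zF_lt h).2]
    exact ez_ol u x e

theorem pick2 {α β : Type*} {p : α → β → Prop} (l a : Fin m) {A B L : α} {A' B' L' : β}
    (hA : p A A') (hB : p B B') (hL : p L L') (i : Fin m) :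
    p (pick l a A B L i) (pick l a A' B' L' i) := by
  unfold pick
  split_ifs <;> assumption

end

end FOK_

open FOK_ in
theorem p_FOK : T_FOK.{u} := by
  intro m s t κ _ _ hz qz A B L dA dB dL k hA hB hL hk l a hla
  have ok : ∀ i, BDOK (pick l a A B L i) hz qz (pick l a dA dB dL i) :=
    pick2 (p := fun v d => BDOK v hz qz d) l a hA hB hL
  exact ⟨GU_.wF_sym l a, fun i j hij => GU_.D2_wF l a i j hij, zok l a, fun i => (ok i).y,
    fun i => (ok i).r, hk, fun i => (ok i).p⟩

end Pool.Agent.VCU
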