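import Pool.Agent.VCU.Targets2

/-!
# The special families: the class `e_l + e_a + e_Z`
-/

set_option autoImplicit false

namespace Pool.Agent.VCU

open Pool.Agent.VCC Pool.Agent.VCT Pool.Agent.VCT.SP_

universe u

theorem p_FQ : T_FQ.{u} := by
  intro m s t κ _ _ A B L dA dB dL k hC l a hla F1 F2 F3 h
  have o1 : ow l a l = 0 := by simp [ow]
  have o2 : ow l a a = 1 := by simp [ow, hla.symm]
  have w1 : wF κ l a l a = wlo κ := by simp [wF, o1, o2]
  have z1 : zF κ l a l a = Zlo κ := by simp [zF, o1, o2]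
  have z2 : zF κ l a a l = Zol κ := by simp [zF, o1, o2]
  have pa : ∀ {α : Type u} (x y z : α), pick l a x y z l = x := by
    intro α x y z; simp [pick]
  have pb : ∀ {α : Type u} (x y z : α), pick l a x y z a = y := by
    intro α x y z; simp [pick, hla.symm]
  obtain ⟨hx, hy, hzz, hpi, hpj⟩ := h
  simp only [dF, vF, w1, z1, z2, pa, pb] at hx hy hzz hpi hpj
  exact hC F1 F2 F3 hx hy hzz hpi hpj

end Pool.Agent.VCU
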