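import Pool.Agent.VCT.Targets

/-!
# Existence of places with surjective residue map
-/

set_option autoImplicit false

namespace Pool.Agent.VCU

open Pool.Agent.VCT

universe u

theorem exists_place (R K F : Type u) [CommRing R] [Field K] [Field F] (ρ : R →+* K)
    (e : R →+* F) (hρ : Function.Injective ρ) (he : Function.Surjective e) :
    ∃ (κ : Type u) (_ : Field κ) (P : Place K κ) (ι : F →+* κ), Function.Surjective P.r ∧
      ∀ x, ∃ h : ρ x ∈ P.B, P.r ⟨ρ x, h⟩ = ι (e x) := by
  let A : Subring K := ρ.range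
  let ρ' : R →+* A := ρ.rangeRestrict
  have hs : Function.Surjective ρ' := ρ.rangeRestrict_surjective
  let I : Ideal A := (RingHom.ker e).map ρ'
  have hI : I ≠ ⊤ := by
    intro h
    have h1 : (1 : A) ∈ I := by rw [h]; trivial
    rw [Ideal.mem_map_iff_of_surjective ρ' hs] at h1
    obtain ⟨x, hx, hx1⟩ := h1
    have h2 : ρ x = ρ 1 := by
      rw [map_one]
      exact congrArg Subtype.val hx1
    have h3 : x = 1 := hρ h2
    rw [h3, RingHom.mem_ker, map_one] at hx
    exact one_ne_zero hx
  obtain ⟨B, hAB, hB⟩ := Ideal.image_subset_nonunits_valuationSubring I hI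
  let r : B →+* IsLocalRing.ResidueField B := IsLocalRing.residue B
  let j : R →+* B := ρ.codRestrict B.toSubring fun x => hAB ⟨x, rfl⟩
  have hker : ∀ x ∈ RingHom.ker e, (r.comp j) x = 0 := by
    intro x hx
    have h1 : (ρ' x : K) ∈ B.nonunits := hB ⟨ρ' x, Ideal.mem_map_of_mem _ hx, rfl⟩
    have h2 : j x ∈ IsLocalRing.maximalIdeal B := by
      rw [← SetLike.mem_coe, ← ValuationSubring.image_maximalIdeal] at h1
      obtain ⟨y, hy, hy1⟩ := h1
      have : y = j x := Subtype.ext hy1
      rw [← this]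
      exact hy
    exact (IsLocalRing.residue_eq_zero_iff _).mpr h2
  let ι : F →+* IsLocalRing.ResidueField B :=
    (Ideal.Quotient.lift (RingHom.ker e) (r.comp j) hker).comp
      (RingHom.quotientKerEquivOfSurjective he).symm.toRingHom
  refine ⟨IsLocalRing.ResidueField B, inferInstance, ⟨B, r, fun b hb => ?_⟩, ι,
    IsLocalRing.residue_surjective, fun x => ?_⟩
  · exact (IsLocalRing.residue_eq_zero_iff _).mpr ((IsLocalRing.mem_maximalIdeal _).mpr hb)
  · refine ⟨hAB ⟨x, rfl⟩, ?_⟩
    have h1 : (RingHom.quotientKerEquivOfSurjective he).symm (e x) = Ideal.Quotient.mk _ x := by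
      rw [RingEquiv.symm_apply_eq]
      rfl
    change r (j x) = Ideal.Quotient.lift (RingHom.ker e) (r.comp j) hker
      ((RingHom.quotientKerEquivOfSurjective he).symm (e x))
    rw [h1, Ideal.Quotient.lift_mk]
    rfl

end Pool.Agent.VCU
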