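import Pool.Agent.VCU.Targets
import Pool.Agent.VCU.PLACES

/-!
# Generic forms exist
-/

set_option autoImplicit false

namespace Pool.Agent.VCU

open Pool.Agent.VCC Pool.Agent.VCT

universe u

namespace GENXU_

/-- index set of the coefficients of `w` -/
abbrev I1 (m : ℕ) : Type := Fin m × Fin m × Fin 3 × Fin 3 × Fin 3

/-- index set of the coefficients of `v` -/
abbrev I2 (m s : ℕ) : Type := Fin m × Fin s × Fin 3 × Fin s

/-- polynomial ring in the coefficients -/
abbrev Rg (m s : ℕ) (k : Type u) [Field k] : Type u := MvPolynomial (I1 m ⊕ I2 m s) k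

/-- generic forms `w` -/
noncomputable def gw (m s : ℕ) (k κ : Type u) [Field k] [Field κ] (ρ : Rg m s k →+* κ) :
    Arr m κ := fun i j c a b =>
  if i < j then ρ (MvPolynomial.X (Sum.inl (i, j, c, a, b))) else
    if j < i then ρ (MvPolynomial.X (Sum.inl (j, i, c, b, a))) else 0

/-- generic forms `v` -/
noncomputable def gv (m s : ℕ) (k κ : Type u) [Field k] [Field κ] (ρ : Rg m s k →+* κ) :
    VArr m s κ := fun i d a b => ρ (MvPolynomial.X (Sum.inr (i, d, a, b)))

end GENXU_

open GENXU_

theorem genericU_of_injective (m s : ℕ) (k κ : Type u) [Field k] [Field κ]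
    (ρ : Rg m s k →+* κ) (hρ : Function.Injective ρ) :
    GenericU k κ (gw m s k κ ρ) (gv m s k κ ρ) := by
  refine ⟨⟨fun i => by funext c a b; simp [gw], fun i j => ?_⟩, fun w' v' hw => ?_⟩
  · funext c a b
    simp only [tr, gw]
    rcases lt_trichotomy i j with h | h | h
    · rw [if_neg (lt_asymm h), if_pos h, if_pos h]
    · subst h; simp
    · rw [if_pos h, if_neg (lt_asymm h), if_pos h]
  · let e : Rg m s k →+* k := MvPolynomial.eval
      (Sum.elim (fun x => w' x.1 x.2.1 x.2.2.1 x.2.2.2.1 x.2.2.2.2)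
        (fun x => v' x.1 x.2.1 x.2.2.1 x.2.2.2))
    have he : Function.Surjective e := fun x => ⟨MvPolynomial.C x, by simp [e]⟩
    obtain ⟨κ', hκ, P, ι, hsur, hP⟩ := exists_place _ κ k ρ e hρ he
    refine ⟨κ', hκ, P, ι, hsur, fun i j c a b => ?_, fun i d a b => ?_⟩
    · rcases lt_trichotomy i j with h | h | h
      · obtain ⟨h1, h2⟩ := hP (MvPolynomial.X (Sum.inl (i, j, c, a, b)))
        simp only [gw, if_pos h]
        refine ⟨h1, ?_⟩
        rw [h2]
        simp [e]
      · subst h
        simp only [gw, lt_irrefl, if_false]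
        refine ⟨P.B.zero_mem, ?_⟩
        have : w' i i = 0 := hw.1 i
        rw [show (⟨0, P.B.zero_mem⟩ : P.B) = 0 from rfl, map_zero, this]
        simp
      · obtain ⟨h1, h2⟩ := hP (MvPolynomial.X (Sum.inl (j, i, c, b, a)))
        simp only [gw, if_neg (lt_asymm h), if_pos h]
        refine ⟨h1, ?_⟩
        rw [h2, hw.2 j i]
        simp [e, tr]
    · obtain ⟨h1, h2⟩ := hP (MvPolynomial.X (Sum.inr (i, d, a, b)))
      refine ⟨h1, ?_⟩
      rw [show P.r ⟨gv m s k κ ρ i d a b, h1⟩ = P.r ⟨_, h1⟩ from rfl]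
      refine h2.trans ?_
      simp [e]

theorem p_GENXU : T_GENXU.{u} := by
  intro m s k _ _
  refine ⟨FractionRing (Rg m s k), inferInstance, inferInstance,
    gw m s k _ (algebraMap (Rg m s k) (FractionRing (Rg m s k))),
    gv m s k _ (algebraMap (Rg m s k) (FractionRing (Rg m s k))), ?_⟩
  exact genericU_of_injective m s k _ _ (IsFractionRing.injective _ _)

end Pool.Agent.VCU
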