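import Pool.Agent.VCU.Targets

/-!
# Target `T_GRD`: it suffices to treat the classes
-/

set_option autoImplicit false

namespace Pool.Agent.VCU

open Pool.Agent.VCC Pool.Agent.VCT HilbPts

universe u

namespace GRD_

variable {K : Type u} [Field K] {ι G : Type} [AddCommGroup G] [DecidableEq G]

/-- homogeneous part of class `ψ` of a trilinear form -/
def part (cl : ι → G) (ψ : G) (T : ι → ι → ι → K) (x y z : ι) : K :=
  if cl x + cl y + cl z = ψ then T x y z else 0

theorem part_tsym (cl : ι → G) (ψ : G) {T : ι → ι → ι → K} (hT : TSym T) :
    TSym (part cl ψ T) := by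
  refine ⟨fun x y z => ?_, fun x y z => ?_⟩
  · have h : cl x + cl y + cl z = cl y + cl x + cl z := by rw [add_comm (cl x) (cl y)]
    simp only [part, h, hT.1 x y z]
  · have h : cl x + cl y + cl z = cl x + cl z + cl y := by abel
    simp only [part, h, hT.2 x y z]

theorem part_hom (cl : ι → G) (ψ : G) (T : ι → ι → ι → K) : HomT cl ψ (part cl ψ T) := by
  intro x y z h
  by_contra hne
  exact h (if_neg hne)

theorem part_slice (cl : ι → G) (ψ : G) {T : ι → ι → ι → K} {𝓕 : Submodule K (ι → ι → K)}
    (hg : Graded cl 𝓕) (hT : ∀ x, T x ∈ 𝓕) (x : ι) : part cl ψ T x ∈ 𝓕 := by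
  have h := hg (T x) (hT x) (ψ - cl x)
  have e : part cl ψ T x = fun y z => if cl y + cl z = ψ - cl x then T x y z else 0 := by
    funext y z
    have h1 : (cl x + cl y + cl z = ψ) ↔ (cl y + cl z = ψ - cl x) := by
      constructor
      · intro h; rw [← h]; abel
      · intro h; rw [add_assoc, h]; abel
    simp only [part, h1]
  rw [e]
  exact h

/-- homogeneous part of class `χ` of a linear map -/
def lpart (cl : ι → G) (χ : G) (lam : ι → ι → ι → K) (t y z : ι) : K :=
  if cl y + cl z = cl t + χ then lam t y z else 0

theorem lpart_hom (cl : ι → G) (χ : G) (lam : ι → ι → ι → K) :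
    HomL cl χ (lpart cl χ lam) := by
  intro t y z h
  by_contra hne
  exact h (if_neg hne)

theorem lpart_sum [Fintype G] (cl : ι → G) (lam : ι → ι → ι → K) (t y z : ι) :
    ∑ χ, lpart cl χ lam t y z = lam t y z := by
  rw [Finset.sum_eq_single (cl y + cl z - cl t)]
  · unfold lpart
    rw [if_pos]
    abel
  · intro χ _ hne
    unfold lpart
    rw [if_neg]
    intro h
    apply hne
    rw [h]
    abel
  · intro h
    exact absurd (Finset.mem_univ _) h

omit [AddCommGroup G] [DecidableEq G] in
theorem transl_sum [DecidableEq ι] [Fintype G] (v : G → ι → K) (t y z : ι) :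
    ∑ χ, transl (v χ) t y z = transl (fun s => ∑ χ, v χ s) t y z := by
  simp only [transl, Finset.sum_add_distrib, Finset.sum_mul]

end GRD_

open GRD_

theorem p_GRD : T_GRD.{u} := by
  intro K _ ι G _ _ _ _ _ cl Ψ 𝓕min 𝓕max
  refine ⟨fun hg hn T hT hs x y z => ?_, fun hgmin hgmax hC => ?_⟩
  · have h := hn (cl x + cl y + cl z) (part cl (cl x + cl y + cl z) T)
      (part_tsym cl _ hT) (part_hom cl _ T) (part_slice cl _ hg hs) x y z
    unfold part at h
    rwa [if_pos rfl] at h
  · intro lam hsym hH
    have key : ∀ χ, ∃ v : ι → K, (∀ t, v t ≠ 0 → cl t = χ) ∧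
        ∀ t, (fun y z => lpart cl χ lam t y z - transl v t y z) ∈ 𝓕max := by
      intro χ
      refine hC χ (lpart cl χ lam) (fun t y z => ?_) (lpart_hom cl χ lam) ?_
      · have h : cl y + cl z = cl z + cl y := add_comm _ _
        simp only [lpart, h, hsym t y z]
      · intro c _ F hF hFc
        obtain ⟨G', hG1, hG2⟩ := hH F hF
        refine ⟨part cl (c + χ) G', part_slice cl _ hgmax hG1, part_hom cl _ G', ?_⟩
        have e : (fun x y z => (∑ t, F x t * lpart cl χ lam t y z) + part cl (c + χ) G' x y z) =
            part cl (c + χ) (fun x y z => (∑ t, F x t * lam t y z) + G' x y z) := by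
          funext x y z
          unfold part
          by_cases h : cl x + cl y + cl z = c + χ
          · rw [if_pos h, if_pos h]
            congr 1
            refine Finset.sum_congr rfl fun t _ => ?_
            by_cases hF0 : F x t = 0
            · rw [hF0, zero_mul, zero_mul]
            · have hc := hFc x t hF0
              unfold lpart
              rw [if_pos]
              rw [← hc] at h
              have h2 : cl x + (cl y + cl z) = cl x + (cl t + χ) := by
                rw [← add_assoc, h]
                abel
              exact add_left_cancel h2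
          · rw [if_neg h, if_neg h, add_zero]
            refine Finset.sum_eq_zero fun t _ => ?_
            by_cases hF0 : F x t = 0
            · rw [hF0, zero_mul]
            · have hc := hFc x t hF0
              unfold lpart
              rw [if_neg, mul_zero]
              intro h2
              apply h
              rw [add_assoc, h2, ← add_assoc, hc]
        rw [e]
        exact part_tsym cl _ hG2
    choose v hv1 hv2 using key
    refine ⟨fun s => ∑ χ, v χ s, fun t => ?_⟩
    have e : (fun y z => lam t y z - transl (fun s => ∑ χ, v χ s) t y z) =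
        ∑ χ, (fun y z => lpart cl χ lam t y z - transl (v χ) t y z) := by
      funext y z
      rw [Finset.sum_apply, Finset.sum_apply, Finset.sum_sub_distrib, lpart_sum, transl_sum]
    rw [e]
    exact Submodule.sum_mem _ fun χ _ => hv2 χ t

end Pool.Agent.VCU
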