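import Pool.Agent.VCU.Targets

set_option autoImplicit false

/-!
# Target `T_GRZ`

The annihilator of `W` is graded.
-/

namespace Pool.Agent.VCU

open Pool.Agent.VCC Pool.Agent.VCT

universe u

namespace GRZ_

lemma ei_add_self {m : ℕ} (i : Fin m) : (ei i + ei i : Cl m) = 0 := by
  funext x
  exact CharTwo.add_self_eq_zero _

lemma eZ_add_self {m : ℕ} : (eZ + eZ : Cl m) = 0 := by
  funext x
  exact CharTwo.add_self_eq_zero _

end GRZ_

open GRZ_ in
theorem p_GRZ : T_GRZ.{u} := by
  intro m s t K _ w v hz qz F hF c
  have hF' : InFZ w v hz qz F := hF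
  obtain ⟨h1, h2, h3, h4, h5, h6⟩ := hF'
  change InFZ w v hz qz _
  constructor
  · intro x y
    simp only [add_comm (clz x) (clz y), h1 x y]
  · intro x
    simp only [h2 x, ite_self]
  · intro i j hij d
    have h := h3 i j hij d
    by_cases hc : (ei i + ei j : Cl m) = c
    · simpa only [clz, hc, if_true] using h
    · simp only [clz, hc, if_false, mul_zero, Finset.sum_const_zero]
  · intro i d
    have h := h4 i d
    by_cases hc : (ei i + eZ : Cl m) = c
    · simpa only [clz, hc, if_true] using h
    · simp only [clz, hc, if_false, mul_zero, Finset.sum_const_zero]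
  · intro τ
    have h := h5 τ
    by_cases hc : (eZ + eZ : Cl m) = c
    · simpa only [clz, hc, if_true] using h
    · simp only [clz, hc, if_false, mul_zero, Finset.sum_const_zero]
  · by_cases hc : (0 : Cl m) = c
    · simpa only [clz, ei_add_self, eZ_add_self, hc, if_true] using h6
    · simp only [clz, ei_add_self, eZ_add_self, hc, if_false, mul_zero, Finset.sum_const_zero,
        add_zero]

end Pool.Agent.VCU
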