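import Pool.Agent.VCU.Targets2

/-!
# Target `T_GU`: generic forms are good

Generic forms are specialised to the families `wF l a` and `wsp l p q`, the properties of the
classes are transported by semicontinuity.
-/

set_option autoImplicit false

namespace Pool.Agent.VCU

open Pool.Agent.VCC Pool.Agent.VCT HilbPts Pool.Agent.VCT.SP_

universe u

namespace GU_

section Ring

variable {R S : Type*} [CommRing R] [CommRing S] {m s : ℕ}

theorem ow_ne (l a : Fin m) {i j : Fin m} (h : i ≠ j) : ow l a i ≠ ow l a j := by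
  unfold ow
  split_ifs <;> intro h0 <;> omega

theorem wF_sym (l a : Fin m) : WSym (wF R l a) := by
  refine ⟨fun i => ?_, fun i j => ?_⟩
  · simp [wF]
  · unfold wF
    rcases lt_trichotomy (ow l a i) (ow l a j) with h | h | h
    · rw [if_pos h, if_neg (asymm h), if_pos h]
    · have h1 : ¬ ow l a j < ow l a i := h.le.not_gt
      have h2 : ¬ ow l a i < ow l a j := h.ge.not_gt
      simp only [if_neg h1, if_neg h2]
      rfl
    · rw [if_pos h, if_neg (asymm h), if_pos h]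
      rfl

theorem wlo_map (φ : R →+* S) (c a b : Fin 3) : φ (wlo R c a b) = wlo S c a b := by
  fin_cases c <;> fin_cases a <;> fin_cases b <;> simp [wlo, map_ofNat φ 2]

theorem wF_map (φ : R →+* S) (l a : Fin m) : Arr.map φ (wF R l a) = wF S l a := by
  funext i j c x y
  change φ (wF R l a i j c x y) = wF S l a i j c x y
  unfold wF
  split_ifs
  · exact wlo_map φ _ _ _
  · exact wlo_map φ _ _ _
  · exact map_zero φ

theorem wsp_map (φ : R →+* S) (l p q : Fin m) : Arr.map φ (wsp R l p q) = wsp S l p q := by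
  funext i j c x y
  exact GEN_.wsp_map φ l p q i j c x y

theorem castV_map (φ : R →+* S) (A : VFm s ℤ) (d : Fin s) (a : Fin 3) (b : Fin s) :
    φ (castV R A d a b) = castV S A d a b := by
  simp [castV]

theorem vF_map (φ : R →+* S) (l a : Fin m) (A B L : VFm s ℤ) :
    VArr.map φ (vF l a (castV R A) (castV R B) (castV R L)) =
      vF l a (castV S A) (castV S B) (castV S L) := by
  funext i d x y
  change φ (vF l a (castV R A) (castV R B) (castV R L) i d x y) = _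
  unfold vF pick
  split_ifs
  · exact castV_map φ _ _ _ _
  · exact castV_map φ _ _ _ _
  · exact castV_map φ _ _ _ _

theorem cst_map (φ : R →+* S) (L : VFm s ℤ) :
    VArr.map φ (fun _ : Fin m => castV R L) = fun _ => castV S L := by
  funext i d x y
  exact castV_map φ _ _ _ _

theorem LI3_of_D2 {w : Frm R} (h : D2 w) : LI3 w := by
  intro y hy
  have h1 := h (fun _ c => y c) fun a e => by
    unfold L2
    rw [Finset.sum_add_distrib, hy, hy, add_zero]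
  exact congrFun h1 0

theorem pick_l {α : Type*} (l a : Fin m) (A B L : α) : pick l a A B L l = A := by
  simp [pick]

theorem pick_a {α : Type*} {l a : Fin m} (h : l ≠ a) (A B L : α) : pick l a A B L a = B := by
  simp [pick, h.symm]

theorem pick_all {α : Type*} {p : α → Prop} (l a : Fin m) {A B L : α} (hA : p A) (hB : p B)
    (hL : p L) (i : Fin m) : p (pick l a A B L i) := by
  unfold pick
  split_ifs <;> assumption

theorem ow_l (l a : Fin m) : ow l a l = 0 := by simp [ow]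

theorem ow_a {l a : Fin m} (h : l ≠ a) : ow l a a = 1 := by simp [ow, h.symm]

theorem wF_l {l a j : Fin m} (h : l ≠ j) : wF R l a l j = wlo R := by
  have h1 := ow_ne l a h
  rw [ow_l] at h1
  unfold wF
  rw [ow_l, if_pos (Nat.pos_of_ne_zero h1.symm)]

theorem wF_l' {l a j : Fin m} (h : l ≠ j) : wF R l a j l = tr (wlo R) := by
  have h1 := ow_ne l a h
  rw [ow_l] at h1
  unfold wF
  rw [ow_l, if_neg (Nat.not_lt_zero _), if_pos (Nat.pos_of_ne_zero h1.symm)]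

theorem D2_wF {κ : Type u} [Field κ] [CharZero κ] (l a i j : Fin m) (hij : i ≠ j) :
    D2 (wF κ l a i j) := by
  have h0 := ow_ne l a hij
  unfold wF
  split_ifs with h1 h2
  · exact d2_lo
  · exact d2_ol
  · omega

end Ring

/-- linear independence can be checked at the place -/
theorem LI_red {K κ : Type u} [Field K] [Field κ] (P : Place K κ) {n : ℕ} {J : Type}
    (M : Fin n → J → P.B)
    (h : ∀ y : Fin n → κ, (∀ j, ∑ c, y c * P.r (M c j) = 0) → y = 0)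
    (y : Fin n → K) (hy : ∀ j, ∑ c, y c * P.B.subtype (M c j) = 0) : y = 0 := by
  by_contra hne
  have hne' : ∃ c, y c ≠ 0 := by
    by_contra h0
    push Not at h0
    exact hne (funext h0)
  obtain ⟨t, ht, x, hx, c0, hc0⟩ := (p_PRIM K κ P (Fin n) y).1 hne'
  have h1 : ∀ j, ∑ c, x c * M c j = 0 := by
    intro j
    apply Subtype.ext
    have h2 : ((∑ c, x c * M c j : P.B) : K) = t * ∑ c, y c * P.B.subtype (M c j) := by
      rw [Finset.mul_sum]
      have h3 : ((∑ c, x c * M c j : P.B) : K) = ∑ c, P.B.subtype (x c * M c j) :=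
        map_sum P.B.subtype _ _
      rw [h3]
      refine Finset.sum_congr rfl fun c _ => ?_
      rw [map_mul, ← mul_assoc, hx c]
      rfl
    rw [h2, hy j, mul_zero]
    rfl
  have h2 := h (fun c => P.r (x c)) fun j => by
    have h3 := congrArg P.r (h1 j)
    rw [map_sum, map_zero] at h3
    simpa only [map_mul] using h3
  have h3 := congrFun h2 c0
  simp only [hc0, map_one, Pi.zero_apply] at h3
  exact one_ne_zero h3

section Trans

variable {m s t t' : ℕ} {hz : Fin s → Fin s → ℤ} {qz : Fin t → Fin s → Fin s → ℤ}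
  {qz' : Fin t' → Fin s → Fin s → ℤ} {A B L : VFm s ℤ}

theorem FZ_le (hs : ∀ τ, ∃ τ', qz τ = qz' τ') {K : Type u} [Field K] (w : Arr m K)
    (v : VArr m s K) : FZ w v hz qz' ≤ FZ w v hz qz := by
  intro F hF
  have hF' : InFZ w v hz qz' F := hF
  refine ⟨hF'.symm, hF'.diag, hF'.w, hF'.v, fun τ => ?_, hF'.h⟩
  obtain ⟨τ', hτ⟩ := hs τ
  rw [hτ]
  exact hF'.q τ'

/-- what is transported -/
theorem transfer (h2 : T_SC.{u}) (h3 : T_GRZ.{u}) (h4 : T_SPEC.{u}) (hm : 0 < m)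
    (hF : ∀ (κ : Type u) [Field κ] [CharZero κ],
      ∃ dA dB dL k, FinOK κ hz qz qz' A B L dA dB dL k)
    {k κ : Type u} [Field k] [Field κ] [CharZero k] {w : Arr m κ} {v : VArr m s κ}
    (hG : GenericU k κ w v) (W : Arr m k) (V : VArr m s k) (hW : WSym W)
    (hLI3 : ∀ (κ' : Type u) [Field κ'] [CharZero κ'] (ι : k →+* κ') (i j : Fin m), i ≠ j →
      LI3 (Arr.map ι W i j))
    (hLIv : ∀ (κ' : Type u) [Field κ'] [CharZero κ'] (ι : k →+* κ') (i : Fin m),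
      LIv (VArr.map ι V i)) :
    ∃ (κ' : Type u) (_ : Field κ') (_ : CharZero κ') (ι : k →+* κ'),
      (∀ ψ, NCC clz ψ (FZ (Arr.map ι W) (VArr.map ι V) hz qz) → NCC clz ψ (FZ w v hz qz)) ∧
      (RowSpan (FZ (Arr.map ι W) (VArr.map ι V) hz qz') → RowSpan (FZ w v hz qz')) ∧
      (∀ χ, (∀ ψ, Psi ψ → NCC clz ψ (FZ (Arr.map ι W) (VArr.map ι V) hz qz)) →
        T1C clz Psi χ (FZ (Arr.map ι W) (VArr.map ι V) hz qz')
          (FZ (Arr.map ι W) (VArr.map ι V) hz qz) →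
        T1C clz Psi χ (FZ w v hz qz') (FZ w v hz qz)) ∧
      (∀ i j, i ≠ j → LI3 (w i j)) ∧ ∀ i, LIv (v i) := by
  obtain ⟨κ', hκ, P, ι, hsur, hw, hv⟩ := hG.2 W V hW
  have hc : CharZero κ' := charZero_of_injective_ringHom ι.injective
  choose hw1 hw2 using hw
  choose hv1 hv2 using hv
  obtain ⟨dA, dB, dL, kk, ok⟩ := hF κ'
  let w' : Arr m P.B := fun i j c a b => ⟨w i j c a b, hw1 i j c a b⟩
  let v' : VArr m s P.B := fun i d a b => ⟨v i d a b, hv1 i d a b⟩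
  have ew : Arr.map P.r w' = Arr.map ι W := by
    funext i j c a b
    exact hw2 i j c a b
  have ev : VArr.map P.r v' = VArr.map ι V := by
    funext i d a b
    exact hv2 i d a b
  have hw' : WSym w' := by
    refine ⟨fun i => ?_, fun i j => ?_⟩
    · funext c a b
      exact Subtype.ext (congrFun (congrFun (congrFun (hG.1.1 i) c) a) b)
    · funext c a b
      exact Subtype.ext (congrFun (congrFun (congrFun (hG.1.2 i j) c) a) b)
  have l3 : ∀ i j, i ≠ j → LI3 (Arr.map P.r w' i j) := by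
    rw [ew]
    exact hLI3 κ' ι
  have lv : ∀ i, LIv (VArr.map P.r v' i) := by
    rw [ev]
    exact hLIv κ' ι
  have s1 := h4 m s t κ κ' P w' v' hz qz hsur hm hw' ok.hzs ok.qzs ok.liq l3 lv
  have s2 := h4 m s t' κ κ' P w' v' hz qz' hsur hm hw' ok.hzs ok.qzs' ok.liq' l3 lv
  rw [ew, ev] at s1 s2
  have e1 : Arr.map P.B.subtype w' = w := rfl
  have e2 : VArr.map P.B.subtype v' = v := rfl
  rw [e1, e2] at s1 s2
  obtain ⟨g1, g2, g3⟩ := h2 κ κ' P (IZ m s) (Cl m) clz Psi (FZ w v hz qz') (FZ w v hz qz)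
    (FZ (Arr.map ι W) (VArr.map ι V) hz qz') (FZ (Arr.map ι W) (VArr.map ι V) hz qz)
    hsur s2 s1 (h3 m s t' κ w v hz qz') (h3 m s t κ w v hz qz) (FZ_le ok.sub w v)
    (fun F hF => InFZ.symm hF)
  refine ⟨κ', hκ, hc, ι, g1, g2, g3, fun i j hij y hy => ?_, fun i y hy => ?_⟩
  · refine LI_red P (J := Fin 3 × Fin 3) (fun c x => w' i j c x.1 x.2) ?_ y ?_
    · intro y hy
      exact l3 i j hij y fun a b => hy (a, b)
    · intro x
      exact hy x.1 x.2
  · refine LI_red P (J := Fin 3 × Fin s) (fun d x => v' i d x.1 x.2) ?_ y ?_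
    · intro y hy
      exact lv i y fun a b => hy (a, b)
    · intro x
      exact hy x.1 x.2

/-- the family `wF l a` -/
theorem famF (h2 : T_SC.{u}) (h3 : T_GRZ.{u}) (h4 : T_SPEC.{u}) (h5 : T_CLL.{u})
    (h6 : T_CLZ.{u}) (h7 : T_CLT.{u}) (h9 : T_NCZ.{u}) (h10 : T_RSP.{u}) (h11 : T_RS3.{u})
    (h12 : T_FOK.{u}) (h13 : T_FEL.{u}) (h14 : T_FEZ.{u}) (h15 : T_FQ.{u})
    (hF : ∀ (κ : Type u) [Field κ] [CharZero κ],
      ∃ dA dB dL k, FinOK κ hz qz qz' A B L dA dB dL k)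
    {k κ : Type u} [Field k] [Field κ] [CharZero k] {w : Arr m κ} {v : VArr m s κ}
    (hG : GenericU k κ w v) (l a : Fin m) (hla : l ≠ a) :
    (∀ i j, i ≠ j → LI3 (w i j)) ∧ (∀ i, LIv (v i)) ∧ RowSpan (FZ w v hz qz') ∧
      NCC clz (ei l) (FZ w v hz qz) ∧ NCC clz eZ (FZ w v hz qz) ∧
      NCC clz (ei l + ei a + eZ) (FZ w v hz qz) ∧
      T1C clz Psi (ei l) (FZ w v hz qz') (FZ w v hz qz) ∧
      T1C clz Psi eZ (FZ w v hz qz') (FZ w v hz qz) ∧
      T1C clz Psi (ei l + ei a + eZ) (FZ w v hz qz') (FZ w v hz qz) := by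
  have hm : 0 < m := Fin.pos l
  obtain ⟨κ', _, _, ι, g1, g2, g3, g4, g5⟩ := transfer h2 h3 h4 hm hF hG (wF k l a)
    (vF l a (castV k A) (castV k B) (castV k L)) (wF_sym l a)
    (fun κ' _ _ ι i j hij => by
      rw [wF_map]
      exact LI3_of_D2 (D2_wF l a i j hij))
    (fun κ' _ _ ι i => by
      obtain ⟨dA, dB, dL, kk, ok⟩ := hF κ'
      rw [vF_map]
      exact pick_all (p := LIv) l a ok.liA ok.liB ok.liL i)
  obtain ⟨dA, dB, dL, kk, ok⟩ := hF κ'
  rw [wF_map, vF_map] at g1 g2 g3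
  obtain ⟨ws, wd, dok⟩ := h12 m s t κ' hz qz _ _ _ dA dB dL kk ok.okA ok.okB ok.okL ok.kok l a
    hla
  obtain ⟨n1, n2, -, n4⟩ := h9 m s t κ' (wF κ' l a)
    (vF l a (castV κ' A) (castV κ' B) (castV κ' L)) hz qz ws
  have hle := FZ_le (hz := hz) ok.sub (wF κ' l a)
    (vF l a (castV κ' A) (castV κ' B) (castV κ' L))
  have m1 : ∀ i, NCC clz (ei i) (FZ (wF κ' l a)
      (vF l a (castV κ' A) (castV κ' B) (castV κ' L)) hz qz) := fun i =>
    n1 i (fun j hj => wd i j hj.symm)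
      (pick_all (p := fun v => N1 v qz) l a ok.n1A ok.n1B ok.n1L i)
  have m2 : NCC clz eZ (FZ (wF κ' l a)
      (vF l a (castV κ' A) (castV κ' B) (castV κ' L)) hz qz) :=
    n2 (fun i => pick_all (p := N2) l a ok.n2A ok.n2B ok.n2L i) ok.n3
  have m4 : NCC clz (ei l + ei a + eZ) (FZ (wF κ' l a)
      (vF l a (castV κ' A) (castV κ' B) (castV κ' L)) hz qz) := by
    refine n4 l a hla ?_
    rw [wF_l hla]
    unfold vF
    rw [pick_l, pick_a hla]
    exact ok.n4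
  have m5 : ∀ ψ, Psi ψ → NCC clz ψ (FZ (wF κ' l a)
      (vF l a (castV κ' A) (castV κ' B) (castV κ' L)) hz qz) := by
    rintro ψ (⟨i, rfl⟩ | rfl)
    · exact m1 i
    · exact m2
  refine ⟨g4, g5, g2 ?_, g1 _ (m1 l), g1 _ m2, g1 _ m4, g3 _ m5 ?_, g3 _ m5 ?_, g3 _ m5 ?_⟩
  · refine h10 m s t' κ' _ _ hz qz' ws ok.hzs (fun j => ?_) ⟨l, ?_⟩
    · by_cases hj : j = l
      · subst hj
        refine ⟨a, hla.symm, ?_⟩
        rw [wF_l' hla]
        exact (h11 κ').2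
      · refine ⟨l, Ne.symm hj, ?_⟩
        rw [wF_l (Ne.symm hj)]
        exact (h11 κ').1
    · unfold vF
      rw [pick_l]
      exact ok.rsz
  · exact h5 m s t t' κ' _ _ hz qz qz' (dF l a dA dB dL kk) ws ok.hzs ok.qzs ok.qzs' dok hle l
      (h13 m s t t' κ' hz qz qz' _ _ _ dA dB dL kk ok.coreL ok.loc l a hla)
  · exact h6 m s t t' κ' _ _ hz qz qz' (dF l a dA dB dL kk) hm ws ok.hzs ok.qzs ok.qzs' dok hle
      (h14 m s t t' κ' hz qz qz' _ _ _ dA dB dL kk ok.coreZ ok.outZ ok.loc l a hla)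
  · exact (h7 m s t t' κ' _ _ hz qz qz' (dF l a dA dB dL kk) hm ws ok.hzs ok.qzs ok.qzs' dok
      hle).2 l a hla (h15 m s t κ' _ _ _ dA dB dL kk ok.coreQ l a hla)

/-- the family `wsp l p q` -/
theorem famS (h2 : T_SC.{u}) (h3 : T_GRZ.{u}) (h4 : T_SPEC.{u}) (h7 : T_CLT.{u})
    (h9 : T_NCZ.{u})
    (hF : ∀ (κ : Type u) [Field κ] [CharZero κ],
      ∃ dA dB dL k, FinOK κ hz qz qz' A B L dA dB dL k)
    {k κ : Type u} [Field k] [Field κ] [CharZero k] {w : Arr m κ} {v : VArr m s κ}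
    (hG : GenericU k κ w v) (l p q : Fin m) (hlp : l ≠ p) (hlq : l ≠ q) (hpq : p ≠ q) :
    NCC clz (ei l + ei p + ei q) (FZ w v hz qz) ∧
      T1C clz Psi (ei l + ei p + ei q) (FZ w v hz qz') (FZ w v hz qz) := by
  have hm : 0 < m := Fin.pos l
  obtain ⟨κ', _, _, ι, g1, g2, g3, g4, g5⟩ := transfer h2 h3 h4 hm hF hG (wsp k l p q)
    (fun _ => castV k L) (GEN_.wsp_sym l p q)
    (fun κ' _ _ ι i j hij => by
      rw [wsp_map]
      exact LI3_of_D2 (GEN_.D2_wsp p_SP2 l p q i j hij))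
    (fun κ' _ _ ι i => by
      obtain ⟨dA, dB, dL, kk, ok⟩ := hF κ'
      rw [cst_map]
      exact ok.liL)
  obtain ⟨dA, dB, dL, kk, ok⟩ := hF κ'
  rw [wsp_map, cst_map] at g1 g3
  have ws : WSym (wsp κ' l p q) := GEN_.wsp_sym l p q
  have wd : ∀ i j, i ≠ j → D2 (wsp κ' l p q i j) := GEN_.D2_wsp p_SP2 l p q
  -- decompositions
  have hzz : ∀ i j (u : Fin 2), ∃ z : Mat κ', i ≠ j →
      ∀ a e, L2 (wsp κ' l p q i j) z a e = uu u a := by
    intro i j u
    by_cases hij : i = j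
    · exact ⟨0, fun h => absurd hij h⟩
    · obtain ⟨z, hz⟩ := (p_SOLVE κ').1 (wsp κ' l p q i j) (fun a _ => uu u a) (wd i j hij)
      exact ⟨z, fun _ => hz⟩
  choose z hz' using hzz
  have zok : ZOK (wsp κ' l p q) z := fun i j hij u => hz' i j u hij
  let D : ZD m s t κ' := ⟨z, fun _ => dL.y, fun _ => dL.y5, fun _ => dL.r, kk,
    fun _ => dL.p, fun _ => dL.p5⟩
  have dok : ZDOK (wsp κ' l p q) (fun _ => castV κ' L) hz qz D :=
    ⟨zok, fun _ => ok.okL.y, fun _ => ok.okL.r, ok.kok, fun _ => ok.okL.p⟩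
  obtain ⟨n1, n2, n3, -⟩ := h9 m s t κ' (wsp κ' l p q) (fun _ => castV κ' L) hz qz ws
  have hle := FZ_le (hz := hz) ok.sub (wsp κ' l p q) (fun _ : Fin m => castV κ' L)
  have m5 : ∀ ψ, Psi ψ → NCC clz ψ (FZ (wsp κ' l p q) (fun _ => castV κ' L) hz qz) := by
    rintro ψ (⟨i, rfl⟩ | rfl)
    · exact n1 i (fun j hj => wd i j hj.symm) ok.n1L
    · exact n2 (fun _ => ok.n2L) ok.n3
  refine ⟨g1 _ (n3 l p q hlp hlq hpq (GEN_.D3_wsp p_SP3 l p q hlp hlq hpq)), g3 _ m5 ?_⟩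
  exact (h7 m s t t' κ' _ _ hz qz qz' D hm ws ok.hzs ok.qzs ok.qzs' dok hle).1 l p q hlp hlq hpq
    (p_SPT m κ' l p q hlp hlq hpq z zok)

end Trans

end GU_

open GU_ in
theorem p_GU (h1 : T_GRD.{u}) (h2 : T_SC.{u}) (h3 : T_GRZ.{u}) (h4 : T_SPEC.{u})
    (h5 : T_CLL.{u}) (h6 : T_CLZ.{u}) (h7 : T_CLT.{u}) (h8 : T_CLO.{u}) (h9 : T_NCZ.{u})
    (h10 : T_RSP.{u}) (h11 : T_RS3.{u}) (h12 : T_FOK.{u}) (h13 : T_FEL.{u}) (h14 : T_FEZ.{u})
    (h15 : T_FQ.{u}) : T_GU.{u} := by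
  intro m s t t' hz qz qz' A B L hm hF k κ _ _ _ w v hG
  have fF := fun l a hla => famF h2 h3 h4 h5 h6 h7 h9 h10 h11 h12 h13 h14 h15 hF hG l a hla
  have fS := fun l p q hlp hlq hpq => famS h2 h3 h4 h7 h9 hF hG l p q hlp hlq hpq
  obtain ⟨a1, a2, a3, -⟩ := fF ⟨0, by omega⟩ ⟨1, by omega⟩ (by simp)
  have hne : ∀ l : Fin m, ∃ a, l ≠ a := by
    intro l
    by_cases hl : l = ⟨0, by omega⟩
    · exact ⟨⟨1, by omega⟩, by rw [hl]; simp⟩
    · exact ⟨⟨0, by omega⟩, hl⟩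
  have key : ∀ χ, NCC clz χ (FZ w v hz qz) ∧ T1C clz Psi χ (FZ w v hz qz') (FZ w v hz qz) := by
    intro χ
    by_cases c1 : ∃ l, χ = ei l
    · obtain ⟨l, rfl⟩ := c1
      obtain ⟨a, hla⟩ := hne l
      obtain ⟨-, -, -, b1, -, -, b2, -⟩ := fF l a hla
      exact ⟨b1, b2⟩
    by_cases c2 : χ = eZ
    · subst c2
      obtain ⟨-, -, -, -, b1, -, -, b2, -⟩ := fF ⟨0, by omega⟩ ⟨1, by omega⟩ (by simp)
      exact ⟨b1, b2⟩
    by_cases c3 : ∃ i j l, i ≠ j ∧ i ≠ l ∧ j ≠ l ∧ χ = ei i + ei j + ei l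
    · obtain ⟨i, j, l, hij, hil, hjl, rfl⟩ := c3
      exact fS i j l hij hil hjl
    by_cases c4 : ∃ i j, i ≠ j ∧ χ = ei i + ei j + eZ
    · obtain ⟨i, j, hij, rfl⟩ := c4
      obtain ⟨-, -, -, -, -, b1, -, -, b2⟩ := fF i j hij
      exact ⟨b1, b2⟩
    push Not at c1 c3 c4
    exact h8 m s t t' κ w v hz qz qz' χ c1 c2 c3 c4
  obtain ⟨dA, dB, dL, kk, ok⟩ := hF k
  obtain ⟨e1, e2⟩ := h1 κ (IZ m s) (Cl m) clz Psi (FZ w v hz qz') (FZ w v hz qz)
  have gr := h3 m s t κ w v hz qz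
  exact ⟨a1, a2, e1 gr fun ψ => (key ψ).1, a3,
    e2 (h3 m s t' κ w v hz qz') gr fun χ => (key χ).2⟩

end Pool.Agent.VCU
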