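import Pool.Agent.VCU.Targets

/-!
# Target NCZ: no cubics, class by class
-/

set_option autoImplicit false

namespace Pool.Agent.VCU

open Pool.Agent.VCC Pool.Agent.VCT

universe u

namespace NCZ_

/-! ### Sums of three classes of variables -/

/-- the class of the variables over `p` -/
def bs {m : ℕ} (p : Option (Fin m)) : Cl m := Pi.single p 1

/-- the block of a variable -/
def op {m s : ℕ} : IZ m s → Option (Fin m)
  | Sum.inl x => some x.1
  | Sum.inr _ => none

theorem clz_eq {m s : ℕ} (x : IZ m s) : clz x = bs (op x) := by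
  rcases x with x | x <;> rfl

theorem bs_apply {m : ℕ} (p r : Option (Fin m)) : bs p r = if r = p then 1 else 0 := by
  unfold bs
  rw [Pi.single_apply]

/-- a sum of three classes which is the class of a variable -/
theorem one {m : ℕ} (p q r a : Option (Fin m)) (h : bs p + bs q + bs r = bs a) :
    (p = a ∧ q = r) ∨ (q = a ∧ p = r) ∨ (r = a ∧ p = q) := by
  have H : ∀ x, (if x = p then (1 : ZMod 2) else 0) + (if x = q then 1 else 0) +
      (if x = r then 1 else 0) = if x = a then 1 else 0 := fun x => by
    have h0 := congrFun h x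
    simpa only [Pi.add_apply, bs_apply] using h0
  have hp := H p
  have hq := H q
  have hr := H r
  by_cases h1 : p = q
  · subst h1
    by_cases h2 : r = a
    · exact Or.inr (Or.inr ⟨h2, rfl⟩)
    · exfalso
      by_cases h3 : r = p
      · subst h3
        rw [if_pos rfl, if_neg h2] at hr
        exact absurd hr (by decide)
      · rw [if_neg h3, if_pos rfl, if_neg h2] at hr
        exact absurd hr (by decide)
  · by_cases h2 : p = r
    · subst h2
      by_cases h3 : q = a
      · exact Or.inr (Or.inl ⟨h3, rfl⟩)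
      · exfalso
        rw [if_neg (Ne.symm h1), if_pos rfl, if_neg h3] at hq
        exact absurd hq (by decide)
    · by_cases h3 : q = r
      · subst h3
        by_cases h4 : p = a
        · exact Or.inl ⟨h4, rfl⟩
        · exfalso
          rw [if_pos rfl, if_neg h1, if_neg h4] at hp
          exact absurd hp (by decide)
      · exfalso
        rw [if_pos rfl, if_neg h1, if_neg h2] at hp
        rw [if_neg (Ne.symm h1), if_pos rfl, if_neg h3] at hq
        have h4 : p = a := by
          by_contra h4
          rw [if_neg h4] at hp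
          exact absurd hp (by decide)
        have h5 : q = a := by
          by_contra h5
          rw [if_neg h5] at hq
          exact absurd hq (by decide)
        exact h1 (h4.trans h5.symm)

/-- a sum of three classes which is the sum of three different classes -/
theorem three {m : ℕ} (p q r a b c : Option (Fin m)) (hab : a ≠ b) (hac : a ≠ c) (hbc : b ≠ c)
    (h : bs p + bs q + bs r = bs a + bs b + bs c) :
    (p = a ∧ q = b ∧ r = c) ∨ (p = a ∧ q = c ∧ r = b) ∨ (p = b ∧ q = a ∧ r = c) ∨
    (p = b ∧ q = c ∧ r = a) ∨ (p = c ∧ q = a ∧ r = b) ∨ (p = c ∧ q = b ∧ r = a) := by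
  have H : ∀ x, (if x = p then (1 : ZMod 2) else 0) + (if x = q then 1 else 0) +
      (if x = r then 1 else 0) = (if x = a then 1 else 0) + (if x = b then 1 else 0) +
      (if x = c then 1 else 0) := fun x => by
    have h0 := congrFun h x
    simpa only [Pi.add_apply, bs_apply] using h0
  have ha := H a
  have hb := H b
  have hc := H c
  rw [if_pos (rfl : a = a), if_neg hab, if_neg hac] at ha
  rw [if_neg (Ne.symm hab), if_pos (rfl : b = b), if_neg hbc] at hb
  rw [if_neg (Ne.symm hac), if_neg (Ne.symm hbc), if_pos (rfl : c = c)] at hc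
  have ka : a = p ∨ a = q ∨ a = r := by
    by_contra hn
    push Not at hn
    rw [if_neg hn.1, if_neg hn.2.1, if_neg hn.2.2] at ha
    exact absurd ha (by decide)
  have kb : b = p ∨ b = q ∨ b = r := by
    by_contra hn
    push Not at hn
    rw [if_neg hn.1, if_neg hn.2.1, if_neg hn.2.2] at hb
    exact absurd hb (by decide)
  have kc : c = p ∨ c = q ∨ c = r := by
    by_contra hn
    push Not at hn
    rw [if_neg hn.1, if_neg hn.2.1, if_neg hn.2.2] at hc
    exact absurd hc (by decide)
  rcases ka with h1 | h1 | h1 <;> rcases kb with h2 | h2 | h2 <;>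
    rcases kc with h3 | h3 | h3 <;> first
    | exact absurd (h1.trans h2.symm) hab
    | exact absurd (h1.trans h3.symm) hac
    | exact absurd (h2.trans h3.symm) hbc
    | (subst h1 h2 h3; simp)

variable {K : Type*} [Field K] {m s t : ℕ}

/-- three different blocks, summed form -/
theorem sum3 (w1 w2 w3 : Frm K) (U : Fin 3 → Fin 3 → Fin 3 → K)
    (h1 : ∀ c a, ∑ b, ∑ d, w3 c b d * U a b d = 0)
    (h2 : ∀ c b, ∑ a, ∑ d, w2 c a d * U a b d = 0)
    (h3 : ∀ c d, ∑ a, ∑ b, w1 c a b * U a b d = 0)
    (A B C : Mat K) :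
    ∑ a, ∑ b, ∑ d, L3 w1 w2 w3 A B C a b d * U a b d = 0 := by
  have e1 : ∑ a, ∑ c, A a c * ∑ b, ∑ d, w3 c b d * U a b d = 0 := by
    simp [h1]
  have e2 : ∑ b, ∑ c, B b c * ∑ a, ∑ d, w2 c a d * U a b d = 0 := by
    simp [h2]
  have e3 : ∑ d, ∑ c, C d c * ∑ a, ∑ b, w1 c a b * U a b d = 0 := by
    simp [h3]
  simp only [Fin.sum_univ_three, L3] at e1 e2 e3 ⊢
  linear_combination e1 + e2 + e3

/-- three different blocks -/
theorem van3 (w1 w2 w3 : Frm K) (hD : D3 w1 w2 w3) (U : Fin 3 → Fin 3 → Fin 3 → K)
    (h1 : ∀ c a, ∑ b, ∑ d, w3 c b d * U a b d = 0)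
    (h2 : ∀ c b, ∑ a, ∑ d, w2 c a d * U a b d = 0)
    (h3 : ∀ c d, ∑ a, ∑ b, w1 c a b * U a b d = 0) (a0 b0 d0 : Fin 3) : U a0 b0 d0 = 0 := by
  obtain ⟨A, B, C, h⟩ := (p_SOLVE K).2 w1 w2 w3
    (fun a b d => if a = a0 ∧ b = b0 ∧ d = d0 then 1 else 0) hD
  have h4 := sum3 w1 w2 w3 U h1 h2 h3 A B C
  simp only [h] at h4
  rw [Finset.sum_eq_single a0 (fun a _ ha => by simp [ha]) (by simp),
    Finset.sum_eq_single b0 (fun b _ hb => by simp [hb]) (by simp),
    Finset.sum_eq_single d0 (fun d _ hd => by simp [hd]) (by simp)] at h4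
  simpa using h4

/-- two blocks -/
theorem van2 (w : Frm K) (hD : D2 w) (U : Fin 3 → Fin 3 → Fin 3 → K)
    (h0 : ∀ a b, U a b b = 0) (hs : ∀ a b b', U a b b' = U a b' b)
    (h1 : ∀ c b', ∑ a, ∑ b, w c a b * U a b b' = 0) (a b b' : Fin 3) : U a b b' = 0 := by
  have t2 : ∀ a0 e0, U a0 (e0 + 1) (e0 + 2) = 0 := by
    intro a0 e0
    obtain ⟨z, h⟩ := (p_SOLVE K).1 w (fun a e => if a = a0 ∧ e = e0 then 1 else 0) hD
    have h4 := NOC_.sum2 w U h0 hs h1 z
    simp only [h] at h4
    rw [Finset.sum_eq_single a0 (fun a _ ha => by simp [ha]) (by simp),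
      Finset.sum_eq_single e0 (fun b _ hb => by simp [hb]) (by simp)] at h4
    simpa using h4
  have k0 := t2 a 0
  have k1 := t2 a 1
  have k2 := t2 a 2
  have a1 : (0 : Fin 3) + 1 = 1 := rfl
  have a2 : (0 : Fin 3) + 2 = 2 := rfl
  have a3 : (1 : Fin 3) + 1 = 2 := rfl
  have a4 : (1 : Fin 3) + 2 = 0 := rfl
  have a5 : (2 : Fin 3) + 1 = 0 := rfl
  have a6 : (2 : Fin 3) + 2 = 1 := rfl
  simp only [a1, a2, a3, a4, a5, a6] at k0 k1 k2
  fin_cases b <;> fin_cases b' <;>
    first
      | exact h0 _ _
      | exact k0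
      | exact k1
      | exact k2
      | (rw [hs]; exact k0)
      | (rw [hs]; exact k1)
      | (rw [hs]; exact k2)

/-- the value at a variable of block `p` -/
theorem cases_op (x : IZ m s) : (∃ i a, x = xv i a ∧ op x = some i) ∨
    ∃ b, x = zv b ∧ op x = none := by
  rcases x with ⟨i, a⟩ | b
  · exact Or.inl ⟨i, a, rfl, rfl⟩
  · exact Or.inr ⟨b, rfl, rfl⟩

end NCZ_

open NCZ_ in
theorem p_NCZ : T_NCZ.{u} := by
  intro m s t K _ w v hz qz hw
  refine ⟨?_, ?_, ?_, ?_⟩
  · -- the class of a 3-block
    intro i hD hN T hT hH hF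
    obtain ⟨hT1, hT2⟩ := hT
    have hF' : ∀ x, InFZ w v hz qz (T x) := hF
    -- two blocks
    have t2 : ∀ j, j ≠ i → ∀ a b b', T (xv i a) (xv j b) (xv j b') = 0 := by
      intro j hj a b b'
      refine van2 (w i j) (hD j hj) (fun a b b' => T (xv i a) (xv j b) (xv j b'))
        (fun a b => (hF' _).diag _) (fun a b b' => hT2 _ _ _) (fun c b' => ?_) a b b'
      have h5 := (hF' (xv j b')).w i j (Ne.symm hj) c
      rw [← h5]
      refine Finset.sum_congr rfl fun a _ => Finset.sum_congr rfl fun b _ => ?_
      rw [hT1 (xv j b'), hT2 (xv i a) (xv j b')]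
    -- block and `Z`
    have tz : ∀ a b c, T (xv i a) (zv b) (zv c) = 0 := by
      have h6 := hN (fun a b c => T (xv i a) (zv b) (zv c)) (fun a b c => hT2 _ _ _)
        (fun a b => (hF' _).diag _) (fun d c => ?_) (fun τ a => (hF' _).q τ)
      · intro a b c
        exact congrFun (congrFun (congrFun h6 a) b) c
      · have h5 := (hF' (zv c)).v i d
        rw [← h5]
        refine Finset.sum_congr rfl fun a _ => Finset.sum_congr rfl fun b _ => ?_
        rw [hT1 (zv c), hT2 (xv i a) (zv c)]
    -- one block
    have t1 : T (xv i 0) (xv i 1) (xv i 2) = 0 := by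
      have h1 := (hF' (xv i 0)).h
      rw [Finset.sum_eq_single i] at h1
      · rw [hT1 (xv i 0) (xv i 0) (xv i 1), hT1 (xv i 0) (xv i 0) (xv i 2)] at h1
        have d1 : T (xv i 0) (xv i 0) (xv i 1) = 0 := by
          rw [hT2, hT1]
          exact (hF' _).diag _
        have d2 : T (xv i 0) (xv i 0) (xv i 2) = 0 := by
          rw [hT2, hT1]
          exact (hF' _).diag _
        simp only [tz, mul_zero, Finset.sum_const_zero, add_zero, d1, d2, zero_add] at h1
        exact h1
      · intro l _ hl
        rw [t2 l hl, t2 l hl, t2 l hl]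
        simp
      · simp
    have hd : ∀ x y, T x y y = 0 := fun x y => (hF' x).diag y
    have hd1 : ∀ x y, T y y x = 0 := fun x y => by rw [hT2, hT1, hd]
    have hd2 : ∀ x y, T y x y = 0 := fun x y => by rw [hT1, hd]
    have t1' : ∀ a b c, T (xv i a) (xv i b) (xv i c) = 0 := by
      intro a b c
      have h1 := t1
      have h2 : T (xv i 0) (xv i 2) (xv i 1) = 0 := by rw [hT2]; exact h1
      have h3 : T (xv i 1) (xv i 0) (xv i 2) = 0 := by rw [hT1]; exact h1
      have h4 : T (xv i 2) (xv i 0) (xv i 1) = 0 := by rw [hT1]; exact h2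
      have h5 : T (xv i 1) (xv i 2) (xv i 0) = 0 := by rw [hT2]; exact h3
      have h6 : T (xv i 2) (xv i 1) (xv i 0) = 0 := by rw [hT2]; exact h4
      fin_cases a <;> fin_cases b <;> fin_cases c <;>
        first
          | exact hd _ _
          | exact hd1 _ _
          | exact hd2 _ _
          | exact h1
          | exact h2
          | exact h3
          | exact h4
          | exact h5
          | exact h6
    -- first variable in the block `i`, the other ones in the same block
    have key : ∀ x y z, op x = some i → op y = op z → T x y z = 0 := by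
      intro x y z hx hyz
      rcases cases_op x with ⟨i', a, rfl, hx'⟩ | ⟨b, rfl, hx'⟩
      · have hi : i' = i := by
          rw [hx'] at hx
          exact Option.some.inj hx
        subst hi
        rcases cases_op y with ⟨j, b, rfl, hy⟩ | ⟨b, rfl, hy⟩
        · rcases cases_op z with ⟨l, c, rfl, hz'⟩ | ⟨c, rfl, hz'⟩
          · have hjl : j = l := by
              rw [hy, hz'] at hyz
              exact Option.some.inj hyz
            subst hjl
            by_cases hj : j = i'
            · subst hj
              exact t1' _ _ _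
            · exact t2 j hj _ _ _
          · rw [hy, hz'] at hyz
            exact absurd hyz (by simp)
        · rcases cases_op z with ⟨l, c, rfl, hz'⟩ | ⟨c, rfl, hz'⟩
          · rw [hy, hz'] at hyz
            exact absurd hyz (by simp)
          · exact tz _ _ _
      · rw [hx'] at hx
        exact absurd hx (by simp)
    intro x y z
    by_contra hne
    have h1 := hH x y z hne
    rw [clz_eq, clz_eq, clz_eq] at h1
    have h2 : bs (op x) + bs (op y) + bs (op z) = bs (some i) := h1
    rcases one _ _ _ _ h2 with ⟨h3, h4⟩ | ⟨h3, h4⟩ | ⟨h3, h4⟩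
    · exact hne (key x y z h3 h4)
    · apply hne
      rw [hT1]
      exact key y x z h3 h4
    · apply hne
      rw [hT2, hT1]
      exact key z x y h3 h4
  · -- the class of `Z`
    intro hN2 hN3 T hT hH hF
    obtain ⟨hT1, hT2⟩ := hT
    have hF' : ∀ x, InFZ w v hz qz (T x) := hF
    have t2 : ∀ j b a a', T (zv b) (xv j a) (xv j a') = 0 := by
      intro j
      have h6 := hN2 j (fun b a a' => T (zv b) (xv j a) (xv j a')) (fun b a a' => hT2 _ _ _)
        (fun b a => (hF' _).diag _) (fun d a' => ?_)
      · intro b a a'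
        exact congrFun (congrFun (congrFun h6 b) a) a'
      · have h5 := (hF' (xv j a')).v j d
        rw [← h5]
        refine Finset.sum_congr rfl fun a _ => Finset.sum_congr rfl fun b _ => ?_
        rw [hT2 (xv j a') (xv j a), hT1 (xv j a') (zv b), hT2 (zv b) (xv j a')]
    have t3 : ∀ a b c, T (zv a) (zv b) (zv c) = 0 := by
      have h6 := hN3 (fun a b c => T (zv a) (zv b) (zv c)) (fun a b c => hT1 _ _ _)
        (fun a b c => hT2 _ _ _) (fun a b => (hF' _).diag _) (fun τ a => (hF' _).q τ)
      intro a b c
      exact congrFun (congrFun (congrFun h6 a) b) c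
    have key : ∀ x y z, op x = none → op y = op z → T x y z = 0 := by
      intro x y z hx hyz
      rcases cases_op x with ⟨i', a, rfl, hx'⟩ | ⟨b', rfl, hx'⟩
      · rw [hx'] at hx
        exact absurd hx (by simp)
      · rcases cases_op y with ⟨j, b, rfl, hy⟩ | ⟨b, rfl, hy⟩
        · rcases cases_op z with ⟨l, c, rfl, hz'⟩ | ⟨c, rfl, hz'⟩
          · have hjl : j = l := by
              rw [hy, hz'] at hyz
              exact Option.some.inj hyz
            subst hjl
            exact t2 j _ _ _
          · rw [hy, hz'] at hyz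
            exact absurd hyz (by simp)
        · rcases cases_op z with ⟨l, c, rfl, hz'⟩ | ⟨c, rfl, hz'⟩
          · rw [hy, hz'] at hyz
            exact absurd hyz (by simp)
          · exact t3 _ _ _
    intro x y z
    by_contra hne
    have h1 := hH x y z hne
    rw [clz_eq, clz_eq, clz_eq] at h1
    have h2 : bs (op x) + bs (op y) + bs (op z) = bs none := h1
    rcases one _ _ _ _ h2 with ⟨h3, h4⟩ | ⟨h3, h4⟩ | ⟨h3, h4⟩
    · exact hne (key x y z h3 h4)
    · apply hne
      rw [hT1]
      exact key y x z h3 h4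
    · apply hne
      rw [hT2, hT1]
      exact key z x y h3 h4
  · -- three 3-blocks
    intro i j l hij hil hjl hD T hT hH hF
    obtain ⟨hT1, hT2⟩ := hT
    have hF' : ∀ x, InFZ w v hz qz (T x) := hF
    have t3 : ∀ a b d, T (xv i a) (xv j b) (xv l d) = 0 := by
      refine van3 (w i j) (w i l) (w j l) hD (fun a b d => T (xv i a) (xv j b) (xv l d))
        (fun c a => (hF' _).w j l hjl c) (fun c b => ?_) (fun c d => ?_)
      · have h5 := (hF' (xv j b)).w i l hil c
        simpa only [hT1 (xv j b)] using h5
      · have h5 := (hF' (xv l d)).w i j hij c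
        rw [← h5]
        refine Finset.sum_congr rfl fun a _ => Finset.sum_congr rfl fun b _ => ?_
        rw [hT1 (xv l d), hT2 (xv i a) (xv l d)]
    have key : ∀ x y z, op x = some i → op y = some j → op z = some l → T x y z = 0 := by
      intro x y z hx hy hz'
      rcases x with ⟨i', a⟩ | b
      · rcases y with ⟨j', b⟩ | b
        · rcases z with ⟨l', d⟩ | b
          · have e1 : i' = i := Option.some.inj hx
            have e2 : j' = j := Option.some.inj hy
            have e3 : l' = l := Option.some.inj hz'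
            subst e1 e2 e3
            exact t3 _ _ _
          · exact absurd hz' (by simp [op])
        · exact absurd hy (by simp [op])
      · exact absurd hx (by simp [op])
    intro x y z
    by_contra hne
    have h1 := hH x y z hne
    rw [clz_eq, clz_eq, clz_eq] at h1
    have h2 : bs (op x) + bs (op y) + bs (op z) = bs (some i) + bs (some j) + bs (some l) := h1
    apply hne
    rcases three _ _ _ _ _ _ (by simpa using hij) (by simpa using hil) (by simpa using hjl) h2
      with ⟨h3, h4, h5⟩ | ⟨h3, h4, h5⟩ | ⟨h3, h4, h5⟩ | ⟨h3, h4, h5⟩ | ⟨h3, h4, h5⟩ |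
        ⟨h3, h4, h5⟩
    · exact key x y z h3 h4 h5
    · rw [hT2]
      exact key x z y h3 h5 h4
    · rw [hT1]
      exact key y x z h4 h3 h5
    · rw [hT2, hT1]
      exact key z x y h5 h3 h4
    · rw [hT1, hT2]
      exact key y z x h4 h5 h3
    · rw [hT1, hT2, hT1]
      exact key z y x h5 h4 h3
  · -- two 3-blocks and `Z`
    intro i j hij hN T hT hH hF
    obtain ⟨hT1, hT2⟩ := hT
    have hF' : ∀ x, InFZ w v hz qz (T x) := hF
    have t3 : ∀ a a' b, T (xv i a) (xv j a') (zv b) = 0 := by
      have h6 := hN (fun a a' b => T (xv i a) (xv j a') (zv b)) (fun c b => ?_)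
        (fun d a' => ?_) (fun d a => (hF' _).v j d)
      · intro a a' b
        exact congrFun (congrFun (congrFun h6 a) a') b
      · have h5 := (hF' (zv b)).w i j hij c
        rw [← h5]
        refine Finset.sum_congr rfl fun a _ => Finset.sum_congr rfl fun a' _ => ?_
        rw [hT1 (zv b), hT2 (xv i a) (zv b)]
      · have h5 := (hF' (xv j a')).v i d
        simpa only [hT1 (xv j a')] using h5
    have key : ∀ x y z, op x = some i → op y = some j → op z = none → T x y z = 0 := by
      intro x y z hx hy hz'
      rcases x with ⟨i', a⟩ | b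
      · rcases y with ⟨j', b⟩ | b
        · rcases z with ⟨l', d⟩ | b
          · exact absurd hz' (by simp [op])
          · have e1 : i' = i := Option.some.inj hx
            have e2 : j' = j := Option.some.inj hy
            subst e1 e2
            exact t3 _ _ _
        · exact absurd hy (by simp [op])
      · exact absurd hx (by simp [op])
    intro x y z
    by_contra hne
    have h1 := hH x y z hne
    rw [clz_eq, clz_eq, clz_eq] at h1
    have h2 : bs (op x) + bs (op y) + bs (op z) = bs (some i) + bs (some j) + bs none := h1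
    apply hne
    rcases three _ _ _ _ _ _ (by simpa using hij) (by simp) (by simp) h2
      with ⟨h3, h4, h5⟩ | ⟨h3, h4, h5⟩ | ⟨h3, h4, h5⟩ | ⟨h3, h4, h5⟩ | ⟨h3, h4, h5⟩ |
        ⟨h3, h4, h5⟩
    · exact key x y z h3 h4 h5
    · rw [hT2]
      exact key x z y h3 h5 h4
    · rw [hT1]
      exact key y x z h4 h3 h5
    · rw [hT2, hT1]
      exact key z x y h5 h3 h4
    · rw [hT1, hT2]
      exact key y z x h4 h5 h3
    · rw [hT1, hT2, hT1]
      exact key z y x h5 h4 h3

end Pool.Agent.VCU
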