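import Pool.Agent.VCU.Targets2

/-!
# No linear socle: `T_RSP` and `T_RS3`
-/

set_option autoImplicit false

namespace Pool.Agent.VCU

open Pool.Agent.VCC Pool.Agent.VCT HilbPts Pool.Agent.VCT.SP_

universe u

/-- pairing with a matrix -/
def RSP_.lin {K α β : Type*} [Fintype α] [Fintype β] [Field K] (B : α → β → K) :
    (α → β → K) →ₗ[K] K where
  toFun M := ∑ a, ∑ b, B a b * M a b
  map_add' M N := by
    simp only [Pi.add_apply, mul_add, Finset.sum_add_distrib]
  map_smul' c M := by
    simp only [Pi.smul_apply, smul_eq_mul, mul_left_comm _ c, ← Finset.mul_sum,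
      RingHom.id_apply]

theorem RSP_.lin_E {K α β : Type*} [Fintype α] [Fintype β] [DecidableEq α] [DecidableEq β]
    [Field K] (B : α → β → K) (a : α) (b : β) :
    RSP_.lin B (fun a' b' => if a' = a then (if b' = b then 1 else 0) else 0) = B a b := by
  show ∑ a', ∑ b', B a' b' * (if a' = a then (if b' = b then (1 : K) else 0) else 0) = B a b
  rw [Finset.sum_eq_single a, Finset.sum_eq_single b]
  · simp
  · intro b' _ hb
    simp [hb]
  · intro h
    exact absurd (Finset.mem_univ _) h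
  · intro a' _ ha
    simp [ha]
  · intro h
    exact absurd (Finset.mem_univ _) h

/-- double annihilator -/
theorem RSP_.dual {K α β : Type*} [Fintype α] [Fintype β] [DecidableEq α] [DecidableEq β]
    [Field K] {N : ℕ} (φ : Fin N → α → β → K) (A : α → β → K)
    (h : ∀ M : α → β → K, (∀ c, ∑ a, ∑ b, φ c a b * M a b = 0) →
      ∑ a, ∑ b, A a b * M a b = 0) : ∃ y : Fin N → K, ∀ a b, A a b = ∑ c, y c * φ c a b := by
  have key : RSP_.lin A ∈ Submodule.span K (Set.range fun c => RSP_.lin (φ c)) := by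
    refine mem_span_of_iInf_ker_le_ker fun M hM => ?_
    rw [LinearMap.mem_ker]
    exact h M fun c => (Submodule.mem_iInf _).1 hM c
  obtain ⟨y, hy⟩ := (Submodule.mem_span_range_iff_exists_fun K).1 key
  refine ⟨y, fun a b => ?_⟩
  rw [← RSP_.lin_E A a b, ← hy, LinearMap.sum_apply]
  refine Finset.sum_congr rfl fun c _ => ?_
  rw [LinearMap.smul_apply, RSP_.lin_E, smul_eq_mul]

/-- functional in the class of two 3-blocks -/
def RSP_.FV {m s : ℕ} {K : Type*} [Field K] (i j : Fin m) (M : Mat K) :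
    IZ m s → IZ m s → K
  | Sum.inl x, Sum.inl y =>
    if x.1 = i ∧ y.1 = j then M x.2 y.2 else if x.1 = j ∧ y.1 = i then M y.2 x.2 else 0
  | Sum.inl _, Sum.inr _ => 0
  | Sum.inr _, Sum.inl _ => 0
  | Sum.inr _, Sum.inr _ => 0

/-- functional in the class of a 3-block and `Z` -/
def RSP_.FW {m s : ℕ} {K : Type*} [Field K] (i : Fin m) (M : Fin 3 → Fin s → K) :
    IZ m s → IZ m s → K
  | Sum.inl _, Sum.inl _ => 0
  | Sum.inl x, Sum.inr b => if x.1 = i then M x.2 b else 0
  | Sum.inr b, Sum.inl x => if x.1 = i then M x.2 b else 0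
  | Sum.inr _, Sum.inr _ => 0

theorem RSP_.FV_mem {m s t : ℕ} {K : Type*} [Field K] (w : Arr m K) (v : VArr m s K)
    (hz : Fin s → Fin s → ℤ) (qz : Fin t → Fin s → Fin s → ℤ) (hw : WSym w) {i j : Fin m}
    (hij : i ≠ j) (M : Mat K) (hM : ∀ c, ∑ a, ∑ b, w i j c a b * M a b = 0) :
    RSP_.FV i j M ∈ FZ w v hz qz := by
  refine ⟨?_, ?_, ?_, ?_, ?_, ?_⟩
  · rintro (⟨k, a⟩ | b) (⟨l, a'⟩ | b')
    · simp only [RSP_.FV]
      by_cases h1 : k = i ∧ l = j
      · have h2 : ¬ (l = i ∧ k = j) := fun h => hij (h1.1.symm.trans h.2)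
        rw [if_pos h1, if_neg h2, if_pos ⟨h1.2, h1.1⟩]
      · rw [if_neg h1]
        by_cases h3 : k = j ∧ l = i
        · rw [if_pos h3, if_pos ⟨h3.2, h3.1⟩]
        · rw [if_neg h3, if_neg fun h => h3 ⟨h.2, h.1⟩, if_neg fun h => h1 ⟨h.2, h.1⟩]
    · rfl
    · rfl
    · rfl
  · rintro (⟨k, a⟩ | b)
    · simp only [RSP_.FV]
      rw [if_neg fun h => hij (h.1.symm.trans h.2), if_neg fun h => hij (h.2.symm.trans h.1)]
    · rfl
  · intro k l hkl c
    by_cases h1 : k = i ∧ l = j
    · obtain ⟨rfl, rfl⟩ := h1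
      simpa [RSP_.FV, xv] using hM c
    · by_cases h2 : k = j ∧ l = i
      · obtain ⟨rfl, rfl⟩ := h2
        have h3 : ∀ a b, RSP_.FV (s := s) l k M (xv k a) (xv l b) = M b a := by
          intro a b
          show (if k = l ∧ l = k then M a b else if k = k ∧ l = l then M b a else 0) = M b a
          rw [if_neg fun h => hkl h.1, if_pos ⟨rfl, rfl⟩]
        simp only [h3, hw.2 l k, tr]
        rw [Finset.sum_comm]
        exact hM c
      · refine Finset.sum_eq_zero fun a _ => Finset.sum_eq_zero fun b _ => ?_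
        simp only [RSP_.FV]
        rw [if_neg h1, if_neg h2, mul_zero]
  · intro k d
    simp [RSP_.FV]
  · intro τ
    simp [RSP_.FV]
  · have h3 : ∀ k a b, RSP_.FV (s := s) i j M (xv k a) (xv k b) = 0 := by
      intro k a b
      simp only [RSP_.FV]
      rw [if_neg fun h => hij (h.1.symm.trans h.2), if_neg fun h => hij (h.2.symm.trans h.1)]
    simp only [h3]
    simp [RSP_.FV]

theorem RSP_.FW_mem {m s t : ℕ} {K : Type*} [Field K] (w : Arr m K) (v : VArr m s K)
    (hz : Fin s → Fin s → ℤ) (qz : Fin t → Fin s → Fin s → ℤ) (i : Fin m)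
    (M : Fin 3 → Fin s → K) (hM : ∀ d, ∑ a, ∑ b, v i d a b * M a b = 0) :
    RSP_.FW i M ∈ FZ w v hz qz := by
  refine ⟨?_, ?_, ?_, ?_, ?_, ?_⟩
  · rintro (⟨k, a⟩ | b) (⟨l, a'⟩ | b') <;> rfl
  · rintro (⟨k, a⟩ | b) <;> rfl
  · intro k l hkl c
    simp [RSP_.FW]
  · intro k d
    by_cases h1 : k = i
    · subst h1
      simpa [RSP_.FW, xv, zv] using hM d
    · simp [RSP_.FW, h1]
  · intro τ
    simp [RSP_.FW]
  · simp [RSP_.FW]

theorem p_RSP : T_RSP.{u} := by
  intro m s t K _ w v hz qz hw _ h3 hZ 𝓖 h𝓖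
  by_contra hne
  obtain ⟨f, hf0, hf⟩ := Submodule.exists_le_ker_of_lt_top 𝓖 (lt_top_iff_ne_top.2 hne)
  have hsum : ∀ g : IZ m s → K, f g = ∑ x, g x * f (Pi.single x 1) := by
    intro g
    conv_lhs => rw [← Finset.univ_sum_single g]
    rw [map_sum]
    refine Finset.sum_congr rfl fun x _ => ?_
    rw [← smul_eq_mul, ← map_smul, ← Pi.single_smul, smul_eq_mul, mul_one]
  have hy : ∀ F ∈ FZ w v hz qz, ∀ x, ∑ x', F x x' * f (Pi.single x' 1) = 0 := by
    intro F hF x
    rw [← hsum]
    exact hf (h𝓖 F hF x)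
  -- the 3-blocks
  have hV : ∀ j b, f (Pi.single (xv j b) 1) = 0 := by
    intro j b
    obtain ⟨i, hij, h⟩ := h3 j
    refine congrFun (h (fun b => f (Pi.single (xv j b) 1)) fun a => ?_) b
    refine RSP_.dual (w i j) _ fun M hM => ?_
    have h1 := hy _ (RSP_.FV_mem w v hz qz hw hij M hM) (xv i a)
    have h2 : ∀ l b', RSP_.FV (s := s) i j M (xv i a) (xv l b') =
        if l = j then M a b' else 0 := by
      intro l b'
      simp only [RSP_.FV, true_and]
      by_cases hl : l = j
      · rw [if_pos hl, if_pos hl]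
      · rw [if_neg hl, if_neg hl, if_neg fun h => hij h.1]
    rw [Fintype.sum_sum_type, Fintype.sum_prod_type] at h1
    have h4 : ∑ b' : Fin s, RSP_.FV i j M (xv i a) (Sum.inr b') *
        f (Pi.single (Sum.inr b') 1) = 0 := by
      refine Finset.sum_eq_zero fun b' _ => ?_
      simp [RSP_.FV]
    rw [h4, add_zero] at h1
    refine Eq.trans ?_ h1
    rw [Finset.sum_eq_single j, Finset.sum_eq_single a]
    · refine Finset.sum_congr rfl fun b' _ => ?_
      rw [if_pos rfl]
      have := h2 j b'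
      rw [if_pos rfl] at this
      rw [show RSP_.FV (s := s) i j M (xv i a) (Sum.inl (j, b')) = M a b' from this]
      ring
    · intro a' _ ha
      refine Finset.sum_eq_zero fun b' _ => ?_
      rw [if_neg ha, zero_mul]
    · intro h
      exact absurd (Finset.mem_univ _) h
    · intro l _ hl
      refine Finset.sum_eq_zero fun b' _ => ?_
      have := h2 l b'
      rw [if_neg hl] at this
      rw [show RSP_.FV (s := s) i j M (xv i a) (Sum.inl (l, b')) = 0 from this, zero_mul]
    · intro h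
      exact absurd (Finset.mem_univ _) h
  have hZ' : ∀ b, f (Pi.single (zv b) 1) = 0 := by
    intro b
    obtain ⟨i, h⟩ := hZ
    refine congrFun (h (fun b => f (Pi.single (zv b) 1)) fun a => ?_) b
    refine RSP_.dual (v i) _ fun M hM => ?_
    have h1 := hy _ (RSP_.FW_mem w v hz qz i M hM) (xv i a)
    rw [Fintype.sum_sum_type] at h1
    have h4 : ∑ x' : Fin m × Fin 3, RSP_.FW (s := s) i M (xv i a) (Sum.inl x') *
        f (Pi.single (Sum.inl x') 1) = 0 := by
      refine Finset.sum_eq_zero fun b' _ => ?_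
      simp [RSP_.FW]
    rw [h4, zero_add] at h1
    refine Eq.trans ?_ h1
    rw [Finset.sum_eq_single a]
    · refine Finset.sum_congr rfl fun b' _ => ?_
      rw [if_pos rfl]
      simp only [RSP_.FW, if_true]
      ring
    · intro a' _ ha
      refine Finset.sum_eq_zero fun b' _ => ?_
      rw [if_neg ha, zero_mul]
    · intro h
      exact absurd (Finset.mem_univ _) h
  apply hf0
  refine LinearMap.ext fun g => ?_
  rw [hsum, LinearMap.zero_apply]
  refine Finset.sum_eq_zero fun x _ => ?_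
  rcases x with ⟨j, b⟩ | b
  · rw [show f (Pi.single (Sum.inl (j, b)) 1) = 0 from hV j b, mul_zero]
  · rw [show f (Pi.single (Sum.inr b) 1) = 0 from hZ' b, mul_zero]

theorem p_RS3 : T_RS3.{u} := by
  intro κ _
  refine ⟨fun y h => ?_, fun y h => ?_⟩
  · obtain ⟨k, hk⟩ := h 0
    have e10 := hk 1 0
    have e11 := hk 1 1
    have e12 := hk 1 2
    have e20 := hk 2 0
    have e00 := hk 0 0
    have e01 := hk 0 1
    have e02 := hk 0 2
    simp [Fin.sum_univ_three, wlo] at e10 e11 e12 e20 e00 e01 e02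
    have k0 : k 0 = 0 := by simpa using e12
    have k1 : k 1 = 0 := by simpa using e20
    have k2 : k 2 = 0 := by simpa [k1] using e10.symm
    funext b
    fin_cases b
    · simpa [k0, k1, k2] using e00
    · simpa [k0, k1, k2] using e01
    · simpa [k0, k1, k2] using e02
  · obtain ⟨k, hk⟩ := h 0
    have e10 := hk 1 0
    have e12 := hk 1 2
    have e20 := hk 2 0
    have e21 := hk 2 1
    have e00 := hk 0 0
    have e01 := hk 0 1
    have e02 := hk 0 2
    simp [Fin.sum_univ_three, wlo, tr] at e10 e12 e20 e21 e00 e01 e02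
    have k0 : k 0 = 0 := by simpa using e21
    have k1 : k 1 = 0 := by simpa [k0] using e10.symm
    have k2 : k 2 = 0 := by simpa [k0] using e20.symm
    funext b
    fin_cases b
    · simpa [k0, k1, k2] using e00
    · simpa [k0, k1, k2] using e01
    · simpa [k0, k1, k2] using e02

end Pool.Agent.VCU
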