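import Pool.Agent.VCU.Targets

set_option autoImplicit false

/-!
# Target `T_SC`

Semicontinuity of the conditions under a place.
-/

namespace Pool.Agent.VCU

open Pool.Agent.VCC Pool.Agent.VCT

universe u

namespace SC_

variable {K κ : Type u} [Field K] [Field κ] {ι G : Type} [AddCommGroup G]

lemma transl_add [DecidableEq ι] {R : Type*} [Field R] (v v' : ι → R) (t y z : ι) :
    transl (v + v') t y z = transl v t y z + transl v' t y z := by
  simp only [transl, Pi.add_apply]
  ring

lemma transl_smul [DecidableEq ι] {R : Type*} [Field R] (c : R) (v : ι → R) (t y z : ι) :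
    transl (c • v) t y z = c * transl v t y z := by
  simp only [transl, Pi.smul_apply, smul_eq_mul]
  ring

lemma transl_symm [DecidableEq ι] {R : Type*} [Field R] (v : ι → R) (t y z : ι) :
    transl v t y z = transl v t z y := by
  simp only [transl]
  ring

lemma transl_cl [DecidableEq ι] {R : Type*} [Field R] {cl : ι → G} {χ : G} {v : ι → R}
    (hv : ∀ t, v t ≠ 0 → cl t = χ) {t y z : ι} (h : transl v t y z ≠ 0) :
    cl y + cl z = cl t + χ := by
  by_cases h1 : v y * (if z = t then 1 else 0) = 0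
  · by_cases h2 : v z * (if y = t then 1 else 0) = 0
    · exact absurd (by simp only [transl, h1, h2, add_zero]) h
    · have h3 : y = t := by
        by_contra h4
        exact h2 (by rw [if_neg h4, mul_zero])
      have h5 : v z ≠ 0 := left_ne_zero_of_mul h2
      rw [h3, hv z h5]
  · have h3 : z = t := by
      by_contra h4
      exact h1 (by rw [if_neg h4, mul_zero])
    have h5 : v y ≠ 0 := left_ne_zero_of_mul h1
    rw [h3, hv y h5, add_comm]

/-- the maps which are translations modulo `𝓕` -/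
def TT [DecidableEq ι] {R : Type*} [Field R] (cl : ι → G) (χ : G)
    (𝓕 : Submodule R (ι → ι → R)) : Submodule R (ι × ι × ι → R) where
  carrier := {L | (∀ t y z, L (t, y, z) = L (t, z, y)) ∧
    (∀ t y z, L (t, y, z) ≠ 0 → cl y + cl z = cl t + χ) ∧
    ∃ v : ι → R, (∀ t, v t ≠ 0 → cl t = χ) ∧
      ∀ t, (fun y z => L (t, y, z) - transl v t y z) ∈ 𝓕}
  add_mem' := by
    rintro L L' ⟨h1, h2, v, h3, h4⟩ ⟨h1', h2', v', h3', h4'⟩
    refine ⟨fun t y z => by rw [Pi.add_apply, Pi.add_apply, h1, h1'], fun t y z h => ?_,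
      v + v', fun t h => ?_, fun t => ?_⟩
    · by_cases h5 : L (t, y, z) = 0
      · refine h2' t y z fun h6 => h ?_
        rw [Pi.add_apply, h5, h6, add_zero]
      · exact h2 t y z h5
    · by_cases h5 : v t = 0
      · refine h3' t fun h6 => h ?_
        rw [Pi.add_apply, h5, h6, add_zero]
      · exact h3 t h5
    · have h5 := 𝓕.add_mem (h4 t) (h4' t)
      convert h5 using 1
      funext y z
      rw [Pi.add_apply, Pi.add_apply, Pi.add_apply, transl_add]
      ring
  zero_mem' := by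
    refine ⟨fun t y z => rfl, fun t y z h => absurd rfl h, 0, fun t h => absurd rfl h,
      fun t => ?_⟩
    have h5 := 𝓕.zero_mem
    convert h5 using 1
    funext y z
    simp [transl]
  smul_mem' := by
    rintro c L ⟨h1, h2, v, h3, h4⟩
    refine ⟨fun t y z => by rw [Pi.smul_apply, Pi.smul_apply, h1], fun t y z h => ?_,
      c • v, fun t h => ?_, fun t => ?_⟩
    · exact h2 t y z fun h5 => h (by rw [Pi.smul_apply, h5, smul_zero])
    · exact h3 t fun h5 => h (by rw [Pi.smul_apply, h5, smul_zero])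
    · have h5 := 𝓕.smul_mem c (h4 t)
      convert h5 using 1
      funext y z
      rw [Pi.smul_apply, Pi.smul_apply, Pi.smul_apply, transl_smul, smul_eq_mul, smul_eq_mul]
      ring

lemma mem_TT [DecidableEq ι] {R : Type*} [Field R] {cl : ι → G} {χ : G}
    {𝓕 : Submodule R (ι → ι → R)} {L : ι × ι × ι → R} : L ∈ TT cl χ 𝓕 ↔
    (∀ t y z, L (t, y, z) = L (t, z, y)) ∧
    (∀ t y z, L (t, y, z) ≠ 0 → cl y + cl z = cl t + χ) ∧
    ∃ v : ι → R, (∀ t, v t ≠ 0 → cl t = χ) ∧
      ∀ t, (fun y z => L (t, y, z) - transl v t y z) ∈ 𝓕 := Iff.rfl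

/-- the hypothesis of `T1C` -/
def Hyp [Fintype ι] {R : Type*} [Field R] (cl : ι → G) (Ψ : G → Prop) (χ : G)
    (𝓕min 𝓕max : Submodule R (ι → ι → R)) (L : ι × ι × ι → R) : Prop :=
  (∀ t y z, L (t, y, z) = L (t, z, y)) ∧
  (∀ t y z, L (t, y, z) ≠ 0 → cl y + cl z = cl t + χ) ∧
  ∀ c, Ψ (c + χ) → ∀ F ∈ 𝓕min, HomF cl c F → ∃ G : ι → ι → ι → R, (∀ x, G x ∈ 𝓕max) ∧
      HomT cl (c + χ) G ∧ TSym (fun x y z => (∑ t, F x t * L (t, y, z)) + G x y z)

lemma t1c_iff [Fintype ι] [DecidableEq ι] {R : Type*} [Field R] {cl : ι → G} {Ψ : G → Prop}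
    {χ : G} {𝓕min 𝓕max : Submodule R (ι → ι → R)} : T1C cl Ψ χ 𝓕min 𝓕max ↔
    ∀ L, Hyp cl Ψ χ 𝓕min 𝓕max L → L ∈ TT cl χ 𝓕max := by
  constructor
  · rintro h L ⟨h1, h2, h3⟩
    exact ⟨h1, h2, h (fun t y z => L (t, y, z)) h1 h2 h3⟩
  · intro h lam h1 h2 h3
    exact (h (fun x => lam x.1 x.2.1 x.2.2) ⟨h1, h2, h3⟩).2.2

lemma tsym_add {R : Type*} [Field R] {T T' : ι → ι → ι → R} (h : TSym T) (h' : TSym T') :
    TSym (T + T') := by
  refine ⟨fun x y z => ?_, fun x y z => ?_⟩
  · simp only [Pi.add_apply]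
    rw [h.1, h'.1]
  · simp only [Pi.add_apply]
    rw [h.2, h'.2]

/-- combinations satisfy the hypothesis -/
lemma Hyp.comb [Fintype ι] {R : Type*} [Field R] {cl : ι → G} {Ψ : G → Prop} {χ : G}
    {𝓕min 𝓕max : Submodule R (ι → ι → R)} {L L' : ι × ι × ι → R}
    (h : Hyp cl Ψ χ 𝓕min 𝓕max L) (h' : Hyp cl Ψ χ 𝓕min 𝓕max L') (c : R) :
    Hyp cl Ψ χ 𝓕min 𝓕max (c • L - L') := by
  obtain ⟨h1, h2, h3⟩ := h
  obtain ⟨h1', h2', h3'⟩ := h'
  refine ⟨fun t y z => ?_, fun t y z h => ?_, fun d hd F hF hFd => ?_⟩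
  · simp only [Pi.sub_apply, Pi.smul_apply]
    rw [h1, h1']
  · by_cases h5 : L (t, y, z) = 0
    · refine h2' t y z fun h6 => h ?_
      rw [Pi.sub_apply, Pi.smul_apply, h5, h6, smul_zero, sub_zero]
    · exact h2 t y z h5
  · obtain ⟨A, hA1, hA2, hA3⟩ := h3 d hd F hF hFd
    obtain ⟨A', hA1', hA2', hA3'⟩ := h3' d hd F hF hFd
    refine ⟨c • A - A', fun x => ?_, fun x y z h => ?_, ?_⟩
    · exact 𝓕max.sub_mem (𝓕max.smul_mem c (hA1 x)) (hA1' x)
    · by_cases h5 : A x y z = 0
      · refine hA2' x y z fun h6 => h ?_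
        simp only [Pi.sub_apply, Pi.smul_apply, h5, h6, smul_zero, sub_zero]
      · exact hA2 x y z h5
    · have e1 : ∀ x y z, (∑ t, F x t * (c • L - L') (t, y, z)) + (c • A - A') x y z =
          c * ((∑ t, F x t * L (t, y, z)) + A x y z) -
            ((∑ t, F x t * L' (t, y, z)) + A' x y z) := by
        intro x y z
        simp only [Pi.sub_apply, Pi.smul_apply, smul_eq_mul, mul_sub, Finset.sum_sub_distrib,
          mul_left_comm _ c, ← Finset.mul_sum, mul_add]
        ring
      refine ⟨fun x y z => ?_, fun x y z => ?_⟩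
      · have a1 := hA3.1 x y z
        have a2 := hA3'.1 x y z
        simp only at a1 a2
        simp only [e1]
        rw [a1, a2]
      · have a1 := hA3.2 x y z
        have a2 := hA3'.2 x y z
        simp only at a1 a2
        simp only [e1]
        rw [a1, a2]

/-- translations modulo `𝓕max` satisfy the hypothesis -/
lemma hyp_of_TT [Fintype ι] [DecidableEq ι] {R : Type*} [Field R] {cl : ι → G} {Ψ : G → Prop}
    {χ : G} {𝓕min 𝓕max : Submodule R (ι → ι → R)} (hle : 𝓕min ≤ 𝓕max)
    (hsym : ∀ F ∈ 𝓕max, ∀ x y, F x y = F y x) {L : ι × ι × ι → R} (hL : L ∈ TT cl χ 𝓕max) :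
    Hyp cl Ψ χ 𝓕min 𝓕max L := by
  obtain ⟨h1, h2, v, h3, h4⟩ := hL
  refine ⟨h1, h2, fun d hd F hF hFd => ?_⟩
  have hFs := hsym F (hle hF)
  refine ⟨fun x y z => v x * F y z - ∑ t, F x t * (L (t, y, z) - transl v t y z), fun x => ?_,
    fun x y z h => ?_, ?_⟩
  · have e1 : (fun y z => v x * F y z - ∑ t, F x t * (L (t, y, z) - transl v t y z)) =
        v x • F - ∑ t, F x t • fun y z => L (t, y, z) - transl v t y z := by
      funext y z
      rw [Pi.sub_apply, Pi.sub_apply, Finset.sum_apply, Finset.sum_apply]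
      rfl
    show (fun y z => v x * F y z - ∑ t, F x t * (L (t, y, z) - transl v t y z)) ∈ 𝓕max
    rw [e1]
    exact 𝓕max.sub_mem (𝓕max.smul_mem _ (hle hF))
      (𝓕max.sum_mem fun t _ => 𝓕max.smul_mem _ (h4 t))
  · by_cases h5 : v x * F y z = 0
    · have h6 : ∑ t, F x t * (L (t, y, z) - transl v t y z) ≠ 0 := by
        intro h6
        refine h ?_
        show v x * F y z - ∑ t, F x t * (L (t, y, z) - transl v t y z) = 0
        rw [h5, h6, sub_zero]
      obtain ⟨t, -, ht⟩ := Finset.exists_ne_zero_of_sum_ne_zero h6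
      have h7 := hFd x t (left_ne_zero_of_mul ht)
      have h8 : cl y + cl z = cl t + χ := by
        by_cases h9 : L (t, y, z) = 0
        · refine transl_cl h3 (t := t) (y := y) (z := z) fun h10 => ?_
          exact right_ne_zero_of_mul ht (by rw [h9, h10, sub_zero])
        · exact h2 t y z h9
      rw [add_assoc, h8, ← add_assoc, h7]
    · have h6 := h3 x (left_ne_zero_of_mul h5)
      have h7 := hFd y z (right_ne_zero_of_mul h5)
      rw [add_assoc, h7, h6, add_comm]
  · have e1 : ∀ x y z, (∑ t, F x t * L (t, y, z)) +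
        (v x * F y z - ∑ t, F x t * (L (t, y, z) - transl v t y z)) =
        v x * F y z + v y * F x z + v z * F x y := by
      intro x y z
      have e2 : ∑ t, F x t * transl v t y z = v y * F x z + v z * F x y := by
        simp only [transl, mul_add, Finset.sum_add_distrib, mul_ite, mul_one, mul_zero]
        rw [Finset.sum_ite_eq, Finset.sum_ite_eq, if_pos (Finset.mem_univ _),
          if_pos (Finset.mem_univ _)]
        ring
      simp only [mul_sub, Finset.sum_sub_distrib]
      linear_combination e2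
    refine ⟨fun x y z => ?_, fun x y z => ?_⟩
    · simp only [e1]
      rw [hFs x y]
      ring
    · simp only [e1]
      rw [hFs y z]
      ring

variable (P : Place K κ)

/-- part 1 -/
lemma ncc [DecidableEq G] [Fintype ι] {cl : ι → G} {𝓕max : Submodule K (ι → ι → K)}
    {𝓕max' : Submodule κ (ι → ι → κ)} (hS : Spec P 𝓕max 𝓕max') {ψ : G}
    (h : NCC cl ψ 𝓕max') : NCC cl ψ 𝓕max := by
  intro T hT1 hT2 hT3
  by_contra hne
  push Not at hne
  obtain ⟨x0, y0, z0, h0⟩ := hne
  obtain ⟨c, hc, Y, hY, ⟨x1, y1, z1⟩, h1⟩ :=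
    (p_PRIM K κ P (ι × ι × ι) fun x => T x.1 x.2.1 x.2.2).1 ⟨(x0, y0, z0), h0⟩
  have hY' : ∀ x y z, (Y (x, y, z) : K) = c * T x y z := fun x y z => (hY (x, y, z)).symm
  have h2 := h (fun x y z => P.r (Y (x, y, z))) ⟨fun x y z => ?_, fun x y z => ?_⟩
    (fun x y z h3 => ?_) (fun x => ?_) x1 y1 z1
  · simp only [h1, map_one] at h2
    exact one_ne_zero h2
  · refine congrArg P.r (Subtype.ext ?_)
    rw [hY', hY', hT1.1]
  · refine congrArg P.r (Subtype.ext ?_)
    rw [hY', hY', hT1.2]
  · refine hT2 x y z fun h4 => h3 ?_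
    have h5 : Y (x, y, z) = 0 := by
      apply Subtype.ext
      rw [hY', h4, mul_zero]
      rfl
    show P.r (Y (x, y, z)) = 0
    rw [h5, map_zero]
  · refine hS.red (fun y z => Y (x, y, z)) ?_
    have h4 := 𝓕max.smul_mem c (hT3 x)
    convert h4 using 1
    funext y z
    exact hY' x y z

/-- part 2 -/
lemma rowSpan [Fintype ι] [DecidableEq ι] {𝓕min : Submodule K (ι → ι → K)}
    {𝓕min' : Submodule κ (ι → ι → κ)} (hS : Spec P 𝓕min 𝓕min') (h : RowSpan 𝓕min') :
    RowSpan 𝓕min := by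
  intro 𝓖 h𝓖
  by_contra hne
  obtain ⟨f, hf0, hf⟩ := Submodule.exists_le_ker_of_lt_top 𝓖 (lt_top_iff_ne_top.2 hne)
  have hfe : ∀ g : ι → K, f g = ∑ t, g t * f (Pi.single t 1) := by
    intro g
    conv_lhs => rw [pi_eq_sum_univ' g, map_sum]
    refine Finset.sum_congr rfl fun t _ => ?_
    rw [map_smul, smul_eq_mul]
  have hne' : ∃ t, f (Pi.single t 1) ≠ 0 := by
    by_contra h1
    push Not at h1
    apply hf0
    ext t
    simp [h1]
  obtain ⟨c, -, y, hy, t0, ht0⟩ := (p_PRIM K κ P ι fun t => f (Pi.single t 1)).1 hne'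
  let 𝓖' : Submodule κ (ι → κ) :=
    { carrier := {g | ∑ t, g t * P.r (y t) = 0}
      add_mem' := by
        intro a b ha hb
        have ha' : ∑ t, a t * P.r (y t) = 0 := ha
        have hb' : ∑ t, b t * P.r (y t) = 0 := hb
        show ∑ t, (a + b) t * P.r (y t) = 0
        simp only [Pi.add_apply, add_mul, Finset.sum_add_distrib, ha', hb', add_zero]
      zero_mem' := by
        show ∑ t, (0 : ι → κ) t * P.r (y t) = 0
        simp
      smul_mem' := by
        intro e a ha
        have ha' : ∑ t, a t * P.r (y t) = 0 := ha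
        show ∑ t, (e • a) t * P.r (y t) = 0
        simp only [Pi.smul_apply, smul_eq_mul, mul_assoc, ← Finset.mul_sum, ha', mul_zero] }
  have h1 : 𝓖' = ⊤ := by
    refine h 𝓖' fun F' hF' x => ?_
    obtain ⟨F, hF, hFr⟩ := hS.lift F' hF'
    show ∑ t, F' x t * P.r (y t) = 0
    have h2 : ∑ t, F x t * y t = 0 := by
      apply Subtype.ext
      have h3 := hf (h𝓖 _ hF x)
      rw [LinearMap.mem_ker, hfe] at h3
      push_cast
      simp only [← hy, mul_left_comm _ c, ← Finset.mul_sum, h3, mul_zero]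
    have h3 := congrArg P.r h2
    rw [map_sum, map_zero] at h3
    simp only [map_mul, hFr] at h3
    exact h3
  have h2 : (Pi.single t0 1 : ι → κ) ∈ 𝓖' := by rw [h1]; trivial
  have h3 : ∑ t, (Pi.single t0 1 : ι → κ) t * P.r (y t) = 0 := h2
  rw [Finset.sum_eq_single t0, Pi.single_eq_same, ht0, map_one, mul_one] at h3
  · exact one_ne_zero h3
  · intro t _ ht
    rw [Pi.single_eq_of_ne ht, zero_mul]
  · intro h4
    exact absurd (Finset.mem_univ _) h4

/-- the translations lift -/
lemma lift_TT [Fintype ι] [DecidableEq ι] [DecidableEq G] {cl : ι → G} {χ : G}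
    (hr : Function.Surjective P.r) {𝓕max : Submodule K (ι → ι → K)}
    {𝓕max' : Submodule κ (ι → ι → κ)} (hS : Spec P 𝓕max 𝓕max') (hgr : Graded cl 𝓕max)
    (hsym : ∀ F ∈ 𝓕max, ∀ x y, F x y = F y x) :
    ∀ L' ∈ TT cl χ 𝓕max', ∃ L : ι × ι × ι → P.B,
      (fun j => (L j : K)) ∈ TT cl χ 𝓕max ∧ ∀ j, P.r (L j) = L' j := by
  classical
  rintro L' ⟨h1, h2, v', h3, h4⟩
  choose lr hlr using hr
  let v : ι → P.B := fun t => if v' t = 0 then 0 else lr (v' t)
  have hv : ∀ t, P.r (v t) = v' t := by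
    intro t
    simp only [v]
    split_ifs with h
    · rw [h, map_zero]
    · exact hlr _
  have hv0 : ∀ t, ((v t : P.B) : K) ≠ 0 → cl t = χ := by
    intro t ht
    apply h3
    intro h5
    apply ht
    simp only [v, if_pos h5]
    rfl
  choose N hN hNr using fun t => hS.lift _ (h4 t)
  let N' : ι → ι → ι → P.B := fun t y z => if cl y + cl z = cl t + χ then N t y z else 0
  have hN' : ∀ t, (fun y z => (N' t y z : K)) ∈ 𝓕max := by
    intro t
    have h5 := hgr _ (hN t) (cl t + χ)
    convert h5 using 1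
    funext y z
    simp only [N']
    split_ifs <;> rfl
  have hNr' : ∀ t y z, P.r (N' t y z) = L' (t, y, z) - transl v' t y z := by
    intro t y z
    simp only [N']
    split_ifs with h5
    · exact hNr t y z
    · rw [map_zero]
      have h6 : L' (t, y, z) = 0 := by
        by_contra h6
        exact h5 (h2 t y z h6)
      have h7 : transl v' t y z = 0 := by
        by_contra h7
        exact h5 (transl_cl h3 h7)
      rw [h6, h7, sub_zero]
  let L : ι × ι × ι → P.B := fun x => N' x.1 x.2.1 x.2.2 +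
    (v x.2.1 * (if x.2.2 = x.1 then 1 else 0) + v x.2.2 * (if x.2.1 = x.1 then 1 else 0))
  have hL : ∀ t y z, (L (t, y, z) : K) = N' t y z + transl (fun t => (v t : K)) t y z := by
    intro t y z
    simp only [L, transl]
    push_cast
    congr 2 <;> (congr 1; split_ifs <;> rfl)
  refine ⟨L, ⟨fun t y z => ?_, fun t y z h5 => ?_, fun t => (v t : K), hv0, fun t => ?_⟩, ?_⟩
  · show (L (t, y, z) : K) = (L (t, z, y) : K)
    have h5 := hsym _ (hN' t) y z
    rw [hL, hL, transl_symm, h5]
  · by_cases h6 : (N' t y z : K) = 0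
    · have h7 : transl (fun t => (v t : K)) t y z ≠ 0 := by
        intro h7
        refine h5 ?_
        show (L (t, y, z) : K) = 0
        rw [hL, h6, h7, add_zero]
      exact transl_cl hv0 h7
    · by_contra h7
      apply h6
      simp only [N', if_neg h7]
      rfl
  · have h5 := hN' t
    convert h5 using 1
    funext y z
    show (L (t, y, z) : K) - transl (fun t => (v t : K)) t y z = N' t y z
    rw [hL, add_sub_cancel_right]
  · rintro ⟨t, y, z⟩
    have h5 : P.r (L (t, y, z)) = P.r (N' t y z) + transl v' t y z := by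
      simp only [L, transl, map_add, map_mul, hv]
      congr 2 <;> (congr 1; split_ifs <;> simp)
    rw [h5, hNr', sub_add_cancel]

/-- the hypothesis specialises -/
lemma hyp_red [Fintype ι] [DecidableEq G] {cl : ι → G} {Ψ : G → Prop} {χ : G}
    {𝓕min 𝓕max : Submodule K (ι → ι → K)} {𝓕min' 𝓕max' : Submodule κ (ι → ι → κ)}
    (hmin : Spec P 𝓕min 𝓕min') (hmax : Spec P 𝓕max 𝓕max') (hgr : Graded cl 𝓕min)
    (hN : ∀ ψ, Ψ ψ → NCC cl ψ 𝓕max') {L : ι × ι × ι → P.B}
    (hL : Hyp cl Ψ χ 𝓕min 𝓕max fun x => (L x : K)) :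
    Hyp cl Ψ χ 𝓕min' 𝓕max' fun x => P.r (L x) := by
  obtain ⟨h1, h2, h3⟩ := hL
  refine ⟨fun t y z => congrArg P.r (Subtype.ext (h1 t y z)), fun t y z h => ?_,
    fun d hd F' hF' hFd' => ?_⟩
  · refine h2 t y z fun h4 => h ?_
    have h5 : L (t, y, z) = 0 := Subtype.ext h4
    show P.r (L (t, y, z)) = 0
    rw [h5, map_zero]
  obtain ⟨F0, hF0, hF0r⟩ := hmin.lift F' hF'
  let F : ι → ι → P.B := fun x y => if cl x + cl y = d then F0 x y else 0
  have hF : (fun x y => (F x y : K)) ∈ 𝓕min := by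
    have h5 := hgr _ hF0 d
    convert h5 using 1
    funext x y
    simp only [F]
    split_ifs <;> rfl
  have hFr : ∀ x y, P.r (F x y) = F' x y := by
    intro x y
    simp only [F]
    split_ifs with h5
    · exact hF0r x y
    · rw [map_zero]
      by_contra h6
      exact h5 (hFd' x y (Ne.symm h6))
  have hFd : HomF cl d fun x y => (F x y : K) := by
    intro x y h5
    by_contra h6
    apply h5
    simp only [F, if_neg h6]
    rfl
  obtain ⟨A, hA1, hA2, hA3⟩ := h3 d hd _ hF hFd
  -- `A` is integral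
  have hint : ∀ x y z, A x y z ∈ P.B := by
    rcases (p_PRIM K κ P (ι × ι × ι) fun x => A x.1 x.2.1 x.2.2).2 with h4 | h4
    · exact fun x y z => h4 (x, y, z)
    · exfalso
      obtain ⟨c, hc, Y, hY, ⟨x1, y1, z1⟩, hY1⟩ := h4
      have hY' : ∀ x y z, (Y (x, y, z) : K) = c * A x y z := fun x y z => (hY (x, y, z)).symm
      have hT : TSym fun x y z => c * (∑ t, F x t * L (t, y, z)) + Y (x, y, z) := by
        have e1 : ∀ x y z, ((c * (∑ t, F x t * L (t, y, z)) + Y (x, y, z) : P.B) : K) =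
            c * ((∑ t, (F x t : K) * L (t, y, z)) + A x y z) := by
          intro x y z
          push_cast
          rw [hY', mul_add]
        refine ⟨fun x y z => Subtype.ext ?_, fun x y z => Subtype.ext ?_⟩
        · have a1 := hA3.1 x y z
          simp only at a1
          rw [e1, e1, a1]
        · have a1 := hA3.2 x y z
          simp only at a1
          rw [e1, e1, a1]
      have hYr : ∀ x y z, P.r (c * (∑ t, F x t * L (t, y, z)) + Y (x, y, z)) =
          P.r (Y (x, y, z)) := by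
        intro x y z
        rw [map_add, map_mul, hc, zero_mul, zero_add]
      have h5 := hN (d + χ) hd (fun x y z => P.r (Y (x, y, z)))
        ⟨fun x y z => ?_, fun x y z => ?_⟩ (fun x y z h6 => ?_) (fun x => ?_) x1 y1 z1
      · simp only [hY1, map_one] at h5
        exact one_ne_zero h5
      · have := congrArg P.r (hT.1 x y z)
        simpa only [hYr] using this
      · have := congrArg P.r (hT.2 x y z)
        simpa only [hYr] using this
      · refine hA2 x y z fun h7 => h6 ?_
        have h8 : Y (x, y, z) = 0 := by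
          apply Subtype.ext
          rw [hY', h7, mul_zero]
          rfl
        show P.r (Y (x, y, z)) = 0
        rw [h8, map_zero]
      · refine hmax.red (fun y z => Y (x, y, z)) ?_
        have h6 := 𝓕max.smul_mem (c : K) (hA1 x)
        convert h6 using 1
        funext y z
        exact hY' x y z
  let B : ι → ι → ι → P.B := fun x y z => ⟨A x y z, hint x y z⟩
  refine ⟨fun x y z => P.r (B x y z), fun x => hmax.red (fun y z => B x y z) (hA1 x),
    fun x y z h4 => ?_, ?_⟩
  · refine hA2 x y z fun h5 => h4 ?_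
    have h6 : B x y z = 0 := Subtype.ext h5
    show P.r (B x y z) = 0
    rw [h6, map_zero]
  · have e1 : ∀ x y z, (∑ t, F' x t * P.r (L (t, y, z))) + P.r (B x y z) =
        P.r ((∑ t, F x t * L (t, y, z)) + B x y z) := by
      intro x y z
      rw [map_add, map_sum]
      simp only [map_mul, hFr]
    have e2 : ∀ x y z, (((∑ t, F x t * L (t, y, z)) + B x y z : P.B) : K) =
        (∑ t, (F x t : K) * L (t, y, z)) + A x y z := by
      intro x y z
      push_cast
      rfl
    refine ⟨fun x y z => ?_, fun x y z => ?_⟩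
    · simp only [e1]
      exact congrArg P.r (Subtype.ext (by rw [e2, e2]; exact hA3.1 x y z))
    · simp only [e1]
      exact congrArg P.r (Subtype.ext (by rw [e2, e2]; exact hA3.2 x y z))

end SC_

theorem p_SC (hLAT : T_LAT.{u}) : T_SC.{u} := by
  intro K κ _ _ P ι G _ _ _ _ cl Ψ 𝓕min 𝓕max 𝓕min' 𝓕max' hr hmin hmax hgmin hgmax hle hsym
  refine ⟨fun ψ h => SC_.ncc P hmax h, fun h => SC_.rowSpan P hmin h, fun χ hN h => ?_⟩
  rw [SC_.t1c_iff] at h ⊢
  intro L hL
  by_contra hLT
  obtain ⟨c, τ, μ, hτ, hμ, hμ'⟩ := hLAT K κ P (ι × ι × ι) (SC_.TT cl χ 𝓕max)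
    (SC_.TT cl χ 𝓕max') (SC_.lift_TT P hr hmax hgmax hsym) L hLT
  apply hμ'
  apply h
  refine SC_.hyp_red P hmin hmax hgmin hN ?_
  have h1 := hL.comb (SC_.hyp_of_TT hle hsym hτ) c
  have h2 : (fun x => (μ x : K)) = c • L - τ := by
    funext x
    exact hμ x
  rw [h2]
  exact h1

end Pool.Agent.VCU
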