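import Pool.Agent.VCU.Targets

set_option autoImplicit false

/-!
# Target `T_SPEC`

Specialisation of the annihilator of `W` at a place.
-/

namespace Pool.Agent.VCU

open Pool.Agent.VCC Pool.Agent.VCT

universe u

namespace SPEC_

section ring

variable {R S : Type*} [CommRing R] [CommRing S] {m s t : ℕ}

/-- the annihilator of `W` over a ring -/
structure InR (w : Arr m R) (v : VArr m s R) (hz : Fin s → Fin s → ℤ)
    (qz : Fin t → Fin s → Fin s → ℤ) (F : IZ m s → IZ m s → R) : Prop where
  symm : ∀ x y, F x y = F y x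
  diag : ∀ x, F x x = 0
  w : ∀ i j, i ≠ j → ∀ c, ∑ a, ∑ b, w i j c a b * F (xv i a) (xv j b) = 0
  v : ∀ i d, ∑ a, ∑ b, v i d a b * F (xv i a) (zv b) = 0
  q : ∀ τ, ∑ b, ∑ c, (qz τ b c : R) * F (zv b) (zv c) = 0
  h : ∑ i, (F (xv i 0) (xv i 1) + F (xv i 0) (xv i 2) + F (xv i 1) (xv i 2)) +
    ∑ b, ∑ c, (hz b c : R) * F (zv b) (zv c) = 0

lemma InR.map {w : Arr m R} {v : VArr m s R} {hz : Fin s → Fin s → ℤ}
    {qz : Fin t → Fin s → Fin s → ℤ} {F : IZ m s → IZ m s → R} (φ : R →+* S)
    (h : InR w v hz qz F) : InR (w.map φ) (v.map φ) hz qz (fun x y => φ (F x y)) := by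
  constructor
  · intro x y
    rw [h.symm x y]
  · intro x
    rw [h.diag x, map_zero]
  · intro i j hij c
    have h1 := congrArg φ (h.w i j hij c)
    simp only [map_sum, map_mul, map_zero] at h1
    exact h1
  · intro i d
    have h1 := congrArg φ (h.v i d)
    simp only [map_sum, map_mul, map_zero] at h1
    exact h1
  · intro τ
    have h1 := congrArg φ (h.q τ)
    simpa only [map_sum, map_mul, map_zero, map_intCast] using h1
  · have h1 := congrArg φ h.h
    simpa only [map_sum, map_mul, map_zero, map_intCast, map_add] using h1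

lemma InR.of_map {w : Arr m R} {v : VArr m s R} {hz : Fin s → Fin s → ℤ}
    {qz : Fin t → Fin s → Fin s → ℤ} {F : IZ m s → IZ m s → R} (φ : R →+* S)
    (hφ : Function.Injective φ)
    (h : InR (w.map φ) (v.map φ) hz qz (fun x y => φ (F x y))) : InR w v hz qz F := by
  constructor
  · intro x y
    exact hφ (h.symm x y)
  · intro x
    apply hφ
    rw [map_zero]
    exact h.diag x
  · intro i j hij c
    apply hφ
    have h1 := h.w i j hij c
    simp only [map_sum, map_mul, map_zero]
    exact h1
  · intro i d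
    apply hφ
    have h1 := h.v i d
    simp only [map_sum, map_mul, map_zero]
    exact h1
  · intro τ
    apply hφ
    have h1 := h.q τ
    simpa only [map_sum, map_mul, map_zero, map_intCast] using h1
  · apply hφ
    have h1 := h.h
    simpa only [map_sum, map_mul, map_zero, map_intCast, map_add] using h1

/-- the value at a pair of variables of `Z` -/
def zpq (f : Fin s × Fin s → R) (b c : Fin s) : R :=
  if b < c then f (b, c) else if c < b then f (c, b) else 0

/-- the coefficient -/
def cz (R : Type*) [CommRing R] (q : Fin s → Fin s → ℤ) (p : Fin s × Fin s) : R :=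
  if p.1 < p.2 then ((q p.1 p.2 + q p.2 p.1 : ℤ) : R) else 0

lemma sum_zpq (q : Fin s → Fin s → ℤ) (f : Fin s × Fin s → R) :
    ∑ b, ∑ c, (q b c : R) * zpq f b c = ∑ p, cz R q p * f p := by
  rw [Fintype.sum_prod_type]
  have h1 : ∀ b c : Fin s, (q b c : R) * zpq f b c =
      (if b < c then (q b c : R) * f (b, c) else 0) +
        (if c < b then (q b c : R) * f (c, b) else 0) := by
    intro b c
    unfold zpq
    by_cases h : b < c
    · have h' : ¬ c < b := not_lt.mpr h.le
      simp [h, h']
    · by_cases h' : c < b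
      · simp [h, h']
      · simp [h, h']
  simp only [h1, Finset.sum_add_distrib]
  rw [Finset.sum_comm (f := fun b c => if c < b then (q b c : R) * f (c, b) else 0),
    ← Finset.sum_add_distrib]
  refine Finset.sum_congr rfl fun b _ => ?_
  rw [← Finset.sum_add_distrib]
  refine Finset.sum_congr rfl fun c _ => ?_
  unfold cz
  by_cases h : b < c
  · simp only [h, if_true]
    push_cast
    ring
  · simp only [h, if_false]
    ring

lemma map_cz (φ : R →+* S) (q : Fin s → Fin s → ℤ) (p : Fin s × Fin s) :
    φ (cz R q p) = cz S q p := by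
  unfold cz
  split_ifs
  · exact map_intCast φ _
  · exact map_zero φ

end ring

section lin

variable {K κ : Type u} [Field K] [Field κ] (P : Place K κ)

/-- Solutions of a linear system with linearly independent reductions can be lifted. -/
lemma lift_sol (hs : Function.Surjective P.r) {N J : Type} [Fintype N] [DecidableEq N]
    [Fintype J] [DecidableEq J] (q : Matrix N J P.B)
    (hq : ∀ y : N → κ, (∀ j, ∑ n, y n * P.r (q n j) = 0) → y = 0) (f' : J → κ)
    (hf : ∀ n, ∑ j, P.r (q n j) * f' j = 0) :
    ∃ f : J → P.B, (∀ j, P.r (f j) = f' j) ∧ ∀ n, ∑ j, q n j * f j = 0 := by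
  classical
  set q' : Matrix N J κ := q.map P.r with hq'
  -- right inverse
  obtain ⟨ρ', hρ'⟩ : ∃ ρ' : Matrix J N κ, q' * ρ' = 1 := by
    have hker : LinearMap.ker (Matrix.mulVecLin (q'.transpose)) = ⊥ := by
      rw [LinearMap.ker_eq_bot']
      intro y hy
      apply hq
      intro j
      have h1 := congrFun hy j
      simp only [Matrix.mulVecLin_apply, Matrix.mulVec, dotProduct, Matrix.transpose_apply,
        Pi.zero_apply] at h1
      rw [← h1]
      refine Finset.sum_congr rfl fun n _ => ?_
      rw [mul_comm]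
      rfl
    obtain ⟨g, hg⟩ := LinearMap.exists_leftInverse_of_injective _ hker
    refine ⟨(LinearMap.toMatrix' g).transpose, ?_⟩
    have h1 := congrArg LinearMap.toMatrix' hg
    rw [LinearMap.toMatrix'_comp, LinearMap.toMatrix'_id, ← Matrix.toLin'_apply',
      LinearMap.toMatrix'_toLin'] at h1
    have h2 := congrArg Matrix.transpose h1
    rw [Matrix.transpose_mul, Matrix.transpose_transpose, Matrix.transpose_one] at h2
    exact h2
  choose l hl using hs
  set ρ : Matrix J N P.B := fun j n => l (ρ' j n) with hρ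
  set f0 : J → P.B := fun j => l (f' j) with hf0
  have hred : P.r.mapMatrix (q * ρ) = 1 := by
    rw [← hρ']
    ext a b
    have h1 : (q * ρ) a b = ∑ j, q a j * ρ j b := Matrix.mul_apply
    rw [RingHom.mapMatrix_apply, Matrix.map_apply, h1, Matrix.mul_apply, map_sum]
    refine Finset.sum_congr rfl fun j _ => ?_
    rw [map_mul]
    congr 1
    exact hl _
  have hdet : IsUnit (q * ρ).det := by
    by_contra hcon
    have h1 := P.nu _ hcon
    have h2 : P.r (q * ρ).det = 1 := by
      rw [RingHom.map_det, hred, Matrix.det_one]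
    rw [h2] at h1
    exact one_ne_zero h1
  set e : N → P.B := q.mulVec f0 with he
  have hre : ∀ n, P.r (e n) = 0 := by
    intro n
    rw [← hf n, he]
    simp only [Matrix.mulVec, dotProduct, map_sum, map_mul, hf0, hl]
  set g : N → P.B := (q * ρ)⁻¹.mulVec e with hg
  have hrg : ∀ n, P.r (g n) = 0 := by
    intro n
    rw [hg]
    simp only [Matrix.mulVec, dotProduct, map_sum, map_mul, hre, mul_zero,
      Finset.sum_const_zero]
  refine ⟨fun j => f0 j - (ρ.mulVec g) j, ?_, ?_⟩
  · intro j
    rw [map_sub, hf0]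
    simp only [hl]
    simp only [Matrix.mulVec, dotProduct, map_sum, map_mul, hrg, mul_zero,
      Finset.sum_const_zero, sub_zero]
  · intro n
    have h1 : q.mulVec (f0 - ρ.mulVec g) = 0 := by
      rw [Matrix.mulVec_sub, Matrix.mulVec_mulVec, hg, Matrix.mulVec_mulVec,
        Matrix.mul_nonsing_inv _ hdet, Matrix.one_mulVec, he, sub_self]
    have h2 := congrFun h1 n
    simpa only [Matrix.mulVec, dotProduct, Pi.sub_apply, Pi.zero_apply] using h2

end lin

lemma third (a b : Fin 3) (h : a ≠ b) : (-(a + b) + 1 = a ∧ -(a + b) + 2 = b) ∨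
    (-(a + b) + 1 = b ∧ -(a + b) + 2 = a) := by
  revert a b
  decide

section fin

variable {R : Type*} [CommRing R] {m s : ℕ}

/-- the functional built from its parts -/
def mk (fm : Fin m → Fin m → Fin 3 × Fin 3 → R) (fv : Fin m → Fin 3 × Fin s → R)
    (f0 : (Fin m × Fin 3) ⊕ (Fin s × Fin s) → R) : IZ m s → IZ m s → R
  | Sum.inl (i, a), Sum.inl (j, b) =>
    if i < j then fm i j (a, b) else if j < i then fm j i (b, a) else
      if a = b then 0 else f0 (Sum.inl (i, -(a + b)))
  | Sum.inl (i, a), Sum.inr b => fv i (a, b)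
  | Sum.inr b, Sum.inl (i, a) => fv i (a, b)
  | Sum.inr b, Sum.inr c => zpq (fun p => f0 (Sum.inr p)) b c

/-- the matrix of the class zero -/
def q0 (R : Type*) [CommRing R] {t : ℕ} (hz : Fin s → Fin s → ℤ)
    (qz : Fin t → Fin s → Fin s → ℤ) : Option (Fin t) → (Fin m × Fin 3) ⊕ (Fin s × Fin s) → R
  | none, Sum.inl _ => 1
  | none, Sum.inr p => cz R hz p
  | some _, Sum.inl _ => 0
  | some τ, Sum.inr p => cz R (qz τ) p

end fin

lemma toR {K : Type*} [Field K] {m s t : ℕ} {w : Arr m K} {v : VArr m s K}
    {hz : Fin s → Fin s → ℤ} {qz : Fin t → Fin s → Fin s → ℤ} {F : IZ m s → IZ m s → K}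
    (h : InFZ w v hz qz F) : InR w v hz qz F :=
  ⟨h.symm, h.diag, h.w, h.v, h.q, h.h⟩

lemma ofR {K : Type*} [Field K] {m s t : ℕ} {w : Arr m K} {v : VArr m s K}
    {hz : Fin s → Fin s → ℤ} {qz : Fin t → Fin s → Fin s → ℤ} {F : IZ m s → IZ m s → K}
    (h : InR w v hz qz F) : InFZ w v hz qz F :=
  ⟨h.symm, h.diag, h.w, h.v, h.q, h.h⟩

lemma zpq_self {R : Type*} [CommRing R] {m s : ℕ} {F : IZ m s → IZ m s → R}
    (hsym : ∀ x y, F x y = F y x) (hd : ∀ x, F x x = 0) (b c : Fin s) :
    zpq (fun p => F (zv p.1) (zv p.2)) b c = F (zv b) (zv c) := by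
  unfold zpq
  by_cases h : b < c
  · simp [h]
  · by_cases h' : c < b
    · simp only [h, h', if_true, if_false]
      exact hsym _ _
    · have hbc : b = c := le_antisymm (not_lt.mp h') (not_lt.mp h)
      subst hbc
      simp [hd]

lemma mk_InR {R : Type*} [CommRing R] {m s t : ℕ} (w : Arr m R) (v : VArr m s R)
    (hz : Fin s → Fin s → ℤ) (qz : Fin t → Fin s → Fin s → ℤ) (hw : WSym w)
    (fm : Fin m → Fin m → Fin 3 × Fin 3 → R) (fv : Fin m → Fin 3 × Fin s → R)
    (f0 : (Fin m × Fin 3) ⊕ (Fin s × Fin s) → R)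
    (h1 : ∀ i j, i ≠ j → ∀ c, ∑ p : Fin 3 × Fin 3, w i j c p.1 p.2 * fm i j p = 0)
    (h2 : ∀ i d, ∑ p : Fin 3 × Fin s, v i d p.1 p.2 * fv i p = 0)
    (h3 : ∀ n, ∑ j, q0 R hz qz n j * f0 j = 0) : InR w v hz qz (mk fm fv f0) := by
  constructor
  · rintro (⟨i, a⟩ | b) (⟨j, b'⟩ | c)
    · unfold mk
      rcases lt_trichotomy i j with h | h | h
      · simp [h, not_lt.mpr h.le]
      · subst h
        by_cases hab : a = b'
        · simp [hab]
        · simp [hab, Ne.symm hab, add_comm a b']
      · simp [h, not_lt.mpr h.le]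
    · rfl
    · rfl
    · unfold mk zpq
      rcases lt_trichotomy b c with h | h | h
      · simp [h, not_lt.mpr h.le]
      · simp [h]
      · simp [h, not_lt.mpr h.le]
  · rintro (⟨i, a⟩ | b)
    · simp [mk]
    · simp [mk, zpq]
  · intro i j hij c
    rcases lt_or_gt_of_ne hij with h | h
    · have h4 := h1 i j hij c
      rw [Fintype.sum_prod_type] at h4
      rw [← h4]
      refine Finset.sum_congr rfl fun a _ => Finset.sum_congr rfl fun b _ => ?_
      simp [mk, h]
    · have h4 := h1 j i (Ne.symm hij) c
      rw [Fintype.sum_prod_type_right] at h4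
      rw [← h4, hw.2 j i]
      refine Finset.sum_congr rfl fun a _ => Finset.sum_congr rfl fun b _ => ?_
      simp [mk, h, not_lt.mpr h.le, tr]
  · intro i d
    have h4 := h2 i d
    rw [Fintype.sum_prod_type] at h4
    exact h4
  · intro τ
    have h4 := h3 (some τ)
    rw [Fintype.sum_sum_type] at h4
    simp only [q0, zero_mul, Finset.sum_const_zero, zero_add] at h4
    rw [← h4]
    exact sum_zpq (qz τ) (fun p => f0 (Sum.inr p))
  · have h4 := h3 none
    rw [Fintype.sum_sum_type] at h4
    simp only [q0, one_mul] at h4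
    rw [← h4, ← sum_zpq hz (fun p => f0 (Sum.inr p)), Fintype.sum_prod_type]
    congr 1
    refine Finset.sum_congr rfl fun i _ => ?_
    have e1 : mk fm fv f0 (xv i 0) (xv i 1) = f0 (Sum.inl (i, 2)) := by
      simp only [mk, lt_irrefl, if_false]
      rfl
    have e2 : mk fm fv f0 (xv i 0) (xv i 2) = f0 (Sum.inl (i, 1)) := by
      simp only [mk, lt_irrefl, if_false]
      rfl
    have e3 : mk fm fv f0 (xv i 1) (xv i 2) = f0 (Sum.inl (i, 0)) := by
      simp only [mk, lt_irrefl, if_false]
      rfl
    rw [e1, e2, e3, Fin.sum_univ_three]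
    ring

end SPEC_

open SPEC_ in
theorem p_SPEC : T_SPEC.{u} := by
  intro m s t K κ _ _ P w v hz qz hs hm hw hshp hqshp hq hw3 hv
  refine ⟨?_, ?_⟩
  · intro F hF
    have h1 : InR (w.map P.B.subtype) (v.map P.B.subtype) hz qz
      (fun x y => P.B.subtype (F x y)) := toR hF
    exact ofR (InR.map P.r (InR.of_map P.B.subtype Subtype.val_injective h1))
  · intro F' hF'
    have h' : InR (w.map P.r) (v.map P.r) hz qz F' := toR hF'
    have h1 : ∀ i j, ∃ f : Fin 3 × Fin 3 → P.B, i ≠ j →
        (∀ p, P.r (f p) = F' (xv i p.1) (xv j p.2)) ∧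
        ∀ c, ∑ p : Fin 3 × Fin 3, w i j c p.1 p.2 * f p = 0 := by
      intro i j
      by_cases hij : i = j
      · exact ⟨0, fun h => absurd hij h⟩
      · obtain ⟨f, hf1, hf2⟩ := lift_sol P hs
          (fun (c : Fin 3) (p : Fin 3 × Fin 3) => w i j c p.1 p.2)
          (fun y hy => hw3 i j hij y fun a b => hy (a, b))
          (fun p => F' (xv i p.1) (xv j p.2)) (fun c => by
            rw [Fintype.sum_prod_type]
            exact h'.w i j hij c)
        exact ⟨f, fun _ => ⟨hf1, hf2⟩⟩
    have h2 : ∀ i, ∃ f : Fin 3 × Fin s → P.B, (∀ p, P.r (f p) = F' (xv i p.1) (zv p.2)) ∧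
        ∀ d, ∑ p : Fin 3 × Fin s, v i d p.1 p.2 * f p = 0 := by
      intro i
      exact lift_sol P hs (fun (d : Fin s) (p : Fin 3 × Fin s) => v i d p.1 p.2)
        (fun y hy => hv i y fun a b => hy (a, b))
        (fun p => F' (xv i p.1) (zv p.2)) (fun d => by
          rw [Fintype.sum_prod_type]
          exact h'.v i d)
    have hred : ∀ n j, P.r (q0 (m := m) P.B hz qz n j) = q0 κ hz qz n j := by
      rintro (_ | τ) (j | p)
      · exact map_one P.r
      · exact map_cz P.r hz p
      · exact map_zero P.r
      · exact map_cz P.r (qz τ) p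
    have hzz : ∀ q : Fin s → Fin s → ℤ, ∑ b, ∑ c, (q b c : κ) * F' (zv b) (zv c) =
        ∑ p, cz κ q p * F' (zv p.1) (zv p.2) := by
      intro q
      rw [← sum_zpq q (fun p => F' (zv p.1) (zv p.2))]
      refine Finset.sum_congr rfl fun b _ => Finset.sum_congr rfl fun c _ => ?_
      rw [zpq_self h'.symm h'.diag]
    obtain ⟨f0, hf0, hf0'⟩ := lift_sol P hs (q0 (m := m) P.B hz qz) (by
        intro y hy
        simp only [hred, Fintype.sum_option] at hy
        have hy0 : y none = 0 := by
          have h4 := hy (Sum.inl (⟨0, hm⟩, 0))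
          simpa [q0] using h4
        have hy1 : (fun τ => y (some τ)) = 0 := by
          apply hq
          intro b c hbc
          have key : ∀ b c : Fin s, b < c → ∑ τ, y (some τ) * qs κ (qz τ) b c = 0 := by
            intro b c hlt
            have h4 := hy (Sum.inr (b, c))
            simp only [q0, hy0, zero_mul, zero_add, cz, hlt, if_true] at h4
            exact h4
          rcases lt_or_gt_of_ne hbc with h | h
          · exact key b c h
          · rw [← key c b h]
            refine Finset.sum_congr rfl fun τ _ => ?_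
            unfold qs
            rw [add_comm]
        funext n
        cases n with
        | none => exact hy0
        | some τ => exact congrFun hy1 τ)
      (fun j => match j with
        | Sum.inl (i, e) => F' (xv i (e + 1)) (xv i (e + 2))
        | Sum.inr p => F' (zv p.1) (zv p.2)) (by
        intro n
        simp only [hred]
        rw [Fintype.sum_sum_type]
        cases n with
        | none =>
          have h4 := h'.h
          rw [hzz] at h4
          rw [← h4]
          simp only [q0, one_mul]
          congr 1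
          rw [Fintype.sum_prod_type]
          refine Finset.sum_congr rfl fun i _ => ?_
          rw [Fin.sum_univ_three]
          change F' (xv i 1) (xv i 2) + F' (xv i 2) (xv i 0) + F' (xv i 0) (xv i 1) = _
          rw [h'.symm (xv i 2) (xv i 0)]
          ring
        | some τ =>
          have h4 := h'.q τ
          rw [hzz] at h4
          rw [← h4]
          simp only [q0, zero_mul, Finset.sum_const_zero, zero_add])
    choose fm hfm using h1
    choose fv hfv hfv' using h2
    have hmk := mk_InR w v hz qz hw fm fv f0 (fun i j hij => (hfm i j hij).2) hfv' hf0'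
    refine ⟨mk fm fv f0, ofR (InR.map P.B.subtype hmk), ?_⟩
    rintro (⟨i, a⟩ | b) (⟨j, b'⟩ | c)
    · rcases lt_trichotomy i j with h | h | h
      · have e : mk fm fv f0 (Sum.inl (i, a)) (Sum.inl (j, b')) = fm i j (a, b') := by
          simp [mk, h]
        rw [e]
        exact (hfm i j h.ne).1 (a, b')
      · subst h
        by_cases hab : a = b'
        · subst hab
          rw [hmk.diag, map_zero]
          exact (h'.diag _).symm
        · have e : mk fm fv f0 (Sum.inl (i, a)) (Sum.inl (i, b')) =
              f0 (Sum.inl (i, -(a + b'))) := by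
            simp [mk, hab]
          rw [e, hf0]
          change F' (xv i (-(a + b') + 1)) (xv i (-(a + b') + 2)) = F' (xv i a) (xv i b')
          rcases third a b' hab with ⟨h4, h5⟩ | ⟨h4, h5⟩
          · rw [h4, h5]
          · rw [h4, h5]
            exact h'.symm _ _
      · have e : mk fm fv f0 (Sum.inl (i, a)) (Sum.inl (j, b')) = fm j i (b', a) := by
          simp [mk, h, not_lt.mpr h.le]
        rw [e]
        exact ((hfm j i h.ne).1 (b', a)).trans (h'.symm _ _)
    · exact hfv i (a, c)
    · exact (hfv j (b', b)).trans (h'.symm _ _)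
    · change P.r (zpq (fun p => f0 (Sum.inr p)) b c) = F' (zv b) (zv c)
      rw [← zpq_self h'.symm h'.diag]
      unfold zpq
      split_ifs
      · exact hf0 (Sum.inr (b, c))
      · exact hf0 (Sum.inr (c, b))
      · exact map_zero P.r

end Pool.Agent.VCU
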