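import Pool.Agent.VCU.Targets

/-!
# The images of the syzygies
-/

set_option autoImplicit false

namespace Pool.Agent.VCU

open Pool.Agent.VCC Pool.Agent.VCT HilbPts

universe u

section

variable {K : Type*} [Field K] {m s t : ℕ}

/-! ### Sums over pairs and triples -/

theorem SYZ_.two (n : ℕ) (f : Fin n → Fin n → K) (h1 : ∀ a b, a ≠ b → f a b + f b a = 0)
    (h2 : ∀ a, f a a = 0) : ∑ a, ∑ b, f a b = 0 := by
  induction n with
  | zero => simp
  | succ n ih =>
    have ih' := ih (fun a b => f a.castSucc b.castSucc)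
      (fun a b hab => h1 _ _ fun h => hab (Fin.castSucc_injective n h)) (fun a => h2 _)
    have h3 : ∑ a : Fin n, (f a.castSucc (Fin.last n) + f (Fin.last n) a.castSucc) = 0 :=
      Finset.sum_eq_zero fun a _ => h1 _ _ (Fin.castSucc_lt_last a).ne
    rw [Finset.sum_add_distrib] at h3
    simp only [Fin.sum_univ_castSucc, Finset.sum_add_distrib, h2]
    linear_combination ih' + h3

theorem SYZ_.three (n : ℕ) (f : Fin n → Fin n → Fin n → K)
    (h1 : ∀ a b c, a ≠ b → a ≠ c → b ≠ c →
      f a b c + f a c b + f b a c + f b c a + f c a b + f c b a = 0)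
    (h2 : ∀ a b, a ≠ b → f a b b + f b a b + f b b a = 0)
    (h3 : ∀ a, f a a a = 0) : ∑ a, ∑ b, ∑ c, f a b c = 0 := by
  induction n with
  | zero => simp
  | succ n ih =>
    have hl : ∀ a : Fin n, a.castSucc ≠ Fin.last n := fun a => (Fin.castSucc_lt_last a).ne
    have hi : ∀ a b : Fin n, a ≠ b → a.castSucc ≠ b.castSucc :=
      fun a b hab h => hab (Fin.castSucc_injective n h)
    have ih' := ih (fun a b c => f a.castSucc b.castSucc c.castSucc)
      (fun a b c hab hac hbc => h1 _ _ _ (hi _ _ hab) (hi _ _ hac) (hi _ _ hbc))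
      (fun a b hab => h2 _ _ (hi _ _ hab)) (fun a => h3 _)
    have h4 : ∑ a : Fin n, (f a.castSucc (Fin.last n) (Fin.last n) +
        f (Fin.last n) a.castSucc (Fin.last n) + f (Fin.last n) (Fin.last n) a.castSucc) = 0 :=
      Finset.sum_eq_zero fun a _ => h2 _ _ (hl a)
    have h5 : ∑ a : Fin n, ∑ b : Fin n, (f a.castSucc b.castSucc (Fin.last n) +
        f a.castSucc (Fin.last n) b.castSucc + f (Fin.last n) a.castSucc b.castSucc) = 0 := by
      refine SYZ_.two n _ (fun a b hab => ?_) (fun a => ?_)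
      · have := h1 a.castSucc b.castSucc (Fin.last n) (hi _ _ hab) (hl a) (hl b)
        linear_combination this
      · have := h2 (Fin.last n) a.castSucc (hl a).symm
        linear_combination this
    simp only [Finset.sum_add_distrib] at h4 h5
    simp only [Fin.sum_univ_castSucc, Finset.sum_add_distrib, h3]
    linear_combination ih' + h4 + h5

/-- the part in `S²Z` -/
theorem SYZ_.zpair (v : VFm s K) (y : Fin s → Fin s → K) (A : Fin 3 → Fin s → Fin s → K)
    (hA : ∀ a b, A a b b = 0)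
    (h : ∀ a b c, b ≠ c → LY v y a b c + (A a b c + A a c b) = 0)
    (t : Fin 3 → Fin s → Fin s → K) (ht : ∀ a b c, t a b c = t a c b) :
    ∑ b, ∑ d, y b d * (∑ a, ∑ c, v d a c * t a b c) =
      ∑ a, ∑ b, QY v y a b * t a b b - ∑ a, ∑ b, ∑ c, A a b c * t a b c := by
  have key : ∀ a, ∑ b, ∑ c, ((∑ d, y b d * v d a c) * t a b c + A a b c * t a b c -
      (if b = c then QY v y a b * t a b b else 0)) = 0 := by
    intro a
    refine SYZ_.two s _ (fun b c hbc => ?_) (fun b => ?_)
    · have := h a b c hbc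
      simp only [LY, Finset.sum_add_distrib] at this
      rw [if_neg hbc, if_neg hbc.symm, ht a c b]
      linear_combination t a b c * this
    · rw [if_pos rfl, hA]
      unfold QY
      ring
  have h1 : ∑ b, ∑ d, y b d * (∑ a, ∑ c, v d a c * t a b c) =
      ∑ a, ∑ b, ∑ c, (∑ d, y b d * v d a c) * t a b c := by
    rw [Finset.sum_comm (s := (Finset.univ : Finset (Fin 3)))]
    refine Finset.sum_congr rfl fun b _ => ?_
    simp only [Finset.mul_sum, Finset.sum_mul]
    rw [Finset.sum_comm]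
    refine Finset.sum_congr rfl fun a _ => ?_
    rw [Finset.sum_comm]
    exact Finset.sum_congr rfl fun c _ => Finset.sum_congr rfl fun d _ => by ring
  have h2 := Finset.sum_eq_zero fun a (_ : a ∈ Finset.univ) => key a
  simp only [Finset.sum_add_distrib, Finset.sum_sub_distrib, Finset.sum_ite_eq,
    Finset.mem_univ, if_true] at h2
  rw [h1]
  linear_combination h2

/-- the part in `S²V_j` -/
theorem SYZ_.rpair (v : VFm s K) (r : Fin 3 → Fin s → K) (b : Fin s)
    (h : ∀ e c, LR v r e c = if b = c then 1 else 0)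
    (t : Fin s → Fin 3 → Fin 3 → K) (ht : ∀ c a a', t c a a' = t c a' a) :
    t b 0 1 + t b 0 2 + t b 1 2 + ∑ c, ∑ a, QR v r a c * t c a a =
      ∑ a, ∑ d, r a d * (∑ a', ∑ c, v d a' c * t c a a') := by
  have f1 : (1 : Fin 3) + 1 = 2 := rfl
  have f2 : (1 : Fin 3) + 2 = 0 := rfl
  have f3 : (2 : Fin 3) + 1 = 0 := rfl
  have f4 : (2 : Fin 3) + 2 = 1 := rfl
  have h1 : ∑ a, ∑ d, r a d * (∑ a', ∑ c, v d a' c * t c a a') =
      ∑ c, ∑ a, ∑ a', (∑ d, r a d * v d a' c) * t c a a' := by
    rw [Finset.sum_comm (s := (Finset.univ : Finset (Fin s)))]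
    refine Finset.sum_congr rfl fun a _ => ?_
    simp only [Finset.mul_sum, Finset.sum_mul]
    rw [Finset.sum_comm, Finset.sum_comm (s := (Finset.univ : Finset (Fin s)))]
    refine Finset.sum_congr rfl fun a' _ => ?_
    rw [Finset.sum_comm]
    exact Finset.sum_congr rfl fun c _ => Finset.sum_congr rfl fun d _ => by ring
  have h2 : ∀ c, ∑ a, ∑ a', (∑ d, r a d * v d a' c) * t c a a' =
      ∑ a, QR v r a c * t c a a +
        (if b = c then (t c 0 1 + t c 0 2 + t c 1 2) else 0) := by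
    intro c
    have e0 := h 0 c
    have e1 := h 1 c
    have e2 := h 2 c
    simp only [LR, Finset.sum_add_distrib, zero_add, f1, f2, f3, f4] at e0 e1 e2
    have g1 : t c 1 0 = t c 0 1 := ht _ _ _
    have g2 : t c 2 0 = t c 0 2 := ht _ _ _
    have g3 : t c 2 1 = t c 1 2 := ht _ _ _
    simp only [QR, Fin.sum_univ_three, g1, g2, g3]
    by_cases hbc : b = c
    · simp only [hbc, if_true] at e0 e1 e2 ⊢
      linear_combination t c 1 2 * e0 + t c 0 2 * e1 + t c 0 1 * e2
    · simp only [hbc, if_false] at e0 e1 e2 ⊢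
      linear_combination t c 1 2 * e0 + t c 0 2 * e1 + t c 0 1 * e2
  rw [h1, Finset.sum_congr rfl fun c _ => h2 c, Finset.sum_add_distrib]
  simp only [Finset.sum_ite_eq, Finset.mem_univ, if_true]
  ring

/-- the part in `S³Z` -/
theorem SYZ_.ztri (hz : Fin s → Fin s → ℤ) (qz : Fin t → Fin s → Fin s → ℤ)
    (hz0 : Shp hz) (hq0 : ∀ τ, Shp (qz τ)) (k : Fin s → Fin s → Fin t → K) (b : Fin s)
    (h : ∀ c1 c2 c3, c1 ≠ c2 → c1 ≠ c3 → c2 ≠ c3 →
      ∑ τ, (k b c1 τ * qs K (qz τ) c2 c3 + k b c2 τ * qs K (qz τ) c1 c3 +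
        k b c3 τ * qs K (qz τ) c1 c2) =
      (if b = c1 then qs K hz c2 c3 else 0) + (if b = c2 then qs K hz c1 c3 else 0) +
        (if b = c3 then qs K hz c1 c2 else 0))
    (T : Fin s → Fin s → Fin s → K) (h12 : ∀ x y z, T x y z = T y x z)
    (h23 : ∀ x y z, T x y z = T x z y) :
    ∑ c, ∑ d, (hz c d : K) * T b c d =
      ∑ c, ∑ τ, k b c τ * (∑ c', ∑ d, (qz τ c' d : K) * T c c' d) +
        ∑ c, ∑ d, (if c = d then 0 else kap hz qz k b c d * T c d d) := by
  have hb : ∀ (x : Fin s) (A : K), (if b = x then A else 0) = (if b = x then 1 else 0) * A :=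
    fun x A => by split_ifs <;> simp
  have hz1 : ∀ x, (hz x x : K) = 0 := fun x => by rw [hz0 x]; simp
  have hq2 : ∀ x y, ∑ τ, k b x τ * (qz τ y y : K) = 0 := fun x y =>
    Finset.sum_eq_zero fun τ _ => by rw [hq0 τ y]; simp
  have key : ∑ c1, ∑ c2, ∑ c3, ((if b = c1 then 1 else 0) * (hz c2 c3 : K) * T c1 c2 c3 -
      (∑ τ, k b c1 τ * (qz τ c2 c3 : K)) * T c1 c2 c3 -
      (if c2 = c3 then (if c1 = c2 then 0 else kap hz qz k b c1 c2 * T c1 c2 c2) else 0)) = 0 := by
    refine SYZ_.three s _ (fun x y z hxy hxz hyz => ?_) (fun x y hxy => ?_) (fun x => ?_)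
    · have := h x y z hxy hxz hyz
      rw [hb x, hb y, hb z] at this
      simp only [qs, Int.cast_add, mul_add, Finset.sum_add_distrib] at this
      have g1 : T x z y = T x y z := h23 _ _ _
      have g2 : T y x z = T x y z := h12 _ _ _
      have g3 : T y z x = T x y z := by rw [h23, h12]
      have g4 : T z x y = T x y z := by rw [h12, h23]
      have g5 : T z y x = T x y z := by rw [h23, g4]
      simp only [g1, g2, g3, g4, g5, if_neg hyz, if_neg hxz, if_neg hxy, if_neg hyz.symm,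
        if_neg hxz.symm, if_neg hxy.symm]
      linear_combination - T x y z * this
    · have g1 : T y x y = T x y y := h12 _ _ _
      have g2 : T y y x = T x y y := by rw [h23, h12]
      have hk : kap hz qz k b x y = (if b = y then 1 else 0) * ((hz x y : K) + (hz y x : K)) -
          (∑ τ, k b y τ * (qz τ x y : K) + ∑ τ, k b y τ * (qz τ y x : K)) := by
        simp only [kap, qs, Int.cast_add, mul_add, Finset.sum_add_distrib]
        split_ifs <;> ring
      simp only [g1, g2, if_neg hxy, if_neg hxy.symm, if_true, hz1, hq2, hk]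
      ring
    · simp only [if_true, hz1, hq2]
      ring
  simp only [Finset.sum_sub_distrib, Finset.sum_ite_eq, Finset.mem_univ, if_true] at key
  have e1 : ∑ c1, ∑ c2, ∑ c3, (if b = c1 then 1 else 0) * (hz c2 c3 : K) * T c1 c2 c3 =
      ∑ c, ∑ d, (hz c d : K) * T b c d := by
    rw [Finset.sum_eq_single b]
    · simp
    · intro x _ hx
      simp [hx.symm]
    · simp
  have e2 : ∑ c1, ∑ c2, ∑ c3, (∑ τ, k b c1 τ * (qz τ c2 c3 : K)) * T c1 c2 c3 =
      ∑ c, ∑ τ, k b c τ * (∑ c', ∑ d, (qz τ c' d : K) * T c c' d) := by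
    refine Finset.sum_congr rfl fun c _ => ?_
    simp only [Finset.mul_sum, Finset.sum_mul]
    rw [Finset.sum_comm (s := (Finset.univ : Finset (Fin t)))]
    refine Finset.sum_congr rfl fun x _ => ?_
    rw [Finset.sum_comm (s := (Finset.univ : Finset (Fin t)))]
    exact Finset.sum_congr rfl fun y _ => Finset.sum_congr rfl fun τ _ => by ring
  rw [e1, e2] at key
  linear_combination key

/-! ### The identities for a totally symmetric form -/

/-- the sums of the quadrics of `Z` -/
theorem SYZ_.sumA (hz : Fin s → Fin s → ℤ) (qz : Fin t → Fin s → Fin s → ℤ)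
    (p : Fin 3 → Fin t → K) (c : Fin 3 → K) (T : Fin 3 → Fin s → Fin s → K) :
    ∑ a, ∑ b, ∑ d, (∑ τ, p a τ * (qz τ b d : K) - c a * (hz b d : K)) * T a b d =
      ∑ a, ∑ τ, p a τ * (∑ b, ∑ d, (qz τ b d : K) * T a b d) -
        ∑ a, c a * (∑ b, ∑ d, (hz b d : K) * T a b d) := by
  rw [← Finset.sum_sub_distrib]
  refine Finset.sum_congr rfl fun a _ => ?_
  simp only [sub_mul, Finset.sum_sub_distrib, Finset.mul_sum, Finset.sum_mul]
  congr 1
  · rw [Finset.sum_comm (s := (Finset.univ : Finset (Fin t)))]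
    refine Finset.sum_congr rfl fun b _ => ?_
    rw [Finset.sum_comm (s := (Finset.univ : Finset (Fin t)))]
    exact Finset.sum_congr rfl fun d _ => Finset.sum_congr rfl fun τ _ => by ring
  · exact Finset.sum_congr rfl fun b _ => Finset.sum_congr rfl fun d _ => by ring

theorem SYZ_.split (i : Fin m) (A B : Fin m → K) :
    ∑ k, (if k = i then A k else B k) = A i + ∑ k, (if k = i then 0 else B k) := by
  have : ∀ k, (if k = i then A k else B k) =
      (if k = i then A k else 0) + (if k = i then 0 else B k) := by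
    intro k
    by_cases hk : k = i <;> simp [hk]
  rw [Finset.sum_congr rfl fun k _ => this k, Finset.sum_add_distrib]
  simp

/-- the identity of `E_i(u)` -/
theorem SYZ_.idE (w : Arr m K) (v : VArr m s K)
    (hz : Fin s → Fin s → ℤ) (qz : Fin t → Fin s → Fin s → ℤ) (D : ZD m s t K)
    (hz0 : Shp hz) (hq0 : ∀ τ, Shp (qz τ)) (hD : ZDOK w v hz qz D)
    (T : IZ m s → IZ m s → IZ m s → K) (hT : TSym T) (i : Fin m) (u : Fin 2) :
    ∑ x, QE w v D (Sf T) (Ff w T) (Fzf v T) (Gf hz T) (Gqf qz T) i u x x = 0 := by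
  have h12 := hT.1
  have h23 := hT.2
  have hself := SYZ_.zpair (v i) (D.y i u)
    (fun a b c => ∑ τ, D.y5 i u a τ * (qz τ b c : K) - uu u a * (hz b c : K))
    (fun a b => by
      rw [hz0 b, Finset.sum_eq_zero fun τ _ => by rw [hq0 τ b]; simp]
      simp)
    (fun a b c hbc => by
      have := hD.yok i u a b c hbc
      simp only [qs, Int.cast_add, mul_add, Finset.sum_add_distrib] at this
      linear_combination this)
    (fun a b c => T (xv i a) (zv b) (zv c)) (fun a b c => h23 _ _ _)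
  rw [SYZ_.sumA hz qz (D.y5 i u) (fun a => uu u a) (fun a b c => T (xv i a) (zv b) (zv c))]
    at hself
  -- the part in the 3-blocks
  let B : Fin m → K := fun j => ∑ e, uu u e * (T (xv i e) (xv j 0) (xv j 1) +
    T (xv i e) (xv j 0) (xv j 2) + T (xv i e) (xv j 1) (xv j 2))
  have e2 : ∀ k, k ≠ i → ∑ e, ∑ c, D.z i k u e c * Ff w T i k c (xv k e) =
      ∑ a, ∑ b, Q2 (w i k) (D.z i k u) a b * T (xv i a) (xv k b) (xv k b) + B k := by
    intro k hk
    have hp := SYS_.pair (w i k) (D.z i k u) (fun a _ => uu u a)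
      (fun a b b' => T (xv i a) (xv k b) (xv k b')) (fun a b b' => h23 _ _ _)
      (fun a e => hD.zok i k (Ne.symm hk) u a e)
    have hq : ∑ a, ∑ e, uu u a * T (xv i a) (xv k (e + 1)) (xv k (e + 2)) = B k := by
      refine Finset.sum_congr rfl fun a _ => ?_
      have f1 : (1 : Fin 3) + 1 = 2 := rfl
      have f2 : (1 : Fin 3) + 2 = 0 := rfl
      have f3 : (2 : Fin 3) + 1 = 0 := rfl
      have f4 : (2 : Fin 3) + 2 = 1 := rfl
      rw [Fin.sum_univ_three]
      simp only [zero_add, f1, f2, f3, f4, h23 (xv i a) (xv k 2) (xv k 0)]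
      ring
    have hr : ∑ e, ∑ c, D.z i k u e c * Ff w T i k c (xv k e) =
        ∑ e, ∑ c, D.z i k u e c *
          (∑ a, ∑ b, w i k c a b * T (xv i a) (xv k e) (xv k b)) := by
      refine Finset.sum_congr rfl fun e _ => Finset.sum_congr rfl fun c _ => ?_
      congr 1
      unfold Ff
      refine Finset.sum_congr rfl fun a _ => Finset.sum_congr rfl fun b _ => ?_
      rw [h12]
    beta_reduce at hp
    rw [hq] at hp
    rw [hr]
    linear_combination -hp
  have e4 : ∑ e, uu u e * Gf hz T (xv i e) = ∑ j, B j +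
      ∑ e, uu u e * (∑ b, ∑ c, (hz b c : K) * T (xv i e) (zv b) (zv c)) := by
    simp only [B]
    rw [Finset.sum_comm, ← Finset.sum_add_distrib]
    refine Finset.sum_congr rfl fun e _ => ?_
    unfold Gf
    rw [mul_add, Finset.mul_sum]
  have e5 : ∑ j, B j = ∑ e, ∑ a, (if a = e then 0 else uu u a * T (xv i e) (xv i a) (xv i a)) +
      ∑ j, (if j = i then 0 else B j) := by
    have h1 := SYZ_.split i B B
    have h2 := SYS_.self u (fun a b c => T (xv i a) (xv i b) (xv i c))
      (fun a b c => h12 _ _ _) (fun a b c => h23 _ _ _)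
    rw [← h2]
    simp only [ite_self] at h1
    exact h1
  have e6 : ∑ b, ∑ d, D.y i u b d * Fzf v T i d (zv b) =
      ∑ b, ∑ d, D.y i u b d * (∑ a, ∑ c, v i d a c * T (xv i a) (zv b) (zv c)) := by
    refine Finset.sum_congr rfl fun b _ => Finset.sum_congr rfl fun d _ => ?_
    congr 1
    unfold Fzf
    exact Finset.sum_congr rfl fun a _ => Finset.sum_congr rfl fun c _ => by rw [h12]
  have e7 : ∑ k, ∑ e, QE w v D (Sf T) (Ff w T) (Fzf v T) (Gf hz T) (Gqf qz T) i u
        (Sum.inl (k, e)) (Sum.inl (k, e)) =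
      ∑ k, (if k = i then ∑ e, (uu u e * Gf hz T (xv i e) -
        ∑ a, (if a = e then 0 else uu u a * T (xv i e) (xv i a) (xv i a)) +
        ∑ j, (if j = i then 0 else ∑ c, Q2 (w i j) (D.z i j u) e c *
          T (xv i e) (xv j c) (xv j c)) +
        ∑ b, QY (v i) (D.y i u) e b * T (xv i e) (zv b) (zv b) -
        ∑ τ, D.y5 i u e τ * Gqf qz T τ (xv i e)) else
        - ∑ e, ∑ c, D.z i k u e c * Ff w T i k c (xv k e)) := by
    refine Finset.sum_congr rfl fun k _ => ?_
    by_cases hk : k = i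
    · subst hk
      rw [if_pos rfl]
      refine Finset.sum_congr rfl fun e _ => ?_
      simp only [QE, if_true, Sf]
    · rw [if_neg hk, ← Finset.sum_neg_distrib]
      refine Finset.sum_congr rfl fun e _ => ?_
      simp only [QE, if_neg hk]
  have e8 : ∑ k, (if k = i then (0 : K) else
        - ∑ e, ∑ c, D.z i k u e c * Ff w T i k c (xv k e)) =
      - ∑ k, (if k = i then (0 : K) else
        ∑ a, ∑ b, Q2 (w i k) (D.z i k u) a b * T (xv i a) (xv k b) (xv k b)) -
      ∑ j, (if j = i then 0 else B j) := by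
    rw [← Finset.sum_neg_distrib, ← Finset.sum_sub_distrib]
    refine Finset.sum_congr rfl fun k _ => ?_
    by_cases hk : k = i
    · simp [hk]
    · simp only [if_neg hk]
      rw [e2 k hk]
      ring
  have e9 : ∑ e, ∑ j, (if j = i then (0 : K) else ∑ c, Q2 (w i j) (D.z i j u) e c *
        T (xv i e) (xv j c) (xv j c)) =
      ∑ k, (if k = i then (0 : K) else
        ∑ a, ∑ b, Q2 (w i k) (D.z i k u) a b * T (xv i a) (xv k b) (xv k b)) := by
    rw [Finset.sum_comm]
    refine Finset.sum_congr rfl fun k _ => ?_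
    by_cases hk : k = i <;> simp [hk]
  have e10 : ∑ b, QE w v D (Sf T) (Ff w T) (Fzf v T) (Gf hz T) (Gqf qz T) i u
        (Sum.inr b) (Sum.inr b) = - ∑ b, ∑ d, D.y i u b d * Fzf v T i d (zv b) := by
    rw [← Finset.sum_neg_distrib]
    rfl
  rw [Fintype.sum_sum_type, Fintype.sum_prod_type, e7, SYZ_.split, e8, e10, e6, hself]
  simp only [Finset.sum_add_distrib, Finset.sum_sub_distrib]
  rw [e4, e5, e9]
  unfold Gqf
  ring

/-- the identity of `P_i` -/
theorem SYZ_.idP (w : Arr m K) (v : VArr m s K)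
    (hz : Fin s → Fin s → ℤ) (qz : Fin t → Fin s → Fin s → ℤ) (D : ZD m s t K)
    (hq0 : ∀ τ, Shp (qz τ)) (hD : ZDOK w v hz qz D)
    (T : IZ m s → IZ m s → IZ m s → K) (hT : TSym T) (i : Fin m) :
    ∑ x, QP v D (Sf T) (Fzf v T) (Gqf qz T) i x x = 0 := by
  have h12 := hT.1
  have h23 := hT.2
  have hself := SYZ_.zpair (v i) (D.p i)
    (fun a b c => ∑ τ, D.p5 i a τ * (qz τ b c : K) - 0 * (hz b c : K))
    (fun a b => by
      rw [Finset.sum_eq_zero fun τ _ => by rw [hq0 τ b]; simp]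
      simp)
    (fun a b c hbc => by
      have := hD.pok i a b c hbc
      simp only [qs, Int.cast_add, mul_add, Finset.sum_add_distrib] at this
      linear_combination this)
    (fun a b c => T (xv i a) (zv b) (zv c)) (fun a b c => h23 _ _ _)
  rw [SYZ_.sumA hz qz (D.p5 i) (fun _ => 0) (fun a b c => T (xv i a) (zv b) (zv c))]
    at hself
  have e6 : ∑ b, ∑ d, D.p i b d * Fzf v T i d (zv b) =
      ∑ b, ∑ d, D.p i b d * (∑ a, ∑ c, v i d a c * T (xv i a) (zv b) (zv c)) := by
    refine Finset.sum_congr rfl fun b _ => Finset.sum_congr rfl fun d _ => ?_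
    congr 1
    unfold Fzf
    exact Finset.sum_congr rfl fun a _ => Finset.sum_congr rfl fun c _ => by rw [h12]
  have e7 : ∑ k, ∑ e, QP v D (Sf T) (Fzf v T) (Gqf qz T) i (Sum.inl (k, e)) (Sum.inl (k, e)) =
      ∑ k, (if k = i then ∑ e, (∑ τ, D.p5 i e τ * Gqf qz T τ (xv i e) -
        ∑ b, QY (v i) (D.p i) e b * T (xv i e) (zv b) (zv b)) else 0) := by
    refine Finset.sum_congr rfl fun k _ => ?_
    by_cases hk : k = i
    · subst hk
      rw [if_pos rfl]
      refine Finset.sum_congr rfl fun e _ => ?_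
      simp only [QP, if_true, Sf]
    · rw [if_neg hk]
      refine Finset.sum_eq_zero fun e _ => ?_
      simp only [QP, if_neg hk]
  have e10 : ∑ b, QP v D (Sf T) (Fzf v T) (Gqf qz T) i (Sum.inr b) (Sum.inr b) =
      ∑ b, ∑ d, D.p i b d * Fzf v T i d (zv b) := rfl
  rw [Fintype.sum_sum_type, Fintype.sum_prod_type, e7, e10, e6, hself]
  simp only [Finset.sum_ite_eq', Finset.mem_univ, if_true, Finset.sum_sub_distrib, zero_mul,
    Finset.sum_const_zero]
  unfold Gqf
  ring

/-- the identity of `E_Z(z_b)` -/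
theorem SYZ_.idZ (w : Arr m K) (v : VArr m s K)
    (hz : Fin s → Fin s → ℤ) (qz : Fin t → Fin s → Fin s → ℤ) (D : ZD m s t K)
    (hz0 : Shp hz) (hq0 : ∀ τ, Shp (qz τ)) (hD : ZDOK w v hz qz D)
    (T : IZ m s → IZ m s → IZ m s → K) (hT : TSym T) (b : Fin s) :
    ∑ x, QEZ v hz qz D (Sf T) (Fzf v T) (Gf hz T) (Gqf qz T) b x x = 0 := by
  have h12 := hT.1
  have h23 := hT.2
  have ht := SYZ_.ztri hz qz hz0 hq0 D.k b (fun c1 c2 c3 => hD.kok b c1 c2 c3)
    (fun x y z => T (zv x) (zv y) (zv z)) (fun x y z => h12 _ _ _) (fun x y z => h23 _ _ _)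
  have hr : ∀ j, ∑ a, ∑ d, D.r j b a d * Fzf v T j d (xv j a) =
      T (zv b) (xv j 0) (xv j 1) + T (zv b) (xv j 0) (xv j 2) + T (zv b) (xv j 1) (xv j 2) +
        ∑ c, ∑ a, QR (v j) (D.r j b) a c * T (zv c) (xv j a) (xv j a) := by
    intro j
    have := SYZ_.rpair (v j) (D.r j b) b (fun e c => hD.rok j b e c)
      (fun c a a' => T (zv c) (xv j a) (xv j a')) (fun c a a' => h23 _ _ _)
    rw [this]
    refine Finset.sum_congr rfl fun a _ => Finset.sum_congr rfl fun d _ => ?_
    congr 1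
    unfold Fzf
    refine Finset.sum_congr rfl fun a' _ => Finset.sum_congr rfl fun c _ => ?_
    congr 1
    exact (h23 _ _ _).trans (h12 _ _ _)
  have e1 : ∑ k, ∑ e, QEZ v hz qz D (Sf T) (Fzf v T) (Gf hz T) (Gqf qz T) b
        (Sum.inl (k, e)) (Sum.inl (k, e)) =
      - ∑ j, ∑ a, ∑ d, D.r j b a d * Fzf v T j d (xv j a) := by
    rw [← Finset.sum_neg_distrib]
    refine Finset.sum_congr rfl fun k _ => ?_
    rw [← Finset.sum_neg_distrib]
    rfl
  have e2 : ∑ c, QEZ v hz qz D (Sf T) (Fzf v T) (Gf hz T) (Gqf qz T) b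
        (Sum.inr c) (Sum.inr c) =
      Gf hz T (zv b) - ∑ c, ∑ τ, D.k b c τ * Gqf qz T τ (zv c) -
      ∑ c, ∑ d, (if c = d then 0 else kap hz qz D.k b c d * T (zv c) (zv d) (zv d)) +
      ∑ j, ∑ c, ∑ a, QR (v j) (D.r j b) a c * T (zv c) (xv j a) (xv j a) := by
    simp only [QEZ, Sf, Finset.sum_add_distrib, Finset.sum_sub_distrib, Finset.sum_ite_eq,
      Finset.mem_univ, if_true]
    congr 1
    rw [Finset.sum_comm]
  have e3 : Gf hz T (zv b) = ∑ j, (T (zv b) (xv j 0) (xv j 1) + T (zv b) (xv j 0) (xv j 2) +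
        T (zv b) (xv j 1) (xv j 2)) +
      ∑ c, ∑ d, (hz c d : K) * T (zv b) (zv c) (zv d) := rfl
  rw [Fintype.sum_sum_type, Fintype.sum_prod_type, e1, e2, e3,
    Finset.sum_congr rfl fun j _ => hr j, ht]
  simp only [Finset.sum_add_distrib]
  unfold Gqf
  ring

/-! ### Linearity -/

theorem SYZ_.l1 {ι β : Type*} [Fintype ι] [Fintype β] (F : ι → K) (c : β → K) (φ : β → ι → K) :
    ∑ t, F t * (∑ a, c a * φ a t) = ∑ a, c a * ∑ t, F t * φ a t := by
  simp only [Finset.mul_sum]
  rw [Finset.sum_comm]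
  exact Finset.sum_congr rfl fun a _ => Finset.sum_congr rfl fun t _ => by ring

theorem SYZ_.l2 {ι β : Type*} [Fintype ι] [Fintype β] (F : ι → K) (P : β → Prop)
    [DecidablePred P] (φ : β → ι → K) :
    ∑ t, F t * (∑ a, (if P a then 0 else φ a t)) =
      ∑ a, (if P a then 0 else ∑ t, F t * φ a t) := by
  simp only [Finset.mul_sum]
  rw [Finset.sum_comm]
  refine Finset.sum_congr rfl fun a _ => ?_
  by_cases h : P a <;> simp [h]

theorem SYZ_.l3 {ι : Type*} [Fintype ι] (F : ι → K) (c : K) (φ : ι → K) :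
    ∑ t, F t * (c * φ t) = c * ∑ t, F t * φ t := by
  rw [Finset.mul_sum]
  exact Finset.sum_congr rfl fun t _ => by ring

/-- pairing with the rows of `F` -/
def SYZ_.E (F : IZ m s → IZ m s → K) (φ : IZ m s → K) (x : IZ m s) : K := ∑ t, F x t * φ t

theorem SYZ_.linE (w : Arr m K) (v : VArr m s K) (D : ZD m s t K)
    (F : IZ m s → IZ m s → K) (S' : IZ m s → IZ m s → K)
    (f : Fin m → Fin m → Fin 3 → IZ m s → K) (fz : Fin m → Fin s → IZ m s → K)
    (g : IZ m s → K) (gq : Fin t → IZ m s → K) (i : Fin m) (u : Fin 2) (x : IZ m s) :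
    ∑ t, F x t * QE w v D S' f fz g gq i u x t =
      QE w v D (fun y => SYZ_.E F (S' y)) (fun i j c => SYZ_.E F (f i j c))
        (fun i d => SYZ_.E F (fz i d)) (SYZ_.E F g) (fun τ => SYZ_.E F (gq τ)) i u x x := by
  rcases x with ⟨k, e⟩ | b
  · by_cases hk : k = i
    · simp only [QE, if_pos hk, mul_add, mul_sub, Finset.sum_add_distrib,
        Finset.sum_sub_distrib]
      refine congrArg₂ (· - ·) (congrArg₂ (· + ·) (congrArg₂ (· + ·)
        (congrArg₂ (· - ·) ?_ ?_) ?_) ?_) ?_
      · exact SYZ_.l3 _ _ _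
      · refine (SYZ_.l2 _ _ _).trans (Finset.sum_congr rfl fun a _ => ?_)
        by_cases h : a = e
        · simp [h]
        · simp only [if_neg h]
          exact SYZ_.l3 _ _ _
      · refine (SYZ_.l2 _ _ _).trans (Finset.sum_congr rfl fun j _ => ?_)
        by_cases h : j = i
        · simp [h]
        · simp only [if_neg h]
          exact SYZ_.l1 _ _ _
      · exact SYZ_.l1 _ _ _
      · exact SYZ_.l1 _ _ _
    · simp only [QE, if_neg hk, mul_neg, Finset.sum_neg_distrib]
      exact congrArg _ (SYZ_.l1 _ _ _)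
  · simp only [QE, mul_neg, Finset.sum_neg_distrib]
    exact congrArg _ (SYZ_.l1 _ _ _)

theorem SYZ_.linP (v : VArr m s K) (D : ZD m s t K)
    (F : IZ m s → IZ m s → K) (S' : IZ m s → IZ m s → K)
    (fz : Fin m → Fin s → IZ m s → K)
    (gq : Fin t → IZ m s → K) (i : Fin m) (x : IZ m s) :
    ∑ t, F x t * QP v D S' fz gq i x t =
      QP v D (fun y => SYZ_.E F (S' y))
        (fun i d => SYZ_.E F (fz i d)) (fun τ => SYZ_.E F (gq τ)) i x x := by
  rcases x with ⟨k, e⟩ | b
  · by_cases hk : k = i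
    · simp only [QP, if_pos hk, mul_sub, Finset.sum_sub_distrib]
      exact congrArg₂ (· - ·) (SYZ_.l1 _ _ _) (SYZ_.l1 _ _ _)
    · simp only [QP, if_neg hk, mul_zero, Finset.sum_const_zero]
  · simp only [QP]
    exact SYZ_.l1 _ _ _

theorem SYZ_.linZ (v : VArr m s K) (hz : Fin s → Fin s → ℤ) (qz : Fin t → Fin s → Fin s → ℤ)
    (D : ZD m s t K)
    (F : IZ m s → IZ m s → K) (S' : IZ m s → IZ m s → K)
    (fz : Fin m → Fin s → IZ m s → K)
    (g : IZ m s → K) (gq : Fin t → IZ m s → K) (b : Fin s) (x : IZ m s) :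
    ∑ t, F x t * QEZ v hz qz D S' fz g gq b x t =
      QEZ v hz qz D (fun y => SYZ_.E F (S' y))
        (fun i d => SYZ_.E F (fz i d)) (SYZ_.E F g) (fun τ => SYZ_.E F (gq τ)) b x x := by
  rcases x with ⟨k, e⟩ | c
  · simp only [QEZ, mul_neg, Finset.sum_neg_distrib]
    exact congrArg _ (SYZ_.l1 _ _ _)
  · simp only [QEZ, mul_add, mul_sub, Finset.sum_add_distrib, Finset.sum_sub_distrib]
    refine congrArg₂ (· + ·) (congrArg₂ (· - ·) (congrArg₂ (· - ·) ?_ ?_) ?_) ?_
    · by_cases h : b = c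
      · simp only [if_pos h]
        rfl
      · simp [h]
    · exact SYZ_.l1 _ _ _
    · refine (SYZ_.l2 _ _ _).trans (Finset.sum_congr rfl fun d _ => ?_)
      by_cases h : c = d
      · simp [h]
      · simp only [if_neg h]
        exact SYZ_.l3 _ _ _
    · simp only [Finset.mul_sum, SYZ_.E]
      rw [Finset.sum_comm]
      refine Finset.sum_congr rfl fun j _ => ?_
      rw [Finset.sum_comm]
      exact Finset.sum_congr rfl fun a _ => Finset.sum_congr rfl fun t _ => by ring

/-- evaluation of a linear functional which kills the slices of `G` -/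
theorem SYZ_.ev (L : (IZ m s → IZ m s → K) →ₗ[K] K) (lam G : IZ m s → IZ m s → IZ m s → K)
    (F : IZ m s → IZ m s → K) (hG : ∀ x, L (G x) = 0) (x : IZ m s) :
    ∑ t, F x t * L (lam t) = L (fun y z => (∑ t, F x t * lam t y z) + G x y z) := by
  have : (fun y z => (∑ t, F x t * lam t y z) + G x y z) = (∑ t, F x t • lam t) + G x := by
    ext y z
    simp [Finset.sum_apply]
  rw [this, map_add, map_sum, hG, add_zero]
  exact Finset.sum_congr rfl fun t _ => by rw [map_smul]; rfl

/-- the values of `E` -/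
theorem SYZ_.vals (w : Arr m K) (v : VArr m s K)
    (hz : Fin s → Fin s → ℤ) (qz : Fin t → Fin s → Fin s → ℤ)
    (lam G : IZ m s → IZ m s → IZ m s → K) (F : IZ m s → IZ m s → K)
    (hG : ∀ x, G x ∈ FZ w v hz qz) :
    let T : IZ m s → IZ m s → IZ m s → K := fun x y z => (∑ t, F x t * lam t y z) + G x y z
    (∀ y, SYZ_.E F (Sf lam y) = Sf T y) ∧
      (∀ i j c, i ≠ j → SYZ_.E F (Ff w lam i j c) = Ff w T i j c) ∧
      (∀ i d, SYZ_.E F (Fzf v lam i d) = Fzf v T i d) ∧
      SYZ_.E F (Gf hz lam) = Gf hz T ∧ ∀ τ, SYZ_.E F (Gqf qz lam τ) = Gqf qz T τ := by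
  intro T
  refine ⟨fun y => ?_, fun i j c hij => ?_, fun i d => ?_, ?_, fun τ => ?_⟩
  · funext x
    let L : (IZ m s → IZ m s → K) →ₗ[K] K :=
      { toFun := fun φ => φ y y, map_add' := fun _ _ => rfl, map_smul' := fun _ _ => rfl }
    exact SYZ_.ev L lam G F (fun x => (hG x).diag y) x
  · funext x
    let L : (IZ m s → IZ m s → K) →ₗ[K] K :=
      { toFun := fun φ => ∑ a, ∑ b, w i j c a b * φ (xv i a) (xv j b)
        map_add' := fun _ _ => by simp only [Pi.add_apply, mul_add, Finset.sum_add_distrib]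
        map_smul' := fun c _ => by
          simp only [Pi.smul_apply, smul_eq_mul, RingHom.id_apply, Finset.mul_sum,
            mul_left_comm _ c] }
    exact SYZ_.ev L lam G F (fun x => (hG x).w i j hij c) x
  · funext x
    let L : (IZ m s → IZ m s → K) →ₗ[K] K :=
      { toFun := fun φ => ∑ a, ∑ b, v i d a b * φ (xv i a) (zv b)
        map_add' := fun _ _ => by simp only [Pi.add_apply, mul_add, Finset.sum_add_distrib]
        map_smul' := fun c _ => by
          simp only [Pi.smul_apply, smul_eq_mul, RingHom.id_apply, Finset.mul_sum,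
            mul_left_comm _ c] }
    exact SYZ_.ev L lam G F (fun x => (hG x).v i d) x
  · funext x
    let L : (IZ m s → IZ m s → K) →ₗ[K] K :=
      { toFun := fun φ => ∑ i, (φ (xv i 0) (xv i 1) + φ (xv i 0) (xv i 2) +
          φ (xv i 1) (xv i 2)) + ∑ b, ∑ c, (hz b c : K) * φ (zv b) (zv c)
        map_add' := fun _ _ => by
          simp only [Pi.add_apply, mul_add, Finset.sum_add_distrib]
          ring
        map_smul' := fun c _ => by
          simp only [Pi.smul_apply, smul_eq_mul, RingHom.id_apply, Finset.mul_sum,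
            mul_left_comm _ c, mul_add, Finset.sum_add_distrib] }
    exact SYZ_.ev L lam G F (fun x => (hG x).h) x
  · funext x
    let L : (IZ m s → IZ m s → K) →ₗ[K] K :=
      { toFun := fun φ => ∑ b, ∑ c, (qz τ b c : K) * φ (zv b) (zv c)
        map_add' := fun _ _ => by simp only [Pi.add_apply, mul_add, Finset.sum_add_distrib]
        map_smul' := fun c _ => by
          simp only [Pi.smul_apply, smul_eq_mul, RingHom.id_apply, Finset.mul_sum,
            mul_left_comm _ c] }
    exact SYZ_.ev L lam G F (fun x => (hG x).q τ) x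

end

theorem p_SYZ : T_SYZ.{u} := by
  intro m s t K _ w v hz qz D _ hz0 hq0 hD lam _ F G hG hT
  obtain ⟨v1, v2, v3, v4, v5⟩ := SYZ_.vals w v hz qz lam G F hG
  have w1 : (fun y => SYZ_.E F (Sf lam y)) =
      Sf (fun x y z => (∑ t, F x t * lam t y z) + G x y z) := funext v1
  have w3 : (fun i d => SYZ_.E F (Fzf v lam i d)) =
      Fzf v (fun x y z => (∑ t, F x t * lam t y z) + G x y z) :=
    funext fun i => funext fun d => v3 i d
  have w5 : (fun τ => SYZ_.E F (Gqf qz lam τ)) =
      Gqf qz (fun x y z => (∑ t, F x t * lam t y z) + G x y z) := funext v5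
  refine ⟨fun i u => ?_, fun b => ?_, fun i => ?_⟩
  · rw [Finset.sum_congr rfl fun x _ => SYZ_.linE w v D F _ _ _ _ _ i u x]
    rw [← SYZ_.idE w v hz qz D hz0 hq0 hD _ hT i u]
    refine Finset.sum_congr rfl fun x _ => ?_
    rw [w1, w3, v4, w5]
    rcases x with ⟨k, e⟩ | b
    · by_cases hk : k = i
      · simp only [QE, if_pos hk]
      · simp only [QE, if_neg hk, v2 i k _ (Ne.symm hk)]
    · rfl
  · rw [Finset.sum_congr rfl fun x _ => SYZ_.linZ v hz qz D F _ _ _ _ b x]
    rw [← SYZ_.idZ w v hz qz D hz0 hq0 hD _ hT b, w1, w3, v4, w5]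
  · rw [Finset.sum_congr rfl fun x _ => SYZ_.linP v D F _ _ _ i x]
    rw [← SYZ_.idP w v hz qz D hq0 hD _ hT i, w1, w3, w5]

end Pool.Agent.VCU
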