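import Pool.Agent.VCU.Targets2

/-!
# The result
-/

set_option autoImplicit false

namespace Pool.Agent.VCU

open Pool.Agent.VCC Pool.Agent.VCT HilbPts

universe u

namespace TOPU_

/-- From a good space over an extension field to the component. -/
theorem final (n r m s : ℕ) (hn : 2 ≤ n) (hnm : n = 3 * m + s)
    (hch : r + 2 ≤ (n + 1).choose 2) (k K : Type u) [Field k] [IsAlgClosed k] [CharZero k]
    [Field K] [Algebra k K] (𝓕 : Submodule K (IZ m s → IZ m s → K))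
    (hs : ∀ F ∈ 𝓕, ∀ x y, F x y = F y x) (hf : Module.finrank K 𝓕 = r)
    (hc : NoCubic 𝓕) (ht : T1 𝓕 𝓕) :
    closure (VC n (1 + n + r) k) ∈ irreducibleComponents (Hilb n (1 + n + r) k) := by
  have : CharZero K := charZero_of_injective_algebraMap (algebraMap k K).injective
  have e : IZ m s ≃ Fin n :=
    Fintype.equivFinOfCardEq (by simp [hnm, Nat.mul_comm])
  obtain ⟨𝓖, gs, gf, gc, gt⟩ := p_TRANSP K (IZ m s) n e 𝓕 hs hc ht
  obtain ⟨b, μ, hμ, hb, hg⟩ := p_STRUCT K n r 𝓖 gs (by rw [gf, hf]) gc gt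
  obtain ⟨ν, hν, hbν, hgν⟩ := VCT.p_TRF n r k K b μ hμ hb hg
  obtain ⟨U, hU1, hU2, hU3⟩ := (p_OPEN k (p_CHART k) (p_VALS k) (p_POLY k) (p_FIB1 k) (p_FIB2 k)
    (p_FIB3 k (p_GNC k))) n r hn hch b ν hν hbν hgν
  exact L1_.closure_mem_comp (p_IRR k n r (by omega)) hU1 hU2 hU3

/-- symmetry of the members -/
theorem symm_FZ {K : Type u} [Field K] {m s t : ℕ} (w : Arr m K) (v : VArr m s K)
    (hz : Fin s → Fin s → ℤ) (qz : Fin t → Fin s → Fin s → ℤ) :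
    ∀ F ∈ FZ w v hz qz, ∀ x y, F x y = F y x := fun _ hF => InFZ.symm hF

/-- more quadrics, fewer functionals -/
theorem le_FZ {K : Type u} [Field K] {m s t t' : ℕ} (w : Arr m K) (v : VArr m s K)
    (hz : Fin s → Fin s → ℤ) (qz : Fin t → Fin s → Fin s → ℤ)
    (qz' : Fin t' → Fin s → Fin s → ℤ) (h : ∀ τ, ∃ τ', qz τ = qz' τ') :
    FZ w v hz qz' ≤ FZ w v hz qz := by
  intro F hF
  have hF : InFZ w v hz qz' F := hF
  exact
    { symm := hF.symm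
      diag := hF.diag
      w := hF.w
      v := hF.v
      q := fun τ => by
        obtain ⟨τ', hτ⟩ := h τ
        rw [hτ]
        exact hF.q τ'
      h := hF.h }

/-- the two extreme spaces -/
theorem both (h1 : T_GENXU.{u}) (h2 : T_GU.{u}) (h5 : T_DIMZ.{u}) {s t t' : ℕ}
    (hz : Fin s → Fin s → ℤ) (qz : Fin t → Fin s → Fin s → ℤ)
    (qz' : Fin t' → Fin s → Fin s → ℤ)
    (hfin : ∃ A B L : VFm s ℤ, ∀ (κ : Type u) [Field κ] [CharZero κ],
      ∃ dA dB dL k, FinOK κ hz qz qz' A B L dA dB dL k)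
    (m : ℕ) (hm : 2 ≤ m) (k : Type u) [Field k] [CharZero k] :
    ∃ (K : Type u) (_ : Field K) (_ : Algebra k K)
      (𝓕 𝓕' : Submodule K (IZ m s → IZ m s → K)),
      (∀ F ∈ 𝓕, ∀ x y, F x y = F y x) ∧ (∀ F ∈ 𝓕', ∀ x y, F x y = F y x) ∧
      Module.finrank K 𝓕 + 1 + t = 6 * m.choose 2 + 2 * s * m + 3 * m + s.choose 2 ∧
      Module.finrank K 𝓕' + 1 + t' = 6 * m.choose 2 + 2 * s * m + 3 * m + s.choose 2 ∧
      NoCubic 𝓕 ∧ T1 𝓕 𝓕 ∧ NoCubic 𝓕' ∧ T1 𝓕' 𝓕' := by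
  obtain ⟨A, B, L, hfin⟩ := hfin
  obtain ⟨K, _, _, w, v, hg⟩ := h1 m s k
  have : CharZero K := charZero_of_injective_algebraMap (algebraMap k K).injective
  obtain ⟨dA, dB, dL, kk, hok⟩ := hfin K
  obtain ⟨g1, g2, g3, g4, g5⟩ := h2 m s t t' hz qz qz' A B L hm hfin k K w v hg
  have hle := le_FZ w v hz qz qz' hok.sub
  have hch := p_CHAIN K
  have c1 := hch (IZ m s) (FZ w v hz qz') (FZ w v hz qz) (FZ w v hz qz) hle le_rfl
    (symm_FZ w v hz qz) g3 g5 g4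
  have c2 := hch (IZ m s) (FZ w v hz qz') (FZ w v hz qz') (FZ w v hz qz) le_rfl hle
    (symm_FZ w v hz qz) g3 g5 g4
  exact ⟨K, inferInstance, inferInstance, FZ w v hz qz, FZ w v hz qz', symm_FZ w v hz qz,
    symm_FZ w v hz qz', h5 m s t K w v hz qz (by omega) hg.1 hok.hzs hok.qzs hok.liq g1 g2,
    h5 m s t' K w v hz qz' (by omega) hg.1 hok.hzs hok.qzs' hok.liq' g1 g2,
    c1.1, c1.2, c2.1, c2.2⟩

/-- `6 * C(m, 2)` -/
theorem six_choose (m : ℕ) : 6 * m.choose 2 + 3 * m = 3 * m ^ 2 := by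
  induction m with
  | zero => rfl
  | succ m ih =>
    have h : (m + 1).choose 2 = m + m.choose 2 := by
      rw [Nat.choose_succ_succ' m 1, Nat.choose_one_right]
    rw [h]
    have : (m + 1) ^ 2 = m ^ 2 + 2 * m + 1 := by ring
    omega

/-- `r` is not too large -/
theorem ch_le (n r : ℕ) (hn : 2 ≤ n) (hr : 3 * r + 4 ≤ n ^ 2) : r + 2 ≤ (n + 1).choose 2 := by
  rw [Nat.choose_two_right, Nat.add_sub_cancel, Nat.le_div_iff_mul_le (by norm_num)]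
  have h4 : (n + 1) * n = n ^ 2 + n := by ring
  rw [h4]
  nlinarith

end TOPU_

open TOPU_ in
theorem p_TOPU (h1 : T_GENXU.{u}) (h2 : T_GU.{u}) (h3 : T_FIN2.{u}) (h4 : T_FIN4.{u})
    (h5 : T_DIMZ.{u}) : T_TOPU.{u} := by
  intro n r hnr k _ _ _
  rcases hnr with ⟨hn, hn3, hr⟩ | ⟨hn, hn3, hr⟩
  · obtain ⟨m, hm⟩ : ∃ m, n = 3 * m + 2 := ⟨n / 3, by omega⟩
    obtain ⟨K, _, _, 𝓕, 𝓕', s1, s2, f1, f2, c1, t1, c2, t2⟩ :=
      both h1 h2 h5 hz2 qz2 qz2 h3 m (by omega) k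
    have hm3 := six_choose m
    have hsq : n ^ 2 = 9 * m ^ 2 + 12 * m + 4 := by rw [hm]; ring
    have hc2 : Nat.choose 2 2 = 1 := rfl
    exact final n r m 2 (by omega) hm (ch_le n r (by omega) (by omega)) k K 𝓕 s1 (by omega) c1 t1
  · obtain ⟨m, hm⟩ : ∃ m, n = 3 * m + 4 := ⟨(n - 4) / 3, by omega⟩
    obtain ⟨K, _, _, 𝓕, 𝓕', s1, s2, f1, f2, c1, t1, c2, t2⟩ :=
      both h1 h2 h5 hz4 qz4 qz4' h4 m (by omega) k
    have hm3 := six_choose m
    have hsq : n ^ 2 = 9 * m ^ 2 + 24 * m + 16 := by rw [hm]; ring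
    have hc2 : Nat.choose 4 2 = 6 := rfl
    rcases hr with hr | hr
    · exact final n r m 4 (by omega) hm (ch_le n r (by omega) (by omega)) k K 𝓕 s1 (by omega) c1 t1
    · exact final n r m 4 (by omega) hm (ch_le n r (by omega) (by omega)) k K 𝓕' s2 (by omega)
        c2 t2

end Pool.Agent.VCU
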