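import Pool.Agent.VCU.CLL
import Pool.Agent.VCU.CLO
import Pool.Agent.VCU.CLT
import Pool.Agent.VCU.CLZ
import Pool.Agent.VCU.DAN
import Pool.Agent.VCU.DIMZ
import Pool.Agent.VCU.FEL
import Pool.Agent.VCU.FEZ
import Pool.Agent.VCU.FIN2
import Pool.Agent.VCU.FIN4
import Pool.Agent.VCU.FOK
import Pool.Agent.VCU.FQ
import Pool.Agent.VCU.GENXU
import Pool.Agent.VCU.GRD
import Pool.Agent.VCU.GRZ
import Pool.Agent.VCU.GU
import Pool.Agent.VCU.LAT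
import Pool.Agent.VCU.NCZ
import Pool.Agent.VCU.RSP
import Pool.Agent.VCU.SC
import Pool.Agent.VCU.SPEC
import Pool.Agent.VCU.SYZ
import Pool.Agent.VCU.TOPU

/-!
# The result: `n` not divisible by `3`
-/

set_option autoImplicit false

namespace Pool.Agent.VCU

open HilbPts

universe u

theorem allGU : T_GU.{u} :=
  p_GU p_GRD (p_SC p_LAT) p_GRZ p_SPEC (p_CLL p_SYZ p_DAN) (p_CLZ p_SYZ p_DAN)
    (p_CLT p_SYZ p_DAN) p_CLO p_NCZ p_RSP p_RS3 p_FOK p_FEL p_FEZ p_FQ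

/-- `n = 3 m + 2 ≥ 8`, `r = (n ^ 2 - 4) / 3`, and `n = 3 m + 4 ≥ 10`, `r = (n ^ 2 - 4) / 3` or
`(n ^ 2 - 7) / 3`: the closure of `VC_{n,d}`, `d = 1 + n + r`, is an irreducible component. -/
theorem main (n r : ℕ)
    (h : (8 ≤ n ∧ n % 3 = 2 ∧ 3 * r + 4 = n ^ 2) ∨
      (10 ≤ n ∧ n % 3 = 1 ∧ (3 * r + 4 = n ^ 2 ∨ 3 * r + 7 = n ^ 2)))
    (k : Type u) [Field k] [IsAlgClosed k] [CharZero k] :
    closure (VC n (1 + n + r) k) ∈ irreducibleComponents (Hilb n (1 + n + r) k) :=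
  p_TOPU p_GENXU allGU p_FIN2 p_FIN4 p_DIMZ n r h k

end Pool.Agent.VCU
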