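import Pool.Agent.VCU.Targets

/-!
# `T_CLL`: the linear condition for the classes `χ = e_l`
-/

set_option autoImplicit false

namespace Pool.Agent.VCU

open Pool.Agent.VCC Pool.Agent.VCT HilbPts

universe u

section Classes

variable {m s : ℕ}

theorem CLL_.add_self (c : Cl m) : c + c = 0 := by
  funext x
  exact (by decide : ∀ z : ZMod 2, z + z = 0) _

theorem CLL_.eq_of_add {c d : Cl m} (h : (0 : Cl m) = c + d) : c = d := by
  have h1 : c + d + d = d := by rw [← h, zero_add]
  rwa [add_assoc, CLL_.add_self, add_zero] at h1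

theorem CLL_.clz_ei {t : IZ m s} {l : Fin m} (h : clz t = ei l) : ∃ b, t = xv l b := by
  rcases t with ⟨k, b⟩ | b
  · refine ⟨b, ?_⟩
    have h1 := congrFun h (some l)
    simp only [clz, ei, Pi.single_apply, if_true] at h1
    by_cases hk : k = l
    · rw [hk]
    · rw [if_neg] at h1
      · exact absurd h1 (by decide)
      · intro h2
        exact hk (Option.some.inj h2).symm
  · have h1 := congrFun h none
    simp [clz, ei, eZ] at h1

/-- the class of a square, of `h` and of `q` -/
theorem CLL_.cl0 {t : IZ m s} {l : Fin m} (h : (0 : Cl m) = clz t + ei l) : ∃ b, t = xv l b :=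
  CLL_.clz_ei (CLL_.eq_of_add h)

/-- the class of the forms `v` -/
theorem CLL_.clv {t : IZ m s} {i l : Fin m} (h : (ei i : Cl m) + eZ = clz t + ei l) :
    i = l ∧ ∃ b, t = zv b := by
  rcases t with ⟨k, b⟩ | b
  · have h1 := congrFun h none
    simp [clz, ei, eZ] at h1
  · refine ⟨?_, b, rfl⟩
    have h1 := congrFun h (some l)
    simp only [clz, ei, eZ, Pi.add_apply, Pi.single_apply, if_true] at h1
    by_contra hil
    rw [if_neg (fun h2 => hil (Option.some.inj h2).symm)] at h1
    simp at h1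

/-- the class of the forms `w` -/
theorem CLL_.clw {t : IZ m s} {i j l : Fin m} (hij : i ≠ j)
    (h : (ei i : Cl m) + ei j = clz t + ei l) :
    (j = l ∧ ∃ b, t = xv i b) ∨ (i = l ∧ ∃ b, t = xv j b) := by
  rcases t with ⟨k, b⟩ | b
  · have h1 := congrFun h (some i)
    have h2 := congrFun h (some j)
    simp only [clz, ei, Pi.add_apply, Pi.single_apply, Option.some.injEq, if_true] at h1 h2
    rw [if_neg hij] at h1
    rw [if_neg (Ne.symm hij)] at h2
    by_cases hil : i = l
    · right
      refine ⟨hil, b, ?_⟩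
      by_cases hjk : j = k
      · rw [hjk]
      · rw [if_neg hjk, if_neg (fun h3 => hij (hil.trans h3.symm))] at h2
        exact absurd h2 (by decide)
    · left
      rw [if_neg hil] at h1
      by_cases hik : i = k
      · refine ⟨?_, b, by rw [hik]⟩
        by_contra hjl
        rw [if_neg hjl, if_neg (fun h3 => hij (hik.trans h3.symm))] at h2
        exact absurd h2 (by decide)
      · rw [if_neg hik] at h1
        exact absurd h1 (by decide)
  · have h1 := congrFun h none
    simp [clz, ei, eZ] at h1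

end Classes

section Lam

variable {K : Type u} [Field K] {m s : ℕ}

theorem CLL_.transl_hom {v : IZ m s → K} {χ : Cl m} (hv : ∀ t, v t ≠ 0 → clz t = χ)
    (t y z : IZ m s) (h : transl v t y z ≠ 0) : clz y + clz z = clz t + χ := by
  unfold transl at h
  by_cases hz : z = t
  · by_cases hy : y = t
    · subst hz
      subst hy
      have h1 : v y ≠ 0 := by
        intro h0
        apply h
        rw [h0]
        simp
      rw [hv y h1]
    · subst hz
      have h1 : v y ≠ 0 := by
        intro h0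
        apply h
        rw [h0, if_neg hy]
        simp
      rw [hv y h1, add_comm]
  · by_cases hy : y = t
    · subst hy
      have h1 : v z ≠ 0 := by
        intro h0
        apply h
        rw [h0, if_neg hz]
        simp
      rw [hv z h1]
    · exfalso
      apply h
      rw [if_neg hz, if_neg hy]
      simp

theorem CLL_.Ff_symm {w : Arr m K} (hw : WSym w) {lam : IZ m s → IZ m s → IZ m s → K}
    (hlam : ∀ t y z, lam t y z = lam t z y) (i j : Fin m) (c : Fin 3) (t : IZ m s) :
    Ff w lam j i c t = Ff w lam i j c t := by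
  unfold Ff
  rw [Finset.sum_comm]
  refine Finset.sum_congr rfl fun a _ => Finset.sum_congr rfl fun b _ => ?_
  rw [hw.2 i j, hlam t (xv j b) (xv i a)]
  rfl

/-- a homogeneous map whose unknowns vanish has its values in `𝓕_max` -/
theorem CLL_.mem {w : Arr m K} {v : VArr m s K} {hz : Fin s → Fin s → ℤ} {t : ℕ}
    {qz : Fin t → Fin s → Fin s → ℤ} (hw : WSym w) {lam : IZ m s → IZ m s → IZ m s → K}
    (hlam : ∀ t y z, lam t y z = lam t z y) {l : Fin m} (hL : HomL clz (ei l) lam)
    (hS : ∀ i a b, Sf lam (xv i a) (xv l b) = 0) (hSZ : ∀ c b, Sf lam (zv c) (xv l b) = 0)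
    (hP : ∀ i, i ≠ l → ∀ c e, Ff w lam i l c (xv i e) = 0)
    (hU : ∀ d b, Fzf v lam l d (zv b) = 0) (hg : ∀ b, Gf hz lam (xv l b) = 0)
    (hgq : ∀ τ b, Gqf qz lam τ (xv l b) = 0) (t : IZ m s) : InFZ w v hz qz (lam t) := by
  have hZ : ∀ y z, ¬ (clz y + clz z = clz t + ei l) → lam t y z = 0 := by
    intro y z h
    by_contra h1
    exact h (hL t y z h1)
  refine ⟨fun x y => hlam t x y, fun x => ?_, fun i j hij c => ?_, fun i d => ?_, fun τ => ?_, ?_⟩
  · by_contra h1
    have h2 := hL t x x h1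
    rw [CLL_.add_self] at h2
    obtain ⟨b, rfl⟩ := CLL_.cl0 h2
    rcases x with ⟨i, a⟩ | c
    · exact h1 (hS i a b)
    · exact h1 (hSZ c b)
  · by_cases hc : (ei i : Cl m) + ei j = clz t + ei l
    · rcases CLL_.clw hij hc with ⟨rfl, e, rfl⟩ | ⟨rfl, e, rfl⟩
      · exact hP i hij c e
      · have := hP j (Ne.symm hij) c e
        rw [CLL_.Ff_symm hw hlam] at this
        exact this
    · exact Finset.sum_eq_zero fun a _ => Finset.sum_eq_zero fun b _ => by
        rw [hZ (xv i a) (xv j b) hc, mul_zero]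
  · by_cases hc : (ei i : Cl m) + eZ = clz t + ei l
    · obtain ⟨rfl, b, rfl⟩ := CLL_.clv hc
      exact hU d b
    · exact Finset.sum_eq_zero fun a _ => Finset.sum_eq_zero fun b _ => by
        rw [hZ (xv i a) (zv b) hc, mul_zero]
  · by_cases hc : (0 : Cl m) = clz t + ei l
    · obtain ⟨b, rfl⟩ := CLL_.cl0 hc
      exact hgq τ b
    · refine Finset.sum_eq_zero fun a _ => Finset.sum_eq_zero fun b _ => ?_
      rw [hZ (zv a) (zv b), mul_zero]
      change ¬ ((eZ : Cl m) + eZ = _)
      rwa [CLL_.add_self]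
  · by_cases hc : (0 : Cl m) = clz t + ei l
    · obtain ⟨b, rfl⟩ := CLL_.cl0 hc
      exact hg b
    · have h1 : ∀ (i : Fin m) (a b : Fin 3), lam t (xv i a) (xv i b) = 0 := by
        intro i a b
        apply hZ
        change ¬ ((ei i : Cl m) + ei i = _)
        rwa [CLL_.add_self]
      have h2 : ∀ a b : Fin s, lam t (zv a) (zv b) = 0 := by
        intro a b
        apply hZ
        change ¬ ((eZ : Cl m) + eZ = _)
        rwa [CLL_.add_self]
      simp only [h1, h2, mul_zero, add_zero, Finset.sum_const_zero]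

/-- the unknowns of a map -/
def CLL_.X (w : Arr m K) (v : VArr m s K) (hz : Fin s → Fin s → ℤ) {t : ℕ}
    (qz : Fin t → Fin s → Fin s → ℤ) (lam : IZ m s → IZ m s → IZ m s → K) (l : Fin m) :
    XL m s t K where
  S i a b := Sf lam (xv i a) (xv l b)
  SZ c b := Sf lam (zv c) (xv l b)
  P i c e := Ff w lam i l c (xv i e)
  U d b := Fzf v lam l d (zv b)
  g b := Gf hz lam (xv l b)
  gq τ b := Gqf qz lam τ (xv l b)

variable {w : Arr m K} {v : VArr m s K} {hz : Fin s → Fin s → ℤ} {t : ℕ}
  {qz : Fin t → Fin s → Fin s → ℤ} {D : ZD m s t K} {lam : IZ m s → IZ m s → IZ m s → K}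

theorem CLL_.QE_same (i l : Fin m) (u : Fin 2) (e b : Fin 3) :
    QE w v D (Sf lam) (Ff w lam) (Fzf v lam) (Gf hz lam) (Gqf qz lam) i u (xv i e) (xv l b) =
      TB w v D (CLL_.X w v hz qz lam l) i u e b := by
  simp only [QE, if_true, TB, TA, CLL_.X]

theorem CLL_.QE_ne (i k : Fin m) (hk : k ≠ i) (u : Fin 2) (e : Fin 3) (x : IZ m s) :
    QE w v D (Sf lam) (Ff w lam) (Fzf v lam) (Gf hz lam) (Gqf qz lam) i u (xv k e) x =
      - ∑ c, D.z i k u e c * Ff w lam i k c x := by
  simp only [QE, if_neg hk]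

theorem CLL_.QP_same (i l : Fin m) (e b : Fin 3) :
    QP v D (Sf lam) (Fzf v lam) (Gqf qz lam) i (xv i e) (xv l b) =
      PB v D (CLL_.X w v hz qz lam l) i e b := by
  simp only [QP, if_true, PB, CLL_.X]

theorem CLL_.QP_ne (i k : Fin m) (hk : k ≠ i) (e : Fin 3) (x : IZ m s) :
    QP v D (Sf lam) (Fzf v lam) (Gqf qz lam) i (xv k e) x = 0 := by
  simp only [QP, if_neg hk]

end Lam

theorem p_CLL (h1 : T_SYZ.{u}) (h2 : T_DAN.{u}) : T_CLL.{u} := by
  intro m s t t' K _ _ w v hz qz qz' D hw hhz hqz hqz' hD hle l hgood lam hlam hL hF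
  have hm : 0 < m := l.pos
  set vv : IZ m s → K := fun t => lam t t t / 2 with hvv
  have hvv0 : ∀ t, vv t ≠ 0 → clz t = ei l := by
    intro t ht
    have h3 : lam t t t ≠ 0 := by
      intro h4
      apply ht
      simp only [hvv, h4, zero_div]
    have h4 := hL t t t h3
    rw [CLL_.add_self] at h4
    exact CLL_.eq_of_add h4
  set lam' : IZ m s → IZ m s → IZ m s → K := fun t y z => lam t y z - transl vv t y z with hlam'
  have hsym : ∀ t y z, lam' t y z = lam' t z y := by
    intro t y z
    simp only [hlam']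
    rw [hlam t y z, RED_.transl_symm vv t y z]
  have hL' : HomL clz (ei l) lam' := by
    intro t y z h
    by_cases h3 : lam t y z = 0
    · apply CLL_.transl_hom hvv0 t y z
      intro h4
      apply h
      simp only [hlam', h3, h4, sub_zero]
    · exact hL t y z h3
  have hcond : ∀ c, Psi (c + ei l) → ∀ F ∈ FZ w v hz qz', HomF clz c F →
      ∃ G : IZ m s → IZ m s → IZ m s → K, (∀ x, G x ∈ FZ w v hz qz) ∧
      TSym (fun x y z => (∑ t, F x t * lam' t y z) + G x y z) := by
    intro c hc F hFF hFc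
    obtain ⟨G, hG, -, hT1, hT2⟩ := hF c hc F hFF hFc
    have hFF' : F ∈ FZ w v hz qz := hle hFF
    have hFs : ∀ x y, F x y = F y x := hFF'.symm
    refine ⟨fun x y z => G x y z - vv x * F y z, fun x => ?_, ?_, ?_⟩
    · exact (FZ w v hz qz).sub_mem (hG x) ((FZ w v hz qz).smul_mem (vv x) hFF')
    · intro x y z
      have e1 := hT1 x y z
      simp only [hlam', mul_sub, Finset.sum_sub_distrib, RED_.sum_transl] at e1 ⊢
      rw [hFs y x]
      linear_combination e1
    · intro x y z
      have e1 := hT2 x y z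
      simp only [hlam', mul_sub, Finset.sum_sub_distrib, RED_.sum_transl] at e1 ⊢
      rw [hFs z y]
      linear_combination e1
  have hS : ∀ c : Cl m, Psi (c + ei l) → ∀ F ∈ FZ w v hz qz', HomF clz c F →
      (∀ i u, ∑ x, ∑ t, F x t * QE w v D (Sf lam') (Ff w lam') (Fzf v lam') (Gf hz lam')
        (Gqf qz lam') i u x t = 0) ∧
      (∀ b, ∑ x, ∑ t, F x t * QEZ v hz qz D (Sf lam') (Fzf v lam') (Gf hz lam')
        (Gqf qz lam') b x t = 0) ∧
      ∀ i, ∑ x, ∑ t, F x t * QP v D (Sf lam') (Fzf v lam') (Gqf qz lam') i x t = 0 := by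
    intro c hc F hFF hFc
    obtain ⟨G, hG, hT⟩ := hcond c hc F hFF hFc
    exact h1 m s t K w v hz qz D hw hhz hqz hD lam' hsym F G hG hT
  have hc1 : ∀ i : Fin m, Psi ((ei i : Cl m) + ei l + ei l) := by
    intro i
    rw [add_assoc, CLL_.add_self, add_zero]
    exact Or.inl ⟨i, rfl⟩
  have hc2 : Psi ((ei l : Cl m) + eZ + ei l) := by
    rw [add_comm (ei l : Cl m) eZ, add_assoc, CLL_.add_self, add_zero]
    exact Or.inr rfl
  have hc3 : Psi ((0 : Cl m) + ei l) := by
    rw [zero_add]
    exact Or.inl ⟨l, rfl⟩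
  have hEL : EL w v hz qz qz' D l (CLL_.X w v hz qz lam' l) := by
    constructor
    · intro i hil u
      have := (h2 m s t' K w v hz qz' hm hw hhz hqz' (QE w v D (Sf lam') (Ff w lam')
        (Fzf v lam') (Gf hz lam') (Gqf qz lam') i u)).1 i l hil
        (fun F hFF hFc => (hS _ (hc1 i) F hFF hFc).1 i u)
      simp only [CLL_.QE_same, CLL_.QE_ne i l (Ne.symm hil), ← sub_eq_add_neg] at this
      exact this
    · intro i hil
      have := (h2 m s t' K w v hz qz' hm hw hhz hqz' (QP v D (Sf lam')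
        (Fzf v lam') (Gqf qz lam') i)).1 i l hil
        (fun F hFF hFc => (hS _ (hc1 i) F hFF hFc).2.2 i)
      simp only [CLL_.QP_same (w := w) (hz := hz), CLL_.QP_ne i l (Ne.symm hil), add_zero] at this
      exact this
    · intro b
      have := (h2 m s t' K w v hz qz' hm hw hhz hqz' (QEZ v hz qz D (Sf lam')
        (Fzf v lam') (Gf hz lam') (Gqf qz lam') b)).2.1 l
        (fun F hFF hFc => (hS _ hc2 F hFF hFc).2.1 b)
      obtain ⟨y, hy⟩ := this
      refine ⟨y, fun a c => ?_⟩
      rw [← hy a c]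
      simp only [QEZ, CLL_.X]
      ring
    · intro u
      obtain ⟨μ, ν, h3, h4⟩ := (h2 m s t' K w v hz qz' hm hw hhz hqz' (QE w v D (Sf lam')
        (Ff w lam') (Fzf v lam') (Gf hz lam') (Gqf qz lam') l u)).2.2
        (fun F hFF hFc => (hS _ hc3 F hFF hFc).1 l u)
      refine ⟨μ, ν, fun k hk e b heb => ?_, fun e b heb => ?_, fun b c hbc => ?_⟩
      · have h5 := h3 k e b heb
        simp only [CLL_.QE_ne l k hk] at h5
        rw [Finset.sum_add_distrib, ← h5]
        simp only [CLL_.X, CLL_.Ff_symm hw hsym l k]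
        ring
      · have h5 := h3 l e b heb
        simp only [CLL_.QE_same] at h5
        exact h5
      · have h5 := h4 b c hbc
        rw [← h5]
        simp only [QE, CLL_.X, Finset.sum_add_distrib]
        ring
    · obtain ⟨μ, ν, h3, h4⟩ := (h2 m s t' K w v hz qz' hm hw hhz hqz' (QP v D (Sf lam')
        (Fzf v lam') (Gqf qz lam') l)).2.2
        (fun F hFF hFc => (hS _ hc3 F hFF hFc).2.2 l)
      refine ⟨μ, ν, fun k hk => ?_, fun e b heb => ?_, fun b c hbc => ?_⟩
      · have h5 := h3 k 0 1 (by decide)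
        simp only [CLL_.QP_ne l k hk, add_zero] at h5
        exact h5.symm
      · have h5 := h3 l e b heb
        simp only [CLL_.QP_same (w := w) (hz := hz)] at h5
        exact h5
      · have h5 := h4 b c hbc
        rw [← h5]
        simp only [QP, CLL_.X, Finset.sum_add_distrib]
  have hnorm : ∀ b, (CLL_.X w v hz qz lam' l).S l b b = 0 := by
    intro b
    change lam' (xv l b) (xv l b) (xv l b) = 0
    simp only [hlam', RED_.transl_diag, hvv]
    rw [mul_div_cancel₀ _ (two_ne_zero' K), sub_self]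
  obtain ⟨g1, g2, g3, g4, g5, g6⟩ := hgood _ hEL hnorm
  refine ⟨vv, hvv0, fun t => ?_⟩
  exact CLL_.mem hw hsym hL' (fun i a b => congrFun (congrFun (congrFun g1 i) a) b)
    (fun c b => congrFun (congrFun g2 c) b)
    (fun i hi c e => congrFun (congrFun (g3 i hi) c) e)
    (fun d b => congrFun (congrFun g4 d) b) (fun b => congrFun g5 b)
    (fun τ b => congrFun (congrFun g6 τ) b) t

end Pool.Agent.VCU
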