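import Pool.Agent.VCT.All

/-!
# Very compressed algebras, `n = 3 m + s`, `s = 2, 4`: definitions

`m` blocks of three variables and one block `Z` of `s` variables.  `W` is spanned by the squares,
three bilinear forms `w_ij` for every pair of 3-blocks, `s` bilinear forms `v_i` for every 3-block
and `Z`, the quadrics `q` of `Z`, and one quadric `h = ∑ (x_0 x_1 + x_0 x_2 + x_1 x_2) + h_Z`.
Everything is graded by `(ZMod 2)^(m + 1)`.
-/

set_option autoImplicit false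

namespace Pool.Agent.VCU

open Pool.Agent.VCC Pool.Agent.VCT

/-! ### Graded spaces of functionals -/

section Graded

variable {K : Type*} [Field K] {ι G : Type*} [AddCommGroup G]

/-- homogeneous functional -/
def HomF (cl : ι → G) (c : G) (F : ι → ι → K) : Prop := ∀ x y, F x y ≠ 0 → cl x + cl y = c
/-- homogeneous linear map -/
def HomL (cl : ι → G) (χ : G) (lam : ι → ι → ι → K) : Prop :=
  ∀ t y z, lam t y z ≠ 0 → cl y + cl z = cl t + χ
/-- homogeneous trilinear form -/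
def HomT (cl : ι → G) (ψ : G) (T : ι → ι → ι → K) : Prop :=
  ∀ x y z, T x y z ≠ 0 → cl x + cl y + cl z = ψ

/-- graded space -/
def Graded [DecidableEq G] (cl : ι → G) (𝓕 : Submodule K (ι → ι → K)) : Prop :=
  ∀ F ∈ 𝓕, ∀ c, (fun x y => if cl x + cl y = c then F x y else 0) ∈ 𝓕

/-- `NoCubic` in the class `ψ` -/
def NCC (cl : ι → G) (ψ : G) (𝓕 : Submodule K (ι → ι → K)) : Prop :=
  ∀ T : ι → ι → ι → K, TSym T → HomT cl ψ T → (∀ x, T x ∈ 𝓕) → ∀ x y z, T x y z = 0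

/-- `T1` for maps of class `χ`, using only the functionals of class `c` with `Ψ (c + χ)` -/
def T1C [DecidableEq ι] [Fintype ι] (cl : ι → G) (Ψ : G → Prop) (χ : G)
    (𝓕min 𝓕max : Submodule K (ι → ι → K)) : Prop :=
  ∀ lam : ι → ι → ι → K, (∀ t y z, lam t y z = lam t z y) → HomL cl χ lam →
    (∀ c, Ψ (c + χ) → ∀ F ∈ 𝓕min, HomF cl c F → ∃ G : ι → ι → ι → K, (∀ x, G x ∈ 𝓕max) ∧
      HomT cl (c + χ) G ∧ TSym (fun x y z => (∑ t, F x t * lam t y z) + G x y z)) →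
    ∃ v : ι → K, (∀ t, v t ≠ 0 → cl t = χ) ∧
      ∀ t, (fun y z => lam t y z - transl v t y z) ∈ 𝓕max

/-- `𝓕'` is the specialisation of `𝓕` -/
structure Spec {κ : Type*} [Field κ] (P : Place K κ) (𝓕 : Submodule K (ι → ι → K))
    (𝓕' : Submodule κ (ι → ι → κ)) : Prop where
  red : ∀ F : ι → ι → P.B, (fun x y => (F x y : K)) ∈ 𝓕 → (fun x y => P.r (F x y)) ∈ 𝓕'
  lift : ∀ F' ∈ 𝓕', ∃ F : ι → ι → P.B, (fun x y => (F x y : K)) ∈ 𝓕 ∧
    ∀ x y, P.r (F x y) = F' x y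

end Graded

/-! ### The variables and the classes -/

/-- variables -/
abbrev IZ (m s : ℕ) := (Fin m × Fin 3) ⊕ Fin s
/-- variable of a 3-block -/
abbrev xv {m s : ℕ} (i : Fin m) (a : Fin 3) : IZ m s := Sum.inl (i, a)
/-- variable of `Z` -/
abbrev zv {m s : ℕ} (b : Fin s) : IZ m s := Sum.inr b
/-- classes -/
abbrev Cl (m : ℕ) := Option (Fin m) → ZMod 2
/-- class of a 3-block -/
def ei {m : ℕ} (i : Fin m) : Cl m := Pi.single (some i) 1
/-- class of `Z` -/
def eZ {m : ℕ} : Cl m := Pi.single none 1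
/-- class of a variable -/
def clz {m s : ℕ} : IZ m s → Cl m
  | Sum.inl x => ei x.1
  | Sum.inr _ => eZ
/-- the classes of the variables -/
def Psi {m : ℕ} (ψ : Cl m) : Prop := (∃ i, ψ = ei i) ∨ ψ = eZ

section Ring

variable {R S : Type*} [CommRing R] [CommRing S] {m s t t' : ℕ}

/-- `s` bilinear forms: `v d a b` is the coefficient of `x_a z_b` in the form number `d` -/
abbrev VFm (s : ℕ) (R : Type*) := Fin s → Fin 3 → Fin s → R
/-- the forms for all the 3-blocks and `Z` -/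
abbrev VArr (m s : ℕ) (R : Type*) := Fin m → VFm s R
/-- base change -/
def VArr.map (φ : R →+* S) (v : VArr m s R) : VArr m s S := fun i d a b => φ (v i d a b)

/-- coefficient of `z_b z_c`, `b ≠ c` -/
def qs (R : Type*) [CommRing R] (q : Fin s → Fin s → ℤ) (b c : Fin s) : R :=
  ((q b c + q c b : ℤ) : R)
/-- no squares -/
def Shp (q : Fin s → Fin s → ℤ) : Prop := ∀ b, q b b = 0

/-- coefficient of `x_a z_b z_c`, `b ≠ c`, in `∑ y b d z_b v^d` -/
def LY (v : VFm s R) (y : Fin s → Fin s → R) (a : Fin 3) (b c : Fin s) : R :=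
  ∑ d, (y b d * v d a c + y c d * v d a b)
/-- coefficient of `x_a z_b ^ 2` -/
def QY (v : VFm s R) (y : Fin s → Fin s → R) (a : Fin 3) (b : Fin s) : R := ∑ d, y b d * v d a b
/-- coefficient of `z_c x_{e+1} x_{e+2}` in `∑ r a d x_a v^d` -/
def LR (v : VFm s R) (r : Fin 3 → Fin s → R) (e : Fin 3) (c : Fin s) : R :=
  ∑ d, (r (e + 1) d * v d (e + 2) c + r (e + 2) d * v d (e + 1) c)
/-- coefficient of `z_c x_a ^ 2` -/
def QR (v : VFm s R) (r : Fin 3 → Fin s → R) (a : Fin 3) (c : Fin s) : R := ∑ d, r a d * v d a c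

/-- combination of the `s` forms -/
def InSpZ (v : VFm s R) (M : Fin 3 → Fin s → R) : Prop :=
  ∃ y : Fin s → R, ∀ a b, M a b = ∑ d, y d * v d a b

/-- the data of the syzygies.  `z`: decompositions of `u h_j`.  `y`, `y5`: decompositions of
`u h_Z`, `u ∈ K_i`: coefficients of `z_b v_i^d` and of `x_ia q_τ`.  `r j b`: decomposition of
`z_b h_j`: coefficients of `x_ja v_j^d`.  `k b`: decomposition of `z_b h_Z`: coefficients of
`z_c q_τ`.  `p`, `p5`: relation: coefficients of `z_b v_i^d` and of `x_ia q_τ`. -/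
structure ZD (m s t : ℕ) (R : Type*) where
  z : Zar m R
  y : Fin m → Fin 2 → Fin s → Fin s → R
  y5 : Fin m → Fin 2 → Fin 3 → Fin t → R
  r : Fin m → Fin s → Fin 3 → Fin s → R
  k : Fin s → Fin s → Fin t → R
  p : Fin m → Fin s → Fin s → R
  p5 : Fin m → Fin 3 → Fin t → R

/-- the identities of the decompositions -/
structure ZDOK (w : Arr m R) (v : VArr m s R) (hz : Fin s → Fin s → ℤ)
    (qz : Fin t → Fin s → Fin s → ℤ) (D : ZD m s t R) : Prop where
  zok : ZOK w D.z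
  yok : ∀ i u a b c, b ≠ c →
    LY (v i) (D.y i u) a b c + ∑ τ, D.y5 i u a τ * qs R (qz τ) b c = uu u a * qs R hz b c
  rok : ∀ j b e c, LR (v j) (D.r j b) e c = if b = c then 1 else 0
  kok : ∀ b c1 c2 c3, c1 ≠ c2 → c1 ≠ c3 → c2 ≠ c3 →
    ∑ τ, (D.k b c1 τ * qs R (qz τ) c2 c3 + D.k b c2 τ * qs R (qz τ) c1 c3 +
      D.k b c3 τ * qs R (qz τ) c1 c2) =
    (if b = c1 then qs R hz c2 c3 else 0) + (if b = c2 then qs R hz c1 c3 else 0) +
      (if b = c3 then qs R hz c1 c2 else 0)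
  pok : ∀ i a b c, b ≠ c → LY (v i) (D.p i) a b c + ∑ τ, D.p5 i a τ * qs R (qz τ) b c = 0

/-- coefficient of `z_c z_d ^ 2`, `c ≠ d`, in the decomposition of `z_b h_Z` -/
def kap (hz : Fin s → Fin s → ℤ) (qz : Fin t → Fin s → Fin s → ℤ)
    (k : Fin s → Fin s → Fin t → R) (b c d : Fin s) : R :=
  (if b = d then qs R hz c d else 0) - ∑ τ, k b d τ * qs R (qz τ) c d

/-! ### The images of the syzygies

`S x t`: the `t` component of the value on `x ^ 2`; `f i j c t`: on `w_ij^c`; `fz i d t`: on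
`v_i^d`; `g t`: on `h`; `gq τ t`: on `q_τ`. -/

/-- image of the syzygy `E_i(u)` -/
def QE (w : Arr m R) (v : VArr m s R) (D : ZD m s t R) (S' : IZ m s → IZ m s → R)
    (f : Fin m → Fin m → Fin 3 → IZ m s → R) (fz : Fin m → Fin s → IZ m s → R)
    (g : IZ m s → R) (gq : Fin t → IZ m s → R) (i : Fin m) (u : Fin 2) : IZ m s → IZ m s → R
  | Sum.inl (k, e), t =>
    if k = i then
      uu u e * g t - ∑ a, (if a = e then 0 else uu u a * S' (xv i a) t) +
        ∑ j, (if j = i then 0 else ∑ c, Q2 (w i j) (D.z i j u) e c * S' (xv j c) t) +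
        ∑ b, QY (v i) (D.y i u) e b * S' (zv b) t - ∑ τ, D.y5 i u e τ * gq τ t
    else - ∑ c, D.z i k u e c * f i k c t
  | Sum.inr b, t => - ∑ d, D.y i u b d * fz i d t

/-- image of the syzygy `E_Z(z_b)` -/
def QEZ (v : VArr m s R) (hz : Fin s → Fin s → ℤ) (qz : Fin t → Fin s → Fin s → ℤ)
    (D : ZD m s t R) (S' : IZ m s → IZ m s → R) (fz : Fin m → Fin s → IZ m s → R)
    (g : IZ m s → R) (gq : Fin t → IZ m s → R) (b : Fin s) : IZ m s → IZ m s → R
  | Sum.inl (j, a), t => - ∑ d, D.r j b a d * fz j d t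
  | Sum.inr c, t =>
    (if b = c then g t else 0) - ∑ τ, D.k b c τ * gq τ t -
      ∑ d, (if c = d then 0 else kap hz qz D.k b c d * S' (zv d) t) +
      ∑ j, ∑ a, QR (v j) (D.r j b) a c * S' (xv j a) t

/-- image of the syzygy `P_i` -/
def QP (v : VArr m s R) (D : ZD m s t R) (S' : IZ m s → IZ m s → R)
    (fz : Fin m → Fin s → IZ m s → R) (gq : Fin t → IZ m s → R) (i : Fin m) :
    IZ m s → IZ m s → R
  | Sum.inl (k, e), t =>
    if k = i then ∑ τ, D.p5 i e τ * gq τ t - ∑ b, QY (v i) (D.p i) e b * S' (zv b) t else 0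
  | Sum.inr b, t => ∑ d, D.p i b d * fz i d t

/-! ### The systems of the classes -/

/-- the unknowns of the class `e_l` -/
structure XL (m s t : ℕ) (R : Type*) where
  S : Fin m → Mat R
  SZ : Fin s → Fin 3 → R
  P : Fin m → Mat R
  U : Fin s → Fin s → R
  g : Fin 3 → R
  gq : Fin t → Fin 3 → R

/-- the diagonal part of the equations of `E_l(u)`, or the part `k = i` for `E_i(u)` -/
def TB (w : Arr m R) (v : VArr m s R) (D : ZD m s t R) (X : XL m s t R) (i : Fin m) (u : Fin 2)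
    (e b : Fin 3) : R :=
  TA w D.z X.S X.g i u e b + ∑ c, QY (v i) (D.y i u) e c * X.SZ c b -
    ∑ τ, D.y5 i u e τ * X.gq τ b

/-- the part `k = i` for `P_i` -/
def PB (v : VArr m s R) (D : ZD m s t R) (X : XL m s t R) (i : Fin m) (e b : Fin 3) : R :=
  ∑ τ, D.p5 i e τ * X.gq τ b - ∑ c, QY (v i) (D.p i) e c * X.SZ c b

/-- the system of the class `e_l` -/
structure EL (w : Arr m R) (v : VArr m s R) (hz : Fin s → Fin s → ℤ)
    (qz : Fin t → Fin s → Fin s → ℤ) (qz' : Fin t' → Fin s → Fin s → ℤ) (D : ZD m s t R)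
    (l : Fin m) (X : XL m s t R) : Prop where
  a : ∀ i, i ≠ l → ∀ u, InSp (w i l) fun e b =>
    TB w v D X i u e b - ∑ c, D.z i l u b c * X.P i c e
  p : ∀ i, i ≠ l → InSp (w i l) fun e b => PB v D X i e b
  az : ∀ b, InSpZ (v l) fun a c =>
    (if b = c then X.g a else 0) - ∑ τ, D.k b c τ * X.gq τ a -
      ∑ d, (if c = d then 0 else kap hz qz D.k b c d * X.SZ d a) +
      ∑ j, ∑ a', QR (v j) (D.r j b) a' c * X.S j a' a - ∑ d, D.r l b a d * X.U d c
  b : ∀ u, ∃ (μ : R) (ν : Fin t' → R),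
    (∀ k, k ≠ l → ∀ e b, e ≠ b →
      ∑ c, (D.z l k u e c * X.P k c b + D.z l k u b c * X.P k c e) = - μ) ∧
    (∀ e b, e ≠ b → TB w v D X l u e b + TB w v D X l u b e = μ) ∧
    ∀ b c, b ≠ c → - ∑ d, (D.y l u b d * X.U d c + D.y l u c d * X.U d b) =
      μ * qs R hz b c + ∑ τ, ν τ * qs R (qz' τ) b c
  q : ∃ (μ : R) (ν : Fin t' → R), (∀ k, k ≠ l → μ = 0) ∧
    (∀ e b, e ≠ b → PB v D X l e b + PB v D X l b e = μ) ∧
    ∀ b c, b ≠ c → ∑ d, (D.p l b d * X.U d c + D.p l c d * X.U d b) =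
      μ * qs R hz b c + ∑ τ, ν τ * qs R (qz' τ) b c

/-- no normalised solution in the class `e_l` -/
def GoodEL (w : Arr m R) (v : VArr m s R) (hz : Fin s → Fin s → ℤ)
    (qz : Fin t → Fin s → Fin s → ℤ) (qz' : Fin t' → Fin s → Fin s → ℤ) (D : ZD m s t R)
    (l : Fin m) : Prop :=
  ∀ X, EL w v hz qz qz' D l X → (∀ b, X.S l b b = 0) →
    X.S = 0 ∧ X.SZ = 0 ∧ (∀ i, i ≠ l → X.P i = 0) ∧ X.U = 0 ∧ X.g = 0 ∧ X.gq = 0

/-- the unknowns of the class `e_Z` -/
structure XZ (m s t : ℕ) (R : Type*) where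
  S : Fin m → Fin 3 → Fin s → R
  SZ : Fin s → Fin s → R
  U : Fin m → Fin s → Fin 3 → R
  g : Fin s → R
  gq : Fin t → Fin s → R

/-- the part in `Z ⊗ Z` of the equations of `E_Z(z_b)` -/
def ZB (v : VArr m s R) (hz : Fin s → Fin s → ℤ) (qz : Fin t → Fin s → Fin s → ℤ)
    (D : ZD m s t R) (X : XZ m s t R) (b c c' : Fin s) : R :=
  (if b = c then X.g c' else 0) - ∑ τ, D.k b c τ * X.gq τ c' -
    ∑ d, (if c = d then 0 else kap hz qz D.k b c d * X.SZ d c') +
    ∑ j, ∑ a, QR (v j) (D.r j b) a c * X.S j a c'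

/-- the system of the class `e_Z` -/
structure EZ (w : Arr m R) (v : VArr m s R) (hz : Fin s → Fin s → ℤ)
    (qz : Fin t → Fin s → Fin s → ℤ) (qz' : Fin t' → Fin s → Fin s → ℤ) (D : ZD m s t R)
    (X : XZ m s t R) : Prop where
  a : ∀ i u, InSpZ (v i) fun e c =>
    uu u e * X.g c - ∑ a, (if a = e then 0 else uu u a * X.S i a c) +
      ∑ j, (if j = i then 0 else ∑ a, Q2 (w i j) (D.z i j u) e a * X.S j a c) +
      ∑ b, QY (v i) (D.y i u) e b * X.SZ b c - ∑ τ, D.y5 i u e τ * X.gq τ c -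
      ∑ d, D.y i u c d * X.U i d e
  p : ∀ i, InSpZ (v i) fun e c =>
    ∑ τ, D.p5 i e τ * X.gq τ c - ∑ b, QY (v i) (D.p i) e b * X.SZ b c +
      ∑ d, D.p i c d * X.U i d e
  z : ∀ b, ∃ (μ : R) (ν : Fin t' → R),
    (∀ j e e', e ≠ e' → - ∑ d, (D.r j b e d * X.U j d e' + D.r j b e' d * X.U j d e) = μ) ∧
    ∀ c c', c ≠ c' → ZB v hz qz D X b c c' + ZB v hz qz D X b c' c =
      μ * qs R hz c c' + ∑ τ, ν τ * qs R (qz' τ) c c'

/-- no normalised solution in the class `e_Z` -/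
def GoodEZ (w : Arr m R) (v : VArr m s R) (hz : Fin s → Fin s → ℤ)
    (qz : Fin t → Fin s → Fin s → ℤ) (qz' : Fin t' → Fin s → Fin s → ℤ) (D : ZD m s t R) : Prop :=
  ∀ X, EZ w v hz qz qz' D X → (∀ b, X.SZ b b = 0) →
    X.S = 0 ∧ X.SZ = 0 ∧ X.U = 0 ∧ X.g = 0 ∧ X.gq = 0

/-- the system of the class `e_i + e_j + e_Z`; `F1 = f i j · z_·`, `F2 = fz i · x_j·`,
`F3 = fz j · x_i·` -/
structure PQ (w : Arr m R) (v : VArr m s R) (D : ZD m s t R) (i j : Fin m)
    (F1 : Fin 3 → Fin s → R) (F2 F3 : Fin s → Fin 3 → R) : Prop where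
  x : ∀ u, InSpZ (v j) fun e b => ∑ c, D.z i j u e c * F1 c b + ∑ d, D.y i u b d * F2 d e
  y : ∀ u, InSpZ (v i) fun e b => ∑ c, D.z j i u e c * F1 c b + ∑ d, D.y j u b d * F3 d e
  z : ∀ b, InSp (w i j) fun a e => ∑ d, D.r i b a d * F2 d e + ∑ d, D.r j b e d * F3 d a
  pi : InSpZ (v j) fun e b => ∑ d, D.p i b d * F2 d e
  pj : InSpZ (v i) fun e b => ∑ d, D.p j b d * F3 d e

/-- no solution in the class `e_i + e_j + e_Z` -/
def GoodQ (w : Arr m R) (v : VArr m s R) (D : ZD m s t R) (i j : Fin m) : Prop :=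
  ∀ F1 F2 F3, PQ w v D i j F1 F2 F3 → F1 = 0 ∧ F2 = 0 ∧ F3 = 0

/-- no solution in the class `e_a + e_b + e_c` -/
def GoodABC (w : Arr m R) (z : Zar m R) (a b c : Fin m) : Prop :=
  ∀ F1 F2 F3, PT w z a b c F1 F2 F3 → F1 = 0 ∧ F2 = 0 ∧ F3 = 0

/-! ### Linear independence and injectivity -/

/-- the three forms are linearly independent -/
def LI3 (w : Frm R) : Prop := ∀ y : Fin 3 → R, (∀ a b, ∑ c, y c * w c a b = 0) → y = 0
/-- the `s` forms are linearly independent -/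
def LIv (v : VFm s R) : Prop := ∀ y : Fin s → R, (∀ a b, ∑ d, y d * v d a b = 0) → y = 0
/-- the quadrics `q` are linearly independent -/
def LIq (R : Type*) [CommRing R] (qz : Fin t → Fin s → Fin s → ℤ) : Prop :=
  ∀ ν : Fin t → R, (∀ b c, b ≠ c → ∑ τ, ν τ * qs R (qz τ) b c = 0) → ν = 0

/-- cubics in `V_i ⊗ S²Z` -/
def N1 (v : VFm s R) (qz : Fin t → Fin s → Fin s → ℤ) : Prop :=
  ∀ U : Fin 3 → Fin s → Fin s → R, (∀ a b c, U a b c = U a c b) → (∀ a b, U a b b = 0) →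
    (∀ d c, ∑ a, ∑ b, v d a b * U a b c = 0) →
    (∀ τ a, ∑ b, ∑ c, (qz τ b c : R) * U a b c = 0) → U = 0
/-- cubics in `Z ⊗ S²V_i` -/
def N2 (v : VFm s R) : Prop :=
  ∀ U : Fin s → Fin 3 → Fin 3 → R, (∀ b a a', U b a a' = U b a' a) → (∀ b a, U b a a = 0) →
    (∀ d a', ∑ a, ∑ b, v d a b * U b a a' = 0) → U = 0
/-- cubics in `S³Z` -/
def N3 (R : Type*) [CommRing R] (qz : Fin t → Fin s → Fin s → ℤ) : Prop :=
  ∀ U : Fin s → Fin s → Fin s → R, (∀ a b c, U a b c = U b a c) → (∀ a b c, U a b c = U a c b) →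
    (∀ a b, U a b b = 0) → (∀ τ a, ∑ b, ∑ c, (qz τ b c : R) * U a b c = 0) → U = 0
/-- cubics in `V_i ⊗ V_j ⊗ Z` -/
def N4 (w : Frm R) (vi vj : VFm s R) : Prop :=
  ∀ U : Fin 3 → Fin 3 → Fin s → R, (∀ c b, ∑ a, ∑ a', w c a a' * U a a' b = 0) →
    (∀ d a', ∑ a, ∑ b, vi d a b * U a a' b = 0) →
    (∀ d a, ∑ a', ∑ b, vj d a' b * U a a' b = 0) → U = 0

end Ring

/-! ### The spaces of functionals -/

section Space

variable {K : Type*} [Field K] {m s t : ℕ}

/-- the annihilator of `W` -/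
structure InFZ (w : Arr m K) (v : VArr m s K) (hz : Fin s → Fin s → ℤ)
    (qz : Fin t → Fin s → Fin s → ℤ) (F : IZ m s → IZ m s → K) : Prop where
  symm : ∀ x y, F x y = F y x
  diag : ∀ x, F x x = 0
  w : ∀ i j, i ≠ j → ∀ c, ∑ a, ∑ b, w i j c a b * F (xv i a) (xv j b) = 0
  v : ∀ i d, ∑ a, ∑ b, v i d a b * F (xv i a) (zv b) = 0
  q : ∀ τ, ∑ b, ∑ c, (qz τ b c : K) * F (zv b) (zv c) = 0
  h : ∑ i, (F (xv i 0) (xv i 1) + F (xv i 0) (xv i 2) + F (xv i 1) (xv i 2)) +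
    ∑ b, ∑ c, (hz b c : K) * F (zv b) (zv c) = 0

/-- the annihilator of `W` as a submodule -/
def FZ (w : Arr m K) (v : VArr m s K) (hz : Fin s → Fin s → ℤ)
    (qz : Fin t → Fin s → Fin s → ℤ) : Submodule K (IZ m s → IZ m s → K) where
  carrier := {F | InFZ w v hz qz F}
  add_mem' := by
    rintro F G ⟨a1, a2, a3, a4, a5, a6⟩ ⟨b1, b2, b3, b4, b5, b6⟩
    constructor
    · intro x y; simp [a1 x y, b1 x y]
    · intro x; simp [a2, b2]
    · intro i j hij c
      simp only [Pi.add_apply, mul_add, Finset.sum_add_distrib, a3 i j hij c, b3 i j hij c,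
        add_zero]
    · intro i d
      simp only [Pi.add_apply, mul_add, Finset.sum_add_distrib, a4 i d, b4 i d, add_zero]
    · intro τ
      simp only [Pi.add_apply, mul_add, Finset.sum_add_distrib, a5 τ, b5 τ, add_zero]
    · simp only [Pi.add_apply, mul_add, Finset.sum_add_distrib] at a6 b6 ⊢
      linear_combination a6 + b6
  zero_mem' := by
    constructor <;> simp
  smul_mem' := by
    rintro c F ⟨a1, a2, a3, a4, a5, a6⟩
    constructor
    · intro x y; simp [a1 x y]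
    · intro x; simp [a2]
    · intro i j hij d
      simp only [Pi.smul_apply, smul_eq_mul, mul_left_comm _ c, ← Finset.mul_sum, a3 i j hij d,
        mul_zero]
    · intro i d
      simp only [Pi.smul_apply, smul_eq_mul, mul_left_comm _ c, ← Finset.mul_sum, a4 i d,
        mul_zero]
    · intro τ
      simp only [Pi.smul_apply, smul_eq_mul, mul_left_comm _ c, ← Finset.mul_sum, a5 τ,
        mul_zero]
    · simp only [Pi.smul_apply, smul_eq_mul, mul_left_comm _ c, ← Finset.mul_sum, ← mul_add,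
        a6, mul_zero]

/-- values on the squares -/
def Sf (lam : IZ m s → IZ m s → IZ m s → K) (x t : IZ m s) : K := lam t x x
/-- values on the forms `w` -/
def Ff (w : Arr m K) (lam : IZ m s → IZ m s → IZ m s → K) (i j : Fin m) (c : Fin 3)
    (t : IZ m s) : K := ∑ a, ∑ b, w i j c a b * lam t (xv i a) (xv j b)
/-- values on the forms `v` -/
def Fzf (v : VArr m s K) (lam : IZ m s → IZ m s → IZ m s → K) (i : Fin m) (d : Fin s)
    (t : IZ m s) : K := ∑ a, ∑ b, v i d a b * lam t (xv i a) (zv b)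
/-- value on `h` -/
def Gf (hz : Fin s → Fin s → ℤ) (lam : IZ m s → IZ m s → IZ m s → K) (t : IZ m s) : K :=
  ∑ i, (lam t (xv i 0) (xv i 1) + lam t (xv i 0) (xv i 2) + lam t (xv i 1) (xv i 2)) +
    ∑ b, ∑ c, (hz b c : K) * lam t (zv b) (zv c)
/-- values on the `q` -/
def Gqf (qz : Fin t → Fin s → Fin s → ℤ) (lam : IZ m s → IZ m s → IZ m s → K) (τ : Fin t)
    (t : IZ m s) : K := ∑ b, ∑ c, (qz τ b c : K) * lam t (zv b) (zv c)

end Space

universe u

/-- the forms `w`, `v` specialise to all the families of forms over `k` -/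
def GenericU {m s : ℕ} (k κ : Type u) [Field k] [Field κ] (w : Arr m κ) (v : VArr m s κ) : Prop :=
  WSym w ∧ ∀ (w' : Arr m k) (v' : VArr m s k), WSym w' →
    ∃ (κ' : Type u) (_ : Field κ') (P : Place κ κ') (ι : k →+* κ'), Function.Surjective P.r ∧
      (∀ i j c a b, ∃ h : w i j c a b ∈ P.B, P.r ⟨_, h⟩ = ι (w' i j c a b)) ∧
      ∀ i d a b, ∃ h : v i d a b ∈ P.B, P.r ⟨_, h⟩ = ι (v' i d a b)

end Pool.Agent.VCU
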