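import Pool.Agent.VCU.Targets

/-!
# The special families: definitions

For two 3-blocks `l ≠ a`: all the forms `w` are the local forms `wlo` (ordered `l`, `a`, the other
blocks), the forms `v` are `A` for `l`, `B` for `a` and `L` for the other blocks.
-/

set_option autoImplicit false

namespace Pool.Agent.VCU

open Pool.Agent.VCC Pool.Agent.VCT Pool.Agent.VCT.SP_

section Ring

variable {R S : Type*} [CommRing R] [CommRing S] {m s t t' : ℕ}

/-- the syzygy data of one 3-block and `Z` -/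
structure BD (s t : ℕ) (R : Type*) where
  y : Fin 2 → Fin s → Fin s → R
  y5 : Fin 2 → Fin 3 → Fin t → R
  r : Fin s → Fin 3 → Fin s → R
  p : Fin s → Fin s → R
  p5 : Fin 3 → Fin t → R

/-- the identities of these data -/
structure BDOK (v : VFm s R) (hz : Fin s → Fin s → ℤ) (qz : Fin t → Fin s → Fin s → ℤ)
    (d : BD s t R) : Prop where
  y : ∀ u a b c, b ≠ c →
    LY v (d.y u) a b c + ∑ τ, d.y5 u a τ * qs R (qz τ) b c = uu u a * qs R hz b c
  r : ∀ b e c, LR v (d.r b) e c = if b = c then 1 else 0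
  p : ∀ a b c, b ≠ c → LY v d.p a b c + ∑ τ, d.p5 a τ * qs R (qz τ) b c = 0

/-- the identities for `S³Z` -/
def KOK (hz : Fin s → Fin s → ℤ) (qz : Fin t → Fin s → Fin s → ℤ)
    (k : Fin s → Fin s → Fin t → R) : Prop :=
  ∀ b c1 c2 c3, c1 ≠ c2 → c1 ≠ c3 → c2 ≠ c3 →
    ∑ τ, (k b c1 τ * qs R (qz τ) c2 c3 + k b c2 τ * qs R (qz τ) c1 c3 +
      k b c3 τ * qs R (qz τ) c1 c2) =
    (if b = c1 then qs R hz c2 c3 else 0) + (if b = c2 then qs R hz c1 c3 else 0) +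
      (if b = c3 then qs R hz c1 c2 else 0)

/-- position of a block -/
def ow (l a i : Fin m) : ℕ := if i = l then 0 else if i = a then 1 else 2 + i

/-- the forms `w` of the special family -/
def wF (R : Type*) [CommRing R] (l a : Fin m) : Arr m R := fun i j =>
  if ow l a i < ow l a j then wlo R else if ow l a j < ow l a i then tr (wlo R) else 0

/-- the decompositions of `u h_j` in the special family -/
def zF (R : Type*) [CommRing R] (l a : Fin m) : Zar m R := fun i j =>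
  if ow l a i < ow l a j then Zlo R else if ow l a j < ow l a i then Zol R else 0

/-- `A` for `l`, `B` for `a`, `L` for the others -/
def pick {α : Type*} (l a : Fin m) (A B L : α) (i : Fin m) : α :=
  if i = l then A else if i = a then B else L

/-- the forms `v` of the special family -/
def vF (l a : Fin m) (A B L : VFm s R) : VArr m s R := pick l a A B L

/-- the data of the special family -/
def dF (l a : Fin m) (dA dB dL : BD s t R) (k : Fin s → Fin s → Fin t → R) : ZD m s t R where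
  z := zF R l a
  y := fun i => (pick l a dA dB dL i).y
  y5 := fun i => (pick l a dA dB dL i).y5
  r := fun i => (pick l a dA dB dL i).r
  k := k
  p := fun i => (pick l a dA dB dL i).p
  p5 := fun i => (pick l a dA dB dL i).p5

/-- integral forms over `R` -/
def castV (R : Type*) [CommRing R] (A : VFm s ℤ) : VFm s R := fun d a b => (A d a b : R)

/-! ### The finite systems -/

/-- part of the class `e_l` -/
def TBc (v : VFm s R) (d : BD s t R) (S : Mat R) (SZ : Fin s → Fin 3 → R) (g : Fin 3 → R)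
    (gq : Fin t → Fin 3 → R) (u : Fin 2) (e b : Fin 3) : R :=
  uu u e * g b - ∑ a, (if a = e then 0 else uu u a * S a b) +
    ∑ c, QY v (d.y u) e c * SZ c b - ∑ τ, d.y5 u e τ * gq τ b

/-- part of the class `e_l` -/
def PBc (v : VFm s R) (d : BD s t R) (SZ : Fin s → Fin 3 → R) (gq : Fin t → Fin 3 → R)
    (e b : Fin 3) : R :=
  ∑ τ, d.p5 e τ * gq τ b - ∑ c, QY v d.p e c * SZ c b

/-- part of the class `e_l` -/
def AZc (A B : VFm s R) (hz : Fin s → Fin s → ℤ) (qz : Fin t → Fin s → Fin s → ℤ)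
    (dA dB : BD s t R) (k : Fin s → Fin s → Fin t → R) (Sl Sa : Mat R)
    (SZ : Fin s → Fin 3 → R) (U : Fin s → Fin s → R) (g : Fin 3 → R) (gq : Fin t → Fin 3 → R)
    (b : Fin s) (a : Fin 3) (c : Fin s) : R :=
  (if b = c then g a else 0) - ∑ τ, k b c τ * gq τ a -
    ∑ d, (if c = d then 0 else kap hz qz k b c d * SZ d a) +
    (∑ a', QR A (dA.r b) a' c * Sl a' a + ∑ a', QR B (dB.r b) a' c * Sa a' a) -
    ∑ d, dA.r b a d * U d c

/-- the class `e_l`, the blocks `l`, `a` and `Z` -/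
def CoreL (A B : VFm s R) (hz : Fin s → Fin s → ℤ) (qz : Fin t → Fin s → Fin s → ℤ)
    (qz' : Fin t' → Fin s → Fin s → ℤ) (dA dB : BD s t R) (k : Fin s → Fin s → Fin t → R) :
    Prop :=
  ∀ (Sl Sa : Mat R) (SZ : Fin s → Fin 3 → R) (Pa : Mat R) (U : Fin s → Fin s → R)
    (g : Fin 3 → R) (gq : Fin t → Fin 3 → R),
  (∀ u, InSp (tr (wlo R)) fun e b => TBc B dB Sa SZ g gq u e b +
    ∑ c, Q2 (tr (wlo R)) (Zol R u) e c * Sl c b - ∑ c, Zol R u b c * Pa c e) →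
  InSp (tr (wlo R)) (fun e b => PBc B dB SZ gq e b) →
  (∀ b, InSpZ A fun a c => AZc A B hz qz dA dB k Sl Sa SZ U g gq b a c) →
  (∀ u, ∃ (μ : R) (ν : Fin t' → R),
    (∀ e b, e ≠ b → ∑ c, (Zlo R u e c * Pa c b + Zlo R u b c * Pa c e) = - μ) ∧
    (∀ e b, e ≠ b → TBc A dA Sl SZ g gq u e b + TBc A dA Sl SZ g gq u b e = μ) ∧
    ∀ b c, b ≠ c → - ∑ d, (dA.y u b d * U d c + dA.y u c d * U d b) =
      μ * qs R hz b c + ∑ τ, ν τ * qs R (qz' τ) b c) →
  (∃ ν : Fin t' → R,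
    (∀ e b, e ≠ b → PBc A dA SZ gq e b + PBc A dA SZ gq b e = 0) ∧
    ∀ b c, b ≠ c → ∑ d, (dA.p b d * U d c + dA.p c d * U d b) =
      ∑ τ, ν τ * qs R (qz' τ) b c) →
  (∀ b, Sl b b = 0) → Sl = 0 ∧ Sa = 0 ∧ SZ = 0 ∧ Pa = 0 ∧ U = 0 ∧ g = 0 ∧ gq = 0

/-- part of the class `e_Z` -/
def TZc (v : VFm s R) (d : BD s t R) (S : Fin 3 → Fin s → R) (SZ : Fin s → Fin s → R)
    (U : Fin s → Fin 3 → R) (g : Fin s → R) (gq : Fin t → Fin s → R) (u : Fin 2) (e : Fin 3)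
    (c : Fin s) : R :=
  uu u e * g c - ∑ a, (if a = e then 0 else uu u a * S a c) +
    ∑ b, QY v (d.y u) e b * SZ b c - ∑ τ, d.y5 u e τ * gq τ c - ∑ d', d.y u c d' * U d' e

/-- part of the class `e_Z` -/
def PZc (v : VFm s R) (d : BD s t R) (SZ : Fin s → Fin s → R) (U : Fin s → Fin 3 → R)
    (gq : Fin t → Fin s → R) (e : Fin 3) (c : Fin s) : R :=
  ∑ τ, d.p5 e τ * gq τ c - ∑ b, QY v d.p e b * SZ b c + ∑ d', d.p c d' * U d' e

/-- part of the class `e_Z` -/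
def RZc (d : BD s t R) (U : Fin s → Fin 3 → R) (b : Fin s) (e e' : Fin 3) : R :=
  ∑ d', (d.r b e d' * U d' e' + d.r b e' d' * U d' e)

/-- part of the class `e_Z` -/
def ZBc (A B : VFm s R) (hz : Fin s → Fin s → ℤ) (qz : Fin t → Fin s → Fin s → ℤ)
    (dA dB : BD s t R) (k : Fin s → Fin s → Fin t → R) (Sl Sa : Fin 3 → Fin s → R)
    (SZ : Fin s → Fin s → R) (g : Fin s → R) (gq : Fin t → Fin s → R) (b c c' : Fin s) : R :=
  (if b = c then g c' else 0) - ∑ τ, k b c τ * gq τ c' -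
    ∑ d, (if c = d then 0 else kap hz qz k b c d * SZ d c') +
    (∑ a, QR A (dA.r b) a c * Sl a c' + ∑ a, QR B (dB.r b) a c * Sa a c')

/-- the class `e_Z`, the blocks `l`, `a` and `Z` -/
def CoreZ (A B : VFm s R) (hz : Fin s → Fin s → ℤ) (qz : Fin t → Fin s → Fin s → ℤ)
    (qz' : Fin t' → Fin s → Fin s → ℤ) (dA dB : BD s t R) (k : Fin s → Fin s → Fin t → R) :
    Prop :=
  ∀ (Sl Sa : Fin 3 → Fin s → R) (SZ : Fin s → Fin s → R) (Ul Ua : Fin s → Fin 3 → R)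
    (g : Fin s → R) (gq : Fin t → Fin s → R),
  (∀ u, InSpZ A fun e c => TZc A dA Sl SZ Ul g gq u e c) →
  (∀ u, InSpZ B fun e c => TZc B dB Sa SZ Ua g gq u e c +
    ∑ a, Q2 (tr (wlo R)) (Zol R u) e a * Sl a c) →
  (InSpZ A fun e c => PZc A dA SZ Ul gq e c) → (InSpZ B fun e c => PZc B dB SZ Ua gq e c) →
  (∀ b, ∃ (μ : R) (ν : Fin t' → R),
    (∀ e e', e ≠ e' → - RZc dA Ul b e e' = μ) ∧ (∀ e e', e ≠ e' → - RZc dB Ua b e e' = μ) ∧
    ∀ c c', c ≠ c' → ZBc A B hz qz dA dB k Sl Sa SZ g gq b c c' +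
      ZBc A B hz qz dA dB k Sl Sa SZ g gq b c' c =
        μ * qs R hz c c' + ∑ τ, ν τ * qs R (qz' τ) c c') →
  (∀ b, SZ b b = 0) → Sl = 0 ∧ Sa = 0 ∧ SZ = 0 ∧ Ul = 0 ∧ Ua = 0 ∧ g = 0 ∧ gq = 0

/-- the class `e_Z`, an outer block -/
def OutZ (L : VFm s R) (dL : BD s t R) : Prop :=
  ∀ (S : Fin 3 → Fin s → R) (U : Fin s → Fin 3 → R),
  (∀ u, InSpZ L fun e c =>
    - ∑ a, (if a = e then 0 else uu u a * S a c) - ∑ d', dL.y u c d' * U d' e) →
  (InSpZ L fun e c => ∑ d', dL.p c d' * U d' e) →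
  (∀ b e e', e ≠ e' → RZc dL U b e e' = 0) → S = 0 ∧ U = 0

/-- the class `e_l + e_a + e_Z` -/
def CoreQ (A B : VFm s R) (dA dB : BD s t R) : Prop :=
  ∀ (F1 : Fin 3 → Fin s → R) (F2 F3 : Fin s → Fin 3 → R),
  (∀ u, InSpZ B fun e b => ∑ c, Zlo R u e c * F1 c b + ∑ d, dA.y u b d * F2 d e) →
  (∀ u, InSpZ A fun e b => ∑ c, Zol R u e c * F1 c b + ∑ d, dB.y u b d * F3 d e) →
  (∀ b, InSp (wlo R) fun a e => ∑ d, dA.r b a d * F2 d e + ∑ d, dB.r b e d * F3 d a) →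
  (InSpZ B fun e b => ∑ d, dA.p b d * F2 d e) → (InSpZ A fun e b => ∑ d, dB.p b d * F3 d e) →
  F1 = 0 ∧ F2 = 0 ∧ F3 = 0

/-- no square terms in the decompositions of `z_b h_j` -/
def LocZ (L : VFm s R) (dL : BD s t R) : Prop := ∀ b a c, QR L (dL.r b) a c = 0

/-- `w` does not contain `V ⊗ y` -/
def RS3 (w : Frm R) : Prop :=
  ∀ y : Fin 3 → R, (∀ a, InSp w fun a' b => if a' = a then y b else 0) → y = 0
/-- `v` does not contain `V ⊗ y` -/
def RSZ (v : VFm s R) : Prop :=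
  ∀ y : Fin s → R, (∀ a, InSpZ v fun a' b => if a' = a then y b else 0) → y = 0

end Ring

/-- all the finite facts for the forms `A`, `B`, `L` -/
structure FinOK (κ : Type*) [Field κ] {s t t' : ℕ} (hz : Fin s → Fin s → ℤ)
    (qz : Fin t → Fin s → Fin s → ℤ) (qz' : Fin t' → Fin s → Fin s → ℤ)
    (A B L : VFm s ℤ) (dA dB dL : BD s t κ) (k : Fin s → Fin s → Fin t → κ) : Prop where
  hzs : Shp hz
  qzs : ∀ τ, Shp (qz τ)
  qzs' : ∀ τ, Shp (qz' τ)
  liq : LIq κ qz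
  liq' : LIq κ qz'
  sub : ∀ τ, ∃ τ', qz τ = qz' τ'
  okA : BDOK (castV κ A) hz qz dA
  okB : BDOK (castV κ B) hz qz dB
  okL : BDOK (castV κ L) hz qz dL
  kok : KOK hz qz k
  loc : LocZ (castV κ L) dL
  liA : LIv (castV κ A)
  liB : LIv (castV κ B)
  liL : LIv (castV κ L)
  n1A : N1 (castV κ A) qz
  n1B : N1 (castV κ B) qz
  n1L : N1 (castV κ L) qz
  n2A : N2 (castV κ A)
  n2B : N2 (castV κ B)
  n2L : N2 (castV κ L)
  n3 : N3 κ qz
  n4 : N4 (wlo κ) (castV κ A) (castV κ B)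
  coreL : CoreL (castV κ A) (castV κ B) hz qz qz' dA dB k
  coreZ : CoreZ (castV κ A) (castV κ B) hz qz qz' dA dB k
  outZ : OutZ (castV κ L) dL
  coreQ : CoreQ (castV κ A) (castV κ B) dA dB
  rsz : RSZ (castV κ A)

end Pool.Agent.VCU
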