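import Pool.Agent.VCU.F2A

/-!
# The class e_l, s = 2
-/

set_option autoImplicit false

namespace Pool.Agent.VCU

open Pool.Agent.VCC Pool.Agent.VCT Pool.Agent.VCT.SP_

namespace F2

section

variable {κ : Type*} [Field κ]

/-- table -/
def TLa (Sl : Mat κ) (Sa : Mat κ) (SZ : Fin 2 → Fin 3 → κ) (Pa : Mat κ) (g : Fin 3 → κ) (gq : Fin
    0 → Fin 3 → κ) : Fin 2 → Fin 3 → Fin 3 → κ :=
  ![![![3 * Pa 0 0 + Pa 1 0 - 2 * Pa 2 0 + SZ 0 0 + Sa 1 0 + 2 * Sl 1 0 - Sl 2 0 + g 0, 5 * Pa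
      0 0 - 2 * Pa 2 0 + SZ 0 1 + Sa 1 1 + 2 * Sl 1 1 - Sl 2 1 + g 1, -Pa 1 0 + SZ 0 2 + Sa 1 2 +
      2 * Sl 1 2 - Sl 2 2 + g 2],
      ![3 * Pa 0 1 + Pa 1 1 - 2 * Pa 2 1 - Sa 0 0 - 2 * Sl 0 0 + 10 * Sl 1 0 - Sl 2 0 - g 0, 5 *
        Pa 0 1 - 2 * Pa 2 1 - Sa 0 1 - 2 * Sl 0 1 + 10 * Sl 1 1 - Sl 2 1 - g 1, -Pa 1 1 - Sa 0 2 -
        2 * Sl 0 2 + 10 * Sl 1 2 - Sl 2 2 - g 2],
      ![3 * Pa 0 2 + Pa 1 2 - 2 * Pa 2 2 + SZ 0 0 - Sa 0 0 + Sa 1 0 - Sl 0 0 + 5 * Sl 1 0, 5 *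
        Pa 0 2 - 2 * Pa 2 2 + SZ 0 1 - Sa 0 1 + Sa 1 1 - Sl 0 1 + 5 * Sl 1 1, -Pa 1 2 + SZ 0 2 -
        Sa 0 2 + Sa 1 2 - Sl 0 2 + 5 * Sl 1 2]],
    ![![-Pa 0 0 - SZ 0 0 - SZ 1 0 - Sa 1 0 + Sa 2 0 - 3 * Sl 1 0 - Sl 2 0, -2 * Pa 0 0 + Pa 1 0
      + 2 * Pa 2 0 - SZ 0 1 - SZ 1 1 - Sa 1 1 + Sa 2 1 - 3 * Sl 1 1 - Sl 2 1, -Pa 0 0 - Pa 1 0 + 2
      * Pa 2 0 - SZ 0 2 - SZ 1 2 - Sa 1 2 + Sa 2 2 - 3 * Sl 1 2 - Sl 2 2],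
      ![-Pa 0 1 + Sa 2 0 + Sl 0 0 - 6 * Sl 1 0 - 2 * Sl 2 0 + g 0, -2 * Pa 0 1 + Pa 1 1 + 2 * Pa
        2 1 + Sa 2 1 + Sl 0 1 - 6 * Sl 1 1 - 2 * Sl 2 1 + g 1, -Pa 0 1 - Pa 1 1 + 2 * Pa 2 1 + Sa
        2 2 + Sl 0 2 - 6 * Sl 1 2 - 2 * Sl 2 2 + g 2],
      ![-Pa 0 2 - Sa 1 0 + Sl 0 0 - 2 * Sl 1 0 - g 0, -2 * Pa 0 2 + Pa 1 2 + 2 * Pa 2 2 - Sa 1 1
        + Sl 0 1 - 2 * Sl 1 1 - g 1, -Pa 0 2 - Pa 1 2 + 2 * Pa 2 2 - Sa 1 2 + Sl 0 2 - 2 * Sl 1 2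
        - g 2]]]

theorem tTLa (Sl : Mat κ) (Sa : Mat κ) (SZ : Fin 2 → Fin 3 → κ) (Pa : Mat κ) (g : Fin 3 → κ) (gq
    : Fin 0 → Fin 3 → κ) (u : Fin 2) (e : Fin 3) (b : Fin 3) :
    TBc (gB κ) (dB κ) Sa SZ g gq u e b +
      ∑ c, Q2 (tr (wlo κ)) (Zol κ u) e c * Sl c b - ∑ c, Zol κ u b c * Pa c e =
      TLa Sl Sa SZ Pa g gq u e b := by
  simp only [TBc, dB_y, dB_y5, qyB]
  fin_cases u <;> fin_cases e <;> fin_cases b <;>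
    simp [TLa, QYB, uu, Q2, tr, wlo, Zol, Fin.sum_univ_three, Fin.sum_univ_two] <;> ring

/-- table -/
def TLp (SZ : Fin 2 → Fin 3 → κ) (gq : Fin 0 → Fin 3 → κ) : Fin 3 → Fin 3 → κ :=
  ![![0, 0, 0],
    ![SZ 1 0, SZ 1 1, SZ 1 2],
    ![SZ 0 0, SZ 0 1, SZ 0 2]]

theorem tTLp (SZ : Fin 2 → Fin 3 → κ) (gq : Fin 0 → Fin 3 → κ) (e : Fin 3) (b : Fin 3) :
    PBc (gB κ) (dB κ) SZ gq e b =
      TLp SZ gq e b := by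
  simp only [PBc, dB_p, dB_p5, qpB]
  fin_cases e <;> fin_cases b <;>
    simp [TLp, QPB, Fin.sum_univ_three, Fin.sum_univ_two] <;> ring

/-- table -/
def TLz (Sl : Mat κ) (Sa : Mat κ) (SZ : Fin 2 → Fin 3 → κ) (U : Fin 2 → Fin 2 → κ) (g : Fin 3 →
    κ) (gq : Fin 0 → Fin 3 → κ) : Fin 2 → Fin 3 → Fin 2 → κ :=
  ![![![Sa 0 0 - Sl 2 0 + g 0, -SZ 0 0 + Sa 0 0 - Sa 1 0 + Sl 1 0 + Sl 2 0],
      ![Sa 0 1 - Sl 2 1 - U 0 0 - U 1 0 + g 1, -SZ 0 1 + Sa 0 1 - Sa 1 1 + Sl 1 1 + Sl 2 1 - U 0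
        1 - U 1 1],
      ![Sa 0 2 - Sl 2 2 + U 0 0 - U 1 0 + g 2, -SZ 0 2 + Sa 0 2 - Sa 1 2 + Sl 1 2 + Sl 2 2 + U 0
        1 - U 1 1]],
    ![![-SZ 1 0 - Sa 0 0 + Sa 2 0 + Sl 0 0 + Sl 2 0 - U 0 0 - U 1 0, Sa 0 0 - Sl 2 0 - U 0 1 - U
      1 1 + g 0],
      ![-SZ 1 1 - Sa 0 1 + Sa 2 1 + Sl 0 1 + Sl 2 1, Sa 0 1 - Sl 2 1 + g 1],
      ![-SZ 1 2 - Sa 0 2 + Sa 2 2 + Sl 0 2 + Sl 2 2 - U 0 0 + U 1 0, Sa 0 2 - Sl 2 2 - U 0 1 + U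
        1 1 + g 2]]]

theorem tTLz (Sl : Mat κ) (Sa : Mat κ) (SZ : Fin 2 → Fin 3 → κ) (U : Fin 2 → Fin 2 → κ) (g : Fin
    3 → κ) (gq : Fin 0 → Fin 3 → κ) (b : Fin 2) (a : Fin 3) (c : Fin 2) :
    AZc (gA κ) (gB κ) hz2 qz2 (dA κ) (dB κ) (kk κ) Sl Sa SZ U g gq b a c =
      TLz Sl Sa SZ U g gq b a c := by
  simp only [AZc, dA_r, dB_r, qrA, qrB, ka]
  fin_cases b <;> fin_cases a <;> fin_cases c <;>
    simp [TLz, QRA, QRB, KA, rA, Fin.sum_univ_three, Fin.sum_univ_two] <;> ring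

/-- table -/
def TLc (Sl : Mat κ) (SZ : Fin 2 → Fin 3 → κ) (g : Fin 3 → κ) (gq : Fin 0 → Fin 3 → κ) : Fin 2 →
    Fin 3 → Fin 3 → κ :=
  ![![![2 * Sl 1 0 + 2 * g 0, -Sl 0 0 + Sl 1 1 - g 0 + g 1, -SZ 0 0 + SZ 1 0 - Sl 0 0 + Sl 1 0
      + Sl 1 2 + g 2],
      ![-Sl 0 0 + Sl 1 1 - g 0 + g 1, -2 * Sl 0 1 - 2 * g 1, -SZ 0 1 + SZ 1 1 - Sl 0 1 - Sl 0 2
        + Sl 1 1 - g 2],
      ![-SZ 0 0 + SZ 1 0 - Sl 0 0 + Sl 1 0 + Sl 1 2 + g 2, -SZ 0 1 + SZ 1 1 - Sl 0 1 - Sl 0 2 +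
        Sl 1 1 - g 2, -2 * SZ 0 2 + 2 * SZ 1 2 - 2 * Sl 0 2 + 2 * Sl 1 2]],
    ![![-2 * SZ 0 0 - 2 * Sl 1 0 + 2 * Sl 2 0, -SZ 0 1 - Sl 1 1 + Sl 2 0 + Sl 2 1 + g 0, SZ 0 0
      - SZ 0 2 - Sl 1 0 - Sl 1 2 + Sl 2 2 - g 0],
      ![-SZ 0 1 - Sl 1 1 + Sl 2 0 + Sl 2 1 + g 0, 2 * Sl 2 1 + 2 * g 1, SZ 0 1 - Sl 1 1 + Sl 2 2
        - g 1 + g 2],
      ![SZ 0 0 - SZ 0 2 - Sl 1 0 - Sl 1 2 + Sl 2 2 - g 0, SZ 0 1 - Sl 1 1 + Sl 2 2 - g 1 + g 2,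
        2 * SZ 0 2 - 2 * Sl 1 2 - 2 * g 2]]]

theorem tTLc (Sl : Mat κ) (SZ : Fin 2 → Fin 3 → κ) (g : Fin 3 → κ) (gq : Fin 0 → Fin 3 → κ) (u :
    Fin 2) (e : Fin 3) (b : Fin 3) :
    TBc (gA κ) (dA κ) Sl SZ g gq u e b + TBc (gA κ) (dA κ) Sl SZ g gq u b e =
      TLc Sl SZ g gq u e b := by
  simp only [TBc, dA_y, dA_y5, qyA]
  fin_cases u <;> fin_cases e <;> fin_cases b <;>
    simp [TLc, QYA, uu, Fin.sum_univ_three, Fin.sum_univ_two] <;> ring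

/-- table -/
def TLb (Pa : Mat κ) : Fin 2 → Fin 3 → Fin 3 → κ :=
  ![![![2 * Pa 0 0, Pa 0 0 + Pa 0 1 + Pa 1 0, Pa 0 2],
      ![Pa 0 0 + Pa 0 1 + Pa 1 0, 2 * Pa 0 1 + 2 * Pa 1 1, Pa 0 2 + Pa 1 2],
      ![Pa 0 2, Pa 0 2 + Pa 1 2, 0]],
    ![![0, Pa 0 0 + Pa 1 0, Pa 1 0],
      ![Pa 0 0 + Pa 1 0, 2 * Pa 0 1 + 2 * Pa 1 1, Pa 0 2 + Pa 1 1 + Pa 1 2],
      ![Pa 1 0, Pa 0 2 + Pa 1 1 + Pa 1 2, 2 * Pa 1 2]]]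

theorem tTLb (Pa : Mat κ) (u : Fin 2) (e : Fin 3) (b : Fin 3) :
    ∑ c, (Zlo κ u e c * Pa c b + Zlo κ u b c * Pa c e) =
      TLb Pa u e b := by
  fin_cases u <;> fin_cases e <;> fin_cases b <;>
    simp [TLb, Zlo, Fin.sum_univ_three] <;> ring

/-- table -/
def TLu (U : Fin 2 → Fin 2 → κ) : Fin 2 → Fin 2 → Fin 2 → κ :=
  ![![![2 * U 0 0, U 0 1 - U 1 0],
      ![U 0 1 - U 1 0, -2 * U 1 1]],
    ![![-2 * U 0 0 + 2 * U 1 0, -U 0 1 + U 1 1],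
      ![-U 0 1 + U 1 1, 0]]]

theorem tTLu (U : Fin 2 → Fin 2 → κ) (u : Fin 2) (b : Fin 2) (c : Fin 2) :
    - ∑ d, ((dA κ).y u b d * U d c + (dA κ).y u c d * U d b) =
      TLu U u b c := by
  fin_cases u <;> fin_cases b <;> fin_cases c <;>
    simp [TLu, dA_y, yA, Fin.sum_univ_two] <;> ring

/-- table -/
def TLq (SZ : Fin 2 → Fin 3 → κ) (gq : Fin 0 → Fin 3 → κ) : Fin 3 → Fin 3 → κ :=
  ![![2 * SZ 0 0, SZ 0 1 - SZ 1 0, SZ 0 2],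
    ![SZ 0 1 - SZ 1 0, -2 * SZ 1 1, -SZ 1 2],
    ![SZ 0 2, -SZ 1 2, 0]]

theorem tTLq (SZ : Fin 2 → Fin 3 → κ) (gq : Fin 0 → Fin 3 → κ) (e : Fin 3) (b : Fin 3) :
    PBc (gA κ) (dA κ) SZ gq e b + PBc (gA κ) (dA κ) SZ gq b e =
      TLq SZ gq e b := by
  simp only [PBc, dA_p, dA_p5, qpA]
  fin_cases e <;> fin_cases b <;>
    simp [TLq, QPA, Fin.sum_univ_three, Fin.sum_univ_two] <;> ring

/-- table -/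
def TLr (U : Fin 2 → Fin 2 → κ) : Fin 2 → Fin 2 → κ :=
  ![![-2 * U 1 0, U 0 0 - U 1 1],
    ![U 0 0 - U 1 1, 2 * U 0 1]]

theorem tTLr (U : Fin 2 → Fin 2 → κ) (b : Fin 2) (c : Fin 2) :
    ∑ d, ((dA κ).p b d * U d c + (dA κ).p c d * U d b) =
      TLr U b c := by
  fin_cases b <;> fin_cases c <;>
    simp [TLr, dA_p, pA, Fin.sum_univ_two] <;> ring

/-- table -/
def TR (mu : κ) (nu : Fin 0 → κ) : Fin 2 → Fin 2 → κ :=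
  ![![0, mu],
    ![mu, 0]]

theorem tTR (mu : κ) (nu : Fin 0 → κ) (b : Fin 2) (c : Fin 2) :
    mu * qs κ hz2 b c + ∑ τ, nu τ * qs κ (qz2 τ) b c =
      TR mu nu b c := by
  fin_cases b <;> fin_cases c <;>
    simp [TR, qs, hz2, Fin.sum_univ_three, Fin.sum_univ_two] <;> ring

/-- table -/
def TR0 (nu : Fin 0 → κ) : Fin 2 → Fin 2 → κ :=
  ![![0, 0],
    ![0, 0]]

theorem tTR0 (nu : Fin 0 → κ) (b : Fin 2) (c : Fin 2) :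
    ∑ τ, nu τ * qs κ (qz2 τ) b c =
      TR0 nu b c := by
  fin_cases b <;> fin_cases c <;>
    simp [TR0, qs, Fin.sum_univ_three, Fin.sum_univ_two] <;> ring

end

section

variable {κ : Type*} [Field κ] [CharZero κ]

theorem coreL : CoreL (gA κ) (gB κ) hz2 qz2 qz2 (dA κ) (dB κ) (kk κ) := by
  intro Sl Sa SZ Pa U g gq ha hp hz hb hq hn
  simp only [tTLa] at ha
  simp only [tTLp] at hp
  simp only [tTLz] at hz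
  simp only [tTLb, tTLc, tTLu, tTR] at hb
  simp only [tTLq, tTLr, tTR0] at hq
  obtain ⟨qa00, qa01, qa02, qa03, qa04, qa05⟩ := insp_ol (ha 0)
  obtain ⟨qa10, qa11, qa12, qa13, qa14, qa15⟩ := insp_ol (ha 1)
  obtain ⟨qp0, qp1, qp2, qp3, qp4, qp5⟩ := insp_ol hp
  obtain ⟨qz00, qz01, qz02, qz03⟩ := inspA (hz 0)
  obtain ⟨qz10, qz11, qz12, qz13⟩ := inspA (hz 1)
  obtain ⟨mu0, nu0, hb0, hc0, hd0⟩ := hb 0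
  obtain ⟨mu1, nu1, hb1, hc1, hd1⟩ := hb 1
  obtain ⟨nu2, hq1, hq2⟩ := hq
  have e0 : (3 * Pa 0 0 + Pa 1 0 - 2 * Pa 2 0 + SZ 0 0 + Sa 1 0 + 2 * Sl 1 0 - Sl 2 0 + g 0) = 0
      := qa00
  have e1 : (5 * Pa 0 1 - 2 * Pa 2 1 - Sa 0 1 - 2 * Sl 0 1 + 10 * Sl 1 1 - Sl 2 1 - g 1) + (2) *
      (3 * Pa
      0 1 + Pa 1 1 - 2 * Pa 2 1 - Sa 0 0 - 2 * Sl 0 0 + 10 * Sl 1 0 - Sl 2 0 - g 0) = 0 := qa01
  have e2 : (-Pa 1 1 - Sa 0 2 - 2 * Sl 0 2 + 10 * Sl 1 2 - Sl 2 2 - g 2) - (5 * Pa 0 0 - 2 * Pa 2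
      0 + SZ
      0 1 + Sa 1 1 + 2 * Sl 1 1 - Sl 2 1 + g 1) - (-Pa 1 0 + SZ 0 2 + Sa 1 2 + 2 * Sl 1 2 - Sl 2 2
      + g 2) - (3 * Pa 0 1 + Pa 1 1 - 2 * Pa 2 1 - Sa 0 0 - 2 * Sl 0 0 + 10 * Sl 1 0 - Sl 2 0 - g
      0) = 0 := qa02
  have e3 : (3 * Pa 0 2 + Pa 1 2 - 2 * Pa 2 2 + SZ 0 0 - Sa 0 0 + Sa 1 0 - Sl 0 0 + 5 * Sl 1 0) -
      (5 *
      Pa 0 0 - 2 * Pa 2 0 + SZ 0 1 + Sa 1 1 + 2 * Sl 1 1 - Sl 2 1 + g 1) - (3 * Pa 0 1 + Pa 1 1 -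
      2 * Pa 2 1 - Sa 0 0 - 2 * Sl 0 0 + 10 * Sl 1 0 - Sl 2 0 - g 0) = 0 := qa03
  have e5 : (-Pa 1 2 + SZ 0 2 - Sa 0 2 + Sa 1 2 - Sl 0 2 + 5 * Sl 1 2) = 0 := qa05
  have e6 : (-Pa 0 0 - SZ 0 0 - SZ 1 0 - Sa 1 0 + Sa 2 0 - 3 * Sl 1 0 - Sl 2 0) = 0 := qa10
  have e7 : (-2 * Pa 0 1 + Pa 1 1 + 2 * Pa 2 1 + Sa 2 1 + Sl 0 1 - 6 * Sl 1 1 - 2 * Sl 2 1 + g 1)
      + (2)
      * (-Pa 0 1 + Sa 2 0 + Sl 0 0 - 6 * Sl 1 0 - 2 * Sl 2 0 + g 0) = 0 := qa11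
  have e8 : (-Pa 0 1 - Pa 1 1 + 2 * Pa 2 1 + Sa 2 2 + Sl 0 2 - 6 * Sl 1 2 - 2 * Sl 2 2 + g 2) -
      (-2 * Pa
      0 0 + Pa 1 0 + 2 * Pa 2 0 - SZ 0 1 - SZ 1 1 - Sa 1 1 + Sa 2 1 - 3 * Sl 1 1 - Sl 2 1) - (-Pa
      0 0 - Pa 1 0 + 2 * Pa 2 0 - SZ 0 2 - SZ 1 2 - Sa 1 2 + Sa 2 2 - 3 * Sl 1 2 - Sl 2 2) - (-Pa
      0 1 + Sa 2 0 + Sl 0 0 - 6 * Sl 1 0 - 2 * Sl 2 0 + g 0) = 0 := qa12
  have e9 : (-Pa 0 2 - Sa 1 0 + Sl 0 0 - 2 * Sl 1 0 - g 0) - (-2 * Pa 0 0 + Pa 1 0 + 2 * Pa 2 0 -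
      SZ 0 1
      - SZ 1 1 - Sa 1 1 + Sa 2 1 - 3 * Sl 1 1 - Sl 2 1) - (-Pa 0 1 + Sa 2 0 + Sl 0 0 - 6 * Sl 1 0
      - 2 * Sl 2 0 + g 0) = 0 := qa13
  have e10 : (-2 * Pa 0 2 + Pa 1 2 + 2 * Pa 2 2 - Sa 1 1 + Sl 0 1 - 2 * Sl 1 1 - g 1) - (-Pa 0 0
      - Pa 1 0
      + 2 * Pa 2 0 - SZ 0 2 - SZ 1 2 - Sa 1 2 + Sa 2 2 - 3 * Sl 1 2 - Sl 2 2) + (-Pa 0 1 + Sa 2 0
      + Sl 0 0 - 6 * Sl 1 0 - 2 * Sl 2 0 + g 0) = 0 := qa14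
  have e11 : (-Pa 0 2 - Pa 1 2 + 2 * Pa 2 2 - Sa 1 2 + Sl 0 2 - 2 * Sl 1 2 - g 2) = 0 := qa15
  have e13 : (SZ 1 1) + (2) * (SZ 1 0) = 0 := qp1
  have e14 : (SZ 1 2) - (0) - (0) - (SZ 1 0) = 0 := qp2
  have e15 : (SZ 0 0) - (0) - (SZ 1 0) = 0 := qp3
  have e17 : (SZ 0 2) = 0 := qp5
  have e18 : (-SZ 0 0 + Sa 0 0 - Sa 1 0 + Sl 1 0 + Sl 2 0) = 0 := qz00
  have e19 : (Sa 0 1 - Sl 2 1 - U 0 0 - U 1 0 + g 1) = 0 := qz01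
  have e20 : -(-SZ 0 1 + Sa 0 1 - Sa 1 1 + Sl 1 1 + Sl 2 1 - U 0 1 - U 1 1) + (Sa 0 2 - Sl 2 2 +
      U 0 0 -
      U 1 0 + g 2) = 0 := qz02
  have e21 : -(Sa 0 0 - Sl 2 0 + g 0) + (-SZ 0 2 + Sa 0 2 - Sa 1 2 + Sl 1 2 + Sl 2 2 + U 0 1 - U
      1 1) = 0
      := qz03
  have e22 : (Sa 0 0 - Sl 2 0 - U 0 1 - U 1 1 + g 0) = 0 := qz10
  have e23 : (-SZ 1 1 - Sa 0 1 + Sa 2 1 + Sl 0 1 + Sl 2 1) = 0 := qz11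
  have e24 : -(Sa 0 1 - Sl 2 1 + g 1) + (-SZ 1 2 - Sa 0 2 + Sa 2 2 + Sl 0 2 + Sl 2 2 - U 0 0 + U
      1 0) = 0
      := qz12
  have e25 : -(-SZ 1 0 - Sa 0 0 + Sa 2 0 + Sl 0 0 + Sl 2 0 - U 0 0 - U 1 0) + (Sa 0 2 - Sl 2 2 -
      U 0 1 +
      U 1 1 + g 2) = 0 := qz13
  have e26 : Pa 0 0 + Pa 0 1 + Pa 1 0 = -mu0 := hb0 0 1 (by decide)
  have e27 : -Sl 0 0 + Sl 1 1 - g 0 + g 1 = mu0 := hc0 0 1 (by decide)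
  have e28 : Pa 0 2 = -mu0 := hb0 0 2 (by decide)
  have e29 : -SZ 0 0 + SZ 1 0 - Sl 0 0 + Sl 1 0 + Sl 1 2 + g 2 = mu0 := hc0 0 2 (by decide)
  have e30 : Pa 0 2 + Pa 1 2 = -mu0 := hb0 1 2 (by decide)
  have e31 : -SZ 0 1 + SZ 1 1 - Sl 0 1 - Sl 0 2 + Sl 1 1 - g 2 = mu0 := hc0 1 2 (by decide)
  have e32 : U 0 1 - U 1 0 = mu0 := hd0 0 1 (by decide)
  have e33 : Pa 0 0 + Pa 1 0 = -mu1 := hb1 0 1 (by decide)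
  have e34 : -SZ 0 1 - Sl 1 1 + Sl 2 0 + Sl 2 1 + g 0 = mu1 := hc1 0 1 (by decide)
  have e35 : Pa 1 0 = -mu1 := hb1 0 2 (by decide)
  have e36 : SZ 0 0 - SZ 0 2 - Sl 1 0 - Sl 1 2 + Sl 2 2 - g 0 = mu1 := hc1 0 2 (by decide)
  have e37 : Pa 0 2 + Pa 1 1 + Pa 1 2 = -mu1 := hb1 1 2 (by decide)
  have e39 : -U 0 1 + U 1 1 = mu1 := hd1 0 1 (by decide)
  have e40 : SZ 0 1 - SZ 1 0 = 0 := hq1 0 1 (by decide)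
  have e42 : -SZ 1 2 = 0 := hq1 1 2 (by decide)
  have e43 : U 0 0 - U 1 1 = 0 := hq2 0 1 (by decide)
  have e44 : Sl 0 0 = 0 := hn 0
  have e45 : Sl 1 1 = 0 := hn 1
  have e46 : Sl 2 2 = 0 := hn 2
  have f_Sl_1_0 : Sl 1 0 = 0 := by
    linear_combination (9 / 167) * e0 - (30 / 167) * e1 - (77 / 334) * e2 - (31 / 334) * e3 + (65
        / 334) * e5 - (3
      / 334) * e6 - (20 / 167) * e7 - (16 / 167) * e8 - (16 / 167) * e9 - (15 / 167) * e10 - (1 /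
      334) * e11 + (7 / 167) * e13 - (53 / 167) * e14 + (117 / 167) * e15 - (175 / 334) * e17 +
      (11 / 167) * e18 - (94 / 167) * e19 - (37 / 167) * e20 + (81 / 334) * e21 + (65 / 334) * e22
      - (12 / 167) * e23 - (15 / 167) * e24 - (49 / 334) * e25 + (89 / 167) * e26 - (125 / 334) *
      e28 + (13 / 167) * e29 + (91 / 167) * e30 + (13 / 167) * e31 + (183 / 334) * e32 - (585 /
      334) * e33 - (88 / 167) * e34 + (232 / 167) * e35 - (88 / 167) * e36 - (57 / 334) * e37 +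
      (87 / 167) * e39 - (60 / 167) * e40 - (69 / 167) * e42 - (95 / 334) * e43
  have f_Sl_2_0 : Sl 2 0 = 0 := by
    linear_combination -(3 / 40) * e0 + (1 / 4) * e1 + (39 / 80) * e2 - (3 / 80) * e3 - (7 / 16)
        * e5 + (1 / 80) *
      e6 + (3 / 10) * e8 - (1 / 5) * e9 + (1 / 8) * e10 - (13 / 80) * e11 + (11 / 40) * e13 + (31
      / 40) * e14 - (39 / 40) * e15 + (17 / 16) * e17 + (3 / 40) * e18 + (19 / 20) * e19 + (19 /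
      40) * e20 - (27 / 80) * e21 - (7 / 16) * e22 + (1 / 10) * e23 + (1 / 8) * e24 + (3 / 80) *
      e25 - (43 / 40) * e26 + (11 / 16) * e28 - (11 / 40) * e29 - (57 / 40) * e30 - (11 / 40) *
      e31 - (101 / 80) * e32 + (47 / 16) * e33 + (9 / 10) * e34 - (13 / 5) * e35 + (9 / 10) * e36
      + (59 / 80) * e37 - (29 / 40) * e39 + (1 / 2) * e40 + (43 / 40) * e42 + (9 / 16) * e43 + (29
      / 40) * f_Sl_1_0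
  have f_Sa_0_0 : Sa 0 0 = 0 := by
    linear_combination (3 / 4) * e0 + (1 / 2) * e1 + (5 / 8) * e2 + (7 / 8) * e3 - (1 / 8) * e5 +
        (7 / 8) * e6 + (1
      / 2) * e9 + (1 / 4) * e10 + (5 / 8) * e11 + (1 / 4) * e13 + (9 / 4) * e14 - (13 / 4) * e15 +
      (15 / 8) * e17 + (1 / 4) * e18 + (5 / 2) * e19 + (5 / 4) * e20 - (9 / 8) * e21 - (5 / 8) *
      e22 + (1 / 2) * e23 + (1 / 4) * e24 + (5 / 8) * e25 - (5 / 4) * e26 - (3 / 8) * e28 - (1 /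
      4) * e29 - (7 / 4) * e30 - (1 / 4) * e31 - (23 / 8) * e32 + (49 / 8) * e33 + (3 / 2) * e34 -
      6 * e35 + (5 / 2) * e36 + (9 / 8) * e37 - (11 / 4) * e39 + e40 + (9 / 4) * e42 + (7 / 8) *
      e43 + (15 / 4) * f_Sl_1_0
  have f_g_0 : g 0 = 0 := by
    linear_combination (1 / 4) * e0 + (1 / 24) * e2 - (1 / 24) * e3 + (1 / 8) * e5 + (1 / 6) * e6
        - (1 / 8) * e9 -
      (1 / 8) * e10 + (1 / 12) * e11 + (1 / 4) * e13 + (5 / 12) * e14 - (1 / 6) * e15 - (1 / 24) *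
      e17 + (1 / 6) * e18 - (1 / 4) * e19 - (1 / 8) * e21 + (5 / 12) * e22 - (1 / 8) * e23 - (1 /
      8) * e24 + (1 / 6) * e25 - (13 / 24) * e28 - (1 / 4) * e29 + (1 / 3) * e30 - (1 / 4) * e31 +
      (7 / 24) * e32 - (5 / 24) * e33 + (1 / 8) * e34 - (1 / 12) * e35 + (1 / 24) * e36 + (1 / 24)
      * e37 - (5 / 12) * e39 + (5 / 12) * e42 - (13 / 24) * e43 + (1 / 2) * e45 + (1 / 2) * e46 +
      (1 / 12) * f_Sl_1_0 + (5 / 6) * f_Sl_2_0 - (11 / 12) * f_Sa_0_0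
  have f_Sa_1_1 : Sa 1 1 = 0 := by
    linear_combination e0 - (1 / 2) * e2 + (1 / 2) * e3 + (5 / 2) * e5 + (3 / 2) * e6 - e10 + (3
        / 2) * e11 + e13 +
      4 * e14 - 3 * e15 + (1 / 2) * e17 - e19 + (1 / 2) * e21 + (3 / 2) * e22 - e24 + (1 / 2) *
      e25 - e26 - e27 - (13 / 2) * e28 - e29 + 5 * e30 - e31 + (1 / 2) * e32 + (1 / 2) * e33 + e35
      + 2 * e36 - (1 / 2) * e37 - e39 - e40 + 4 * e42 - (5 / 2) * e43 - 3 * f_Sl_1_0 + 2 *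
      f_Sl_2_0 - f_Sa_0_0
  have f_Pa_1_0 : Pa 1 0 = 0 := by
    linear_combination -(1 / 12) * e2 + (1 / 12) * e3 + (1 / 4) * e5 - (1 / 12) * e6 + (1 / 12) *
        e11 + (2 / 3) *
      e14 - (2 / 3) * e15 + (7 / 12) * e17 + (1 / 6) * e18 + (1 / 4) * e21 - (1 / 12) * e22 - (1 /
      12) * e25 - (5 / 12) * e28 + (1 / 3) * e30 - (1 / 12) * e32 - (1 / 12) * e33 + (7 / 6) * e35
      + (2 / 3) * e36 - (1 / 12) * e37 + (1 / 3) * e39 + (2 / 3) * e42 + (1 / 12) * e43 - e46 + (1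
      / 3) * f_Sa_0_0 - (1 / 6) * f_Sl_1_0 + f_g_0 - (2 / 3) * f_Sl_2_0
  have f_Pa_2_1 : Pa 2 1 = 0 := by
    linear_combination (1 / 2) * e0 + (1 / 2) * e3 + (1 / 2) * e5 + (1 / 4) * e6 + (1 / 2) * e11
        + (5 / 4) * e14 -
      (3 / 2) * e15 + e17 + (3 / 4) * e18 + (1 / 4) * e19 + (1 / 4) * e20 + (1 / 4) * e22 + (1 /
      4) * e25 + (3 / 2) * e26 + (1 / 4) * e27 - (3 / 2) * e28 - (1 / 4) * e32 - (1 / 4) * e33 +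
      (3 / 4) * e35 + (3 / 2) * e36 + (1 / 2) * e37 - (1 / 2) * e39 + (1 / 4) * e40 + (5 / 4) *
      e42 - (1 / 4) * e43 + e45 - e46 + (1 / 4) * f_Sa_1_1 - (5 / 4) * f_Sa_0_0 - (5 / 2) *
      f_Pa_1_0 + (1 / 2) * f_g_0 + 3 * f_Sl_1_0
  have f_Pa_0_2 : Pa 0 2 = 0 := by
    linear_combination (1 / 4) * e6 + (1 / 4) * e14 - (1 / 4) * e18 - (1 / 4) * e19 - (1 / 4) *
        e20 + (1 / 4) * e22
      + (1 / 4) * e25 + (1 / 4) * e27 + e28 + (3 / 4) * e32 + (1 / 4) * e33 - (1 / 2) * e34 - (3 /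
      4) * e35 - (1 / 4) * e40 + (1 / 4) * e42 - (1 / 4) * e43 + (1 / 2) * e44 - e45 + (1 / 4) *
      f_Sa_1_1 + (1 / 2) * f_g_0 + f_Sl_1_0 + (1 / 2) * f_Pa_1_0 + (3 / 2) * f_Sl_2_0 - (1 / 4) *
      f_Sa_0_0
  have f_Sa_0_1 : Sa 0 1 = 0 := by
    linear_combination -e14 + e19 - e22 - e27 - 2 * e28 - e32 + e34 + e35 + e40 - e42 + e43 - e44
        + 2 * e45 + 2 *
      f_Pa_0_2 + f_Sa_0_0 - 2 * f_Sl_2_0 - f_g_0 - f_Pa_1_0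
  have f_Sa_1_2 : Sa 1 2 = 0 := by
    linear_combination e6 - 2 * e14 + e15 - 3 * e17 - e18 - e21 + e22 + e25 - e29 + e32 + e33 - 5
        * e35 - 2 * e36 -
      2 * e39 - 2 * e42 - e43 + 4 * e46 - 2 * f_Sa_0_0 + 5 * f_Sl_2_0 - 4 * f_g_0 + 4 * f_Pa_1_0 +
      3 * f_Sl_1_0
  have f_Sl_0_2 : Sl 0 2 = 0 := by
    linear_combination -e5 - 6 * e14 + 6 * e15 - 6 * e17 - e21 + e28 - e30 - 7 * e35 - 6 * e36 -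
        e39 - 6 * e42 + 7
      * e46 - 7 * f_g_0 - f_Sa_0_0 + f_Sl_2_0 + 7 * f_Pa_1_0 - 6 * f_Sl_1_0
  have f_Sl_1_2 : Sl 1 2 = 0 := by
    linear_combination -e14 + e15 - e17 - e35 - e36 - e42 + e46 - f_g_0 - f_Sl_1_0 + f_Pa_1_0
  have f_Sl_2_1 : Sl 2 1 = 0 := by
    linear_combination -e14 + e34 + e35 + e40 - e42 + e45 - f_g_0 - f_Sl_2_0 - f_Pa_1_0
  have f_g_2 : g 2 = 0 := by
    linear_combination e15 + e28 + e29 + e44 - f_Sl_1_2 - f_Sl_1_0 - f_Pa_0_2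
  have f_Pa_2_0 : Pa 2 0 = 0 := by
    linear_combination -(1 / 2) * e0 - (1 / 2) * e18 + (3 / 2) * e33 - (3 / 2) * e35 + (1 / 2) *
        f_g_0 + (3 / 2) *
      f_Sl_1_0 + (1 / 2) * f_Pa_1_0 + (1 / 2) * f_Sa_0_0
  have f_Sl_0_1 : Sl 0 1 = 0 := by
    linear_combination e13 + 3 * e14 - e28 - e31 - e40 + 3 * e42 + e45 - f_g_2 - f_Sl_0_2 + f_Pa_0_2
  have f_Sa_2_0 : Sa 2 0 = 0 := by
    linear_combination e6 - e14 - e18 + e33 - e35 - e42 + 4 * f_Sl_1_0 + 2 * f_Sl_2_0 + f_Sa_0_0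
  have f_Pa_2_2 : Pa 2 2 = 0 := by
    linear_combination (1 / 2) * e11 - (1 / 2) * e28 + (1 / 2) * e30 + (1 / 2) * f_g_2 + (1 / 2)
        * f_Sa_1_2 - (1 /
      2) * f_Sl_0_2 + (1 / 2) * f_Pa_0_2 + f_Sl_1_2
  have f_Sa_0_2 : Sa 0 2 = 0 := by
    linear_combination -e5 + e17 + e28 - e30 + f_Sa_1_2 - f_Sl_0_2 + 5 * f_Sl_1_2
  have f_Pa_0_1 : Pa 0 1 = 0 := by
    linear_combination e26 - e28 - e33 + e35 - f_Pa_1_0 + f_Pa_0_2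
  have f_g_1 : g 1 = 0 := by
    linear_combination e27 + e28 + e44 - e45 + f_g_0 - f_Pa_0_2
  have f_U_1_1 : U 1 1 = 0 := by
    linear_combination -(1 / 2) * e22 + (1 / 2) * e35 + (1 / 2) * e39 + (1 / 2) * f_g_0 + (1 / 2)
        * f_Sa_0_0 - (1 /
      2) * f_Sl_2_0 - (1 / 2) * f_Pa_1_0
  have f_Pa_1_1 : Pa 1 1 = 0 := by
    linear_combination e28 - e30 - e35 + e37 - f_Pa_0_2 + f_Pa_1_0
  have f_Sa_1_0 : Sa 1 0 = 0 := by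
    linear_combination e14 - e15 - e18 + e42 + f_Sa_0_0 + f_Sl_1_0 + f_Sl_2_0
  have f_Sa_2_1 : Sa 2 1 = 0 := by
    linear_combination e13 + 2 * e14 + e23 + 2 * e42 - f_Sl_0_1 + f_Sa_0_1 - f_Sl_2_1
  have f_U_0_1 : U 0 1 = 0 := by
    linear_combination -e35 - e39 + f_U_1_1 + f_Pa_1_0
  have f_U_1_0 : U 1 0 = 0 := by
    linear_combination -e28 - e32 + f_U_0_1 + f_Pa_0_2
  have f_Sa_2_2 : Sa 2 2 = 0 := by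
    linear_combination e24 - e42 + e43 - e46 + f_g_1 + f_Sa_0_1 - f_Sl_2_1 - f_Sl_0_2 + f_Sa_0_2
        - f_U_1_0 +
      f_U_1_1
  have f_Pa_1_2 : Pa 1 2 = 0 := by
    linear_combination -e28 + e30
  have f_Pa_0_0 : Pa 0 0 = 0 := by
    linear_combination e33 - e35
  have f_U_0_0 : U 0 0 = 0 := by
    linear_combination e43 + f_U_1_1
  have f_SZ_1_1 : SZ 1 1 = 0 := by
    linear_combination e13 + 2 * e14 + 2 * e42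
  have f_SZ_0_0 : SZ 0 0 = 0 := by
    linear_combination -e14 + e15 - e42
  have f_SZ_0_1 : SZ 0 1 = 0 := by
    linear_combination -e14 + e40 - e42
  have f_SZ_1_0 : SZ 1 0 = 0 := by
    linear_combination -e14 - e42
  have f_Sl_0_0 : Sl 0 0 = 0 := by
    linear_combination e44
  have f_Sl_2_2 : Sl 2 2 = 0 := by
    linear_combination e46
  have f_SZ_1_2 : SZ 1 2 = 0 := by
    linear_combination -e42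
  have f_Sl_1_1 : Sl 1 1 = 0 := by
    linear_combination e45
  have f_SZ_0_2 : SZ 0 2 = 0 := by
    linear_combination e17
  refine ⟨?_, ?_, ?_, ?_, ?_, ?_, funext fun i => i.elim0⟩
  · funext i0 i1
    fin_cases i0 <;> fin_cases i1
    all_goals first
      | exact f_Sl_0_0
      | exact f_Sl_0_1
      | exact f_Sl_0_2
      | exact f_Sl_1_0
      | exact f_Sl_1_1
      | exact f_Sl_1_2
      | exact f_Sl_2_0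
      | exact f_Sl_2_1
      | exact f_Sl_2_2
  · funext i0 i1
    fin_cases i0 <;> fin_cases i1
    all_goals first
      | exact f_Sa_0_0
      | exact f_Sa_0_1
      | exact f_Sa_0_2
      | exact f_Sa_1_0
      | exact f_Sa_1_1
      | exact f_Sa_1_2
      | exact f_Sa_2_0
      | exact f_Sa_2_1
      | exact f_Sa_2_2
  · funext i0 i1
    fin_cases i0 <;> fin_cases i1
    all_goals first
      | exact f_SZ_0_0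
      | exact f_SZ_0_1
      | exact f_SZ_0_2
      | exact f_SZ_1_0
      | exact f_SZ_1_1
      | exact f_SZ_1_2
  · funext i0 i1
    fin_cases i0 <;> fin_cases i1
    all_goals first
      | exact f_Pa_0_0
      | exact f_Pa_0_1
      | exact f_Pa_0_2
      | exact f_Pa_1_0
      | exact f_Pa_1_1
      | exact f_Pa_1_2
      | exact f_Pa_2_0
      | exact f_Pa_2_1
      | exact f_Pa_2_2
  · funext i0 i1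
    fin_cases i0 <;> fin_cases i1
    all_goals first
      | exact f_U_0_0
      | exact f_U_0_1
      | exact f_U_1_0
      | exact f_U_1_1
  · funext i0
    fin_cases i0
    all_goals first
      | exact f_g_0
      | exact f_g_1
      | exact f_g_2

end

end F2

end Pool.Agent.VCU
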