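import Pool.Agent.VCU.F2B

/-!
# The class e_Z, s = 2
-/

set_option autoImplicit false

namespace Pool.Agent.VCU

open Pool.Agent.VCC Pool.Agent.VCT Pool.Agent.VCT.SP_

namespace F2

section

variable {κ : Type*} [Field κ] [CharZero κ]

/-- table -/
def TZa (Sl : Fin 3 → Fin 2 → κ) (SZ : Fin 2 → Fin 2 → κ) (Ul : Fin 2 → Fin 3 → κ) (g : Fin 2 →
    κ) (gq : Fin 0 → Fin 2 → κ) : Fin 2 → Fin 3 → Fin 2 → κ :=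
  ![![![Sl 1 0 + Ul 0 0 + g 0, Sl 1 1 - Ul 1 0 + g 1],
      ![-Sl 0 0 + Ul 0 1 - g 0, -Sl 0 1 - Ul 1 1 - g 1],
      ![-SZ 0 0 + SZ 1 0 - Sl 0 0 + Sl 1 0 + Ul 0 2, -SZ 0 1 + SZ 1 1 - Sl 0 1 + Sl 1 1 - Ul 1
        2]],
    ![![-SZ 0 0 - Sl 1 0 + Sl 2 0 - Ul 0 0 + Ul 1 0, -SZ 0 1 - Sl 1 1 + Sl 2 1],
      ![Sl 2 0 - Ul 0 1 + Ul 1 1 + g 0, Sl 2 1 + g 1],
      ![SZ 0 0 - Sl 1 0 - Ul 0 2 + Ul 1 2 - g 0, SZ 0 1 - Sl 1 1 - g 1]]]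

theorem tTZa (Sl : Fin 3 → Fin 2 → κ) (SZ : Fin 2 → Fin 2 → κ) (Ul : Fin 2 → Fin 3 → κ) (g : Fin
    2 → κ) (gq : Fin 0 → Fin 2 → κ) (u : Fin 2) (e : Fin 3) (c : Fin 2) :
    TZc (gA κ) (dA κ) Sl SZ Ul g gq u e c =
      TZa Sl SZ Ul g gq u e c := by
  simp only [TZc, dA_y, dA_y5, qyA]
  fin_cases u <;> fin_cases e <;> fin_cases c <;>
    simp [TZa, QYA, uu, yA, Fin.sum_univ_three, Fin.sum_univ_two] <;> ring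

/-- table -/
def TZb (Sl : Fin 3 → Fin 2 → κ) (Sa : Fin 3 → Fin 2 → κ) (SZ : Fin 2 → Fin 2 → κ) (Ua : Fin 2 →
    Fin 3 → κ) (g : Fin 2 → κ) (gq : Fin 0 → Fin 2 → κ) : Fin 2 → Fin 3 → Fin 2 → κ :=
  ![![![SZ 0 0 + Sa 1 0 + 2 * Sl 1 0 - Sl 2 0 - Ua 0 0 - Ua 1 0 + g 0, SZ 0 1 + Sa 1 1 + 2 *
      Sl 1 1 - Sl 2 1 + g 1],
      ![-Sa 0 0 - 2 * Sl 0 0 + 10 * Sl 1 0 - Sl 2 0 - Ua 0 1 - Ua 1 1 - g 0, -Sa 0 1 - 2 * Sl 0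
        1 + 10 * Sl 1 1 - Sl 2 1 - g 1],
      ![SZ 0 0 - Sa 0 0 + Sa 1 0 - Sl 0 0 + 5 * Sl 1 0 - Ua 0 2 - Ua 1 2, SZ 0 1 - Sa 0 1 + Sa 1
        1 - Sl 0 1 + 5 * Sl 1 1]],
    ![![-SZ 0 0 - SZ 1 0 - Sa 1 0 + Sa 2 0 - 3 * Sl 1 0 - Sl 2 0 + Ua 1 0, -SZ 0 1 - SZ 1 1 - Sa
      1 1 + Sa 2 1 - 3 * Sl 1 1 - Sl 2 1 + Ua 0 0],
      ![Sa 2 0 + Sl 0 0 - 6 * Sl 1 0 - 2 * Sl 2 0 + Ua 1 1 + g 0, Sa 2 1 + Sl 0 1 - 6 * Sl 1 1 -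
        2 * Sl 2 1 + Ua 0 1 + g 1],
      ![-Sa 1 0 + Sl 0 0 - 2 * Sl 1 0 + Ua 1 2 - g 0, -Sa 1 1 + Sl 0 1 - 2 * Sl 1 1 + Ua 0 2 - g
        1]]]

theorem tTZb (Sl : Fin 3 → Fin 2 → κ) (Sa : Fin 3 → Fin 2 → κ) (SZ : Fin 2 → Fin 2 → κ) (Ua : Fin
    2 → Fin 3 → κ) (g : Fin 2 → κ) (gq : Fin 0 → Fin 2 → κ) (u : Fin 2) (e : Fin 3) (c : Fin 2) :
    TZc (gB κ) (dB κ) Sa SZ Ua g gq u e c +
      ∑ a, Q2 (tr (wlo κ)) (Zol κ u) e a * Sl a c =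
      TZb Sl Sa SZ Ua g gq u e c := by
  simp only [TZc, dB_y, dB_y5, qyB]
  fin_cases u <;> fin_cases e <;> fin_cases c <;>
    simp [TZb, QYB, uu, yB, Q2, tr, wlo, Zol, Fin.sum_univ_three, Fin.sum_univ_two] <;> ring

/-- table -/
def TZpA (SZ : Fin 2 → Fin 2 → κ) (Ul : Fin 2 → Fin 3 → κ) (gq : Fin 0 → Fin 2 → κ) : Fin 3 → Fin
    2 → κ :=
  ![![SZ 0 0 - Ul 1 0, SZ 0 1 + Ul 0 0],
    ![-SZ 1 0 - Ul 1 1, -SZ 1 1 + Ul 0 1],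
    ![-Ul 1 2, Ul 0 2]]

theorem tTZpA (SZ : Fin 2 → Fin 2 → κ) (Ul : Fin 2 → Fin 3 → κ) (gq : Fin 0 → Fin 2 → κ) (e : Fin
    3) (c : Fin 2) :
    PZc (gA κ) (dA κ) SZ Ul gq e c =
      TZpA SZ Ul gq e c := by
  simp only [PZc, dA_p, dA_p5, qpA]
  fin_cases e <;> fin_cases c <;>
    simp [TZpA, QPA, pA, Fin.sum_univ_three, Fin.sum_univ_two] <;> ring

/-- table -/
def TZrA (Ul : Fin 2 → Fin 3 → κ) : Fin 2 → Fin 3 → Fin 3 → κ :=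
  ![![![0, -Ul 0 0 - Ul 1 0, Ul 0 0 - Ul 1 0],
      ![-Ul 0 0 - Ul 1 0, -2 * Ul 0 1 - 2 * Ul 1 1, Ul 0 1 - Ul 0 2 - Ul 1 1 - Ul 1 2],
      ![Ul 0 0 - Ul 1 0, Ul 0 1 - Ul 0 2 - Ul 1 1 - Ul 1 2, 2 * Ul 0 2 - 2 * Ul 1 2]],
    ![![-2 * Ul 0 0 - 2 * Ul 1 0, -Ul 0 1 - Ul 1 1, -Ul 0 0 - Ul 0 2 + Ul 1 0 - Ul 1 2],
      ![-Ul 0 1 - Ul 1 1, 0, -Ul 0 1 + Ul 1 1],
      ![-Ul 0 0 - Ul 0 2 + Ul 1 0 - Ul 1 2, -Ul 0 1 + Ul 1 1, -2 * Ul 0 2 + 2 * Ul 1 2]]]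

theorem tTZrA (Ul : Fin 2 → Fin 3 → κ) (b : Fin 2) (e : Fin 3) (f : Fin 3) :
    - RZc (dA κ) Ul b e f =
      TZrA Ul b e f := by
  simp only [RZc, dA_r]
  fin_cases b <;> fin_cases e <;> fin_cases f <;>
    simp [TZrA, rA, Fin.sum_univ_two] <;> ring

/-- table -/
def TZpB (SZ : Fin 2 → Fin 2 → κ) (Ua : Fin 2 → Fin 3 → κ) (gq : Fin 0 → Fin 2 → κ) : Fin 3 → Fin
    2 → κ :=
  ![![-Ua 0 0, Ua 1 0],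
    ![SZ 1 0 - Ua 0 1, SZ 1 1 + Ua 1 1],
    ![SZ 0 0 - Ua 0 2, SZ 0 1 + Ua 1 2]]

theorem tTZpB (SZ : Fin 2 → Fin 2 → κ) (Ua : Fin 2 → Fin 3 → κ) (gq : Fin 0 → Fin 2 → κ) (e : Fin
    3) (c : Fin 2) :
    PZc (gB κ) (dB κ) SZ Ua gq e c =
      TZpB SZ Ua gq e c := by
  simp only [PZc, dB_p, dB_p5, qpB]
  fin_cases e <;> fin_cases c <;>
    simp [TZpB, QPB, pB, Fin.sum_univ_three, Fin.sum_univ_two] <;> ring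

/-- table -/
def TZrB (Ua : Fin 2 → Fin 3 → κ) : Fin 2 → Fin 3 → Fin 3 → κ :=
  ![![![-2 * Ua 0 0 - 2 * Ua 1 0, -Ua 0 0 - Ua 0 1 - Ua 1 0 - Ua 1 1, -Ua 0 2 - Ua 1 2],
      ![-Ua 0 0 - Ua 0 1 - Ua 1 0 - Ua 1 1, -2 * Ua 0 1 - 2 * Ua 1 1, -Ua 0 2 - Ua 1 2],
      ![-Ua 0 2 - Ua 1 2, -Ua 0 2 - Ua 1 2, 0]],
    ![![-2 * Ua 0 0 + 2 * Ua 1 0, -Ua 0 1 + Ua 1 1, -Ua 0 0 - Ua 0 2 + Ua 1 0 + Ua 1 2],
      ![-Ua 0 1 + Ua 1 1, 0, -Ua 0 1 + Ua 1 1],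
      ![-Ua 0 0 - Ua 0 2 + Ua 1 0 + Ua 1 2, -Ua 0 1 + Ua 1 1, -2 * Ua 0 2 + 2 * Ua 1 2]]]

theorem tTZrB (Ua : Fin 2 → Fin 3 → κ) (b : Fin 2) (e : Fin 3) (f : Fin 3) :
    - RZc (dB κ) Ua b e f =
      TZrB Ua b e f := by
  simp only [RZc, dB_r]
  fin_cases b <;> fin_cases e <;> fin_cases f <;>
    simp [TZrB, rB, Fin.sum_univ_two] <;> ring

/-- table -/
def TZz (Sl : Fin 3 → Fin 2 → κ) (Sa : Fin 3 → Fin 2 → κ) (SZ : Fin 2 → Fin 2 → κ) (g : Fin 2 →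
    κ) (gq : Fin 0 → Fin 2 → κ) : Fin 2 → Fin 2 → Fin 2 → κ :=
  ![![![2 * Sa 0 0 - 2 * Sl 2 0 + 2 * g 0, -SZ 0 0 + Sa 0 0 + Sa 0 1 - Sa 1 0 + Sl 1 0 + Sl 2
      0 - Sl 2 1 + g 1],
      ![-SZ 0 0 + Sa 0 0 + Sa 0 1 - Sa 1 0 + Sl 1 0 + Sl 2 0 - Sl 2 1 + g 1, -2 * SZ 0 1 + 2 *
        Sa 0 1 - 2 * Sa 1 1 + 2 * Sl 1 1 + 2 * Sl 2 1]],
    ![![-2 * SZ 1 0 - 2 * Sa 0 0 + 2 * Sa 2 0 + 2 * Sl 0 0 + 2 * Sl 2 0, -SZ 1 1 + Sa 0 0 - Sa 0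
      1 + Sa 2 1 + Sl 0 1 - Sl 2 0 + Sl 2 1 + g 0],
      ![-SZ 1 1 + Sa 0 0 - Sa 0 1 + Sa 2 1 + Sl 0 1 - Sl 2 0 + Sl 2 1 + g 0, 2 * Sa 0 1 - 2 * Sl
        2 1 + 2 * g 1]]]

theorem tTZz (Sl : Fin 3 → Fin 2 → κ) (Sa : Fin 3 → Fin 2 → κ) (SZ : Fin 2 → Fin 2 → κ) (g : Fin
    2 → κ) (gq : Fin 0 → Fin 2 → κ) (b : Fin 2) (c : Fin 2) (d : Fin 2) :
    ZBc (gA κ) (gB κ) hz2 qz2 (dA κ) (dB κ) (kk κ) Sl Sa SZ g gq b c d +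
      ZBc (gA κ) (gB κ) hz2 qz2 (dA κ) (dB κ) (kk κ) Sl Sa SZ g gq b d c =
      TZz Sl Sa SZ g gq b c d := by
  simp only [ZBc, dA_r, dB_r, qrA, qrB, ka]
  fin_cases b <;> fin_cases c <;> fin_cases d <;>
    simp [TZz, QRA, QRB, KA, Fin.sum_univ_three, Fin.sum_univ_two] <;> ring

theorem coreZ : CoreZ (gA κ) (gB κ) hz2 qz2 qz2 (dA κ) (dB κ) (kk κ) := by
  intro Sl Sa SZ Ul Ua g gq h1 h2 h3 h4 h5 hn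
  simp only [tTZa] at h1
  simp only [tTZb] at h2
  simp only [tTZpA] at h3
  simp only [tTZpB] at h4
  simp only [tTZrA, tTZrB, tTZz, tTR] at h5
  obtain ⟨a0_0, a0_1, a0_2, a0_3⟩ := inspA (h1 0)
  obtain ⟨b0_0, b0_1, b0_2, b0_3⟩ := inspB (h2 0)
  obtain ⟨a1_0, a1_1, a1_2, a1_3⟩ := inspA (h1 1)
  obtain ⟨b1_0, b1_1, b1_2, b1_3⟩ := inspB (h2 1)
  obtain ⟨c_0, c_1, c_2, c_3⟩ := inspA h3
  obtain ⟨d_0, d_1, d_2, d_3⟩ := inspB h4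
  obtain ⟨mu0, nu0, r0, s0, t0⟩ := h5 0
  obtain ⟨mu1, nu1, r1, s1, t1⟩ := h5 1
  have e0 : (Sl 1 1 - Ul 1 0 + g 1) = 0 := a0_0
  have e1 : (-Sl 0 0 + Ul 0 1 - g 0) = 0 := a0_1
  have e3 : -(Sl 1 0 + Ul 0 0 + g 0) + (-SZ 0 1 + SZ 1 1 - Sl 0 1 + Sl 1 1 - Ul 1 2) = 0 := a0_3
  have e4 : (-Sa 0 0 - 2 * Sl 0 0 + 10 * Sl 1 0 - Sl 2 0 - Ua 0 1 - Ua 1 1 - g 0) = 0 := b0_0
  have e5 : (SZ 0 0 + Sa 1 0 + 2 * Sl 1 0 - Sl 2 0 - Ua 0 0 - Ua 1 0 + g 0) + (-Sa 0 1 - 2 * Sl 0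
      1 + 10
      * Sl 1 1 - Sl 2 1 - g 1) = 0 := b0_1
  have e6 : -(SZ 0 1 + Sa 1 1 + 2 * Sl 1 1 - Sl 2 1 + g 1) + (SZ 0 0 - Sa 0 0 + Sa 1 0 - Sl 0 0 +
      5 * Sl
      1 0 - Ua 0 2 - Ua 1 2) = 0 := b0_2
  have e7 : (SZ 0 1 - Sa 0 1 + Sa 1 1 - Sl 0 1 + 5 * Sl 1 1) = 0 := b0_3
  have e8 : (-SZ 0 1 - Sl 1 1 + Sl 2 1) = 0 := a1_0
  have e9 : (Sl 2 0 - Ul 0 1 + Ul 1 1 + g 0) = 0 := a1_1
  have e10 : -(Sl 2 1 + g 1) + (SZ 0 0 - Sl 1 0 - Ul 0 2 + Ul 1 2 - g 0) = 0 := a1_2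
  have e12 : (Sa 2 0 + Sl 0 0 - 6 * Sl 1 0 - 2 * Sl 2 0 + Ua 1 1 + g 0) = 0 := b1_0
  have e14 : -(-SZ 0 1 - SZ 1 1 - Sa 1 1 + Sa 2 1 - 3 * Sl 1 1 - Sl 2 1 + Ua 0 0) + (-Sa 1 0 + Sl
      0 0 - 2
      * Sl 1 0 + Ua 1 2 - g 0) = 0 := b1_2
  have e15 : (-Sa 1 1 + Sl 0 1 - 2 * Sl 1 1 + Ua 0 2 - g 1) = 0 := b1_3
  have e16 : (SZ 0 1 + Ul 0 0) = 0 := c_0
  have e17 : (-SZ 1 0 - Ul 1 1) = 0 := c_1
  have e18 : -(-SZ 1 1 + Ul 0 1) + (-Ul 1 2) = 0 := c_2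
  have e19 : -(SZ 0 0 - Ul 1 0) + (Ul 0 2) = 0 := c_3
  have e20 : (SZ 1 0 - Ua 0 1) = 0 := d_0
  have e21 : (-Ua 0 0) + (SZ 1 1 + Ua 1 1) = 0 := d_1
  have e22 : -(Ua 1 0) + (SZ 0 0 - Ua 0 2) = 0 := d_2
  have e23 : (SZ 0 1 + Ua 1 2) = 0 := d_3
  have e24 : -Ul 0 0 - Ul 1 0 = mu0 := r0 0 1 (by decide)
  have e26 : Ul 0 0 - Ul 1 0 = mu0 := r0 0 2 (by decide)
  have e27 : -Ua 0 2 - Ua 1 2 = mu0 := s0 0 2 (by decide)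
  have e28 : Ul 0 1 - Ul 0 2 - Ul 1 1 - Ul 1 2 = mu0 := r0 1 2 (by decide)
  have e30 : -SZ 0 0 + Sa 0 0 + Sa 0 1 - Sa 1 0 + Sl 1 0 + Sl 2 0 - Sl 2 1 + g 1 = mu0 := t0 0 1 (by
      decide)
  have e31 : -Ul 0 1 - Ul 1 1 = mu1 := r1 0 1 (by decide)
  have e34 : -Ua 0 0 - Ua 0 2 + Ua 1 0 + Ua 1 2 = mu1 := s1 0 2 (by decide)
  have e35 : -Ul 0 1 + Ul 1 1 = mu1 := r1 1 2 (by decide)
  have e36 : -Ua 0 1 + Ua 1 1 = mu1 := s1 1 2 (by decide)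
  have e38 : SZ 0 0 = 0 := hn 0
  have e39 : SZ 1 1 = 0 := hn 1
  have f_Sl_1_1 : Sl 1 1 = 0 := by
    linear_combination (5 / 4) * e0 - (1 / 8) * e1 - (1 / 8) * e3 + (3 / 8) * e4 + (3 / 8) * e5 -
        (5 / 8) * e6 - (5
      / 8) * e7 + 2 * e8 + e9 + (5 / 4) * e10 + (27 / 8) * e16 - (7 / 4) * e17 + (9 / 8) * e18 +
      (3 / 2) * e19 - (7 / 4) * e20 - e21 + (1 / 4) * e22 - (3 / 2) * e23 + (15 / 8) * e24 - (13 /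
      8) * e26 - (1 / 4) * e27 + (1 / 4) * e28 - (1 / 4) * e30 + (1 / 4) * e31 + (5 / 8) * e34 -
      (9 / 4) * e35 + (11 / 8) * e36
  have f_Sa_1_0 : Sa 1 0 = 0 := by
    linear_combination 4 * e0 - 2 * e3 + e5 - e7 + 5 * e8 + e9 + 4 * e10 - e15 + (17 / 2) * e16 -
        (5 / 2) * e17 +
      (9 / 2) * e18 + (11 / 2) * e19 - (5 / 2) * e20 - (5 / 2) * e21 + (1 / 2) * e22 - (9 / 2) *
      e23 + 6 * e24 - (9 / 2) * e26 - 3 * e27 + (3 / 2) * e28 - e31 + (3 / 2) * e34 - 3 * e35 + (5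
      / 2) * e36 - 4 * f_Sl_1_1
  have f_Sl_1_0 : Sl 1 0 = 0 := by
    linear_combination -(1 / 4) * e1 + (1 / 4) * e3 + (1 / 4) * e4 - (1 / 4) * e6 + (1 / 4) * e8
        + (1 / 4) * e9 +
      (1 / 4) * e15 + (3 / 8) * e16 - (5 / 8) * e17 - (1 / 8) * e18 - (1 / 8) * e19 - (5 / 8) *
      e20 - (1 / 8) * e21 + (1 / 8) * e22 - (1 / 8) * e23 - (1 / 8) * e26 + (1 / 4) * e27 - (1 /
      8) * e28 + (1 / 4) * e31 + (1 / 8) * e34 - (3 / 4) * e35 + (3 / 8) * e36 + (1 / 4) *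
      f_Sa_1_0
  have f_Sl_0_1 : Sl 0 1 = 0 := by
    linear_combination e0 - e3 + e8 + e10 + (3 / 2) * e16 - (1 / 2) * e17 + (3 / 2) * e18 + (3 /
        2) * e19 - (1 / 2)
      * e20 - (1 / 2) * e21 + (1 / 2) * e22 - (3 / 2) * e23 + (3 / 2) * e24 - e26 - e27 + (1 / 2)
      * e28 - (1 / 2) * e31 + (1 / 2) * e34 - (1 / 2) * e35 + (1 / 2) * e36 + f_Sl_1_1
  have f_Sa_2_1 : Sa 2 1 = 0 := by
    linear_combination e0 - e1 + 3 * e8 + 2 * e10 - e14 - e15 + 7 * e16 + e18 + 3 * e19 + e22 - 3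
        * e23 + (9 / 2) *
      e24 - (5 / 2) * e26 - 3 * e27 + e28 - e31 + e34 + 3 * f_Sl_1_1 - f_Sa_1_0 + f_Sl_0_1
  have f_g_0 : g 0 = 0 := by
    linear_combination -e0 - e8 - e10 - (7 / 4) * e16 + (1 / 4) * e17 - (3 / 4) * e18 - (5 / 4) *
        e19 + (1 / 4) *
      e20 + (1 / 4) * e21 - (1 / 4) * e22 + (3 / 4) * e23 - e24 + (3 / 4) * e26 + (1 / 2) * e27 -
      (1 / 4) * e28 + (1 / 4) * e31 - (1 / 4) * e34 + (1 / 4) * e35 - (1 / 4) * e36 + (1 / 2) *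
      e39 - f_Sl_1_0
  have f_Ul_0_1 : Ul 0 1 = 0 := by
    linear_combination (3 / 4) * e16 - (1 / 4) * e17 - (1 / 4) * e18 + (1 / 4) * e19 - (1 / 4) *
        e20 - (1 / 4) *
      e21 + (1 / 4) * e22 - (3 / 4) * e23 + (1 / 2) * e24 - (1 / 4) * e26 - (1 / 2) * e27 + (1 /
      4) * e28 - (1 / 4) * e31 + (1 / 4) * e34 - (1 / 4) * e35 + (1 / 4) * e36 + (1 / 2) * e39
  have f_Ua_0_2 : Ua 0 2 = 0 := by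
    linear_combination e16 - (1 / 2) * e18 + (1 / 2) * e19 - e23 + (3 / 4) * e24 - (1 / 4) * e26
        - e27 + (1 / 2) *
      e28 - (1 / 4) * e31 + (1 / 4) * e35 + (1 / 2) * e38 + (1 / 2) * e39 - f_Ul_0_1
  have f_g_1 : g 1 = 0 := by
    linear_combination e0 - e16 + e23 - e24 + e27 - f_Sl_1_1 + f_Ua_0_2
  have f_Sa_0_0 : Sa 0 0 = 0 := by
    linear_combination 2 * e1 - e4 - e9 + 2 * e17 + 2 * e20 - e31 + 2 * e35 - e36 + 2 * f_g_0 +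
        10 * f_Sl_1_0 - 2 *
      f_Ul_0_1
  have f_Sl_2_0 : Sl 2 0 = 0 := by
    linear_combination e9 + (1 / 2) * e31 - (1 / 2) * e35 - f_g_0 + f_Ul_0_1
  have f_Sa_0_1 : Sa 0 1 = 0 := by
    linear_combination -e7 - e15 + e16 + (1 / 2) * e24 - (1 / 2) * e26 + 3 * f_Sl_1_1 - f_g_1 +
        f_Ua_0_2
  have f_Sl_2_1 : Sl 2 1 = 0 := by
    linear_combination e8 + e16 + (1 / 2) * e24 - (1 / 2) * e26 + f_Sl_1_1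
  have f_SZ_0_1 : SZ 0 1 = 0 := by
    linear_combination e16 + (1 / 2) * e24 - (1 / 2) * e26
  have f_Ul_1_0 : Ul 1 0 = 0 := by
    linear_combination -e16 + e23 - e24 + e27 + f_Ua_0_2
  have f_Ua_0_1 : Ua 0 1 = 0 := by
    linear_combination -e17 - e20 + (1 / 2) * e31 - (1 / 2) * e35
  have f_Ua_1_1 : Ua 1 1 = 0 := by
    linear_combination -e17 - e20 - e35 + e36 - f_Ul_0_1
  have f_Sa_1_1 : Sa 1 1 = 0 := by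
    linear_combination -e15 - f_g_1 + f_Ua_0_2 + f_Sl_0_1 - 2 * f_Sl_1_1
  have f_Sl_0_0 : Sl 0 0 = 0 := by
    linear_combination -e1 - f_g_0 + f_Ul_0_1
  have f_Ul_1_1 : Ul 1 1 = 0 := by
    linear_combination -e17 - e20 - f_Ua_0_1
  have f_Sa_2_0 : Sa 2 0 = 0 := by
    linear_combination e12 - f_g_0 - f_Ua_1_1 - f_Sl_0_0 + 6 * f_Sl_1_0 + 2 * f_Sl_2_0
  have f_Ul_0_0 : Ul 0 0 = 0 := by
    linear_combination e16 - f_SZ_0_1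
  have f_Ua_1_2 : Ua 1 2 = 0 := by
    linear_combination e23 - f_SZ_0_1
  have f_Ua_0_0 : Ua 0 0 = 0 := by
    linear_combination -e21 + e39 + f_Ua_1_1
  have f_Ua_1_0 : Ua 1 0 = 0 := by
    linear_combination -e22 + e38 - f_Ua_0_2
  have f_Ul_0_2 : Ul 0 2 = 0 := by
    linear_combination e19 + e38 - f_Ul_1_0
  have f_Ul_1_2 : Ul 1 2 = 0 := by
    linear_combination -e18 + e39 - f_Ul_0_1
  have f_SZ_1_0 : SZ 1 0 = 0 := by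
    linear_combination e20 + f_Ua_0_1
  have f_SZ_0_0 : SZ 0 0 = 0 := by
    linear_combination e38
  have f_SZ_1_1 : SZ 1 1 = 0 := by
    linear_combination e39
  refine ⟨?_, ?_, ?_, ?_, ?_, ?_, funext fun i => i.elim0⟩
  · funext i0 i1
    fin_cases i0 <;> fin_cases i1
    all_goals first
      | exact f_Sl_0_0
      | exact f_Sl_0_1
      | exact f_Sl_1_0
      | exact f_Sl_1_1
      | exact f_Sl_2_0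
      | exact f_Sl_2_1
  · funext i0 i1
    fin_cases i0 <;> fin_cases i1
    all_goals first
      | exact f_Sa_0_0
      | exact f_Sa_0_1
      | exact f_Sa_1_0
      | exact f_Sa_1_1
      | exact f_Sa_2_0
      | exact f_Sa_2_1
  · funext i0 i1
    fin_cases i0 <;> fin_cases i1
    all_goals first
      | exact f_SZ_0_0
      | exact f_SZ_0_1
      | exact f_SZ_1_0
      | exact f_SZ_1_1
  · funext i0 i1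
    fin_cases i0 <;> fin_cases i1
    all_goals first
      | exact f_Ul_0_0
      | exact f_Ul_0_1
      | exact f_Ul_0_2
      | exact f_Ul_1_0
      | exact f_Ul_1_1
      | exact f_Ul_1_2
  · funext i0 i1
    fin_cases i0 <;> fin_cases i1
    all_goals first
      | exact f_Ua_0_0
      | exact f_Ua_0_1
      | exact f_Ua_0_2
      | exact f_Ua_1_0
      | exact f_Ua_1_1
      | exact f_Ua_1_2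
  · funext i0
    fin_cases i0
    all_goals first
      | exact f_g_0
      | exact f_g_1

end

end F2

end Pool.Agent.VCU
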