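import Pool.Agent.VCU.F2B

/-!
# The outer blocks in the class e_Z, and the class e_l + e_a + e_Z, s = 2
-/

set_option autoImplicit false

namespace Pool.Agent.VCU

open Pool.Agent.VCC Pool.Agent.VCT Pool.Agent.VCT.SP_

namespace F2

section

variable {κ : Type*} [Field κ] [CharZero κ]

/-- table -/
def TOa (S : Fin 3 → Fin 2 → κ) (U : Fin 2 → Fin 3 → κ) : Fin 2 → Fin 3 → Fin 2 → κ :=
  ![![![S 1 0 - 2 * U 0 0 - U 1 0, S 1 1],
      ![-S 0 0 - 2 * U 0 1 - U 1 1, -S 0 1],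
      ![-S 0 0 + S 1 0 - 2 * U 0 2 - U 1 2, -S 0 1 + S 1 1]],
    ![![-S 1 0 + S 2 0 + 2 * U 0 0, -S 1 1 + S 2 1 + U 0 0],
      ![S 2 0 + 2 * U 0 1, S 2 1 + U 0 1],
      ![-S 1 0 + 2 * U 0 2, -S 1 1 + U 0 2]]]

theorem tTOa (S : Fin 3 → Fin 2 → κ) (U : Fin 2 → Fin 3 → κ) (u : Fin 2) (e : Fin 3) (c : Fin 2) :
    - ∑ a, (if a = e then 0 else uu u a * S a c) - ∑ d, (dL κ).y u c d * U d e =
      TOa S U u e c := by
  simp only [dL_y]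
  fin_cases u <;> fin_cases e <;> fin_cases c <;>
    simp [TOa, uu, yL, Fin.sum_univ_three, Fin.sum_univ_two] <;> ring

/-- table -/
def TOp (U : Fin 2 → Fin 3 → κ) : Fin 3 → Fin 2 → κ :=
  ![![-U 0 0, U 1 0],
    ![-U 0 1, U 1 1],
    ![-U 0 2, U 1 2]]

theorem tTOp (U : Fin 2 → Fin 3 → κ) (e : Fin 3) (c : Fin 2) :
    ∑ d, (dL κ).p c d * U d e =
      TOp U e c := by
  simp only [dL_p]
  fin_cases e <;> fin_cases c <;>
    simp [TOp, pL, Fin.sum_univ_two] <;> ring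

/-- table -/
def TOr (U : Fin 2 → Fin 3 → κ) : Fin 2 → Fin 3 → Fin 3 → κ :=
  ![![![2 * U 0 0, U 0 0 + U 0 1 + U 1 0, U 0 2],
      ![U 0 0 + U 0 1 + U 1 0, 2 * U 0 1 + 2 * U 1 1, U 0 2 + U 1 2],
      ![U 0 2, U 0 2 + U 1 2, 0]],
    ![![0, U 0 0 + U 1 0, U 1 0],
      ![U 0 0 + U 1 0, 2 * U 0 1 + 2 * U 1 1, U 0 2 + U 1 1 + U 1 2],
      ![U 1 0, U 0 2 + U 1 1 + U 1 2, 2 * U 1 2]]]

theorem tTOr (U : Fin 2 → Fin 3 → κ) (b : Fin 2) (e : Fin 3) (f : Fin 3) :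
    RZc (dL κ) U b e f =
      TOr U b e f := by
  simp only [RZc, dL_r]
  fin_cases b <;> fin_cases e <;> fin_cases f <;>
    simp [TOr, rL, Fin.sum_univ_two] <;> ring

theorem outZ : OutZ (gL κ) (dL κ) := by
  intro S U h1 h2 h3
  simp only [tTOa] at h1
  simp only [tTOp] at h2
  simp only [tTOr] at h3
  obtain ⟨a0_0, a0_1, a0_2, a0_3⟩ := inspL (h1 0)
  obtain ⟨a1_0, a1_1, a1_2, a1_3⟩ := inspL (h1 1)
  obtain ⟨c_0, c_1, c_2, c_3⟩ := inspL h2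
  have e0 : (S 1 0 - 2 * U 0 0 - U 1 0) = 0 := a0_0
  have e1 : (-S 0 0 - 2 * U 0 1 - U 1 1) + (-S 0 1) = 0 := a0_1
  have e3 : (-S 0 1 + S 1 1) = 0 := a0_3
  have e4 : (-S 1 0 + S 2 0 + 2 * U 0 0) = 0 := a1_0
  have e5 : (S 2 0 + 2 * U 0 1) + (S 2 1 + U 0 1) = 0 := a1_1
  have e7 : (-S 1 1 + U 0 2) = 0 := a1_3
  have e8 : (-U 0 0) = 0 := c_0
  have e10 : -(U 1 0) - (-U 0 1) + (-U 0 2) = 0 := c_2
  have e11 : (U 1 2) = 0 := c_3
  have e13 : U 0 2 = 0 := h3 0 0 2 (by decide)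
  have e16 : U 1 0 = 0 := h3 1 0 2 (by decide)
  have e17 : U 0 2 + U 1 1 + U 1 2 = 0 := h3 1 1 2 (by decide)
  have f_S_2_1 : S 2 1 = 0 := by
    linear_combination -e0 - e4 + e5 - 3 * e10 - 3 * e13 - 4 * e16
  have f_S_2_0 : S 2 0 = 0 := by
    linear_combination e0 + e4 + e16
  have f_U_1_1 : U 1 1 = 0 := by
    linear_combination -e11 - e13 + e17
  have f_U_0_1 : U 0 1 = 0 := by
    linear_combination e10 + e13 + e16
  have f_S_1_0 : S 1 0 = 0 := by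
    linear_combination e0 - 2 * e8 + e16
  have f_S_1_1 : S 1 1 = 0 := by
    linear_combination -e7 + e13
  have f_U_0_0 : U 0 0 = 0 := by
    linear_combination -e8
  have f_U_1_0 : U 1 0 = 0 := by
    linear_combination e16
  have f_U_1_2 : U 1 2 = 0 := by
    linear_combination e11
  have f_S_0_1 : S 0 1 = 0 := by
    linear_combination -e3 + f_S_1_1
  have f_S_0_0 : S 0 0 = 0 := by
    linear_combination -e1 - 2 * f_U_0_1 - f_U_1_1 - f_S_0_1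
  have f_U_0_2 : U 0 2 = 0 := by
    linear_combination e13
  refine ⟨?_, ?_⟩
  · funext i0 i1
    fin_cases i0 <;> fin_cases i1
    all_goals first
      | exact f_S_0_0
      | exact f_S_0_1
      | exact f_S_1_0
      | exact f_S_1_1
      | exact f_S_2_0
      | exact f_S_2_1
  · funext i0 i1
    fin_cases i0 <;> fin_cases i1
    all_goals first
      | exact f_U_0_0
      | exact f_U_0_1
      | exact f_U_0_2
      | exact f_U_1_0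
      | exact f_U_1_1
      | exact f_U_1_2

/-- table -/
def TQa (F1 : Fin 3 → Fin 2 → κ) (F2 : Fin 2 → Fin 3 → κ) : Fin 2 → Fin 3 → Fin 2 → κ :=
  ![![![F1 0 0 - F2 0 0, F1 0 1 + F2 1 0],
      ![F1 0 0 + F1 1 0 - F2 0 1, F1 0 1 + F1 1 1 + F2 1 1],
      ![-F2 0 2, F2 1 2]],
    ![![F2 0 0 - F2 1 0, 0],
      ![F1 0 0 + F1 1 0 + F2 0 1 - F2 1 1, F1 0 1 + F1 1 1],
      ![F1 1 0 + F2 0 2 - F2 1 2, F1 1 1]]]

theorem tTQa (F1 : Fin 3 → Fin 2 → κ) (F2 : Fin 2 → Fin 3 → κ) (u : Fin 2) (e : Fin 3) (b : Fin 2) :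
    ∑ c, Zlo κ u e c * F1 c b + ∑ d, (dA κ).y u b d * F2 d e =
      TQa F1 F2 u e b := by
  simp only [dA_y]
  fin_cases u <;> fin_cases e <;> fin_cases b <;>
    simp [TQa, Zlo, yA, Fin.sum_univ_three, Fin.sum_univ_two] <;> ring

/-- table -/
def TQb (F1 : Fin 3 → Fin 2 → κ) (F3 : Fin 2 → Fin 3 → κ) : Fin 2 → Fin 3 → Fin 2 → κ :=
  ![![![-3 * F1 0 0 - F1 1 0 + 2 * F1 2 0 + F3 0 0 + F3 1 0, -3 * F1 0 1 - F1 1 1 + 2 * F1 2 1],
      ![-5 * F1 0 0 + 2 * F1 2 0 + F3 0 1 + F3 1 1, -5 * F1 0 1 + 2 * F1 2 1],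
      ![F1 1 0 + F3 0 2 + F3 1 2, F1 1 1]],
    ![![F1 0 0 - F3 1 0, F1 0 1 - F3 0 0],
      ![2 * F1 0 0 - F1 1 0 - 2 * F1 2 0 - F3 1 1, 2 * F1 0 1 - F1 1 1 - 2 * F1 2 1 - F3 0 1],
      ![F1 0 0 + F1 1 0 - 2 * F1 2 0 - F3 1 2, F1 0 1 + F1 1 1 - 2 * F1 2 1 - F3 0 2]]]

theorem tTQb (F1 : Fin 3 → Fin 2 → κ) (F3 : Fin 2 → Fin 3 → κ) (u : Fin 2) (e : Fin 3) (b : Fin 2) :
    ∑ c, Zol κ u e c * F1 c b + ∑ d, (dB κ).y u b d * F3 d e =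
      TQb F1 F3 u e b := by
  simp only [dB_y]
  fin_cases u <;> fin_cases e <;> fin_cases b <;>
    simp [TQb, Zol, yB, Fin.sum_univ_three, Fin.sum_univ_two] <;> ring

/-- table -/
def TQc (F2 : Fin 2 → Fin 3 → κ) (F3 : Fin 2 → Fin 3 → κ) : Fin 2 → Fin 3 → Fin 3 → κ :=
  ![![![F3 0 0 + F3 1 0, F3 0 0 + F3 1 0, 0],
      ![F2 0 0 + F2 1 0 + F3 0 1 + F3 1 1, F2 0 1 + F2 1 1 + F3 0 1 + F3 1 1, F2 0 2 + F2 1 2],
      ![-F2 0 0 + F2 1 0 + F3 0 2 + F3 1 2, -F2 0 1 + F2 1 1 + F3 0 2 + F3 1 2, -F2 0 2 + F2 1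
        2]],
    ![![F2 0 0 + F2 1 0 + F3 0 0 - F3 1 0, F2 0 1 + F2 1 1, F2 0 2 + F2 1 2 + F3 0 0 - F3 1 0],
      ![F3 0 1 - F3 1 1, 0, F3 0 1 - F3 1 1],
      ![F2 0 0 - F2 1 0 + F3 0 2 - F3 1 2, F2 0 1 - F2 1 1, F2 0 2 - F2 1 2 + F3 0 2 - F3 1 2]]]

theorem tTQc (F2 : Fin 2 → Fin 3 → κ) (F3 : Fin 2 → Fin 3 → κ) (b : Fin 2) (a : Fin 3) (e : Fin 3) :
    ∑ d, (dA κ).r b a d * F2 d e + ∑ d, (dB κ).r b e d * F3 d a =
      TQc F2 F3 b a e := by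
  simp only [dA_r, dB_r]
  fin_cases b <;> fin_cases a <;> fin_cases e <;>
    simp [TQc, rA, rB, Fin.sum_univ_two] <;> ring

/-- table -/
def TQd (F2 : Fin 2 → Fin 3 → κ) : Fin 3 → Fin 2 → κ :=
  ![![-F2 1 0, F2 0 0],
    ![-F2 1 1, F2 0 1],
    ![-F2 1 2, F2 0 2]]

theorem tTQd (F2 : Fin 2 → Fin 3 → κ) (e : Fin 3) (b : Fin 2) :
    ∑ d, (dA κ).p b d * F2 d e =
      TQd F2 e b := by
  simp only [dA_p]
  fin_cases e <;> fin_cases b <;>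
    simp [TQd, pA, Fin.sum_univ_two] <;> ring

/-- table -/
def TQe (F3 : Fin 2 → Fin 3 → κ) : Fin 3 → Fin 2 → κ :=
  ![![-F3 0 0, F3 1 0],
    ![-F3 0 1, F3 1 1],
    ![-F3 0 2, F3 1 2]]

theorem tTQe (F3 : Fin 2 → Fin 3 → κ) (e : Fin 3) (b : Fin 2) :
    ∑ d, (dB κ).p b d * F3 d e =
      TQe F3 e b := by
  simp only [dB_p]
  fin_cases e <;> fin_cases b <;>
    simp [TQe, pB, Fin.sum_univ_two] <;> ring

theorem coreQ : CoreQ (gA κ) (gB κ) (dA κ) (dB κ) := by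
  intro F1 F2 F3 h1 h2 h3 h4 h5
  simp only [tTQa] at h1
  simp only [tTQb] at h2
  simp only [tTQc] at h3
  simp only [tTQd] at h4
  simp only [tTQe] at h5
  obtain ⟨a0_0, a0_1, a0_2, a0_3⟩ := inspB (h1 0)
  obtain ⟨b0_0, b0_1, b0_2, b0_3⟩ := inspA (h2 0)
  obtain ⟨a1_0, a1_1, a1_2, a1_3⟩ := inspB (h1 1)
  obtain ⟨b1_0, b1_1, b1_2, b1_3⟩ := inspA (h2 1)
  obtain ⟨c0_0, c0_1, c0_2, c0_3, c0_4, c0_5⟩ := insp_lo (h3 0)
  obtain ⟨c1_0, c1_1, c1_2, c1_3, c1_4, c1_5⟩ := insp_lo (h3 1)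
  obtain ⟨d_0, d_1, d_2, d_3⟩ := inspB h4
  obtain ⟨e_0, e_1, e_2, e_3⟩ := inspA h5
  have e3 : (F2 1 2) = 0 := a0_3
  have e4 : (-3 * F1 0 1 - F1 1 1 + 2 * F1 2 1) = 0 := b0_0
  have e5 : (-5 * F1 0 0 + 2 * F1 2 0 + F3 0 1 + F3 1 1) = 0 := b0_1
  have e8 : (F1 0 0 + F1 1 0 + F2 0 1 - F2 1 1) = 0 := a1_0
  have e10 : -(0) + (F1 1 0 + F2 0 2 - F2 1 2) = 0 := a1_2
  have e11 : (F1 1 1) = 0 := a1_3
  have e12 : (F1 0 1 - F3 0 0) = 0 := b1_0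
  have e16 : (F3 0 0 + F3 1 0) = 0 := c0_0
  have e18 : (F2 0 1 + F2 1 1 + F3 0 1 + F3 1 1) + (2) * (F3 0 0 + F3 1 0) = 0 := c0_2
  have e24 : (0) + (2) * (F2 0 1 + F2 1 1) = 0 := c1_2
  have e28 : (-F2 1 1) = 0 := d_0
  have e29 : (-F2 1 0) + (F2 0 1) = 0 := d_1
  have e30 : -(F2 0 0) + (-F2 1 2) = 0 := d_2
  have e31 : (F2 0 2) = 0 := d_3
  have e32 : (F3 1 0) = 0 := e_0
  have e33 : (-F3 0 1) = 0 := e_1
  have e34 : -(F3 1 1) + (-F3 0 2) = 0 := e_2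
  have e35 : -(-F3 0 0) + (F3 1 2) = 0 := e_3
  have f_F1_2_0 : F1 2 0 = 0 := by
    linear_combination -(5 / 2) * e3 + (1 / 2) * e5 + (5 / 2) * e8 - (5 / 2) * e10 + e16 - (1 /
        2) * e18 - e24 - 5
      * e28 + (5 / 2) * e31
  have f_F1_2_1 : F1 2 1 = 0 := by
    linear_combination (1 / 2) * e4 + (1 / 2) * e11 + (3 / 2) * e12 + (3 / 2) * e16 - (3 / 2) * e32
  have f_F1_0_0 : F1 0 0 = 0 := by
    linear_combination -e3 + e8 - e10 - (1 / 2) * e24 - 2 * e28 + e31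
  have f_F3_0_2 : F3 0 2 = 0 := by
    linear_combination 2 * e16 - e18 + (1 / 2) * e24 - e33 - e34
  have f_F3_1_1 : F3 1 1 = 0 := by
    linear_combination -2 * e16 + e18 - (1 / 2) * e24 + e33
  have f_F2_1_0 : F2 1 0 = 0 := by
    linear_combination (1 / 2) * e24 + e28 - e29
  have f_F2_0_1 : F2 0 1 = 0 := by
    linear_combination (1 / 2) * e24 + e28
  have f_F1_0_1 : F1 0 1 = 0 := by
    linear_combination e12 + e16 - e32
  have f_F1_1_0 : F1 1 0 = 0 := by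
    linear_combination e3 + e10 - e31
  have f_F3_1_2 : F3 1 2 = 0 := by
    linear_combination -e16 + e32 + e35
  have f_F3_0_0 : F3 0 0 = 0 := by
    linear_combination e16 - e32
  have f_F2_0_0 : F2 0 0 = 0 := by
    linear_combination -e3 - e30
  have f_F2_1_1 : F2 1 1 = 0 := by
    linear_combination -e28
  have f_F3_0_1 : F3 0 1 = 0 := by
    linear_combination -e33
  have f_F3_1_0 : F3 1 0 = 0 := by
    linear_combination e32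
  have f_F1_1_1 : F1 1 1 = 0 := by
    linear_combination e11
  have f_F2_1_2 : F2 1 2 = 0 := by
    linear_combination e3
  have f_F2_0_2 : F2 0 2 = 0 := by
    linear_combination e31
  refine ⟨?_, ?_, ?_⟩
  · funext i0 i1
    fin_cases i0 <;> fin_cases i1
    all_goals first
      | exact f_F1_0_0
      | exact f_F1_0_1
      | exact f_F1_1_0
      | exact f_F1_1_1
      | exact f_F1_2_0
      | exact f_F1_2_1
  · funext i0 i1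
    fin_cases i0 <;> fin_cases i1
    all_goals first
      | exact f_F2_0_0
      | exact f_F2_0_1
      | exact f_F2_0_2
      | exact f_F2_1_0
      | exact f_F2_1_1
      | exact f_F2_1_2
  · funext i0 i1
    fin_cases i0 <;> fin_cases i1
    all_goals first
      | exact f_F3_0_0
      | exact f_F3_0_1
      | exact f_F3_0_2
      | exact f_F3_1_0
      | exact f_F3_1_1
      | exact f_F3_1_2

end

end F2

end Pool.Agent.VCU
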