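import Pool.Agent.VCU.Targets2

/-!
# The special data, s = 4
-/

set_option autoImplicit false

namespace Pool.Agent.VCU

open Pool.Agent.VCC Pool.Agent.VCT Pool.Agent.VCT.SP_

namespace F4

section

/-- forms -/
def fA : VFm 4 ℤ :=
  ![![![-1, 0, 0, 0],
      ![0, 0, 0, 0],
      ![0, 0, 0, 1]],
    ![![-1, 0, 0, 0],
      ![0, 1, 0, 0],
      ![0, 0, 1, 0]],
    ![![0, 0, 0, 0],
      ![-1, 0, 1, 0],
      ![1, 0, 0, 0]],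
    ![![0, 1, 0, -1],
      ![0, 1, 0, 0],
      ![0, 0, 0, 0]]]

/-- forms -/
def gA (κ : Type*) [Field κ] : VFm 4 κ :=
  ![![![-1, 0, 0, 0],
      ![0, 0, 0, 0],
      ![0, 0, 0, 1]],
    ![![-1, 0, 0, 0],
      ![0, 1, 0, 0],
      ![0, 0, 1, 0]],
    ![![0, 0, 0, 0],
      ![-1, 0, 1, 0],
      ![1, 0, 0, 0]],
    ![![0, 1, 0, -1],
      ![0, 1, 0, 0],
      ![0, 0, 0, 0]]]

/-- data -/
def yA (κ : Type*) [Field κ] : Fin 2 → Fin 4 → Fin 4 → κ :=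
  ![![![0, 0, 0, -1],
      ![0, 0, -1, 2],
      ![1, -1, 0, 1],
      ![3, -2, 0, 2]],
    ![![0, 0, 0, -1],
      ![0, -1, -1, -1],
      ![-2, 2, 0, 0],
      ![0, 1, 0, -1]]]

/-- data -/
def y5A (κ : Type*) [Field κ] : Fin 2 → Fin 3 → Fin 1 → κ :=
  ![![![1],
      ![0],
      ![1]],
    ![![0],
      ![0],
      ![1]]]

/-- data -/
def rA (κ : Type*) [Field κ] : Fin 4 → Fin 3 → Fin 4 → κ :=
  ![![![0, 0, 0, 0],
      ![0, -1, 2, 0],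
      ![-1, 0, 1, 0]],
    ![![1, 0, 0, 1],
      ![0, 0, 0, 0],
      ![0, 0, 0, 1]],
    ![![0, 1, 1, -1],
      ![0, -1, 2, 0],
      ![1, 0, 2, 0]],
    ![![1, 0, 0, 1],
      ![1, -1, 1, -1],
      ![0, 0, 1, 0]]]

/-- data -/
def pA (κ : Type*) [Field κ] : Fin 4 → Fin 4 → κ :=
  ![![0, -1, 1, 0],
    ![0, 0, -1, 0],
    ![-1, 1, 1, 0],
    ![0, 0, 0, 0]]

/-- data -/
def p5A (κ : Type*) [Field κ] : Fin 3 → Fin 1 → κ :=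
  ![![0],
    ![0],
    ![1]]

/-- data -/
def dA (κ : Type*) [Field κ] : BD 4 1 κ := ⟨yA κ, y5A κ, rA κ, pA κ, p5A κ⟩

/-- forms -/
def fB : VFm 4 ℤ :=
  ![![![1, 0, -1, 0],
      ![0, 0, 0, 0],
      ![1, 0, 0, 0]],
    ![![0, 0, 0, 0],
      ![0, 1, 0, 0],
      ![0, 0, 1, 0]],
    ![![0, 0, 0, 0],
      ![1, 0, 0, 0],
      ![-1, 0, 0, -1]],
    ![![0, 0, 0, -1],
      ![0, 0, 0, 0],
      ![0, -1, 0, 0]]]

/-- forms -/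
def gB (κ : Type*) [Field κ] : VFm 4 κ :=
  ![![![1, 0, -1, 0],
      ![0, 0, 0, 0],
      ![1, 0, 0, 0]],
    ![![0, 0, 0, 0],
      ![0, 1, 0, 0],
      ![0, 0, 1, 0]],
    ![![0, 0, 0, 0],
      ![1, 0, 0, 0],
      ![-1, 0, 0, -1]],
    ![![0, 0, 0, -1],
      ![0, 0, 0, 0],
      ![0, -1, 0, 0]]]

/-- data -/
def yB (κ : Type*) [Field κ] : Fin 2 → Fin 4 → Fin 4 → κ :=
  ![![![0, 0, -1, -1],
      ![-1, 2, 0, 0],
      ![0, -1, 0, 2],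
      ![-1, 0, 0, 0]],
    ![![0, 0, 0, 0],
      ![0, -1, 0, 0],
      ![0, 1, 0, 0],
      ![0, 0, 0, 0]]]

/-- data -/
def y5B (κ : Type*) [Field κ] : Fin 2 → Fin 3 → Fin 1 → κ :=
  ![![![1],
      ![0],
      ![0]],
    ![![0],
      ![0],
      ![0]]]

/-- data -/
def rB (κ : Type*) [Field κ] : Fin 4 → Fin 3 → Fin 4 → κ :=
  ![![![2, 0, 1, 0],
      ![0, 0, 0, 0],
      ![0, 0, 1, -1]],
    ![![-1, 1, 0, -1],
      ![0, 0, 0, 0],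
      ![1, 1, 0, 0]],
    ![![2, 0, 1, 0],
      ![-1, 1, 0, 0],
      ![-1, 0, 1, -1]],
    ![![0, 0, 0, 0],
      ![0, 0, -1, -1],
      ![0, -1, -1, -1]]]

/-- data -/
def pB (κ : Type*) [Field κ] : Fin 4 → Fin 4 → κ :=
  ![![-1, 1, 1, 1],
    ![0, -1, -1, 0],
    ![-1, 0, 0, -1],
    ![1, 0, 0, 1]]

/-- data -/
def p5B (κ : Type*) [Field κ] : Fin 3 → Fin 1 → κ :=
  ![![0],
    ![0],
    ![0]]

/-- data -/
def dB (κ : Type*) [Field κ] : BD 4 1 κ := ⟨yB κ, y5B κ, rB κ, pB κ, p5B κ⟩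

/-- forms -/
def fL : VFm 4 ℤ :=
  ![![![0, 0, 0, 0],
      ![1, 1, 0, 0],
      ![0, 0, -1, 0]],
    ![![-1, -1, -1, 0],
      ![-1, -1, 0, 0],
      ![0, 0, 0, 0]],
    ![![0, 0, 0, 0],
      ![-1, 0, -1, 1],
      ![0, 0, 0, 1]],
    ![![1, 0, 1, 0],
      ![1, 0, 1, -1],
      ![0, 0, 0, 0]]]

/-- forms -/
def gL (κ : Type*) [Field κ] : VFm 4 κ :=
  ![![![0, 0, 0, 0],
      ![1, 1, 0, 0],
      ![0, 0, -1, 0]],
    ![![-1, -1, -1, 0],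
      ![-1, -1, 0, 0],
      ![0, 0, 0, 0]],
    ![![0, 0, 0, 0],
      ![-1, 0, -1, 1],
      ![0, 0, 0, 1]],
    ![![1, 0, 1, 0],
      ![1, 0, 1, -1],
      ![0, 0, 0, 0]]]

/-- data -/
def yL (κ : Type*) [Field κ] : Fin 2 → Fin 4 → Fin 4 → κ :=
  ![![![0, 1, 0, 1 / 2],
      ![0, -1, 0, 0],
      ![-1, 0, 0, 1 / 2],
      ![0, 0, -1 / 2, 0]],
    ![![0, -1 / 2, 0, 0],
      ![1, 1 / 2, 0, 0],
      ![1 / 2, -1 / 2, 0, -1],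
      ![0, 0, 0, 0]]]

/-- data -/
def y5L (κ : Type*) [Field κ] : Fin 2 → Fin 3 → Fin 1 → κ :=
  ![![![0],
      ![0],
      ![0]],
    ![![0],
      ![-1],
      ![0]]]

/-- data -/
def rL (κ : Type*) [Field κ] : Fin 4 → Fin 3 → Fin 4 → κ :=
  ![![![1, 0, 0, 0],
      ![1, 1, 1, 1],
      ![0, 0, 0, 1]],
    ![![0, 0, 0, 0],
      ![-1, -1, -1, -1],
      ![0, -1, 0, -1]],
    ![![-1, 0, 0, 0],
      ![-1, -1, 0, 0],
      ![0, 0, 0, 0]],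
    ![![0, 0, 1, 0],
      ![0, 0, 1, 1],
      ![0, 0, 0, 0]]]

/-- data -/
def pL (κ : Type*) [Field κ] : Fin 4 → Fin 4 → κ :=
  ![![0, 1, 0, 1],
    ![0, 0, 0, 1],
    ![0, 1, 1, 1],
    ![1, 0, 0, 0]]

/-- data -/
def p5L (κ : Type*) [Field κ] : Fin 3 → Fin 1 → κ :=
  ![![0],
    ![0],
    ![0]]

/-- data -/
def dL (κ : Type*) [Field κ] : BD 4 1 κ := ⟨yL κ, y5L κ, rL κ, pL κ, p5L κ⟩

/-- data -/
def kk (κ : Type*) [Field κ] : Fin 4 → Fin 4 → Fin 1 → κ :=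
  ![![![0],
      ![0],
      ![1],
      ![0]],
    ![![0],
      ![0],
      ![0],
      ![0]],
    ![![0],
      ![0],
      ![0],
      ![0]],
    ![![0],
      ![1],
      ![0],
      ![0]]]

variable {κ : Type*} [Field κ] [CharZero κ]

theorem castA : castV κ fA = gA κ := by
  funext d a b
  fin_cases d <;> fin_cases a <;> fin_cases b <;> simp [castV, fA, gA]

theorem dA_y : (dA κ).y = yA κ := rfl
theorem dA_y5 : (dA κ).y5 = y5A κ := rfl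
theorem dA_r : (dA κ).r = rA κ := rfl
theorem dA_p : (dA κ).p = pA κ := rfl
theorem dA_p5 : (dA κ).p5 = p5A κ := rfl

theorem castB : castV κ fB = gB κ := by
  funext d a b
  fin_cases d <;> fin_cases a <;> fin_cases b <;> simp [castV, fB, gB]

theorem dB_y : (dB κ).y = yB κ := rfl
theorem dB_y5 : (dB κ).y5 = y5B κ := rfl
theorem dB_r : (dB κ).r = rB κ := rfl
theorem dB_p : (dB κ).p = pB κ := rfl
theorem dB_p5 : (dB κ).p5 = p5B κ := rfl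

theorem castL : castV κ fL = gL κ := by
  funext d a b
  fin_cases d <;> fin_cases a <;> fin_cases b <;> simp [castV, fL, gL]

theorem dL_y : (dL κ).y = yL κ := rfl
theorem dL_y5 : (dL κ).y5 = y5L κ := rfl
theorem dL_r : (dL κ).r = rL κ := rfl
theorem dL_p : (dL κ).p = pL κ := rfl
theorem dL_p5 : (dL κ).p5 = p5L κ := rfl

/-- table -/
def QYA (κ : Type*) [Field κ] : Fin 2 → Fin 3 → Fin 4 → κ :=
  ![![![0, 2, 0, -2],
      ![0, 2, 0, 0],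
      ![0, 0, -1, 3]],
    ![![0, -1, 0, 1],
      ![0, -2, 0, 0],
      ![0, 0, 2, 0]]]

theorem qyA (u : Fin 2) (e : Fin 3) (c : Fin 4) : QY (gA κ) (yA κ u) e c = QYA κ u e c := by
  fin_cases u <;> fin_cases e <;> fin_cases c <;>
    simp [QY, QYA, gA, yA, Fin.sum_univ_four] <;> norm_num

/-- table -/
def QPA (κ : Type*) [Field κ] : Fin 3 → Fin 4 → κ :=
  ![![1, 0, 0, 0],
    ![-1, 0, 1, 0],
    ![1, 0, 1, 0]]

theorem qpA (e : Fin 3) (c : Fin 4) : QY (gA κ) (pA κ) e c = QPA κ e c := by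
  fin_cases e <;> fin_cases c <;>
    simp [QY, QPA, gA, pA, Fin.sum_univ_four] <;> norm_num

/-- table -/
def QRA (κ : Type*) [Field κ] : Fin 4 → Fin 3 → Fin 4 → κ :=
  ![![![0, 0, 0, 0],
      ![-2, -1, 2, 0],
      ![1, 0, 0, -1]],
    ![![-1, 1, 0, -1],
      ![0, 0, 0, 0],
      ![0, 0, 0, 0]],
    ![![-1, -1, 0, 1],
      ![-2, -1, 2, 0],
      ![2, 0, 0, 1]],
    ![![-1, 1, 0, -1],
      ![-1, -2, 1, 0],
      ![1, 0, 0, 0]]]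

theorem qrA (b : Fin 4) (a : Fin 3) (c : Fin 4) : QR (gA κ) (rA κ b) a c = QRA κ b a c := by
  fin_cases b <;> fin_cases a <;> fin_cases c <;>
    simp [QR, QRA, gA, rA, Fin.sum_univ_four] <;> norm_num

/-- table -/
def QYB (κ : Type*) [Field κ] : Fin 2 → Fin 3 → Fin 4 → κ :=
  ![![![0, 0, 0, 0],
      ![-1, 2, 0, 0],
      ![1, 0, -1, 0]],
    ![![0, 0, 0, 0],
      ![0, -1, 0, 0],
      ![0, 0, 1, 0]]]

theorem qyB (u : Fin 2) (e : Fin 3) (c : Fin 4) : QY (gB κ) (yB κ u) e c = QYB κ u e c := by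
  fin_cases u <;> fin_cases e <;> fin_cases c <;>
    simp [QY, QYB, gB, yB, Fin.sum_univ_four] <;> norm_num

/-- table -/
def QPB (κ : Type*) [Field κ] : Fin 3 → Fin 4 → κ :=
  ![![-1, 0, 1, -1],
    ![1, -1, 0, 0],
    ![-2, 0, 0, 0]]

theorem qpB (e : Fin 3) (c : Fin 4) : QY (gB κ) (pB κ) e c = QPB κ e c := by
  fin_cases e <;> fin_cases c <;>
    simp [QY, QPB, gB, pB, Fin.sum_univ_four] <;> norm_num

/-- table -/
def QRB (κ : Type*) [Field κ] : Fin 4 → Fin 3 → Fin 4 → κ :=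
  ![![![2, 0, -2, 0],
      ![0, 0, 0, 0],
      ![-1, 1, 0, -1]],
    ![![-1, 0, 1, 1],
      ![0, 0, 0, 0],
      ![1, 0, 1, 0]],
    ![![2, 0, -2, 0],
      ![0, 1, 0, 0],
      ![-2, 1, 0, -1]],
    ![![0, 0, 0, 0],
      ![-1, 0, 0, 0],
      ![1, 1, -1, 1]]]

theorem qrB (b : Fin 4) (a : Fin 3) (c : Fin 4) : QR (gB κ) (rB κ b) a c = QRB κ b a c := by
  fin_cases b <;> fin_cases a <;> fin_cases c <;>
    simp [QR, QRB, gB, rB, Fin.sum_univ_four] <;> norm_num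

/-- table -/
def QYL (κ : Type*) [Field κ] : Fin 2 → Fin 3 → Fin 4 → κ :=
  ![![![-1 / 2, 1, 1 / 2, 0],
      ![-1 / 2, 1, 1 / 2, -1 / 2],
      ![0, 0, 1, -1 / 2]],
    ![![1 / 2, -1 / 2, -1 / 2, 0],
      ![1 / 2, 1 / 2, -1, 0],
      ![0, 0, -1 / 2, 0]]]

theorem qyL (u : Fin 2) (e : Fin 3) (c : Fin 4) : QY (gL κ) (yL κ u) e c = QYL κ u e c := by
  fin_cases u <;> fin_cases e <;> fin_cases c <;>
    simp [QY, QYL, gL, yL, Fin.sum_univ_four] <;> norm_num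

/-- table -/
def QPL (κ : Type*) [Field κ] : Fin 3 → Fin 4 → κ :=
  ![![0, 0, 0, 0],
    ![0, 0, 0, 0],
    ![0, 0, 0, 0]]

theorem qpL (e : Fin 3) (c : Fin 4) : QY (gL κ) (pL κ) e c = QPL κ e c := by
  fin_cases e <;> fin_cases c <;>
    simp [QY, QPL, gL, pL, Fin.sum_univ_four] <;> norm_num

/-- table -/
def QRL (κ : Type*) [Field κ] : Fin 4 → Fin 3 → Fin 4 → κ :=
  ![![![0, 0, 0, 0],
      ![0, 0, 0, 0],
      ![0, 0, 0, 0]],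
    ![![0, 0, 0, 0],
      ![0, 0, 0, 0],
      ![0, 0, 0, 0]],
    ![![0, 0, 0, 0],
      ![0, 0, 0, 0],
      ![0, 0, 0, 0]],
    ![![0, 0, 0, 0],
      ![0, 0, 0, 0],
      ![0, 0, 0, 0]]]

theorem qrL (b : Fin 4) (a : Fin 3) (c : Fin 4) : QR (gL κ) (rL κ b) a c = QRL κ b a c := by
  fin_cases b <;> fin_cases a <;> fin_cases c <;>
    simp [QR, QRL, gL, rL, Fin.sum_univ_four] <;> norm_num

/-- table -/
def KA (κ : Type*) [Field κ] : Fin 4 → Fin 4 → Fin 4 → κ :=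
  ![![![0, 0, 0, 0],
      ![0, 0, 0, 0],
      ![0, 0, 0, 0],
      ![0, 0, -1, 0]],
    ![![0, 0, 0, 0],
      ![0, 0, 0, 0],
      ![0, 1, 0, 0],
      ![0, 0, 0, 0]],
    ![![0, 0, 0, 0],
      ![0, 0, 1, 0],
      ![0, 0, 0, 0],
      ![0, 0, 0, 0]],
    ![![0, -1, 0, 0],
      ![0, 0, 0, 0],
      ![0, 0, 0, 0],
      ![0, 0, 0, 0]]]

theorem ka (b c d : Fin 4) : kap hz4 qz4 (kk κ) b c d = KA κ b c d := by
  fin_cases b <;> fin_cases c <;> fin_cases d <;> simp [kap, KA, qs, kk, hz4, qz4]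

theorem inspA {M : Fin 3 → Fin 4 → κ} (h : InSpZ (gA κ) M) :
    M 0 2 = 0 ∧
    M 0 1 + M 0 3 = 0 ∧
    M 1 0 + M 1 2 = 0 ∧
    M 1 3 = 0 ∧
    M 1 0 + M 2 0 = 0 ∧
    M 2 1 = 0 ∧
    M 0 1 - M 1 1 + M 2 2 = 0 ∧
    M 0 0 - M 0 1 + M 1 1 + M 2 3 = 0 := by
  obtain ⟨y, hy⟩ := h
  simp only [hy]
  refine ⟨?_, ?_, ?_, ?_, ?_, ?_, ?_, ?_⟩ <;> simp [gA, Fin.sum_univ_four] <;> ring

theorem inspB {M : Fin 3 → Fin 4 → κ} (h : InSpZ (gB κ) M) :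
    M 0 1 = 0 ∧
    M 0 0 + M 0 2 = 0 ∧
    M 1 2 = 0 ∧
    M 1 3 = 0 ∧
    -M 0 0 + M 1 0 + M 2 0 = 0 ∧
    -M 0 3 + M 2 1 = 0 ∧
    -M 1 1 + M 2 2 = 0 ∧
    M 1 0 + M 2 3 = 0 := by
  obtain ⟨y, hy⟩ := h
  simp only [hy]
  refine ⟨?_, ?_, ?_, ?_, ?_, ?_, ?_, ?_⟩ <;> simp [gB, Fin.sum_univ_four] <;> ring

theorem inspL {M : Fin 3 → Fin 4 → κ} (h : InSpZ (gL κ) M) :
    -M 0 0 + M 0 2 = 0 ∧
    M 0 3 = 0 ∧
    -M 1 0 + M 1 1 + M 1 2 = 0 ∧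
    M 1 0 - M 1 1 + M 1 3 = 0 ∧
    M 2 0 = 0 ∧
    M 2 1 = 0 ∧
    -M 0 1 + M 1 1 + M 2 2 = 0 ∧
    -M 0 0 + M 0 1 + M 1 0 - M 1 1 + M 2 3 = 0 := by
  obtain ⟨y, hy⟩ := h
  simp only [hy]
  refine ⟨?_, ?_, ?_, ?_, ?_, ?_, ?_, ?_⟩ <;> simp [gL, Fin.sum_univ_four] <;> ring

end

end F4

end Pool.Agent.VCU
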