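import Pool.Agent.VCU.F4A

/-!
# The class e_l, s = 4
-/

set_option autoImplicit false

namespace Pool.Agent.VCU

open Pool.Agent.VCC Pool.Agent.VCT Pool.Agent.VCT.SP_

namespace F4

section

variable {κ : Type*} [Field κ] [CharZero κ]

/-- table -/
def TLa (Sl : Mat κ) (Sa : Mat κ) (SZ : Fin 4 → Fin 3 → κ) (Pa : Mat κ) (g : Fin 3 → κ) (gq : Fin
    1 → Fin 3 → κ) : Fin 2 → Fin 3 → Fin 3 → κ :=
  ![![![3 * Pa 0 0 + Pa 1 0 - 2 * Pa 2 0 + Sa 1 0 + 2 * Sl 1 0 - Sl 2 0 + g 0 - gq 0 0, 5 * Pa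
      0 0 - 2 * Pa 2 0 + Sa 1 1 + 2 * Sl 1 1 - Sl 2 1 + g 1 - gq 0 1, -Pa 1 0 + Sa 1 2 + 2 * Sl 1
      2 - Sl 2 2 + g 2 - gq 0 2],
      ![3 * Pa 0 1 + Pa 1 1 - 2 * Pa 2 1 - SZ 0 0 + 2 * SZ 1 0 - Sa 0 0 - 2 * Sl 0 0 + 10 * Sl 1
        0 - Sl 2 0 - g 0, 5 * Pa 0 1 - 2 * Pa 2 1 - SZ 0 1 + 2 * SZ 1 1 - Sa 0 1 - 2 * Sl 0 1 + 10
        * Sl 1 1 - Sl 2 1 - g 1, -Pa 1 1 - SZ 0 2 + 2 * SZ 1 2 - Sa 0 2 - 2 * Sl 0 2 + 10 * Sl 1 2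
        - Sl 2 2 - g 2],
      ![3 * Pa 0 2 + Pa 1 2 - 2 * Pa 2 2 + SZ 0 0 - SZ 2 0 - Sa 0 0 + Sa 1 0 - Sl 0 0 + 5 * Sl 1
        0, 5 * Pa 0 2 - 2 * Pa 2 2 + SZ 0 1 - SZ 2 1 - Sa 0 1 + Sa 1 1 - Sl 0 1 + 5 * Sl 1 1, -Pa
        1 2 + SZ 0 2 - SZ 2 2 - Sa 0 2 + Sa 1 2 - Sl 0 2 + 5 * Sl 1 2]],
    ![![-Pa 0 0 - Sa 1 0 + Sa 2 0 - 3 * Sl 1 0 - Sl 2 0, -2 * Pa 0 0 + Pa 1 0 + 2 * Pa 2 0 - Sa
      1 1 + Sa 2 1 - 3 * Sl 1 1 - Sl 2 1, -Pa 0 0 - Pa 1 0 + 2 * Pa 2 0 - Sa 1 2 + Sa 2 2 - 3 * Sl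
      1 2 - Sl 2 2],
      ![-Pa 0 1 - SZ 1 0 + Sa 2 0 + Sl 0 0 - 6 * Sl 1 0 - 2 * Sl 2 0 + g 0, -2 * Pa 0 1 + Pa 1 1
        + 2 * Pa 2 1 - SZ 1 1 + Sa 2 1 + Sl 0 1 - 6 * Sl 1 1 - 2 * Sl 2 1 + g 1, -Pa 0 1 - Pa 1 1
        + 2 * Pa 2 1 - SZ 1 2 + Sa 2 2 + Sl 0 2 - 6 * Sl 1 2 - 2 * Sl 2 2 + g 2],
      ![-Pa 0 2 + SZ 2 0 - Sa 1 0 + Sl 0 0 - 2 * Sl 1 0 - g 0, -2 * Pa 0 2 + Pa 1 2 + 2 * Pa 2 2
        + SZ 2 1 - Sa 1 1 + Sl 0 1 - 2 * Sl 1 1 - g 1, -Pa 0 2 - Pa 1 2 + 2 * Pa 2 2 + SZ 2 2 - Sa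
        1 2 + Sl 0 2 - 2 * Sl 1 2 - g 2]]]

theorem tTLa (Sl : Mat κ) (Sa : Mat κ) (SZ : Fin 4 → Fin 3 → κ) (Pa : Mat κ) (g : Fin 3 → κ) (gq
    : Fin 1 → Fin 3 → κ) (u : Fin 2) (e : Fin 3) (b : Fin 3) :
    TBc (gB κ) (dB κ) Sa SZ g gq u e b +
      ∑ c, Q2 (tr (wlo κ)) (Zol κ u) e c * Sl c b - ∑ c, Zol κ u b c * Pa c e =
      TLa Sl Sa SZ Pa g gq u e b := by
  simp only [TBc, dB_y, dB_y5, qyB]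
  fin_cases u <;> fin_cases e <;> fin_cases b <;>
    simp [TLa, QYB, uu, Q2, tr, wlo, Zol, y5B, Fin.sum_univ_three, Fin.sum_univ_four,
        Finset.univ_unique, Fin.sum_univ_two] <;> ring

/-- table -/
def TLp (SZ : Fin 4 → Fin 3 → κ) (gq : Fin 1 → Fin 3 → κ) : Fin 3 → Fin 3 → κ :=
  ![![SZ 0 0 - SZ 2 0 + SZ 3 0, SZ 0 1 - SZ 2 1 + SZ 3 1, SZ 0 2 - SZ 2 2 + SZ 3 2],
    ![-SZ 0 0 + SZ 1 0, -SZ 0 1 + SZ 1 1, -SZ 0 2 + SZ 1 2],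
    ![2 * SZ 0 0, 2 * SZ 0 1, 2 * SZ 0 2]]

theorem tTLp (SZ : Fin 4 → Fin 3 → κ) (gq : Fin 1 → Fin 3 → κ) (e : Fin 3) (b : Fin 3) :
    PBc (gB κ) (dB κ) SZ gq e b =
      TLp SZ gq e b := by
  simp only [PBc, dB_p, dB_p5, qpB]
  fin_cases e <;> fin_cases b <;>
    simp [TLp, QPB, p5B, Fin.sum_univ_three, Fin.sum_univ_four, Finset.univ_unique,
        Fin.sum_univ_two] <;> ring

/-- table -/
def TLz (Sl : Mat κ) (Sa : Mat κ) (SZ : Fin 4 → Fin 3 → κ) (U : Fin 4 → Fin 4 → κ) (g : Fin 3 →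
    κ) (gq : Fin 1 → Fin 3 → κ) : Fin 4 → Fin 3 → Fin 4 → κ :=
  ![![![2 * Sa 0 0 - Sa 2 0 - 2 * Sl 1 0 + Sl 2 0 + g 0, Sa 2 0 - Sl 1 0, -2 * Sa 0 0 + 2 * Sl
      1 0 - gq 0 0, SZ 2 0 - Sa 2 0 - Sl 2 0],
      ![2 * Sa 0 1 - Sa 2 1 - 2 * Sl 1 1 + Sl 2 1 + U 1 0 - 2 * U 2 0 + g 1, Sa 2 1 - Sl 1 1 + U
        1 1 - 2 * U 2 1, -2 * Sa 0 1 + 2 * Sl 1 1 + U 1 2 - 2 * U 2 2 - gq 0 1, SZ 2 1 - Sa 2 1 -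
        Sl 2 1 + U 1 3 - 2 * U 2 3],
      ![2 * Sa 0 2 - Sa 2 2 - 2 * Sl 1 2 + Sl 2 2 + U 0 0 - U 2 0 + g 2, Sa 2 2 - Sl 1 2 + U 0 1
        - U 2 1, -2 * Sa 0 2 + 2 * Sl 1 2 + U 0 2 - U 2 2 - gq 0 2, SZ 2 2 - Sa 2 2 - Sl 2 2 + U 0
        3 - U 2 3]],
    ![![-Sa 0 0 + Sa 2 0 - Sl 0 0 - U 0 0 - U 3 0, Sl 0 0 - U 0 1 - U 3 1 + g 0, -SZ 1 0 + Sa 0
      0 + Sa 2 0 - U 0 2 - U 3 2, Sa 0 0 - Sl 0 0 - U 0 3 - U 3 3],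
      ![-Sa 0 1 + Sa 2 1 - Sl 0 1, Sl 0 1 + g 1, -SZ 1 1 + Sa 0 1 + Sa 2 1, Sa 0 1 - Sl 0 1],
      ![-Sa 0 2 + Sa 2 2 - Sl 0 2 - U 3 0, Sl 0 2 - U 3 1 + g 2, -SZ 1 2 + Sa 0 2 + Sa 2 2 - U 3
        2, Sa 0 2 - Sl 0 2 - U 3 3]],
    ![![2 * Sa 0 0 - 2 * Sa 2 0 - Sl 0 0 - 2 * Sl 1 0 + 2 * Sl 2 0 - U 1 0 - U 2 0 + U 3 0, -SZ
      2 0 + Sa 1 0 + Sa 2 0 - Sl 0 0 - Sl 1 0 - U 1 1 - U 2 1 + U 3 1, -2 * Sa 0 0 + 2 * Sl 1 0 -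
      U 1 2 - U 2 2 + U 3 2 + g 0, -Sa 2 0 + Sl 0 0 + Sl 2 0 - U 1 3 - U 2 3 + U 3 3],
      ![2 * Sa 0 1 - 2 * Sa 2 1 - Sl 0 1 - 2 * Sl 1 1 + 2 * Sl 2 1 + U 1 0 - 2 * U 2 0, -SZ 2 1
        + Sa 1 1 + Sa 2 1 - Sl 0 1 - Sl 1 1 + U 1 1 - 2 * U 2 1, -2 * Sa 0 1 + 2 * Sl 1 1 + U 1 2
        - 2 * U 2 2 + g 1, -Sa 2 1 + Sl 0 1 + Sl 2 1 + U 1 3 - 2 * U 2 3],
      ![2 * Sa 0 2 - 2 * Sa 2 2 - Sl 0 2 - 2 * Sl 1 2 + 2 * Sl 2 2 - U 0 0 - 2 * U 2 0, -SZ 2 2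
        + Sa 1 2 + Sa 2 2 - Sl 0 2 - Sl 1 2 - U 0 1 - 2 * U 2 1, -2 * Sa 0 2 + 2 * Sl 1 2 - U 0 2
        - 2 * U 2 2 + g 2, -Sa 2 2 + Sl 0 2 + Sl 2 2 - U 0 3 - 2 * U 2 3]],
    ![![SZ 1 0 - Sa 1 0 + Sa 2 0 - Sl 0 0 - Sl 1 0 + Sl 2 0 - U 0 0 - U 3 0, Sa 2 0 + Sl 0 0 - 2
      * Sl 1 0 - U 0 1 - U 3 1 - gq 0 0, -Sa 2 0 + Sl 1 0 - U 0 2 - U 3 2, Sa 2 0 - Sl 0 0 - U 0 3
      - U 3 3 + g 0],
      ![SZ 1 1 - Sa 1 1 + Sa 2 1 - Sl 0 1 - Sl 1 1 + Sl 2 1 - U 0 0 + U 1 0 - U 2 0 + U 3 0, Sa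
        2 1 + Sl 0 1 - 2 * Sl 1 1 - U 0 1 + U 1 1 - U 2 1 + U 3 1 - gq 0 1, -Sa 2 1 + Sl 1 1 - U 0
        2 + U 1 2 - U 2 2 + U 3 2, Sa 2 1 - Sl 0 1 - U 0 3 + U 1 3 - U 2 3 + U 3 3 + g 1],
      ![SZ 1 2 - Sa 1 2 + Sa 2 2 - Sl 0 2 - Sl 1 2 + Sl 2 2 - U 2 0, Sa 2 2 + Sl 0 2 - 2 * Sl 1
        2 - U 2 1 - gq 0 2, -Sa 2 2 + Sl 1 2 - U 2 2, Sa 2 2 - Sl 0 2 - U 2 3 + g 2]]]

theorem tTLz (Sl : Mat κ) (Sa : Mat κ) (SZ : Fin 4 → Fin 3 → κ) (U : Fin 4 → Fin 4 → κ) (g : Fin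
    3 → κ) (gq : Fin 1 → Fin 3 → κ) (b : Fin 4) (a : Fin 3) (c : Fin 4) :
    AZc (gA κ) (gB κ) hz4 qz4 (dA κ) (dB κ) (kk κ) Sl Sa SZ U g gq b a c =
      TLz Sl Sa SZ U g gq b a c := by
  simp only [AZc, dA_r, dB_r, qrA, qrB, ka]
  fin_cases b <;> fin_cases a <;> fin_cases c <;>
    simp [TLz, QRA, QRB, KA, rA, kk, Fin.sum_univ_three, Fin.sum_univ_four, Finset.univ_unique,
        Fin.sum_univ_two] <;> ring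

/-- table -/
def TLc (Sl : Mat κ) (SZ : Fin 4 → Fin 3 → κ) (g : Fin 3 → κ) (gq : Fin 1 → Fin 3 → κ) : Fin 2 →
    Fin 3 → Fin 3 → κ :=
  ![![![4 * SZ 1 0 - 4 * SZ 3 0 + 2 * Sl 1 0 + 2 * g 0 - 2 * gq 0 0, 2 * SZ 1 0 + 2 * SZ 1 1 -
      2 * SZ 3 1 - Sl 0 0 + Sl 1 1 - g 0 + g 1 - gq 0 1, 2 * SZ 1 2 - SZ 2 0 + 3 * SZ 3 0 - 2 * SZ
      3 2 - Sl 0 0 + Sl 1 0 + Sl 1 2 + g 2 - gq 0 0 - gq 0 2],
      ![2 * SZ 1 0 + 2 * SZ 1 1 - 2 * SZ 3 1 - Sl 0 0 + Sl 1 1 - g 0 + g 1 - gq 0 1, 4 * SZ 1 1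
        - 2 * Sl 0 1 - 2 * g 1, 2 * SZ 1 2 - SZ 2 1 + 3 * SZ 3 1 - Sl 0 1 - Sl 0 2 + Sl 1 1 - g 2
        - gq 0 1],
      ![2 * SZ 1 2 - SZ 2 0 + 3 * SZ 3 0 - 2 * SZ 3 2 - Sl 0 0 + Sl 1 0 + Sl 1 2 + g 2 - gq 0 0
        - gq 0 2, 2 * SZ 1 2 - SZ 2 1 + 3 * SZ 3 1 - Sl 0 1 - Sl 0 2 + Sl 1 1 - g 2 - gq 0 1, -2 *
        SZ 2 2 + 6 * SZ 3 2 - 2 * Sl 0 2 + 2 * Sl 1 2 - 2 * gq 0 2]],
    ![![-2 * SZ 1 0 + 2 * SZ 3 0 - 2 * Sl 1 0 + 2 * Sl 2 0, -2 * SZ 1 0 - SZ 1 1 + SZ 3 1 - Sl 1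
      1 + Sl 2 0 + Sl 2 1 + g 0, -SZ 1 2 + 2 * SZ 2 0 + SZ 3 2 - Sl 1 0 - Sl 1 2 + Sl 2 2 - g 0 -
      gq 0 0],
      ![-2 * SZ 1 0 - SZ 1 1 + SZ 3 1 - Sl 1 1 + Sl 2 0 + Sl 2 1 + g 0, -4 * SZ 1 1 + 2 * Sl 2 1
        + 2 * g 1, -2 * SZ 1 2 + 2 * SZ 2 1 - Sl 1 1 + Sl 2 2 - g 1 + g 2 - gq 0 1],
      ![-SZ 1 2 + 2 * SZ 2 0 + SZ 3 2 - Sl 1 0 - Sl 1 2 + Sl 2 2 - g 0 - gq 0 0, -2 * SZ 1 2 + 2
        * SZ 2 1 - Sl 1 1 + Sl 2 2 - g 1 + g 2 - gq 0 1, 4 * SZ 2 2 - 2 * Sl 1 2 - 2 * g 2 - 2 *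
        gq 0 2]]]

theorem tTLc (Sl : Mat κ) (SZ : Fin 4 → Fin 3 → κ) (g : Fin 3 → κ) (gq : Fin 1 → Fin 3 → κ) (u :
    Fin 2) (e : Fin 3) (b : Fin 3) :
    TBc (gA κ) (dA κ) Sl SZ g gq u e b + TBc (gA κ) (dA κ) Sl SZ g gq u b e =
      TLc Sl SZ g gq u e b := by
  simp only [TBc, dA_y, dA_y5, qyA]
  fin_cases u <;> fin_cases e <;> fin_cases b <;>
    simp [TLc, QYA, uu, y5A, Fin.sum_univ_three, Fin.sum_univ_four, Finset.univ_unique,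
        Fin.sum_univ_two] <;> ring

/-- table -/
def TLb (Pa : Mat κ) : Fin 2 → Fin 3 → Fin 3 → κ :=
  ![![![2 * Pa 0 0, Pa 0 0 + Pa 0 1 + Pa 1 0, Pa 0 2],
      ![Pa 0 0 + Pa 0 1 + Pa 1 0, 2 * Pa 0 1 + 2 * Pa 1 1, Pa 0 2 + Pa 1 2],
      ![Pa 0 2, Pa 0 2 + Pa 1 2, 0]],
    ![![0, Pa 0 0 + Pa 1 0, Pa 1 0],
      ![Pa 0 0 + Pa 1 0, 2 * Pa 0 1 + 2 * Pa 1 1, Pa 0 2 + Pa 1 1 + Pa 1 2],
      ![Pa 1 0, Pa 0 2 + Pa 1 1 + Pa 1 2, 2 * Pa 1 2]]]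

theorem tTLb (Pa : Mat κ) (u : Fin 2) (e : Fin 3) (b : Fin 3) :
    ∑ c, (Zlo κ u e c * Pa c b + Zlo κ u b c * Pa c e) =
      TLb Pa u e b := by
  fin_cases u <;> fin_cases e <;> fin_cases b <;>
    simp [TLb, Zlo, Fin.sum_univ_three] <;> ring

/-- table -/
def TLu (U : Fin 4 → Fin 4 → κ) : Fin 2 → Fin 4 → Fin 4 → κ :=
  ![![![2 * U 3 0, U 2 0 - 2 * U 3 0 + U 3 1, -U 0 0 + U 1 0 - U 3 0 + U 3 2, -3 * U 0 0 + 2 *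
      U 1 0 - 2 * U 3 0 + U 3 3],
      ![U 2 0 - 2 * U 3 0 + U 3 1, 2 * U 2 1 - 4 * U 3 1, -U 0 1 + U 1 1 + U 2 2 - U 3 1 - 2 * U
        3 2, -3 * U 0 1 + 2 * U 1 1 + U 2 3 - 2 * U 3 1 - 2 * U 3 3],
      ![-U 0 0 + U 1 0 - U 3 0 + U 3 2, -U 0 1 + U 1 1 + U 2 2 - U 3 1 - 2 * U 3 2, -2 * U 0 2 +
        2 * U 1 2 - 2 * U 3 2, -3 * U 0 2 - U 0 3 + 2 * U 1 2 + U 1 3 - 2 * U 3 2 - U 3 3],
      ![-3 * U 0 0 + 2 * U 1 0 - 2 * U 3 0 + U 3 3, -3 * U 0 1 + 2 * U 1 1 + U 2 3 - 2 * U 3 1 -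
        2 * U 3 3, -3 * U 0 2 - U 0 3 + 2 * U 1 2 + U 1 3 - 2 * U 3 2 - U 3 3, -6 * U 0 3 + 4 * U
        1 3 - 4 * U 3 3]],
    ![![2 * U 3 0, U 1 0 + U 2 0 + U 3 0 + U 3 1, 2 * U 0 0 - 2 * U 1 0 + U 3 2, -U 1 0 + U 3 0
      + U 3 3],
      ![U 1 0 + U 2 0 + U 3 0 + U 3 1, 2 * U 1 1 + 2 * U 2 1 + 2 * U 3 1, 2 * U 0 1 - 2 * U 1 1
        + U 1 2 + U 2 2 + U 3 2, -U 1 1 + U 1 3 + U 2 3 + U 3 1 + U 3 3],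
      ![2 * U 0 0 - 2 * U 1 0 + U 3 2, 2 * U 0 1 - 2 * U 1 1 + U 1 2 + U 2 2 + U 3 2, 4 * U 0 2
        - 4 * U 1 2, 2 * U 0 3 - U 1 2 - 2 * U 1 3 + U 3 2],
      ![-U 1 0 + U 3 0 + U 3 3, -U 1 1 + U 1 3 + U 2 3 + U 3 1 + U 3 3, 2 * U 0 3 - U 1 2 - 2 *
        U 1 3 + U 3 2, -2 * U 1 3 + 2 * U 3 3]]]

theorem tTLu (U : Fin 4 → Fin 4 → κ) (u : Fin 2) (b : Fin 4) (c : Fin 4) :
    - ∑ d, ((dA κ).y u b d * U d c + (dA κ).y u c d * U d b) =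
      TLu U u b c := by
  fin_cases u <;> fin_cases b <;> fin_cases c <;>
    simp [TLu, dA_y, yA, Fin.sum_univ_four] <;> ring

/-- table -/
def TLq (SZ : Fin 4 → Fin 3 → κ) (gq : Fin 1 → Fin 3 → κ) : Fin 3 → Fin 3 → κ :=
  ![![-2 * SZ 0 0, SZ 0 0 - SZ 0 1 - SZ 2 0, -SZ 0 0 - SZ 0 2 - SZ 2 0 + gq 0 0],
    ![SZ 0 0 - SZ 0 1 - SZ 2 0, 2 * SZ 0 1 - 2 * SZ 2 1, -SZ 0 1 + SZ 0 2 - SZ 2 1 - SZ 2 2 + gq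
      0 1],
    ![-SZ 0 0 - SZ 0 2 - SZ 2 0 + gq 0 0, -SZ 0 1 + SZ 0 2 - SZ 2 1 - SZ 2 2 + gq 0 1, -2 * SZ 0
      2 - 2 * SZ 2 2 + 2 * gq 0 2]]

theorem tTLq (SZ : Fin 4 → Fin 3 → κ) (gq : Fin 1 → Fin 3 → κ) (e : Fin 3) (b : Fin 3) :
    PBc (gA κ) (dA κ) SZ gq e b + PBc (gA κ) (dA κ) SZ gq b e =
      TLq SZ gq e b := by
  simp only [PBc, dA_p, dA_p5, qpA]
  fin_cases e <;> fin_cases b <;>
    simp [TLq, QPA, p5A, Fin.sum_univ_three, Fin.sum_univ_four, Finset.univ_unique,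
        Fin.sum_univ_two] <;> ring

/-- table -/
def TLr (U : Fin 4 → Fin 4 → κ) : Fin 4 → Fin 4 → κ :=
  ![![-2 * U 1 0 + 2 * U 2 0, -U 1 1 - U 2 0 + U 2 1, -U 0 0 + U 1 0 - U 1 2 + U 2 0 + U 2 2,
      -U 1 3 + U 2 3],
    ![-U 1 1 - U 2 0 + U 2 1, -2 * U 2 1, -U 0 1 + U 1 1 + U 2 1 - U 2 2, -U 2 3],
    ![-U 0 0 + U 1 0 - U 1 2 + U 2 0 + U 2 2, -U 0 1 + U 1 1 + U 2 1 - U 2 2, -2 * U 0 2 + 2 * U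
      1 2 + 2 * U 2 2, -U 0 3 + U 1 3 + U 2 3],
    ![-U 1 3 + U 2 3, -U 2 3, -U 0 3 + U 1 3 + U 2 3, 0]]

theorem tTLr (U : Fin 4 → Fin 4 → κ) (b : Fin 4) (c : Fin 4) :
    ∑ d, ((dA κ).p b d * U d c + (dA κ).p c d * U d b) =
      TLr U b c := by
  fin_cases b <;> fin_cases c <;>
    simp [TLr, dA_p, pA, Fin.sum_univ_four] <;> ring

/-- table -/
def TR (mu : κ) (nu : Fin 2 → κ) : Fin 4 → Fin 4 → κ :=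
  ![![0, nu 0 + nu 1, 0, 0],
    ![nu 0 + nu 1, 0, mu, 0],
    ![0, mu, 0, nu 0],
    ![0, 0, nu 0, 0]]

theorem tTR (mu : κ) (nu : Fin 2 → κ) (b : Fin 4) (c : Fin 4) :
    mu * qs κ hz4 b c + ∑ τ, nu τ * qs κ (qz4' τ) b c =
      TR mu nu b c := by
  fin_cases b <;> fin_cases c <;>
    simp [TR, qs, hz4, qz4', Fin.sum_univ_three, Fin.sum_univ_four, Finset.univ_unique,
        Fin.sum_univ_two] <;> ring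

/-- table -/
def TR0 (nu : Fin 2 → κ) : Fin 4 → Fin 4 → κ :=
  ![![0, nu 0 + nu 1, 0, 0],
    ![nu 0 + nu 1, 0, 0, 0],
    ![0, 0, 0, nu 0],
    ![0, 0, nu 0, 0]]

theorem tTR0 (nu : Fin 2 → κ) (b : Fin 4) (c : Fin 4) :
    ∑ τ, nu τ * qs κ (qz4' τ) b c =
      TR0 nu b c := by
  fin_cases b <;> fin_cases c <;>
    simp [TR0, qs, qz4', Fin.sum_univ_three, Fin.sum_univ_four, Finset.univ_unique,
        Fin.sum_univ_two] <;> ring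

theorem coreL : CoreL (gA κ) (gB κ) hz4 qz4 qz4' (dA κ) (dB κ) (kk κ) := by
  intro Sl Sa SZ Pa U g gq ha hp hz hb hq hn
  simp only [tTLa] at ha
  simp only [tTLp] at hp
  simp only [tTLz] at hz
  simp only [tTLb, tTLc, tTLu, tTR] at hb
  simp only [tTLq, tTLr, tTR0] at hq
  obtain ⟨qa00, qa01, qa02, qa03, qa04, qa05⟩ := insp_ol (ha 0)
  obtain ⟨qa10, qa11, qa12, qa13, qa14, qa15⟩ := insp_ol (ha 1)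
  obtain ⟨qp0, qp1, qp2, qp3, qp4, qp5⟩ := insp_ol hp
  obtain ⟨qz00, qz01, qz02, qz03, qz04, qz05, qz06, qz07⟩ := inspA (hz 0)
  obtain ⟨qz10, qz11, qz12, qz13, qz14, qz15, qz16, qz17⟩ := inspA (hz 1)
  obtain ⟨qz20, qz21, qz22, qz23, qz24, qz25, qz26, qz27⟩ := inspA (hz 2)
  obtain ⟨qz30, qz31, qz32, qz33, qz34, qz35, qz36, qz37⟩ := inspA (hz 3)
  obtain ⟨mu0, nu0, hb0, hc0, hd0⟩ := hb 0
  obtain ⟨mu1, nu1, hb1, hc1, hd1⟩ := hb 1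
  obtain ⟨nu2, hq1, hq2⟩ := hq
  have e0 : (3 * Pa 0 0 + Pa 1 0 - 2 * Pa 2 0 + Sa 1 0 + 2 * Sl 1 0 - Sl 2 0 + g 0 - gq 0 0) = 0
      := qa00
  have e5 : (-Pa 1 2 + SZ 0 2 - SZ 2 2 - Sa 0 2 + Sa 1 2 - Sl 0 2 + 5 * Sl 1 2) = 0 := qa05
  have e6 : (-Pa 0 0 - Sa 1 0 + Sa 2 0 - 3 * Sl 1 0 - Sl 2 0) = 0 := qa10
  have e7 : (-2 * Pa 0 1 + Pa 1 1 + 2 * Pa 2 1 - SZ 1 1 + Sa 2 1 + Sl 0 1 - 6 * Sl 1 1 - 2 * Sl 2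
      1 + g
      1) + (2) * (-Pa 0 1 - SZ 1 0 + Sa 2 0 + Sl 0 0 - 6 * Sl 1 0 - 2 * Sl 2 0 + g 0) = 0 := qa11
  have e11 : (-Pa 0 2 - Pa 1 2 + 2 * Pa 2 2 + SZ 2 2 - Sa 1 2 + Sl 0 2 - 2 * Sl 1 2 - g 2) = 0 :=
      qa15
  have e12 : (SZ 0 0 - SZ 2 0 + SZ 3 0) = 0 := qp0
  have e13 : (-SZ 0 1 + SZ 1 1) + (2) * (-SZ 0 0 + SZ 1 0) = 0 := qp1
  have e14 : (-SZ 0 2 + SZ 1 2) - (SZ 0 1 - SZ 2 1 + SZ 3 1) - (SZ 0 2 - SZ 2 2 + SZ 3 2) - (-SZ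
      0 0 + SZ
      1 0) = 0 := qp2
  have e15 : (2 * SZ 0 0) - (SZ 0 1 - SZ 2 1 + SZ 3 1) - (-SZ 0 0 + SZ 1 0) = 0 := qp3
  have e16 : (2 * SZ 0 1) - (SZ 0 2 - SZ 2 2 + SZ 3 2) + (-SZ 0 0 + SZ 1 0) = 0 := qp4
  have e17 : (2 * SZ 0 2) = 0 := qp5
  have e18 : (-2 * Sa 0 0 + 2 * Sl 1 0 - gq 0 0) = 0 := qz00
  have e19 : (Sa 2 0 - Sl 1 0) + (SZ 2 0 - Sa 2 0 - Sl 2 0) = 0 := qz01
  have e20 : (2 * Sa 0 1 - Sa 2 1 - 2 * Sl 1 1 + Sl 2 1 + U 1 0 - 2 * U 2 0 + g 1) + (-2 * Sa 0 1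
      + 2 *
      Sl 1 1 + U 1 2 - 2 * U 2 2 - gq 0 1) = 0 := qz02
  have e21 : (SZ 2 1 - Sa 2 1 - Sl 2 1 + U 1 3 - 2 * U 2 3) = 0 := qz03
  have e22 : (2 * Sa 0 1 - Sa 2 1 - 2 * Sl 1 1 + Sl 2 1 + U 1 0 - 2 * U 2 0 + g 1) + (2 * Sa 0 2
      - Sa 2 2
      - 2 * Sl 1 2 + Sl 2 2 + U 0 0 - U 2 0 + g 2) = 0 := qz04
  have e23 : (Sa 2 2 - Sl 1 2 + U 0 1 - U 2 1) = 0 := qz05
  have e24 : (Sa 2 0 - Sl 1 0) - (Sa 2 1 - Sl 1 1 + U 1 1 - 2 * U 2 1) + (-2 * Sa 0 2 + 2 * Sl 1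
      2 + U 0
      2 - U 2 2 - gq 0 2) = 0 := qz06
  have e26 : (-SZ 1 0 + Sa 0 0 + Sa 2 0 - U 0 2 - U 3 2) = 0 := qz10
  have e27 : (Sl 0 0 - U 0 1 - U 3 1 + g 0) + (Sa 0 0 - Sl 0 0 - U 0 3 - U 3 3) = 0 := qz11
  have e28 : (-Sa 0 1 + Sa 2 1 - Sl 0 1) + (-SZ 1 1 + Sa 0 1 + Sa 2 1) = 0 := qz12
  have e29 : (Sa 0 1 - Sl 0 1) = 0 := qz13
  have e30 : (-Sa 0 1 + Sa 2 1 - Sl 0 1) + (-Sa 0 2 + Sa 2 2 - Sl 0 2 - U 3 0) = 0 := qz14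
  have e31 : (Sl 0 2 - U 3 1 + g 2) = 0 := qz15
  have e34 : (-2 * Sa 0 0 + 2 * Sl 1 0 - U 1 2 - U 2 2 + U 3 2 + g 0) = 0 := qz20
  have e35 : (-SZ 2 0 + Sa 1 0 + Sa 2 0 - Sl 0 0 - Sl 1 0 - U 1 1 - U 2 1 + U 3 1) + (-Sa 2 0 +
      Sl 0 0 +
      Sl 2 0 - U 1 3 - U 2 3 + U 3 3) = 0 := qz21
  have e36 : (2 * Sa 0 1 - 2 * Sa 2 1 - Sl 0 1 - 2 * Sl 1 1 + 2 * Sl 2 1 + U 1 0 - 2 * U 2 0) +
      (-2 * Sa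
      0 1 + 2 * Sl 1 1 + U 1 2 - 2 * U 2 2 + g 1) = 0 := qz22
  have e37 : (-Sa 2 1 + Sl 0 1 + Sl 2 1 + U 1 3 - 2 * U 2 3) = 0 := qz23
  have e38 : (2 * Sa 0 1 - 2 * Sa 2 1 - Sl 0 1 - 2 * Sl 1 1 + 2 * Sl 2 1 + U 1 0 - 2 * U 2 0) +
      (2 * Sa 0
      2 - 2 * Sa 2 2 - Sl 0 2 - 2 * Sl 1 2 + 2 * Sl 2 2 - U 0 0 - 2 * U 2 0) = 0 := qz24
  have e39 : (-SZ 2 2 + Sa 1 2 + Sa 2 2 - Sl 0 2 - Sl 1 2 - U 0 1 - 2 * U 2 1) = 0 := qz25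
  have e40 : (-SZ 2 0 + Sa 1 0 + Sa 2 0 - Sl 0 0 - Sl 1 0 - U 1 1 - U 2 1 + U 3 1) - (-SZ 2 1 +
      Sa 1 1 +
      Sa 2 1 - Sl 0 1 - Sl 1 1 + U 1 1 - 2 * U 2 1) + (-2 * Sa 0 2 + 2 * Sl 1 2 - U 0 2 - 2 * U 2
      2 + g 2) = 0 := qz26
  have e42 : (-Sa 2 0 + Sl 1 0 - U 0 2 - U 3 2) = 0 := qz30
  have e43 : (Sa 2 0 + Sl 0 0 - 2 * Sl 1 0 - U 0 1 - U 3 1 - gq 0 0) + (Sa 2 0 - Sl 0 0 - U 0 3 -
      U 3 3 +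
      g 0) = 0 := qz31
  have e44 : (SZ 1 1 - Sa 1 1 + Sa 2 1 - Sl 0 1 - Sl 1 1 + Sl 2 1 - U 0 0 + U 1 0 - U 2 0 + U 3
      0) + (-Sa
      2 1 + Sl 1 1 - U 0 2 + U 1 2 - U 2 2 + U 3 2) = 0 := qz32
  have e45 : (Sa 2 1 - Sl 0 1 - U 0 3 + U 1 3 - U 2 3 + U 3 3 + g 1) = 0 := qz33
  have e46 : (SZ 1 1 - Sa 1 1 + Sa 2 1 - Sl 0 1 - Sl 1 1 + Sl 2 1 - U 0 0 + U 1 0 - U 2 0 + U 3
      0) + (SZ
      1 2 - Sa 1 2 + Sa 2 2 - Sl 0 2 - Sl 1 2 + Sl 2 2 - U 2 0) = 0 := qz34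
  have e47 : (Sa 2 2 + Sl 0 2 - 2 * Sl 1 2 - U 2 1 - gq 0 2) = 0 := qz35
  have e50 : Pa 0 0 + Pa 0 1 + Pa 1 0 = -mu0 := hb0 0 1 (by decide)
  have e52 : Pa 0 2 = -mu0 := hb0 0 2 (by decide)
  have e54 : Pa 0 2 + Pa 1 2 = -mu0 := hb0 1 2 (by decide)
  have e57 : -U 0 0 + U 1 0 - U 3 0 + U 3 2 = 0 := hd0 0 2 (by decide)
  have e58 : -3 * U 0 0 + 2 * U 1 0 - 2 * U 3 0 + U 3 3 = 0 := hd0 0 3 (by decide)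
  have e59 : -U 0 1 + U 1 1 + U 2 2 - U 3 1 - 2 * U 3 2 = mu0 := hd0 1 2 (by decide)
  have e60 : -3 * U 0 1 + 2 * U 1 1 + U 2 3 - 2 * U 3 1 - 2 * U 3 3 = 0 := hd0 1 3 (by decide)
  have e62 : Pa 0 0 + Pa 1 0 = -mu1 := hb1 0 1 (by decide)
  have e64 : Pa 1 0 = -mu1 := hb1 0 2 (by decide)
  have e65 : -SZ 1 2 + 2 * SZ 2 0 + SZ 3 2 - Sl 1 0 - Sl 1 2 + Sl 2 2 - g 0 - gq 0 0 = mu1 := hc1
      0 2 (by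
      decide)
  have e66 : Pa 0 2 + Pa 1 1 + Pa 1 2 = -mu1 := hb1 1 2 (by decide)
  have e67 : -2 * SZ 1 2 + 2 * SZ 2 1 - Sl 1 1 + Sl 2 2 - g 1 + g 2 - gq 0 1 = mu1 := hc1 1 2 (by
      decide)
  have e69 : 2 * U 0 0 - 2 * U 1 0 + U 3 2 = 0 := hd1 0 2 (by decide)
  have e70 : -U 1 0 + U 3 0 + U 3 3 = 0 := hd1 0 3 (by decide)
  have e71 : 2 * U 0 1 - 2 * U 1 1 + U 1 2 + U 2 2 + U 3 2 = mu1 := hd1 1 2 (by decide)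
  have e72 : -U 1 1 + U 1 3 + U 2 3 + U 3 1 + U 3 3 = 0 := hd1 1 3 (by decide)
  have e74 : SZ 0 0 - SZ 0 1 - SZ 2 0 = 0 := hq1 0 1 (by decide)
  have e75 : -SZ 0 0 - SZ 0 2 - SZ 2 0 + gq 0 0 = 0 := hq1 0 2 (by decide)
  have e76 : -SZ 0 1 + SZ 0 2 - SZ 2 1 - SZ 2 2 + gq 0 1 = 0 := hq1 1 2 (by decide)
  have e78 : -U 0 0 + U 1 0 - U 1 2 + U 2 0 + U 2 2 = 0 := hq2 0 2 (by decide)
  have e79 : -U 1 3 + U 2 3 = 0 := hq2 0 3 (by decide)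
  have e80 : -U 0 1 + U 1 1 + U 2 1 - U 2 2 = 0 := hq2 1 2 (by decide)
  have e81 : -U 2 3 = 0 := hq2 1 3 (by decide)
  have e83 : Sl 0 0 = 0 := hn 0
  have e84 : Sl 1 1 = 0 := hn 1
  have e85 : Sl 2 2 = 0 := hn 2
  have f_Sa_2_0 : Sa 2 0 = 0 := by
    linear_combination -(23 / 910) * e5 - (241 / 182) * e6 - (37 / 91) * e13 + (11 / 70) * e14 -
        (11 / 70) * e15 +
      (307 / 910) * e16 + (1737 / 1820) * e17 - (1037 / 910) * e18 - (32 / 455) * e20 - (19 / 130)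
      * e21 + (2 / 65) * e22 - (223 / 91) * e23 - (211 / 455) * e24 - (433 / 910) * e26 - (1389 /
      910) * e27 - (37 / 91) * e28 + (867 / 910) * e29 - (69 / 910) * e30 - (97 / 910) * e31 + (9
      / 65) * e34 - (241 / 182) * e35 + (33 / 70) * e36 + (37 / 910) * e37 - (248 / 455) * e38 +
      (18 / 35) * e39 + (228 / 455) * e42 + (1713 / 910) * e43 - (89 / 182) * e44 - (162 / 455) *
      e45 + (89 / 182) * e46 + (211 / 455) * e47 + (23 / 910) * e52 - (23 / 910) * e54 + (2481 /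
      1820) * e57 - (1501 / 5460) * e58 - (2827 / 2730) * e60 - (241 / 182) * e62 + (241 / 182) *
      e64 + (45 / 91) * e65 + (69 / 910) * e67 - (759 / 1820) * e69 + (4027 / 5460) * e70 - (519 /
      910) * e71 - (97 / 195) * e72 + (979 / 910) * e74 + (563 / 455) * e75 + (1 / 182) * e76 -
      (145 / 182) * e78 + (997 / 2730) * e79 - (1233 / 910) * e80 + (395 / 546) * e81
  have f_Sl_1_0 : Sl 1 0 = 0 := by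
    linear_combination -(79 / 276) * e6 - (5 / 92) * e13 + (1 / 92) * e14 - (1 / 92) * e15 + (37
        / 276) * e16 +
      (113 / 552) * e17 + (2 / 69) * e18 + (1 / 92) * e20 + (1 / 92) * e21 + (1 / 92) * e22 - (47
      / 69) * e23 - (37 / 276) * e24 + (7 / 276) * e26 + (13 / 276) * e27 - (5 / 92) * e28 + (37 /
      138) * e29 - (1 / 92) * e31 + (1 / 138) * e34 - (79 / 276) * e35 + (8 / 69) * e36 + (13 /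
      276) * e37 - (10 / 69) * e38 + (37 / 276) * e39 - (7 / 276) * e42 + (25 / 276) * e43 - (37 /
      276) * e44 - (19 / 138) * e45 + (37 / 276) * e46 + (37 / 276) * e47 + (49 / 138) * e57 - (19
      / 276) * e58 - (29 / 92) * e60 - (79 / 276) * e62 + (79 / 276) * e64 + (10 / 69) * e65 - (1
      / 12) * e69 + (5 / 23) * e70 - (10 / 69) * e71 - (5 / 23) * e72 + (43 / 138) * e74 + (73 /
      276) * e75 + (1 / 92) * e76 - (11 / 69) * e78 - (1 / 92) * e79 - (41 / 138) * e80 - (65 /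
      276) * e81 + (13 / 69) * f_Sa_2_0
  have f_Sl_0_1 : Sl 0 1 = 0 := by
    linear_combination -(14 / 37) * e6 - (5 / 37) * e13 + (1 / 37) * e14 - (1 / 37) * e15 + (13 /
        74) * e17 - (59 /
      37) * e18 + (1 / 37) * e20 + (1 / 37) * e21 + (1 / 37) * e22 - (1 / 37) * e23 - (10 / 37) *
      e26 - (82 / 37) * e27 - (5 / 37) * e28 - (1 / 37) * e31 + (13 / 37) * e34 - (14 / 37) * e35
      - (14 / 37) * e36 + (29 / 37) * e37 - (1 / 37) * e38 + (10 / 37) * e42 + (70 / 37) * e43 +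
      (12 / 37) * e45 + (8 / 37) * e57 - (19 / 111) * e58 + (8 / 37) * e60 - (14 / 37) * e62 + (14
      / 37) * e64 + (1 / 37) * e65 - (20 / 37) * e69 - (14 / 111) * e70 - (1 / 37) * e71 + (17 /
      37) * e72 + (4 / 37) * e74 + (12 / 37) * e75 + (1 / 37) * e76 - (27 / 37) * e78 + (73 / 37)
      * e79 - (15 / 37) * e80 + (40 / 37) * e81 + (167 / 37) * f_Sl_1_0 - (106 / 37) * f_Sa_2_0
  have f_Sa_2_1 : Sa 2 1 = 0 := by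
    linear_combination -2 * e6 - (1 / 2) * e13 + (3 / 4) * e17 - (17 / 2) * e18 - e26 - 12 * e27
        - (1 / 2) * e28 +
      2 * e34 - 2 * e35 - 2 * e36 + 4 * e37 + e42 + 10 * e43 + 2 * e45 + e57 - e58 + (4 / 3) * e60
      - 2 * e62 + 2 * e64 - 3 * e69 - e70 + (8 / 3) * e72 + (1 / 2) * e74 + (3 / 2) * e75 - 4 *
      e78 + (32 / 3) * e79 - 2 * e80 + (20 / 3) * e81 - (9 / 2) * f_Sl_0_1 - 16 * f_Sa_2_0 + 24 *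
      f_Sl_1_0
  have f_Sa_0_0 : Sa 0 0 = 0 := by
    linear_combination -e18 - e27 + e43 + 4 * f_Sl_1_0 - 2 * f_Sa_2_0
  have f_U_2_1 : U 2 1 = 0 := by
    linear_combination e27 - e34 + e36 - 2 * e37 - e45 - (1 / 2) * e57 + (1 / 2) * e58 - (2 / 3)
        * e60 + (3 / 2) *
      e69 + (1 / 2) * e70 - (1 / 3) * e72 + 2 * e78 - (10 / 3) * e79 + e80 + (2 / 3) * e81 - 3 *
      f_Sa_0_0 + 2 * f_Sl_0_1 + f_Sa_2_1 + 2 * f_Sl_1_0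
  have f_Sa_2_2 : Sa 2 2 = 0 := by
    linear_combination (1 / 6) * e5 - (1 / 12) * e17 + (1 / 3) * e22 + 2 * e23 + (1 / 3) * e24 -
        (5 / 6) * e29 - (1
      / 2) * e30 - (1 / 3) * e31 - (1 / 3) * e36 + (2 / 3) * e37 - (1 / 6) * e38 - (1 / 6) * e39 +
      (1 / 3) * e42 - (1 / 3) * e47 - (1 / 6) * e52 + (1 / 6) * e54 + (1 / 3) * e57 + (1 / 6) *
      e58 + (13 / 18) * e60 + (1 / 6) * e70 + (10 / 9) * e72 - (1 / 3) * e78 + (16 / 9) * e79 +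
      (41 / 18) * e81 - (5 / 2) * f_Sl_0_1 + (5 / 6) * f_Sa_2_1 + (2 / 3) * f_U_2_1
  have f_U_1_1 : U 1 1 = 0 := by
    linear_combination (1 / 2) * e5 - (1 / 4) * e17 + e23 - (1 / 2) * e24 + (1 / 2) * e29 + (1 /
        2) * e30 - (1 / 2)
      * e39 - (1 / 2) * e42 + (1 / 2) * e47 - (1 / 2) * e52 + (1 / 2) * e54 - (1 / 4) * e57 - (1 /
      12) * e58 + (1 / 3) * e60 - (1 / 4) * e69 + (1 / 12) * e70 + (2 / 3) * e72 + (2 / 3) * e79 +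
      (1 / 2) * e80 + (5 / 3) * e81 + (1 / 2) * e84 - f_Sa_2_1 + f_U_2_1 - (3 / 2) * f_Sa_2_2 +
      f_Sl_0_1
  have f_U_3_1 : U 3 1 = 0 := by
    linear_combination -(1 / 2) * e5 - (1 / 2) * e6 + (1 / 4) * e17 - (1 / 2) * e19 - (1 / 2) *
        e21 - 2 * e23 - (1
      / 2) * e28 - (1 / 2) * e29 - (1 / 2) * e30 - (1 / 2) * e31 - e35 + (1 / 2) * e39 + (1 / 2) *
      e40 - (1 / 2) * e44 + (1 / 2) * e52 - (1 / 2) * e54 + e57 - (1 / 3) * e58 - (1 / 2) * e60 -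
      (1 / 2) * e62 + (1 / 2) * e64 - (1 / 2) * e69 + (1 / 3) * e70 - (1 / 2) * e78 + (1 / 2) *
      e79 - e80 + 2 * e81 + (1 / 2) * e83 - (1 / 2) * e84 - (5 / 2) * f_Sl_1_0 + 2 * f_U_1_1 - (3
      / 2) * f_U_2_1 + 2 * f_Sa_2_2 + (3 / 2) * f_Sa_2_1 - (5 / 2) * f_Sl_0_1
  have f_Pa_1_0 : Pa 1 0 = 0 := by
    linear_combination (3 / 4) * e5 - (3 / 8) * e17 + 4 * e23 - (3 / 4) * e29 - (1 / 4) * e30 -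
        (1 / 2) * e37 + (1
      / 4) * e38 - (3 / 4) * e39 - (3 / 4) * e52 + (3 / 4) * e54 - (7 / 4) * e57 + (2 / 3) * e58 +
      (19 / 12) * e60 + e64 + (3 / 4) * e69 - (2 / 3) * e70 + e71 + (19 / 6) * e72 + e78 + (8 / 3)
      * e79 + 2 * e80 + (101 / 12) * e81 + (1 / 2) * e84 - (1 / 2) * e85 - (1 / 4) * f_Sl_0_1 - (5
      / 2) * f_Sa_2_2 + (1 / 2) * f_U_2_1 + (1 / 4) * f_Sa_2_1
  have f_gq_0_1 : gq 0 1 = 0 := by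
    linear_combination -e20 + e36 - e37 - e79 + e81 + 2 * f_Sl_0_1
  have f_g_1 : g 1 = 0 := by
    linear_combination e36 - 2 * e37 - (5 / 2) * e57 + (7 / 6) * e58 + (1 / 3) * e60 + e64 + (3 /
        2) * e69 - (1 /
      6) * e70 + e71 - (1 / 3) * e72 + 2 * e78 - (7 / 3) * e79 + e80 + (5 / 3) * e81 + 3 *
      f_Sl_0_1 + f_U_3_1 - f_U_2_1 - f_Pa_1_0
  have f_g_0 : g 0 = 0 := by
    linear_combination e34 - 2 * e57 + (2 / 3) * e58 + (2 / 3) * e60 + e64 - (2 / 3) * e70 + e71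
        + (4 / 3) * e72 +
      (4 / 3) * e79 + (10 / 3) * e81 + 2 * f_Sa_0_0 - 2 * f_Sl_1_0 + 2 * f_U_1_1 - f_Pa_1_0
  have f_Pa_2_1 : Pa 2 1 = 0 := by
    linear_combination -2 * e6 + (1 / 2) * e7 - 2 * e19 - e26 - (1 / 2) * e28 - 2 * e35 + e37 +
        e42 + 2 * e50 + (1
      / 2) * e54 + 5 * e57 - (5 / 3) * e58 + (5 / 2) * e59 - (5 / 3) * e60 - 4 * e62 + (9 / 2) *
      e64 - (1 / 2) * e66 + (5 / 3) * e70 - (4 / 3) * e72 + (5 / 3) * e79 + (5 / 2) * e80 - (4 /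
      3) * e81 - e83 + 3 * e84 - (1 / 2) * f_g_1 + (3 / 2) * f_Sa_2_1 - 2 * f_Sl_0_1 - f_g_0 + 3 *
      f_Sa_2_0 - 5 * f_Sl_1_0 - (5 / 2) * f_Pa_1_0 - 5 * f_U_1_1 + (5 / 2) * f_U_3_1 - (9 / 2) *
      f_U_2_1 + f_Sa_0_0
  have f_SZ_2_0 : SZ 2 0 = 0 := by
    linear_combination -e6 - e35 - e62 + e64 + e72 + 2 * e79 + 4 * e81 - 4 * f_Sl_1_0 - f_U_2_1 +
        f_Sa_2_0
  have f_Sl_0_2 : Sl 0 2 = 0 := by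
    linear_combination e5 - (1 / 2) * e17 + 6 * e23 - e29 - e30 - e39 - e52 + e54 - (1 / 2) * e57
        + (1 / 2) * e58 +
      (7 / 3) * e60 + (1 / 2) * e69 - (1 / 2) * e70 + (14 / 3) * e72 + (14 / 3) * e79 + (35 / 3) *
      e81 - 2 * f_Sl_0_1 + f_Sa_2_1 - 4 * f_Sa_2_2 + 4 * f_U_2_1
  have f_SZ_0_0 : SZ 0 0 = 0 := by
    linear_combination -(1 / 2) * e17 - e18 - e75 - f_SZ_2_0 - 2 * f_Sa_0_0 + 2 * f_Sl_1_0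
  have f_SZ_1_0 : SZ 1 0 = 0 := by
    linear_combination -e26 + e42 + f_Sa_0_0 + 2 * f_Sa_2_0 - f_Sl_1_0
  have f_Sa_1_1 : Sa 1 1 = 0 := by
    linear_combination -e28 + e37 + e42 - e44 + (7 / 2) * e57 - (3 / 2) * e58 - (3 / 2) * e69 +
        (3 / 2) * e70 - e78
      + e79 - e81 - 3 * f_Sl_0_1 - f_Sl_1_0 + f_Sa_2_0 + 3 * f_Sa_2_1
  have f_Sl_2_1 : Sl 2 1 = 0 := by
    linear_combination e37 + e79 - e81 - f_Sl_0_1 + f_Sa_2_1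
  have f_SZ_2_2 : SZ 2 2 = 0 := by
    linear_combination (1 / 2) * e17 - e21 + e74 - e76 - e79 + e81 + f_gq_0_1 - f_SZ_0_0 +
        f_SZ_2_0 - f_Sl_2_1 -
      f_Sa_2_1
  have f_Pa_2_0 : Pa 2 0 = 0 := by
    linear_combination -(1 / 2) * e0 - (1 / 2) * e6 + (1 / 2) * e18 + e19 + e62 - e64 + (1 / 2) *
        f_g_0 + (1 / 2) *
      f_Pa_1_0 + f_Sa_0_0 + (1 / 2) * f_Sa_2_0 - (1 / 2) * f_Sl_1_0 - f_SZ_2_0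
  have f_Pa_0_2 : Pa 0 2 = 0 := by
    linear_combination e52 + 2 * e57 - (2 / 3) * e58 + e59 - (2 / 3) * e60 + (2 / 3) * e70 - (4 /
        3) * e72 - (4 /
      3) * e79 + e80 - (10 / 3) * e81 - 2 * f_U_1_1 + f_U_3_1 - f_U_2_1
  have f_Sa_0_2 : Sa 0 2 = 0 := by
    linear_combination -e5 + (1 / 2) * e17 - 6 * e23 + e39 + e52 - e54 - (7 / 3) * e60 - (14 / 3)
        * e72 - (14 / 3)
      * e79 - (35 / 3) * e81 + 5 * f_Sa_2_2 - 4 * f_U_2_1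
  have f_Sl_1_2 : Sl 1 2 = 0 := by
    linear_combination -e23 - (1 / 3) * e60 - (2 / 3) * e72 - (2 / 3) * e79 - (5 / 3) * e81 +
        f_Sa_2_2 - f_U_2_1
  have f_Sa_1_2 : Sa 1 2 = 0 := by
    linear_combination e5 - (1 / 2) * e17 - e52 + e54 + f_Sa_0_2 + f_SZ_2_2 + f_Sl_0_2 - 5 *
        f_Sl_1_2
  have f_Sl_2_0 : Sl 2 0 = 0 := by
    linear_combination -e19 - f_Sl_1_0 + f_SZ_2_0
  have f_SZ_1_2 : SZ 1 2 = 0 := by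
    linear_combination e14 - e15 - e16 + (1 / 2) * e17 - 2 * e74 + 3 * f_SZ_0_0 + f_SZ_1_0 - 2 *
        f_SZ_2_0
  have f_U_2_0 : U 2 0 = 0 := by
    linear_combination -(3 / 2) * e57 + (1 / 2) * e58 + e64 + (1 / 2) * e69 - (1 / 2) * e70 + e71
        + e78 + 2 * e80 -
      f_Pa_1_0 - 2 * f_U_2_1
  have f_U_2_2 : U 2 2 = 0 := by
    linear_combination (1 / 3) * e60 + (2 / 3) * e72 + (2 / 3) * e79 - e80 + (5 / 3) * e81 +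
        f_U_1_1 + f_U_2_1
  have f_U_0_1 : U 0 1 = 0 := by
    linear_combination -(1 / 3) * e60 - (2 / 3) * e72 - (2 / 3) * e79 - (5 / 3) * e81
  have f_U_3_3 : U 3 3 = 0 := by
    linear_combination e72 + e79 + 2 * e81 + f_U_1_1 - f_U_3_1
  have f_g_2 : g 2 = 0 := by
    linear_combination e31 - f_Sl_0_2 + f_U_3_1
  have f_Sa_1_0 : Sa 1 0 = 0 := by
    linear_combination -e6 - e62 + e64 + f_Sa_2_0 - 3 * f_Sl_1_0 - f_Sl_2_0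
  have f_Pa_2_2 : Pa 2 2 = 0 := by
    linear_combination (1 / 2) * e11 - (1 / 2) * e52 + (1 / 2) * e54 + (1 / 2) * f_g_2 + (1 / 2)
        * f_Sa_1_2 - (1 /
      2) * f_SZ_2_2 - (1 / 2) * f_Sl_0_2 + (1 / 2) * f_Pa_0_2 + f_Sl_1_2
  have f_SZ_2_1 : SZ 2 1 = 0 := by
    linear_combination e21 + e79 - e81 + f_Sl_2_1 + f_Sa_2_1
  have f_SZ_3_1 : SZ 3 1 = 0 := by
    linear_combination -e15 + e74 + 2 * f_SZ_0_0 + f_SZ_2_1 - f_SZ_1_0 + f_SZ_2_0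
  have f_U_0_3 : U 0 3 = 0 := by
    linear_combination -e45 - e79 + f_g_1 - f_Sl_0_1 + f_Sa_2_1 + f_U_3_3
  have f_gq_0_2 : gq 0 2 = 0 := by
    linear_combination -e47 + f_Sl_0_2 - 2 * f_Sl_1_2 + f_Sa_2_2 - f_U_2_1
  have f_U_1_2 : U 1 2 = 0 := by
    linear_combination (1 / 2) * e57 - (1 / 6) * e58 - (1 / 2) * e69 + (1 / 6) * e70 - e78 +
        f_U_2_2 + f_U_2_0
  have f_U_1_0 : U 1 0 = 0 := by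
    linear_combination (1 / 2) * e57 - (1 / 2) * e58 - (1 / 2) * e69 - (1 / 2) * e70 + f_U_3_3
  have f_U_3_2 : U 3 2 = 0 := by
    linear_combination e57 - (1 / 3) * e58 + (1 / 3) * e70
  have f_U_0_0 : U 0 0 = 0 := by
    linear_combination -(1 / 3) * e58 - (2 / 3) * e70 + f_U_3_3
  have f_U_3_0 : U 3 0 = 0 := by
    linear_combination e70 + f_U_1_0 - f_U_3_3
  have f_SZ_0_1 : SZ 0 1 = 0 := by
    linear_combination -e74 + f_SZ_0_0 - f_SZ_2_0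
  have f_Pa_0_1 : Pa 0 1 = 0 := by
    linear_combination e50 - e52 - e62 + e64 - f_Pa_1_0 + f_Pa_0_2
  have f_SZ_1_1 : SZ 1 1 = 0 := by
    linear_combination -e28 - f_Sl_0_1 + 2 * f_Sa_2_1
  have f_gq_0_0 : gq 0 0 = 0 := by
    linear_combination -e18 - 2 * f_Sa_0_0 + 2 * f_Sl_1_0
  have f_Pa_1_1 : Pa 1 1 = 0 := by
    linear_combination e52 - e54 - e64 + e66 - f_Pa_0_2 + f_Pa_1_0
  have f_SZ_3_2 : SZ 3 2 = 0 := by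
    linear_combination -e16 - (1 / 2) * e17 + 2 * f_SZ_0_1 + f_SZ_2_2 - f_SZ_0_0 + f_SZ_1_0
  have f_U_0_2 : U 0 2 = 0 := by
    linear_combination -e42 + f_Sl_1_0 - f_Sa_2_0 - f_U_3_2
  have f_Pa_1_2 : Pa 1 2 = 0 := by
    linear_combination -e52 + e54
  have f_Pa_0_0 : Pa 0 0 = 0 := by
    linear_combination e62 - e64
  have f_Sa_0_1 : Sa 0 1 = 0 := by
    linear_combination e29 + f_Sl_0_1
  have f_SZ_3_0 : SZ 3 0 = 0 := by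
    linear_combination e12 - f_SZ_0_0 + f_SZ_2_0
  have f_SZ_0_2 : SZ 0 2 = 0 := by
    linear_combination (1 / 2) * e17
  have f_U_1_3 : U 1 3 = 0 := by
    linear_combination -e79 - e81
  have f_Sl_0_0 : Sl 0 0 = 0 := by
    linear_combination e83
  have f_Sl_2_2 : Sl 2 2 = 0 := by
    linear_combination e85
  have f_Sl_1_1 : Sl 1 1 = 0 := by
    linear_combination e84
  have f_U_2_3 : U 2 3 = 0 := by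
    linear_combination -e81
  refine ⟨?_, ?_, ?_, ?_, ?_, ?_, ?_⟩
  · funext i0 i1
    fin_cases i0 <;> fin_cases i1
    all_goals first
      | exact f_Sl_0_0
      | exact f_Sl_0_1
      | exact f_Sl_0_2
      | exact f_Sl_1_0
      | exact f_Sl_1_1
      | exact f_Sl_1_2
      | exact f_Sl_2_0
      | exact f_Sl_2_1
      | exact f_Sl_2_2
  · funext i0 i1
    fin_cases i0 <;> fin_cases i1
    all_goals first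
      | exact f_Sa_0_0
      | exact f_Sa_0_1
      | exact f_Sa_0_2
      | exact f_Sa_1_0
      | exact f_Sa_1_1
      | exact f_Sa_1_2
      | exact f_Sa_2_0
      | exact f_Sa_2_1
      | exact f_Sa_2_2
  · funext i0 i1
    fin_cases i0 <;> fin_cases i1
    all_goals first
      | exact f_SZ_0_0
      | exact f_SZ_0_1
      | exact f_SZ_0_2
      | exact f_SZ_1_0
      | exact f_SZ_1_1
      | exact f_SZ_1_2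
      | exact f_SZ_2_0
      | exact f_SZ_2_1
      | exact f_SZ_2_2
      | exact f_SZ_3_0
      | exact f_SZ_3_1
      | exact f_SZ_3_2
  · funext i0 i1
    fin_cases i0 <;> fin_cases i1
    all_goals first
      | exact f_Pa_0_0
      | exact f_Pa_0_1
      | exact f_Pa_0_2
      | exact f_Pa_1_0
      | exact f_Pa_1_1
      | exact f_Pa_1_2
      | exact f_Pa_2_0
      | exact f_Pa_2_1
      | exact f_Pa_2_2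
  · funext i0 i1
    fin_cases i0 <;> fin_cases i1
    all_goals first
      | exact f_U_0_0
      | exact f_U_0_1
      | exact f_U_0_2
      | exact f_U_0_3
      | exact f_U_1_0
      | exact f_U_1_1
      | exact f_U_1_2
      | exact f_U_1_3
      | exact f_U_2_0
      | exact f_U_2_1
      | exact f_U_2_2
      | exact f_U_2_3
      | exact f_U_3_0
      | exact f_U_3_1
      | exact f_U_3_2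
      | exact f_U_3_3
  · funext i0
    fin_cases i0
    all_goals first
      | exact f_g_0
      | exact f_g_1
      | exact f_g_2
  · funext i0 i1
    fin_cases i0 <;> fin_cases i1
    all_goals first
      | exact f_gq_0_0
      | exact f_gq_0_1
      | exact f_gq_0_2

end

end F4

end Pool.Agent.VCU
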