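import Pool.Agent.VCU.F4B

/-!
# The class e_Z, s = 4
-/

set_option autoImplicit false

namespace Pool.Agent.VCU

open Pool.Agent.VCC Pool.Agent.VCT Pool.Agent.VCT.SP_

namespace F4

section

variable {κ : Type*} [Field κ] [CharZero κ]

/-- table -/
def TZa (Sl : Fin 3 → Fin 4 → κ) (SZ : Fin 4 → Fin 4 → κ) (Ul : Fin 4 → Fin 3 → κ) (g : Fin 4 →
    κ) (gq : Fin 1 → Fin 4 → κ) : Fin 2 → Fin 3 → Fin 4 → κ :=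
  ![![![2 * SZ 1 0 - 2 * SZ 3 0 + Sl 1 0 + Ul 3 0 + g 0 - gq 0 0, 2 * SZ 1 1 - 2 * SZ 3 1 + Sl
      1 1 + Ul 2 0 - 2 * Ul 3 0 + g 1 - gq 0 1, 2 * SZ 1 2 - 2 * SZ 3 2 + Sl 1 2 - Ul 0 0 + Ul 1 0
      - Ul 3 0 + g 2 - gq 0 2, 2 * SZ 1 3 - 2 * SZ 3 3 + Sl 1 3 - 3 * Ul 0 0 + 2 * Ul 1 0 - 2 * Ul
      3 0 + g 3 - gq 0 3],
      ![2 * SZ 1 0 - Sl 0 0 + Ul 3 1 - g 0, 2 * SZ 1 1 - Sl 0 1 + Ul 2 1 - 2 * Ul 3 1 - g 1, 2 *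
        SZ 1 2 - Sl 0 2 - Ul 0 1 + Ul 1 1 - Ul 3 1 - g 2, 2 * SZ 1 3 - Sl 0 3 - 3 * Ul 0 1 + 2 *
        Ul 1 1 - 2 * Ul 3 1 - g 3],
      ![-SZ 2 0 + 3 * SZ 3 0 - Sl 0 0 + Sl 1 0 + Ul 3 2 - gq 0 0, -SZ 2 1 + 3 * SZ 3 1 - Sl 0 1
        + Sl 1 1 + Ul 2 2 - 2 * Ul 3 2 - gq 0 1, -SZ 2 2 + 3 * SZ 3 2 - Sl 0 2 + Sl 1 2 - Ul 0 2 +
        Ul 1 2 - Ul 3 2 - gq 0 2, -SZ 2 3 + 3 * SZ 3 3 - Sl 0 3 + Sl 1 3 - 3 * Ul 0 2 + 2 * Ul 1 2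
        - 2 * Ul 3 2 - gq 0 3]],
    ![![-SZ 1 0 + SZ 3 0 - Sl 1 0 + Sl 2 0 + Ul 3 0, -SZ 1 1 + SZ 3 1 - Sl 1 1 + Sl 2 1 + Ul 1 0
      + Ul 2 0 + Ul 3 0, -SZ 1 2 + SZ 3 2 - Sl 1 2 + Sl 2 2 + 2 * Ul 0 0 - 2 * Ul 1 0, -SZ 1 3 +
      SZ 3 3 - Sl 1 3 + Sl 2 3 - Ul 1 0 + Ul 3 0],
      ![-2 * SZ 1 0 + Sl 2 0 + Ul 3 1 + g 0, -2 * SZ 1 1 + Sl 2 1 + Ul 1 1 + Ul 2 1 + Ul 3 1 + g
        1, -2 * SZ 1 2 + Sl 2 2 + 2 * Ul 0 1 - 2 * Ul 1 1 + g 2, -2 * SZ 1 3 + Sl 2 3 - Ul 1 1 +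
        Ul 3 1 + g 3],
      ![2 * SZ 2 0 - Sl 1 0 + Ul 3 2 - g 0 - gq 0 0, 2 * SZ 2 1 - Sl 1 1 + Ul 1 2 + Ul 2 2 + Ul
        3 2 - g 1 - gq 0 1, 2 * SZ 2 2 - Sl 1 2 + 2 * Ul 0 2 - 2 * Ul 1 2 - g 2 - gq 0 2, 2 * SZ 2
        3 - Sl 1 3 - Ul 1 2 + Ul 3 2 - g 3 - gq 0 3]]]

theorem tTZa (Sl : Fin 3 → Fin 4 → κ) (SZ : Fin 4 → Fin 4 → κ) (Ul : Fin 4 → Fin 3 → κ) (g : Fin
    4 → κ) (gq : Fin 1 → Fin 4 → κ) (u : Fin 2) (e : Fin 3) (c : Fin 4) :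
    TZc (gA κ) (dA κ) Sl SZ Ul g gq u e c =
      TZa Sl SZ Ul g gq u e c := by
  simp only [TZc, dA_y, dA_y5, qyA]
  fin_cases u <;> fin_cases e <;> fin_cases c <;>
    simp [TZa, QYA, uu, yA, y5A, Fin.sum_univ_three, Fin.sum_univ_four, Finset.univ_unique,
        Fin.sum_univ_two] <;> ring

/-- table -/
def TZb (Sl : Fin 3 → Fin 4 → κ) (Sa : Fin 3 → Fin 4 → κ) (SZ : Fin 4 → Fin 4 → κ) (Ua : Fin 4 →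
    Fin 3 → κ) (g : Fin 4 → κ) (gq : Fin 1 → Fin 4 → κ) : Fin 2 → Fin 3 → Fin 4 → κ :=
  ![![![Sa 1 0 + 2 * Sl 1 0 - Sl 2 0 + Ua 2 0 + Ua 3 0 + g 0 - gq 0 0, Sa 1 1 + 2 * Sl 1 1 -
      Sl 2 1 + Ua 0 0 - 2 * Ua 1 0 + g 1 - gq 0 1, Sa 1 2 + 2 * Sl 1 2 - Sl 2 2 + Ua 1 0 - 2 * Ua
      3 0 + g 2 - gq 0 2, Sa 1 3 + 2 * Sl 1 3 - Sl 2 3 + Ua 0 0 + g 3 - gq 0 3],
      ![-SZ 0 0 + 2 * SZ 1 0 - Sa 0 0 - 2 * Sl 0 0 + 10 * Sl 1 0 - Sl 2 0 + Ua 2 1 + Ua 3 1 - g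
        0, -SZ 0 1 + 2 * SZ 1 1 - Sa 0 1 - 2 * Sl 0 1 + 10 * Sl 1 1 - Sl 2 1 + Ua 0 1 - 2 * Ua 1 1
        - g 1, -SZ 0 2 + 2 * SZ 1 2 - Sa 0 2 - 2 * Sl 0 2 + 10 * Sl 1 2 - Sl 2 2 + Ua 1 1 - 2 * Ua
        3 1 - g 2, -SZ 0 3 + 2 * SZ 1 3 - Sa 0 3 - 2 * Sl 0 3 + 10 * Sl 1 3 - Sl 2 3 + Ua 0 1 - g
        3],
      ![SZ 0 0 - SZ 2 0 - Sa 0 0 + Sa 1 0 - Sl 0 0 + 5 * Sl 1 0 + Ua 2 2 + Ua 3 2, SZ 0 1 - SZ 2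
        1 - Sa 0 1 + Sa 1 1 - Sl 0 1 + 5 * Sl 1 1 + Ua 0 2 - 2 * Ua 1 2, SZ 0 2 - SZ 2 2 - Sa 0 2
        + Sa 1 2 - Sl 0 2 + 5 * Sl 1 2 + Ua 1 2 - 2 * Ua 3 2, SZ 0 3 - SZ 2 3 - Sa 0 3 + Sa 1 3 -
        Sl 0 3 + 5 * Sl 1 3 + Ua 0 2]],
    ![![-Sa 1 0 + Sa 2 0 - 3 * Sl 1 0 - Sl 2 0, -Sa 1 1 + Sa 2 1 - 3 * Sl 1 1 - Sl 2 1 + Ua 1 0,
      -Sa 1 2 + Sa 2 2 - 3 * Sl 1 2 - Sl 2 2 - Ua 1 0, -Sa 1 3 + Sa 2 3 - 3 * Sl 1 3 - Sl 2 3],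
      ![-SZ 1 0 + Sa 2 0 + Sl 0 0 - 6 * Sl 1 0 - 2 * Sl 2 0 + g 0, -SZ 1 1 + Sa 2 1 + Sl 0 1 - 6
        * Sl 1 1 - 2 * Sl 2 1 + Ua 1 1 + g 1, -SZ 1 2 + Sa 2 2 + Sl 0 2 - 6 * Sl 1 2 - 2 * Sl 2 2
        - Ua 1 1 + g 2, -SZ 1 3 + Sa 2 3 + Sl 0 3 - 6 * Sl 1 3 - 2 * Sl 2 3 + g 3],
      ![SZ 2 0 - Sa 1 0 + Sl 0 0 - 2 * Sl 1 0 - g 0, SZ 2 1 - Sa 1 1 + Sl 0 1 - 2 * Sl 1 1 + Ua
        1 2 - g 1, SZ 2 2 - Sa 1 2 + Sl 0 2 - 2 * Sl 1 2 - Ua 1 2 - g 2, SZ 2 3 - Sa 1 3 + Sl 0 3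
        - 2 * Sl 1 3 - g 3]]]

theorem tTZb (Sl : Fin 3 → Fin 4 → κ) (Sa : Fin 3 → Fin 4 → κ) (SZ : Fin 4 → Fin 4 → κ) (Ua : Fin
    4 → Fin 3 → κ) (g : Fin 4 → κ) (gq : Fin 1 → Fin 4 → κ) (u : Fin 2) (e : Fin 3) (c : Fin 4) :
    TZc (gB κ) (dB κ) Sa SZ Ua g gq u e c +
      ∑ a, Q2 (tr (wlo κ)) (Zol κ u) e a * Sl a c =
      TZb Sl Sa SZ Ua g gq u e c := by
  simp only [TZc, dB_y, dB_y5, qyB]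
  fin_cases u <;> fin_cases e <;> fin_cases c <;>
    simp [TZb, QYB, uu, yB, Q2, tr, wlo, Zol, y5B, Fin.sum_univ_three, Fin.sum_univ_four,
        Finset.univ_unique, Fin.sum_univ_two] <;> ring

/-- table -/
def TZpA (SZ : Fin 4 → Fin 4 → κ) (Ul : Fin 4 → Fin 3 → κ) (gq : Fin 1 → Fin 4 → κ) : Fin 3 → Fin
    4 → κ :=
  ![![-SZ 0 0 - Ul 1 0 + Ul 2 0, -SZ 0 1 - Ul 2 0, -SZ 0 2 - Ul 0 0 + Ul 1 0 + Ul 2 0, -SZ 0 3],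
    ![SZ 0 0 - SZ 2 0 - Ul 1 1 + Ul 2 1, SZ 0 1 - SZ 2 1 - Ul 2 1, SZ 0 2 - SZ 2 2 - Ul 0 1 + Ul
      1 1 + Ul 2 1, SZ 0 3 - SZ 2 3],
    ![-SZ 0 0 - SZ 2 0 - Ul 1 2 + Ul 2 2 + gq 0 0, -SZ 0 1 - SZ 2 1 - Ul 2 2 + gq 0 1, -SZ 0 2 -
      SZ 2 2 - Ul 0 2 + Ul 1 2 + Ul 2 2 + gq 0 2, -SZ 0 3 - SZ 2 3 + gq 0 3]]

theorem tTZpA (SZ : Fin 4 → Fin 4 → κ) (Ul : Fin 4 → Fin 3 → κ) (gq : Fin 1 → Fin 4 → κ) (e : Fin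
    3) (c : Fin 4) :
    PZc (gA κ) (dA κ) SZ Ul gq e c =
      TZpA SZ Ul gq e c := by
  simp only [PZc, dA_p, dA_p5, qpA]
  fin_cases e <;> fin_cases c <;>
    simp [TZpA, QPA, pA, p5A, Fin.sum_univ_three, Fin.sum_univ_four, Finset.univ_unique,
        Fin.sum_univ_two] <;> ring

/-- table -/
def TZrA (Ul : Fin 4 → Fin 3 → κ) : Fin 4 → Fin 3 → Fin 3 → κ :=
  ![![![0, Ul 1 0 - 2 * Ul 2 0, Ul 0 0 - Ul 2 0],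
      ![Ul 1 0 - 2 * Ul 2 0, 2 * Ul 1 1 - 4 * Ul 2 1, Ul 0 1 + Ul 1 2 - Ul 2 1 - 2 * Ul 2 2],
      ![Ul 0 0 - Ul 2 0, Ul 0 1 + Ul 1 2 - Ul 2 1 - 2 * Ul 2 2, 2 * Ul 0 2 - 2 * Ul 2 2]],
    ![![-2 * Ul 0 0 - 2 * Ul 3 0, -Ul 0 1 - Ul 3 1, -Ul 0 2 - Ul 3 0 - Ul 3 2],
      ![-Ul 0 1 - Ul 3 1, 0, -Ul 3 1],
      ![-Ul 0 2 - Ul 3 0 - Ul 3 2, -Ul 3 1, -2 * Ul 3 2]],
    ![![-2 * Ul 1 0 - 2 * Ul 2 0 + 2 * Ul 3 0, Ul 1 0 - Ul 1 1 - 2 * Ul 2 0 - Ul 2 1 + Ul 3 1,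
      -Ul 0 0 - Ul 1 2 - 2 * Ul 2 0 - Ul 2 2 + Ul 3 2],
      ![Ul 1 0 - Ul 1 1 - 2 * Ul 2 0 - Ul 2 1 + Ul 3 1, 2 * Ul 1 1 - 4 * Ul 2 1, -Ul 0 1 + Ul 1
        2 - 2 * Ul 2 1 - 2 * Ul 2 2],
      ![-Ul 0 0 - Ul 1 2 - 2 * Ul 2 0 - Ul 2 2 + Ul 3 2, -Ul 0 1 + Ul 1 2 - 2 * Ul 2 1 - 2 * Ul
        2 2, -2 * Ul 0 2 - 4 * Ul 2 2]],
    ![![-2 * Ul 0 0 - 2 * Ul 3 0, -Ul 0 0 - Ul 0 1 + Ul 1 0 - Ul 2 0 + Ul 3 0 - Ul 3 1, -Ul 0 2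
      - Ul 2 0 - Ul 3 2],
      ![-Ul 0 0 - Ul 0 1 + Ul 1 0 - Ul 2 0 + Ul 3 0 - Ul 3 1, -2 * Ul 0 1 + 2 * Ul 1 1 - 2 * Ul
        2 1 + 2 * Ul 3 1, -Ul 0 2 + Ul 1 2 - Ul 2 1 - Ul 2 2 + Ul 3 2],
      ![-Ul 0 2 - Ul 2 0 - Ul 3 2, -Ul 0 2 + Ul 1 2 - Ul 2 1 - Ul 2 2 + Ul 3 2, -2 * Ul 2 2]]]

theorem tTZrA (Ul : Fin 4 → Fin 3 → κ) (b : Fin 4) (e : Fin 3) (f : Fin 3) :
    - RZc (dA κ) Ul b e f =
      TZrA Ul b e f := by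
  simp only [RZc, dA_r]
  fin_cases b <;> fin_cases e <;> fin_cases f <;>
    simp [TZrA, rA, Fin.sum_univ_four] <;> ring

/-- table -/
def TZpB (SZ : Fin 4 → Fin 4 → κ) (Ua : Fin 4 → Fin 3 → κ) (gq : Fin 1 → Fin 4 → κ) : Fin 3 → Fin
    4 → κ :=
  ![![SZ 0 0 - SZ 2 0 + SZ 3 0 - Ua 0 0 + Ua 1 0 + Ua 2 0 + Ua 3 0, SZ 0 1 - SZ 2 1 + SZ 3 1 -
      Ua 1 0 - Ua 2 0, SZ 0 2 - SZ 2 2 + SZ 3 2 - Ua 0 0 - Ua 3 0, SZ 0 3 - SZ 2 3 + SZ 3 3 + Ua 0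
      0 + Ua 3 0],
    ![-SZ 0 0 + SZ 1 0 - Ua 0 1 + Ua 1 1 + Ua 2 1 + Ua 3 1, -SZ 0 1 + SZ 1 1 - Ua 1 1 - Ua 2 1,
      -SZ 0 2 + SZ 1 2 - Ua 0 1 - Ua 3 1, -SZ 0 3 + SZ 1 3 + Ua 0 1 + Ua 3 1],
    ![2 * SZ 0 0 - Ua 0 2 + Ua 1 2 + Ua 2 2 + Ua 3 2, 2 * SZ 0 1 - Ua 1 2 - Ua 2 2, 2 * SZ 0 2 -
      Ua 0 2 - Ua 3 2, 2 * SZ 0 3 + Ua 0 2 + Ua 3 2]]

theorem tTZpB (SZ : Fin 4 → Fin 4 → κ) (Ua : Fin 4 → Fin 3 → κ) (gq : Fin 1 → Fin 4 → κ) (e : Fin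
    3) (c : Fin 4) :
    PZc (gB κ) (dB κ) SZ Ua gq e c =
      TZpB SZ Ua gq e c := by
  simp only [PZc, dB_p, dB_p5, qpB]
  fin_cases e <;> fin_cases c <;>
    simp [TZpB, QPB, pB, p5B, Fin.sum_univ_three, Fin.sum_univ_four, Finset.univ_unique,
        Fin.sum_univ_two] <;> ring

/-- table -/
def TZrB (Ua : Fin 4 → Fin 3 → κ) : Fin 4 → Fin 3 → Fin 3 → κ :=
  ![![![-4 * Ua 0 0 - 2 * Ua 2 0, -2 * Ua 0 1 - Ua 2 1, -2 * Ua 0 2 - Ua 2 0 - Ua 2 2 + Ua 3 0],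
      ![-2 * Ua 0 1 - Ua 2 1, 0, -Ua 2 1 + Ua 3 1],
      ![-2 * Ua 0 2 - Ua 2 0 - Ua 2 2 + Ua 3 0, -Ua 2 1 + Ua 3 1, -2 * Ua 2 2 + 2 * Ua 3 2]],
    ![![2 * Ua 0 0 - 2 * Ua 1 0 + 2 * Ua 3 0, Ua 0 1 - Ua 1 1 + Ua 3 1, -Ua 0 0 + Ua 0 2 - Ua 1
      0 - Ua 1 2 + Ua 3 2],
      ![Ua 0 1 - Ua 1 1 + Ua 3 1, 0, -Ua 0 1 - Ua 1 1],
      ![-Ua 0 0 + Ua 0 2 - Ua 1 0 - Ua 1 2 + Ua 3 2, -Ua 0 1 - Ua 1 1, -2 * Ua 0 2 - 2 * Ua 1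
        2]],
    ![![-4 * Ua 0 0 - 2 * Ua 2 0, Ua 0 0 - 2 * Ua 0 1 - Ua 1 0 - Ua 2 1, Ua 0 0 - 2 * Ua 0 2 -
      Ua 2 0 - Ua 2 2 + Ua 3 0],
      ![Ua 0 0 - 2 * Ua 0 1 - Ua 1 0 - Ua 2 1, 2 * Ua 0 1 - 2 * Ua 1 1, Ua 0 1 + Ua 0 2 - Ua 1 2
        - Ua 2 1 + Ua 3 1],
      ![Ua 0 0 - 2 * Ua 0 2 - Ua 2 0 - Ua 2 2 + Ua 3 0, Ua 0 1 + Ua 0 2 - Ua 1 2 - Ua 2 1 + Ua 3
        1, 2 * Ua 0 2 - 2 * Ua 2 2 + 2 * Ua 3 2]],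
    ![![0, Ua 2 0 + Ua 3 0, Ua 1 0 + Ua 2 0 + Ua 3 0],
      ![Ua 2 0 + Ua 3 0, 2 * Ua 2 1 + 2 * Ua 3 1, Ua 1 1 + Ua 2 1 + Ua 2 2 + Ua 3 1 + Ua 3 2],
      ![Ua 1 0 + Ua 2 0 + Ua 3 0, Ua 1 1 + Ua 2 1 + Ua 2 2 + Ua 3 1 + Ua 3 2, 2 * Ua 1 2 + 2 *
        Ua 2 2 + 2 * Ua 3 2]]]

theorem tTZrB (Ua : Fin 4 → Fin 3 → κ) (b : Fin 4) (e : Fin 3) (f : Fin 3) :
    - RZc (dB κ) Ua b e f =
      TZrB Ua b e f := by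
  simp only [RZc, dB_r]
  fin_cases b <;> fin_cases e <;> fin_cases f <;>
    simp [TZrB, rB, Fin.sum_univ_four] <;> ring

/-- table -/
def TZz (Sl : Fin 3 → Fin 4 → κ) (Sa : Fin 3 → Fin 4 → κ) (SZ : Fin 4 → Fin 4 → κ) (g : Fin 4 →
    κ) (gq : Fin 1 → Fin 4 → κ) : Fin 4 → Fin 4 → Fin 4 → κ :=
  ![![![4 * Sa 0 0 - 2 * Sa 2 0 - 4 * Sl 1 0 + 2 * Sl 2 0 + 2 * g 0, 2 * Sa 0 1 + Sa 2 0 - Sa
      2 1 - Sl 1 0 - 2 * Sl 1 1 + Sl 2 1 + g 1, -2 * Sa 0 0 + 2 * Sa 0 2 - Sa 2 2 + 2 * Sl 1 0 - 2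
      * Sl 1 2 + Sl 2 2 + g 2 - gq 0 0, SZ 2 0 + 2 * Sa 0 3 - Sa 2 0 - Sa 2 3 - 2 * Sl 1 3 - Sl 2
      0 + Sl 2 3 + g 3],
      ![2 * Sa 0 1 + Sa 2 0 - Sa 2 1 - Sl 1 0 - 2 * Sl 1 1 + Sl 2 1 + g 1, 2 * Sa 2 1 - 2 * Sl 1
        1, -2 * Sa 0 1 + Sa 2 2 + 2 * Sl 1 1 - Sl 1 2 - gq 0 1, SZ 2 1 - Sa 2 1 + Sa 2 3 - Sl 1 3
        - Sl 2 1],
      ![-2 * Sa 0 0 + 2 * Sa 0 2 - Sa 2 2 + 2 * Sl 1 0 - 2 * Sl 1 2 + Sl 2 2 + g 2 - gq 0 0, -2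
        * Sa 0 1 + Sa 2 2 + 2 * Sl 1 1 - Sl 1 2 - gq 0 1, -4 * Sa 0 2 + 4 * Sl 1 2 - 2 * gq 0 2,
        SZ 2 2 - 2 * Sa 0 3 - Sa 2 2 + 2 * Sl 1 3 - Sl 2 2 - gq 0 3],
      ![SZ 2 0 + 2 * Sa 0 3 - Sa 2 0 - Sa 2 3 - 2 * Sl 1 3 - Sl 2 0 + Sl 2 3 + g 3, SZ 2 1 - Sa
        2 1 + Sa 2 3 - Sl 1 3 - Sl 2 1, SZ 2 2 - 2 * Sa 0 3 - Sa 2 2 + 2 * Sl 1 3 - Sl 2 2 - gq 0
        3, 2 * SZ 2 3 - 2 * Sa 2 3 - 2 * Sl 2 3]],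
    ![![-2 * Sa 0 0 + 2 * Sa 2 0 - 2 * Sl 0 0, -Sa 0 1 + Sa 2 1 + Sl 0 0 - Sl 0 1 + g 0, -SZ 1 0
      + Sa 0 0 - Sa 0 2 + Sa 2 0 + Sa 2 2 - Sl 0 2, Sa 0 0 - Sa 0 3 + Sa 2 3 - Sl 0 0 - Sl 0 3],
      ![-Sa 0 1 + Sa 2 1 + Sl 0 0 - Sl 0 1 + g 0, 2 * Sl 0 1 + 2 * g 1, -SZ 1 1 + Sa 0 1 + Sa 2
        1 + Sl 0 2 + g 2, Sa 0 1 - Sl 0 1 + Sl 0 3 + g 3],
      ![-SZ 1 0 + Sa 0 0 - Sa 0 2 + Sa 2 0 + Sa 2 2 - Sl 0 2, -SZ 1 1 + Sa 0 1 + Sa 2 1 + Sl 0 2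
        + g 2, -2 * SZ 1 2 + 2 * Sa 0 2 + 2 * Sa 2 2, -SZ 1 3 + Sa 0 2 + Sa 0 3 + Sa 2 3 - Sl 0
        2],
      ![Sa 0 0 - Sa 0 3 + Sa 2 3 - Sl 0 0 - Sl 0 3, Sa 0 1 - Sl 0 1 + Sl 0 3 + g 3, -SZ 1 3 + Sa
        0 2 + Sa 0 3 + Sa 2 3 - Sl 0 2, 2 * Sa 0 3 - 2 * Sl 0 3]],
    ![![4 * Sa 0 0 - 4 * Sa 2 0 - 2 * Sl 0 0 - 4 * Sl 1 0 + 4 * Sl 2 0, -SZ 2 0 + 2 * Sa 0 1 +
      Sa 1 0 + Sa 2 0 - 2 * Sa 2 1 - Sl 0 0 - Sl 0 1 - Sl 1 0 - 2 * Sl 1 1 + 2 * Sl 2 1, -2 * Sa 0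
      0 + 2 * Sa 0 2 - 2 * Sa 2 2 - Sl 0 2 + 2 * Sl 1 0 - 2 * Sl 1 2 + 2 * Sl 2 2 + g 0, 2 * Sa 0
      3 - Sa 2 0 - 2 * Sa 2 3 + Sl 0 0 - Sl 0 3 - 2 * Sl 1 3 + Sl 2 0 + 2 * Sl 2 3],
      ![-SZ 2 0 + 2 * Sa 0 1 + Sa 1 0 + Sa 2 0 - 2 * Sa 2 1 - Sl 0 0 - Sl 0 1 - Sl 1 0 - 2 * Sl
        1 1 + 2 * Sl 2 1, -2 * SZ 2 1 + 2 * Sa 1 1 + 2 * Sa 2 1 - 2 * Sl 0 1 - 2 * Sl 1 1, -SZ 2 2
        - 2 * Sa 0 1 + Sa 1 2 + Sa 2 2 - Sl 0 2 + 2 * Sl 1 1 - Sl 1 2 + g 1, -SZ 2 3 + Sa 1 3 - Sa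
        2 1 + Sa 2 3 + Sl 0 1 - Sl 0 3 - Sl 1 3 + Sl 2 1],
      ![-2 * Sa 0 0 + 2 * Sa 0 2 - 2 * Sa 2 2 - Sl 0 2 + 2 * Sl 1 0 - 2 * Sl 1 2 + 2 * Sl 2 2 +
        g 0, -SZ 2 2 - 2 * Sa 0 1 + Sa 1 2 + Sa 2 2 - Sl 0 2 + 2 * Sl 1 1 - Sl 1 2 + g 1, -4 * Sa
        0 2 + 4 * Sl 1 2 + 2 * g 2, -2 * Sa 0 3 - Sa 2 2 + Sl 0 2 + 2 * Sl 1 3 + Sl 2 2 + g 3],
      ![2 * Sa 0 3 - Sa 2 0 - 2 * Sa 2 3 + Sl 0 0 - Sl 0 3 - 2 * Sl 1 3 + Sl 2 0 + 2 * Sl 2 3,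
        -SZ 2 3 + Sa 1 3 - Sa 2 1 + Sa 2 3 + Sl 0 1 - Sl 0 3 - Sl 1 3 + Sl 2 1, -2 * Sa 0 3 - Sa 2
        2 + Sl 0 2 + 2 * Sl 1 3 + Sl 2 2 + g 3, -2 * Sa 2 3 + 2 * Sl 0 3 + 2 * Sl 2 3]],
    ![![2 * SZ 1 0 - 2 * Sa 1 0 + 2 * Sa 2 0 - 2 * Sl 0 0 - 2 * Sl 1 0 + 2 * Sl 2 0, SZ 1 1 - Sa
      1 1 + Sa 2 0 + Sa 2 1 + Sl 0 0 - Sl 0 1 - 2 * Sl 1 0 - Sl 1 1 + Sl 2 1 - gq 0 0, SZ 1 2 - Sa
      1 2 - Sa 2 0 + Sa 2 2 - Sl 0 2 + Sl 1 0 - Sl 1 2 + Sl 2 2, SZ 1 3 - Sa 1 3 + Sa 2 0 + Sa 2 3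
      - Sl 0 0 - Sl 0 3 - Sl 1 3 + Sl 2 3 + g 0],
      ![SZ 1 1 - Sa 1 1 + Sa 2 0 + Sa 2 1 + Sl 0 0 - Sl 0 1 - 2 * Sl 1 0 - Sl 1 1 + Sl 2 1 - gq
        0 0, 2 * Sa 2 1 + 2 * Sl 0 1 - 4 * Sl 1 1 - 2 * gq 0 1, -Sa 2 1 + Sa 2 2 + Sl 0 2 + Sl 1 1
        - 2 * Sl 1 2 - gq 0 2, Sa 2 1 + Sa 2 3 - Sl 0 1 + Sl 0 3 - 2 * Sl 1 3 + g 1 - gq 0 3],
      ![SZ 1 2 - Sa 1 2 - Sa 2 0 + Sa 2 2 - Sl 0 2 + Sl 1 0 - Sl 1 2 + Sl 2 2, -Sa 2 1 + Sa 2 2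
        + Sl 0 2 + Sl 1 1 - 2 * Sl 1 2 - gq 0 2, -2 * Sa 2 2 + 2 * Sl 1 2, Sa 2 2 - Sa 2 3 - Sl 0
        2 + Sl 1 3 + g 2],
      ![SZ 1 3 - Sa 1 3 + Sa 2 0 + Sa 2 3 - Sl 0 0 - Sl 0 3 - Sl 1 3 + Sl 2 3 + g 0, Sa 2 1 + Sa
        2 3 - Sl 0 1 + Sl 0 3 - 2 * Sl 1 3 + g 1 - gq 0 3, Sa 2 2 - Sa 2 3 - Sl 0 2 + Sl 1 3 + g
        2, 2 * Sa 2 3 - 2 * Sl 0 3 + 2 * g 3]]]

theorem tTZz (Sl : Fin 3 → Fin 4 → κ) (Sa : Fin 3 → Fin 4 → κ) (SZ : Fin 4 → Fin 4 → κ) (g : Fin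
    4 → κ) (gq : Fin 1 → Fin 4 → κ) (b : Fin 4) (c : Fin 4) (d : Fin 4) :
    ZBc (gA κ) (gB κ) hz4 qz4 (dA κ) (dB κ) (kk κ) Sl Sa SZ g gq b c d +
      ZBc (gA κ) (gB κ) hz4 qz4 (dA κ) (dB κ) (kk κ) Sl Sa SZ g gq b d c =
      TZz Sl Sa SZ g gq b c d := by
  simp only [ZBc, dA_r, dB_r, qrA, qrB, ka]
  fin_cases b <;> fin_cases c <;> fin_cases d <;>
    simp [TZz, QRA, QRB, KA, kk, Fin.sum_univ_three, Fin.sum_univ_four, Finset.univ_unique,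
        Fin.sum_univ_two] <;> ring

theorem coreZ : CoreZ (gA κ) (gB κ) hz4 qz4 qz4' (dA κ) (dB κ) (kk κ) := by
  intro Sl Sa SZ Ul Ua g gq h1 h2 h3 h4 h5 hn
  simp only [tTZa] at h1
  simp only [tTZb] at h2
  simp only [tTZpA] at h3
  simp only [tTZpB] at h4
  simp only [tTZrA, tTZrB, tTZz, tTR] at h5
  obtain ⟨a0_0, a0_1, a0_2, a0_3, a0_4, a0_5, a0_6, a0_7⟩ := inspA (h1 0)
  obtain ⟨b0_0, b0_1, b0_2, b0_3, b0_4, b0_5, b0_6, b0_7⟩ := inspB (h2 0)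
  obtain ⟨a1_0, a1_1, a1_2, a1_3, a1_4, a1_5, a1_6, a1_7⟩ := inspA (h1 1)
  obtain ⟨b1_0, b1_1, b1_2, b1_3, b1_4, b1_5, b1_6, b1_7⟩ := inspB (h2 1)
  obtain ⟨c_0, c_1, c_2, c_3, c_4, c_5, c_6, c_7⟩ := inspA h3
  obtain ⟨d_0, d_1, d_2, d_3, d_4, d_5, d_6, d_7⟩ := inspB h4
  obtain ⟨mu0, nu0, r0, s0, t0⟩ := h5 0
  obtain ⟨mu1, nu1, r1, s1, t1⟩ := h5 1
  obtain ⟨mu2, nu2, r2, s2, t2⟩ := h5 2
  obtain ⟨mu3, nu3, r3, s3, t3⟩ := h5 3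
  have e0 : (2 * SZ 1 2 - 2 * SZ 3 2 + Sl 1 2 - Ul 0 0 + Ul 1 0 - Ul 3 0 + g 2 - gq 0 2) = 0 := a0_0
  have e1 : (2 * SZ 1 1 - 2 * SZ 3 1 + Sl 1 1 + Ul 2 0 - 2 * Ul 3 0 + g 1 - gq 0 1) + (2 * SZ 1 3
      - 2 *
      SZ 3 3 + Sl 1 3 - 3 * Ul 0 0 + 2 * Ul 1 0 - 2 * Ul 3 0 + g 3 - gq 0 3) = 0 := a0_1
  have e3 : (2 * SZ 1 3 - Sl 0 3 - 3 * Ul 0 1 + 2 * Ul 1 1 - 2 * Ul 3 1 - g 3) = 0 := a0_3
  have e4 : (2 * SZ 1 0 - Sl 0 0 + Ul 3 1 - g 0) + (-SZ 2 0 + 3 * SZ 3 0 - Sl 0 0 + Sl 1 0 + Ul 3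
      2 - gq
      0 0) = 0 := a0_4
  have e5 : (-SZ 2 1 + 3 * SZ 3 1 - Sl 0 1 + Sl 1 1 + Ul 2 2 - 2 * Ul 3 2 - gq 0 1) = 0 := a0_5
  have e8 : (Sa 1 1 + 2 * Sl 1 1 - Sl 2 1 + Ua 0 0 - 2 * Ua 1 0 + g 1 - gq 0 1) = 0 := b0_0
  have e11 : (-SZ 0 3 + 2 * SZ 1 3 - Sa 0 3 - 2 * Sl 0 3 + 10 * Sl 1 3 - Sl 2 3 + Ua 0 1 - g 3) =
      0 :=
      b0_3
  have e12 : -(Sa 1 0 + 2 * Sl 1 0 - Sl 2 0 + Ua 2 0 + Ua 3 0 + g 0 - gq 0 0) + (-SZ 0 0 + 2 * SZ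
      1 0 -
      Sa 0 0 - 2 * Sl 0 0 + 10 * Sl 1 0 - Sl 2 0 + Ua 2 1 + Ua 3 1 - g 0) + (SZ 0 0 - SZ 2 0 - Sa
      0 0 + Sa 1 0 - Sl 0 0 + 5 * Sl 1 0 + Ua 2 2 + Ua 3 2) = 0 := b0_4
  have e13 : -(Sa 1 3 + 2 * Sl 1 3 - Sl 2 3 + Ua 0 0 + g 3 - gq 0 3) + (SZ 0 1 - SZ 2 1 - Sa 0 1
      + Sa 1 1
      - Sl 0 1 + 5 * Sl 1 1 + Ua 0 2 - 2 * Ua 1 2) = 0 := b0_5
  have e16 : (-SZ 1 2 + SZ 3 2 - Sl 1 2 + Sl 2 2 + 2 * Ul 0 0 - 2 * Ul 1 0) = 0 := a1_0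
  have e17 : (-SZ 1 1 + SZ 3 1 - Sl 1 1 + Sl 2 1 + Ul 1 0 + Ul 2 0 + Ul 3 0) + (-SZ 1 3 + SZ 3 3
      - Sl 1 3
      + Sl 2 3 - Ul 1 0 + Ul 3 0) = 0 := a1_1
  have e19 : (-2 * SZ 1 3 + Sl 2 3 - Ul 1 1 + Ul 3 1 + g 3) = 0 := a1_3
  have e20 : (-2 * SZ 1 0 + Sl 2 0 + Ul 3 1 + g 0) + (2 * SZ 2 0 - Sl 1 0 + Ul 3 2 - g 0 - gq 0
      0) = 0 :=
      a1_4
  have e21 : (2 * SZ 2 1 - Sl 1 1 + Ul 1 2 + Ul 2 2 + Ul 3 2 - g 1 - gq 0 1) = 0 := a1_5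
  have e23 : (-SZ 1 0 + SZ 3 0 - Sl 1 0 + Sl 2 0 + Ul 3 0) - (-SZ 1 1 + SZ 3 1 - Sl 1 1 + Sl 2 1
      + Ul 1 0
      + Ul 2 0 + Ul 3 0) + (-2 * SZ 1 1 + Sl 2 1 + Ul 1 1 + Ul 2 1 + Ul 3 1 + g 1) + (2 * SZ 2 3 -
      Sl 1 3 - Ul 1 2 + Ul 3 2 - g 3 - gq 0 3) = 0 := a1_7
  have e24 : (-Sa 1 1 + Sa 2 1 - 3 * Sl 1 1 - Sl 2 1 + Ua 1 0) = 0 := b1_0
  have e25 : (-Sa 1 0 + Sa 2 0 - 3 * Sl 1 0 - Sl 2 0) + (-Sa 1 2 + Sa 2 2 - 3 * Sl 1 2 - Sl 2 2 -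
      Ua 1 0)
      = 0 := b1_1
  have e27 : (-SZ 1 3 + Sa 2 3 + Sl 0 3 - 6 * Sl 1 3 - 2 * Sl 2 3 + g 3) = 0 := b1_3
  have e28 : -(-Sa 1 0 + Sa 2 0 - 3 * Sl 1 0 - Sl 2 0) + (-SZ 1 0 + Sa 2 0 + Sl 0 0 - 6 * Sl 1 0
      - 2 * Sl
      2 0 + g 0) + (SZ 2 0 - Sa 1 0 + Sl 0 0 - 2 * Sl 1 0 - g 0) = 0 := b1_4
  have e29 : -(-Sa 1 3 + Sa 2 3 - 3 * Sl 1 3 - Sl 2 3) + (SZ 2 1 - Sa 1 1 + Sl 0 1 - 2 * Sl 1 1 +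
      Ua 1 2
      - g 1) = 0 := b1_5
  have e31 : (-SZ 1 0 + Sa 2 0 + Sl 0 0 - 6 * Sl 1 0 - 2 * Sl 2 0 + g 0) + (SZ 2 3 - Sa 1 3 + Sl
      0 3 - 2
      * Sl 1 3 - g 3) = 0 := b1_7
  have e32 : (-SZ 0 2 - Ul 0 0 + Ul 1 0 + Ul 2 0) = 0 := c_0
  have e33 : (-SZ 0 1 - Ul 2 0) + (-SZ 0 3) = 0 := c_1
  have e34 : (SZ 0 0 - SZ 2 0 - Ul 1 1 + Ul 2 1) + (SZ 0 2 - SZ 2 2 - Ul 0 1 + Ul 1 1 + Ul 2 1) =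
      0 :=
      c_2
  have e35 : (SZ 0 3 - SZ 2 3) = 0 := c_3
  have e36 : (SZ 0 0 - SZ 2 0 - Ul 1 1 + Ul 2 1) + (-SZ 0 0 - SZ 2 0 - Ul 1 2 + Ul 2 2 + gq 0 0)
      = 0 :=
      c_4
  have e37 : (-SZ 0 1 - SZ 2 1 - Ul 2 2 + gq 0 1) = 0 := c_5
  have e39 : (-SZ 0 0 - Ul 1 0 + Ul 2 0) - (-SZ 0 1 - Ul 2 0) + (SZ 0 1 - SZ 2 1 - Ul 2 1) + (-SZ
      0 3 -
      SZ 2 3 + gq 0 3) = 0 := c_7
  have e40 : (SZ 0 1 - SZ 2 1 + SZ 3 1 - Ua 1 0 - Ua 2 0) = 0 := d_0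
  have e41 : (SZ 0 0 - SZ 2 0 + SZ 3 0 - Ua 0 0 + Ua 1 0 + Ua 2 0 + Ua 3 0) + (SZ 0 2 - SZ 2 2 +
      SZ 3 2 -
      Ua 0 0 - Ua 3 0) = 0 := d_1
  have e42 : (-SZ 0 2 + SZ 1 2 - Ua 0 1 - Ua 3 1) = 0 := d_2
  have e43 : (-SZ 0 3 + SZ 1 3 + Ua 0 1 + Ua 3 1) = 0 := d_3
  have e44 : -(SZ 0 0 - SZ 2 0 + SZ 3 0 - Ua 0 0 + Ua 1 0 + Ua 2 0 + Ua 3 0) + (-SZ 0 0 + SZ 1 0
      - Ua 0 1
      + Ua 1 1 + Ua 2 1 + Ua 3 1) + (2 * SZ 0 0 - Ua 0 2 + Ua 1 2 + Ua 2 2 + Ua 3 2) = 0 := d_4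
  have e45 : -(SZ 0 3 - SZ 2 3 + SZ 3 3 + Ua 0 0 + Ua 3 0) + (2 * SZ 0 1 - Ua 1 2 - Ua 2 2) = 0
      := d_5
  have e46 : -(-SZ 0 1 + SZ 1 1 - Ua 1 1 - Ua 2 1) + (2 * SZ 0 2 - Ua 0 2 - Ua 3 2) = 0 := d_6
  have e47 : (-SZ 0 0 + SZ 1 0 - Ua 0 1 + Ua 1 1 + Ua 2 1 + Ua 3 1) + (2 * SZ 0 3 + Ua 0 2 + Ua 3
      2) = 0
      := d_7
  have e48 : Ul 1 0 - 2 * Ul 2 0 = mu0 := r0 0 1 (by decide)
  have e49 : -2 * Ua 0 1 - Ua 2 1 = mu0 := s0 0 1 (by decide)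
  have e50 : Ul 0 0 - Ul 2 0 = mu0 := r0 0 2 (by decide)
  have e51 : -2 * Ua 0 2 - Ua 2 0 - Ua 2 2 + Ua 3 0 = mu0 := s0 0 2 (by decide)
  have e52 : Ul 0 1 + Ul 1 2 - Ul 2 1 - 2 * Ul 2 2 = mu0 := r0 1 2 (by decide)
  have e53 : -Ua 2 1 + Ua 3 1 = mu0 := s0 1 2 (by decide)
  have e56 : SZ 2 0 + 2 * Sa 0 3 - Sa 2 0 - Sa 2 3 - 2 * Sl 1 3 - Sl 2 0 + Sl 2 3 + g 3 = 0 := t0
      0 3 (by
      decide)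
  have e57 : -2 * Sa 0 1 + Sa 2 2 + 2 * Sl 1 1 - Sl 1 2 - gq 0 1 = mu0 := t0 1 2 (by decide)
  have e58 : SZ 2 1 - Sa 2 1 + Sa 2 3 - Sl 1 3 - Sl 2 1 = 0 := t0 1 3 (by decide)
  have e60 : -Ul 0 1 - Ul 3 1 = mu1 := r1 0 1 (by decide)
  have e62 : -Ul 0 2 - Ul 3 0 - Ul 3 2 = mu1 := r1 0 2 (by decide)
  have e63 : -Ua 0 0 + Ua 0 2 - Ua 1 0 - Ua 1 2 + Ua 3 2 = mu1 := s1 0 2 (by decide)
  have e64 : -Ul 3 1 = mu1 := r1 1 2 (by decide)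
  have e65 : -Ua 0 1 - Ua 1 1 = mu1 := s1 1 2 (by decide)
  have e67 : -SZ 1 0 + Sa 0 0 - Sa 0 2 + Sa 2 0 + Sa 2 2 - Sl 0 2 = 0 := t1 0 2 (by decide)
  have e68 : Sa 0 0 - Sa 0 3 + Sa 2 3 - Sl 0 0 - Sl 0 3 = 0 := t1 0 3 (by decide)
  have e69 : -SZ 1 1 + Sa 0 1 + Sa 2 1 + Sl 0 2 + g 2 = mu1 := t1 1 2 (by decide)
  have e70 : Sa 0 1 - Sl 0 1 + Sl 0 3 + g 3 = 0 := t1 1 3 (by decide)
  have e72 : Ul 1 0 - Ul 1 1 - 2 * Ul 2 0 - Ul 2 1 + Ul 3 1 = mu2 := r2 0 1 (by decide)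
  have e74 : -Ul 0 0 - Ul 1 2 - 2 * Ul 2 0 - Ul 2 2 + Ul 3 2 = mu2 := r2 0 2 (by decide)
  have e75 : Ua 0 0 - 2 * Ua 0 2 - Ua 2 0 - Ua 2 2 + Ua 3 0 = mu2 := s2 0 2 (by decide)
  have e76 : -Ul 0 1 + Ul 1 2 - 2 * Ul 2 1 - 2 * Ul 2 2 = mu2 := r2 1 2 (by decide)
  have e77 : Ua 0 1 + Ua 0 2 - Ua 1 2 - Ua 2 1 + Ua 3 1 = mu2 := s2 1 2 (by decide)
  have e79 : -2 * Sa 0 0 + 2 * Sa 0 2 - 2 * Sa 2 2 - Sl 0 2 + 2 * Sl 1 0 - 2 * Sl 1 2 + 2 * Sl 2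
      2 + g 0
      = 0 := t2 0 2 (by decide)
  have e80 : 2 * Sa 0 3 - Sa 2 0 - 2 * Sa 2 3 + Sl 0 0 - Sl 0 3 - 2 * Sl 1 3 + Sl 2 0 + 2 * Sl 2
      3 = 0 :=
      t2 0 3 (by decide)
  have e82 : -SZ 2 3 + Sa 1 3 - Sa 2 1 + Sa 2 3 + Sl 0 1 - Sl 0 3 - Sl 1 3 + Sl 2 1 = 0 := t2 1 3
      (by
      decide)
  have e84 : -Ul 0 0 - Ul 0 1 + Ul 1 0 - Ul 2 0 + Ul 3 0 - Ul 3 1 = mu3 := r3 0 1 (by decide)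
  have e85 : Ua 2 0 + Ua 3 0 = mu3 := s3 0 1 (by decide)
  have e86 : -Ul 0 2 - Ul 2 0 - Ul 3 2 = mu3 := r3 0 2 (by decide)
  have e87 : Ua 1 0 + Ua 2 0 + Ua 3 0 = mu3 := s3 0 2 (by decide)
  have e88 : -Ul 0 2 + Ul 1 2 - Ul 2 1 - Ul 2 2 + Ul 3 2 = mu3 := r3 1 2 (by decide)
  have e89 : Ua 1 1 + Ua 2 1 + Ua 2 2 + Ua 3 1 + Ua 3 2 = mu3 := s3 1 2 (by decide)
  have e91 : SZ 1 2 - Sa 1 2 - Sa 2 0 + Sa 2 2 - Sl 0 2 + Sl 1 0 - Sl 1 2 + Sl 2 2 = 0 := t3 0 2 (by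
      decide)
  have e92 : SZ 1 3 - Sa 1 3 + Sa 2 0 + Sa 2 3 - Sl 0 0 - Sl 0 3 - Sl 1 3 + Sl 2 3 + g 0 = 0 :=
      t3 0 3
      (by decide)
  have e93 : -Sa 2 1 + Sa 2 2 + Sl 0 2 + Sl 1 1 - 2 * Sl 1 2 - gq 0 2 = mu3 := t3 1 2 (by decide)
  have e94 : Sa 2 1 + Sa 2 3 - Sl 0 1 + Sl 0 3 - 2 * Sl 1 3 + g 1 - gq 0 3 = 0 := t3 1 3 (by decide)
  have e96 : SZ 0 0 = 0 := hn 0
  have e97 : SZ 1 1 = 0 := hn 1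
  have e98 : SZ 2 2 = 0 := hn 2
  have e99 : SZ 3 3 = 0 := hn 3
  have f_Sl_0_1 : Sl 0 1 = 0 := by
    linear_combination (6525845 / 1344358) * e1 - (15311625 / 672179) * e3 + (710295 / 672179) *
        e4 - (1887525 /
      2688716) * e5 + (24312123 / 2688716) * e8 + (7323377 / 672179) * e11 + (5902787 / 1344358) *
      e12 + (8437437 / 1344358) * e13 + (7201994 / 672179) * e17 - (24525581 / 1344358) * e19 +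
      (1454747 / 672179) * e20 + (3342096 / 672179) * e21 - (5598561 / 2688716) * e23 + (7006933 /
      1344358) * e24 + (15739743 / 1344358) * e27 + (4854109 / 2688716) * e28 + (27173131 /
      2688716) * e29 + (21970445 / 2688716) * e31 + (2893965 / 1344358) * e32 - (27598187 /
      2688716) * e33 - (1015335 / 1344358) * e35 - (1572703 / 1344358) * e36 + (12211168 / 672179)
      * e37 - (322741 / 1344358) * e39 - (1320291 / 1344358) * e40 - (4494141 / 2688716) * e43 +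
      (2924979 / 2688716) * e44 + (676149 / 672179) * e45 + (2893965 / 2688716) * e46 + (322741 /
      1344358) * e47 + (150334435 / 2688716) * e48 + (5222579 / 1344358) * e49 - (121549160 /
      4705253) * e50 + (13458923 / 2688716) * e51 - (372683007 / 9410506) * e52 + (849503 /
      1344358) * e53 - (5530561 / 1344358) * e56 + (3318029 / 1344358) * e58 + (98099709 /
      2688716) * e60 - (107165603 / 2688716) * e62 - (1564351 / 1344358) * e63 + (7541769 /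
      1344358) * e64 - (1444471 / 1344358) * e65 + (5902787 / 672179) * e68 + (8437437 / 1344358)
      * e70 - (75894993 / 2688716) * e72 - (12774075 / 18821012) * e74 - (5393167 / 1344358) * e75
      + (160534022 / 4705253) * e76 - (806883 / 672179) * e77 + (18756725 / 1344358) * e80 +
      (16154071 / 2688716) * e82 - (112574795 / 2688716) * e84 - (17003515 / 2688716) * e85 +
      (814489827 / 18821012) * e86 + (31766075 / 2688716) * e87 - (32165303 / 9410506) * e88 -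
      (2338342 / 672179) * e89 + (4481883 / 2688716) * e92 + (8776263 / 2688716) * e94
  have f_Ua_0_1 : Ua 0 1 = 0 := by
    linear_combination -(27682 / 640269) * e1 + (41971 / 60978) * e3 - (3229 / 426846) * e4 +
        (1735 / 71141) * e5 -
      (13852 / 71141) * e8 - (156719 / 640269) * e11 - (73516 / 640269) * e12 - (22527 / 142282) *
      e13 - (182785 / 1280538) * e17 + (236260 / 640269) * e19 - (11545 / 182934) * e20 - (8087 /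
      71141) * e21 + (8891 / 426846) * e23 - (277339 / 1280538) * e24 - (85177 / 426846) * e27 -
      (8891 / 1280538) * e28 - (87370 / 640269) * e29 - (43393 / 182934) * e31 + (15128 / 213423)
      * e32 + (386149 / 1280538) * e33 - (13609 / 142282) * e35 + (28265 / 640269) * e36 - (209518
      / 640269) * e37 + (131773 / 1280538) * e39 + (40 / 10163) * e40 - (28803 / 71141) * e43 -
      (398 / 213423) * e44 - (24019 / 426846) * e45 + (7564 / 213423) * e46 - (131773 / 1280538) *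
      e47 - (853975 / 640269) * e48 - (957827 / 1280538) * e49 + (1966814 / 4481883) * e50 -
      (303235 / 1280538) * e51 + (645122 / 497987) * e52 + (374090 / 640269) * e53 + (64625 /
      640269) * e56 + (6068 / 640269) * e58 - (20725 / 426846) * e60 + (481837 / 1280538) * e62 +
      (575525 / 2561076) * e63 - (109577 / 213423) * e64 - (14275 / 365868) * e65 - (147032 /
      640269) * e68 - (22527 / 142282) * e70 + (140045 / 142282) * e72 + (26413 / 2987922) * e74 +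
      (529373 / 2561076) * e75 - (10843447 / 8963766) * e76 + (1205 / 121956) * e77 - (433001 /
      1280538) * e80 - (165877 / 640269) * e82 + (625951 / 1280538) * e84 - (126005 / 640269) *
      e85 - (714122 / 1493961) * e86 + (138163 / 2561076) * e87 + (911873 / 8963766) * e88 +
      (77629 / 2561076) * e89 - (14093 / 426846) * e94 + (89959 / 1280538) * f_Sl_0_1
  have f_SZ_0_3 : SZ 0 3 = 0 := by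
    linear_combination -(4727 / 62237) * e1 + (8389 / 8891) * e3 - (1891 / 62237) * e4 + (1030 /
        62237) * e5 -
      (17140 / 62237) * e8 - (3782 / 8891) * e11 - (11346 / 62237) * e12 - (11145 / 62237) * e13 -
      (12454 / 62237) * e17 + (25856 / 62237) * e19 - (1891 / 62237) * e20 - (14230 / 62237) * e21
      - (10448 / 62237) * e24 - (24809 / 62237) * e27 - (17837 / 62237) * e29 - (24583 / 62237) *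
      e31 + (6000 / 62237) * e32 + (13268 / 62237) * e33 - (5910 / 62237) * e35 + (7564 / 62237) *
      e36 - (35067 / 62237) * e37 - (3782 / 62237) * e39 - (90 / 62237) * e40 - (40595 / 62237) *
      e43 - (5673 / 62237) * e44 - (3000 / 62237) * e45 + (3000 / 62237) * e46 + (3782 / 62237) *
      e47 - (99373 / 62237) * e48 - (5563 / 8891) * e49 + (39624 / 435659) * e50 - (13796 / 62237)
      * e51 + (723019 / 435659) * e52 + (43161 / 62237) * e53 + (11346 / 62237) * e56 - (2757 /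
      62237) * e58 + (771 / 8891) * e60 + (9019 / 62237) * e62 + (3673 / 62237) * e63 - (31762 /
      62237) * e64 + (13673 / 62237) * e65 - (22692 / 62237) * e68 - (11145 / 62237) * e70 +
      (84026 / 62237) * e72 - (8242 / 435659) * e74 + (1763 / 8891) * e75 - (653076 / 435659) *
      e76 - (1893 / 62237) * e77 - (35929 / 62237) * e80 - (17891 / 62237) * e82 + (15019 / 62237)
      * e84 + (7358 / 62237) * e85 - (137506 / 435659) * e86 - (25922 / 62237) * e87 + (74373 /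
      435659) * e88 + (12564 / 62237) * e89 - (600 / 3661) * e94 + (4268 / 62237) * f_Sl_0_1 +
      (2862 / 62237) * f_Ua_0_1
  have f_Sl_1_3 : Sl 1 3 = 0 := by
    linear_combination -(179 / 1891) * e1 - (587 / 1891) * e3 + (5 / 1891) * e5 - (175 / 1891) *
        e8 - (100 / 1891)
      * e13 - (446 / 1891) * e17 - (3 / 1891) * e19 - (14 / 1891) * e21 - (14 / 1891) * e24 - (405
      / 1891) * e27 - (261 / 1891) * e29 + (176 / 1891) * e32 + (8 / 61) * e33 - (249 / 1891) *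
      e35 - (363 / 1891) * e37 + (73 / 1891) * e40 + (675 / 1891) * e43 - (88 / 1891) * e45 + (88
      / 1891) * e46 + (151 / 1891) * e48 + (426 / 1891) * e49 + (6563 / 13237) * e50 - (324 /
      1891) * e51 - (6395 / 13237) * e52 - (277 / 1891) * e53 - (96 / 1891) * e58 - (1415 / 1891)
      * e60 + (1026 / 1891) * e62 + (513 / 3782) * e63 + (213 / 1891) * e64 - (161 / 3782) * e65 -
      (100 / 1891) * e70 - (1171 / 1891) * e72 + (676 / 13237) * e74 + (487 / 3782) * e75 + (7423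
      / 13237) * e76 - (459 / 3782) * e77 + (161 / 1891) * e82 + (1202 / 1891) * e84 - (1 / 1891)
      * e85 - (6928 / 13237) * e86 - (13 / 3782) * e87 - (254 / 13237) * e88 - (337 / 3782) * e89
      + (79 / 1891) * e94 - (16 / 1891) * f_Sl_0_1 + (1084 / 1891) * f_SZ_0_3 + (326 / 1891) *
      f_Ua_0_1
  have f_Sl_1_1 : Sl 1 1 = 0 := by
    linear_combination -(17 / 100) * e1 - (1 / 100) * e3 + (3 / 20) * e5 - (1 / 4) * e8 - (29 /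
        50) * e17 + (31 /
      100) * e19 - (11 / 50) * e21 - (11 / 50) * e24 - (3 / 20) * e27 - (3 / 100) * e29 + (12 /
      25) * e32 + (1 / 25) * e33 - (27 / 100) * e35 - (49 / 100) * e37 - (21 / 100) * e40 + (1 /
      4) * e43 - (6 / 25) * e45 + (6 / 25) * e46 - (27 / 100) * e48 - (1 / 50) * e49 + (349 / 700)
      * e50 - (13 / 25) * e51 + (3 / 140) * e52 + (29 / 100) * e53 - (2 / 25) * e58 - (9 / 20) *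
      e60 - (1 / 50) * e62 + (99 / 200) * e63 - (1 / 100) * e64 - (3 / 200) * e65 - (33 / 100) *
      e72 + (12 / 175) * e74 + (101 / 200) * e75 + (29 / 700) * e76 - (57 / 200) * e77 + (3 / 100)
      * e82 + (23 / 50) * e84 - (23 / 100) * e85 - (36 / 175) * e86 + (1 / 200) * e87 + (79 / 350)
      * e88 - (51 / 200) * e89 + (17 / 100) * e94 - (93 / 100) * f_Sl_1_3 - (1 / 50) * f_Ua_0_1 +
      (8 / 25) * f_SZ_0_3 + (8 / 25) * f_Sl_0_1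
  have f_g_3 : g 3 = 0 := by
    linear_combination -2 * e1 + e3 + 2 * e5 - 3 * e8 - 7 * e17 + 5 * e19 - 3 * e21 - 3 * e24 -
        e27 + 6 * e32 - 3 *
      e35 - 6 * e37 - 3 * e40 + 4 * e43 - 3 * e45 + 3 * e46 - 3 * e48 + e49 + (33 / 7) * e50 - 6 *
      e51 + (9 / 7) * e52 + 2 * e53 - e58 - 5 * e60 - 2 * e62 + 6 * e63 + e64 - 3 * e72 + (5 / 7)
      * e74 + 6 * e75 - (5 / 7) * e76 - 3 * e77 + 4 * e84 - 3 * e85 - (8 / 7) * e86 + (22 / 7) *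
      e88 - 3 * e89 + 2 * e94 - 8 * f_Sl_1_3 + 4 * f_SZ_0_3 + f_Ua_0_1 + 4 * f_Sl_0_1 - 13 *
      f_Sl_1_1
  have f_SZ_1_0 : SZ 1 0 = 0 := by
    linear_combination (1 / 2) * e3 + (1 / 2) * e8 + (1 / 2) * e17 + (5 / 2) * e19 - (1 / 2) *
        e21 + (1 / 2) * e24
      + (3 / 2) * e27 - e32 - 2 * e33 + (3 / 2) * e35 - e39 - (1 / 2) * e40 + 6 * e43 + (1 / 2) *
      e45 - (1 / 2) * e46 + e47 + (9 / 2) * e48 + (19 / 2) * e49 - (61 / 14) * e50 + 3 * e51 - (37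
      / 14) * e52 - 10 * e53 - (1 / 2) * e58 - (7 / 2) * e60 - 2 * e62 - (5 / 2) * e63 + (13 / 2)
      * e64 + (3 / 2) * e65 - (3 / 2) * e72 - (5 / 14) * e74 - (5 / 2) * e75 + (33 / 14) * e76 + 2
      * e77 - 3 * e84 + (5 / 2) * e85 + (11 / 7) * e86 - (5 / 2) * e87 + (3 / 7) * e88 + e89 - e94
      + 7 * f_Sl_1_3 - f_Sl_0_1 + (1 / 2) * f_Sl_1_1 - (7 / 2) * f_g_3 + (27 / 2) * f_Ua_0_1
  have f_SZ_2_1 : SZ 2 1 = 0 := by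
    linear_combination -(1 / 2) * e3 - e5 + (1 / 2) * e8 + (3 / 2) * e17 - (5 / 2) * e19 + (1 /
        2) * e21 + (1 / 2)
      * e24 - (1 / 2) * e27 - 3 * e32 + 3 * e33 + (3 / 2) * e35 + (3 / 2) * e40 - 3 * e43 + (3 /
      2) * e45 - (3 / 2) * e46 - (7 / 2) * e48 - (3 / 2) * e49 + (25 / 14) * e50 + 2 * e51 + (17 /
      14) * e52 + (1 / 2) * e58 - (3 / 2) * e60 + 8 * e62 - 3 * e63 - (7 / 2) * e64 + (3 / 2) *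
      e72 - (3 / 14) * e74 - 2 * e75 - (11 / 14) * e76 + (3 / 2) * e77 + 5 * e84 + (5 / 2) * e85 -
      (48 / 7) * e86 - e87 - (8 / 7) * e88 + (3 / 2) * e89 + (7 / 2) * f_Sl_1_1 - f_Sl_1_3 - (3 /
      2) * f_Ua_0_1 + (5 / 2) * f_g_3 - f_Sl_0_1
  have f_Ul_2_2 : Ul 2 2 = 0 := by
    linear_combination (1 / 6) * e5 - (2 / 3) * e33 + (1 / 6) * e37 - (1 / 2) * e40 + (1 / 2) *
        e47 + (5 / 3) * e48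
      + (3 / 2) * e49 - (40 / 21) * e50 + e51 - (16 / 21) * e52 - (3 / 2) * e53 + (2 / 3) * e60 -
      (5 / 3) * e62 - (3 / 4) * e63 + e64 + (3 / 4) * e65 - (5 / 21) * e74 - (3 / 4) * e75 + (5 /
      21) * e76 + (3 / 4) * e77 - (5 / 3) * e84 + e85 + (29 / 21) * e86 - (5 / 4) * e87 + (2 / 7)
      * e88 + (1 / 4) * e89 + (1 / 2) * e96 + (1 / 6) * f_Sl_0_1 - (1 / 6) * f_Sl_1_1 - (1 / 6) *
      f_SZ_2_1 - (5 / 3) * f_SZ_0_3 + (7 / 2) * f_Ua_0_1 - (1 / 2) * f_SZ_1_0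
  have f_Ul_2_1 : Ul 2 1 = 0 := by
    linear_combination -(10 / 39) * e4 - (10 / 39) * e11 + (5 / 39) * e12 - (38 / 39) * e19 + (15
        / 26) * e20 - (6
      / 13) * e27 + (1 / 6) * e28 + (1 / 2) * e32 + (1 / 2) * e34 + (5 / 26) * e36 - (74 / 39) *
      e43 - (10 / 13) * e44 - (7 / 78) * e48 - (74 / 39) * e49 - (433 / 546) * e50 - (10 / 13) *
      e51 + (241 / 273) * e52 + (8 / 3) * e53 + (8 / 39) * e56 + (88 / 39) * e60 - (31 / 26) * e62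
      - (73 / 78) * e64 - (5 / 39) * e65 + (10 / 39) * e68 + (61 / 78) * e72 - (55 / 546) * e74 +
      (10 / 13) * e75 - (62 / 91) * e76 - (10 / 13) * e77 - (8 / 39) * e80 - (31 / 26) * e84 + (5
      / 39) * e85 + (237 / 182) * e86 - (10 / 13) * e87 - (10 / 91) * e88 + (25 / 39) * e89 - (1 /
      2) * e96 + (1 / 2) * e98 + (61 / 26) * f_SZ_1_0 - (23 / 13) * f_Ua_0_1 - (28 / 13) *
      f_SZ_0_3 - (8 / 39) * f_Sl_1_3 + (38 / 39) * f_g_3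
  have f_Sl_1_0 : Sl 1 0 = 0 := by
    linear_combination (1 / 5) * e19 - (1 / 2) * e20 + (1 / 5) * e27 - (1 / 10) * e28 - (3 / 10)
        * e32 - (3 / 10) *
      e34 - (1 / 2) * e36 + (3 / 5) * e43 - (11 / 10) * e48 + (3 / 5) * e49 + (71 / 70) * e50 + (3
      / 35) * e52 - (3 / 5) * e53 - (1 / 5) * e56 - (1 / 5) * e60 + (11 / 10) * e62 - (9 / 10) *
      e64 + (3 / 10) * e72 + (3 / 14) * e74 - (18 / 35) * e76 + (1 / 5) * e80 + (11 / 10) * e84 -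
      (87 / 70) * e86 + (1 / 7) * e88 + (3 / 10) * e96 - (3 / 10) * e98 + (6 / 5) * f_Sl_1_3 - (11
      / 10) * f_SZ_1_0 + (3 / 5) * f_Ul_2_1 - (1 / 5) * f_g_3 + (3 / 5) * f_SZ_0_3 + (3 / 5) *
      f_Ua_0_1
  have f_Sa_2_0 : Sa 2 0 = 0 := by
    linear_combination 3 * e3 - 2 * e11 - 3 * e19 - e20 - e27 - e32 - e34 - e36 - 9 * e43 - 12 *
        e48 - 9 * e49 +
      (17 / 7) * e50 + (67 / 7) * e52 + 9 * e53 - e56 + 9 * e60 + 3 * e62 - 12 * e64 + 10 * e72 +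
      (3 / 7) * e74 - (73 / 7) * e76 + 3 * e84 - (23 / 7) * e86 + (2 / 7) * e88 + e96 - e98 + 12 *
      f_Sl_1_3 - f_Sl_1_0 - 2 * f_SZ_1_0 - 7 * f_Ua_0_1 + 2 * f_Ul_2_1 + 6 * f_g_3 - 11 * f_SZ_0_3
  have f_Sl_0_2 : Sl 0 2 = 0 := by
    linear_combination -(1 / 3) * e4 + (2 / 3) * e16 - (1 / 3) * e20 - (1 / 3) * e28 - (5 / 3) *
        e32 - (1 / 3) *
      e34 - (2 / 3) * e36 - (2 / 3) * e41 + (2 / 3) * e42 - (5 / 3) * e44 - (2 / 3) * e47 - (13 /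
      3) * e48 - (8 / 3) * e49 + (13 / 3) * e50 - (5 / 3) * e51 + (13 / 3) * e53 - (19 / 3) * e60
      + (20 / 3) * e62 + e63 - (1 / 3) * e64 - e65 - (2 / 3) * e67 + (2 / 3) * e72 + (2 / 3) * e74
      + (4 / 3) * e75 - (8 / 3) * e77 - (1 / 3) * e79 + (20 / 3) * e84 - (4 / 3) * e85 - (20 / 3)
      * e86 + (4 / 3) * e89 + (1 / 3) * e96 - e98 - f_Sl_1_0 + 2 * f_Ul_2_1 + (4 / 3) * f_Ul_2_2 -
      (16 / 3) * f_Ua_0_1 + (2 / 3) * f_Sa_2_0 + (4 / 3) * f_SZ_1_0 + (4 / 3) * f_SZ_0_3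
  have f_Sl_2_2 : Sl 2 2 = 0 := by
    linear_combination (1 / 2) * e0 + (3 / 2) * e3 + e16 + e32 + (1 / 2) * e37 - 3 * e43 + (1 /
        2) * e46 + (1 / 2)
      * e47 - e48 - (3 / 2) * e49 - (17 / 7) * e50 + (27 / 14) * e52 + (5 / 2) * e53 + (1 / 2) *
      e57 + (3 / 2) * e60 - 2 * e62 + e65 - (1 / 2) * e69 + (3 / 2) * e70 + 3 * e72 - (3 / 7) *
      e74 - (18 / 7) * e76 - (3 / 2) * e84 + (25 / 14) * e86 + (3 / 14) * e88 - (1 / 2) * e93 + (1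
      / 2) * e96 + f_Sl_0_2 - (1 / 2) * f_Sl_1_1 + (3 / 2) * f_Sl_0_1 - 4 * f_SZ_0_3 + (3 / 2) *
      f_Ua_0_1 - (1 / 2) * f_SZ_1_0 - f_Ul_2_2 + (1 / 2) * f_SZ_2_1
  have f_Sl_1_2 : Sl 1 2 = 0 := by
    linear_combination -e16 + 2 * e32 + e41 - e42 + e44 + e47 + 4 * e48 + 4 * e49 - (32 / 7) *
        e50 + e51 + (4 / 7)
      * e52 - 5 * e53 + 10 * e60 - 8 * e62 - (3 / 2) * e63 - 2 * e64 + (3 / 2) * e65 - (4 / 7) *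
      e74 - (1 / 2) * e75 - (10 / 7) * e76 + (5 / 2) * e77 - 8 * e84 + 2 * e85 + (54 / 7) * e86 -
      (3 / 2) * e87 + (2 / 7) * e88 - (1 / 2) * e89 + e98 - 2 * f_SZ_1_0 + 8 * f_Ua_0_1 + f_Sl_2_2
      - 2 * f_SZ_0_3 - 2 * f_Ul_2_2 - 2 * f_Ul_2_1
  have f_Sa_2_1 : Sa 2 1 = 0 := by
    linear_combination (2 / 3) * e3 + (1 / 3) * e8 + (4 / 3) * e19 + (1 / 3) * e21 + (1 / 3) *
        e24 + (2 / 3) * e27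
      - (2 / 3) * e33 + (2 / 3) * e37 + 2 * e43 + (1 / 3) * e48 + 2 * e49 - (2 / 7) * e50 + (1 /
      3) * e51 - (8 / 21) * e52 - 2 * e53 - (2 / 3) * e58 - (7 / 3) * e60 - (1 / 3) * e62 + (8 /
      3) * e64 + (1 / 21) * e74 - (1 / 3) * e75 + (2 / 7) * e76 - (1 / 3) * e84 - (1 / 3) * e85 +
      (11 / 21) * e86 + (1 / 3) * e87 - (4 / 21) * e88 + (2 / 3) * f_Sl_1_1 + (2 / 3) * f_SZ_2_1 +
      (4 / 3) * f_SZ_0_3 + (10 / 3) * f_Sl_1_3 - (4 / 3) * f_g_3 + 2 * f_Ua_0_1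
  have f_Sa_2_2 : Sa 2 2 = 0 := by
    linear_combination 2 * e3 - e33 + e37 - 4 * e43 - 2 * e48 - 4 * e49 - (16 / 7) * e50 + (23 /
        7) * e52 + 4 * e53
      + e57 + 3 * e60 - 2 * e62 - e64 + 2 * e70 + 4 * e72 - (2 / 7) * e74 - (26 / 7) * e76 - 2 *
      e84 + (13 / 7) * e86 + (1 / 7) * e88 + f_Sl_1_2 - 2 * f_Sl_1_1 + 2 * f_Sl_0_1 + f_SZ_2_1 - 5
      * f_SZ_0_3 - 4 * f_Ua_0_1
  have f_Sa_2_3 : Sa 2 3 = 0 := by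
    linear_combination e3 + 2 * e19 + e27 + 3 * e43 + 3 * e49 - 3 * e53 - 3 * e60 + 3 * e64 - 2 *
        f_g_3 + 6 *
      f_Sl_1_3 + 3 * f_SZ_0_3 + 3 * f_Ua_0_1
  have f_Sl_0_3 : Sl 0 3 = 0 := by
    linear_combination -e3 + 2 * e43 + 2 * e48 + 2 * e49 - 2 * e52 - 2 * e53 - e60 + e64 - 2 *
        e72 + 2 * e76 -
      f_g_3 + 2 * f_SZ_0_3 + 2 * f_Ua_0_1
  have f_Ul_3_1 : Ul 3 1 = 0 := by
    linear_combination e32 + (1 / 2) * e33 + (1 / 2) * e46 + (1 / 2) * e47 + (3 / 2) * e48 + (3 /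
        2) * e49 - (25 /
      14) * e50 - (5 / 7) * e52 - (1 / 2) * e53 + (3 / 2) * e60 - (5 / 2) * e62 + e65 - (2 / 7) *
      e74 + (2 / 7) * e76 - (5 / 2) * e84 + (33 / 14) * e86 + (1 / 7) * e88 + (1 / 2) * e96 + (1 /
      2) * e97 - (1 / 2) * f_SZ_0_3 + (9 / 2) * f_Ua_0_1 - (1 / 2) * f_SZ_1_0 - f_Ul_2_2
  have f_Sl_0_0 : Sl 0 0 = 0 := by
    linear_combination (1 / 2) * e20 + (1 / 2) * e28 + (1 / 2) * e32 + (1 / 2) * e34 + (1 / 2) *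
        e36 + (3 / 2) *
      e48 - (17 / 14) * e50 - (2 / 7) * e52 - (3 / 2) * e62 + (3 / 2) * e64 - (1 / 2) * e72 - (3 /
      14) * e74 + (5 / 7) * e76 - (3 / 2) * e84 + (23 / 14) * e86 - (1 / 7) * e88 - (1 / 2) * e96
      + (1 / 2) * e98 + (3 / 2) * f_SZ_1_0 + 3 * f_Sl_1_0 - f_Ul_2_1
  have f_Ul_1_2 : Ul 1 2 = 0 := by
    linear_combination e48 - (9 / 7) * e50 + (2 / 7) * e52 + e60 - e62 - (2 / 7) * e74 + (2 / 7)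
        * e76 - e84 + (6 /
      7) * e86 + (1 / 7) * e88 + f_Ul_2_2 + f_Ul_2_1
  have f_Ul_1_1 : Ul 1 1 = 0 := by
    linear_combination e48 - e52 - 2 * e60 + 2 * e64 - e72 + e76 + f_Ul_3_1
  have f_Ua_2_1 : Ua 2 1 = 0 := by
    linear_combination -e49 + e52 + e60 - e64 - f_Ul_1_2 + 2 * f_Ul_2_2 + f_Ul_2_1 - 2 * f_Ua_0_1
  have f_g_1 : g 1 = 0 := by
    linear_combination -e21 + e33 - e37 - (1 / 2) * e48 + (1 / 2) * e50 - (1 / 2) * e60 + (1 / 2)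
        * e62 + (1 / 2) *
      e84 - e86 + (1 / 2) * e88 - f_Sl_1_1 + f_SZ_2_1 + (1 / 2) * f_Ul_1_2 + f_SZ_0_3 + (1 / 2) *
      f_Ul_2_2 + (1 / 2) * f_Ul_2_1
  have f_Ua_2_0 : Ua 2 0 = 0 := by
    linear_combination -e47 - e49 - 2 * e51 + 3 * e53 + (3 / 2) * e63 - (3 / 2) * e65 + (3 / 2) *
        e75 - (3 / 2) *
      e77 - e85 + (3 / 2) * e87 - (1 / 2) * e89 - e96 - 3 * f_Ua_0_1 + 2 * f_Ua_2_1 + f_SZ_1_0 + 2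
      * f_SZ_0_3
  have f_Ua_0_0 : Ua 0 0 = 0 := by
    linear_combination e49 - e51 + e60 - e64 + e75 - e76 + f_Ul_1_2 - 2 * f_Ul_2_2 - 2 * f_Ul_2_1
        + 2 * f_Ua_0_1 +
      f_Ua_2_1
  have f_Ua_1_2 : Ua 1 2 = 0 := by
    linear_combination e47 + e49 - e53 - e63 + e65 + e85 - e87 + e96 - f_SZ_1_0 + 4 * f_Ua_0_1 -
        f_Ua_2_1 - 2 *
      f_SZ_0_3 - f_Ua_0_0
  have f_g_2 : g 2 = 0 := by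
    linear_combination -e64 + e69 - e70 + e97 - f_Sl_0_2 - f_Sa_2_1 - f_Ul_3_1 + f_g_3 + f_Sl_0_3
        - f_Sl_0_1
  have f_g_0 : g 0 = 0 := by
    linear_combination 2 * e67 + e79 + 3 * f_Sl_0_2 + 2 * f_Sl_1_2 - 2 * f_Sl_2_2 - 2 * f_Sl_1_0
        + 2 * f_SZ_1_0 - 2
      * f_Sa_2_0
  have f_Sa_0_0 : Sa 0 0 = 0 := by
    linear_combination -e11 - e19 + e68 - f_SZ_0_3 + f_Ua_0_1 - f_Sl_0_3 + 10 * f_Sl_1_3 -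
        f_Sa_2_3 + f_Sl_0_0 -
      f_Ul_1_1 + f_Ul_3_1
  have f_Ua_0_2 : Ua 0 2 = 0 := by
    linear_combination -(1 / 3) * e51 + (1 / 3) * e53 + (1 / 3) * e63 - (1 / 3) * e65 + (1 / 3) *
        e87 - (1 / 3) *
      e89 + (2 / 3) * f_Ua_2_1 - (1 / 3) * f_Ua_0_1 - (2 / 3) * f_Ua_2_0 + (1 / 3) * f_Ua_0_0 + (1
      / 3) * f_Ua_1_2
  have f_Sl_2_3 : Sl 2 3 = 0 := by
    linear_combination e19 + 2 * e43 + 2 * e49 - 2 * e53 - f_g_3 + f_Ul_1_1 - f_Ul_3_1 + 2 *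
        f_SZ_0_3 + 2 *
      f_Ua_0_1
  have f_SZ_3_0 : SZ 3 0 = 0 := by
    linear_combination -e16 + e32 - e34 + e41 - e42 + e48 + e49 - e50 - e53 + 5 * e60 - 4 * e62 -
        e64 - 4 * e84 +
      e85 + 4 * e86 - e87 - f_Sl_1_2 + f_Sl_2_2 + f_Ua_0_1 + 2 * f_Ua_0_0 - f_Ua_2_0 + 2 *
      f_Ul_2_1
  have f_Ul_3_0 : Ul 3 0 = 0 := by
    linear_combination -e33 - (1 / 2) * e35 - (1 / 2) * e45 - (1 / 2) * e49 + (1 / 2) * e51 - e62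
        + e64 - e85 + e86
      - (1 / 2) * e99 - (1 / 2) * f_Ua_0_0 - (1 / 2) * f_Ua_1_2 - f_SZ_0_3 + f_Ua_0_2 + (3 / 2) *
      f_Ua_2_0 - f_Ua_0_1 - (1 / 2) * f_Ua_2_1 + f_Ul_3_1
  have f_gq_0_2 : gq 0 2 = 0 := by
    linear_combination -e48 + e50 - e60 + e64 + e84 - e93 + f_Sl_0_2 - 2 * f_Sl_1_2 + f_Sa_2_2 +
        f_Sl_1_1 -
      f_Sa_2_1 - f_Ul_3_0 + f_Ul_3_1
  have f_Sa_1_3 : Sa 1 3 = 0 := by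
    linear_combination -e35 + e58 + e82 + f_Sl_0_3 + 2 * f_Sl_1_3 - 2 * f_Sa_2_3 - f_Sl_0_1 + 2 *
        f_Sa_2_1 +
      f_SZ_0_3 - f_SZ_2_1
  have f_Sl_2_0 : Sl 2 0 = 0 := by
    linear_combination -e28 - e32 - e34 - e48 + e50 - e60 + 2 * e62 - e64 + 2 * e84 - 2 * e86 +
        e96 - e98 - 5 *
      f_Sl_1_0 - f_SZ_1_0 + 2 * f_Sl_0_0 + 2 * f_Ul_2_1
  have f_Ul_3_2 : Ul 3 2 = 0 := by
    linear_combination (1 / 2) * e48 - (1 / 2) * e50 + (1 / 2) * e60 - (1 / 2) * e62 - (1 / 2) *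
        e84 + (1 / 2) *
      e88 - (1 / 2) * f_Ul_1_2 + (1 / 2) * f_Ul_2_2 + (1 / 2) * f_Ul_2_1
  have f_Sl_2_1 : Sl 2 1 = 0 := by
    linear_combination -e58 - f_Sl_1_3 + f_Sa_2_3 + f_SZ_2_1 - f_Sa_2_1
  have f_gq_0_0 : gq 0 0 = 0 := by
    linear_combination -2 * e32 - 2 * e34 + e36 - 2 * e48 + 2 * e50 - 2 * e60 + 4 * e62 - 2 * e64
        + 4 * e84 - 4 *
      e86 + 2 * e96 - 2 * e98 + f_Ul_1_1 + 3 * f_Ul_2_1 + f_Ul_1_2 - f_Ul_2_2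
  have f_SZ_3_1 : SZ 3 1 = 0 := by
    linear_combination e33 + e40 - e48 + e50 - e60 + e62 + e84 - e85 - e86 + e87 + f_SZ_2_1 +
        f_Ua_2_0 + f_SZ_0_3
  have f_gq_0_1 : gq 0 1 = 0 := by
    linear_combination -e33 + e37 + e48 - e50 + e60 - e62 - e84 + e86 + f_SZ_2_1 + f_Ul_2_2 -
        f_SZ_0_3
  have f_SZ_0_2 : SZ 0 2 = 0 := by
    linear_combination -e32 - e48 + e50 - 2 * e60 + 2 * e62 + 2 * e84 - 2 * e86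
  have f_Ul_1_0 : Ul 1 0 = 0 := by
    linear_combination e32 - e49 + e50 - 2 * f_Ua_0_1 - f_Ua_2_1 + f_SZ_0_2
  have f_Ul_2_0 : Ul 2 0 = 0 := by
    linear_combination e32 + e60 - e62 - e84 + e86 + f_SZ_0_2
  have f_Ua_3_0 : Ua 3 0 = 0 := by
    linear_combination e62 - e64 + e85 - e86 - f_Ul_2_0 - f_Ua_2_0 + f_Ul_3_0 - f_Ul_3_1
  have f_Ua_2_2 : Ua 2 2 = 0 := by
    linear_combination e49 - e51 - 2 * f_Ua_0_2 - f_Ua_2_0 + f_Ua_3_0 + 2 * f_Ua_0_1 + f_Ua_2_1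
  have f_Sa_1_2 : Sa 1 2 = 0 := by
    linear_combination e42 - e49 + e53 - e91 - f_Sl_0_2 - f_Sl_1_2 + f_Sl_2_2 + f_Sa_2_2 +
        f_Sl_1_0 - f_Sa_2_0 +
      f_SZ_0_2 - f_Ua_0_1
  have f_Ua_3_2 : Ua 3 2 = 0 := by
    linear_combination e63 - e64 - e85 + e87 - f_Ua_0_2 + f_Ua_0_0 + f_Ua_1_2 - f_Ul_3_1
  have f_SZ_2_0 : SZ 2 0 = 0 := by
    linear_combination -e34 + e60 - e64 + e96 - e98 + 2 * f_Ul_2_1 + f_SZ_0_2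
  have f_gq_0_3 : gq 0 3 = 0 := by
    linear_combination 2 * e33 - e35 + e39 + e96 + f_Ul_1_0 + f_SZ_2_1 + f_Ul_2_1 + 4 * f_SZ_0_3
  have f_Sa_0_2 : Sa 0 2 = 0 := by
    linear_combination -e67 - f_Sl_0_2 + f_Sa_2_2 - f_SZ_1_0 + f_Sa_0_0 + f_Sa_2_0
  have f_Ua_1_1 : Ua 1 1 = 0 := by
    linear_combination e64 - e65 - f_Ua_0_1 + f_Ul_3_1
  have f_Ul_0_2 : Ul 0 2 = 0 := by
    linear_combination -e62 + e64 - f_Ul_3_2 - f_Ul_3_0 + f_Ul_3_1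
  have f_Ul_0_0 : Ul 0 0 = 0 := by
    linear_combination -e32 - f_SZ_0_2 + f_Ul_1_0 + f_Ul_2_0
  have f_SZ_3_2 : SZ 3 2 = 0 := by
    linear_combination e41 + e85 - e87 - e96 + e98 + f_SZ_2_0 - f_SZ_3_0 + 2 * f_Ua_0_0 -
        f_Ua_2_0 - f_SZ_0_2
  have f_Sa_0_3 : Sa 0 3 = 0 := by
    linear_combination -e68 - f_Sl_0_3 + f_Sa_2_3 - f_Sl_0_0 + f_Sa_0_0
  have f_SZ_0_1 : SZ 0 1 = 0 := by
    linear_combination -e33 - f_Ul_2_0 - f_SZ_0_3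
  have f_Sa_0_1 : Sa 0 1 = 0 := by
    linear_combination e70 - f_g_3 - f_Sl_0_3 + f_Sl_0_1
  have f_SZ_1_3 : SZ 1 3 = 0 := by
    linear_combination e43 + e49 - e53 + f_SZ_0_3 + f_Ua_0_1
  have f_SZ_1_2 : SZ 1 2 = 0 := by
    linear_combination e42 - e49 + e53 + f_SZ_0_2 - f_Ua_0_1
  have f_Ua_1_0 : Ua 1 0 = 0 := by
    linear_combination -e85 + e87
  have f_Sa_1_1 : Sa 1 1 = 0 := by
    linear_combination -e24 + f_Sa_2_1 + f_Ua_1_0 - 3 * f_Sl_1_1 - f_Sl_2_1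
  have f_Ua_3_1 : Ua 3 1 = 0 := by
    linear_combination -e49 + e53 - 2 * f_Ua_0_1
  have f_Sa_1_0 : Sa 1 0 = 0 := by
    linear_combination -e25 + f_Sa_2_0 - 3 * f_Sl_1_0 - f_Sl_2_0 - f_Sa_1_2 + f_Sa_2_2 - f_Ua_1_0
        - 3 * f_Sl_1_2 -
      f_Sl_2_2
  have f_SZ_2_3 : SZ 2 3 = 0 := by
    linear_combination -e35 + f_SZ_0_3
  have f_Ul_0_1 : Ul 0 1 = 0 := by
    linear_combination -e60 + e64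
  have f_SZ_3_3 : SZ 3 3 = 0 := by
    linear_combination e99
  have f_SZ_0_0 : SZ 0 0 = 0 := by
    linear_combination e96
  have f_SZ_2_2 : SZ 2 2 = 0 := by
    linear_combination e98
  have f_SZ_1_1 : SZ 1 1 = 0 := by
    linear_combination e97
  refine ⟨?_, ?_, ?_, ?_, ?_, ?_, ?_⟩
  · funext i0 i1
    fin_cases i0 <;> fin_cases i1
    all_goals first
      | exact f_Sl_0_0
      | exact f_Sl_0_1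
      | exact f_Sl_0_2
      | exact f_Sl_0_3
      | exact f_Sl_1_0
      | exact f_Sl_1_1
      | exact f_Sl_1_2
      | exact f_Sl_1_3
      | exact f_Sl_2_0
      | exact f_Sl_2_1
      | exact f_Sl_2_2
      | exact f_Sl_2_3
  · funext i0 i1
    fin_cases i0 <;> fin_cases i1
    all_goals first
      | exact f_Sa_0_0
      | exact f_Sa_0_1
      | exact f_Sa_0_2
      | exact f_Sa_0_3
      | exact f_Sa_1_0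
      | exact f_Sa_1_1
      | exact f_Sa_1_2
      | exact f_Sa_1_3
      | exact f_Sa_2_0
      | exact f_Sa_2_1
      | exact f_Sa_2_2
      | exact f_Sa_2_3
  · funext i0 i1
    fin_cases i0 <;> fin_cases i1
    all_goals first
      | exact f_SZ_0_0
      | exact f_SZ_0_1
      | exact f_SZ_0_2
      | exact f_SZ_0_3
      | exact f_SZ_1_0
      | exact f_SZ_1_1
      | exact f_SZ_1_2
      | exact f_SZ_1_3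
      | exact f_SZ_2_0
      | exact f_SZ_2_1
      | exact f_SZ_2_2
      | exact f_SZ_2_3
      | exact f_SZ_3_0
      | exact f_SZ_3_1
      | exact f_SZ_3_2
      | exact f_SZ_3_3
  · funext i0 i1
    fin_cases i0 <;> fin_cases i1
    all_goals first
      | exact f_Ul_0_0
      | exact f_Ul_0_1
      | exact f_Ul_0_2
      | exact f_Ul_1_0
      | exact f_Ul_1_1
      | exact f_Ul_1_2
      | exact f_Ul_2_0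
      | exact f_Ul_2_1
      | exact f_Ul_2_2
      | exact f_Ul_3_0
      | exact f_Ul_3_1
      | exact f_Ul_3_2
  · funext i0 i1
    fin_cases i0 <;> fin_cases i1
    all_goals first
      | exact f_Ua_0_0
      | exact f_Ua_0_1
      | exact f_Ua_0_2
      | exact f_Ua_1_0
      | exact f_Ua_1_1
      | exact f_Ua_1_2
      | exact f_Ua_2_0
      | exact f_Ua_2_1
      | exact f_Ua_2_2
      | exact f_Ua_3_0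
      | exact f_Ua_3_1
      | exact f_Ua_3_2
  · funext i0
    fin_cases i0
    all_goals first
      | exact f_g_0
      | exact f_g_1
      | exact f_g_2
      | exact f_g_3
  · funext i0 i1
    fin_cases i0 <;> fin_cases i1
    all_goals first
      | exact f_gq_0_0
      | exact f_gq_0_1
      | exact f_gq_0_2
      | exact f_gq_0_3

end

end F4

end Pool.Agent.VCU
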