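import Pool.Agent.VCU.F4B

/-!
# The outer blocks in the class e_Z, and the class e_l + e_a + e_Z, s = 4
-/

set_option autoImplicit false

namespace Pool.Agent.VCU

open Pool.Agent.VCC Pool.Agent.VCT Pool.Agent.VCT.SP_

namespace F4

section

variable {κ : Type*} [Field κ] [CharZero κ]

/-- table -/
def TOa (S : Fin 3 → Fin 4 → κ) (U : Fin 4 → Fin 3 → κ) : Fin 2 → Fin 3 → Fin 4 → κ :=
  ![![![S 1 0 - U 1 0 - (1 / 2) * U 3 0, S 1 1 + U 1 0, S 1 2 + U 0 0 - (1 / 2) * U 3 0, S 1 3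
      + (1 / 2) * U 2 0],
      ![-S 0 0 - U 1 1 - (1 / 2) * U 3 1, -S 0 1 + U 1 1, -S 0 2 + U 0 1 - (1 / 2) * U 3 1, -S 0
        3 + (1 / 2) * U 2 1],
      ![-S 0 0 + S 1 0 - U 1 2 - (1 / 2) * U 3 2, -S 0 1 + S 1 1 + U 1 2, -S 0 2 + S 1 2 + U 0 2
        - (1 / 2) * U 3 2, -S 0 3 + S 1 3 + (1 / 2) * U 2 2]],
    ![![-S 1 0 + S 2 0 + (1 / 2) * U 1 0, -S 1 1 + S 2 1 - U 0 0 - (1 / 2) * U 1 0, -S 1 2 + S 2
      2 - (1 / 2) * U 0 0 + (1 / 2) * U 1 0 + U 3 0, -S 1 3 + S 2 3],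
      ![S 2 0 + (1 / 2) * U 1 1, S 2 1 - U 0 1 - (1 / 2) * U 1 1, S 2 2 - (1 / 2) * U 0 1 + (1 /
        2) * U 1 1 + U 3 1, S 2 3],
      ![-S 1 0 + (1 / 2) * U 1 2, -S 1 1 - U 0 2 - (1 / 2) * U 1 2, -S 1 2 - (1 / 2) * U 0 2 +
        (1 / 2) * U 1 2 + U 3 2, -S 1 3]]]

theorem tTOa (S : Fin 3 → Fin 4 → κ) (U : Fin 4 → Fin 3 → κ) (u : Fin 2) (e : Fin 3) (c : Fin 4) :
    - ∑ a, (if a = e then 0 else uu u a * S a c) - ∑ d, (dL κ).y u c d * U d e =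
      TOa S U u e c := by
  simp only [dL_y]
  fin_cases u <;> fin_cases e <;> fin_cases c <;>
    simp [TOa, uu, yL, Fin.sum_univ_three, Fin.sum_univ_four] <;> ring

/-- table -/
def TOp (U : Fin 4 → Fin 3 → κ) : Fin 3 → Fin 4 → κ :=
  ![![U 1 0 + U 3 0, U 3 0, U 1 0 + U 2 0 + U 3 0, U 0 0],
    ![U 1 1 + U 3 1, U 3 1, U 1 1 + U 2 1 + U 3 1, U 0 1],
    ![U 1 2 + U 3 2, U 3 2, U 1 2 + U 2 2 + U 3 2, U 0 2]]

theorem tTOp (U : Fin 4 → Fin 3 → κ) (e : Fin 3) (c : Fin 4) :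
    ∑ d, (dL κ).p c d * U d e =
      TOp U e c := by
  simp only [dL_p]
  fin_cases e <;> fin_cases c <;>
    simp [TOp, pL, Fin.sum_univ_four] <;> ring

/-- table -/
def TOr (U : Fin 4 → Fin 3 → κ) : Fin 4 → Fin 3 → Fin 3 → κ :=
  ![![![2 * U 0 0, U 0 0 + U 0 1 + U 1 0 + U 2 0 + U 3 0, U 0 2 + U 3 0],
      ![U 0 0 + U 0 1 + U 1 0 + U 2 0 + U 3 0, 2 * U 0 1 + 2 * U 1 1 + 2 * U 2 1 + 2 * U 3 1, U
        0 2 + U 1 2 + U 2 2 + U 3 1 + U 3 2],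
      ![U 0 2 + U 3 0, U 0 2 + U 1 2 + U 2 2 + U 3 1 + U 3 2, 2 * U 3 2]],
    ![![0, -U 0 0 - U 1 0 - U 2 0 - U 3 0, -U 1 0 - U 3 0],
      ![-U 0 0 - U 1 0 - U 2 0 - U 3 0, -2 * U 0 1 - 2 * U 1 1 - 2 * U 2 1 - 2 * U 3 1, -U 0 2 -
        U 1 1 - U 1 2 - U 2 2 - U 3 1 - U 3 2],
      ![-U 1 0 - U 3 0, -U 0 2 - U 1 1 - U 1 2 - U 2 2 - U 3 1 - U 3 2, -2 * U 1 2 - 2 * U 3
        2]],
    ![![-2 * U 0 0, -U 0 0 - U 0 1 - U 1 0, -U 0 2],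
      ![-U 0 0 - U 0 1 - U 1 0, -2 * U 0 1 - 2 * U 1 1, -U 0 2 - U 1 2],
      ![-U 0 2, -U 0 2 - U 1 2, 0]],
    ![![2 * U 2 0, U 2 0 + U 2 1 + U 3 0, U 2 2],
      ![U 2 0 + U 2 1 + U 3 0, 2 * U 2 1 + 2 * U 3 1, U 2 2 + U 3 2],
      ![U 2 2, U 2 2 + U 3 2, 0]]]

theorem tTOr (U : Fin 4 → Fin 3 → κ) (b : Fin 4) (e : Fin 3) (f : Fin 3) :
    RZc (dL κ) U b e f =
      TOr U b e f := by
  simp only [RZc, dL_r]
  fin_cases b <;> fin_cases e <;> fin_cases f <;>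
    simp [TOr, rL, Fin.sum_univ_four] <;> ring

theorem outZ : OutZ (gL κ) (dL κ) := by
  intro S U h1 h2 h3
  simp only [tTOa] at h1
  simp only [tTOp] at h2
  simp only [tTOr] at h3
  obtain ⟨a0_0, a0_1, a0_2, a0_3, a0_4, a0_5, a0_6, a0_7⟩ := inspL (h1 0)
  obtain ⟨a1_0, a1_1, a1_2, a1_3, a1_4, a1_5, a1_6, a1_7⟩ := inspL (h1 1)
  obtain ⟨c_0, c_1, c_2, c_3, c_4, c_5, c_6, c_7⟩ := inspL h2
  have e0 : -(S 1 0 - U 1 0 - (1 / 2) * U 3 0) + (S 1 2 + U 0 0 - (1 / 2) * U 3 0) = 0 := a0_0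
  have e1 : (S 1 3 + (1 / 2) * U 2 0) = 0 := a0_1
  have e4 : (-S 0 0 + S 1 0 - U 1 2 - (1 / 2) * U 3 2) = 0 := a0_4
  have e5 : (-S 0 1 + S 1 1 + U 1 2) = 0 := a0_5
  have e6 : -(S 1 1 + U 1 0) + (-S 0 1 + U 1 1) + (-S 0 2 + S 1 2 + U 0 2 - (1 / 2) * U 3 2) = 0
      := a0_6
  have e7 : -(S 1 0 - U 1 0 - (1 / 2) * U 3 0) + (S 1 1 + U 1 0) + (-S 0 0 - U 1 1 - (1 / 2) * U
      3 1) -
      (-S 0 1 + U 1 1) + (-S 0 3 + S 1 3 + (1 / 2) * U 2 2) = 0 := a0_7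
  have e8 : -(-S 1 0 + S 2 0 + (1 / 2) * U 1 0) + (-S 1 2 + S 2 2 - (1 / 2) * U 0 0 + (1 / 2) * U
      1 0 +
      U 3 0) = 0 := a1_0
  have e9 : (-S 1 3 + S 2 3) = 0 := a1_1
  have e10 : -(S 2 0 + (1 / 2) * U 1 1) + (S 2 1 - U 0 1 - (1 / 2) * U 1 1) + (S 2 2 - (1 / 2) *
      U 0 1 +
      (1 / 2) * U 1 1 + U 3 1) = 0 := a1_2
  have e11 : (S 2 0 + (1 / 2) * U 1 1) - (S 2 1 - U 0 1 - (1 / 2) * U 1 1) + (S 2 3) = 0 := a1_3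
  have e12 : (-S 1 0 + (1 / 2) * U 1 2) = 0 := a1_4
  have e13 : (-S 1 1 - U 0 2 - (1 / 2) * U 1 2) = 0 := a1_5
  have e16 : -(U 1 0 + U 3 0) + (U 1 0 + U 2 0 + U 3 0) = 0 := c_0
  have e17 : (U 0 0) = 0 := c_1
  have e19 : (U 1 1 + U 3 1) - (U 3 1) + (U 0 1) = 0 := c_3
  have e20 : (U 1 2 + U 3 2) = 0 := c_4
  have e21 : (U 3 2) = 0 := c_5
  have e23 : -(U 1 0 + U 3 0) + (U 3 0) + (U 1 1 + U 3 1) - (U 3 1) + (U 0 2) = 0 := c_7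
  have e25 : U 0 2 + U 3 0 = 0 := h3 0 0 2 (by decide)
  have e26 : U 0 2 + U 1 2 + U 2 2 + U 3 1 + U 3 2 = 0 := h3 0 1 2 (by decide)
  have e28 : -U 1 0 - U 3 0 = 0 := h3 1 0 2 (by decide)
  have e31 : -U 0 2 = 0 := h3 2 0 2 (by decide)
  have e33 : U 2 0 + U 2 1 + U 3 0 = 0 := h3 3 0 1 (by decide)
  have e34 : U 2 2 = 0 := h3 3 0 2 (by decide)
  have f_S_0_3 : S 0 3 = 0 := by
    linear_combination e1 + e4 - e5 - e7 + 2 * e12 - 2 * e13 - (1 / 2) * e16 + (1 / 2) * e20 + (1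
        / 2) * e21 - 2 *
      e23 + (1 / 2) * e25 - (1 / 2) * e26 + e34
  have f_S_0_2 : S 0 2 = 0 := by
    linear_combination e0 + e5 - e6 - e12 + 2 * e13 - e17 + (1 / 2) * e20 - e21 + e23 + e25 + e28
        - e31
  have f_S_2_1 : S 2 1 = 0 := by
    linear_combination -e0 - e8 + e10 + (1 / 2) * e17 + (3 / 2) * e19 + e20 - e23 + e25 - e26 -
        e31 + e34
  have f_S_2_0 : S 2 0 = 0 := by
    linear_combination -e1 - e9 + e11 + (1 / 2) * e16 - e19 + f_S_2_1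
  have f_S_2_2 : S 2 2 = 0 := by
    linear_combination e0 + e8 - (1 / 2) * e17 + e28 + f_S_2_0
  have f_S_1_2 : S 1 2 = 0 := by
    linear_combination e0 - e12 - e17 + (1 / 2) * e20 - (1 / 2) * e21 + e25 + e28 + e31
  have f_S_0_1 : S 0 1 = 0 := by
    linear_combination -e5 - e13 + (1 / 2) * e20 - (1 / 2) * e21 + e31
  have f_U_2_1 : U 2 1 = 0 := by
    linear_combination -e16 - e25 - e31 + e33
  have f_U_3_1 : U 3 1 = 0 := by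
    linear_combination -e20 + e26 + e31 - e34
  have f_U_0_1 : U 0 1 = 0 := by
    linear_combination e19 - e23 + e25 + e28
  have f_S_1_1 : S 1 1 = 0 := by
    linear_combination -e13 - (1 / 2) * e20 + (1 / 2) * e21 + e31
  have f_S_0_0 : S 0 0 = 0 := by
    linear_combination -e4 - e12 - (1 / 2) * e20
  have f_S_1_0 : S 1 0 = 0 := by
    linear_combination -e12 + (1 / 2) * e20 - (1 / 2) * e21
  have f_U_1_1 : U 1 1 = 0 := by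
    linear_combination e23 - e25 - e28
  have f_S_2_3 : S 2 3 = 0 := by
    linear_combination e1 + e9 - (1 / 2) * e16
  have f_U_1_0 : U 1 0 = 0 := by
    linear_combination -e25 - e28 - e31
  have f_U_3_0 : U 3 0 = 0 := by
    linear_combination e25 + e31
  have f_U_1_2 : U 1 2 = 0 := by
    linear_combination e20 - e21
  have f_S_1_3 : S 1 3 = 0 := by
    linear_combination e1 - (1 / 2) * e16
  have f_U_3_2 : U 3 2 = 0 := by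
    linear_combination e21
  have f_U_2_2 : U 2 2 = 0 := by
    linear_combination e34
  have f_U_2_0 : U 2 0 = 0 := by
    linear_combination e16
  have f_U_0_0 : U 0 0 = 0 := by
    linear_combination e17
  have f_U_0_2 : U 0 2 = 0 := by
    linear_combination -e31
  refine ⟨?_, ?_⟩
  · funext i0 i1
    fin_cases i0 <;> fin_cases i1
    all_goals first
      | exact f_S_0_0
      | exact f_S_0_1
      | exact f_S_0_2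
      | exact f_S_0_3
      | exact f_S_1_0
      | exact f_S_1_1
      | exact f_S_1_2
      | exact f_S_1_3
      | exact f_S_2_0
      | exact f_S_2_1
      | exact f_S_2_2
      | exact f_S_2_3
  · funext i0 i1
    fin_cases i0 <;> fin_cases i1
    all_goals first
      | exact f_U_0_0
      | exact f_U_0_1
      | exact f_U_0_2
      | exact f_U_1_0
      | exact f_U_1_1
      | exact f_U_1_2
      | exact f_U_2_0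
      | exact f_U_2_1
      | exact f_U_2_2
      | exact f_U_3_0
      | exact f_U_3_1
      | exact f_U_3_2

/-- table -/
def TQa (F1 : Fin 3 → Fin 4 → κ) (F2 : Fin 4 → Fin 3 → κ) : Fin 2 → Fin 3 → Fin 4 → κ :=
  ![![![F1 0 0 - F2 3 0, F1 0 1 - F2 2 0 + 2 * F2 3 0, F1 0 2 + F2 0 0 - F2 1 0 + F2 3 0, F1 0
      3 + 3 * F2 0 0 - 2 * F2 1 0 + 2 * F2 3 0],
      ![F1 0 0 + F1 1 0 - F2 3 1, F1 0 1 + F1 1 1 - F2 2 1 + 2 * F2 3 1, F1 0 2 + F1 1 2 + F2 0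
        1 - F2 1 1 + F2 3 1, F1 0 3 + F1 1 3 + 3 * F2 0 1 - 2 * F2 1 1 + 2 * F2 3 1],
      ![-F2 3 2, -F2 2 2 + 2 * F2 3 2, F2 0 2 - F2 1 2 + F2 3 2, 3 * F2 0 2 - 2 * F2 1 2 + 2 *
        F2 3 2]],
    ![![-F2 3 0, -F2 1 0 - F2 2 0 - F2 3 0, -2 * F2 0 0 + 2 * F2 1 0, F2 1 0 - F2 3 0],
      ![F1 0 0 + F1 1 0 - F2 3 1, F1 0 1 + F1 1 1 - F2 1 1 - F2 2 1 - F2 3 1, F1 0 2 + F1 1 2 -
        2 * F2 0 1 + 2 * F2 1 1, F1 0 3 + F1 1 3 + F2 1 1 - F2 3 1],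
      ![F1 1 0 - F2 3 2, F1 1 1 - F2 1 2 - F2 2 2 - F2 3 2, F1 1 2 - 2 * F2 0 2 + 2 * F2 1 2, F1
        1 3 + F2 1 2 - F2 3 2]]]

theorem tTQa (F1 : Fin 3 → Fin 4 → κ) (F2 : Fin 4 → Fin 3 → κ) (u : Fin 2) (e : Fin 3) (b : Fin 4) :
    ∑ c, Zlo κ u e c * F1 c b + ∑ d, (dA κ).y u b d * F2 d e =
      TQa F1 F2 u e b := by
  simp only [dA_y]
  fin_cases u <;> fin_cases e <;> fin_cases b <;>
    simp [TQa, Zlo, yA, Fin.sum_univ_three, Fin.sum_univ_four] <;> ring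

/-- table -/
def TQb (F1 : Fin 3 → Fin 4 → κ) (F3 : Fin 4 → Fin 3 → κ) : Fin 2 → Fin 3 → Fin 4 → κ :=
  ![![![-3 * F1 0 0 - F1 1 0 + 2 * F1 2 0 - F3 2 0 - F3 3 0, -3 * F1 0 1 - F1 1 1 + 2 * F1 2 1
      - F3 0 0 + 2 * F3 1 0, -3 * F1 0 2 - F1 1 2 + 2 * F1 2 2 - F3 1 0 + 2 * F3 3 0, -3 * F1 0 3
      - F1 1 3 + 2 * F1 2 3 - F3 0 0],
      ![-5 * F1 0 0 + 2 * F1 2 0 - F3 2 1 - F3 3 1, -5 * F1 0 1 + 2 * F1 2 1 - F3 0 1 + 2 * F3 1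
        1, -5 * F1 0 2 + 2 * F1 2 2 - F3 1 1 + 2 * F3 3 1, -5 * F1 0 3 + 2 * F1 2 3 - F3 0 1],
      ![F1 1 0 - F3 2 2 - F3 3 2, F1 1 1 - F3 0 2 + 2 * F3 1 2, F1 1 2 - F3 1 2 + 2 * F3 3 2, F1
        1 3 - F3 0 2]],
    ![![F1 0 0, F1 0 1 - F3 1 0, F1 0 2 + F3 1 0, F1 0 3],
      ![2 * F1 0 0 - F1 1 0 - 2 * F1 2 0, 2 * F1 0 1 - F1 1 1 - 2 * F1 2 1 - F3 1 1, 2 * F1 0 2
        - F1 1 2 - 2 * F1 2 2 + F3 1 1, 2 * F1 0 3 - F1 1 3 - 2 * F1 2 3],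
      ![F1 0 0 + F1 1 0 - 2 * F1 2 0, F1 0 1 + F1 1 1 - 2 * F1 2 1 - F3 1 2, F1 0 2 + F1 1 2 - 2
        * F1 2 2 + F3 1 2, F1 0 3 + F1 1 3 - 2 * F1 2 3]]]

theorem tTQb (F1 : Fin 3 → Fin 4 → κ) (F3 : Fin 4 → Fin 3 → κ) (u : Fin 2) (e : Fin 3) (b : Fin 4) :
    ∑ c, Zol κ u e c * F1 c b + ∑ d, (dB κ).y u b d * F3 d e =
      TQb F1 F3 u e b := by
  simp only [dB_y]
  fin_cases u <;> fin_cases e <;> fin_cases b <;>
    simp [TQb, Zol, yB, Fin.sum_univ_three, Fin.sum_univ_four] <;> ring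

/-- table -/
def TQc (F2 : Fin 4 → Fin 3 → κ) (F3 : Fin 4 → Fin 3 → κ) : Fin 4 → Fin 3 → Fin 3 → κ :=
  ![![![2 * F3 0 0 + F3 2 0, 0, F3 2 0 - F3 3 0],
      ![-F2 1 0 + 2 * F2 2 0 + 2 * F3 0 1 + F3 2 1, -F2 1 1 + 2 * F2 2 1, -F2 1 2 + 2 * F2 2 2 +
        F3 2 1 - F3 3 1],
      ![-F2 0 0 + F2 2 0 + 2 * F3 0 2 + F3 2 2, -F2 0 1 + F2 2 1, -F2 0 2 + F2 2 2 + F3 2 2 - F3
        3 2]],
    ![![F2 0 0 + F2 3 0 - F3 0 0 + F3 1 0 - F3 3 0, F2 0 1 + F2 3 1, F2 0 2 + F2 3 2 + F3 0 0 +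
      F3 1 0],
      ![-F3 0 1 + F3 1 1 - F3 3 1, 0, F3 0 1 + F3 1 1],
      ![F2 3 0 - F3 0 2 + F3 1 2 - F3 3 2, F2 3 1, F2 3 2 + F3 0 2 + F3 1 2]],
    ![![F2 1 0 + F2 2 0 - F2 3 0 + 2 * F3 0 0 + F3 2 0, F2 1 1 + F2 2 1 - F2 3 1 - F3 0 0 + F3 1
      0, F2 1 2 + F2 2 2 - F2 3 2 - F3 0 0 + F3 2 0 - F3 3 0],
      ![-F2 1 0 + 2 * F2 2 0 + 2 * F3 0 1 + F3 2 1, -F2 1 1 + 2 * F2 2 1 - F3 0 1 + F3 1 1, -F2
        1 2 + 2 * F2 2 2 - F3 0 1 + F3 2 1 - F3 3 1],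
      ![F2 0 0 + 2 * F2 2 0 + 2 * F3 0 2 + F3 2 2, F2 0 1 + 2 * F2 2 1 - F3 0 2 + F3 1 2, F2 0 2
        + 2 * F2 2 2 - F3 0 2 + F3 2 2 - F3 3 2]],
    ![![F2 0 0 + F2 3 0, F2 0 1 + F2 3 1 - F3 2 0 - F3 3 0, F2 0 2 + F2 3 2 - F3 1 0 - F3 2 0 -
      F3 3 0],
      ![F2 0 0 - F2 1 0 + F2 2 0 - F2 3 0, F2 0 1 - F2 1 1 + F2 2 1 - F2 3 1 - F3 2 1 - F3 3 1,
        F2 0 2 - F2 1 2 + F2 2 2 - F2 3 2 - F3 1 1 - F3 2 1 - F3 3 1],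
      ![F2 2 0, F2 2 1 - F3 2 2 - F3 3 2, F2 2 2 - F3 1 2 - F3 2 2 - F3 3 2]]]

theorem tTQc (F2 : Fin 4 → Fin 3 → κ) (F3 : Fin 4 → Fin 3 → κ) (b : Fin 4) (a : Fin 3) (e : Fin 3) :
    ∑ d, (dA κ).r b a d * F2 d e + ∑ d, (dB κ).r b e d * F3 d a =
      TQc F2 F3 b a e := by
  simp only [dA_r, dB_r]
  fin_cases b <;> fin_cases a <;> fin_cases e <;>
    simp [TQc, rA, rB, Fin.sum_univ_four] <;> ring

/-- table -/
def TQd (F2 : Fin 4 → Fin 3 → κ) : Fin 3 → Fin 4 → κ :=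
  ![![-F2 1 0 + F2 2 0, -F2 2 0, -F2 0 0 + F2 1 0 + F2 2 0, 0],
    ![-F2 1 1 + F2 2 1, -F2 2 1, -F2 0 1 + F2 1 1 + F2 2 1, 0],
    ![-F2 1 2 + F2 2 2, -F2 2 2, -F2 0 2 + F2 1 2 + F2 2 2, 0]]

theorem tTQd (F2 : Fin 4 → Fin 3 → κ) (e : Fin 3) (b : Fin 4) :
    ∑ d, (dA κ).p b d * F2 d e =
      TQd F2 e b := by
  simp only [dA_p]
  fin_cases e <;> fin_cases b <;>
    simp [TQd, pA, Fin.sum_univ_four] <;> ring

/-- table -/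
def TQe (F3 : Fin 4 → Fin 3 → κ) : Fin 3 → Fin 4 → κ :=
  ![![-F3 0 0 + F3 1 0 + F3 2 0 + F3 3 0, -F3 1 0 - F3 2 0, -F3 0 0 - F3 3 0, F3 0 0 + F3 3 0],
    ![-F3 0 1 + F3 1 1 + F3 2 1 + F3 3 1, -F3 1 1 - F3 2 1, -F3 0 1 - F3 3 1, F3 0 1 + F3 3 1],
    ![-F3 0 2 + F3 1 2 + F3 2 2 + F3 3 2, -F3 1 2 - F3 2 2, -F3 0 2 - F3 3 2, F3 0 2 + F3 3 2]]

theorem tTQe (F3 : Fin 4 → Fin 3 → κ) (e : Fin 3) (b : Fin 4) :
    ∑ d, (dB κ).p b d * F3 d e =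
      TQe F3 e b := by
  simp only [dB_p]
  fin_cases e <;> fin_cases b <;>
    simp [TQe, pB, Fin.sum_univ_four] <;> ring

theorem coreQ : CoreQ (gA κ) (gB κ) (dA κ) (dB κ) := by
  intro F1 F2 F3 h1 h2 h3 h4 h5
  simp only [tTQa] at h1
  simp only [tTQb] at h2
  simp only [tTQc] at h3
  simp only [tTQd] at h4
  simp only [tTQe] at h5
  obtain ⟨a0_0, a0_1, a0_2, a0_3, a0_4, a0_5, a0_6, a0_7⟩ := inspB (h1 0)
  obtain ⟨b0_0, b0_1, b0_2, b0_3, b0_4, b0_5, b0_6, b0_7⟩ := inspA (h2 0)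
  obtain ⟨a1_0, a1_1, a1_2, a1_3, a1_4, a1_5, a1_6, a1_7⟩ := inspB (h1 1)
  obtain ⟨b1_0, b1_1, b1_2, b1_3, b1_4, b1_5, b1_6, b1_7⟩ := inspA (h2 1)
  obtain ⟨c0_0, c0_1, c0_2, c0_3, c0_4, c0_5⟩ := insp_lo (h3 0)
  obtain ⟨c1_0, c1_1, c1_2, c1_3, c1_4, c1_5⟩ := insp_lo (h3 1)
  obtain ⟨c2_0, c2_1, c2_2, c2_3, c2_4, c2_5⟩ := insp_lo (h3 2)
  obtain ⟨c3_0, c3_1, c3_2, c3_3, c3_4, c3_5⟩ := insp_lo (h3 3)
  obtain ⟨d_0, d_1, d_2, d_3, d_4, d_5, d_6, d_7⟩ := inspB h4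
  obtain ⟨e_0, e_1, e_2, e_3, e_4, e_5, e_6, e_7⟩ := inspA h5
  have e0 : (F1 0 1 - F2 2 0 + 2 * F2 3 0) = 0 := a0_0
  have e1 : (F1 0 0 - F2 3 0) + (F1 0 2 + F2 0 0 - F2 1 0 + F2 3 0) = 0 := a0_1
  have e2 : (F1 0 2 + F1 1 2 + F2 0 1 - F2 1 1 + F2 3 1) = 0 := a0_2
  have e4 : -(F1 0 0 - F2 3 0) + (F1 0 0 + F1 1 0 - F2 3 1) + (-F2 3 2) = 0 := a0_4
  have e5 : -(F1 0 3 + 3 * F2 0 0 - 2 * F2 1 0 + 2 * F2 3 0) + (-F2 2 2 + 2 * F2 3 2) = 0 := a0_5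
  have e8 : (-3 * F1 0 2 - F1 1 2 + 2 * F1 2 2 - F3 1 0 + 2 * F3 3 0) = 0 := b0_0
  have e11 : (-5 * F1 0 3 + 2 * F1 2 3 - F3 0 1) = 0 := b0_3
  have e13 : (F1 1 1 - F3 0 2 + 2 * F3 1 2) = 0 := b0_5
  have e16 : (-F2 1 0 - F2 2 0 - F2 3 0) = 0 := a1_0
  have e19 : (F1 0 3 + F1 1 3 + F2 1 1 - F2 3 1) = 0 := a1_3
  have e24 : (F1 0 2 + F3 1 0) = 0 := b1_0
  have e27 : (2 * F1 0 3 - F1 1 3 - 2 * F1 2 3) = 0 := b1_3
  have e28 : (2 * F1 0 0 - F1 1 0 - 2 * F1 2 0) + (F1 0 0 + F1 1 0 - 2 * F1 2 0) = 0 := b1_4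
  have e29 : (F1 0 1 + F1 1 1 - 2 * F1 2 1 - F3 1 2) = 0 := b1_5
  have e32 : (2 * F3 0 0 + F3 2 0) = 0 := c0_0
  have e34 : (-F2 1 1 + 2 * F2 2 1) + (2) * (0) = 0 := c0_2
  have e37 : (-F2 0 2 + F2 2 2 + F3 2 2 - F3 3 2) = 0 := c0_5
  have e40 : (0) + (2) * (F2 0 1 + F2 3 1) = 0 := c1_2
  have e41 : (F2 3 0 - F3 0 2 + F3 1 2 - F3 3 2) - (F2 0 1 + F2 3 1) - (F3 0 1 + F3 1 1) = 0 := c1_3
  have e42 : (F2 3 1) - (F2 0 1 + F2 3 1) - (F2 0 2 + F2 3 2 + F3 0 0 + F3 1 0) - (F3 0 1 + F3 1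
      1) = 0
      := c1_4
  have e43 : (F2 3 2 + F3 0 2 + F3 1 2) = 0 := c1_5
  have e47 : (F2 0 0 + 2 * F2 2 0 + 2 * F3 0 2 + F3 2 2) - (F2 1 1 + F2 2 1 - F2 3 1 - F3 0 0 +
      F3 1 0) -
      (-F2 1 2 + 2 * F2 2 2 - F3 0 1 + F3 2 1 - F3 3 1) = 0 := c2_3
  have e49 : (F2 0 2 + 2 * F2 2 2 - F3 0 2 + F3 2 2 - F3 3 2) = 0 := c2_5
  have e50 : (F2 0 0 + F2 3 0) = 0 := c3_0
  have e51 : (F2 0 0 - F2 1 0 + F2 2 0 - F2 3 0) + (F2 0 1 + F2 3 1 - F3 2 0 - F3 3 0) - (F2 0 2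
      + F2 3 2
      - F3 1 0 - F3 2 0 - F3 3 0) = 0 := c3_1
  have e55 : (F2 2 2 - F3 1 2 - F3 2 2 - F3 3 2) = 0 := c3_5
  have e56 : (-F2 2 0) = 0 := d_0
  have e57 : (-F2 1 0 + F2 2 0) + (-F2 0 0 + F2 1 0 + F2 2 0) = 0 := d_1
  have e58 : (-F2 0 1 + F2 1 1 + F2 2 1) = 0 := d_2
  have e60 : -(-F2 1 0 + F2 2 0) + (-F2 1 1 + F2 2 1) + (-F2 1 2 + F2 2 2) = 0 := d_4
  have e61 : -(0) + (-F2 2 2) = 0 := d_5
  have e62 : -(-F2 2 1) + (-F2 0 2 + F2 1 2 + F2 2 2) = 0 := d_6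
  have e63 : (-F2 1 1 + F2 2 1) + (0) = 0 := d_7
  have e64 : (-F3 0 0 - F3 3 0) = 0 := e_0
  have e67 : (F3 0 1 + F3 3 1) = 0 := e_3
  have e69 : (-F3 1 2 - F3 2 2) = 0 := e_5
  have f_F3_2_1 : F3 2 1 = 0 := by
    linear_combination -7 * e16 + 2 * e34 + 5 * e37 + 2 * e40 + e41 - e42 - 3 * e43 - e47 - 6 *
        e49 - 10 * e50 - 2
      * e51 - 14 * e56 - 13 * e57 + 2 * e58 - 9 * e60 - 22 * e61 - 8 * e62 + 10 * e63 + e67 - 2 *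
      e69
  have f_F3_3_0 : F3 3 0 = 0 := by
    linear_combination 2 * e16 - e34 - 2 * e37 - e40 - e41 + e42 + 2 * e43 + 3 * e49 + 4 * e50 +
        e51 + 6 * e56 + 5
      * e57 - e58 + 3 * e60 + 10 * e61 + 3 * e62 - 3 * e63 - e64 + e69
  have f_F3_0_0 : F3 0 0 = 0 := by
    linear_combination -2 * e16 + e34 + 2 * e37 + e40 + e41 - e42 - 2 * e43 - 3 * e49 - 4 * e50 -
        e51 - 6 * e56 - 5
      * e57 + e58 - 3 * e60 - 10 * e61 - 3 * e62 + 3 * e63 - e69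
  have f_F3_1_1 : F3 1 1 = 0 := by
    linear_combination -2 * e5 + e11 + 3 * e16 + e19 + e27 - 10 * e34 - 2 * e37 - e41 + 4 * e43 +
        5 * e49 - 2 * e55
      + 2 * e56 + 6 * e57 + e58 + 7 * e60 + 22 * e61 + 7 * e62 + 5 * e63 + 5 * e69
  have f_F3_0_1 : F3 0 1 = 0 := by
    linear_combination 2 * e5 - e11 - e19 - e27 + 7 * e34 - (1 / 2) * e40 - 4 * e43 - 4 * e49 + 4
        * e50 + 4 * e55 -
      2 * e57 - e58 - 4 * e60 - 14 * e61 - 4 * e62 - 5 * e63 - 8 * e69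
  have f_F1_1_3 : F1 1 3 = 0 := by
    linear_combination e5 + e19 - e34 + (1 / 2) * e40 - 2 * e43 - 2 * e49 + 2 * e50 + 2 * e55 -
        e57 + e58 - 2 * e60
      - 7 * e61 - 2 * e62 + 5 * e63 - 4 * e69
  have f_F1_1_2 : F1 1 2 = 0 := by
    linear_combination e2 - e16 - e24 + e34 - e40 + e43 + e49 + e51 - e55 + 4 * e56 + e57 + e61 -
        2 * e63 + 2 * e69
  have f_F3_1_0 : F3 1 0 = 0 := by
    linear_combination -e16 - (1 / 2) * e40 + e43 + e49 + e51 - e55 + 4 * e56 + e57 + e61 + 2 * e69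
  have f_F2_3_2 : F2 3 2 = 0 := by
    linear_combination e16 - e34 + e43 + e49 + e50 - e55 + e57 + e60 + 3 * e61 + e62 + 2 * e69
  have f_F3_1_2 : F3 1 2 = 0 := by
    linear_combination e16 - e34 - e37 + e50 + e55 + e57 + e60 + 2 * e61 + e62 - 2 * e69
  have f_F2_1_2 : F2 1 2 = 0 := by
    linear_combination -e16 - e50 - e57 - e60 - e61 + e63
  have f_F2_3_1 : F2 3 1 = 0 := by
    linear_combination -2 * e34 + (1 / 2) * e40 + e58 + 3 * e63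
  have f_F2_0_1 : F2 0 1 = 0 := by
    linear_combination 2 * e34 - e58 - 3 * e63
  have f_F2_2_1 : F2 2 1 = 0 := by
    linear_combination e34 - e63
  have f_F2_1_1 : F2 1 1 = 0 := by
    linear_combination -e34 + 2 * f_F2_2_1
  have f_F1_1_0 : F1 1 0 = 0 := by
    linear_combination e4 - e50 - 2 * e56 - e57 + f_F2_3_1 + f_F2_3_2
  have f_F3_2_0 : F3 2 0 = 0 := by
    linear_combination e32 - 2 * f_F3_0_0
  have f_F1_1_1 : F1 1 1 = 0 := by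
    linear_combination e13 - e37 - e49 + 2 * e55 - e61 - 4 * e69 - 4 * f_F3_1_2
  have f_F3_0_2 : F3 0 2 = 0 := by
    linear_combination -e37 - e49 + 2 * e55 - e61 - 4 * e69 - 2 * f_F3_1_2
  have f_F3_3_1 : F3 3 1 = 0 := by
    linear_combination e67 - f_F3_0_1
  have f_F2_0_2 : F2 0 2 = 0 := by
    linear_combination -e37 + e55 - 2 * e69 - f_F3_1_2
  have f_F1_2_2 : F1 2 2 = 0 := by
    linear_combination (1 / 2) * e8 + (3 / 2) * e24 + (1 / 2) * f_F1_1_2 - f_F3_1_0 - f_F3_3_0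
  have f_F1_0_0 : F1 0 0 = 0 := by
    linear_combination e1 - e16 - e24 - e50 + e56 + f_F3_1_0
  have f_F3_3_2 : F3 3 2 = 0 := by
    linear_combination -e55 - e61 + e69
  have f_F3_2_2 : F3 2 2 = 0 := by
    linear_combination -e69 - f_F3_1_2
  have f_F1_2_1 : F1 2 1 = 0 := by
    linear_combination (1 / 2) * e0 - (1 / 2) * e29 - e50 - (5 / 2) * e56 - e57 + (1 / 2) *
        f_F1_1_1 - (1 / 2) *
      f_F3_1_2
  have f_F1_0_3 : F1 0 3 = 0 := by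
    linear_combination -e5 - 2 * e16 - 4 * e50 - e57 + e61 + 2 * f_F2_3_2
  have f_F1_0_2 : F1 0 2 = 0 := by
    linear_combination e24 - f_F3_1_0
  have f_F1_2_3 : F1 2 3 = 0 := by
    linear_combination (1 / 2) * e11 + (5 / 2) * f_F1_0_3 + (1 / 2) * f_F3_0_1
  have f_F1_2_0 : F1 2 0 = 0 := by
    linear_combination -(1 / 4) * e28 + (3 / 4) * f_F1_0_0
  have f_F2_1_0 : F2 1 0 = 0 := by
    linear_combination -e16 - e50 - e56 - e57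
  have f_F1_0_1 : F1 0 1 = 0 := by
    linear_combination e0 - 2 * e50 - 5 * e56 - 2 * e57
  have f_F2_3_0 : F2 3 0 = 0 := by
    linear_combination e50 + 2 * e56 + e57
  have f_F2_0_0 : F2 0 0 = 0 := by
    linear_combination -2 * e56 - e57
  have f_F2_2_2 : F2 2 2 = 0 := by
    linear_combination -e61
  have f_F2_2_0 : F2 2 0 = 0 := by
    linear_combination -e56
  refine ⟨?_, ?_, ?_⟩
  · funext i0 i1
    fin_cases i0 <;> fin_cases i1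
    all_goals first
      | exact f_F1_0_0
      | exact f_F1_0_1
      | exact f_F1_0_2
      | exact f_F1_0_3
      | exact f_F1_1_0
      | exact f_F1_1_1
      | exact f_F1_1_2
      | exact f_F1_1_3
      | exact f_F1_2_0
      | exact f_F1_2_1
      | exact f_F1_2_2
      | exact f_F1_2_3
  · funext i0 i1
    fin_cases i0 <;> fin_cases i1
    all_goals first
      | exact f_F2_0_0
      | exact f_F2_0_1
      | exact f_F2_0_2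
      | exact f_F2_1_0
      | exact f_F2_1_1
      | exact f_F2_1_2
      | exact f_F2_2_0
      | exact f_F2_2_1
      | exact f_F2_2_2
      | exact f_F2_3_0
      | exact f_F2_3_1
      | exact f_F2_3_2
  · funext i0 i1
    fin_cases i0 <;> fin_cases i1
    all_goals first
      | exact f_F3_0_0
      | exact f_F3_0_1
      | exact f_F3_0_2
      | exact f_F3_1_0
      | exact f_F3_1_1
      | exact f_F3_1_2
      | exact f_F3_2_0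
      | exact f_F3_2_1
      | exact f_F3_2_2
      | exact f_F3_3_0
      | exact f_F3_3_1
      | exact f_F3_3_2

end

end F4

end Pool.Agent.VCU
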