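import Pool.Agent.VCU.Targets

set_option autoImplicit false

/-!
# Target `T_LAT`

Primitive representatives modulo a subspace which specialises.
-/

namespace Pool.Agent.VCU

open Pool.Agent.VCC Pool.Agent.VCT

universe u

namespace LAT_

variable {K κ : Type u} [Field K] [Field κ] (P : Place K κ)

/-- a family of integral vectors with linearly independent reductions is linearly independent -/
lemma linInd {J I : Type} [Fintype I] (f : I → J → P.B)
    (hf : ∀ g : I → κ, (∀ k, ∑ i, g i * P.r (f i k) = 0) → ∀ i, g i = 0) :
    LinearIndependent K fun i k => (f i k : K) := by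
  classical
  rw [Fintype.linearIndependent_iff]
  intro g hg
  by_contra hne
  push Not at hne
  obtain ⟨c, -, y, hy, i0, hi0⟩ := (p_PRIM K κ P I g).1 hne
  have h1 : ∀ k, ∑ i, y i * f i k = 0 := by
    intro k
    apply Subtype.ext
    have h2 := congrFun hg k
    rw [Finset.sum_apply] at h2
    simp only [Pi.smul_apply, smul_eq_mul, Pi.zero_apply] at h2
    push_cast
    simp only [← hy, mul_assoc]
    rw [← Finset.mul_sum, h2, mul_zero]
  have h2 := hf (fun i => P.r (y i)) (fun k => by
    have := congrArg P.r (h1 k)
    rw [map_sum, map_zero] at this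
    simp only [map_mul] at this
    exact this) i0
  simp only [hi0, map_one] at h2
  exact one_ne_zero h2

end LAT_

theorem p_LAT : T_LAT.{u} := by
  intro K κ _ _ P J _ T T' hT x hx
  classical
  obtain ⟨A, a, hainj, haspan, hali⟩ :=
    exists_linearIndependent' κ (fun j : J => T'.mkQ (Pi.single j (1 : κ)))
  have hfinA : Finite A := Finite.of_injective a hainj
  let _ : Fintype A := Fintype.ofFinite A
  set p := Module.finrank κ T' with hp
  let bT := Module.finBasis κ T'
  choose t ht htr using fun i => hT (bT i) (bT i).2
  let f : Fin p ⊕ A → J → P.B := Sum.elim t (fun j k => if k = a j then 1 else 0)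
  -- combinations of the unit vectors modulo `T'`
  have hmod : ∀ g : A → κ, (fun k => ∑ j, g j * (if k = a j then (1 : κ) else 0)) ∈ T' →
      ∀ j, g j = 0 := by
    intro g hg
    have h1 : (fun k => ∑ j, g j * (if k = a j then (1 : κ) else 0)) =
        ∑ j, g j • (Pi.single (a j) (1 : κ) : J → κ) := by
      funext k
      rw [Finset.sum_apply]
      refine Finset.sum_congr rfl fun j _ => ?_
      rw [Pi.smul_apply, Pi.single_apply, smul_eq_mul]
    rw [h1, ← Submodule.Quotient.mk_eq_zero, ← Submodule.mkQ_apply, map_sum] at hg
    simp only [map_smul] at hg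
    exact Fintype.linearIndependent_iff.1 hali g hg
  have hfli : LinearIndependent K fun s k => (f s k : K) := by
    refine LAT_.linInd P f fun g hg => ?_
    have h0 : ∀ k, ∑ i, g (Sum.inl i) * (bT i : J → κ) k +
        ∑ j, g (Sum.inr j) * (if k = a j then (1 : κ) else 0) = 0 := by
      intro k
      have := hg k
      rw [Fintype.sum_sum_type] at this
      refine Eq.trans ?_ this
      congr 1
      · refine Finset.sum_congr rfl fun i _ => ?_
        rw [← htr i k]
        rfl
      · refine Finset.sum_congr rfl fun j _ => ?_
        show _ = _ * P.r (if k = a j then 1 else 0)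
        split_ifs <;> simp
    have h1 : ∀ j, g (Sum.inr j) = 0 := by
      apply hmod
      have h2 : (fun k => ∑ j, g (Sum.inr j) * (if k = a j then (1 : κ) else 0)) =
          -((∑ i, g (Sum.inl i) • bT i : T') : J → κ) := by
        funext k
        rw [Pi.neg_apply, Submodule.coe_sum, Finset.sum_apply]
        simp only [Submodule.coe_smul, Pi.smul_apply, smul_eq_mul]
        linear_combination h0 k
      rw [h2]
      exact T'.neg_mem (∑ i, g (Sum.inl i) • bT i : T').2
    have h3 : ∀ i, g (Sum.inl i) = 0 := by
      refine Fintype.linearIndependent_iff.1 bT.linearIndependent (fun i => g (Sum.inl i)) ?_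
      apply Subtype.ext
      funext k
      rw [Submodule.coe_sum, Finset.sum_apply]
      have := h0 k
      simp only [h1, zero_mul, Finset.sum_const_zero, add_zero] at this
      simp only [Submodule.coe_smul, Pi.smul_apply, smul_eq_mul]
      exact this
    rintro (i | j)
    · exact h3 i
    · exact h1 j
  have hspan : Submodule.span κ (Set.range fun j : J => T'.mkQ (Pi.single j (1 : κ))) = ⊤ := by
    have h1 : Set.range (fun j : J => T'.mkQ (Pi.single j (1 : κ))) =
        T'.mkQ '' Set.range fun j : J => (Pi.single j (1 : κ) : J → κ) := by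
      rw [← Set.range_comp]
      rfl
    rw [h1, Submodule.span_image]
    have h2 : Submodule.span κ (Set.range fun j : J => (Pi.single j (1 : κ) : J → κ)) = ⊤ := by
      have := (Pi.basisFun κ J).span_eq
      convert this using 3
      funext j
      rw [Pi.basisFun_apply]
    rw [h2, Submodule.map_top, Submodule.range_mkQ]
  have hcardA : Fintype.card A = Module.finrank κ ((J → κ) ⧸ T') := by
    have h1 := finrank_span_eq_card hali
    rw [haspan, hspan, finrank_top] at h1
    exact h1.symm
  have hcard : Fintype.card (Fin p ⊕ A) = Module.finrank K (J → K) := by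
    rw [Fintype.card_sum, Fintype.card_fin, hcardA, Module.finrank_pi]
    have h1 := Submodule.finrank_quotient_add_finrank T'
    rw [Module.finrank_pi] at h1
    omega
  have htop := hfli.span_eq_top_of_card_eq_finrank' hcard
  have hxs : x ∈ Submodule.span K (Set.range fun s k => (f s k : K)) := by
    rw [htop]; trivial
  obtain ⟨g, hg⟩ := (Submodule.mem_span_range_iff_exists_fun K).1 hxs
  rw [Fintype.sum_sum_type] at hg
  have h1T : ∑ i, g (Sum.inl i) • (fun k => (f (Sum.inl i) k : K)) ∈ T :=
    T.sum_mem fun i _ => T.smul_mem _ (ht i)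
  have hne : ∃ j : A, g (Sum.inr j) ≠ 0 := by
    by_contra h
    push Not at h
    apply hx
    rw [← hg]
    simp only [h, zero_smul, Finset.sum_const_zero, add_zero]
    exact h1T
  obtain ⟨c, -, y, hy, j0, hj0⟩ := (p_PRIM K κ P A fun j => g (Sum.inr j)).1 hne
  refine ⟨c, c • ∑ i, g (Sum.inl i) • (fun k => (f (Sum.inl i) k : K)),
    fun k => ∑ j, y j * (if k = a j then 1 else 0), T.smul_mem _ h1T, fun k => ?_, ?_⟩
  · have h2 := congrFun hg k
    rw [Pi.add_apply, Finset.sum_apply, Finset.sum_apply] at h2
    simp only [Pi.smul_apply, smul_eq_mul] at h2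
    rw [Pi.smul_apply, Finset.sum_apply]
    simp only [Pi.smul_apply, smul_eq_mul]
    rw [← h2, mul_add, add_sub_cancel_left, Finset.mul_sum]
    push_cast
    refine Finset.sum_congr rfl fun j _ => ?_
    show _ = c * (g (Sum.inr j) * ((if k = a j then (1 : P.B) else 0 : P.B) : K))
    rw [← mul_assoc, hy]
  · intro h
    have h2 : (fun k => P.r (∑ j, y j * (if k = a j then 1 else 0))) =
        fun k => ∑ j, P.r (y j) * (if k = a j then (1 : κ) else 0) := by
      funext k
      rw [map_sum]
      refine Finset.sum_congr rfl fun j _ => ?_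
      rw [map_mul]
      split_ifs <;> simp
    rw [h2] at h
    have h3 := hmod _ h j0
    rw [hj0, map_one] at h3
    exact one_ne_zero h3

end Pool.Agent.VCU
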