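import Pool.Agent.VCU.Defs

/-!
# Targets, general part

Every target `T_X` is proved in its own file `Pool/Agent/VCU/X.lean` as `theorem p_X : T_X`.
See `Blueprint.lean.txt`.
-/

set_option autoImplicit false

namespace Pool.Agent.VCU

open Pool.Agent.VCC Pool.Agent.VCT HilbPts

universe u

/-! ## Graded spaces and specialisation -/

/-- it suffices to treat the classes -/
def T_GRD : Prop := ∀ (K : Type u) [Field K] (ι G : Type) [Fintype ι] [DecidableEq ι]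
  [AddCommGroup G] [Fintype G] [DecidableEq G] (cl : ι → G) (Ψ : G → Prop)
  (𝓕min 𝓕max : Submodule K (ι → ι → K)),
  (Graded cl 𝓕max → (∀ ψ, NCC cl ψ 𝓕max) → NoCubic 𝓕max) ∧
  (Graded cl 𝓕min → Graded cl 𝓕max → (∀ χ, T1C cl Ψ χ 𝓕min 𝓕max) → T1 𝓕min 𝓕max)

/-- primitive representatives modulo a subspace -/
def T_LAT : Prop := ∀ (K κ : Type u) [Field K] [Field κ] (P : Place K κ) (J : Type) [Fintype J]
  (T : Submodule K (J → K)) (T' : Submodule κ (J → κ)),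
  (∀ x' ∈ T', ∃ x : J → P.B, (fun j => (x j : K)) ∈ T ∧ ∀ j, P.r (x j) = x' j) →
  ∀ x : J → K, x ∉ T → ∃ (c : K) (τ : J → K) (μ : J → P.B), τ ∈ T ∧
    (∀ j, (μ j : K) = c * x j - τ j) ∧ (fun j => P.r (μ j)) ∉ T'

/-- semicontinuity -/
def T_SC : Prop := ∀ (K κ : Type u) [Field K] [Field κ] (P : Place K κ) (ι G : Type) [Fintype ι]
  [DecidableEq ι] [AddCommGroup G] [DecidableEq G] (cl : ι → G) (Ψ : G → Prop)
  (𝓕min 𝓕max : Submodule K (ι → ι → K)) (𝓕min' 𝓕max' : Submodule κ (ι → ι → κ)),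
  Function.Surjective P.r → Spec P 𝓕min 𝓕min' → Spec P 𝓕max 𝓕max' →
  Graded cl 𝓕min → Graded cl 𝓕max → 𝓕min ≤ 𝓕max →
  (∀ F ∈ 𝓕max, ∀ x y, F x y = F y x) →
  (∀ ψ, NCC cl ψ 𝓕max' → NCC cl ψ 𝓕max) ∧ (RowSpan 𝓕min' → RowSpan 𝓕min) ∧
  ∀ χ, (∀ ψ, Ψ ψ → NCC cl ψ 𝓕max') → T1C cl Ψ χ 𝓕min' 𝓕max' → T1C cl Ψ χ 𝓕min 𝓕max

/-- the spaces are graded -/
def T_GRZ : Prop := ∀ (m s t : ℕ) (K : Type u) [Field K] (w : Arr m K) (v : VArr m s K)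
  (hz : Fin s → Fin s → ℤ) (qz : Fin t → Fin s → Fin s → ℤ), Graded clz (FZ w v hz qz)

/-- specialisation of the spaces -/
def T_SPEC : Prop := ∀ (m s t : ℕ) (K κ : Type u) [Field K] [Field κ] (P : Place K κ)
  (w : Arr m P.B) (v : VArr m s P.B) (hz : Fin s → Fin s → ℤ) (qz : Fin t → Fin s → Fin s → ℤ),
  Function.Surjective P.r → 0 < m → WSym w → Shp hz → (∀ τ, Shp (qz τ)) → LIq κ qz →
  (∀ i j, i ≠ j → LI3 (w.map P.r i j)) → (∀ i, LIv (v.map P.r i)) →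
  Spec P (FZ (w.map P.B.subtype) (v.map P.B.subtype) hz qz) (FZ (w.map P.r) (v.map P.r) hz qz)

/-! ## The syzygies and the systems of the classes -/

/-- the images of the syzygies -/
def T_SYZ : Prop := ∀ (m s t : ℕ) (K : Type u) [Field K] (w : Arr m K) (v : VArr m s K)
  (hz : Fin s → Fin s → ℤ) (qz : Fin t → Fin s → Fin s → ℤ) (D : ZD m s t K),
  WSym w → Shp hz → (∀ τ, Shp (qz τ)) → ZDOK w v hz qz D →
  ∀ lam : IZ m s → IZ m s → IZ m s → K, (∀ t y z, lam t y z = lam t z y) →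
  ∀ (F : IZ m s → IZ m s → K) (G : IZ m s → IZ m s → IZ m s → K),
  (∀ x, G x ∈ FZ w v hz qz) → TSym (fun x y z => (∑ t, F x t * lam t y z) + G x y z) →
  (∀ i u, ∑ x, ∑ t, F x t *
    QE w v D (Sf lam) (Ff w lam) (Fzf v lam) (Gf hz lam) (Gqf qz lam) i u x t = 0) ∧
  (∀ b, ∑ x, ∑ t, F x t *
    QEZ v hz qz D (Sf lam) (Fzf v lam) (Gf hz lam) (Gqf qz lam) b x t = 0) ∧
  ∀ i, ∑ x, ∑ t, F x t * QP v D (Sf lam) (Fzf v lam) (Gqf qz lam) i x t = 0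

/-- double annihilators, by classes -/
def T_DAN : Prop := ∀ (m s t : ℕ) (K : Type u) [Field K] (w : Arr m K) (v : VArr m s K)
  (hz : Fin s → Fin s → ℤ) (qz : Fin t → Fin s → Fin s → ℤ),
  0 < m → WSym w → Shp hz → (∀ τ, Shp (qz τ)) → ∀ QQ : IZ m s → IZ m s → K,
  (∀ i l, i ≠ l →
    (∀ F ∈ FZ w v hz qz, HomF clz (ei i + ei l) F → ∑ x, ∑ t, F x t * QQ x t = 0) →
    InSp (w i l) fun e b => QQ (xv i e) (xv l b) + QQ (xv l b) (xv i e)) ∧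
  (∀ i, (∀ F ∈ FZ w v hz qz, HomF clz (ei i + eZ) F → ∑ x, ∑ t, F x t * QQ x t = 0) →
    InSpZ (v i) fun e b => QQ (xv i e) (zv b) + QQ (zv b) (xv i e)) ∧
  ((∀ F ∈ FZ w v hz qz, HomF clz 0 F → ∑ x, ∑ t, F x t * QQ x t = 0) →
    ∃ (μ : K) (ν : Fin t → K),
      (∀ k e b, e ≠ b → QQ (xv k e) (xv k b) + QQ (xv k b) (xv k e) = μ) ∧
      ∀ b c, b ≠ c → QQ (zv b) (zv c) + QQ (zv c) (zv b) =
        μ * qs K hz b c + ∑ τ, ν τ * qs K (qz τ) b c)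

/-- the classes `χ = e_l` -/
def T_CLL : Prop := ∀ (m s t t' : ℕ) (K : Type u) [Field K] [CharZero K] (w : Arr m K)
  (v : VArr m s K) (hz : Fin s → Fin s → ℤ) (qz : Fin t → Fin s → Fin s → ℤ)
  (qz' : Fin t' → Fin s → Fin s → ℤ) (D : ZD m s t K),
  WSym w → Shp hz → (∀ τ, Shp (qz τ)) → (∀ τ, Shp (qz' τ)) → ZDOK w v hz qz D →
  FZ w v hz qz' ≤ FZ w v hz qz → ∀ l, GoodEL w v hz qz qz' D l →
  T1C clz Psi (ei l) (FZ w v hz qz') (FZ w v hz qz)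

/-- the class `χ = e_Z` -/
def T_CLZ : Prop := ∀ (m s t t' : ℕ) (K : Type u) [Field K] [CharZero K] (w : Arr m K)
  (v : VArr m s K) (hz : Fin s → Fin s → ℤ) (qz : Fin t → Fin s → Fin s → ℤ)
  (qz' : Fin t' → Fin s → Fin s → ℤ) (D : ZD m s t K),
  0 < m → WSym w → Shp hz → (∀ τ, Shp (qz τ)) → (∀ τ, Shp (qz' τ)) → ZDOK w v hz qz D →
  FZ w v hz qz' ≤ FZ w v hz qz → GoodEZ w v hz qz qz' D →
  T1C clz Psi eZ (FZ w v hz qz') (FZ w v hz qz)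

/-- the classes of three blocks -/
def T_CLT : Prop := ∀ (m s t t' : ℕ) (K : Type u) [Field K] [CharZero K] (w : Arr m K)
  (v : VArr m s K) (hz : Fin s → Fin s → ℤ) (qz : Fin t → Fin s → Fin s → ℤ)
  (qz' : Fin t' → Fin s → Fin s → ℤ) (D : ZD m s t K),
  0 < m → WSym w → Shp hz → (∀ τ, Shp (qz τ)) → (∀ τ, Shp (qz' τ)) → ZDOK w v hz qz D →
  FZ w v hz qz' ≤ FZ w v hz qz →
  (∀ i j l, i ≠ j → i ≠ l → j ≠ l → GoodABC w D.z i j l →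
    T1C clz Psi (ei i + ei j + ei l) (FZ w v hz qz') (FZ w v hz qz)) ∧
  ∀ i j, i ≠ j → GoodQ w v D i j →
    T1C clz Psi (ei i + ei j + eZ) (FZ w v hz qz') (FZ w v hz qz)

/-- the other classes -/
def T_CLO : Prop := ∀ (m s t t' : ℕ) (K : Type u) [Field K] (w : Arr m K)
  (v : VArr m s K) (hz : Fin s → Fin s → ℤ) (qz : Fin t → Fin s → Fin s → ℤ)
  (qz' : Fin t' → Fin s → Fin s → ℤ) (χ : Cl m), (∀ l, χ ≠ ei l) → χ ≠ eZ →
  (∀ i j l, i ≠ j → i ≠ l → j ≠ l → χ ≠ ei i + ei j + ei l) →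
  (∀ i j, i ≠ j → χ ≠ ei i + ei j + eZ) →
  NCC clz χ (FZ w v hz qz) ∧ T1C clz Psi χ (FZ w v hz qz') (FZ w v hz qz)

/-- no cubics -/
def T_NCZ : Prop := ∀ (m s t : ℕ) (K : Type u) [Field K] (w : Arr m K) (v : VArr m s K)
  (hz : Fin s → Fin s → ℤ) (qz : Fin t → Fin s → Fin s → ℤ), WSym w →
  (∀ i, (∀ j, j ≠ i → D2 (w i j)) → N1 (v i) qz → NCC clz (ei i) (FZ w v hz qz)) ∧
  ((∀ i, N2 (v i)) → N3 K qz → NCC clz eZ (FZ w v hz qz)) ∧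
  (∀ i j l, i ≠ j → i ≠ l → j ≠ l → D3 (w i j) (w i l) (w j l) →
    NCC clz (ei i + ei j + ei l) (FZ w v hz qz)) ∧
  ∀ i j, i ≠ j → N4 (w i j) (v i) (v j) → NCC clz (ei i + ei j + eZ) (FZ w v hz qz)

/-- dimension -/
def T_DIMZ : Prop := ∀ (m s t : ℕ) (K : Type u) [Field K] (w : Arr m K) (v : VArr m s K)
  (hz : Fin s → Fin s → ℤ) (qz : Fin t → Fin s → Fin s → ℤ), 0 < m → WSym w → Shp hz →
  (∀ τ, Shp (qz τ)) → LIq K qz → (∀ i j, i ≠ j → LI3 (w i j)) → (∀ i, LIv (v i)) →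
  Module.finrank K (FZ w v hz qz) + 1 + t = 6 * m.choose 2 + 2 * s * m + 3 * m + s.choose 2

/-! ## Generic forms -/

/-- Generic forms exist. -/
def T_GENXU : Prop := ∀ (m s : ℕ) (k : Type u) [Field k] [CharZero k],
  ∃ (κ : Type u) (_ : Field κ) (_ : Algebra k κ) (w : Arr m κ) (v : VArr m s κ),
    GenericU k κ w v

end Pool.Agent.VCU
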