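import Pool.Agent.VCU.Defs2

/-!
# Targets, special families and assembly
-/

set_option autoImplicit false

namespace Pool.Agent.VCU

open Pool.Agent.VCC Pool.Agent.VCT HilbPts Pool.Agent.VCT.SP_

universe u

/-- no linear socle -/
def T_RSP : Prop := ∀ (m s t : ℕ) (K : Type u) [Field K] (w : Arr m K) (v : VArr m s K)
  (hz : Fin s → Fin s → ℤ) (qz : Fin t → Fin s → Fin s → ℤ), WSym w → Shp hz →
  (∀ j, ∃ i, i ≠ j ∧ RS3 (w i j)) → (∃ i, RSZ (v i)) → RowSpan (FZ w v hz qz)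

/-- the forms `wlo` -/
def T_RS3 : Prop := ∀ (κ : Type u) [Field κ], RS3 (wlo κ) ∧ RS3 (tr (wlo κ))

/-- the data of the special family -/
def T_FOK : Prop := ∀ (m s t : ℕ) (κ : Type u) [Field κ] [CharZero κ]
  (hz : Fin s → Fin s → ℤ) (qz : Fin t → Fin s → Fin s → ℤ) (A B L : VFm s κ)
  (dA dB dL : BD s t κ) (k : Fin s → Fin s → Fin t → κ), BDOK A hz qz dA → BDOK B hz qz dB →
  BDOK L hz qz dL → KOK hz qz k → ∀ l a : Fin m, l ≠ a →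
  WSym (wF κ l a) ∧ (∀ i j, i ≠ j → D2 (wF κ l a i j)) ∧
  ZDOK (wF κ l a) (vF l a A B L) hz qz (dF l a dA dB dL k)

/-- the class `e_l`, special family -/
def T_FEL : Prop := ∀ (m s t t' : ℕ) (κ : Type u) [Field κ] [CharZero κ]
  (hz : Fin s → Fin s → ℤ) (qz : Fin t → Fin s → Fin s → ℤ) (qz' : Fin t' → Fin s → Fin s → ℤ)
  (A B L : VFm s κ) (dA dB dL : BD s t κ) (k : Fin s → Fin s → Fin t → κ),
  CoreL A B hz qz qz' dA dB k → LocZ L dL → ∀ l a : Fin m, l ≠ a →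
  GoodEL (wF κ l a) (vF l a A B L) hz qz qz' (dF l a dA dB dL k) l

/-- the class `e_Z`, special family -/
def T_FEZ : Prop := ∀ (m s t t' : ℕ) (κ : Type u) [Field κ] [CharZero κ]
  (hz : Fin s → Fin s → ℤ) (qz : Fin t → Fin s → Fin s → ℤ) (qz' : Fin t' → Fin s → Fin s → ℤ)
  (A B L : VFm s κ) (dA dB dL : BD s t κ) (k : Fin s → Fin s → Fin t → κ),
  CoreZ A B hz qz qz' dA dB k → OutZ L dL → LocZ L dL → ∀ l a : Fin m, l ≠ a →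
  GoodEZ (wF κ l a) (vF l a A B L) hz qz qz' (dF l a dA dB dL k)

/-- the class `e_l + e_a + e_Z`, special family -/
def T_FQ : Prop := ∀ (m s t : ℕ) (κ : Type u) [Field κ] [CharZero κ]
  (A B L : VFm s κ) (dA dB dL : BD s t κ) (k : Fin s → Fin s → Fin t → κ),
  CoreQ A B dA dB → ∀ l a : Fin m, l ≠ a →
  GoodQ (wF κ l a) (vF l a A B L) (dF l a dA dB dL k) l a

/-- generic forms are good -/
def T_GU : Prop := ∀ (m s t t' : ℕ) (hz : Fin s → Fin s → ℤ) (qz : Fin t → Fin s → Fin s → ℤ)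
  (qz' : Fin t' → Fin s → Fin s → ℤ) (A B L : VFm s ℤ), 2 ≤ m →
  (∀ (κ : Type u) [Field κ] [CharZero κ], ∃ dA dB dL k, FinOK κ hz qz qz' A B L dA dB dL k) →
  ∀ (k κ : Type u) [Field k] [Field κ] [CharZero k] (w : Arr m κ) (v : VArr m s κ),
  GenericU k κ w v →
  (∀ i j, i ≠ j → LI3 (w i j)) ∧ (∀ i, LIv (v i)) ∧ NoCubic (FZ w v hz qz) ∧
  RowSpan (FZ w v hz qz') ∧ T1 (FZ w v hz qz') (FZ w v hz qz)

/-! ## The data -/

/-- `h_Z`, `s = 2` -/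
def hz2 : Fin 2 → Fin 2 → ℤ := ![![0, 1], ![0, 0]]
/-- no quadrics `q`, `s = 2` -/
def qz2 : Fin 0 → Fin 2 → Fin 2 → ℤ := ![]
/-- `h_Z`, `s = 4` -/
def hz4 : Fin 4 → Fin 4 → ℤ := ![![0, 0, 0, 0], ![0, 0, 1, 0], ![0, 0, 0, 0], ![0, 0, 0, 0]]
/-- the quadric `q`, `s = 4` -/
def qz4 : Fin 1 → Fin 4 → Fin 4 → ℤ :=
  ![![![0, 1, 0, 0], ![0, 0, 0, 0], ![0, 0, 0, 1], ![0, 0, 0, 0]]]
/-- the quadrics `q` and `z_0 z_1`, `s = 4` -/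
def qz4' : Fin 2 → Fin 4 → Fin 4 → ℤ :=
  ![![![0, 1, 0, 0], ![0, 0, 0, 0], ![0, 0, 0, 1], ![0, 0, 0, 0]],
    ![![0, 1, 0, 0], ![0, 0, 0, 0], ![0, 0, 0, 0], ![0, 0, 0, 0]]]

/-- existence of the finite data, `s = 2` -/
def T_FIN2 : Prop := ∃ A B L : VFm 2 ℤ, ∀ (κ : Type u) [Field κ] [CharZero κ],
  ∃ dA dB dL k, FinOK κ hz2 qz2 qz2 A B L dA dB dL k
/-- existence of the finite data, `s = 4` -/
def T_FIN4 : Prop := ∃ A B L : VFm 4 ℤ, ∀ (κ : Type u) [Field κ] [CharZero κ],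
  ∃ dA dB dL k, FinOK κ hz4 qz4 qz4' A B L dA dB dL k

/-- The result. -/
def T_TOPU : Prop := ∀ (n r : ℕ),
  (8 ≤ n ∧ n % 3 = 2 ∧ 3 * r + 4 = n ^ 2) ∨
    (10 ≤ n ∧ n % 3 = 1 ∧ (3 * r + 4 = n ^ 2 ∨ 3 * r + 7 = n ^ 2)) →
  ∀ (k : Type u) [Field k] [IsAlgClosed k] [CharZero k],
  closure (VC n (1 + n + r) k) ∈ irreducibleComponents (Hilb n (1 + n + r) k)

end Pool.Agent.VCU
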